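import Mathlib

/-!
# Definitions for the mean value theorem on Kummer's conjecture

`q` is always a prime, `Λ` the von Mangoldt function.
-/

set_option autoImplicit false

open Finset
open ArithmeticFunction (vonMangoldt)

namespace Pool.Agent.Lib.MP_5deb1d_nt

/-- the indicator of the class `1` (`a = true`) resp. `-1` (`a = false`) modulo `q` -/
noncomputable def cl (a : Bool) (q n : ℕ) : ℝ :=
  match a with
  | true => if n ≡ 1 [MOD q] then 1 else 0
  | false => if q ∣ n + 1 then 1 else 0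

/-- `1` if `n ≡ 1`, `-1` if `n ≡ -1` modulo `q`, otherwise `0` (`0` for `q = 2`) -/
noncomputable def eps (q n : ℕ) : ℝ := cl true q n - cl false q n

/-- the kernel `[n ≡ ± 1] - [q ∤ n]/(q-1)` -/
noncomputable def dk (a : Bool) (q n : ℕ) : ℝ := cl a q n - (if q ∣ n then 0 else 1 / ((q : ℝ) - 1))

/-- `∑_{n ≤ N} Λ(n) dk(n)` -/
noncomputable def DD (a : Bool) (q N : ℕ) : ℝ := ∑ n ∈ Ioc 0 N, vonMangoldt n * dk a q n

/-- `Λ(n)/log n` -/
noncomputable def vl (n : ℕ) : ℝ := vonMangoldt n / Real.log n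

open Classical in
/-- `∑_{χ odd mod q} log |L(s, χ)|` -/
noncomputable def LR (q : ℕ) [NeZero q] (s : ℂ) : ℝ :=
  ∑ χ ∈ (univ : Finset (DirichletCharacter ℂ q)).filter (fun χ => χ.Odd),
    Real.log ‖DirichletCharacter.LFunction χ s‖

/-- `r(q) = log ∏_{χ odd mod q} |L(1, χ)|` -/
noncomputable def rq (q : ℕ) : ℝ :=
  if h : q = 0 then 0 else (haveI : NeZero q := ⟨h⟩; LR q 1)

/-- the primes `≤ X` -/
def Pr (X : ℕ) : Finset ℕ := (Ioc 0 X).filter Nat.Prime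

/-- the primes in `(Q, 2Q]` -/
def PB (Q : ℕ) : Finset ℕ := (Ioc Q (2 * Q)).filter Nat.Prime

/-- `((q-1)/2) ∑_{p ≤ q²} e_q(p)/p` -/
noncomputable def S1 (q : ℕ) : ℝ := ((q : ℝ) - 1) / 2 * ∑ p ∈ Pr (q ^ 2), eps q p / p

/-- `p - 1` (`a = true`) resp. `p + 1` (`a = false`) -/
def sh (a : Bool) (p : ℕ) : ℕ := bif a then p - 1 else p + 1

/-- `p ∓ 1` has a prime divisor `q` with `p < q²` -/
def Ax (a : Bool) (p : ℕ) : Prop := ∃ q : ℕ, q.Prime ∧ q ∣ sh a p ∧ p < q ^ 2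

open Classical in
/-- `∑_{p ≤ X, p ∈ A_±} 1/p` -/
noncomputable def SS (a : Bool) (X : ℕ) : ℝ := ∑ p ∈ (Pr X).filter (Ax a), 1 / (p : ℝ)

lemma cl_nonneg (a : Bool) (q n : ℕ) : 0 ≤ cl a q n := by
  cases a <;> simp only [cl] <;> split_ifs <;> norm_num

lemma cl_le_one (a : Bool) (q n : ℕ) : cl a q n ≤ 1 := by
  cases a <;> simp only [cl] <;> split_ifs <;> norm_num

lemma eps_abs_le (q n : ℕ) : |eps q n| ≤ cl true q n + cl false q n := by
  unfold eps
  have h1 := cl_nonneg true q n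
  have h2 := cl_nonneg false q n
  rw [abs_le]
  constructor <;> linarith

/-- `cl a q p` for a prime `p` is the indicator of `q ∣ p ∓ 1` -/
lemma cl_eq (a : Bool) (q p : ℕ) (hp : 1 ≤ p) : cl a q p = if q ∣ sh a p then 1 else 0 := by
  cases a
  · rfl
  · simp only [cl, sh, cond_true]
    have : (p ≡ 1 [MOD q]) ↔ q ∣ p - 1 := by
      constructor
      · intro h
        exact (Nat.modEq_iff_dvd' hp).1 h.symm
      · intro h
        exact ((Nat.modEq_iff_dvd' hp).2 h).symm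
    by_cases h : q ∣ p - 1
    · rw [if_pos h, if_pos (this.2 h)]
    · rw [if_neg h, if_neg (fun h2 => h (this.1 h2))]

lemma eps_dk (q n : ℕ) : eps q n = dk true q n - dk false q n := by
  unfold eps dk
  ring

lemma mem_Pr {X p : ℕ} : p ∈ Pr X ↔ p.Prime ∧ p ≤ X := by
  unfold Pr
  rw [mem_filter, mem_Ioc]
  constructor
  · rintro ⟨⟨_, h⟩, h2⟩
    exact ⟨h2, h⟩
  · rintro ⟨h1, h2⟩
    exact ⟨⟨h1.pos, h2⟩, h1⟩

lemma mem_PB {Q p : ℕ} : p ∈ PB Q ↔ p.Prime ∧ Q < p ∧ p ≤ 2 * Q := by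
  unfold PB
  rw [mem_filter, mem_Ioc]
  tauto

lemma rq_eq (q : ℕ) [NeZero q] : rq q = LR q 1 := by
  unfold rq
  rw [dif_neg (NeZero.ne q)]

end Pool.Agent.Lib.MP_5deb1d_nt
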