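import Mathlib
import Pool.Agent.Lib.MP_5deb1d_nt.D0

/-!
JOB A1. Sum over the odd characters. `∑_{χ odd} χ(n) = ∑_χ ((1 - χ(-1))/2) χ(n)` (every `χ(-1)` is `±1`:
`DirichletCharacter.Odd χ ↔ χ (-1) = -1`, `DirichletCharacter.even_or_odd`), `χ(-1) χ(n) = χ(-n)`, and the orthogonality
relations of Mathlib (`DirichletCharacter.sum_characters_eq`: `∑_χ χ a = φ(q)` if `a = 1`, else `0`; `φ(q) = q - 1`). In `ZMod q`:
`(n : ZMod q) = 1 ↔ n ≡ 1 [MOD q]`, `-(n : ZMod q) = 1 ↔ q ∣ n + 1`. Uniform in the prime `q` (for `q = 2` both sides are `0`).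
-/

set_option autoImplicit false

open Finset
open scoped Classical

namespace Pool.Agent.Lib.MP_5deb1d_nt

theorem sum_odd (q : ℕ) [NeZero q] (hq : q.Prime) (n : ℕ) :
    ∑ χ ∈ (univ : Finset (DirichletCharacter ℂ q)).filter (fun χ => χ.Odd), (χ (n : ZMod q)).re =
      ((q : ℝ) - 1) / 2 * eps q n := by
  have h1 : ∑ χ ∈ (univ : Finset (DirichletCharacter ℂ q)).filter (fun χ => χ.Odd), (χ (n : ZMod q)).re =
      (∑ χ : DirichletCharacter ℂ q, (χ (n : ZMod q) - χ (-(n : ZMod q))) / 2).re := by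
    rw [Finset.sum_filter, Complex.re_sum]
    apply Finset.sum_congr rfl
    intro χ _
    have hm : χ (-(n : ZMod q)) = χ (-1) * χ (n : ZMod q) := by
      rw [← map_mul, neg_one_mul]
    rw [hm]
    split_ifs with ho
    · have ho1 : χ (-1) = -1 := ho
      rw [ho1]
      congr 1
      ring
    · have he : χ (-1) = 1 := χ.even_or_odd.resolve_right ho
      rw [he, one_mul, sub_self, zero_div, Complex.zero_re]
  have hq1 : 1 ≤ q := hq.one_lt.le
  have e1 : ((n : ZMod q) = 1) ↔ n ≡ 1 [MOD q] := by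
    have h := ZMod.natCast_eq_natCast_iff n 1 q
    rw [Nat.cast_one] at h
    exact h
  have e2 : (-(n : ZMod q) = 1) ↔ q ∣ n + 1 := by
    rw [← ZMod.natCast_eq_zero_iff, Nat.cast_add, Nat.cast_one]
    constructor
    · intro h
      rw [← h]
      ring
    · intro h
      exact neg_eq_of_add_eq_zero_right h
  rw [h1, ← Finset.sum_div, Finset.sum_sub_distrib, DirichletCharacter.sum_characters_eq ℂ (n : ZMod q),
    DirichletCharacter.sum_characters_eq ℂ (-(n : ZMod q)), Nat.totient_prime hq, Nat.cast_sub hq1, Nat.cast_one]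
  unfold eps cl
  by_cases ha : n ≡ 1 [MOD q]
  · by_cases hb : q ∣ n + 1
    · rw [if_pos (e1.2 ha), if_pos (e2.2 hb), if_pos ha, if_pos hb]
      simp
    · rw [if_pos (e1.2 ha), if_neg (fun h => hb (e2.1 h)), if_pos ha, if_neg hb]
      have : (((q : ℂ) - 1 - 0) / 2) = ((((q : ℝ) - 1) / 2 : ℝ) : ℂ) := by
        push_cast
        ring
      rw [this, Complex.ofReal_re]
      ring
  · by_cases hb : q ∣ n + 1
    · rw [if_neg (fun h => ha (e1.1 h)), if_pos (e2.2 hb), if_neg ha, if_pos hb]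
      have : ((0 - ((q : ℂ) - 1)) / 2) = (((-(((q : ℝ) - 1) / 2)) : ℝ) : ℂ) := by
        push_cast
        ring
      rw [this, Complex.ofReal_re]
      ring
    · rw [if_neg (fun h => ha (e1.1 h)), if_neg (fun h => hb (e2.1 h)), if_neg ha, if_neg hb]
      simp

end Pool.Agent.Lib.MP_5deb1d_nt
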