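import Mathlib
import Pool.Agent.Lib.MP_5deb1d_nt.D0

/-!
JOB A2. `log |L(s, χ)| = ∑_n Re χ(n) v(n) n^(-s)` for real `s > 1`, `v(n) = Λ(n)/log n`. PROOF: `DirichletCharacter.LSeries_eulerProduct_exp_log`
(`exp (∑' p, -log (1 - χ p * p^(-s))) = LSeries χ s`), `LFunction_eq_LSeries`; the norm of `exp z` is `exp (re z)`. Then
`-log(1 - z) = ∑_{k ≥ 1} z^k/k` (`Complex.hasSum_taylorSeries_neg_log`) for `z = χ(p) p^(-s)`, `‖z‖ < 1`, and the sum over the prime powers `n = p^(k+1)`: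
`v(p^(k+1)) = 1/(k+1)`; Mathlib has `tsum_eq_tsum_primes_of_support_subset_prime_powers` (file `NumberTheory/LSeries/PrimesInAP.lean`).
Summability of the series over `n`: `|Re χ(n) v(n) n^(-s)| ≤ n^(-s)` (`v(n) ≤ 1`: `vonMangoldt_le_log`).
-/

set_option autoImplicit false

open Finset
open ArithmeticFunction (vonMangoldt)

namespace Pool.Agent.Lib.MP_5deb1d_nt

private theorem A2_vl_abs (n : ℕ) : |vl n| ≤ 1 := by
  have h1 : vonMangoldt n ≤ Real.log n := ArithmeticFunction.vonMangoldt_le_log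
  have h2 : 0 ≤ vonMangoldt n := ArithmeticFunction.vonMangoldt_nonneg
  unfold vl
  rw [abs_of_nonneg (div_nonneg h2 (h2.trans h1))]
  exact div_le_one_of_le₀ h1 (h2.trans h1)

theorem log_norm_L (q : ℕ) [NeZero q] (χ : DirichletCharacter ℂ q) (s : ℝ) (hs : 1 < s) :
    HasSum (fun n : ℕ => (χ (n : ZMod q)).re * (vl n * (n : ℝ) ^ (-s)))
      (Real.log ‖DirichletCharacter.LFunction χ (s : ℂ)‖) := by
  have hs' : 1 < ((s : ℂ)).re := by rw [Complex.ofReal_re]; exact hs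
  have h1 := DirichletCharacter.LSeries_eq_exp_LSeries χ hs'
  rw [DirichletCharacter.LFunction_eq_LSeries χ hs', ← h1, Complex.norm_exp, Real.log_exp]
  have h2 : LSeriesSummable (fun n : ℕ => χ (n : ZMod q) * (vonMangoldt n : ℂ) / (Real.log n : ℂ))
      (s : ℂ) := by
    refine LSeriesSummable_of_bounded_of_one_lt_real (m := 1) (fun n _ => ?_) hs
    have h3 : χ (n : ZMod q) * (vonMangoldt n : ℂ) / (Real.log n : ℂ)
        = χ (n : ZMod q) * ((vl n : ℝ) : ℂ) := by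
      unfold vl
      push_cast
      ring
    rw [h3, norm_mul, Complex.norm_real, Real.norm_eq_abs]
    calc ‖χ (n : ZMod q)‖ * |vl n| ≤ 1 * 1 :=
          mul_le_mul (χ.norm_le_one _) (A2_vl_abs n) (abs_nonneg _) zero_le_one
      _ = 1 := one_mul 1
  have h4 := Complex.hasSum_re h2.hasSum
  refine h4.congr_fun ?_
  intro n
  rcases eq_or_ne n 0 with rfl | hn
  · rw [LSeries.term_zero, Complex.zero_re]
    unfold vl
    simp
  · rw [LSeries.term_of_ne_zero hn]
    have h5 : χ (n : ZMod q) * (vonMangoldt n : ℂ) / (Real.log n : ℂ) / (n : ℂ) ^ (s : ℂ)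
        = χ (n : ZMod q) * ((vl n * (n : ℝ) ^ (-s) : ℝ) : ℂ) := by
      have h6 : ((n : ℂ)) ^ (s : ℂ) = (((n : ℝ) ^ s : ℝ) : ℂ) := by
        rw [Complex.ofReal_cpow (Nat.cast_nonneg n), Complex.ofReal_natCast]
      rw [h6, Real.rpow_neg (Nat.cast_nonneg n)]
      unfold vl
      push_cast
      ring
    rw [h5, Complex.re_mul_ofReal]

end Pool.Agent.Lib.MP_5deb1d_nt
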