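import Mathlib
import Pool.Agent.Lib.MP_5deb1d_nt.A1
import Pool.Agent.Lib.MP_5deb1d_nt.A2

/-!
JOB A3. The series of `LR` for `s > 1`: sum `log_norm_L` over the odd characters (`hasSum_sum`) and use `sum_odd`.
-/

set_option autoImplicit false

open Finset
open ArithmeticFunction (vonMangoldt)

namespace Pool.Agent.Lib.MP_5deb1d_nt

theorem LR_hasSum (q : ℕ) [NeZero q] (hq : q.Prime) (s : ℝ) (hs : 1 < s) :
    HasSum (fun n : ℕ => ((q : ℝ) - 1) / 2 * (eps q n * (vl n * (n : ℝ) ^ (-s)))) (LR q (s : ℂ)) := by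
  classical
  have h := hasSum_sum (s := (univ : Finset (DirichletCharacter ℂ q)).filter (fun χ => χ.Odd))
    (f := fun χ : DirichletCharacter ℂ q => fun n : ℕ => (χ (n : ZMod q)).re * (vl n * (n : ℝ) ^ (-s)))
    (fun χ _ => log_norm_L q χ s hs)
  have h2 : (fun n : ℕ => ((q : ℝ) - 1) / 2 * (eps q n * (vl n * (n : ℝ) ^ (-s)))) =
      fun n : ℕ => ∑ χ ∈ (univ : Finset (DirichletCharacter ℂ q)).filter (fun χ => χ.Odd),
        (χ (n : ZMod q)).re * (vl n * (n : ℝ) ^ (-s)) := by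
    funext n
    rw [← Finset.sum_mul]
    have h3 := sum_odd q hq n
    have h4 : ∑ χ ∈ (univ : Finset (DirichletCharacter ℂ q)).filter (fun χ => χ.Odd), (χ (n : ZMod q)).re =
        ((q : ℝ) - 1) / 2 * eps q n := by
      rw [← h3]
    rw [h4]
    ring
  have h5 : LR q (s : ℂ) = ∑ χ ∈ (univ : Finset (DirichletCharacter ℂ q)).filter (fun χ => χ.Odd),
      Real.log ‖DirichletCharacter.LFunction χ (s : ℂ)‖ := by
    unfold LR
    refine Finset.sum_congr ?_ (fun _ _ => rfl)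
    ext χ
    simp only [Finset.mem_filter]
  rw [h2, h5]
  exact h

end Pool.Agent.Lib.MP_5deb1d_nt
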