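import Mathlib
import Pool.Agent.Lib.MP_5deb1d_nt.D0

/-!
JOB A4. `LR q s → LR q 1` for real `s → 1+`: an odd character is `≠ 1` (`χ (-1) = -1 ≠ 1`; in characteristic zero), so `LFunction χ` is continuous
(`DirichletCharacter.differentiable_LFunction`) and `LFunction χ 1 ≠ 0` (`DirichletCharacter.LFunction_apply_one_ne_zero`).
-/

set_option autoImplicit false

open Finset
open ArithmeticFunction (vonMangoldt)

namespace Pool.Agent.Lib.MP_5deb1d_nt

theorem LR_tendsto (q : ℕ) [NeZero q] :
    Filter.Tendsto (fun s : ℝ => LR q (s : ℂ)) (nhdsWithin 1 (Set.Ioi 1)) (nhds (LR q 1)) := by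
  classical
  have hcast : Filter.Tendsto (fun s : ℝ => (s : ℂ)) (nhdsWithin 1 (Set.Ioi 1)) (nhds ((1 : ℝ) : ℂ)) :=
    (Complex.continuous_ofReal.tendsto 1).mono_left nhdsWithin_le_nhds
  rw [Complex.ofReal_one] at hcast
  unfold LR
  refine tendsto_finsetSum _ fun χ hχ => ?_
  have hodd : χ.Odd := (mem_filter.1 hχ).2
  have hne : χ ≠ 1 := by
    intro h
    have h1 : χ (-1) = -1 := hodd
    have h2 : χ (-1) = 1 := by
      rw [h]
      exact MulChar.one_apply isUnit_one.neg
    rw [h2] at h1
    norm_num at h1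
  have hc : Filter.Tendsto (fun s : ℝ => DirichletCharacter.LFunction χ (s : ℂ)) (nhdsWithin 1 (Set.Ioi 1))
      (nhds (DirichletCharacter.LFunction χ 1)) :=
    ((DirichletCharacter.differentiable_LFunction hne).continuous.tendsto 1).comp hcast
  have hL : DirichletCharacter.LFunction χ 1 ≠ 0 := DirichletCharacter.LFunction_apply_one_ne_zero hne
  exact (Real.continuousAt_log (norm_ne_zero_iff.2 hL)).tendsto.comp hc.norm

end Pool.Agent.Lib.MP_5deb1d_nt
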