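import Mathlib
import Pool.Agent.Lib.MP_5deb1d_nt.D0

/-!
JOB AB. Abel summation for a block of moduli. With `F q N = ∑_{n ≤ N} w q n`:
`∑_{N1 < n ≤ N2} w q n f n = F q N2 * f N2 - F q N1 * f (N1+1) + ∑_{N1 < k < N2} F q k (f k - f (k+1))` (induction on `N2`; for `N2 = N1` the sum is `0`).
Sum the absolute values over `q ∈ P`: with `G N = B N/(log N)²` and `log N ≥ 1` for `N ≥ 3` the result is at most
`G N2/N2 + G N1/N1 + ∑_k G k * 3/k² ≤ B + B + 3B ∑_{N1 < k} 1/(k (log k)²)`, and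
`1/(k (log k)²) ≤ 1/log(k-1) - 1/log k` (because `log k - log(k-1) ≥ 1/k`), telescoping: `≤ 1/log N1 ≤ 1`. Total `≤ 5 B`.
-/

set_option autoImplicit false

open Finset
open ArithmeticFunction (vonMangoldt)

namespace Pool.Agent.Lib.MP_5deb1d_nt

private theorem AB_parts (w f : ℕ → ℝ) (N1 N2 : ℕ) (h12 : N1 ≤ N2) :
    ∑ n ∈ Ioc N1 N2, w n * f n = (∑ n ∈ Ioc 0 N2, w n) * f (N2 + 1) -
      (∑ n ∈ Ioc 0 N1, w n) * f (N1 + 1) +
      ∑ k ∈ Ioc N1 N2, (∑ n ∈ Ioc 0 k, w n) * (f k - f (k + 1)) := by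
  induction N2, h12 using Nat.le_induction with
  | base => simp
  | succ N hN ih =>
    rw [Finset.sum_Ioc_succ_top hN, Finset.sum_Ioc_succ_top hN, ih,
      Finset.sum_Ioc_succ_top (Nat.zero_le N)]
    ring

private theorem AB_log_ge_one (n : ℕ) (hn : 3 ≤ n) : 1 ≤ Real.log n := by
  have h1 : Real.exp 1 ≤ n := by
    have h2 : Real.exp 1 < 2.7182818286 := Real.exp_one_lt_d9
    have h3 : (3 : ℝ) ≤ n := by exact_mod_cast hn
    linarith
  have h4 : (0 : ℝ) < n := lt_of_lt_of_le (Real.exp_pos 1) h1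
  rwa [Real.le_log_iff_exp_le h4]

private theorem AB_tail (N1 N2 : ℕ) (hN1 : 3 ≤ N1) (h12 : N1 ≤ N2) :
    ∑ k ∈ Ioc N1 N2, 1 / ((k : ℝ) * (Real.log k) ^ 2) ≤
      1 / Real.log N1 - 1 / Real.log N2 := by
  induction N2, h12 using Nat.le_induction with
  | base => simp
  | succ N hN ih =>
    rw [Finset.sum_Ioc_succ_top hN]
    have hN3 : 3 ≤ N := le_trans hN1 hN
    have hl : 1 ≤ Real.log N := AB_log_ge_one N hN3
    have hl' : 1 ≤ Real.log ((N + 1 : ℕ) : ℝ) := AB_log_ge_one (N + 1) (by omega)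
    have hN0 : (0 : ℝ) < N := by exact_mod_cast (by omega : 0 < N)
    have hN1' : (0 : ℝ) < ((N + 1 : ℕ) : ℝ) := by exact_mod_cast (by omega : 0 < N + 1)
    have hmono : Real.log N ≤ Real.log ((N + 1 : ℕ) : ℝ) :=
      Real.log_le_log hN0 (by push_cast; linarith)
    have hdiff : 1 / ((N + 1 : ℕ) : ℝ) ≤ Real.log ((N + 1 : ℕ) : ℝ) - Real.log N := by
      have h1 : Real.log ((N : ℝ) / ((N + 1 : ℕ) : ℝ)) ≤ (N : ℝ) / ((N + 1 : ℕ) : ℝ) - 1 :=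
        Real.log_le_sub_one_of_pos (by positivity)
      rw [Real.log_div hN0.ne' hN1'.ne'] at h1
      have h2 : (N : ℝ) / ((N + 1 : ℕ) : ℝ) - 1 = -(1 / ((N + 1 : ℕ) : ℝ)) := by
        field_simp
        push_cast
        ring
      rw [h2] at h1
      linarith
    set a := Real.log (N : ℝ) with ha
    set b := Real.log ((N + 1 : ℕ) : ℝ) with hb
    have hkey : 1 / (((N + 1 : ℕ) : ℝ) * b ^ 2) ≤ 1 / a - 1 / b := by
      have h3 : 1 / a - 1 / b = (b - a) / (a * b) := by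
        field_simp
      rw [h3]
      have h4 : 1 / (((N + 1 : ℕ) : ℝ) * b ^ 2) = (1 / ((N + 1 : ℕ) : ℝ)) / (b ^ 2) := by
        rw [div_div]
      rw [h4]
      have hab : a * b ≤ b ^ 2 := by nlinarith
      have hab0 : 0 < a * b := by nlinarith
      calc (1 / ((N + 1 : ℕ) : ℝ)) / (b ^ 2) ≤ (1 / ((N + 1 : ℕ) : ℝ)) / (a * b) :=
            div_le_div_of_nonneg_left (by positivity) hab0 hab
        _ ≤ (b - a) / (a * b) := div_le_div_of_nonneg_right hdiff hab0.le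
    linarith

theorem abel_block (P : Finset ℕ) (w : ℕ → ℕ → ℝ) (f : ℕ → ℝ) (N1 N2 : ℕ) (hN1 : 3 ≤ N1) (h12 : N1 ≤ N2)
    (B : ℝ) (hB : 0 ≤ B)
    (hw : ∀ N, N1 ≤ N → ∑ q ∈ P, |∑ n ∈ Ioc 0 N, w q n| ≤ B * (N / (Real.log N) ^ 2))
    (hf0 : ∀ k, 3 ≤ k → 0 ≤ f k ∧ f k ≤ 1 / k)
    (hf1 : ∀ k, 3 ≤ k → |f k - f (k + 1)| ≤ 3 / (k : ℝ) ^ 2) :
    ∑ q ∈ P, |∑ n ∈ Ioc N1 N2, w q n * f n| ≤ 10 * B := by
  have hend : ∀ N, N1 ≤ N → (∑ q ∈ P, |∑ n ∈ Ioc 0 N, w q n|) * f (N + 1) ≤ B := by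
    intro N hN
    have hN3 : 3 ≤ N := le_trans hN1 hN
    have hl : 1 ≤ Real.log N := AB_log_ge_one N hN3
    have hN0 : (0 : ℝ) < N := by exact_mod_cast (by omega : 0 < N)
    obtain ⟨g0, g1⟩ := hf0 (N + 1) (by omega)
    have g2 : f (N + 1) ≤ 1 / (N : ℝ) := by
      refine le_trans g1 ?_
      push_cast
      exact one_div_le_one_div_of_le hN0 (by linarith)
    have g3 : B * ((N : ℝ) / (Real.log N) ^ 2) ≤ B * N := by
      refine mul_le_mul_of_nonneg_left ?_ hB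
      refine div_le_self hN0.le ?_
      nlinarith
    have g4 : 0 ≤ ∑ q ∈ P, |∑ n ∈ Ioc 0 N, w q n| := Finset.sum_nonneg fun q _ => abs_nonneg _
    calc (∑ q ∈ P, |∑ n ∈ Ioc 0 N, w q n|) * f (N + 1)
        ≤ (B * N) * (1 / (N : ℝ)) := by
          refine mul_le_mul (le_trans (hw N hN) g3) g2 g0 (by positivity)
      _ = B := by
          field_simp
  have hmid : ∀ k ∈ Ioc N1 N2, (∑ q ∈ P, |∑ n ∈ Ioc 0 k, w q n|) * |f k - f (k + 1)| ≤
      3 * B * (1 / ((k : ℝ) * (Real.log k) ^ 2)) := by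
    intro k hk
    have hk1 : N1 < k := (Finset.mem_Ioc.mp hk).1
    have hk3 : 3 ≤ k := by omega
    have hl : 1 ≤ Real.log k := AB_log_ge_one k hk3
    have hk0 : (0 : ℝ) < k := by exact_mod_cast (by omega : 0 < k)
    have hlp : (0 : ℝ) < Real.log k := by linarith
    calc (∑ q ∈ P, |∑ n ∈ Ioc 0 k, w q n|) * |f k - f (k + 1)|
        ≤ (B * ((k : ℝ) / (Real.log k) ^ 2)) * (3 / (k : ℝ) ^ 2) := by
          refine mul_le_mul (hw k hk1.le) (hf1 k hk3) (abs_nonneg _) (by positivity)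
      _ = 3 * B * (1 / ((k : ℝ) * (Real.log k) ^ 2)) := by
          field_simp
  have hstep : ∀ q ∈ P, |∑ n ∈ Ioc N1 N2, w q n * f n| ≤
      |∑ n ∈ Ioc 0 N2, w q n| * f (N2 + 1) + |∑ n ∈ Ioc 0 N1, w q n| * f (N1 + 1) +
      ∑ k ∈ Ioc N1 N2, |∑ n ∈ Ioc 0 k, w q n| * |f k - f (k + 1)| := by
    intro q _
    rw [AB_parts (w q) f N1 N2 h12]
    have g1 := (hf0 (N2 + 1) (by omega)).1
    have g2 := (hf0 (N1 + 1) (by omega)).1
    refine le_trans (abs_add_le _ _) (add_le_add ?_ ?_)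
    · refine le_trans (abs_sub _ _) ?_
      rw [abs_mul, abs_mul, abs_of_nonneg g1, abs_of_nonneg g2]
    · refine le_trans (Finset.abs_sum_le_sum_abs _ _) (Finset.sum_le_sum fun k _ => ?_)
      rw [abs_mul]
  have htail := AB_tail N1 N2 hN1 h12
  have hl1 : 1 ≤ Real.log N1 := AB_log_ge_one N1 hN1
  have hl2 : 1 ≤ Real.log N2 := AB_log_ge_one N2 (le_trans hN1 h12)
  have htail2 : ∑ k ∈ Ioc N1 N2, 1 / ((k : ℝ) * (Real.log k) ^ 2) ≤ 1 := by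
    have h5 : 1 / Real.log N1 ≤ 1 := by
      rw [div_le_one (by linarith)]
      exact hl1
    have h6 : 0 ≤ 1 / Real.log N2 := by positivity
    linarith
  calc ∑ q ∈ P, |∑ n ∈ Ioc N1 N2, w q n * f n|
      ≤ ∑ q ∈ P, (|∑ n ∈ Ioc 0 N2, w q n| * f (N2 + 1) + |∑ n ∈ Ioc 0 N1, w q n| * f (N1 + 1) +
          ∑ k ∈ Ioc N1 N2, |∑ n ∈ Ioc 0 k, w q n| * |f k - f (k + 1)|) := Finset.sum_le_sum hstep
    _ = (∑ q ∈ P, |∑ n ∈ Ioc 0 N2, w q n|) * f (N2 + 1) +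
          (∑ q ∈ P, |∑ n ∈ Ioc 0 N1, w q n|) * f (N1 + 1) +
          ∑ k ∈ Ioc N1 N2, (∑ q ∈ P, |∑ n ∈ Ioc 0 k, w q n|) * |f k - f (k + 1)| := by
        rw [Finset.sum_add_distrib, Finset.sum_add_distrib, Finset.sum_comm, Finset.sum_mul,
          Finset.sum_mul]
        simp only [Finset.sum_mul]
    _ ≤ B + B + ∑ k ∈ Ioc N1 N2, 3 * B * (1 / ((k : ℝ) * (Real.log k) ^ 2)) :=
        add_le_add (add_le_add (hend N2 h12) (hend N1 le_rfl)) (Finset.sum_le_sum hmid)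
    _ = B + B + 3 * B * ∑ k ∈ Ioc N1 N2, 1 / ((k : ℝ) * (Real.log k) ^ 2) := by
        rw [Finset.mul_sum]
    _ ≤ B + B + 3 * B * 1 := by
        have : 0 ≤ 3 * B := by positivity
        have := mul_le_mul_of_nonneg_left htail2 this
        linarith
    _ ≤ 10 * B := by linarith

end Pool.Agent.Lib.MP_5deb1d_nt
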