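import Mathlib
import Pool.Agent.Lib.MP_5deb1d_nt.D0

/-!
JOB AF. Two elementary functions satisfy the hypotheses of `abel_block`. `f n = n^(-s)/log n` with `1 ≤ s ≤ 2` and `g n = 1/(n (log n)²)`, `n ≥ 3`
(`log 3 > 1`). Differences: mean value theorem (`|f'| ≤ (s+1) t^(-s-1) ≤ 3/t²` for `t ≥ 3`; `|g'| ≤ 1/(t² log² t) + 2/(t² log³ t) ≤ 3/t²`), or elementary:
`a b - a' b' = (a - a') b + a' (b - b')` with `0 ≤ k^(-s) - (k+1)^(-s) ≤ s k^(-s-1)` and `0 ≤ 1/log k - 1/log(k+1) ≤ (1/k)/(log k)²`.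
-/

set_option autoImplicit false

open Finset
open ArithmeticFunction (vonMangoldt)

namespace Pool.Agent.Lib.MP_5deb1d_nt

private theorem AF_log (k : ℕ) (hk : 3 ≤ k) : 1 ≤ Real.log k := by
  have h0 : (3 : ℝ) ≤ k := by exact_mod_cast hk
  have h1 : Real.exp 1 ≤ k := by
    have := Real.exp_one_lt_d9
    linarith
  rw [← Real.log_exp 1]
  exact Real.log_le_log (Real.exp_pos 1) h1

private theorem AF_b (k : ℕ) (hk : 3 ≤ k) :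
    0 ≤ 1 / Real.log k - 1 / Real.log ((k + 1 : ℕ) : ℝ) ∧
      1 / Real.log k - 1 / Real.log ((k + 1 : ℕ) : ℝ) ≤ 1 / k := by
  have h0 : (3 : ℝ) ≤ k := by exact_mod_cast hk
  have hk0 : (0 : ℝ) < k := by linarith
  have h1 := AF_log k hk
  have h2 := AF_log (k + 1) (by omega)
  have h3 : Real.log k ≤ Real.log ((k + 1 : ℕ) : ℝ) :=
    Real.log_le_log hk0 (by push_cast; linarith)
  have h4 : Real.log ((k + 1 : ℕ) : ℝ) - Real.log k ≤ 1 / k := by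
    rw [← Real.log_div (by positivity) hk0.ne']
    have h5 := Real.log_le_sub_one_of_pos (x := ((k + 1 : ℕ) : ℝ) / k) (by positivity)
    refine h5.trans (le_of_eq ?_)
    push_cast
    field_simp
    ring
  have h5 : 1 / Real.log k - 1 / Real.log ((k + 1 : ℕ) : ℝ) =
      (Real.log ((k + 1 : ℕ) : ℝ) - Real.log k) / (Real.log k * Real.log ((k + 1 : ℕ) : ℝ)) := by
    have e1 : Real.log k ≠ 0 := by linarith
    have e2 : Real.log ((k + 1 : ℕ) : ℝ) ≠ 0 := by linarith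
    field_simp
  rw [h5]
  have h6 : 1 ≤ Real.log k * Real.log ((k + 1 : ℕ) : ℝ) := one_le_mul_of_one_le_of_one_le h1 h2
  refine ⟨div_nonneg (sub_nonneg.2 h3) (by linarith), ?_⟩
  exact (div_le_self (sub_nonneg.2 h3) h6).trans h4

private theorem AF_a0 (s : ℝ) (hs : 1 ≤ s) (k : ℕ) (hk : 1 ≤ k) : (k : ℝ) ^ (-s) ≤ 1 / k := by
  have h0 : (1 : ℝ) ≤ k := by exact_mod_cast hk
  have h1 : (k : ℝ) ^ (-s) ≤ (k : ℝ) ^ (-1 : ℝ) :=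
    Real.rpow_le_rpow_of_exponent_le h0 (by linarith)
  rwa [Real.rpow_neg_one, ← one_div] at h1

private theorem AF_a (s : ℝ) (hs : 1 ≤ s) (hs2 : s ≤ 2) (k : ℕ) (hk : 3 ≤ k) :
    0 ≤ (k : ℝ) ^ (-s) - ((k + 1 : ℕ) : ℝ) ^ (-s) ∧
      (k : ℝ) ^ (-s) - ((k + 1 : ℕ) : ℝ) ^ (-s) ≤ 2 / (k : ℝ) ^ 2 := by
  have h0 : (3 : ℝ) ≤ k := by exact_mod_cast hk
  have hk0 : (0 : ℝ) < k := by linarith
  have hk1 : (0 : ℝ) < ((k + 1 : ℕ) : ℝ) := by positivity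
  constructor
  · exact sub_nonneg.2 (Real.rpow_le_rpow_of_nonpos hk0 (by push_cast; linarith) (by linarith))
  · have h1 := one_add_mul_self_le_rpow_one_add (s := -(1 / ((k + 1 : ℕ) : ℝ))) (by
      have : 1 / ((k + 1 : ℕ) : ℝ) ≤ 1 := by
        rw [div_le_one hk1]
        push_cast
        linarith
      linarith) hs
    have h2 : 1 + -(1 / ((k + 1 : ℕ) : ℝ)) = k / ((k + 1 : ℕ) : ℝ) := by
      have : ((k + 1 : ℕ) : ℝ) ≠ 0 := hk1.ne'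
      rw [eq_div_iff this]
      field_simp
      push_cast
      ring
    rw [h2, Real.div_rpow hk0.le hk1.le] at h1
    have h3 : (0 : ℝ) < (k : ℝ) ^ s := Real.rpow_pos_of_pos hk0 s
    have h4 : (0 : ℝ) < ((k + 1 : ℕ) : ℝ) ^ s := Real.rpow_pos_of_pos hk1 s
    have h5 : (k : ℝ) ^ (-s) - ((k + 1 : ℕ) : ℝ) ^ (-s) =
        (k : ℝ) ^ (-s) * (1 - (k : ℝ) ^ s / ((k + 1 : ℕ) : ℝ) ^ s) := by
      rw [Real.rpow_neg hk0.le, Real.rpow_neg hk1.le]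
      field_simp
    rw [h5]
    have h6 : 1 - (k : ℝ) ^ s / ((k + 1 : ℕ) : ℝ) ^ s ≤ 2 / k := by
      have h7 : s * (1 / ((k + 1 : ℕ) : ℝ)) ≤ 2 / k := by
        rw [mul_one_div]
        exact div_le_div₀ (by norm_num) hs2 hk0 (by push_cast; linarith)
      linarith
    have h8 : (0 : ℝ) ≤ 2 / k := by positivity
    calc (k : ℝ) ^ (-s) * (1 - (k : ℝ) ^ s / ((k + 1 : ℕ) : ℝ) ^ s)
        ≤ (k : ℝ) ^ (-s) * (2 / k) := mul_le_mul_of_nonneg_left h6 (Real.rpow_nonneg hk0.le _)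
      _ ≤ (1 / k) * (2 / k) := mul_le_mul_of_nonneg_right (AF_a0 s hs k (by omega)) h8
      _ = 2 / (k : ℝ) ^ 2 := by
        field_simp

theorem f_fac (s : ℝ) (hs : 1 ≤ s) (hs2 : s ≤ 2) (k : ℕ) (hk : 3 ≤ k) :
    (0 ≤ (k : ℝ) ^ (-s) / Real.log k ∧ (k : ℝ) ^ (-s) / Real.log k ≤ 1 / k) ∧
      |(k : ℝ) ^ (-s) / Real.log k - ((k + 1 : ℕ) : ℝ) ^ (-s) / Real.log ((k + 1 : ℕ) : ℝ)| ≤ 3 / (k : ℝ) ^ 2 := by
  have h0 : (3 : ℝ) ≤ k := by exact_mod_cast hk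
  have hk0 : (0 : ℝ) < k := by linarith
  have hl := AF_log k hk
  have hl' := AF_log (k + 1) (by omega)
  obtain ⟨ha1, ha2⟩ := AF_a s hs hs2 k hk
  obtain ⟨hb1, hb2⟩ := AF_b k hk
  have hak := AF_a0 s hs k (by omega)
  have hak1 := AF_a0 s hs (k + 1) (by omega)
  have hap : (0 : ℝ) ≤ (k : ℝ) ^ (-s) := Real.rpow_nonneg hk0.le _
  have hap1 : (0 : ℝ) ≤ ((k + 1 : ℕ) : ℝ) ^ (-s) := Real.rpow_nonneg (Nat.cast_nonneg _) _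
  have hb0 : 0 ≤ 1 / Real.log k := by positivity
  have hb3 : 1 / Real.log k ≤ 1 := by
    rw [div_le_one (by linarith)]
    exact hl
  refine ⟨⟨by positivity, (div_le_self hap hl).trans hak⟩, ?_⟩
  have h1 : (k : ℝ) ^ (-s) / Real.log k - ((k + 1 : ℕ) : ℝ) ^ (-s) / Real.log ((k + 1 : ℕ) : ℝ) =
      ((k : ℝ) ^ (-s) - ((k + 1 : ℕ) : ℝ) ^ (-s)) * (1 / Real.log k) +
        ((k + 1 : ℕ) : ℝ) ^ (-s) * (1 / Real.log k - 1 / Real.log ((k + 1 : ℕ) : ℝ)) := by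
    ring
  rw [h1, abs_of_nonneg (add_nonneg (mul_nonneg ha1 hb0) (mul_nonneg hap1 hb1))]
  have h2 : ((k : ℝ) ^ (-s) - ((k + 1 : ℕ) : ℝ) ^ (-s)) * (1 / Real.log k) ≤ 2 / (k : ℝ) ^ 2 :=
    (mul_le_of_le_one_right ha1 hb3).trans ha2
  have h3 : ((k + 1 : ℕ) : ℝ) ^ (-s) * (1 / Real.log k - 1 / Real.log ((k + 1 : ℕ) : ℝ)) ≤
      (1 / k) * (1 / k) := by
    refine mul_le_mul (hak1.trans ?_) hb2 hb1 (by positivity)
    exact one_div_le_one_div_of_le hk0 (by push_cast; linarith)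
  have h4 : (1 / (k : ℝ)) * (1 / k) = 1 / (k : ℝ) ^ 2 := by
    field_simp
  have h5 : 2 / (k : ℝ) ^ 2 + 1 / (k : ℝ) ^ 2 = 3 / (k : ℝ) ^ 2 := by
    rw [← add_div]
    norm_num
  linarith

theorem g_fac (k : ℕ) (hk : 3 ≤ k) :
    (0 ≤ 1 / ((k : ℝ) * (Real.log k) ^ 2) ∧ 1 / ((k : ℝ) * (Real.log k) ^ 2) ≤ 1 / k) ∧
      |1 / ((k : ℝ) * (Real.log k) ^ 2) - 1 / (((k + 1 : ℕ) : ℝ) * (Real.log ((k + 1 : ℕ) : ℝ)) ^ 2)| ≤ 3 / (k : ℝ) ^ 2 := by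
  have h0 : (3 : ℝ) ≤ k := by exact_mod_cast hk
  have hk0 : (0 : ℝ) < k := by linarith
  have hk1 : (0 : ℝ) < ((k + 1 : ℕ) : ℝ) := by positivity
  have hl := AF_log k hk
  have hl' := AF_log (k + 1) (by omega)
  obtain ⟨hb1, hb2⟩ := AF_b k hk
  obtain ⟨b, hb⟩ : ∃ b : ℝ, b = 1 / Real.log k := ⟨_, rfl⟩
  obtain ⟨b', hb'⟩ : ∃ b' : ℝ, b' = 1 / Real.log ((k + 1 : ℕ) : ℝ) := ⟨_, rfl⟩
  rw [← hb, ← hb'] at hb1 hb2
  have hb0 : 0 ≤ b := by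
    rw [hb]
    positivity
  have hb3 : b ≤ 1 := by
    rw [hb, div_le_one (by linarith)]
    exact hl
  have hb'0 : 0 ≤ b' := by
    rw [hb']
    positivity
  have e1 : 1 / ((k : ℝ) * (Real.log k) ^ 2) = 1 / k * b ^ 2 := by
    rw [hb, div_pow, one_pow, div_mul_div_comm, one_mul]
  have e2 : 1 / (((k + 1 : ℕ) : ℝ) * (Real.log ((k + 1 : ℕ) : ℝ)) ^ 2) = 1 / ((k + 1 : ℕ) : ℝ) * b' ^ 2 := by
    rw [hb', div_pow, one_pow, div_mul_div_comm, one_mul]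
  have hb2' : b ^ 2 ≤ 1 := pow_le_one₀ hb0 hb3
  rw [e1, e2]
  have ha : 1 / ((k + 1 : ℕ) : ℝ) ≤ 1 / k := one_div_le_one_div_of_le hk0 (by push_cast; linarith)
  have ha' : 1 / (k : ℝ) - 1 / ((k + 1 : ℕ) : ℝ) ≤ 1 / (k : ℝ) ^ 2 := by
    have h1 : 1 / (k : ℝ) - 1 / ((k + 1 : ℕ) : ℝ) = 1 / (k * ((k + 1 : ℕ) : ℝ)) := by
      have e3 : ((k + 1 : ℕ) : ℝ) ≠ 0 := hk1.ne'
      field_simp
      push_cast
      ring
    rw [h1]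
    refine one_div_le_one_div_of_le (by positivity) ?_
    push_cast
    nlinarith
  have hk2 : (0 : ℝ) ≤ 1 / k := by positivity
  refine ⟨⟨mul_nonneg hk2 (sq_nonneg b), mul_le_of_le_one_right hk2 hb2'⟩, ?_⟩
  have h1 : 1 / (k : ℝ) * b ^ 2 - 1 / ((k + 1 : ℕ) : ℝ) * b' ^ 2 =
      (1 / (k : ℝ) - 1 / ((k + 1 : ℕ) : ℝ)) * b ^ 2 + 1 / ((k + 1 : ℕ) : ℝ) * ((b - b') * (b + b')) := by
    ring
  have hpos1 : 0 ≤ (1 / (k : ℝ) - 1 / ((k + 1 : ℕ) : ℝ)) * b ^ 2 :=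
    mul_nonneg (sub_nonneg.2 ha) (sq_nonneg b)
  have hpos2 : 0 ≤ (b - b') * (b + b') := mul_nonneg hb1 (add_nonneg hb0 hb'0)
  have hk3 : (0 : ℝ) ≤ 1 / ((k + 1 : ℕ) : ℝ) := by positivity
  rw [h1, abs_of_nonneg (add_nonneg hpos1 (mul_nonneg hk3 hpos2))]
  have h2 : (1 / (k : ℝ) - 1 / ((k + 1 : ℕ) : ℝ)) * b ^ 2 ≤ 1 / (k : ℝ) ^ 2 :=
    (mul_le_of_le_one_right (sub_nonneg.2 ha) hb2').trans ha'
  have h3 : (b - b') * (b + b') ≤ (1 / k) * 2 := by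
    refine mul_le_mul hb2 (by linarith) (add_nonneg hb0 hb'0) hk2
  have h4 : 1 / ((k + 1 : ℕ) : ℝ) * ((b - b') * (b + b')) ≤ (1 / k) * ((1 / k) * 2) :=
    mul_le_mul ha h3 hpos2 hk2
  have h5 : (1 / (k : ℝ)) * ((1 / k) * 2) = 2 / (k : ℝ) ^ 2 := by
    field_simp
  have h6 : 1 / (k : ℝ) ^ 2 + 2 / (k : ℝ) ^ 2 = 3 / (k : ℝ) ^ 2 := by
    rw [← add_div]
    norm_num
  linarith

end Pool.Agent.Lib.MP_5deb1d_nt
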