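import Mathlib
import Pool.Agent.Lib.MP_5deb1d_nt.D0
import Pool.Agent.Lib.MP_9c2ea5_nt.Q5

/-!
JOB C1. `core_dl` (class `1`) in real form. PROOF: `core_dl` (`Lib/MP_9c2ea5_nt/Q5.lean`) with `r = 1`, `b = 0` (`e 0 = 1`), `√1 = 1`; `tw N f vM = ∑_{n ∈ Ioc 0 N} vM n * f n` (`tw`, `vM` in
`Lib/MP_2a816b_nt`), `dl q n = (dk true q n : ℂ)` and the norm of a real number. The prime `l ∣ r = 1` never happens.
-/

set_option autoImplicit false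

open Finset
open ArithmeticFunction (vonMangoldt)

namespace Pool.Agent.Lib.MP_5deb1d_nt

private lemma C1_dl (l n : ℕ) : Pool.Agent.Lib.MP_9c2ea5_nt.dl l n = ((dk true l n : ℝ) : ℂ) := by
  unfold Pool.Agent.Lib.MP_9c2ea5_nt.dl dk
  simp only [cl]
  rw [Complex.ofReal_sub]
  refine congrArg₂ (· - ·) ?_ ?_
  · split_ifs <;> simp
  · split_ifs <;> simp

private lemma C1_tw (l N : ℕ) : Pool.Agent.Lib.MP_2a816b_nt.tw N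
    (fun k => Pool.Agent.Lib.MP_9c2ea5_nt.dl l k *
      Pool.Agent.Lib.MP_2a816b_nt.e ((k * 0 : ℕ) / (1 : ℕ))) Pool.Agent.Lib.MP_2a816b_nt.vM =
      ((DD true l N : ℝ) : ℂ) := by
  unfold Pool.Agent.Lib.MP_2a816b_nt.tw DD
  rw [Complex.ofReal_sum]
  refine sum_congr rfl fun n _ => ?_
  have he : Pool.Agent.Lib.MP_2a816b_nt.e (((n * 0 : ℕ) : ℝ) / ((1 : ℕ) : ℝ)) = 1 := by
    unfold Pool.Agent.Lib.MP_2a816b_nt.e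
    simp
  show ((Pool.Agent.Lib.MP_2a816b_nt.vM n : ℝ) : ℂ) * (Pool.Agent.Lib.MP_9c2ea5_nt.dl l n *
    Pool.Agent.Lib.MP_2a816b_nt.e (((n * 0 : ℕ) : ℝ) / ((1 : ℕ) : ℝ))) = _
  rw [he, mul_one, C1_dl, Complex.ofReal_mul]
  rfl

theorem core_true (P : Finset ℕ) (Q : ℕ) (y0 : ℝ) (hy0 : 0 < y0) (hP : ∀ l ∈ P, l.Prime ∧ l ≤ Q ∧ y0 ≤ l)
    (N U L : ℕ) (hU : 1 ≤ U) (hU3 : U * U * U ≤ N) (hL : N + 1 < 2 ^ L) :
    ∑ l ∈ P, |DD true l N| ≤ 8 * L * U * (Q : ℝ) ^ 2 +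
      144 * L ^ 4 * N / y0 * √(1 + (Q : ℝ) ^ 2 / U + (Q : ℝ) ^ 4 / N) := by
  have h := Pool.Agent.Lib.MP_9c2ea5_nt.core_dl P Q y0 hy0 hP 1 one_pos
    (fun l hl h1 => (hP l hl).1.one_lt.ne' (Nat.dvd_one.1 h1)) 0 N U L hU hU3 hL
  have e1 : ∑ l ∈ P, |DD true l N| = ∑ l ∈ P, ‖Pool.Agent.Lib.MP_2a816b_nt.tw N
      (fun k => Pool.Agent.Lib.MP_9c2ea5_nt.dl l k *
        Pool.Agent.Lib.MP_2a816b_nt.e ((k * 0 : ℕ) / (1 : ℕ))) Pool.Agent.Lib.MP_2a816b_nt.vM‖ := by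
    refine sum_congr rfl fun l _ => ?_
    rw [C1_tw, Complex.norm_real, Real.norm_eq_abs]
  rw [e1]
  refine h.trans (le_of_eq ?_)
  rw [Nat.cast_one, Real.sqrt_one, mul_one, mul_one]

end Pool.Agent.Lib.MP_5deb1d_nt
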