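import Mathlib
import Pool.Agent.Lib.MP_5deb1d_nt.D0
import Pool.Agent.Lib.MP_9c2ea5_nt.Q1

/-!
JOB N1. The kernel of the class `-1`: `dm l u = [l ∣ u+1] - [l ∤ u]/(l-1)`; copy of `Lib/MP_9c2ea5_nt/Q1.lean`. `dm l u = Q1_dz l (-(u : ZMod l))`. In `bilin_dm`:
the class sums satisfy `∑_{c,d} X_c Y_d δ(-c d) = ∑_{c,d} X_{-c} Y_d δ(c d)`, so `Q1_bilin_sub`, `Q1_bilin_le` apply to `X'(c) = X(-c)`; `∑_c ‖X'(c) - mean‖² = ∑_c ‖X(c) - mean‖²` (`Equiv.neg`), then `variance_eq` etc.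
as in `bilin_dl`. (If a lemma of Q1 is private, copy it.)
-/

set_option autoImplicit false

open Finset
open ArithmeticFunction (vonMangoldt)

namespace Pool.Agent.Lib.MP_5deb1d_nt

open Pool.Agent.Lib.MP_2a816b_nt (e OpB)

/-- `[u ≡ -1 mod l] - [l ∤ u]/(l-1)` -/
noncomputable def dm (l u : ℕ) : ℂ :=
  (if l ∣ u + 1 then 1 else 0) - (if l ∣ u then 0 else 1 / ((l : ℂ) - 1))

lemma norm_dm_le (l : ℕ) (hl : l.Prime) (u : ℕ) : ‖dm l u‖ ≤ 2 := by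
  have hl2 : (2 : ℝ) ≤ l := by exact_mod_cast hl.two_le
  have h3 : ‖(1 : ℂ) / ((l : ℂ) - 1)‖ ≤ 1 := by
    have : ((l : ℂ) - 1) = ((l - 1 : ℝ) : ℂ) := by push_cast; ring
    rw [norm_div, this, Complex.norm_real, norm_one, Real.norm_eq_abs, abs_of_pos (by linarith),
      div_le_one (by linarith)]
    linarith
  have h1 : ‖(if l ∣ u + 1 then (1 : ℂ) else 0)‖ ≤ 1 := by
    split_ifs <;> simp
  have h2 : ‖(if l ∣ u then (0 : ℂ) else 1 / ((l : ℂ) - 1))‖ ≤ 1 := by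
    split_ifs
    · simp
    · exact h3
  unfold dm
  calc _ ≤ _ := norm_sub_le _ _
    _ ≤ 1 + 1 := add_le_add h1 h2
    _ = 2 := by norm_num

lemma dm_add (l u : ℕ) : dm l (l + u) = dm l u := by
  unfold dm
  have h1 : l ∣ l + u + 1 ↔ l ∣ u + 1 := by
    rw [add_assoc]
    exact Nat.dvd_add_right (dvd_refl l)
  have h2 : l ∣ l + u ↔ l ∣ u := Nat.dvd_add_right (dvd_refl l)
  simp only [h1, h2]

lemma dm_of_dvd (l : ℕ) (hl : l.Prime) {u : ℕ} (h : l ∣ u) : dm l u = 0 := by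
  unfold dm
  rw [if_pos h, if_neg, sub_zero]
  intro h1
  have h2 : l ∣ 1 := (Nat.dvd_add_right h).mp h1
  exact hl.one_lt.ne' (Nat.dvd_one.mp h2)

private lemma N1_dm_eq (l u : ℕ) : dm l u = MP_9c2ea5_nt.Q1_dz l (-(u : ZMod l)) := by
  unfold dm MP_9c2ea5_nt.Q1_dz
  have h1 : l ∣ u + 1 ↔ -(u : ZMod l) = 1 := by
    rw [← ZMod.natCast_eq_zero_iff, neg_eq_iff_eq_neg]
    push_cast
    exact add_eq_zero_iff_eq_neg
  have h2 : l ∣ u ↔ -(u : ZMod l) = 0 := by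
    rw [neg_eq_zero]
    exact (ZMod.natCast_eq_zero_iff u l).symm
  simp only [h1, h2]

lemma sum_dm_range (l : ℕ) (hl : l.Prime) (a b : ℕ) (ha : ¬ l ∣ a) :
    ∑ u ∈ range l, dm l (a * u + b) = 0 := by
  have : Fact l.Prime := ⟨hl⟩
  have h1 : ∑ u ∈ range l, dm l (a * u + b) =
      ∑ u ∈ range l, (fun v : ZMod l => MP_9c2ea5_nt.Q1_dz l (-(a * v + b))) (u : ZMod l) := by
    apply sum_congr rfl
    intro u _
    rw [N1_dm_eq]
    push_cast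
    rfl
  rw [h1, MP_2a816b_nt.sum_range_zmod l (fun v : ZMod l => MP_9c2ea5_nt.Q1_dz l (-(a * v + b)))]
  rw [← MP_9c2ea5_nt.Q1_sum_dz l]
  have ha' : (a : ZMod l) ≠ 0 := by rwa [Ne, ZMod.natCast_eq_zero_iff]
  apply Fintype.sum_equiv (((Equiv.mulLeft₀ (a : ZMod l) ha').trans (Equiv.addRight (b : ZMod l))).trans
    (Equiv.neg (ZMod l)))
  intro v
  rfl

lemma bilin_dm (l : ℕ) (hl : l.Prime) (M N : ℕ) (x y : ℕ → ℂ) :
    ‖∑ m ∈ range M, ∑ n ∈ range N, x m * y n * dm l (m * n)‖ ≤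
      (2 / (l : ℝ)) * (√(∑ b ∈ Ico 1 l, ‖∑ m ∈ range M, x m * e (m * ((b : ℝ) / l))‖ ^ 2) *
        √(∑ b ∈ Ico 1 l, ‖∑ n ∈ range N, y n * e (n * ((b : ℝ) / l))‖ ^ 2)) := by
  have : Fact l.Prime := ⟨hl⟩
  have h1 : ∑ m ∈ range M, ∑ n ∈ range N, x m * y n * dm l (m * n) =
      ∑ c : ZMod l, ∑ d : ZMod l, MP_2a816b_nt.cl l M x c *
        MP_2a816b_nt.cl l N y d * MP_9c2ea5_nt.Q1_dz l (-(c * d)) := by
    have e1 : ∀ m ∈ range M, ∑ n ∈ range N, x m * y n * dm l (m * n) =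
        x m * (fun c : ZMod l => ∑ d : ZMod l, MP_2a816b_nt.cl l N y d *
          MP_9c2ea5_nt.Q1_dz l (-(c * d))) (m : ZMod l) := by
      intro m _
      simp only
      rw [← MP_2a816b_nt.sum_cl l N y (fun d => MP_9c2ea5_nt.Q1_dz l (-((m : ZMod l) * d))), mul_sum]
      apply sum_congr rfl; intro n _
      rw [N1_dm_eq]
      push_cast
      ring
    rw [sum_congr rfl e1, MP_2a816b_nt.sum_cl l M x
      (fun c : ZMod l => ∑ d : ZMod l, MP_2a816b_nt.cl l N y d * MP_9c2ea5_nt.Q1_dz l (-(c * d)))]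
    apply sum_congr rfl; intro c _
    rw [mul_sum]
    apply sum_congr rfl; intro d _; ring
  have h2 : ∑ c : ZMod l, ∑ d : ZMod l, MP_2a816b_nt.cl l M x c *
        MP_2a816b_nt.cl l N y d * MP_9c2ea5_nt.Q1_dz l (-(c * d)) =
      ∑ c : ZMod l, ∑ d : ZMod l, (fun c : ZMod l => MP_2a816b_nt.cl l M x (-c)) c *
        MP_2a816b_nt.cl l N y d * MP_9c2ea5_nt.Q1_dz l (c * d) := by
    apply Fintype.sum_equiv (Equiv.neg (ZMod l))
    intro c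
    apply sum_congr rfl; intro d _
    simp only [Equiv.neg_apply, neg_neg, neg_mul]
  have h3 : ∑ c : ZMod l, ‖(fun c : ZMod l => MP_2a816b_nt.cl l M x (-c)) c -
        (∑ c' : ZMod l, MP_2a816b_nt.cl l M x c') / l‖ ^ 2 =
      ∑ c : ZMod l, ‖MP_2a816b_nt.cl l M x c - (∑ c' : ZMod l, MP_2a816b_nt.cl l M x c') / l‖ ^ 2 := by
    apply Fintype.sum_equiv (Equiv.neg (ZMod l))
    intro c
    simp only [Equiv.neg_apply]
  rw [h1, h2, MP_9c2ea5_nt.Q1_bilin_sub l _ _ ((∑ c' : ZMod l, MP_2a816b_nt.cl l M x c') / l)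
    ((∑ c' : ZMod l, MP_2a816b_nt.cl l N y c') / l)]
  refine (MP_9c2ea5_nt.Q1_bilin_le l _ _).trans ?_
  rw [h3, MP_2a816b_nt.variance_eq, MP_2a816b_nt.variance_eq]
  have hq0 : (0 : ℝ) < l := by exact_mod_cast hl.pos
  have e2 : ∀ (K : ℕ) (z : ℕ → ℂ), ∑ b ∈ univ.erase (0 : ZMod l),
      ‖∑ d : ZMod l, MP_2a816b_nt.cl l K z d * MP_2a816b_nt.ps l (b * d)‖ ^ 2 =
      ∑ b ∈ Ico 1 l, ‖∑ n ∈ range K, z n * e (n * ((b : ℝ) / l))‖ ^ 2 := by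
    intro K z
    rw [← MP_2a816b_nt.sum_erase_eq]
    apply sum_congr rfl; intro b _
    rw [← MP_2a816b_nt.sum_cl l K z (fun d => MP_2a816b_nt.ps l (b * d))]
  rw [e2, e2, Real.sqrt_mul (by positivity), Real.sqrt_mul (by positivity)]
  apply le_of_eq
  have e3 : √(1 / (l : ℝ)) * √(1 / (l : ℝ)) = 1 / l := Real.mul_self_sqrt (by positivity)
  calc _ = 2 * (√(1 / (l : ℝ)) * √(1 / (l : ℝ))) *
        (√(∑ b ∈ Ico 1 l, ‖∑ m ∈ range M, x m * e (m * ((b : ℝ) / l))‖ ^ 2) *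
        √(∑ b ∈ Ico 1 l, ‖∑ n ∈ range N, y n * e (n * ((b : ℝ) / l))‖ ^ 2)) := by ring
    _ = _ := by rw [e3]; ring

end Pool.Agent.Lib.MP_5deb1d_nt
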