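import Mathlib
import Pool.Agent.Lib.MP_5deb1d_nt.N2
import Pool.Agent.Lib.MP_5deb1d_nt.N3
import Pool.Agent.Lib.MP_2a816b_nt.Vaughan
import Pool.Agent.Lib.MP_2a816b_nt.Core

/-!
JOB N4. `core` for the class `-1`, in real form: copy of `core_dl` (`Lib/MP_9c2ea5_nt/Q5.lean`) with `dm`, `typeII_dm`, `typeI_dm_one`, `typeI_dm_log`, then as in job C1 (`r = 1`, `b = 0`, `dm q n = (dk false q n : ℂ)`).
-/

set_option autoImplicit false

open Finset
open ArithmeticFunction (vonMangoldt)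

namespace Pool.Agent.Lib.MP_5deb1d_nt

section N4_copy

open Real
open Pool.Agent.Lib.MP_2a816b_nt

/-- the kernel -/
private noncomputable def N4_K (r b l k : ℕ) : ℂ := dm l k * e ((k * b : ℕ) / r)

private lemma N4_norm (l : ℕ) (hl : l.Prime) (r b k : ℕ) : ‖N4_K r b l k‖ ≤ 2 := by
  unfold N4_K
  rw [norm_mul, norm_e, mul_one]
  exact norm_dm_le l hl k

private lemma N4_one (l : ℕ) (hl : l.Prime) (r b m : ℕ) (hr : 0 < r) (hrl : ¬ l ∣ r) (t : ℕ) :
    ‖∑ d ∈ Ioc 0 t, N4_K r b l (m * d)‖ ≤ 2 * (r * l) := typeI_dm_one l hl r b m hr hrl t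

private lemma N4_log (l : ℕ) (hl : l.Prime) (r b m : ℕ) (hr : 0 < r) (hrl : ¬ l ∣ r) (t : ℕ) :
    ‖∑ d ∈ Ioc 0 t, (Real.log d : ℂ) * N4_K r b l (m * d)‖ ≤ 4 * Real.log (t + 1) * (r * l) :=
  typeI_dm_log l hl r b m hr hrl t

private lemma N4_two (P : Finset ℕ) (Q : ℕ) (y0 : ℝ) (hy0 : 0 < y0)
    (hP : ∀ l ∈ P, l.Prime ∧ l ≤ Q ∧ y0 ≤ l)
    (r : ℕ) (hr : 0 < r) (b : ℕ) (N U L : ℕ) (hU : 1 ≤ U) (hL : N + 1 < 2 ^ L)
    (f g : ℕ → ℝ) (A : ℝ) (hA : 0 ≤ A)
    (hf : ∀ m, m ≤ N → |f m| ≤ A) (hg : ∀ n, n ≤ N → |g n| ≤ A)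
    (hf0 : ∀ m, f m ≠ 0 → U < m ∧ m * U ≤ N) :
    ∑ l ∈ P, ‖∑ m ∈ Ioc 0 N, ∑ n ∈ Ioc 0 (N / m), (f m : ℂ) * (g n : ℂ) * N4_K r b l (m * n)‖ ≤
      72 * L ^ 2 * √r * A ^ 2 * N / y0 * √(1 + (Q : ℝ) ^ 2 / U + (Q : ℝ) ^ 4 / N) :=
  typeII_dm P Q y0 hy0 hP r hr b N U L hU hL f g A hA hf hg hf0

private theorem N4_core (P : Finset ℕ) (Q : ℕ) (y0 : ℝ) (hy0 : 0 < y0)
    (hP : ∀ l ∈ P, l.Prime ∧ l ≤ Q ∧ y0 ≤ l)
    (r : ℕ) (hr : 0 < r) (hrl : ∀ l ∈ P, ¬ l ∣ r) (b : ℕ) (N U L : ℕ) (hU : 1 ≤ U)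
    (hU3 : U * U * U ≤ N) (hL : N + 1 < 2 ^ L) :
    ∑ l ∈ P, ‖tw N (fun k => dm l k * e ((k * b : ℕ) / r)) vM‖ ≤ 8 * L * r * U * Q ^ 2 +
      144 * L ^ 4 * √r * N / y0 * √(1 + (Q : ℝ) ^ 2 / U + (Q : ℝ) ^ 4 / N) := by
  show ∑ l ∈ P, ‖tw N (N4_K r b l) vM‖ ≤ _
  have hL0 : 1 ≤ L := by
    rcases Nat.eq_zero_or_pos L with h | h
    · subst h; omega
    · exact h
  have hLr : (1 : ℝ) ≤ L := by exact_mod_cast hL0
  have hrr : (1 : ℝ) ≤ r := by exact_mod_cast hr
  have hQr : ∀ l ∈ P, (l : ℝ) ≤ Q := fun l hl => by exact_mod_cast (hP l hl).2.1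
  have hQ1 : ∀ l ∈ P, (1 : ℝ) ≤ Q := fun l hl => by
    have : (1 : ℝ) ≤ l := by exact_mod_cast (hP l hl).1.one_lt.le
    exact this.trans (hQr l hl)
  -- the five pieces
  have h1 : ∀ l ∈ P, ‖tw N (N4_K r b l) (lo U vM)‖ ≤ 2 * (U * L) := by
    intro l hl
    unfold tw
    calc _ ≤ ∑ n ∈ Ioc 0 N, ‖((lo U vM n : ℝ) : ℂ) * N4_K r b l n‖ := norm_sum_le _ _
      _ ≤ ∑ n ∈ Ioc 0 N, 2 * |lo U vM n| := by
          apply sum_le_sum; intro n _
          rw [norm_mul, Complex.norm_real, norm_eq_abs, mul_comm]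
          gcongr
          exact N4_norm l (hP l hl).1 r b _
      _ = 2 * ∑ n ∈ Ioc 0 N, |lo U vM n| := by rw [mul_sum]
      _ ≤ 2 * (U * L) := by
          gcongr
          apply sum_lo_le N U vM L (by positivity)
          intro m hm
          rw [abs_of_nonneg (vM_nonneg m)]
          exact (vM_le_log m).trans (log_le_L hL (by omega))
  have h2 : ∀ l ∈ P, ‖tw N (N4_K r b l) (lo U muR * ArithmeticFunction.log)‖ ≤
      (U * 1) * (4 * L * (r * Q)) := by
    intro l hl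
    rw [tw_mul]
    calc _ ≤ ∑ m ∈ Ioc 0 N, ‖∑ d ∈ Ioc 0 (N / m), ((lo U muR m : ℝ) : ℂ) *
            ((ArithmeticFunction.log d : ℝ) : ℂ) * N4_K r b l (m * d)‖ := norm_sum_le _ _
      _ ≤ ∑ m ∈ Ioc 0 N, |lo U muR m| * (4 * L * (r * Q)) := by
          apply sum_le_sum; intro m _
          have e1 : ∑ d ∈ Ioc 0 (N / m), ((lo U muR m : ℝ) : ℂ) *
              ((ArithmeticFunction.log d : ℝ) : ℂ) * N4_K r b l (m * d) =
              ((lo U muR m : ℝ) : ℂ) * ∑ d ∈ Ioc 0 (N / m), (Real.log d : ℂ) *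
                N4_K r b l (m * d) := by
            rw [mul_sum]
            apply sum_congr rfl; intro d _
            rw [ArithmeticFunction.log_apply]
            ring
          rw [e1, norm_mul, Complex.norm_real, norm_eq_abs]
          gcongr
          refine (N4_log l (hP l hl).1 r b m hr (hrl l hl) (N / m)).trans ?_
          have e2 : Real.log ((N / m : ℕ) + 1) ≤ L := by
            have := log_le_L (n := N / m + 1) hL (by have := Nat.div_le_self N m; omega)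
            push_cast at this
            exact this
          have := hQr l hl
          gcongr
      _ = (∑ m ∈ Ioc 0 N, |lo U muR m|) * (4 * L * (r * Q)) := by rw [sum_mul]
      _ ≤ (U * 1) * (4 * L * (r * Q)) := by
          gcongr
          exact sum_lo_le N U muR 1 (by norm_num) (fun m _ => muR_abs_le m)
  have hcU : ∀ m, m ≤ N → |cU U m| ≤ L := fun m hm =>
    (cU_abs_le U m).trans (log_le_L hL (by omega))
  have h3 : ∀ l ∈ P, ‖tw N (N4_K r b l) (lo U (cU U) * zeR)‖ ≤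
      (U * L) * (2 * (r * Q)) := by
    intro l hl
    rw [tw_mul]
    calc _ ≤ ∑ m ∈ Ioc 0 N, ‖∑ d ∈ Ioc 0 (N / m), ((lo U (cU U) m : ℝ) : ℂ) *
            ((zeR d : ℝ) : ℂ) * N4_K r b l (m * d)‖ := norm_sum_le _ _
      _ ≤ ∑ m ∈ Ioc 0 N, |lo U (cU U) m| * (2 * (r * Q)) := by
          apply sum_le_sum; intro m _
          have e1 : ∑ d ∈ Ioc 0 (N / m), ((lo U (cU U) m : ℝ) : ℂ) *
              ((zeR d : ℝ) : ℂ) * N4_K r b l (m * d) =
              ((lo U (cU U) m : ℝ) : ℂ) * ∑ d ∈ Ioc 0 (N / m), N4_K r b l (m * d) := by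
            rw [mul_sum]
            apply sum_congr rfl; intro d hd
            rw [mem_Ioc] at hd
            rw [zeR_apply, if_neg (by omega)]
            push_cast
            ring
          rw [e1, norm_mul, Complex.norm_real, norm_eq_abs]
          gcongr
          refine (N4_one l (hP l hl).1 r b m hr (hrl l hl) (N / m)).trans ?_
          have := hQr l hl
          gcongr
      _ = (∑ m ∈ Ioc 0 N, |lo U (cU U) m|) * (2 * (r * Q)) := by rw [sum_mul]
      _ ≤ (U * L) * (2 * (r * Q)) := by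
          gcongr
          exact sum_lo_le N U (cU U) L (by positivity) hcU
  have h4 : ∑ l ∈ P, ‖tw N (N4_K r b l) (hi U (cU U) * zeR)‖ ≤
      72 * L ^ 2 * √r * (L : ℝ) ^ 2 * N / y0 * √(1 + (Q : ℝ) ^ 2 / U + (Q : ℝ) ^ 4 / N) := by
    have := N4_two P Q y0 hy0 hP r hr b N U L hU hL (fun m => hi U (cU U) m)
      (fun d => zeR d) L (by positivity) ?_ ?_ ?_
    · refine le_trans (le_of_eq ?_) this
      apply sum_congr rfl; intro l _
      rw [tw_mul]
    · intro m hm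
      rw [hi_apply]
      split_ifs
      · exact hcU m hm
      · simp
    · intro n _
      rw [zeR_apply]
      split_ifs
      · simp
      · simpa using hLr
    · intro m hm
      rw [hi_apply] at hm
      by_cases hU' : U < m
      · rw [if_pos hU'] at hm
        refine ⟨hU', ?_⟩
        have hm2 : m ≤ U * U := by
          by_contra hc
          exact hm (cU_eq_zero U m (by omega))
        calc m * U ≤ (U * U) * U := Nat.mul_le_mul_right U hm2
          _ ≤ N := hU3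
      · rw [if_neg hU'] at hm
        exact absurd rfl hm
  have h5 : ∑ l ∈ P, ‖tw N (N4_K r b l) (hi U muR * (hi U vM * zeR))‖ ≤
      72 * L ^ 2 * √r * (L : ℝ) ^ 2 * N / y0 * √(1 + (Q : ℝ) ^ 2 / U + (Q : ℝ) ^ 4 / N) := by
    have := N4_two P Q y0 hy0 hP r hr b N U L hU hL
      (fun m => if m * U ≤ N then hi U muR m else 0)
      (fun d => (hi U vM * zeR) d) L (by positivity) ?_ ?_ ?_
    · refine le_trans (le_of_eq ?_) this
      apply sum_congr rfl; intro l _
      rw [tw_mul]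
      congr 1
      apply sum_congr rfl; intro m hm
      rw [mem_Ioc] at hm
      by_cases hmU : m * U ≤ N
      · simp only [if_pos hmU]
      · have hz : ∀ d ∈ Ioc 0 (N / m), (hi U vM * zeR) d = 0 := by
          intro d hd
          rw [mem_Ioc] at hd
          apply vz_eq_zero
          have : N / m < U := by
            rw [Nat.div_lt_iff_lt_mul hm.1]
            rw [mul_comm]
            omega
          omega
        rw [sum_eq_zero, sum_eq_zero]
        · intro d hd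
          rw [hz d hd]; simp
        · intro d hd
          rw [hz d hd]; simp
    · intro m _
      split_ifs
      · exact (hi_muR_abs_le U m).trans hLr
      · simp
    · intro n hn
      rw [abs_of_nonneg (vz_nonneg U n)]
      exact (vz_le U n).trans (log_le_L hL (by omega))
    · intro m hm
      by_cases hmU : m * U ≤ N
      · rw [if_pos hmU, hi_apply] at hm
        refine ⟨?_, hmU⟩
        by_contra hc
        rw [if_neg hc] at hm
        exact hm rfl
      · rw [if_neg hmU] at hm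
        exact absurd rfl hm
  -- assemble
  have hcard : (P.card : ℝ) ≤ Q := by
    have hsub : P ⊆ Ioc 0 Q := by
      intro l hl
      rw [mem_Ioc]
      exact ⟨(hP l hl).1.pos, (hP l hl).2.1⟩
    have := card_le_card hsub
    rw [Nat.card_Ioc, Nat.sub_zero] at this
    exact_mod_cast this
  calc ∑ l ∈ P, ‖tw N (N4_K r b l) vM‖
      ≤ ∑ l ∈ P, (2 * (U * L) + (U * 1) * (4 * L * (r * Q)) + (U * L) * (2 * (r * Q)) +
        ‖tw N (N4_K r b l) (hi U (cU U) * zeR)‖ +
        ‖tw N (N4_K r b l) (hi U muR * (hi U vM * zeR))‖) := by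
        apply sum_le_sum; intro l hl
        rw [tw_vM N U]
        refine (norm_add_le _ _).trans ?_
        gcongr
        refine (norm_sub_le _ _).trans ?_
        gcongr
        refine (norm_sub_le _ _).trans ?_
        refine add_le_add ?_ (h3 l hl)
        exact (norm_add_le _ _).trans (add_le_add (h1 l hl) (h2 l hl))
    _ ≤ ∑ l ∈ P, (8 * L * r * U * Q +
        ‖tw N (N4_K r b l) (hi U (cU U) * zeR)‖ +
        ‖tw N (N4_K r b l) (hi U muR * (hi U vM * zeR))‖) := by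
        apply sum_le_sum; intro l hl
        gcongr
        have hq := hQ1 l hl
        have hrq : (1 : ℝ) ≤ r * Q := by nlinarith
        have hUL : (0 : ℝ) ≤ U * L := by positivity
        nlinarith
    _ = P.card * (8 * L * r * U * Q) +
        ∑ l ∈ P, ‖tw N (N4_K r b l) (hi U (cU U) * zeR)‖ +
        ∑ l ∈ P, ‖tw N (N4_K r b l) (hi U muR * (hi U vM * zeR))‖ := by
        rw [sum_add_distrib, sum_add_distrib, sum_const, nsmul_eq_mul]
    _ ≤ Q * (8 * L * r * U * Q) +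
        (72 * L ^ 2 * √r * (L : ℝ) ^ 2 * N / y0 * √(1 + (Q : ℝ) ^ 2 / U + (Q : ℝ) ^ 4 / N)) +
        (72 * L ^ 2 * √r * (L : ℝ) ^ 2 * N / y0 * √(1 + (Q : ℝ) ^ 2 / U + (Q : ℝ) ^ 4 / N)) := by
        gcongr
    _ = _ := by ring

end N4_copy

theorem core_false (P : Finset ℕ) (Q : ℕ) (y0 : ℝ) (hy0 : 0 < y0) (hP : ∀ l ∈ P, l.Prime ∧ l ≤ Q ∧ y0 ≤ l)
    (N U L : ℕ) (hU : 1 ≤ U) (hU3 : U * U * U ≤ N) (hL : N + 1 < 2 ^ L) :
    ∑ l ∈ P, |DD false l N| ≤ 8 * L * U * (Q : ℝ) ^ 2 +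
      144 * L ^ 4 * N / y0 * √(1 + (Q : ℝ) ^ 2 / U + (Q : ℝ) ^ 4 / N) := by
  have h0 := N4_core P Q y0 hy0 hP 1 one_pos (fun l hl h1 => (hP l hl).1.one_lt.ne' (Nat.dvd_one.1 h1)) 0 N U L hU hU3 hL
  have h1 : ∀ l ∈ P, ‖Pool.Agent.Lib.MP_2a816b_nt.tw N (fun k => dm l k *
      Pool.Agent.Lib.MP_2a816b_nt.e ((k * 0 : ℕ) / (1 : ℕ))) Pool.Agent.Lib.MP_2a816b_nt.vM‖ = |DD false l N| := by
    intro l _
    have h2 : Pool.Agent.Lib.MP_2a816b_nt.tw N (fun k => dm l k *
        Pool.Agent.Lib.MP_2a816b_nt.e ((k * 0 : ℕ) / (1 : ℕ))) Pool.Agent.Lib.MP_2a816b_nt.vM =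
        ((DD false l N : ℝ) : ℂ) := by
      unfold Pool.Agent.Lib.MP_2a816b_nt.tw DD
      rw [Complex.ofReal_sum]
      refine sum_congr rfl fun n _ => ?_
      have h3 : Pool.Agent.Lib.MP_2a816b_nt.e ((n * 0 : ℕ) / (1 : ℕ)) = 1 := by
        rw [Nat.mul_zero, Nat.cast_zero, zero_div, Pool.Agent.Lib.MP_2a816b_nt.e_zero]
      have h4 : dm l n = ((dk false l n : ℝ) : ℂ) := by
        unfold dm dk cl
        by_cases h5 : l ∣ n + 1
        · by_cases h6 : l ∣ n
          · simp only [if_pos h5, if_pos h6]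
            push_cast
            rfl
          · simp only [if_pos h5, if_neg h6]
            push_cast
            rfl
        · by_cases h6 : l ∣ n
          · simp only [if_neg h5, if_pos h6]
            push_cast
            rfl
          · simp only [if_neg h5, if_neg h6]
            push_cast
            rfl
      show _ * (dm l n * Pool.Agent.Lib.MP_2a816b_nt.e ((n * 0 : ℕ) / (1 : ℕ))) = _
      rw [h3, mul_one, h4, Complex.ofReal_mul]
      rfl
    rw [h2, Complex.norm_real, Real.norm_eq_abs]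
  rw [sum_congr rfl h1] at h0
  refine h0.trans (le_of_eq ?_)
  rw [Nat.cast_one, Real.sqrt_one]
  ring

end Pool.Agent.Lib.MP_5deb1d_nt
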