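import Mathlib
import Pool.Agent.Lib.MP_5deb1d_nt.C1
import Pool.Agent.Lib.MP_5deb1d_nt.N4

/-!
JOB B1. The block estimate for `log N ≤ Q^η`. PROOF: it is enough to treat `d ≤ 1` (for larger `d` use `d = 1`). `P = PB Q`, the parameter `Q` of `core_true`, `core_false` is `2Q`, `y0 = Q`, `U = ⌊Q^(d/4)⌋`
(so `Q^(d/4)/2 ≤ U ≤ Q^(d/4)`), `L = Nat.log 2 (N+1) + 1`, `L ≤ 3 log N`. First term: `8 L U (2Q)² ≤ 96 (log N) Q^(2 + d/4) ≤ 96 (log N) N Q^(-3d/4)`. Second: `U ≥ Q^(d/4)/2`, `N ≥ Q^(2+d)`: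
`√(1 + 4Q²/U + 16 Q⁴/N) ≤ √(1 + 8 Q^(2-d/4) + 16 Q^(2-d)) ≤ 5 Q^(1-d/8)`, so it is `≤ 144 * 81 * 5 (log N)^4 N Q^(-d/8)`. With `η = d/100` and `log N ≤ Q^η`: the sum times `(log N)²` is `≤ C N Q^(6η - d/8) ≤ N Q^(-η)` for `Q` large.
-/

set_option autoImplicit false

open Finset
open ArithmeticFunction (vonMangoldt)

namespace Pool.Agent.Lib.MP_5deb1d_nt

private theorem B1_core (a : Bool) (P : Finset ℕ) (Q : ℕ) (y0 : ℝ) (hy0 : 0 < y0)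
    (hP : ∀ l ∈ P, l.Prime ∧ l ≤ Q ∧ y0 ≤ l)
    (N U L : ℕ) (hU : 1 ≤ U) (hU3 : U * U * U ≤ N) (hL : N + 1 < 2 ^ L) :
    ∑ l ∈ P, |DD a l N| ≤ 8 * L * U * (Q : ℝ) ^ 2 +
      144 * L ^ 4 * N / y0 * √(1 + (Q : ℝ) ^ 2 / U + (Q : ℝ) ^ 4 / N) := by
  cases a
  · exact core_false P Q y0 hy0 hP N U L hU hU3 hL
  · exact core_true P Q y0 hy0 hP N U L hU hU3 hL

private theorem B1_L (N : ℕ) (hN : 2 ≤ Real.log N) : ((Nat.log 2 (N + 1) + 1 : ℕ) : ℝ) ≤ 3 * Real.log N := by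
  have hN1 : 1 ≤ N := by
    rcases Nat.eq_zero_or_pos N with h | h
    · rw [h, Nat.cast_zero, Real.log_zero] at hN
      norm_num at hN
    · exact h
  have hNr : (1 : ℝ) ≤ N := by exact_mod_cast hN1
  have h1 : 2 ^ Nat.log 2 (N + 1) ≤ N + 1 := Nat.pow_log_le_self 2 (by omega)
  have h2 : (2 : ℝ) ^ Nat.log 2 (N + 1) ≤ 2 * N := by
    have h3 : ((2 ^ Nat.log 2 (N + 1) : ℕ) : ℝ) ≤ ((N + 1 : ℕ) : ℝ) := by exact_mod_cast h1
    push_cast at h3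
    linarith
  have h4 : (Nat.log 2 (N + 1) : ℝ) * Real.log 2 ≤ Real.log 2 + Real.log N := by
    rw [← Real.log_pow, ← Real.log_mul (by norm_num) (by positivity)]
    exact Real.log_le_log (by positivity) h2
  have h5 := Real.log_two_gt_d9
  push_cast
  have h6 : (0 : ℝ) ≤ Nat.log 2 (N + 1) := Nat.cast_nonneg _
  nlinarith

private theorem B1_main (d : ℝ) (hd : 0 < d) (hd1 : d ≤ 1) (Q N : ℕ) (hQ : 3 ≤ Q) (hN : (Q : ℝ) ^ (2 + d) ≤ N)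
    (a : Bool) : ∑ q ∈ PB Q, |DD a q N| ≤ 58416 * Real.log N ^ 4 * ((Q : ℝ) ^ (-(d / 8)) * N) := by
  have hq3 : (3 : ℝ) ≤ Q := by exact_mod_cast hQ
  have hq1 : (1 : ℝ) ≤ Q := by linarith
  have hq0 : (0 : ℝ) < Q := by linarith
  have hNq2 : (Q : ℝ) ^ (2 : ℝ) ≤ N := (Real.rpow_le_rpow_of_exponent_le hq1 (by linarith)).trans hN
  have hN0 : (0 : ℝ) < N := lt_of_lt_of_le (Real.rpow_pos_of_pos hq0 _) hNq2
  have hX : 2 ≤ Real.log N := by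
    have h1 : (1 : ℝ) ≤ Real.log Q := by
      rw [Real.le_log_iff_exp_le hq0]
      linarith [Real.exp_one_lt_d9]
    have h2 : Real.log ((Q : ℝ) ^ (2 : ℝ)) ≤ Real.log N :=
      Real.log_le_log (Real.rpow_pos_of_pos hq0 _) hNq2
    rw [Real.log_rpow hq0] at h2
    linarith
  set X := Real.log N with hXdef
  set u : ℝ := (Q : ℝ) ^ (d / 4) with hu
  have hu1 : 1 ≤ u := Real.one_le_rpow hq1 (by linarith)
  set U : ℕ := ⌊u⌋₊ with hU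
  have hU1 : 1 ≤ U := Nat.le_floor (by exact_mod_cast hu1)
  have hUr1 : (1 : ℝ) ≤ U := by exact_mod_cast hU1
  have hUle : (U : ℝ) ≤ u := Nat.floor_le (by linarith)
  have hUge : u / 2 ≤ U := by
    have h1 : u < U + 1 := Nat.lt_floor_add_one u
    linarith
  have hU3 : U * U * U ≤ N := by
    have h1 : ((U * U * U : ℕ) : ℝ) ≤ u ^ 3 := by
      push_cast
      have h0 : (0 : ℝ) ≤ U := by linarith
      calc (U : ℝ) * U * U = (U : ℝ) ^ 3 := by ring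
        _ ≤ u ^ 3 := by gcongr
    have h2 : u ^ 3 ≤ (Q : ℝ) ^ (2 : ℝ) := by
      rw [hu, ← Real.rpow_natCast, ← Real.rpow_mul hq0.le]
      refine Real.rpow_le_rpow_of_exponent_le hq1 ?_
      push_cast
      linarith
    exact_mod_cast h1.trans (h2.trans hNq2)
  set L : ℕ := Nat.log 2 (N + 1) + 1 with hL
  have hLN : N + 1 < 2 ^ L := Nat.lt_pow_succ_log_self (by norm_num) _
  have hLX : (L : ℝ) ≤ 3 * X := B1_L N hX
  have hL0 : (0 : ℝ) ≤ L := Nat.cast_nonneg _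
  have hcore := B1_core a (PB Q) (2 * Q) Q hq0 (by
    intro l hl
    rw [mem_PB] at hl
    refine ⟨hl.1, hl.2.2, ?_⟩
    exact_mod_cast hl.2.1.le) N U L hU1 hU3 hLN
  refine hcore.trans ?_
  push_cast
  set w : ℝ := (Q : ℝ) ^ (-(d / 8)) with hw
  have hw0 : 0 < w := Real.rpow_pos_of_pos hq0 _
  -- first term
  have hT1 : 8 * (L : ℝ) * U * (2 * (Q : ℝ)) ^ 2 ≤ 96 * X * (w * N) := by
    have h1 : (Q : ℝ) ^ 2 * u ≤ w * N := by
      have h2 : (Q : ℝ) ^ 2 * u ≤ w * (Q : ℝ) ^ (2 + d) := by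
        rw [hu, hw, ← Real.rpow_natCast, ← Real.rpow_add hq0, ← Real.rpow_add hq0]
        refine Real.rpow_le_rpow_of_exponent_le hq1 ?_
        push_cast
        linarith
      exact h2.trans (mul_le_mul_of_nonneg_left hN hw0.le)
    calc 8 * (L : ℝ) * U * (2 * (Q : ℝ)) ^ 2 = 32 * L * (U * (Q : ℝ) ^ 2) := by ring
      _ ≤ 32 * (3 * X) * (u * (Q : ℝ) ^ 2) := by gcongr
      _ = 96 * X * ((Q : ℝ) ^ 2 * u) := by ring
      _ ≤ 96 * X * (w * N) := by gcongr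
  -- second term
  have hsq : √(1 + (2 * (Q : ℝ)) ^ 2 / U + (2 * (Q : ℝ)) ^ 4 / N) ≤ 5 * (w * Q) := by
    rw [Real.sqrt_le_left (by positivity)]
    have hwQ : (w * Q) ^ 2 = (Q : ℝ) ^ (2 - d / 4) := by
      rw [mul_pow, hw, ← Real.rpow_natCast, ← Real.rpow_mul hq0.le, ← Real.rpow_natCast, ← Real.rpow_add hq0]
      congr 1
      push_cast
      ring
    have h1 : (1 : ℝ) ≤ (Q : ℝ) ^ (2 - d / 4) := Real.one_le_rpow hq1 (by linarith)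
    have h2 : (2 * (Q : ℝ)) ^ 2 / U ≤ 8 * (Q : ℝ) ^ (2 - d / 4) := by
      rw [div_le_iff₀ (by linarith)]
      have h3 : (Q : ℝ) ^ 2 = (Q : ℝ) ^ (2 - d / 4) * u := by
        rw [hu, ← Real.rpow_add hq0, ← Real.rpow_natCast]
        congr 1
        push_cast
        ring
      calc (2 * (Q : ℝ)) ^ 2 = 8 * (Q : ℝ) ^ (2 - d / 4) * (u / 2) := by rw [mul_pow, h3]; ring
        _ ≤ 8 * (Q : ℝ) ^ (2 - d / 4) * U := by gcongr
    have h4 : (2 * (Q : ℝ)) ^ 4 / N ≤ 16 * (Q : ℝ) ^ (2 - d / 4) := by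
      rw [div_le_iff₀ hN0]
      have h5 : (Q : ℝ) ^ 4 ≤ (Q : ℝ) ^ (2 - d / 4) * (Q : ℝ) ^ (2 + d) := by
        rw [← Real.rpow_add hq0, ← Real.rpow_natCast]
        refine Real.rpow_le_rpow_of_exponent_le hq1 ?_
        push_cast
        linarith
      calc (2 * (Q : ℝ)) ^ 4 = 16 * (Q : ℝ) ^ 4 := by ring
        _ ≤ 16 * ((Q : ℝ) ^ (2 - d / 4) * (Q : ℝ) ^ (2 + d)) := by gcongr
        _ ≤ 16 * ((Q : ℝ) ^ (2 - d / 4) * N) := by gcongr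
        _ = 16 * (Q : ℝ) ^ (2 - d / 4) * N := by ring
    rw [show (5 * (w * (Q : ℝ))) ^ 2 = 25 * (w * Q) ^ 2 by ring, hwQ]
    linarith
  have hT2 : 144 * (L : ℝ) ^ 4 * N / Q * √(1 + (2 * (Q : ℝ)) ^ 2 / U + (2 * (Q : ℝ)) ^ 4 / N) ≤
      58320 * X ^ 4 * (w * N) := by
    calc 144 * (L : ℝ) ^ 4 * N / Q * √(1 + (2 * (Q : ℝ)) ^ 2 / U + (2 * (Q : ℝ)) ^ 4 / N)
        ≤ 144 * (3 * X) ^ 4 * N / Q * (5 * (w * Q)) := by gcongr
      _ = 58320 * X ^ 4 * (w * N) := by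
        field_simp
        ring
  have hXX : X ≤ X ^ 4 := by
    calc X = X ^ 1 := (pow_one X).symm
      _ ≤ X ^ 4 := pow_le_pow_right₀ (by linarith) (by norm_num)
  have hwN : 0 ≤ w * N := by positivity
  have h7 : 96 * X * (w * N) ≤ 96 * X ^ 4 * (w * N) := by gcongr
  calc _ ≤ 96 * X * (w * N) + 58320 * X ^ 4 * (w * N) := add_le_add hT1 hT2
    _ ≤ 96 * X ^ 4 * (w * N) + 58320 * X ^ 4 * (w * N) := by linarith
    _ = 58416 * X ^ 4 * (w * N) := by ring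

private theorem B1_small (d : ℝ) (hd : 0 < d) (hd1 : d ≤ 1) : ∃ Q0 : ℕ, ∀ Q : ℕ, Q0 ≤ Q → ∀ N : ℕ,
    (Q : ℝ) ^ (2 + d) ≤ N → Real.log N ≤ (Q : ℝ) ^ (d / 100) → ∀ a : Bool,
    ∑ q ∈ PB Q, |DD a q N| ≤ (Q : ℝ) ^ (-(d / 100)) * (N / (Real.log N) ^ 2) := by
  have h1 : Filter.Tendsto (fun Q : ℕ => (Q : ℝ) ^ (11 * d / 200)) Filter.atTop Filter.atTop :=
    (tendsto_rpow_atTop (by positivity)).comp tendsto_natCast_atTop_atTop
  obtain ⟨Q1, hQ1⟩ := (h1.eventually (Filter.eventually_ge_atTop 58416)).exists_forall_of_atTop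
  refine ⟨max Q1 3, fun Q hQ N hN hlog a => ?_⟩
  have hQ3 : 3 ≤ Q := (le_max_right _ _).trans hQ
  have hbig : 58416 ≤ (Q : ℝ) ^ (11 * d / 200) := hQ1 Q ((le_max_left _ _).trans hQ)
  have hq3 : (3 : ℝ) ≤ Q := by exact_mod_cast hQ3
  have hq1 : (1 : ℝ) ≤ Q := by linarith
  have hq0 : (0 : ℝ) < Q := by linarith
  have hN0 : (0 : ℝ) < N := lt_of_lt_of_le (Real.rpow_pos_of_pos hq0 _) hN
  have hX0 : 0 < Real.log N := by
    refine Real.log_pos (lt_of_lt_of_le ?_ hN)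
    exact Real.one_lt_rpow (by linarith) (by linarith)
  refine (B1_main d hd hd1 Q N hQ3 hN a).trans ?_
  set X := Real.log N with hX
  set v : ℝ := (Q : ℝ) ^ (-(d / 100)) with hv
  have hkey : 58416 * X ^ 6 * (Q : ℝ) ^ (-(d / 8)) ≤ v := by
    calc 58416 * X ^ 6 * (Q : ℝ) ^ (-(d / 8))
        ≤ (Q : ℝ) ^ (11 * d / 200) * ((Q : ℝ) ^ (d / 100)) ^ 6 * (Q : ℝ) ^ (-(d / 8)) := by gcongr
      _ = v := by
        rw [hv, ← Real.rpow_natCast ((Q : ℝ) ^ (d / 100)), ← Real.rpow_mul hq0.le, ← Real.rpow_add hq0,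
          ← Real.rpow_add hq0]
        congr 1
        push_cast
        ring
  have h2 : v * (N / X ^ 2) = v * N / X ^ 2 := by ring
  rw [h2, le_div_iff₀ (by positivity)]
  calc 58416 * X ^ 4 * ((Q : ℝ) ^ (-(d / 8)) * N) * X ^ 2 = 58416 * X ^ 6 * (Q : ℝ) ^ (-(d / 8)) * N := by ring
    _ ≤ v * N := by gcongr

theorem blk1 (d : ℝ) (hd : 0 < d) : ∃ η : ℝ, 0 < η ∧ ∃ Q0 : ℕ, ∀ Q : ℕ, Q0 ≤ Q → ∀ N : ℕ, (Q : ℝ) ^ (2 + d) ≤ N →
    Real.log N ≤ (Q : ℝ) ^ η → ∀ a : Bool, ∑ q ∈ PB Q, |DD a q N| ≤ (Q : ℝ) ^ (-η) * (N / (Real.log N) ^ 2) := by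
  have hm : 0 < min d 1 := lt_min hd one_pos
  obtain ⟨Q0, hQ0⟩ := B1_small (min d 1) hm (min_le_right _ _)
  refine ⟨min d 1 / 100, by positivity, max Q0 1, fun Q hQ N hN hlog a => ?_⟩
  have hq1 : (1 : ℝ) ≤ Q := by exact_mod_cast (le_max_right Q0 1).trans hQ
  refine hQ0 Q ((le_max_left _ _).trans hQ) N ?_ hlog a
  refine (Real.rpow_le_rpow_of_exponent_le hq1 ?_).trans hN
  have := min_le_left d 1
  linarith

end Pool.Agent.Lib.MP_5deb1d_nt
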