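import Mathlib
import Pool.Agent.Lib.MP_5deb1d_nt.D0
import Pool.Agent.Lib.MP_42948a_nt.EX.C2
import Pool.Agent.Lib.MP_42948a_nt.TQ.A2

/-!
JOB BD. `∑ 1/p` over `q² < p ≤ y`, `p ≡ ±1 (q)` (Brun-Titchmarsh in logarithmic form). PROOF: `brun_one` (`Lib/MP_42948a_nt/EX/C2.lean`; `rc m` is `1/m`) with the weights
`fund 1` (`TQ/A2.lean`: one `K` for all `z ≥ 2`), `d := q`, `Y := q²`, `X := y`, `b = ±1`, `z := ⌊q^(1/(2(K+1)))⌋`: `z^K ≤ √q`, so `4 z^K/Y ≤ 4 q^(-3/2)`; `log(X/Y) ≤ (2+d) log q + 1 - 2 log q = d log q + 1`;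
`φ(q) log z ≥ (q/2) c log q`. Application model: `EX/C3.lean` (`brun_class`). For the finitely many `q` with `z < 2`: partial sums of `1/n` over `n ≡ ±1 (q)`, `n ≤ y`:
`∑_{q² < n ≤ y} [n ≡ ±1]/n ≤ (2/q)(log(y/q²) + 1)`-type bound (`n = kq ± 1 ≥ kq/2`) `≤ (2/q)(d log q + 2)`, a constant times `(1/q)(d + 1/log q)` for bounded `q`.
If `y < q²` the sum is empty. (`cl true q p`: `(p : ZMod q) = 1`; `cl false q p`: `(p : ZMod q) = -1`.)
-/

set_option autoImplicit false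

open Finset
open ArithmeticFunction (vonMangoldt)

namespace Pool.Agent.Lib.MP_5deb1d_nt

private theorem BD_harm (A y : ℕ) (hA : 0 < A) (hy : A ≤ y) :
    ∑ n ∈ Ioc A y, 1 / (n : ℝ) ≤ Real.log ((y : ℝ) / A) := by
  have hA0 : (0 : ℝ) < A := by exact_mod_cast hA
  refine Nat.le_induction ?_ ?_ y hy
  · rw [Ioc_self, sum_empty, div_self hA0.ne', Real.log_one]
  · intro m hm ih
    have hm0 : (0 : ℝ) < m := lt_of_lt_of_le hA0 (by exact_mod_cast hm)
    rw [Finset.sum_Ioc_succ_top hm]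
    have h1 : Real.log (((m + 1 : ℕ) : ℝ) / A) = Real.log ((m : ℝ) / A) - Real.log ((m : ℝ) / ((m : ℝ) + 1)) := by
      rw [Real.log_div (by positivity) hA0.ne', Real.log_div hm0.ne' hA0.ne', Real.log_div hm0.ne' (by positivity)]
      push_cast
      ring
    have h2 : Real.log ((m : ℝ) / ((m : ℝ) + 1)) ≤ (m : ℝ) / ((m : ℝ) + 1) - 1 :=
      Real.log_le_sub_one_of_pos (by positivity)
    have h3 : (m : ℝ) / ((m : ℝ) + 1) - 1 = - (1 / ((m + 1 : ℕ) : ℝ)) := by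
      push_cast
      field_simp
      ring
    rw [h1]
    linarith

private theorem BD_class (a : Bool) (q : ℕ) [NeZero q] : ∃ b : (ZMod q)ˣ, ∀ n : ℕ,
    cl a q n = if (n : ZMod q) = (b : ZMod q) then 1 else 0 := by
  cases a
  · refine ⟨-1, fun n => ?_⟩
    have h : (q ∣ n + 1) ↔ (n : ZMod q) = ((-1 : (ZMod q)ˣ) : ZMod q) := by
      rw [← ZMod.natCast_eq_zero_iff, Units.val_neg, Units.val_one, Nat.cast_add, Nat.cast_one,
        add_eq_zero_iff_eq_neg]
    simp only [cl]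
    by_cases h1 : q ∣ n + 1
    · rw [if_pos h1, if_pos (h.1 h1)]
    · rw [if_neg h1, if_neg (fun h2 => h1 (h.2 h2))]
  · refine ⟨1, fun n => ?_⟩
    have h : (n ≡ 1 [MOD q]) ↔ (n : ZMod q) = ((1 : (ZMod q)ˣ) : ZMod q) := by
      rw [Units.val_one, ← ZMod.natCast_eq_natCast_iff, Nat.cast_one]
    simp only [cl]
    by_cases h1 : n ≡ 1 [MOD q]
    · rw [if_pos h1, if_pos (h.1 h1)]
    · rw [if_neg h1, if_neg (fun h2 => h1 (h.2 h2))]

theorem bt_sum : ∃ C : ℝ, 0 < C ∧ ∀ q : ℕ, q.Prime → 3 ≤ q → ∀ d : ℝ, 0 ≤ d → ∀ y : ℕ,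
    Real.log y ≤ (2 + d) * Real.log q + 1 → ∀ a : Bool,
    ∑ p ∈ (Ioc (q ^ 2) y).filter Nat.Prime, cl a q p / p ≤ C / q * (d + 1 / Real.log q) := by
  classical
  obtain ⟨K, hK⟩ := Pool.Agent.Lib.MP_42948a_nt.TQ.fund 1 one_pos le_rfl
  obtain ⟨c, hc⟩ : ∃ c : ℝ, c = 1 / (2 * (K + 1)) := ⟨_, rfl⟩
  have hK1 : (0 : ℝ) < (K : ℝ) + 1 := by positivity
  have hc0 : 0 < c := by rw [hc]; positivity
  have hcK : c * (K + 1) = 1 / 2 := by rw [hc]; field_simp
  have hcK' : c * K ≤ 1 / 2 := by nlinarith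
  have hc1 : c ≤ 1 := by nlinarith [(Nat.cast_nonneg K : (0 : ℝ) ≤ (K : ℝ))]
  refine ⟨8 / c + 8 + Real.exp (2 / c) * (2 / c), by positivity, ?_⟩
  intro q hq hq3 d hd y hy a
  have : NeZero q := ⟨hq.ne_zero⟩
  have hq3r : (3 : ℝ) ≤ q := by exact_mod_cast hq3
  have hq0 : (0 : ℝ) < q := by linarith
  have hq1 : (1 : ℝ) ≤ q := by linarith
  obtain ⟨L, hL⟩ : ∃ L : ℝ, L = Real.log q := ⟨_, rfl⟩
  have hL0 : 0 < L := by rw [hL]; exact Real.log_pos (by linarith)
  rw [← hL] at hy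
  rw [← hL]
  have hR0 : 0 ≤ (1 / (q : ℝ)) * (d + 1 / L) := by positivity
  have hC0 : 0 ≤ (8 / c + 8 + Real.exp (2 / c) * (2 / c)) / q * (d + 1 / L) := by positivity
  by_cases hqy : q ^ 2 ≤ y
  swap
  · have hemp : Ioc (q ^ 2) y = ∅ := Ioc_eq_empty (by omega)
    rw [hemp, filter_empty, sum_empty]
    exact hC0
  have hq2 : 0 < q ^ 2 := by positivity
  have hy0 : (0 : ℝ) < y := by exact_mod_cast lt_of_lt_of_le hq2 hqy
  have hlog : Real.log ((y : ℝ) / ((q ^ 2 : ℕ) : ℝ)) ≤ d * L + 1 := by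
    rw [Real.log_div hy0.ne' (by positivity), Nat.cast_pow, Real.log_pow, ← hL]
    push_cast
    linarith
  by_cases hqc : 2 ≤ c * L
  swap
  · -- the small moduli
    push Not at hqc
    have hLc : L < 2 / c := by
      rw [lt_div_iff₀ hc0]
      linarith
    have hqe : (q : ℝ) ≤ Real.exp (2 / c) := by
      rw [← Real.exp_log hq0, ← hL]
      exact Real.exp_le_exp.2 hLc.le
    have h1 : ∑ p ∈ (Ioc (q ^ 2) y).filter Nat.Prime, cl a q p / p ≤ ∑ n ∈ Ioc (q ^ 2) y, 1 / (n : ℝ) := by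
      refine (sum_le_sum fun p _ => ?_).trans
        (sum_le_sum_of_subset_of_nonneg (filter_subset _ _) fun n _ _ => by positivity)
      exact div_le_div_of_nonneg_right (cl_le_one a q p) (Nat.cast_nonneg p)
    have h2 := BD_harm (q ^ 2) y hq2 hqy
    have h3 : d * L + 1 = (q * L) * (1 / (q : ℝ) * (d + 1 / L)) := by
      field_simp
    have h4 : (q : ℝ) * L ≤ Real.exp (2 / c) * (2 / c) :=
      mul_le_mul hqe hLc.le hL0.le (Real.exp_pos _).le
    calc ∑ p ∈ (Ioc (q ^ 2) y).filter Nat.Prime, cl a q p / p ≤ d * L + 1 := h1.trans (h2.trans hlog)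
      _ = (q * L) * (1 / (q : ℝ) * (d + 1 / L)) := h3
      _ ≤ (Real.exp (2 / c) * (2 / c)) * (1 / (q : ℝ) * (d + 1 / L)) := mul_le_mul_of_nonneg_right h4 hR0
      _ ≤ (8 / c + 8 + Real.exp (2 / c) * (2 / c)) * (1 / (q : ℝ) * (d + 1 / L)) := by
          refine mul_le_mul_of_nonneg_right ?_ hR0
          have h5 : 0 < 8 / c := by positivity
          linarith
      _ = _ := by ring
  · -- the large moduli
    have hpow : ∀ x : ℝ, (q : ℝ) ^ x = Real.exp (x * L) := by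
      intro x
      rw [Real.rpow_def_of_pos hq0, ← hL, mul_comm]
    obtain ⟨z, hz⟩ : ∃ z : ℕ, z = ⌊(q : ℝ) ^ c⌋₊ := ⟨_, rfl⟩
    have hexp2 : (2 : ℝ) ≤ Real.exp 1 := by
      have := Real.add_one_le_exp (1 : ℝ)
      linarith
    have hdz : (4 : ℝ) ≤ (q : ℝ) ^ c := by
      rw [hpow]
      calc (4 : ℝ) ≤ Real.exp 1 * Real.exp 1 := by nlinarith
        _ = Real.exp 2 := by rw [← Real.exp_add]; norm_num
        _ ≤ _ := Real.exp_le_exp.2 hqc
    have hzlow : (q : ℝ) ^ c / 2 ≤ z := by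
      rw [hz]
      have h1 := Nat.lt_floor_add_one ((q : ℝ) ^ c)
      linarith
    have hz2r : (2 : ℝ) ≤ z := by linarith
    have hz2 : 2 ≤ z := by exact_mod_cast hz2r
    have hzup : (z : ℝ) ≤ (q : ℝ) ^ c := by rw [hz]; exact Nat.floor_le (by positivity)
    have hlog2 : Real.log 2 ≤ 1 := by
      have := Real.log_le_sub_one_of_pos (show (0 : ℝ) < 2 by norm_num)
      linarith
    have hlogz : c / 2 * L ≤ Real.log z := by
      have h1 : Real.log ((q : ℝ) ^ c / 2) ≤ Real.log z := Real.log_le_log (by positivity) hzlow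
      rw [Real.log_div (by positivity) (by norm_num), Real.log_rpow hq0, ← hL] at h1
      linarith
    have hlz0 : 0 < Real.log z := lt_of_lt_of_le (by positivity) hlogz
    have hzK : (z : ℝ) ^ K ≤ Real.sqrt q := by
      calc (z : ℝ) ^ K ≤ ((q : ℝ) ^ c) ^ K := pow_le_pow_left₀ (by positivity) hzup K
        _ = (q : ℝ) ^ (c * K) := by rw [← Real.rpow_natCast, ← Real.rpow_mul hq0.le]
        _ ≤ (q : ℝ) ^ (1 / 2 : ℝ) := Real.rpow_le_rpow_of_exponent_le hq1 hcK'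
        _ = Real.sqrt q := by rw [Real.sqrt_eq_rpow]
    have hsq : Real.sqrt q ≤ q := by
      rw [Real.sqrt_le_left hq0.le]
      nlinarith
    have hzY : 2 * z ^ K ≤ q ^ 2 := by
      have h1 : ((2 * z ^ K : ℕ) : ℝ) ≤ ((q ^ 2 : ℕ) : ℝ) := by
        push_cast
        nlinarith
      exact_mod_cast h1
    have hzY' : z ≤ q ^ 2 := by
      have h2 : (q : ℝ) ^ c ≤ q := by
        calc (q : ℝ) ^ c ≤ (q : ℝ) ^ (1 : ℝ) := Real.rpow_le_rpow_of_exponent_le hq1 hc1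
          _ = q := Real.rpow_one _
      have h1 : ((z : ℕ) : ℝ) ≤ ((q ^ 2 : ℕ) : ℝ) := by
        push_cast
        nlinarith
      exact_mod_cast h1
    obtain ⟨u, l, hF⟩ := hK z hz2
    obtain ⟨b, hb⟩ := BD_class a q
    have hmain := Pool.Agent.Lib.MP_42948a_nt.EX.brun_one hF zero_le_one hz2 q b (q ^ 2) y hzY hzY' hqy
    have hcard : (Fintype.card (ZMod q)ˣ : ℝ) = (q : ℝ) - 1 := by
      rw [ZMod.card_units_eq_totient, Nat.totient_prime hq, Nat.cast_sub hq.one_lt.le, Nat.cast_one]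
    rw [hcard] at hmain
    have hsum : ∑ p ∈ (Ioc (q ^ 2) y).filter Nat.Prime, cl a q p / p =
        ∑ m ∈ ((Ioc (q ^ 2) y).filter Nat.Prime).filter (fun m : ℕ => (m : ZMod q) = (b : ZMod q)),
          Pool.Agent.Lib.MP_42948a_nt.EX.rc m := by
      rw [sum_filter (fun m : ℕ => (m : ZMod q) = (b : ZMod q))]
      refine sum_congr rfl fun p _ => ?_
      rw [hb p]
      by_cases h1 : (p : ZMod q) = (b : ZMod q)
      · rw [if_pos h1, if_pos h1]
        rfl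
      · rw [if_neg h1, if_neg h1, zero_div]
    rw [hsum]
    have ht1 : (1 + 1) * Real.log ((y : ℝ) / ((q ^ 2 : ℕ) : ℝ)) / (((q : ℝ) - 1) * Real.log z) ≤
        (8 / c) * (1 / (q : ℝ) * (d + 1 / L)) := by
      have h1 : (0 : ℝ) < (q : ℝ) - 1 := by linarith
      rw [div_le_iff₀ (by positivity)]
      have h2 : (q : ℝ) / 2 * (c / 2 * L) ≤ ((q : ℝ) - 1) * Real.log z :=
        mul_le_mul (by linarith) hlogz (by positivity) h1.le
      calc (1 + 1) * Real.log ((y : ℝ) / ((q ^ 2 : ℕ) : ℝ)) ≤ (1 + 1) * (d * L + 1) :=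
            mul_le_mul_of_nonneg_left hlog (by norm_num)
        _ = (8 / c) * (1 / (q : ℝ) * (d + 1 / L)) * ((q : ℝ) / 2 * (c / 2 * L)) := by
            field_simp
            ring
        _ ≤ _ := mul_le_mul_of_nonneg_left h2 (by positivity)
    have ht2 : (z : ℝ) ^ K * (4 / ((q ^ 2 : ℕ) : ℝ)) ≤ 8 * (1 / (q : ℝ) * (d + 1 / L)) := by
      have hs0 : 0 < Real.sqrt q := Real.sqrt_pos.2 hq0
      have hss : Real.sqrt q * Real.sqrt q = q := Real.mul_self_sqrt hq0.le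
      have h1 : L ≤ 2 * Real.sqrt q := by
        have h2 : Real.log (Real.sqrt q) ≤ Real.sqrt q := by
          have := Real.log_le_sub_one_of_pos hs0
          linarith
        rw [Real.log_sqrt hq0.le, ← hL] at h2
        linarith
      have h3 : (z : ℝ) ^ K * (4 / ((q ^ 2 : ℕ) : ℝ)) ≤ 8 * (1 / (q : ℝ) * (1 / L)) := by
        have h4 : 8 * (1 / (q : ℝ) * (1 / L)) = 8 / (q * L) := by
          field_simp
        rw [h4, mul_div_assoc', Nat.cast_pow, div_le_div_iff₀ (by positivity) (by positivity)]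
        calc (z : ℝ) ^ K * 4 * (q * L) ≤ Real.sqrt q * 4 * (q * (2 * Real.sqrt q)) := by
              refine mul_le_mul (mul_le_mul_of_nonneg_right hzK (by norm_num))
                (mul_le_mul_of_nonneg_left h1 hq0.le) (by positivity) (by positivity)
          _ = 8 * q * (Real.sqrt q * Real.sqrt q) := by ring
          _ = 8 * (q : ℝ) ^ 2 := by rw [hss]; ring
      refine h3.trans ?_
      refine mul_le_mul_of_nonneg_left (mul_le_mul_of_nonneg_left ?_ (by positivity)) (by norm_num)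
      linarith
    calc _ ≤ _ := hmain
      _ ≤ (8 / c) * (1 / (q : ℝ) * (d + 1 / L)) + 8 * (1 / (q : ℝ) * (d + 1 / L)) := add_le_add ht1 ht2
      _ = (8 / c + 8) * (1 / (q : ℝ) * (d + 1 / L)) := by ring
      _ ≤ (8 / c + 8 + Real.exp (2 / c) * (2 / c)) * (1 / (q : ℝ) * (d + 1 / L)) := by
          refine mul_le_mul_of_nonneg_right ?_ hR0
          have h5 : 0 < Real.exp (2 / c) * (2 / c) := by positivity
          linarith
      _ = _ := by ring

end Pool.Agent.Lib.MP_5deb1d_nt
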