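import Mathlib
import Pool.Agent.Lib.MP_5deb1d_nt.D0
import Pool.Agent.Lib.MP_9c2ea5_nt.ABase

/-!
JOB SO. Orthogonality: `DD a q N = (1/(q-1)) ∑_{χ ≠ 1} χ(±1)^(-1) ψ(N, χ)` (the principal character gives exactly `∑_{q ∤ n} Λ(n)/(q-1)`), so the absolute value is at most the maximum of the `‖ψ(N,χ)‖`, `χ ≠ 1`. MODEL: `orth` in
`Lib/MP_9c2ea5_nt/AOrth.lean`.
-/

set_option autoImplicit false

open Finset
open ArithmeticFunction (vonMangoldt)

namespace Pool.Agent.Lib.MP_5deb1d_nt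

private lemma SO_cl (a : Bool) (q n : ℕ) :
    cl a q n = if ((bif a then 1 else -1 : ZMod q) = (n : ZMod q)) then 1 else 0 := by
  cases a
  · simp only [cl, cond_false]
    have h : q ∣ n + 1 ↔ (-1 : ZMod q) = (n : ZMod q) := by
      rw [← ZMod.natCast_eq_zero_iff, Nat.cast_add, Nat.cast_one, add_eq_zero_iff_eq_neg]
      exact eq_comm
    by_cases h1 : q ∣ n + 1
    · rw [if_pos h1, if_pos (h.1 h1)]
    · rw [if_neg h1, if_neg (fun h2 => h1 (h.2 h2))]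
  · simp only [cl, cond_true]
    have h : n ≡ 1 [MOD q] ↔ (1 : ZMod q) = (n : ZMod q) := by
      rw [← ZMod.natCast_eq_natCast_iff, Nat.cast_one]
      exact eq_comm
    by_cases h1 : n ≡ 1 [MOD q]
    · rw [if_pos h1, if_pos (h.1 h1)]
    · rw [if_neg h1, if_neg (fun h2 => h1 (h.2 h2))]

theorem DD_le (q : ℕ) [NeZero q] (hq : q.Prime) (N : ℕ) (E : ℝ) (hE : 0 ≤ E)
    (h : ∀ χ : DirichletCharacter ℂ q, χ ≠ 1 → ‖Pool.Agent.Lib.MP_9c2ea5_nt.An.psiC χ N‖ ≤ E) (a : Bool) :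
    |DD a q N| ≤ E := by
  classical
  have : Fact q.Prime := ⟨hq⟩
  obtain ⟨u, hu⟩ : ∃ u : ZMod q, u = (bif a then 1 else -1 : ZMod q) := ⟨_, rfl⟩
  have hunit : IsUnit u := by
    rw [hu]
    cases a
    · rw [cond_false]
      exact isUnit_one.neg
    · rw [cond_true]
      exact isUnit_one
  have htot : Nat.totient q = q - 1 := Nat.totient_prime hq
  have hq1 : (0 : ℝ) < (q : ℝ) - 1 := by
    have : (2 : ℝ) ≤ q := by exact_mod_cast hq.two_le
    linarith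
  have htotR : ((Nat.totient q : ℕ) : ℝ) = (q : ℝ) - 1 := by
    rw [htot, Nat.cast_sub hq.one_le, Nat.cast_one]
  have htotC : ((Nat.totient q : ℕ) : ℂ) = (((q : ℝ) - 1 : ℝ) : ℂ) := by
    rw [← htotR]
    push_cast
    rfl
  obtain ⟨F, hF⟩ : ∃ F : DirichletCharacter ℂ q → ℂ, ∀ χ, F χ =
      χ u⁻¹ * (if χ = 1 then 0 else Pool.Agent.Lib.MP_9c2ea5_nt.An.psiC χ N) := ⟨_, fun _ => rfl⟩
  have hFle : ∀ χ, ‖F χ‖ ≤ E := by
    intro χ
    rw [hF, norm_mul]
    have h3 : ‖(if χ = 1 then 0 else Pool.Agent.Lib.MP_9c2ea5_nt.An.psiC χ N : ℂ)‖ ≤ E := by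
      split_ifs with h4
      · rw [norm_zero]; exact hE
      · exact h χ h4
    calc ‖χ u⁻¹‖ * ‖(if χ = 1 then 0 else Pool.Agent.Lib.MP_9c2ea5_nt.An.psiC χ N : ℂ)‖ ≤ 1 * E :=
          mul_le_mul (χ.norm_le_one _) h3 (norm_nonneg _) zero_le_one
      _ = E := one_mul E
  have hsumψ : ∑ χ : DirichletCharacter ℂ q, χ u⁻¹ * Pool.Agent.Lib.MP_9c2ea5_nt.An.psiC χ N =
      (Nat.totient q : ℂ) * ∑ n ∈ Ioc 0 N, ((vonMangoldt n * cl a q n : ℝ) : ℂ) := by
    unfold Pool.Agent.Lib.MP_9c2ea5_nt.An.psiC Pool.Agent.Lib.MP_9c2ea5_nt.An.aChi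
    simp_rw [Finset.mul_sum]
    rw [Finset.sum_comm]
    refine Finset.sum_congr rfl fun n _ => ?_
    have e := DirichletCharacter.sum_char_inv_mul_char_eq ℂ hunit (n : ZMod q)
    have e2 : ∑ χ : DirichletCharacter ℂ q, χ u⁻¹ *
        (χ (n : ZMod q) * (ArithmeticFunction.vonMangoldt n : ℂ)) =
        (∑ χ : DirichletCharacter ℂ q, χ u⁻¹ * χ (n : ZMod q)) *
          (ArithmeticFunction.vonMangoldt n : ℂ) := by
      rw [Finset.sum_mul]
      exact Finset.sum_congr rfl fun χ _ => by ring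
    rw [e2, e, SO_cl, ← hu]
    by_cases hn : u = (n : ZMod q)
    · rw [if_pos hn, if_pos hn]
      push_cast
      ring
    · rw [if_neg hn, if_neg hn]
      push_cast
      ring
  have hone : (1 : DirichletCharacter ℂ q) u⁻¹ *
      Pool.Agent.Lib.MP_9c2ea5_nt.An.psiC (1 : DirichletCharacter ℂ q) N =
      ∑ n ∈ Ioc 0 N, ((vonMangoldt n * (if q ∣ n then 0 else 1) : ℝ) : ℂ) := by
    have hinv : IsUnit (u⁻¹) := by
      have h3 : u⁻¹ * u = 1 := ZMod.inv_mul_of_unit _ hunit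
      exact IsUnit.of_mul_eq_one _ h3
    rw [MulChar.one_apply hinv, one_mul]
    unfold Pool.Agent.Lib.MP_9c2ea5_nt.An.psiC Pool.Agent.Lib.MP_9c2ea5_nt.An.aChi
    refine Finset.sum_congr rfl fun n _ => ?_
    by_cases hn : q ∣ n
    · have h1 : (n : ZMod q) = 0 := (ZMod.natCast_eq_zero_iff n q).2 hn
      rw [if_pos hn, h1, MulChar.map_nonunit _ not_isUnit_zero]
      push_cast
      ring
    · have h1 : (n : ZMod q) ≠ 0 := fun h2 => hn ((ZMod.natCast_eq_zero_iff n q).1 h2)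
      rw [if_neg hn, MulChar.one_apply (isUnit_iff_ne_zero.2 h1)]
      push_cast
      ring
  have hFsum : ∑ χ, F χ = (((((q : ℝ) - 1) * DD a q N : ℝ)) : ℂ) := by
    have e1 : ∑ χ, F χ = ∑ χ : DirichletCharacter ℂ q,
        χ u⁻¹ * Pool.Agent.Lib.MP_9c2ea5_nt.An.psiC χ N - (1 : DirichletCharacter ℂ q) u⁻¹ *
      Pool.Agent.Lib.MP_9c2ea5_nt.An.psiC (1 : DirichletCharacter ℂ q) N := by
      have e2 : ∀ χ : DirichletCharacter ℂ q, F χ = χ u⁻¹ *
          Pool.Agent.Lib.MP_9c2ea5_nt.An.psiC χ N - (if χ = 1 then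
            χ u⁻¹ * Pool.Agent.Lib.MP_9c2ea5_nt.An.psiC χ N else 0) := by
        intro χ
        rw [hF]
        split_ifs with h4
        · rw [mul_zero, sub_self]
        · rw [sub_zero]
      simp_rw [e2]
      rw [Finset.sum_sub_distrib, Finset.sum_ite_eq' univ (1 : DirichletCharacter ℂ q),
        if_pos (Finset.mem_univ _)]
    rw [e1, hsumψ, hone, htotC, ← Complex.ofReal_sum, ← Complex.ofReal_sum, ← Complex.ofReal_mul,
      ← Complex.ofReal_sub]
    apply congrArg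
    unfold DD
    rw [Finset.mul_sum, Finset.mul_sum, ← Finset.sum_sub_distrib]
    refine Finset.sum_congr rfl fun n _ => ?_
    unfold dk
    by_cases hn : q ∣ n
    · rw [if_pos hn, if_pos hn]
      ring
    · rw [if_neg hn, if_neg hn]
      field_simp
  have hcard : Fintype.card (DirichletCharacter ℂ q) = Nat.totient q := by
    rw [← Nat.card_eq_fintype_card]
    exact DirichletCharacter.card_eq_totient_of_hasEnoughRootsOfUnity ℂ q
  have hnorm : ‖∑ χ, F χ‖ ≤ ((q : ℝ) - 1) * E := by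
    calc ‖∑ χ, F χ‖ ≤ ∑ χ : DirichletCharacter ℂ q, ‖F χ‖ := norm_sum_le _ _
      _ ≤ ∑ _χ : DirichletCharacter ℂ q, E := Finset.sum_le_sum fun χ _ => hFle χ
      _ = ((q : ℝ) - 1) * E := by
          rw [Finset.sum_const, nsmul_eq_mul, Finset.card_univ, hcard, htotR]
  rw [hFsum, Complex.norm_real, Real.norm_eq_abs, abs_mul, abs_of_pos hq1] at hnorm
  exact le_of_mul_le_mul_left hnorm hq1

end Pool.Agent.Lib.MP_5deb1d_nt
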