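import Mathlib
import Pool.Agent.Lib.MP_5deb1d_nt.D0
import Pool.Agent.Lib.MP_9c2ea5_nt.ARzC
import Pool.Agent.Lib.MP_9c2ea5_nt.ADiff
import Pool.Agent.Lib.MP_42948a_nt.AC.S9

/-!
JOB SW. Siegel-Walfisz for one character: `ψ(N, χ)` for `χ ≠ 1` modulo `q ≤ (log N)^B`. MODEL: `psiC_le` in `Lib/MP_9c2ea5_nt/AMain1.lean`. With `λ = log N`: `riesz_chi` (`ARzC.lean`) with
`T = exp(λ^(1/20))`, `l = 3 λ^(1/20)`, `δ = min 1 c * λ^(-1/20)` where `c` comes from `siegel (1/(20 B))` (`Lib/MP_42948a_nt/AC/S9.lean`: `c m^(-1/(20B)) ≤ ‖L(1,χ)‖` for real `χ ≠ 1`, and `m ≤ λ^B`);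
`hm : m (2T+5) ≤ exp l` holds for large `N`. `diff_bound` (`ADiff.lean`) with `κ = 0` and `E = 4 * 10^13 (l^11/δ) (log 2N)² (exp(-λ^(1/20)) + N^(-δ/(10^11 l^11)))` (for `z ∈ [N, 2N]`); the exponent
`λ δ/(10^11 l^11) ≥ c' λ^(8/20)`, so `√E * 5 log(2N) ≤ λ^(-A)` for large `N`, `E ≤ 1`, and `E ≥ 1/N²`. `psiC`, `aChi` in `Lib/MP_9c2ea5_nt/ABase.lean`. Two steps: an explicit bound, then limits.
-/

set_option autoImplicit false

open Finset
open ArithmeticFunction (vonMangoldt)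

namespace Pool.Agent.Lib.MP_5deb1d_nt

/-- the explicit bound, with `w = (log N)^(1/20)` -/
private lemma SW_step {N q : ℕ} [NeZero q] (χ : DirichletCharacter ℂ q) (h1 : χ ≠ 1)
    (w c F : ℝ) (hw : 2 ≤ w) (hc : 0 < c) (hc1 : c ≤ 1) (hN : Real.log N = w ^ 20)
    (hL : χ ^ 2 = 1 → c / w ≤ ‖DirichletCharacter.LFunction χ 1‖)
    (hm : (q : ℝ) * (2 * Real.exp w + 5) ≤ Real.exp (3 * w)) (hF : 0 < F) (hF1 : F ≤ 1)
    (hE : 16 * 10 ^ 13 * 3 ^ 11 / c * w ^ 52 *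
      (Real.exp (-w) + Real.exp (-(c / (10 ^ 11 * 3 ^ 11) * w ^ 8))) ≤ F ^ 2) :
    ‖Pool.Agent.Lib.MP_9c2ea5_nt.An.psiC χ N‖ ≤ 10 * N * F * w ^ 20 := by
  have hw0 : 0 < w := by linarith
  have hw1 : 1 ≤ w := by linarith
  have hwp : ∀ k : ℕ, 1 ≤ w ^ k := fun k => one_le_pow₀ hw1
  have hNne : (N : ℝ) ≠ 0 := by
    intro h
    rw [h, Real.log_zero] at hN
    have := hwp 20
    linarith
  have hN0 : (0 : ℝ) < N := lt_of_le_of_ne (Nat.cast_nonneg N) (Ne.symm hNne)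
  have hNexp : (N : ℝ) = Real.exp (w ^ 20) := by rw [← hN, Real.exp_log hN0]
  have hw20 : 2 ≤ w ^ 20 := by
    calc (2 : ℝ) ≤ w := hw
      _ = w ^ 1 := (pow_one w).symm
      _ ≤ w ^ 20 := pow_le_pow_right₀ hw1 (by norm_num)
  have hN3 : (3 : ℝ) ≤ N := by
    rw [hNexp]
    have := Real.add_one_le_exp (w ^ 20)
    linarith
  have hN3' : 3 ≤ N := by exact_mod_cast hN3
  have hlog2 : Real.log (2 * N) = Real.log 2 + w ^ 20 := by
    rw [Real.log_mul (by norm_num) hNne, hN]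
  have hl2 : Real.log 2 ≤ 1 := by
    have := Real.log_two_lt_d9
    linarith
  have hl2' : 0 ≤ Real.log 2 := Real.log_nonneg (by norm_num)
  have hlog_le : Real.log (2 * N) ≤ 2 * w ^ 20 := by
    rw [hlog2]
    linarith
  have hlog_ge : 1 ≤ Real.log (2 * N) := by
    rw [hlog2]
    linarith
  have hδ : 0 < c / w := div_pos hc hw0
  have hδ1 : c / w ≤ 1 := by
    rw [div_le_one hw0]
    linarith
  obtain ⟨E, hEdef⟩ : ∃ E : ℝ, E = 4 * 10 ^ 13 * ((3 * w) ^ 11 / (c / w)) * (Real.log (2 * N)) ^ 2 *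
      (1 / Real.exp w + (N : ℝ) ^ (-(c / w / (10 ^ 11 * (3 * w) ^ 11)))) := ⟨_, rfl⟩
  have hq1 : (1 : ℝ) ≤ (3 * w) ^ 11 / (c / w) := by
    rw [le_div_iff₀ hδ, one_mul]
    exact hδ1.trans (one_le_pow₀ (by linarith))
  have hpow : (N : ℝ) ^ (-(c / w / (10 ^ 11 * (3 * w) ^ 11))) =
      Real.exp (-(c / (10 ^ 11 * 3 ^ 11) * w ^ 8)) := by
    rw [Real.rpow_def_of_pos hN0, hN]
    congr 1
    field_simp
  have hexpw : 1 / Real.exp w = Real.exp (-w) := by rw [Real.exp_neg, one_div]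
  have hEF : E ≤ F ^ 2 := by
    refine le_trans ?_ hE
    rw [hEdef, hpow, hexpw]
    have e1 : 4 * 10 ^ 13 * ((3 * w) ^ 11 / (c / w)) * (Real.log (2 * N)) ^ 2 ≤
        16 * 10 ^ 13 * 3 ^ 11 / c * w ^ 52 := by
      have e2 : (Real.log (2 * N)) ^ 2 ≤ (2 * w ^ 20) ^ 2 :=
        pow_le_pow_left₀ (by linarith) hlog_le 2
      calc 4 * 10 ^ 13 * ((3 * w) ^ 11 / (c / w)) * (Real.log (2 * N)) ^ 2
          ≤ 4 * 10 ^ 13 * ((3 * w) ^ 11 / (c / w)) * (2 * w ^ 20) ^ 2 :=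
            mul_le_mul_of_nonneg_left e2 (by linarith)
        _ = 16 * 10 ^ 13 * 3 ^ 11 / c * w ^ 52 := by
            field_simp
            ring
    exact mul_le_mul_of_nonneg_right e1 (by positivity)
  have hEge : 1 / (N : ℝ) ^ 2 ≤ E := by
    have a1 : 1 / (N : ℝ) ^ 2 ≤ 1 / Real.exp w := by
      apply one_div_le_one_div_of_le (Real.exp_pos w)
      have a2 : Real.exp w ≤ N := by
        rw [hNexp]
        apply Real.exp_le_exp.mpr
        calc w = w ^ 1 := (pow_one w).symm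
          _ ≤ w ^ 20 := pow_le_pow_right₀ hw1 (by norm_num)
      nlinarith
    refine a1.trans ?_
    rw [hEdef]
    have h3 : 1 ≤ (Real.log (2 * N)) ^ 2 := one_le_pow₀ hlog_ge
    have h4 : 1 ≤ 4 * 10 ^ 13 * ((3 * w) ^ 11 / (c / w)) * (Real.log (2 * N)) ^ 2 := by
      have h6 : 1 ≤ 4 * 10 ^ 13 * ((3 * w) ^ 11 / (c / w)) := by linarith
      exact one_le_mul_of_one_le_of_one_le h6 h3
    have h5 : 0 < 1 / Real.exp w := by positivity
    have h6 : 0 ≤ (N : ℝ) ^ (-(c / w / (10 ^ 11 * (3 * w) ^ 11))) := by positivity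
    calc 1 / Real.exp w ≤ 1 / Real.exp w + (N : ℝ) ^ (-(c / w / (10 ^ 11 * (3 * w) ^ 11))) := by
          linarith
      _ ≤ _ := le_mul_of_one_le_left (by linarith) h4
  have hE1 : E ≤ 1 := hEF.trans (pow_le_one₀ hF.le hF1)
  have hE0 : 0 ≤ E := le_trans (by positivity) hEge
  have hd := Pool.Agent.Lib.MP_9c2ea5_nt.An.diff_bound (Pool.Agent.Lib.MP_9c2ea5_nt.An.aChi χ)
    (Pool.Agent.Lib.MP_9c2ea5_nt.An.aChi_norm_le χ) 0 E le_rfl zero_le_one N hN3' hEge hE1 (by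
      intro z hz hz2
      rw [Complex.ofReal_zero, zero_mul, sub_zero]
      have hz0 : 0 < z := by linarith
      refine (Pool.Agent.Lib.MP_9c2ea5_nt.An.riesz_chi χ h1 (3 * w) (Real.exp w) (c / w) hδ hδ1 hL
        (by linarith) (Real.one_le_exp hw0.le) hm z (by linarith)).trans ?_
      have b1 : (Real.log z) ^ 2 ≤ (Real.log (2 * N)) ^ 2 := by
        apply pow_le_pow_left₀ (Real.log_nonneg (by linarith))
        exact Real.log_le_log hz0 hz2
      have b2 : z ^ 2 ≤ 4 * (N : ℝ) ^ 2 := by nlinarith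
      have b3 : z ^ (-(c / w / (10 ^ 11 * (3 * w) ^ 11))) ≤
          (N : ℝ) ^ (-(c / w / (10 ^ 11 * (3 * w) ^ 11))) := by
        apply Real.rpow_le_rpow_of_nonpos hN0 hz
        have : 0 ≤ c / w / (10 ^ 11 * (3 * w) ^ 11) := by positivity
        linarith
      calc 10 ^ 13 * ((3 * w) ^ 11 / (c / w)) * (Real.log z) ^ 2 * z ^ 2 *
            (1 / Real.exp w + z ^ (-(c / w / (10 ^ 11 * (3 * w) ^ 11))))
          ≤ 10 ^ 13 * ((3 * w) ^ 11 / (c / w)) * (Real.log (2 * N)) ^ 2 * (4 * (N : ℝ) ^ 2) *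
            (1 / Real.exp w + (N : ℝ) ^ (-(c / w / (10 ^ 11 * (3 * w) ^ 11)))) := by
            gcongr
        _ = E * (N : ℝ) ^ 2 := by
            rw [hEdef]
            ring)
  rw [Complex.ofReal_zero, zero_mul, sub_zero] at hd
  have hsq : Real.sqrt E ≤ F := by
    apply Real.sqrt_le_iff.mpr
    exact ⟨hF.le, hEF⟩
  refine hd.trans ?_
  calc 5 * (N : ℝ) * Real.sqrt E * Real.log (2 * N) ≤ 5 * (N : ℝ) * F * (2 * w ^ 20) := by
        gcongr
    _ = 10 * N * F * w ^ 20 := by ring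

theorem psi_chi (A B : ℝ) (hA : 0 < A) (hB : 0 < B) : ∃ N0 : ℕ, ∀ N : ℕ, N0 ≤ N → ∀ (q : ℕ) [NeZero q],
    (q : ℝ) ≤ (Real.log N) ^ B → ∀ χ : DirichletCharacter ℂ q, χ ≠ 1 →
    ‖Pool.Agent.Lib.MP_9c2ea5_nt.An.psiC χ N‖ ≤ N / (Real.log N) ^ A := by
  obtain ⟨c', hc', hs⟩ := Pool.Agent.Lib.MP_42948a_nt.AC.siegel (1 / (20 * B)) (by positivity)
  obtain ⟨c, hcdef⟩ : ∃ c : ℝ, c = min 1 c' := ⟨_, rfl⟩
  have hc : 0 < c := by
    rw [hcdef]
    exact lt_min one_pos hc'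
  have hc1 : c ≤ 1 := by
    rw [hcdef]
    exact min_le_left _ _
  have hcc : c ≤ c' := by
    rw [hcdef]
    exact min_le_right _ _
  obtain ⟨b, hb⟩ : ∃ b : ℝ, b = c / (10 ^ 11 * 3 ^ 11) := ⟨_, rfl⟩
  have hb0 : 0 < b := by
    rw [hb]
    positivity
  have hb1 : b ≤ 1 := by
    rw [hb, div_le_one (by norm_num)]
    exact hc1.trans (by norm_num)
  obtain ⟨C, hC⟩ : ∃ C : ℝ, C = 16 * 10 ^ 13 * 3 ^ 11 / c := ⟨_, rfl⟩
  have hC0 : 0 < C := by
    rw [hC]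
    positivity
  have hwt : Filter.Tendsto (fun N : ℕ => Real.log N ^ (1 / 20 : ℝ)) Filter.atTop Filter.atTop :=
    (tendsto_rpow_atTop (by norm_num)).comp
      (Real.tendsto_log_atTop.comp tendsto_natCast_atTop_atTop)
  have e1 : ∀ᶠ w : ℝ in Filter.atTop, w ^ (40 * A + 92) * Real.exp (-b * w) < 1 / (200 * C) :=
    (tendsto_rpow_mul_exp_neg_mul_atTop_nhds_zero (40 * A + 92) b hb0).eventually_lt_const
      (by positivity)
  have e2 : ∀ᶠ w : ℝ in Filter.atTop, w ^ (20 * B) * Real.exp (-2 * w) < 1 / 7 :=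
    (tendsto_rpow_mul_exp_neg_mul_atTop_nhds_zero (20 * B) 2 two_pos).eventually_lt_const
      (by norm_num)
  obtain ⟨N0, hN0⟩ := Filter.eventually_atTop.1
    (hwt.eventually (e1.and (e2.and (Filter.eventually_ge_atTop (2 : ℝ)))))
  refine ⟨N0, fun N hN q _ hq χ h1 => ?_⟩
  obtain ⟨k1, k2, k3⟩ := hN0 N hN
  obtain ⟨w, hw⟩ : ∃ w : ℝ, w = Real.log N ^ (1 / 20 : ℝ) := ⟨_, rfl⟩
  rw [← hw] at k1 k2 k3
  have hw0 : 0 < w := by linarith
  have hw1 : 1 ≤ w := by linarith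
  have hlog0 : 0 ≤ Real.log N := Real.log_natCast_nonneg N
  have hlog : Real.log N = w ^ 20 := by
    rw [hw, ← Real.rpow_natCast, ← Real.rpow_mul hlog0]
    norm_num
  have hq0 : (0 : ℝ) < q := by
    have := Nat.pos_of_ne_zero (NeZero.ne q)
    exact_mod_cast this
  have hlogB : Real.log N ^ B = w ^ (20 * B) := by
    rw [hlog, ← Real.rpow_natCast, ← Real.rpow_mul hw0.le]
    norm_num
  have hlogA : Real.log N ^ A = w ^ (20 * A) := by
    rw [hlog, ← Real.rpow_natCast, ← Real.rpow_mul hw0.le]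
    norm_num
  have hL : χ ^ 2 = 1 → c / w ≤ ‖DirichletCharacter.LFunction χ 1‖ := by
    intro h2
    refine le_trans ?_ (hs q χ h2 h1)
    have a1 : (w ^ (20 * B)) ^ (-(1 / (20 * B))) ≤ (q : ℝ) ^ (-(1 / (20 * B))) := by
      rw [← hlogB]
      apply Real.rpow_le_rpow_of_nonpos hq0 hq
      have : 0 ≤ 1 / (20 * B) := by positivity
      linarith
    have a2 : (w ^ (20 * B)) ^ (-(1 / (20 * B))) = 1 / w := by
      rw [← Real.rpow_mul hw0.le]
      have a3 : 20 * B * -(1 / (20 * B)) = -1 := by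
        field_simp
      rw [a3, Real.rpow_neg_one, one_div]
    rw [a2] at a1
    calc c / w = c * (1 / w) := by ring
      _ ≤ c' * (q : ℝ) ^ (-(1 / (20 * B))) := by gcongr
  have hm : (q : ℝ) * (2 * Real.exp w + 5) ≤ Real.exp (3 * w) := by
    have a1 : 1 ≤ Real.exp w := Real.one_le_exp hw0.le
    have a2 : (q : ℝ) ≤ Real.exp (2 * w) / 7 := by
      refine hq.trans ?_
      rw [hlogB]
      have a3 : w ^ (20 * B) * Real.exp (-2 * w) * Real.exp (2 * w) ≤ 1 / 7 * Real.exp (2 * w) :=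
        mul_le_mul_of_nonneg_right k2.le (Real.exp_pos _).le
      rw [mul_assoc, ← Real.exp_add] at a3
      have a4 : -2 * w + 2 * w = 0 := by ring
      rw [a4, Real.exp_zero, mul_one] at a3
      linarith
    calc (q : ℝ) * (2 * Real.exp w + 5) ≤ Real.exp (2 * w) / 7 * (7 * Real.exp w) := by
          apply mul_le_mul a2 (by linarith) (by positivity) (by positivity)
      _ = Real.exp (2 * w) * Real.exp w := by ring
      _ = Real.exp (3 * w) := by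
          rw [← Real.exp_add]
          congr 1
          ring
  have hpA : 1 ≤ w ^ (20 * A) := Real.one_le_rpow hw1 (by positivity)
  have hw20 : 1 ≤ w ^ 20 := one_le_pow₀ hw1
  have hF : 0 < 1 / (10 * w ^ 20 * w ^ (20 * A)) := by positivity
  have hF1 : 1 / (10 * w ^ 20 * w ^ (20 * A)) ≤ 1 := by
    rw [div_le_one (by positivity)]
    nlinarith
  have hE : 16 * 10 ^ 13 * 3 ^ 11 / c * w ^ 52 *
      (Real.exp (-w) + Real.exp (-(c / (10 ^ 11 * 3 ^ 11) * w ^ 8))) ≤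
        (1 / (10 * w ^ 20 * w ^ (20 * A))) ^ 2 := by
    rw [← hC, ← hb]
    have a1 : Real.exp (-w) ≤ Real.exp (-b * w) := by
      apply Real.exp_le_exp.mpr
      nlinarith
    have a2 : Real.exp (-(b * w ^ 8)) ≤ Real.exp (-b * w) := by
      apply Real.exp_le_exp.mpr
      have a3 : w ≤ w ^ 8 := by
        calc w = w ^ 1 := (pow_one w).symm
          _ ≤ w ^ 8 := pow_le_pow_right₀ hw1 (by norm_num)
      nlinarith
    have a4 : C * w ^ 52 * (Real.exp (-w) + Real.exp (-(b * w ^ 8))) ≤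
        C * w ^ 52 * (2 * Real.exp (-b * w)) :=
      mul_le_mul_of_nonneg_left (by linarith) (by positivity)
    refine a4.trans ?_
    have a5 : w ^ (40 * A + 92) = w ^ (20 * A) * w ^ (20 * A) * w ^ 92 := by
      rw [← Real.rpow_add hw0, ← Real.rpow_natCast w 92, ← Real.rpow_add hw0]
      congr 1
      push_cast
      ring
    rw [a5, lt_div_iff₀ (by positivity)] at k1
    have a6 : (1 / (10 * w ^ 20 * w ^ (20 * A))) ^ 2 =
        1 / (100 * w ^ 40 * (w ^ (20 * A) * w ^ (20 * A))) := by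
      rw [div_pow, one_pow]
      congr 1
      ring
    rw [a6, le_div_iff₀ (by positivity)]
    calc C * w ^ 52 * (2 * Real.exp (-b * w)) * (100 * w ^ 40 * (w ^ (20 * A) * w ^ (20 * A)))
        = w ^ (20 * A) * w ^ (20 * A) * w ^ 92 * Real.exp (-b * w) * (200 * C) := by ring
      _ ≤ 1 := k1.le
  have hfin := SW_step χ h1 w c (1 / (10 * w ^ 20 * w ^ (20 * A))) k3 hc hc1 hlog hL hm hF hF1 hE
  refine hfin.trans (le_of_eq ?_)
  rw [hlogA]
  field_simp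

end Pool.Agent.Lib.MP_5deb1d_nt
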