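import Mathlib
import Pool.Agent.Lib.MP_5deb1d_nt.B1
import Pool.Agent.Lib.MP_5deb1d_nt.SW
import Pool.Agent.Lib.MP_5deb1d_nt.SO

/-!
JOB BL. The block estimate for all `N ≥ Q^(2+d)`. PROOF: `η, Q0` from `blk1 d`; for `log N > Q^η` use `psi_chi A B`, `DD_le` with `B = 1/η + 1`, `A = 1/η + 4` (say `η ≤ 1`): `q ≤ 2Q ≤ (log N)^B` for large `Q`, and
`∑_{q ∈ PB Q} ≤ Q N (log N)^(-A) ≤ Q^(-η) N (log N)^(-2)` because `Q^(1+η) ≤ (log N)^(1/η + 1)`. (`N ≥ N0` for `Q` large as `log N ≥ Q^η`.)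
-/

set_option autoImplicit false

open Finset
open ArithmeticFunction (vonMangoldt)

namespace Pool.Agent.Lib.MP_5deb1d_nt

private theorem BL_card (Q : ℕ) : ((PB Q).card : ℝ) ≤ Q := by
  have h1 : (PB Q).card ≤ (Ioc Q (2 * Q)).card := Finset.card_le_card (Finset.filter_subset _ _)
  rw [Nat.card_Ioc] at h1
  have h2 : (PB Q).card ≤ Q := by omega
  exact_mod_cast h2

/-- the inequality between the powers -/
private theorem BL_pow {η η₀ Q l N : ℝ} (hη₀ : 0 < η₀) (hη : η ≤ η₀) (hQ : 1 ≤ Q) (hl : Q ^ η₀ ≤ l)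
    (hN : 0 ≤ N) : Q * (N / l ^ (1 / η₀ + 3)) ≤ Q ^ (-η) * (N / l ^ 2) := by
  have hQ0 : 0 < Q := lt_of_lt_of_le one_pos hQ
  have hQη : 0 < Q ^ η₀ := Real.rpow_pos_of_pos hQ0 _
  have hl0 : 0 < l := lt_of_lt_of_le hQη hl
  have h1 : l ^ (1 / η₀ + 3) = l ^ (1 / η₀ + 1) * l ^ 2 := by
    rw [← Real.rpow_natCast l 2, ← Real.rpow_add hl0]
    congr 1
    push_cast
    ring
  have h2 : Q * Q ^ η ≤ l ^ (1 / η₀ + 1) := by
    calc Q * Q ^ η = Q ^ (1 + η) := by rw [Real.rpow_add hQ0, Real.rpow_one]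
      _ ≤ Q ^ (1 + η₀) := Real.rpow_le_rpow_of_exponent_le hQ (by linarith)
      _ = (Q ^ η₀) ^ (1 / η₀ + 1) := by
          rw [← Real.rpow_mul hQ0.le]
          congr 1
          field_simp
      _ ≤ l ^ (1 / η₀ + 1) := Real.rpow_le_rpow hQη.le hl (by positivity)
  have h3 : 0 < l ^ (1 / η₀ + 1) := Real.rpow_pos_of_pos hl0 _
  have h4 : 0 < l ^ 2 := by positivity
  have h5 : 0 < Q ^ η := Real.rpow_pos_of_pos hQ0 _
  rw [h1, Real.rpow_neg hQ0.le, ← mul_div_assoc, ← div_eq_inv_mul, div_div, div_le_div_iff₀ (by positivity)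
    (by positivity)]
  calc Q * N * (l ^ 2 * Q ^ η) = N * l ^ 2 * (Q * Q ^ η) := by ring
    _ ≤ N * l ^ 2 * l ^ (1 / η₀ + 1) := mul_le_mul_of_nonneg_left h2 (by positivity)
    _ = N * (l ^ (1 / η₀ + 1) * l ^ 2) := by ring

theorem blk (d : ℝ) (hd : 0 < d) : ∃ η : ℝ, 0 < η ∧ ∃ Q0 : ℕ, ∀ Q : ℕ, Q0 ≤ Q → ∀ N : ℕ, (Q : ℝ) ^ (2 + d) ≤ N →
    ∀ a : Bool, ∑ q ∈ PB Q, |DD a q N| ≤ (Q : ℝ) ^ (-η) * (N / (Real.log N) ^ 2) := by
  obtain ⟨η₀, hη₀, Q1, h1⟩ := blk1 d hd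
  obtain ⟨N0, hN0⟩ := psi_chi (1 / η₀ + 3) (1 / η₀ + 1) (by positivity) (by positivity)
  have hev : ∀ᶠ Q : ℕ in Filter.atTop, max 2 (Real.log N0) ≤ (Q : ℝ) ^ η₀ :=
    ((tendsto_rpow_atTop hη₀).comp tendsto_natCast_atTop_atTop).eventually_ge_atTop _
  obtain ⟨Q2, hQ2⟩ := Filter.eventually_atTop.1 hev
  refine ⟨min η₀ 1, lt_min hη₀ one_pos, max (max Q1 Q2) 1, fun Q hQ N hN a => ?_⟩
  have hQ1 : Q1 ≤ Q := le_trans (le_trans (le_max_left _ _) (le_max_left _ _)) hQ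
  have hQ2' : Q2 ≤ Q := le_trans (le_trans (le_max_right _ _) (le_max_left _ _)) hQ
  have hQpos : 1 ≤ Q := le_trans (le_max_right _ _) hQ
  have hQr : (1 : ℝ) ≤ Q := by exact_mod_cast hQpos
  have hQ0 : (0 : ℝ) < Q := lt_of_lt_of_le one_pos hQr
  rcases le_or_gt (Real.log N) ((Q : ℝ) ^ η₀) with hc | hc
  · refine le_trans (h1 Q hQ1 N hN hc a) ?_
    refine mul_le_mul_of_nonneg_right ?_ (by positivity)
    exact Real.rpow_le_rpow_of_exponent_le hQr (neg_le_neg (min_le_left _ _))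
  · have hbig := hQ2 Q hQ2'
    have hl2 : (2 : ℝ) ≤ (Q : ℝ) ^ η₀ := le_trans (le_max_left _ _) hbig
    have hNN : N0 ≤ N := by
      by_contra hlt
      push Not at hlt
      have hN1 : (0 : ℝ) < N := by
        rcases Nat.eq_zero_or_pos N with h | h
        · rw [h, Nat.cast_zero, Real.log_zero] at hc
          linarith
        · exact_mod_cast h
      have h2 : Real.log N ≤ Real.log N0 := Real.log_le_log hN1 (by exact_mod_cast hlt.le)
      linarith [le_trans (le_max_right 2 (Real.log N0)) hbig]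
    have hq : ∀ q ∈ PB Q, |DD a q N| ≤ N / (Real.log N) ^ (1 / η₀ + 3) := by
      intro q hq
      obtain ⟨hqp, -, hqQ⟩ := mem_PB.1 hq
      have : NeZero q := ⟨hqp.ne_zero⟩
      have hqB : (q : ℝ) ≤ (Real.log N) ^ (1 / η₀ + 1) := by
        calc (q : ℝ) ≤ 2 * Q := by exact_mod_cast hqQ
          _ ≤ (Q : ℝ) ^ η₀ * Q := mul_le_mul_of_nonneg_right hl2 hQ0.le
          _ = (Q : ℝ) ^ (η₀ + 1) := by rw [Real.rpow_add hQ0, Real.rpow_one]
          _ = ((Q : ℝ) ^ η₀) ^ (1 / η₀ + 1) := by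
              rw [← Real.rpow_mul hQ0.le]
              congr 1
              field_simp
              ring
          _ ≤ (Real.log N) ^ (1 / η₀ + 1) :=
              Real.rpow_le_rpow (Real.rpow_nonneg hQ0.le _) hc.le (by positivity)
      refine DD_le q hqp N _ ?_ (fun χ hχ => hN0 N hNN q hqB χ hχ) a
      exact div_nonneg (Nat.cast_nonneg _) (Real.rpow_nonneg (Real.log_natCast_nonneg _) _)
    calc ∑ q ∈ PB Q, |DD a q N| ≤ ∑ _q ∈ PB Q, N / (Real.log N) ^ (1 / η₀ + 3) := Finset.sum_le_sum hq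
      _ = (PB Q).card * (N / (Real.log N) ^ (1 / η₀ + 3)) := by rw [Finset.sum_const, nsmul_eq_mul]
      _ ≤ Q * (N / (Real.log N) ^ (1 / η₀ + 3)) := by
          refine mul_le_mul_of_nonneg_right (BL_card Q) ?_
          exact div_nonneg (Nat.cast_nonneg _) (Real.rpow_nonneg (Real.log_natCast_nonneg _) _)
      _ ≤ (Q : ℝ) ^ (-(min η₀ 1)) * (N / (Real.log N) ^ 2) :=
          BL_pow hη₀ (min_le_left _ _) hQr hc.le (Nat.cast_nonneg _)

end Pool.Agent.Lib.MP_5deb1d_nt
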