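import Mathlib
import Pool.Agent.Lib.MP_5deb1d_nt.D0

/-!
JOB CH. Chebyshev: `#(PB Q) * log Q ≤ θ(2Q) ≤ (log 4) 2 Q` (`Chebyshev.theta_le_log4_mul_x` in Mathlib). And the sum of `1/q²` type corollaries.
-/

set_option autoImplicit false

open Finset
open ArithmeticFunction (vonMangoldt)

namespace Pool.Agent.Lib.MP_5deb1d_nt

theorem card_PB : ∀ Q : ℕ, 2 ≤ Q → ((PB Q).card : ℝ) ≤ 4 * (Q / Real.log Q) := by
  intro Q hQ
  have hQ0 : (0 : ℝ) < Q := by
    have : 0 < Q := by omega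
    exact_mod_cast this
  have hQ2 : (2 : ℝ) ≤ Q := by exact_mod_cast hQ
  have hL : 0 < Real.log Q := Real.log_pos (by linarith)
  have h1 : ((PB Q).card : ℝ) * Real.log Q ≤ ∑ p ∈ PB Q, Real.log p := by
    rw [← nsmul_eq_mul]
    refine Finset.card_nsmul_le_sum _ _ _ fun p hp => ?_
    have h := mem_PB.1 hp
    refine Real.log_le_log hQ0 ?_
    exact_mod_cast h.2.1.le
  have h2 : ∑ p ∈ PB Q, Real.log p ≤ Chebyshev.theta (2 * Q) := by
    unfold Chebyshev.theta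
    have hf : ⌊(2 * (Q : ℝ))⌋₊ = 2 * Q := by
      have : (2 * (Q : ℝ)) = ((2 * Q : ℕ) : ℝ) := by push_cast; ring
      rw [this, Nat.floor_natCast]
    rw [hf]
    refine Finset.sum_le_sum_of_subset_of_nonneg ?_ fun p _ _ => Real.log_natCast_nonneg p
    intro p hp
    have h := mem_PB.1 hp
    exact mem_filter.2 ⟨mem_Ioc.2 ⟨h.1.pos, h.2.2⟩, h.1⟩
  have h3 : Chebyshev.theta (2 * Q) ≤ Real.log 4 * (2 * Q) := Chebyshev.theta_le_log4_mul_x (by positivity)
  have h4 : Real.log 4 ≤ 2 := by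
    have e : (4 : ℝ) = 2 ^ 2 := by norm_num
    rw [e, Real.log_pow]
    have := Real.log_two_lt_d9
    push_cast
    linarith
  have h5 : Real.log 4 * (2 * (Q : ℝ)) ≤ 4 * Q := by nlinarith
  rw [← mul_div_assoc, le_div_iff₀ hL]
  linarith

end Pool.Agent.Lib.MP_5deb1d_nt
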