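import Mathlib
import Pool.Agent.Lib.MP_5deb1d_nt.D0

/-!
JOB PS. Proper prime powers: a tail estimate. PROOF (one way): `Λ(n)` for a non-prime `n` is carried by `n = p^k`, `k ≥ 2`, value `log p`.
Mathlib: `Chebyshev.abs_psi_sub_theta_le_sqrt_mul_log` (`|ψ x - θ x| ≤ 2 √x log x`), so `∑_{n ≤ x, n not prime} Λ n ≤ 2 √x log x`; cut `[Q, N]` into the dyadic
intervals `[2^j Q, 2^(j+1) Q)`, each contributes at most `(2^j Q)^(-1) * 2 √(2^(j+1) Q) log(2^(j+1) Q) ≤ C Q^(-1/2) log(Q) (j+1) 2^(-j/2)`.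
(Any other proof is fine, any constant.)
-/

set_option autoImplicit false

open Finset
open ArithmeticFunction (vonMangoldt)

namespace Pool.Agent.Lib.MP_5deb1d_nt

private theorem PS_step : ∃ C : ℝ, 0 < C ∧ ∀ J Q N : ℕ, 1 ≤ Q → N < 2 ^ J * Q →
    ∑ n ∈ (Ioc 0 N).filter (fun n => Q ≤ n ∧ ¬ n.Prime), vonMangoldt n / n ≤ C / √(Q : ℝ) := by
  obtain ⟨C0, hC0⟩ := Chebyshev.psi_sub_theta_le_mul_sqrt
  set C1 : ℝ := max C0 1 with hC1
  have hC1p : 1 ≤ C1 := le_max_right _ _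
  refine ⟨5 * C1, by linarith, ?_⟩
  intro J
  induction J with
  | zero =>
    intro Q N hQ hN
    have hN' : N < Q := by simpa using hN
    have h0 : (Ioc 0 N).filter (fun n => Q ≤ n ∧ ¬ n.Prime) = ∅ := by
      ext n
      simp only [mem_filter, mem_Ioc, notMem_empty, iff_false]
      intro h
      omega
    rw [h0, sum_empty]
    positivity
  | succ J ih =>
    intro Q N hQ hN
    have hQ0 : (0 : ℝ) < Q := by exact_mod_cast hQ
    have hsub : (Ioc 0 N).filter (fun n => Q ≤ n ∧ ¬ n.Prime) ⊆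
        ((Ioc 0 (2 * Q)).filter (fun n => Q ≤ n ∧ ¬ n.Prime)) ∪
        ((Ioc 0 N).filter (fun n => 2 * Q ≤ n ∧ ¬ n.Prime)) := by
      intro n hn
      simp only [mem_filter, mem_Ioc, mem_union] at hn ⊢
      by_cases h : 2 * Q ≤ n
      · right
        exact ⟨hn.1, h, hn.2.2⟩
      · left
        exact ⟨⟨hn.1.1, by omega⟩, hn.2⟩
    have hnn : ∀ n : ℕ, 0 ≤ vonMangoldt n / (n : ℝ) := fun n =>
      div_nonneg ArithmeticFunction.vonMangoldt_nonneg (Nat.cast_nonneg n)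
    have h1 : ∑ n ∈ (Ioc 0 N).filter (fun n => Q ≤ n ∧ ¬ n.Prime), vonMangoldt n / (n : ℝ) ≤
        (∑ n ∈ (Ioc 0 (2 * Q)).filter (fun n => Q ≤ n ∧ ¬ n.Prime), vonMangoldt n / (n : ℝ)) +
        ∑ n ∈ (Ioc 0 N).filter (fun n => 2 * Q ≤ n ∧ ¬ n.Prime), vonMangoldt n / (n : ℝ) := by
      refine le_trans (sum_le_sum_of_subset_of_nonneg hsub (fun n _ _ => hnn n)) ?_
      refine le_trans ?_ (le_of_eq (Finset.sum_union_inter))
      have := sum_nonneg (s := ((Ioc 0 (2 * Q)).filter (fun n => Q ≤ n ∧ ¬ n.Prime)) ∩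
        ((Ioc 0 N).filter (fun n => 2 * Q ≤ n ∧ ¬ n.Prime))) (fun n _ => hnn n)
      linarith
    have h2 := ih (2 * Q) N (by omega) (by
      calc N < 2 ^ (J + 1) * Q := hN
        _ = 2 ^ J * (2 * Q) := by ring)
    have h3 : ∑ n ∈ (Ioc 0 (2 * Q)).filter (fun n => Q ≤ n ∧ ¬ n.Prime), vonMangoldt n / (n : ℝ) ≤
        (∑ n ∈ (Ioc 0 (2 * Q)).filter (fun n => ¬ n.Prime), vonMangoldt n) / Q := by
      rw [Finset.sum_div]
      refine le_trans ?_ (sum_le_sum_of_subset_of_nonneg (s := (Ioc 0 (2 * Q)).filter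
        (fun n => Q ≤ n ∧ ¬ n.Prime)) ?_ ?_)
      · refine sum_le_sum ?_
        intro n hn
        simp only [mem_filter, mem_Ioc] at hn
        refine div_le_div_of_nonneg_left ArithmeticFunction.vonMangoldt_nonneg hQ0 ?_
        exact_mod_cast hn.2.1
      · intro n hn
        simp only [mem_filter, mem_Ioc] at hn ⊢
        exact ⟨hn.1, hn.2.2⟩
      · intro n _ _
        exact div_nonneg ArithmeticFunction.vonMangoldt_nonneg hQ0.le
    have h4 : ∑ n ∈ (Ioc 0 (2 * Q)).filter (fun n => ¬ n.Prime), vonMangoldt n ≤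
        C1 * √((2 * Q : ℕ) : ℝ) := by
      have h5 := Chebyshev.psi_sub_theta_eq_sum_not_prime ((2 * Q : ℕ) : ℝ)
      rw [Nat.floor_natCast] at h5
      rw [← h5]
      refine le_trans (hC0 _) ?_
      exact mul_le_mul_of_nonneg_right (le_max_left _ _) (Real.sqrt_nonneg _)
    have h5 : √((2 * Q : ℕ) : ℝ) = √2 * √(Q : ℝ) := by
      rw [Nat.cast_mul, Nat.cast_ofNat, Real.sqrt_mul (by norm_num)]
    rw [h5] at h2 h4
    have hsq : √(Q : ℝ) * √(Q : ℝ) = Q := Real.mul_self_sqrt hQ0.le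
    have hsp : 0 < √(Q : ℝ) := Real.sqrt_pos.mpr hQ0
    have h22 : √(2 : ℝ) * √(2 : ℝ) = 2 := Real.mul_self_sqrt (by norm_num)
    have h2p : 0 < √(2 : ℝ) := Real.sqrt_pos.mpr (by norm_num)
    have h2u : √(2 : ℝ) ≤ 1.4143 := by
      rw [Real.sqrt_le_left (by norm_num)]
      norm_num
    have h6 : C1 * (√2 * √(Q : ℝ)) / Q = C1 * √2 / √(Q : ℝ) := by
      rw [div_eq_div_iff hQ0.ne' hsp.ne']
      calc C1 * (√2 * √(Q : ℝ)) * √(Q : ℝ) = C1 * √2 * (√(Q : ℝ) * √(Q : ℝ)) := by ring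
        _ = C1 * √2 * Q := by rw [hsq]
    have h7 : 5 * C1 / (√2 * √(Q : ℝ)) = (5 * C1 * √2 / 2) / √(Q : ℝ) := by
      rw [div_eq_div_iff (by positivity) hsp.ne']
      calc 5 * C1 * √(Q : ℝ) = 5 * C1 * √(Q : ℝ) / 2 * (√2 * √2) := by rw [h22]; ring
        _ = 5 * C1 * √2 / 2 * (√2 * √(Q : ℝ)) := by ring
    rw [h7] at h2
    have h8 : (∑ n ∈ (Ioc 0 (2 * Q)).filter (fun n => ¬ n.Prime), vonMangoldt n) / Q ≤
        C1 * √2 / √(Q : ℝ) := by
      rw [← h6]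
      exact div_le_div_of_nonneg_right h4 hQ0.le
    have h9 : C1 * √2 / √(Q : ℝ) + (5 * C1 * √2 / 2) / √(Q : ℝ) ≤ 5 * C1 / √(Q : ℝ) := by
      rw [← add_div]
      refine div_le_div_of_nonneg_right ?_ hsp.le
      nlinarith
    linarith

theorem pp_tail : ∃ C : ℝ, 0 < C ∧ ∀ Q : ℕ, 2 ≤ Q → ∀ N : ℕ,
    ∑ n ∈ (Ioc 0 N).filter (fun n => Q ≤ n ∧ ¬ n.Prime), vonMangoldt n / n ≤ C * Real.log Q / √(Q : ℝ) := by
  obtain ⟨C, hC, h⟩ := PS_step
  have hl2 : 0 < Real.log 2 := Real.log_pos (by norm_num)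
  refine ⟨C / Real.log 2, by positivity, ?_⟩
  intro Q hQ N
  have hNQ : N < 2 ^ N * Q := by
    have h1 : N < 2 ^ N := Nat.lt_two_pow_self
    have h2 : 2 ^ N * 1 ≤ 2 ^ N * Q := Nat.mul_le_mul_left _ (by omega)
    omega
  refine le_trans (h N Q N (by omega) hNQ) ?_
  have hQ2 : (2 : ℝ) ≤ Q := by exact_mod_cast hQ
  have hlog : Real.log 2 ≤ Real.log Q := Real.log_le_log (by norm_num) hQ2
  refine div_le_div_of_nonneg_right ?_ (Real.sqrt_nonneg _)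
  rw [div_mul_eq_mul_div, le_div_iff₀ hl2]
  exact mul_le_mul_of_nonneg_left hlog hC.le

end Pool.Agent.Lib.MP_5deb1d_nt
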