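import Mathlib
import Pool.Agent.Lib.MP_5deb1d_nt.PS

/-!
JOB PW. Proper prime powers in a block of moduli. PROOF. If `q ∈ PB Q` and `eps q n ≠ 0`, `Λ n ≠ 0` (so `n ≥ 2`) then `q ∣ n - 1` or `q ∣ n + 1`, so `n ≥ q - 1 ≥ Q`, and
`q ∣ n² - 1`. The number of primes `q > Q` dividing `n² - 1` is at most `log(n²)/log Q = 2 log n/log Q` (their product divides `n² - 1 > 0`). `|eps| ≤ 1`, `(q-1)/2 ≤ Q`,
`vl n/n = Λ n/(n log n)`. Exchange the sums: total `≤ ∑_{Q ≤ n ≤ N, n not prime} Λ(n)/(n log n) * Q * 2 log n/log Q ≤ (2Q/log Q) * C log Q/√Q`.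
-/

set_option autoImplicit false

open Finset
open ArithmeticFunction (vonMangoldt)

namespace Pool.Agent.Lib.MP_5deb1d_nt

private theorem PW_vl_nonneg (n : ℕ) : 0 ≤ vl n := by
  unfold vl
  exact div_nonneg ArithmeticFunction.vonMangoldt_nonneg (Real.log_natCast_nonneg n)

private theorem PW_count {Q n : ℕ} (hQ : 2 ≤ Q) (hn : 2 ≤ n) :
    (((PB Q).filter fun q => q ∣ n ^ 2 - 1).card : ℝ) ≤ 2 * Real.log n / Real.log Q := by
  set S := (PB Q).filter fun q => q ∣ n ^ 2 - 1 with hS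
  have hpos : 0 < n ^ 2 - 1 := by
    have : 4 ≤ n ^ 2 := by nlinarith
    omega
  have h1 : ∏ q ∈ S, q ∣ n ^ 2 - 1 :=
    Finset.prod_primes_dvd _ (fun q hq => (mem_PB.1 (Finset.mem_filter.1 hq).1).1.prime)
      fun q hq => (Finset.mem_filter.1 hq).2
  have h2 : Q ^ S.card ≤ ∏ q ∈ S, q := by
    rw [← Finset.prod_const]
    exact Finset.prod_le_prod' fun q hq => (mem_PB.1 (Finset.mem_filter.1 hq).1).2.1.le
  have h3 : Q ^ S.card ≤ n ^ 2 := (h2.trans (Nat.le_of_dvd hpos h1)).trans (Nat.sub_le _ _)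
  have hlQ : 0 < Real.log Q := Real.log_pos (by exact_mod_cast hQ)
  rw [le_div_iff₀ hlQ]
  have hQ0 : (0 : ℝ) < Q := by exact_mod_cast (by omega : 0 < Q)
  have h4 : Real.log ((Q : ℝ) ^ S.card) ≤ Real.log ((n : ℝ) ^ 2) :=
    Real.log_le_log (by positivity) (by exact_mod_cast h3)
  rw [Real.log_pow, Real.log_pow] at h4
  exact_mod_cast h4

private theorem PW_dvd {q n : ℕ} (h : q ∣ n - 1 ∨ q ∣ n + 1) (hn : 1 ≤ n) : q ∣ n ^ 2 - 1 := by
  have h1 : n ^ 2 - 1 = (n - 1) * (n + 1) := by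
    obtain ⟨m, rfl⟩ : ∃ m, n = m + 1 := ⟨n - 1, by omega⟩
    have h2 : (m + 1) ^ 2 = m * (m + 1 + 1) + 1 := by ring
    rw [h2]
    simp only [Nat.add_sub_cancel]
  rw [h1]
  rcases h with h | h
  · exact h.mul_right _
  · exact h.mul_left _

private theorem PW_term {Q q n : ℕ} (hQ : 2 ≤ Q) (hq : q ∈ PB Q) :
    ((q : ℝ) - 1) / 2 * (|eps q n| * (vl n / n)) ≤
      if Q ≤ n ∧ q ∣ n ^ 2 - 1 then (Q : ℝ) * (vl n / n) else 0 := by
  obtain ⟨hqp, hq1, hq2⟩ := mem_PB.1 hq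
  have hv : 0 ≤ vl n / n := div_nonneg (PW_vl_nonneg n) (Nat.cast_nonneg n)
  have hq3 : (q : ℝ) ≤ 2 * Q := by exact_mod_cast hq2
  have hq4 : (1 : ℝ) ≤ q := by exact_mod_cast hqp.one_lt.le
  have h2 : ((q : ℝ) - 1) / 2 ≤ Q := by
    have : (0 : ℝ) ≤ Q := Nat.cast_nonneg Q
    linarith
  have h0 : 0 ≤ ((q : ℝ) - 1) / 2 := by linarith
  split_ifs with h
  · have h3 : |eps q n| ≤ 1 := by
      have a1 := cl_nonneg true q n
      have a2 := cl_nonneg false q n
      have a3 := cl_le_one true q n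
      have a4 := cl_le_one false q n
      unfold eps
      rw [abs_le]
      constructor <;> linarith
    calc ((q : ℝ) - 1) / 2 * (|eps q n| * (vl n / n)) ≤ (Q : ℝ) * (1 * (vl n / n)) := by gcongr
      _ = _ := by ring
  · by_cases hn : n < 2
    · have h3 : vl n = 0 := by
        unfold vl
        interval_cases n <;> simp
      rw [h3, zero_div, mul_zero, mul_zero]
    · have h3 : eps q n = 0 := by
        have h4 : cl true q n = 0 := by
          simp only [cl]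
          rw [if_neg]
          intro h5
          have h6 : q ∣ n - 1 := (Nat.modEq_iff_dvd' (by omega)).1 h5.symm
          refine h ⟨?_, PW_dvd (Or.inl h6) (by omega)⟩
          have h7 := Nat.le_of_dvd (by omega) h6
          omega
        have h5 : cl false q n = 0 := by
          simp only [cl]
          rw [if_neg]
          intro h6
          refine h ⟨?_, PW_dvd (Or.inr h6) (by omega)⟩
          have h7 := Nat.le_of_dvd (by omega) h6
          omega
        unfold eps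
        rw [h4, h5, sub_zero]
      rw [h3, abs_zero, zero_mul, mul_zero]

theorem pp_block : ∃ C : ℝ, 0 < C ∧ ∀ Q : ℕ, 2 ≤ Q → ∀ N : ℕ,
    ∑ q ∈ PB Q, ((q : ℝ) - 1) / 2 * ∑ n ∈ (Ioc 0 N).filter (fun n => ¬ n.Prime), |eps q n| * (vl n / n) ≤
      C * √(Q : ℝ) := by
  obtain ⟨C, hC, h⟩ := pp_tail
  refine ⟨2 * C, by positivity, fun Q hQ N => ?_⟩
  have hlQ : 0 < Real.log Q := Real.log_pos (by exact_mod_cast hQ)
  have hQ0 : (0 : ℝ) < Q := by exact_mod_cast (by omega : 0 < Q)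
  have h1 : ∑ q ∈ PB Q, ((q : ℝ) - 1) / 2 *
      ∑ n ∈ (Ioc 0 N).filter (fun n => ¬ n.Prime), |eps q n| * (vl n / n) ≤
      ∑ q ∈ PB Q, ∑ n ∈ (Ioc 0 N).filter (fun n => ¬ n.Prime),
        if Q ≤ n ∧ q ∣ n ^ 2 - 1 then (Q : ℝ) * (vl n / n) else 0 := by
    refine Finset.sum_le_sum fun q hq => ?_
    rw [Finset.mul_sum]
    exact Finset.sum_le_sum fun n _ => PW_term hQ hq
  have h2 : ∀ n ∈ (Ioc 0 N).filter (fun n => ¬ n.Prime),
      ∑ q ∈ PB Q, (if Q ≤ n ∧ q ∣ n ^ 2 - 1 then (Q : ℝ) * (vl n / n) else 0) ≤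
        if Q ≤ n then 2 * Q / Real.log Q * (vonMangoldt n / n) else 0 := by
    intro n _
    by_cases hn : Q ≤ n
    · have hn2 : 2 ≤ n := hQ.trans hn
      have hln : 0 < Real.log n := Real.log_pos (by exact_mod_cast hn2)
      have hn0 : (0 : ℝ) < n := by exact_mod_cast (by omega : 0 < n)
      simp only [hn, true_and, if_true]
      rw [← Finset.sum_filter, Finset.sum_const, nsmul_eq_mul]
      have hv : 0 ≤ (Q : ℝ) * (vl n / n) :=
        mul_nonneg hQ0.le (div_nonneg (PW_vl_nonneg n) hn0.le)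
      calc (((PB Q).filter fun q => q ∣ n ^ 2 - 1).card : ℝ) * ((Q : ℝ) * (vl n / n)) ≤
          2 * Real.log n / Real.log Q * ((Q : ℝ) * (vl n / n)) :=
            mul_le_mul_of_nonneg_right (PW_count hQ hn2) hv
        _ = 2 * Q / Real.log Q * (vonMangoldt n / n) := by
            unfold vl
            field_simp
    · simp only [hn, false_and, if_false, Finset.sum_const_zero, le_refl]
  calc ∑ q ∈ PB Q, ((q : ℝ) - 1) / 2 *
      ∑ n ∈ (Ioc 0 N).filter (fun n => ¬ n.Prime), |eps q n| * (vl n / n) ≤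
      ∑ q ∈ PB Q, ∑ n ∈ (Ioc 0 N).filter (fun n => ¬ n.Prime),
        (if Q ≤ n ∧ q ∣ n ^ 2 - 1 then (Q : ℝ) * (vl n / n) else 0) := h1
    _ = ∑ n ∈ (Ioc 0 N).filter (fun n => ¬ n.Prime), ∑ q ∈ PB Q,
        (if Q ≤ n ∧ q ∣ n ^ 2 - 1 then (Q : ℝ) * (vl n / n) else 0) := Finset.sum_comm
    _ ≤ ∑ n ∈ (Ioc 0 N).filter (fun n => ¬ n.Prime),
        (if Q ≤ n then 2 * Q / Real.log Q * (vonMangoldt n / n) else 0) := Finset.sum_le_sum h2
    _ = 2 * Q / Real.log Q *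
        ∑ n ∈ (Ioc 0 N).filter (fun n => Q ≤ n ∧ ¬ n.Prime), vonMangoldt n / n := by
        rw [← Finset.sum_filter, Finset.filter_filter, Finset.mul_sum]
        refine Finset.sum_congr (Finset.filter_congr fun n _ => and_comm) fun _ _ => rfl
    _ ≤ 2 * Q / Real.log Q * (C * Real.log Q / √(Q : ℝ)) :=
        mul_le_mul_of_nonneg_left (h Q hQ N) (by positivity)
    _ = 2 * C * √(Q : ℝ) := by
        have hs : √(Q : ℝ) * √(Q : ℝ) = Q := Real.mul_self_sqrt hQ0.le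
        have hs0 : √(Q : ℝ) ≠ 0 := (Real.sqrt_pos.2 hQ0).ne'
        rw [div_mul_div_comm, div_eq_iff (mul_ne_zero hlQ.ne' hs0)]
        linear_combination -2 * C * Real.log Q * hs

end Pool.Agent.Lib.MP_5deb1d_nt
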