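import Mathlib
import Pool.Agent.Lib.MP_5deb1d_nt.A3
import Pool.Agent.Lib.MP_5deb1d_nt.A4
import Pool.Agent.Lib.MP_5deb1d_nt.AB
import Pool.Agent.Lib.MP_5deb1d_nt.AF

/-!
JOB TL. Truncation of `r(q)` at `N1`, for a block. PROOF. For real `1 < s ≤ 2` and `N2 ≥ N1`: `abel_block` with `w q n = eps q n * Λ n`,
`f n = n^(-s)/log n` (`f_fac`), constant `2 B` (`eps_dk`: `∑_{n ≤ N} eps q n Λ n = DD true q N - DD false q N`), gives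
`∑_{q ∈ PB Q} |∑_{N1 < n ≤ N2} eps q n vl n n^(-s)| ≤ 20 B`. As `N2 → ∞` (`LR_hasSum`, `HasSum.tendsto_sum_nat`; the term `n = 0` is `0`):
`∑_{q ∈ PB Q} |LR q s - (q-1)/2 ∑_{n ≤ N1} eps q n vl n n^(-s)| ≤ Q * 20 B` (`(q-1)/2 ≤ Q`). Let `s → 1+` (`LR_tendsto`, the finite sums are continuous in `s`,
`n^(-1) = 1/n`), `le_of_tendsto`. (`s ≤ 2` holds eventually.) `rq_eq` for `rq`.
-/

set_option autoImplicit false

open Finset
open ArithmeticFunction (vonMangoldt)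

namespace Pool.Agent.Lib.MP_5deb1d_nt

private noncomputable def TL_L (q : ℕ) (s : ℝ) : ℝ :=
  if h : q = 0 then 0 else (haveI : NeZero q := ⟨h⟩; LR q (s : ℂ))

private theorem TL_hasSum (q : ℕ) (hq : q.Prime) (s : ℝ) (hs : 1 < s) :
    HasSum (fun n : ℕ => ((q : ℝ) - 1) / 2 * (eps q n * (vl n * (n : ℝ) ^ (-s)))) (TL_L q s) := by
  have h0 : NeZero q := ⟨hq.ne_zero⟩
  unfold TL_L
  rw [dif_neg hq.ne_zero]
  exact LR_hasSum q hq s hs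

private theorem TL_tendsto (q : ℕ) (hq : q ≠ 0) :
    Filter.Tendsto (fun s : ℝ => TL_L q s) (nhdsWithin 1 (Set.Ioi 1)) (nhds (rq q)) := by
  have h0 : NeZero q := ⟨hq⟩
  have h1 := LR_tendsto q
  rw [rq_eq]
  refine h1.congr fun s => ?_
  unfold TL_L
  rw [dif_neg hq]

private theorem TL_w (Q N1 : ℕ) (B : ℝ)
    (hw : ∀ a : Bool, ∀ N : ℕ, N1 ≤ N → ∑ q ∈ PB Q, |DD a q N| ≤ B * (N / (Real.log N) ^ 2)) (N : ℕ) (hN : N1 ≤ N) :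
    ∑ q ∈ PB Q, |∑ n ∈ Ioc 0 N, eps q n * vonMangoldt n| ≤ 2 * B * (N / (Real.log N) ^ 2) := by
  have h1 : ∀ q, ∑ n ∈ Ioc 0 N, eps q n * vonMangoldt n = DD true q N - DD false q N := by
    intro q
    unfold DD
    rw [← Finset.sum_sub_distrib]
    refine Finset.sum_congr rfl fun n _ => ?_
    rw [eps_dk]
    ring
  have h2 : ∑ q ∈ PB Q, |∑ n ∈ Ioc 0 N, eps q n * vonMangoldt n| ≤
      ∑ q ∈ PB Q, (|DD true q N| + |DD false q N|) := by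
    refine Finset.sum_le_sum fun q _ => ?_
    rw [h1]
    exact abs_sub _ _
  rw [Finset.sum_add_distrib] at h2
  have h3 := hw true N hN
  have h4 := hw false N hN
  linarith

private theorem TL_fin (Q N1 N2 : ℕ) (hN : 3 ≤ N1) (h12 : N1 ≤ N2) (B : ℝ) (hB : 0 ≤ B)
    (hw : ∀ a : Bool, ∀ N : ℕ, N1 ≤ N → ∑ q ∈ PB Q, |DD a q N| ≤ B * (N / (Real.log N) ^ 2))
    (s : ℝ) (hs : 1 ≤ s) (hs2 : s ≤ 2) :
    ∑ q ∈ PB Q, |((q : ℝ) - 1) / 2 * ∑ n ∈ Ioc N1 N2, eps q n * (vl n * (n : ℝ) ^ (-s))| ≤ 20 * Q * B := by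
  have h := abel_block (PB Q) (fun q n => eps q n * vonMangoldt n) (fun n => (n : ℝ) ^ (-s) / Real.log n) N1 N2
    hN h12 (2 * B) (by positivity) (fun N hN' => TL_w Q N1 B hw N hN')
    (fun k hk => (f_fac s hs hs2 k hk).1) (fun k hk => (f_fac s hs hs2 k hk).2)
  have h1 : ∀ q, ∑ n ∈ Ioc N1 N2, eps q n * vonMangoldt n * ((n : ℝ) ^ (-s) / Real.log n) =
      ∑ n ∈ Ioc N1 N2, eps q n * (vl n * (n : ℝ) ^ (-s)) := by
    intro q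
    refine Finset.sum_congr rfl fun n _ => ?_
    unfold vl
    ring
  simp only [h1] at h
  have h2 : ∑ q ∈ PB Q, |((q : ℝ) - 1) / 2 * ∑ n ∈ Ioc N1 N2, eps q n * (vl n * (n : ℝ) ^ (-s))| ≤
      ∑ q ∈ PB Q, (Q : ℝ) * |∑ n ∈ Ioc N1 N2, eps q n * (vl n * (n : ℝ) ^ (-s))| := by
    refine Finset.sum_le_sum fun q hq => ?_
    obtain ⟨hq1, hq2, hq3⟩ := mem_PB.1 hq
    rw [abs_mul]
    refine mul_le_mul_of_nonneg_right ?_ (abs_nonneg _)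
    have h3 : (1 : ℝ) ≤ q := by exact_mod_cast hq1.one_lt.le
    have h4 : (q : ℝ) ≤ 2 * Q := by exact_mod_cast hq3
    rw [abs_of_nonneg (by linarith)]
    linarith
  rw [← Finset.mul_sum] at h2
  have h5 := mul_le_mul_of_nonneg_left h (Nat.cast_nonneg Q : (0 : ℝ) ≤ Q)
  refine (h2.trans h5).trans (le_of_eq ?_)
  ring

private theorem TL_range (g : ℕ → ℝ) (hg : g 0 = 0) (N : ℕ) :
    ∑ n ∈ range (N + 1), g n = ∑ n ∈ Ioc 0 N, g n := by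
  induction N with
  | zero => simp [hg]
  | succ N ih => rw [Finset.sum_range_succ, ih, Finset.sum_Ioc_succ_top (Nat.zero_le N)]

private theorem TL_lim (Q N1 : ℕ) (hN : 3 ≤ N1) (B : ℝ) (hB : 0 ≤ B)
    (hw : ∀ a : Bool, ∀ N : ℕ, N1 ≤ N → ∑ q ∈ PB Q, |DD a q N| ≤ B * (N / (Real.log N) ^ 2))
    (s : ℝ) (hs : 1 < s) (hs2 : s ≤ 2) :
    ∑ q ∈ PB Q, |TL_L q s - ((q : ℝ) - 1) / 2 * ∑ n ∈ Ioc 0 N1, eps q n * (vl n * (n : ℝ) ^ (-s))| ≤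
      20 * Q * B := by
  have h1 : Filter.Tendsto (fun N2 : ℕ => ∑ q ∈ PB Q, |((q : ℝ) - 1) / 2 *
      ∑ n ∈ Ioc N1 N2, eps q n * (vl n * (n : ℝ) ^ (-s))|) Filter.atTop
      (nhds (∑ q ∈ PB Q, |TL_L q s - ((q : ℝ) - 1) / 2 *
        ∑ n ∈ Ioc 0 N1, eps q n * (vl n * (n : ℝ) ^ (-s))|)) := by
    refine tendsto_finsetSum _ fun q hq => Filter.Tendsto.abs ?_
    have h2 := (TL_hasSum q (mem_PB.1 hq).1 s hs).tendsto_sum_nat.comp (Filter.tendsto_add_atTop_nat 1)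
    have h3 := h2.sub_const (((q : ℝ) - 1) / 2 * ∑ n ∈ Ioc 0 N1, eps q n * (vl n * (n : ℝ) ^ (-s)))
    refine h3.congr' ?_
    filter_upwards [Filter.eventually_ge_atTop N1] with N2 h12
    show ∑ n ∈ range (N2 + 1), ((q : ℝ) - 1) / 2 * (eps q n * (vl n * (n : ℝ) ^ (-s))) - _ = _
    rw [TL_range _ (by simp [vl]), ← Finset.mul_sum,
      ← Finset.sum_Ioc_consecutive _ (Nat.zero_le N1) h12]
    ring
  refine le_of_tendsto h1 ?_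
  filter_upwards [Filter.eventually_ge_atTop N1] with N2 h12
  exact TL_fin Q N1 N2 hN h12 B hB hw s hs.le hs2

theorem trunc (Q N1 : ℕ) (hN : 3 ≤ N1) (B : ℝ) (hB : 0 ≤ B)
    (hw : ∀ a : Bool, ∀ N : ℕ, N1 ≤ N → ∑ q ∈ PB Q, |DD a q N| ≤ B * (N / (Real.log N) ^ 2)) :
    ∑ q ∈ PB Q, |rq q - ((q : ℝ) - 1) / 2 * ∑ n ∈ Ioc 0 N1, eps q n * (vl n / n)| ≤ 40 * Q * B := by
  have h1 : Filter.Tendsto (fun s : ℝ => ∑ q ∈ PB Q, |TL_L q s - ((q : ℝ) - 1) / 2 *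
      ∑ n ∈ Ioc 0 N1, eps q n * (vl n * (n : ℝ) ^ (-s))|) (nhdsWithin 1 (Set.Ioi 1))
      (nhds (∑ q ∈ PB Q, |rq q - ((q : ℝ) - 1) / 2 * ∑ n ∈ Ioc 0 N1, eps q n * (vl n / n)|)) := by
    refine tendsto_finsetSum _ fun q hq => ?_
    refine ((TL_tendsto q (mem_PB.1 hq).1.ne_zero).sub ?_).abs
    refine Filter.Tendsto.const_mul _ (tendsto_finsetSum _ fun n hn => Filter.Tendsto.const_mul _ ?_)
    have h2 : (n : ℝ) ≠ 0 := Nat.cast_ne_zero.2 (mem_Ioc.1 hn).1.ne'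
    have h3 : Continuous fun s : ℝ => (n : ℝ) ^ (-s) := (Real.continuous_const_rpow h2).comp continuous_neg
    have h4 := (h3.tendsto 1).mono_left (nhdsWithin_le_nhds (s := Set.Ioi (1 : ℝ)))
    rw [Real.rpow_neg_one] at h4
    rw [div_eq_mul_inv]
    exact h4.const_mul _
  refine le_of_tendsto h1 ?_
  have h2 : Set.Ioo (1 : ℝ) 2 ∈ nhdsWithin (1 : ℝ) (Set.Ioi 1) := Ioo_mem_nhdsGT (by norm_num)
  filter_upwards [h2] with s hs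
  refine (TL_lim Q N1 hN B hB hw s hs.1 hs.2.le).trans ?_
  have h3 : 0 ≤ (Q : ℝ) * B := mul_nonneg (Nat.cast_nonneg _) hB
  nlinarith

end Pool.Agent.Lib.MP_5deb1d_nt
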