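import Mathlib
import Pool.Agent.Lib.MP_5deb1d_nt.TL
import Pool.Agent.Lib.MP_5deb1d_nt.PW
import Pool.Agent.Lib.MP_5deb1d_nt.BD
import Pool.Agent.Lib.MP_5deb1d_nt.CH
import Pool.Agent.Lib.MP_5deb1d_nt.BL

/-!
JOB BK. Block estimate: `r(q)` against `S1 q`. PROOF. Given `ε`, take `d ≤ 1` small; `η, Q0` from `blk d`; `N1 = ⌈Q^(2+d)⌉`. `trunc` with `B = Q^(-η)`:
`∑ |rq q - (q-1)/2 ∑_{n ≤ N1} eps q n vl n/n| ≤ 40 Q^(1-η)`. In the inner sum `vl p = 1` for primes `p`; so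
`(q-1)/2 ∑_{n ≤ N1} eps q n vl n/n = S1 q + (q-1)/2 ∑_{q² < p ≤ N1} eps q p/p + (q-1)/2 ∑_{n ≤ N1, n not prime} eps q n vl n/n` (for `q² ≤ N1`: `q ≤ 2Q`, `4Q² ≤ Q^(2+d)` for large `Q`).
The last sum: `pp_block`, `≤ C √Q` for the block. The middle: `bt_sum` for both classes (`log N1 ≤ (2+d) log Q + log 2 ≤ (2+d) log q + 1`): `≤ (q/2)(2C/q)(d + 1/log q) ≤ C (d + 1/log Q)` each,
`card_PB`: `≤ 4 C (d + 1/log Q) Q/log Q`. Everything is `≤ ε Q/log Q` for `d` small and `Q` large.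
-/

set_option autoImplicit false

open Finset
open ArithmeticFunction (vonMangoldt)

namespace Pool.Agent.Lib.MP_5deb1d_nt

private lemma BK_vl (p : ℕ) (hp : p.Prime) : vl p = 1 := by
  unfold vl
  rw [ArithmeticFunction.vonMangoldt_apply_prime hp]
  exact div_self (Real.log_pos (by exact_mod_cast hp.one_lt)).ne'

private lemma BK_vl_nonneg (n : ℕ) : 0 ≤ vl n / n := by
  unfold vl
  exact div_nonneg (div_nonneg ArithmeticFunction.vonMangoldt_nonneg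
    (Real.log_natCast_nonneg n)) (Nat.cast_nonneg n)

private lemma BK_split (q N : ℕ) (h : q ^ 2 ≤ N) :
    ∑ n ∈ Ioc 0 N, eps q n * (vl n / n) =
      (∑ p ∈ Pr (q ^ 2), eps q p / p + ∑ p ∈ (Ioc (q ^ 2) N).filter Nat.Prime, eps q p / p) +
        ∑ n ∈ (Ioc 0 N).filter (fun n => ¬ n.Prime), eps q n * (vl n / n) := by
  rw [← sum_filter_add_sum_filter_not (Ioc 0 N) Nat.Prime]
  have h1 : (Ioc 0 N).filter Nat.Prime = Pr (q ^ 2) ∪ (Ioc (q ^ 2) N).filter Nat.Prime := by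
    unfold Pr
    rw [← filter_union, Ioc_union_Ioc_eq_Ioc (Nat.zero_le _) h]
  have h2 : Disjoint (Pr (q ^ 2)) ((Ioc (q ^ 2) N).filter Nat.Prime) := by
    rw [disjoint_left]
    intro a ha hb
    have h3 := (mem_Pr.1 ha).2
    have h4 := (mem_Ioc.1 (mem_filter.1 hb).1).1
    omega
  have h3 : ∑ n ∈ (Ioc 0 N).filter Nat.Prime, eps q n * (vl n / n) =
      ∑ n ∈ (Ioc 0 N).filter Nat.Prime, eps q n / n := by
    refine sum_congr rfl fun n hn => ?_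
    rw [BK_vl n (mem_filter.1 hn).2, mul_one_div]
  rw [h3, h1, sum_union h2]

private lemma BK_abs (q N : ℕ) (hq : 1 ≤ q) (h : q ^ 2 ≤ N) (W : ℝ)
    (hW : ∀ a : Bool, ∑ p ∈ (Ioc (q ^ 2) N).filter Nat.Prime, cl a q p / p ≤ W) :
    |((q : ℝ) - 1) / 2 * ∑ n ∈ Ioc 0 N, eps q n * (vl n / n) - S1 q| ≤
      ((q : ℝ) - 1) * W + ((q : ℝ) - 1) / 2 *
        ∑ n ∈ (Ioc 0 N).filter (fun n => ¬ n.Prime), |eps q n| * (vl n / n) := by
  have hq1 : (0 : ℝ) ≤ ((q : ℝ) - 1) / 2 := by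
    have : (1 : ℝ) ≤ q := by exact_mod_cast hq
    linarith
  have e : ((q : ℝ) - 1) / 2 * ∑ n ∈ Ioc 0 N, eps q n * (vl n / n) - S1 q =
      ((q : ℝ) - 1) / 2 * (∑ p ∈ (Ioc (q ^ 2) N).filter Nat.Prime, eps q p / p +
        ∑ n ∈ (Ioc 0 N).filter (fun n => ¬ n.Prime), eps q n * (vl n / n)) := by
    rw [BK_split q N h]
    unfold S1
    ring
  rw [e, abs_mul, abs_of_nonneg hq1]
  have h1 : |∑ p ∈ (Ioc (q ^ 2) N).filter Nat.Prime, eps q p / p| ≤ 2 * W := by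
    refine (abs_sum_le_sum_abs _ _).trans ?_
    have h2 : ∀ p ∈ (Ioc (q ^ 2) N).filter Nat.Prime, |eps q p / (p : ℝ)| ≤
        cl true q p / p + cl false q p / p := by
      intro p _
      rw [abs_div, abs_of_nonneg (Nat.cast_nonneg p : (0 : ℝ) ≤ p), ← add_div]
      exact div_le_div_of_nonneg_right (eps_abs_le q p) (Nat.cast_nonneg p)
    refine (sum_le_sum h2).trans ?_
    rw [sum_add_distrib]
    have := hW true
    have := hW false
    linarith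
  have h3 : |∑ n ∈ (Ioc 0 N).filter (fun n => ¬ n.Prime), eps q n * (vl n / n)| ≤
      ∑ n ∈ (Ioc 0 N).filter (fun n => ¬ n.Prime), |eps q n| * (vl n / n) := by
    refine (abs_sum_le_sum_abs _ _).trans (sum_le_sum fun n _ => ?_)
    rw [abs_mul, abs_of_nonneg (BK_vl_nonneg n)]
  have h4 := (abs_add_le (∑ p ∈ (Ioc (q ^ 2) N).filter Nat.Prime, eps q p / (p : ℝ))
    (∑ n ∈ (Ioc 0 N).filter (fun n => ¬ n.Prime), eps q n * (vl n / n))).trans (add_le_add h1 h3)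
  have h5 := mul_le_mul_of_nonneg_left h4 hq1
  refine h5.trans (le_of_eq ?_)
  ring

private lemma BK_ev (r c : ℝ) (hr : 0 < r) (hc : 0 < c) :
    ∀ᶠ x : ℝ in Filter.atTop, Real.log x ≤ c * x ^ r := by
  have h := (isLittleO_log_rpow_atTop hr).def hc
  filter_upwards [h, Filter.eventually_ge_atTop (1 : ℝ)] with x hx h1
  rw [Real.norm_eq_abs, Real.norm_eq_abs, abs_of_nonneg (Real.log_nonneg h1),
    abs_of_nonneg (Real.rpow_nonneg (by linarith) _)] at hx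
  exact hx

/-- the final numerical estimate -/
private lemma BK_fin (ε C1 C2 x L R s : ℝ) (hε : 0 < ε) (hC1 : 0 < C1) (hC2 : 0 < C2)
    (hx : 0 < x) (hL : 0 < L) (hR : 0 < R) (hs : 0 ≤ s) (hss : s * s = x)
    (h1 : L ≤ ε / 240 * R) (h2 : L ≤ ε / (6 * C2) * s) (h3 : 24 * C1 / ε ≤ L) :
    40 * x * R⁻¹ + 4 * (x / L) * (C1 * (ε / (8 * C1) + 1 / L)) + C2 * s ≤ ε * (x / L) := by
  have a1 : 40 * x * R⁻¹ ≤ ε / 6 * (x / L) := by
    rw [← div_eq_mul_inv, div_le_iff₀ hR]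
    have : L * x ≤ ε / 240 * R * x := mul_le_mul_of_nonneg_right h1 hx.le
    have h5 : ε / 6 * (x / L) * R = 40 * (ε / 240 * R * x) / L := by
      field_simp
      ring
    rw [h5, le_div_iff₀ hL]
    linarith
  have a2 : 4 * (x / L) * (C1 * (ε / (8 * C1) + 1 / L)) ≤ (ε / 2 + ε / 6) * (x / L) := by
    have h5 : C1 * (ε / (8 * C1) + 1 / L) = ε / 8 + C1 / L := by
      field_simp
    have h6 : C1 / L ≤ ε / 24 := by
      rw [div_le_iff₀ hL]
      rw [div_le_iff₀ hε] at h3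
      linarith
    have h7 : 0 ≤ x / L := by positivity
    rw [h5]
    have h8 : 4 * (x / L) * (ε / 8 + C1 / L) ≤ 4 * (x / L) * (ε / 8 + ε / 24) :=
      mul_le_mul_of_nonneg_left (by linarith) (by positivity)
    refine h8.trans (le_of_eq ?_)
    ring
  have a3 : C2 * s ≤ ε / 6 * (x / L) := by
    rw [← mul_div_assoc, le_div_iff₀ hL]
    have h5 : C2 * s * L ≤ C2 * s * (ε / (6 * C2) * s) :=
      mul_le_mul_of_nonneg_left h2 (by positivity)
    have h6 : C2 * s * (ε / (6 * C2) * s) = ε / 6 * (s * s) := by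
      field_simp
    rw [h6, hss] at h5
    exact h5
  have a4 : ε * (x / L) = ε / 6 * (x / L) + (ε / 2 + ε / 6) * (x / L) + ε / 6 * (x / L) := by
    ring
  linarith

theorem block (ε : ℝ) (hε : 0 < ε) : ∃ Q0 : ℕ, ∀ Q : ℕ, Q0 ≤ Q →
    ∑ q ∈ PB Q, |rq q - S1 q| ≤ ε * (Q / Real.log Q) := by
  obtain ⟨C1, hC1, hbt⟩ := bt_sum
  obtain ⟨C2, hC2, hpp⟩ := pp_block
  have hd0 : 0 < ε / (8 * C1) := by positivity
  obtain ⟨η, hη, Q1, hblk⟩ := blk (ε / (8 * C1)) hd0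
  have e1 := BK_ev η (ε / 240) hη (by positivity)
  have e2 := BK_ev (1 / 2) (ε / (6 * C2)) (by norm_num) (by positivity)
  have e3 : ∀ᶠ x : ℝ in Filter.atTop, 24 * C1 / ε ≤ Real.log x :=
    Real.tendsto_log_atTop.eventually_ge_atTop _
  have e4 : ∀ᶠ x : ℝ in Filter.atTop, (4 : ℝ) ≤ x ^ (ε / (8 * C1)) :=
    (tendsto_rpow_atTop hd0).eventually_ge_atTop 4
  have e5 := (tendsto_natCast_atTop_atTop (R := ℝ)).eventually (e1.and (e2.and (e3.and e4)))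
  obtain ⟨Q2, hQ2⟩ := Filter.eventually_atTop.1 e5
  refine ⟨max (max Q1 Q2) 3, fun Q hQ => ?_⟩
  have hQ1 : Q1 ≤ Q := (le_max_left _ _).trans ((le_max_left _ _).trans hQ)
  have hQ3 : 3 ≤ Q := (le_max_right _ _).trans hQ
  obtain ⟨h1, h2, h3, h4⟩ := hQ2 Q ((le_max_right _ _).trans ((le_max_left _ _).trans hQ))
  have hQr : (3 : ℝ) ≤ Q := by exact_mod_cast hQ3
  have hQ0 : (0 : ℝ) < Q := by linarith
  have hL : 0 < Real.log Q := Real.log_pos (by linarith)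
  obtain ⟨N1, hN1, hN1'⟩ : ∃ N1 : ℕ, (Q : ℝ) ^ (2 + ε / (8 * C1)) ≤ N1 ∧
      (N1 : ℝ) ≤ (Q : ℝ) ^ (2 + ε / (8 * C1)) + 1 :=
    ⟨⌈(Q : ℝ) ^ (2 + ε / (8 * C1))⌉₊, Nat.le_ceil _, (Nat.ceil_lt_add_one (by positivity)).le⟩
  have hsplit : (Q : ℝ) ^ (2 + ε / (8 * C1)) = (Q : ℝ) ^ 2 * (Q : ℝ) ^ (ε / (8 * C1)) := by
    rw [Real.rpow_add hQ0, Real.rpow_two]
  have hbig : 4 * (Q : ℝ) ^ 2 ≤ (Q : ℝ) ^ (2 + ε / (8 * C1)) := by
    rw [hsplit]
    nlinarith [sq_nonneg (Q : ℝ)]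
  have hN3 : 3 ≤ N1 := by
    have : (3 : ℝ) ≤ N1 := by nlinarith
    exact_mod_cast this
  have hlogN : Real.log N1 ≤ (2 + ε / (8 * C1)) * Real.log Q + 1 := by
    have hN0 : (0 : ℝ) < N1 := by
      have : (3 : ℝ) ≤ N1 := by exact_mod_cast hN3
      linarith
    have h5 : (N1 : ℝ) ≤ 2 * (Q : ℝ) ^ (2 + ε / (8 * C1)) := by nlinarith
    have h6 := Real.log_le_log hN0 h5
    rw [Real.log_mul (by norm_num) (by positivity), Real.log_rpow hQ0] at h6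
    have := Real.log_two_lt_d9
    linarith
  -- the truncated sum
  have htr := trunc Q N1 hN3 ((Q : ℝ) ^ (-η)) (by positivity) (fun a N hN =>
    hblk Q hQ1 N (hN1.trans (by exact_mod_cast hN)) a)
  have hone : ∀ q ∈ PB Q, |rq q - S1 q| ≤
      |rq q - ((q : ℝ) - 1) / 2 * ∑ n ∈ Ioc 0 N1, eps q n * (vl n / n)| +
      (C1 * (ε / (8 * C1) + 1 / Real.log Q) + ((q : ℝ) - 1) / 2 *
        ∑ n ∈ (Ioc 0 N1).filter (fun n => ¬ n.Prime), |eps q n| * (vl n / n)) := by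
    intro q hq
    obtain ⟨hqp, hqQ, hq2⟩ := mem_PB.1 hq
    have hqr : (Q : ℝ) < q := by exact_mod_cast hqQ
    have hqr2 : (q : ℝ) ≤ 2 * Q := by exact_mod_cast hq2
    have hlq : Real.log Q ≤ Real.log q := Real.log_le_log hQ0 hqr.le
    have hqN : q ^ 2 ≤ N1 := by
      have : (q : ℝ) ^ 2 ≤ N1 := by nlinarith
      exact_mod_cast this
    have h5 := BK_abs q N1 hqp.one_lt.le hqN (C1 / q * (ε / (8 * C1) + 1 / Real.log q))
      (fun a => hbt q hqp (by omega) (ε / (8 * C1)) hd0.le N1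
        (hlogN.trans (by nlinarith)) a)
    have h6 : ((q : ℝ) - 1) * (C1 / q * (ε / (8 * C1) + 1 / Real.log q)) ≤
        C1 * (ε / (8 * C1) + 1 / Real.log Q) := by
      have h7 : 1 / Real.log q ≤ 1 / Real.log Q := one_div_le_one_div_of_le hL hlq
      have h8 : ((q : ℝ) - 1) * (C1 / q * (ε / (8 * C1) + 1 / Real.log q)) =
          (((q : ℝ) - 1) / q) * (C1 * (ε / (8 * C1) + 1 / Real.log q)) := by ring
      have h9 : ((q : ℝ) - 1) / q ≤ 1 := by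
        rw [div_le_one (by linarith)]
        linarith
      have h10 : 0 ≤ C1 * (ε / (8 * C1) + 1 / Real.log q) := by
        have : 0 < Real.log q := hL.trans_le hlq
        positivity
      rw [h8]
      refine (mul_le_of_le_one_left h10 h9).trans ?_
      exact mul_le_mul_of_nonneg_left (by linarith) hC1.le
    have h11 := abs_sub_le (rq q) (((q : ℝ) - 1) / 2 * ∑ n ∈ Ioc 0 N1, eps q n * (vl n / n)) (S1 q)
    linarith
  refine (sum_le_sum hone).trans ?_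
  rw [sum_add_distrib, sum_add_distrib, sum_const, nsmul_eq_mul]
  have h5 := hpp Q (by omega) N1
  have h6 := card_PB Q (by omega)
  have h7 : ((PB Q).card : ℝ) * (C1 * (ε / (8 * C1) + 1 / Real.log Q)) ≤
      4 * (Q / Real.log Q) * (C1 * (ε / (8 * C1) + 1 / Real.log Q)) :=
    mul_le_mul_of_nonneg_right h6 (by positivity)
  have h8 := BK_fin ε C1 C2 Q (Real.log Q) ((Q : ℝ) ^ η) √(Q : ℝ) hε hC1 hC2 hQ0 hL
    (by positivity) (Real.sqrt_nonneg _) (Real.mul_self_sqrt hQ0.le) h1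
    (by rw [Real.sqrt_eq_rpow]; exact h2) h3
  rw [Real.rpow_neg hQ0.le] at htr
  linarith

end Pool.Agent.Lib.MP_5deb1d_nt
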