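import Mathlib
import Pool.Agent.Lib.MP_5deb1d_nt.D0

/-!
JOB D1. The error terms of the double counting. PROOF: for `q ≥ 3`: the `n ≤ q²`, `n ≥ 2`, in the classes `±1` are `k q ± 1`, `1 ≤ k ≤ q`, so
`∑_{p ≤ q²} (cl true q p + cl false q p)/p ≤ ∑_{k ≤ q} (1/(kq-1) + 1/(kq+1)) ≤ 4 (1 + log q)/q` (`kq - 1 ≥ kq/2`; harmonic sum). Then `∑_q 4 (1 + log q)/(2 q²)` converges
(`1 + log q ≤ 2 √q`-type bound). Any constant.
-/

set_option autoImplicit false

open Finset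
open ArithmeticFunction (vonMangoldt)

namespace Pool.Agent.Lib.MP_5deb1d_nt

private theorem D1_half (a : Bool) {q : ℕ} (hq : q.Prime) :
    ∑ p ∈ Pr (q ^ 2), cl a q p / p ≤ ∑ k ∈ Icc 1 q, 2 / ((k : ℝ) * q) := by
  have hq2 := hq.two_le
  have h1 : ∑ p ∈ Pr (q ^ 2), cl a q p / (p : ℝ) =
      ∑ p ∈ (Pr (q ^ 2)).filter (fun p => q ∣ sh a p), 1 / (p : ℝ) := by
    rw [Finset.sum_filter]
    refine Finset.sum_congr rfl fun p hp => ?_
    rw [cl_eq a q p (mem_Pr.1 hp).1.one_lt.le]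
    split_ifs <;> simp
  rw [h1]
  have hsh : ∀ p : ℕ, p.Prime → 0 < sh a p ∧ sh a p ≤ 2 * p ∧ sh a p ≤ p + 1 := by
    intro p hp
    have := hp.two_le
    cases a <;> simp only [sh, cond_true, cond_false] <;> omega
  have hmem : ∀ p ∈ (Pr (q ^ 2)).filter (fun p => q ∣ sh a p), (sh a p / q) * q = sh a p :=
    fun p hp => Nat.div_mul_cancel (mem_filter.1 hp).2
  calc ∑ p ∈ (Pr (q ^ 2)).filter (fun p => q ∣ sh a p), 1 / (p : ℝ)
      ≤ ∑ p ∈ (Pr (q ^ 2)).filter (fun p => q ∣ sh a p), 2 / (((sh a p / q : ℕ) : ℝ) * q) := by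
        refine Finset.sum_le_sum fun p hp => ?_
        have hp' := (mem_Pr.1 (mem_filter.1 hp).1)
        obtain ⟨a1, a2, a3⟩ := hsh p hp'.1
        have e : ((sh a p / q : ℕ) : ℝ) * q = (sh a p : ℝ) := by exact_mod_cast hmem p hp
        rw [e, div_le_div_iff₀ (by exact_mod_cast hp'.1.pos) (by exact_mod_cast a1)]
        have : (sh a p : ℝ) ≤ 2 * p := by exact_mod_cast a2
        linarith
    _ = ∑ k ∈ ((Pr (q ^ 2)).filter (fun p => q ∣ sh a p)).image (fun p => sh a p / q),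
          2 / ((k : ℝ) * q) := by
        rw [Finset.sum_image]
        intro p hp p' hp' h
        have e1 := hmem p hp
        have e2 := hmem p' hp'
        have e3 : sh a p / q = sh a p' / q := h
        rw [e3, e2] at e1
        have l1 := (mem_Pr.1 (mem_filter.1 hp).1).1.two_le
        have l2 := (mem_Pr.1 (mem_filter.1 hp').1).1.two_le
        cases a <;> simp only [sh, cond_true, cond_false] at e1 <;> omega
    _ ≤ _ := by
        refine Finset.sum_le_sum_of_subset_of_nonneg (fun k hk => ?_) (fun k _ _ => by positivity)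
        obtain ⟨p, hp, rfl⟩ := mem_image.1 hk
        have e1 := hmem p hp
        have hp' := (mem_Pr.1 (mem_filter.1 hp).1)
        obtain ⟨a1, a2, a3⟩ := hsh p hp'.1
        rw [mem_Icc]
        constructor
        · rcases Nat.eq_zero_or_pos (sh a p / q) with h0 | h0
          · rw [h0, zero_mul] at e1
            omega
          · exact h0
        · by_contra hcon
          push Not at hcon
          have h5 : (q + 1) * q ≤ (sh a p / q) * q := Nat.mul_le_mul_right q hcon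
          rw [e1] at h5
          have h6 := hp'.2
          nlinarith

private theorem D1_sum {q : ℕ} (hq : q.Prime) :
    |∑ p ∈ Pr (q ^ 2), eps q p / p| ≤ 4 * (1 + Real.log q) / q := by
  have hq0 : (0 : ℝ) < q := by exact_mod_cast hq.pos
  have h1 : |∑ p ∈ Pr (q ^ 2), eps q p / p| ≤ ∑ p ∈ Pr (q ^ 2), (cl true q p / p + cl false q p / p) := by
    refine (Finset.abs_sum_le_sum_abs _ _).trans (Finset.sum_le_sum fun p hp => ?_)
    rw [abs_div, Nat.abs_cast, ← add_div]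
    exact div_le_div_of_nonneg_right (eps_abs_le q p) (Nat.cast_nonneg p)
  rw [Finset.sum_add_distrib] at h1
  have h2 := D1_half true hq
  have h3 := D1_half false hq
  have h4 : ∑ k ∈ Icc 1 q, 2 / ((k : ℝ) * q) = 2 / q * (harmonic q : ℝ) := by
    rw [harmonic_eq_sum_Icc, Rat.cast_sum, Finset.mul_sum]
    refine Finset.sum_congr rfl fun k hk => ?_
    rw [Rat.cast_inv, Rat.cast_natCast, div_mul_eq_div_div, div_div, div_eq_mul_inv, div_eq_mul_inv, mul_inv]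
    ring
  have h5 := harmonic_le_one_add_log q
  have h6 : 2 / (q : ℝ) * (harmonic q : ℝ) ≤ 2 / q * (1 + Real.log q) :=
    mul_le_mul_of_nonneg_left h5 (by positivity)
  rw [h4] at h2 h3
  have h7 : 4 * (1 + Real.log q) / q = 2 / q * (1 + Real.log q) + 2 / q * (1 + Real.log q) := by ring
  rw [h7]
  linarith

private theorem D1_term {q : ℕ} (hq : q.Prime) :
    1 / (q : ℝ) * |∑ p ∈ Pr (q ^ 2), eps q p / p| ≤ 12 * (1 / (q : ℝ) ^ (3 / 2 : ℝ)) := by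
  have hq0 : (0 : ℝ) < q := by exact_mod_cast hq.pos
  have hq1 : (1 : ℝ) ≤ q := by exact_mod_cast hq.one_lt.le
  have h1 := D1_sum hq
  have h2 : Real.log q ≤ (q : ℝ) ^ (1 / 2 : ℝ) / (1 / 2) := Real.log_natCast_le_rpow_div q (by norm_num)
  have h3 : (1 : ℝ) ≤ (q : ℝ) ^ (1 / 2 : ℝ) := Real.one_le_rpow hq1 (by norm_num)
  have h4 : 1 + Real.log q ≤ 3 * (q : ℝ) ^ (1 / 2 : ℝ) := by
    have h5 : (q : ℝ) ^ (1 / 2 : ℝ) / (1 / 2) = 2 * (q : ℝ) ^ (1 / 2 : ℝ) := by ring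
    rw [h5] at h2
    linarith
  have h6 : 12 * (1 / (q : ℝ) ^ (3 / 2 : ℝ)) = 1 / (q : ℝ) * (4 * (3 * (q : ℝ) ^ (1 / 2 : ℝ)) / q) := by
    have h7 : (q : ℝ) ^ (3 / 2 : ℝ) * (q : ℝ) ^ (1 / 2 : ℝ) = (q : ℝ) * q := by
      rw [← Real.rpow_add hq0, show (3 / 2 : ℝ) + 1 / 2 = 2 by norm_num, Real.rpow_two, sq]
    have h8 : (q : ℝ) ^ (3 / 2 : ℝ) ≠ 0 := (Real.rpow_pos_of_pos hq0 _).ne'
    field_simp
    linear_combination (-12 : ℝ) * h7
  rw [h6]
  refine mul_le_mul_of_nonneg_left (h1.trans ?_) (by positivity)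
  exact div_le_div_of_nonneg_right (mul_le_mul_of_nonneg_left h4 (by norm_num)) hq0.le

theorem dc_err : ∃ C : ℝ, 0 < C ∧ ∀ X : ℕ,
    ∑ q ∈ Pr X, 1 / (q : ℝ) * |∑ p ∈ Pr (q ^ 2), eps q p / p| ≤ C := by
  have hs : Summable fun n : ℕ => 1 / (n : ℝ) ^ (3 / 2 : ℝ) := Real.summable_one_div_nat_rpow.2 (by norm_num)
  have hnn : ∀ n : ℕ, 0 ≤ 1 / (n : ℝ) ^ (3 / 2 : ℝ) := fun n => by positivity
  refine ⟨12 * (∑' n : ℕ, 1 / (n : ℝ) ^ (3 / 2 : ℝ)) + 1, ?_, fun X => ?_⟩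
  · have h1 : 0 ≤ ∑' n : ℕ, 1 / (n : ℝ) ^ (3 / 2 : ℝ) := tsum_nonneg hnn
    linarith
  · calc ∑ q ∈ Pr X, 1 / (q : ℝ) * |∑ p ∈ Pr (q ^ 2), eps q p / p|
        ≤ ∑ q ∈ Pr X, 12 * (1 / (q : ℝ) ^ (3 / 2 : ℝ)) := Finset.sum_le_sum fun q hq => D1_term (mem_Pr.1 hq).1
      _ = 12 * ∑ q ∈ Pr X, 1 / (q : ℝ) ^ (3 / 2 : ℝ) := by rw [Finset.mul_sum]
      _ ≤ 12 * (∑' n : ℕ, 1 / (n : ℝ) ^ (3 / 2 : ℝ)) :=
        mul_le_mul_of_nonneg_left (hs.sum_le_tsum _ fun n _ => hnn n) (by norm_num)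
      _ ≤ _ := by linarith

end Pool.Agent.Lib.MP_5deb1d_nt
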