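import Mathlib
import Pool.Agent.Lib.MP_5deb1d_nt.D0

/-!
JOB D2. Uniqueness of the large prime divisor. PROOF: if `q1 ≠ q2` are primes dividing `m = sh a p > 0` with `p < q1², p < q2²` then `q1 q2 ∣ m`. `a = true`: `q1 q2 ≤ p - 1`, but
`(q1 q2)² > p²`, contradiction. `a = false`: `q1 q2 ≤ p + 1`; say `q1 < q2`; then `q1 q2 ≥ q1² + q1 > p + 1` (`q1² ≥ p + 1`, `q1 ≥ 2`), contradiction.
Second: such a `q` satisfies `q ≤ p + 1`, and `q ≤ X` if `p ≤ X`, `3 ≤ X` (for `a = false` and `q = p + 1`, both prime, `p = 2`, `q = 3`).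
-/

set_option autoImplicit false

open Finset
open ArithmeticFunction (vonMangoldt)

namespace Pool.Agent.Lib.MP_5deb1d_nt

private theorem D2_lt (p q1 q2 : ℕ) (h1 : 2 ≤ q1) (l1 : p < q1 ^ 2) (h : q1 < q2) :
    p + 1 < q1 * q2 := by
  have : q1 * (q1 + 1) ≤ q1 * q2 := Nat.mul_le_mul_left _ h
  nlinarith

theorem uniq (a : Bool) (p : ℕ) (hp : p.Prime) (q1 q2 : ℕ) (h1 : q1.Prime) (h2 : q2.Prime)
    (d1 : q1 ∣ sh a p) (d2 : q2 ∣ sh a p) (l1 : p < q1 ^ 2) (l2 : p < q2 ^ 2) : q1 = q2 := by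
  by_contra hne
  have hp2 := hp.two_le
  have hpos : 0 < sh a p := by
    cases a with
    | true =>
      simp only [sh, cond_true]
      omega
    | false =>
      simp only [sh, cond_false]
      omega
  have hle : sh a p ≤ p + 1 := by
    cases a with
    | true =>
      simp only [sh, cond_true]
      omega
    | false =>
      simp only [sh, cond_false]
      omega
  have hcop : Nat.Coprime q1 q2 := (Nat.coprime_primes h1 h2).2 hne
  have hdvd : q1 * q2 ∣ sh a p := hcop.mul_dvd_of_dvd_of_dvd d1 d2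
  have hm : q1 * q2 ≤ p + 1 := (Nat.le_of_dvd hpos hdvd).trans hle
  rcases lt_or_gt_of_ne hne with h | h
  · have := D2_lt p q1 q2 h1.two_le l1 h
    omega
  · have := D2_lt p q2 q1 h2.two_le l2 h
    rw [mul_comm] at this
    omega

theorem le_of_big (a : Bool) (p : ℕ) (hp : p.Prime) (q : ℕ) (hq : q.Prime) (d : q ∣ sh a p) (X : ℕ)
    (hX : 3 ≤ X) (hpX : p ≤ X) : q ≤ X := by
  have hp2 := hp.two_le
  cases a with
  | true =>
    simp only [sh] at d
    have : q ≤ p - 1 := Nat.le_of_dvd (by omega) (by simpa using d)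
    omega
  | false =>
    have d' : q ∣ p + 1 := by simpa [sh] using d
    have h1 : q ≤ p + 1 := Nat.le_of_dvd (by omega) d'
    rcases Nat.lt_or_ge q (p + 1) with h | h
    · omega
    · have hqp : q = p + 1 := by omega
      rcases hp.eq_two_or_odd' with h3 | h3
      · omega
      · have h4 : Even (p + 1) := h3.add_one
        rw [← hqp] at h4
        have h5 := (hq.even_iff).1 h4
        omega

end Pool.Agent.Lib.MP_5deb1d_nt
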