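import Mathlib
import Pool.Agent.Lib.MP_5deb1d_nt.D0
import Pool.Agent.Lib.MP_42948a_nt.SV.B1

/-!
JOB M1. Mertens' second theorem, `∑_{p ≤ X} 1/p = log log X + O(1)`. PROOF: `mertA` in `Pool/Agent/Lib/MP_42948a_nt/SV/B1.lean`
(`|∑_{p ∈ Pri u v} 1/p - log(log v/log u)| ≤ C/log u`, take `u = 2`) or `Al_asymp` in `SV/D1.lean`. (Or: partial summation from `∑_{d ≤ N} Λ(d)/d = log N + O(1)`, which is `sum_vM_le`, `le_sum_vM` in
`Pool/Agent/Lib/MP_2c5684_nt/Mertens.lean` (`vM n` is `Λ n`), with the weight `h(n) = 1/log n`; the proper prime powers contribute `O(1)` (`∑_{n not prime} Λ(n)/(n log n) < ∞`, e.g. `pp_tail` with `Q = 2`,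
or `log p/(p (p-1))`).) Any constant. Second statement: `∑_{p} 1/(p log p) < ∞`, e.g. dyadic with `card_PB` (`∑_{p ∈ PB(2^j)} 1/(p log p) ≤ 4/(j log 2)²`).
-/

set_option autoImplicit false

open Finset
open ArithmeticFunction (vonMangoldt)

namespace Pool.Agent.Lib.MP_5deb1d_nt

theorem mertens2 : ∃ C : ℝ, 0 < C ∧ ∀ X : ℕ, 3 ≤ X →
    |∑ p ∈ Pr X, 1 / (p : ℝ) - Real.log (Real.log X)| ≤ C := by
  obtain ⟨C, hC0, hC⟩ := Pool.Agent.Lib.MP_42948a_nt.SV.mertA
  have hl2 : 0 < Real.log 2 := Real.log_pos (by norm_num)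
  have hq : 0 ≤ C / Real.log 2 := div_nonneg hC0 hl2.le
  refine ⟨1 / 2 + C / Real.log 2 + |Real.log (Real.log 2)|,
    by have := abs_nonneg (Real.log (Real.log 2)); linarith, fun X hX => ?_⟩
  have hX' : (2 : ℝ) ≤ (X : ℝ) := by exact_mod_cast (by omega : 2 ≤ X)
  have h1 := hC 2 X le_rfl hX'
  have hlX : 0 < Real.log X := Real.log_pos (by linarith)
  rw [Real.log_div hlX.ne' hl2.ne'] at h1
  have h2 : Pr X = insert 2 (Pool.Agent.Lib.MP_42948a_nt.SV.Pri 2 X) := by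
    ext p
    rw [mem_Pr, mem_insert]
    unfold Pool.Agent.Lib.MP_42948a_nt.SV.Pri
    rw [mem_filter, mem_Ioc, Nat.floor_natCast, Nat.floor_ofNat]
    constructor
    · rintro ⟨hp, hpX⟩
      rcases hp.two_le.eq_or_lt with h | h
      · exact Or.inl h.symm
      · exact Or.inr ⟨⟨h, hpX⟩, hp⟩
    · rintro (rfl | ⟨⟨_, hpX⟩, hp⟩)
      · exact ⟨Nat.prime_two, by omega⟩
      · exact ⟨hp, hpX⟩
  have h3 : (2 : ℕ) ∉ Pool.Agent.Lib.MP_42948a_nt.SV.Pri 2 X := by
    unfold Pool.Agent.Lib.MP_42948a_nt.SV.Pri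
    rw [mem_filter, mem_Ioc, Nat.floor_ofNat]
    rintro ⟨⟨h, _⟩, _⟩
    exact lt_irrefl _ h
  rw [h2, sum_insert h3]
  obtain ⟨h4, h5⟩ := abs_le.1 h1
  have h6 := neg_abs_le (Real.log (Real.log 2))
  have h7 := le_abs_self (Real.log (Real.log 2))
  rw [abs_le]
  push_cast
  constructor <;> linarith

theorem sum_inv_p_log : ∃ C : ℝ, 0 < C ∧ ∀ X : ℕ, ∑ p ∈ Pr X, 1 / ((p : ℝ) * Real.log p) ≤ C := by
  obtain ⟨C, hC0, hC⟩ := Pool.Agent.Lib.MP_42948a_nt.SV.mertB
  have hl2 : 0 < Real.log 2 := Real.log_pos (by norm_num)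
  have hl4 : 0 < Real.log 4 := Real.log_pos (by norm_num)
  have hsum : Summable fun j : ℕ => (Real.log 4 + C) / (Real.log 2) ^ 2 * (1 / (j : ℝ) ^ 2) :=
    (Real.summable_one_div_nat_pow.2 (by norm_num)).mul_left _
  have hnn : ∀ j : ℕ, 0 ≤ (Real.log 4 + C) / (Real.log 2) ^ 2 * (1 / (j : ℝ) ^ 2) := fun j => by
    have : 0 ≤ Real.log 4 + C := by linarith
    positivity
  refine ⟨(∑' j : ℕ, (Real.log 4 + C) / (Real.log 2) ^ 2 * (1 / (j : ℝ) ^ 2)) + 1, ?_, fun X => ?_⟩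
  · have h0 : 0 ≤ ∑' j : ℕ, (Real.log 4 + C) / (Real.log 2) ^ 2 * (1 / (j : ℝ) ^ 2) :=
      tsum_nonneg hnn
    linarith
  have hmaps : ∀ p ∈ Pr X, Nat.log 2 p ∈ range (X + 1) := by
    intro p hp
    rw [mem_range]
    have := Nat.log_le_self 2 p
    have := (mem_Pr.1 hp).2
    omega
  rw [← sum_fiberwise_of_maps_to hmaps]
  have hmain : ∀ j ∈ range (X + 1), ∑ p ∈ (Pr X).filter (fun p => Nat.log 2 p = j),
      1 / ((p : ℝ) * Real.log p) ≤ (Real.log 4 + C) / (Real.log 2) ^ 2 * (1 / (j : ℝ) ^ 2) := by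
    intro j _
    rcases Nat.eq_zero_or_pos j with rfl | hj
    · refine le_of_eq_of_le ?_ (hnn 0)
      refine sum_eq_zero fun p hp => ?_
      rw [mem_filter] at hp
      have hp2 := (mem_Pr.1 hp.1).1.two_le
      have h1 : 0 < Nat.log 2 p := Nat.log_pos (by norm_num) hp2
      omega
    · have hjR : (0 : ℝ) < (j : ℝ) := by exact_mod_cast hj
      have h2j : (1 : ℝ) ≤ (2 : ℝ) ^ (j - 1) := one_le_pow₀ (by norm_num)
      have h4 : (2 : ℝ) ^ (j - 1) * 4 = (2 : ℝ) ^ (j + 1) := by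
        obtain ⟨i, rfl⟩ : ∃ i, j = i + 1 := ⟨j - 1, by omega⟩
        rw [Nat.add_sub_cancel, pow_succ, pow_succ]
        ring
      have h5 : (2 : ℝ) ^ (j - 1) ≤ (2 : ℝ) ^ (j + 1) := by
        rw [← h4]; linarith
      have h6 := (abs_le.1 (hC _ _ h2j h5)).2
      have h7 : Real.log ((2 : ℝ) ^ (j + 1)) = Real.log ((2 : ℝ) ^ (j - 1)) + Real.log 4 := by
        rw [← h4, Real.log_mul (by positivity) (by norm_num)]
      rw [h7] at h6
      have h8 : (Pr X).filter (fun p => Nat.log 2 p = j) ⊆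
          Pool.Agent.Lib.MP_42948a_nt.SV.Pri ((2 : ℝ) ^ (j - 1)) ((2 : ℝ) ^ (j + 1)) := by
        intro p hp
        rw [mem_filter] at hp
        have hpp := (mem_Pr.1 hp.1).1
        have hp0 : p ≠ 0 := hpp.ne_zero
        have h9 : 2 ^ j ≤ p := by
          rw [← hp.2]; exact Nat.pow_log_le_self 2 hp0
        have h10 : p < 2 ^ (j + 1) := by
          rw [← hp.2]; exact Nat.lt_pow_succ_log_self (by norm_num) p
        unfold Pool.Agent.Lib.MP_42948a_nt.SV.Pri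
        rw [mem_filter, mem_Ioc]
        have h11 : ⌊(2 : ℝ) ^ (j - 1)⌋₊ = 2 ^ (j - 1) := by
          have : ((2 : ℝ) ^ (j - 1)) = ((2 ^ (j - 1) : ℕ) : ℝ) := by push_cast; rfl
          rw [this, Nat.floor_natCast]
        have h12 : ⌊(2 : ℝ) ^ (j + 1)⌋₊ = 2 ^ (j + 1) := by
          have : ((2 : ℝ) ^ (j + 1)) = ((2 ^ (j + 1) : ℕ) : ℝ) := by push_cast; rfl
          rw [this, Nat.floor_natCast]
        rw [h11, h12]
        refine ⟨⟨lt_of_lt_of_le ?_ h9, h10.le⟩, hpp⟩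
        exact Nat.pow_lt_pow_right (by norm_num) (by omega)
      have h13 : ∀ p ∈ (Pr X).filter (fun p => Nat.log 2 p = j),
          1 / ((p : ℝ) * Real.log p) ≤ 1 / ((j : ℝ) * Real.log 2) ^ 2 * (Real.log p / p) := by
        intro p hp
        rw [mem_filter] at hp
        have hpp := (mem_Pr.1 hp.1).1
        have h9 : 2 ^ j ≤ p := by
          rw [← hp.2]; exact Nat.pow_log_le_self 2 hpp.ne_zero
        have hpR : (0 : ℝ) < (p : ℝ) := by exact_mod_cast hpp.pos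
        have h14 : (j : ℝ) * Real.log 2 ≤ Real.log p := by
          rw [← Real.log_pow]
          exact Real.log_le_log (by positivity) (by exact_mod_cast h9)
        have h15 : 0 < (j : ℝ) * Real.log 2 := mul_pos hjR hl2
        have h16 : 0 < Real.log p := lt_of_lt_of_le h15 h14
        have h17 : 1 / ((p : ℝ) * Real.log p) = 1 / (Real.log p) ^ 2 * (Real.log p / p) := by
          field_simp
        rw [h17]
        refine mul_le_mul_of_nonneg_right ?_ (by positivity)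
        exact one_div_le_one_div_of_le (by positivity) (pow_le_pow_left₀ h15.le h14 2)
      calc ∑ p ∈ (Pr X).filter (fun p => Nat.log 2 p = j), 1 / ((p : ℝ) * Real.log p)
          ≤ ∑ p ∈ (Pr X).filter (fun p => Nat.log 2 p = j),
              1 / ((j : ℝ) * Real.log 2) ^ 2 * (Real.log p / p) := sum_le_sum h13
        _ = 1 / ((j : ℝ) * Real.log 2) ^ 2 *
              ∑ p ∈ (Pr X).filter (fun p => Nat.log 2 p = j), Real.log p / p := by rw [mul_sum]
        _ ≤ 1 / ((j : ℝ) * Real.log 2) ^ 2 *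
              ∑ p ∈ Pool.Agent.Lib.MP_42948a_nt.SV.Pri ((2 : ℝ) ^ (j - 1)) ((2 : ℝ) ^ (j + 1)),
                Real.log p / p := by
            refine mul_le_mul_of_nonneg_left ?_ (by positivity)
            refine sum_le_sum_of_subset_of_nonneg h8 fun p _ _ => ?_
            exact div_nonneg (Real.log_natCast_nonneg p) (Nat.cast_nonneg p)
        _ ≤ 1 / ((j : ℝ) * Real.log 2) ^ 2 * (Real.log 4 + C) := by
            refine mul_le_mul_of_nonneg_left ?_ (by positivity)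
            linarith
        _ = (Real.log 4 + C) / (Real.log 2) ^ 2 * (1 / (j : ℝ) ^ 2) := by
            field_simp
  calc _ ≤ ∑ j ∈ range (X + 1), (Real.log 4 + C) / (Real.log 2) ^ 2 * (1 / (j : ℝ) ^ 2) :=
        sum_le_sum hmain
    _ ≤ ∑' j : ℕ, (Real.log 4 + C) / (Real.log 2) ^ 2 * (1 / (j : ℝ) ^ 2) :=
        hsum.sum_le_tsum _ (fun j _ => hnn j)
    _ ≤ _ := by linarith

end Pool.Agent.Lib.MP_5deb1d_nt
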