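import Mathlib
import Pool.Agent.Lib.MP_5deb1d_nt.D2
import Pool.Agent.Lib.MP_5deb1d_nt.M1

/-!
JOB D3. Double counting. PROOF: `cl_eq`; exchange the sums: `∑_{q ≤ X} ∑_{p ≤ q²} cl a q p/p = ∑_{p} (1/p) #{q ≤ X prime : q ∣ sh a p, p ≤ q²}`; a prime is never a square, so `p ≤ q²` is `p < q²`, and
by `uniq` the number is `0` or `1`, it is `1` exactly for `p ∈ A_a` with `q(p) ≤ X`. For `p ≤ X` this is automatic (`le_of_big`), which gives `≥ SS a X`; the `p > X` counted satisfy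
`p < q² ≤ X²`, and `∑_{X < p ≤ X²} 1/p ≤ log 2 + 2 C` (`mertens2`).
-/

set_option autoImplicit false

open Finset
open ArithmeticFunction (vonMangoldt)

namespace Pool.Agent.Lib.MP_5deb1d_nt

/-- the number of large prime divisors `≤ X` -/
private noncomputable def D3_c (a : Bool) (X p : ℕ) : ℝ :=
  ∑ q ∈ Pr X, if q ∣ sh a p ∧ p < q ^ 2 then (1 : ℝ) else 0

private lemma D3_c_eq (a : Bool) (X p : ℕ) :
    D3_c a X p = (((Pr X).filter (fun q => q ∣ sh a p ∧ p < q ^ 2)).card : ℝ) := by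
  unfold D3_c
  rw [Finset.sum_boole]

private lemma D3_c_nonneg (a : Bool) (X p : ℕ) : 0 ≤ D3_c a X p := by
  rw [D3_c_eq]
  exact Nat.cast_nonneg _

private lemma D3_c_le_one (a : Bool) (X p : ℕ) (hp : p.Prime) : D3_c a X p ≤ 1 := by
  rw [D3_c_eq]
  have h : ((Pr X).filter (fun q => q ∣ sh a p ∧ p < q ^ 2)).card ≤ 1 := by
    rw [Finset.card_le_one]
    intro q1 h1 q2 h2
    rw [mem_filter, mem_Pr] at h1 h2
    exact uniq a p hp q1 q2 h1.1.1 h2.1.1 h1.2.1 h2.2.1 h1.2.2 h2.2.2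
  exact_mod_cast h

open Classical in
private lemma D3_c_of_le (a : Bool) (X p : ℕ) (hX : 3 ≤ X) (hp : p.Prime) (hpX : p ≤ X) :
    D3_c a X p = if Ax a p then 1 else 0 := by
  split_ifs with h
  · refine le_antisymm (D3_c_le_one a X p hp) ?_
    rw [D3_c_eq]
    obtain ⟨q, hq, hd, hl⟩ := h
    have h1 : 1 ≤ ((Pr X).filter (fun q => q ∣ sh a p ∧ p < q ^ 2)).card := by
      rw [Nat.one_le_iff_ne_zero, Finset.card_ne_zero]
      exact ⟨q, by
        rw [mem_filter, mem_Pr]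
        exact ⟨⟨hq, le_of_big a p hp q hq hd X hX hpX⟩, hd, hl⟩⟩
    exact_mod_cast h1
  · unfold D3_c
    refine Finset.sum_eq_zero fun q hq => ?_
    rw [if_neg]
    rintro ⟨hd, hl⟩
    exact h ⟨q, (mem_Pr.1 hq).1, hd, hl⟩

private lemma D3_mono {X Y : ℕ} (h : X ≤ Y) : Pr X ⊆ Pr Y := by
  intro p hp
  rw [mem_Pr] at hp ⊢
  exact ⟨hp.1, hp.2.trans h⟩

private lemma D3_swap (a : Bool) (X : ℕ) :
    ∑ q ∈ Pr X, ∑ p ∈ Pr (q ^ 2), cl a q p / p = ∑ p ∈ Pr (X ^ 2), D3_c a X p / p := by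
  have h1 : ∀ q ∈ Pr X, ∑ p ∈ Pr (q ^ 2), cl a q p / p =
      ∑ p ∈ Pr (X ^ 2), (if q ∣ sh a p ∧ p < q ^ 2 then (1 : ℝ) else 0) / p := by
    intro q hq
    rw [mem_Pr] at hq
    have hsub : Pr (q ^ 2) ⊆ Pr (X ^ 2) := D3_mono (Nat.pow_le_pow_left hq.2 2)
    rw [← Finset.sum_subset hsub]
    · refine Finset.sum_congr rfl fun p hp => ?_
      rw [mem_Pr] at hp
      have hlt : p < q ^ 2 := by
        refine lt_of_le_of_ne hp.2 fun h => ?_
        rw [h] at hp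
        exact (Nat.Prime.not_prime_pow (le_refl 2)) hp.1
      rw [cl_eq a q p hp.1.one_lt.le]
      by_cases hd : q ∣ sh a p
      · rw [if_pos hd, if_pos ⟨hd, hlt⟩]
      · rw [if_neg hd, if_neg (fun h => hd h.1)]
    · intro p hp hp2
      rw [if_neg, zero_div]
      rintro ⟨_, hlt⟩
      exact hp2 (mem_Pr.2 ⟨(mem_Pr.1 hp).1, hlt.le⟩)
  rw [Finset.sum_congr rfl h1, Finset.sum_comm]
  refine Finset.sum_congr rfl fun p _ => ?_
  unfold D3_c
  rw [Finset.sum_div]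

theorem dcount : ∃ C : ℝ, 0 < C ∧ ∀ a : Bool, ∀ X : ℕ, 3 ≤ X →
    |∑ q ∈ Pr X, ∑ p ∈ Pr (q ^ 2), cl a q p / p - SS a X| ≤ C := by
  classical
  obtain ⟨C, hC, hM⟩ := mertens2
  refine ⟨1 + 2 * C, by positivity, fun a X hX => ?_⟩
  have hX2 : 3 ≤ X ^ 2 := by nlinarith
  have hle : X ≤ X ^ 2 := by nlinarith
  have hsub := D3_mono hle
  rw [D3_swap, ← Finset.sum_sdiff hsub]
  have hS : ∑ p ∈ Pr X, D3_c a X p / p = SS a X := by
    unfold SS
    rw [Finset.sum_filter]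
    refine Finset.sum_congr rfl fun p hp => ?_
    rw [mem_Pr] at hp
    rw [D3_c_of_le a X p hX hp.1 hp.2]
    split_ifs <;> simp
  rw [hS, add_sub_cancel_right]
  have h0 : 0 ≤ ∑ p ∈ Pr (X ^ 2) \ Pr X, D3_c a X p / p :=
    Finset.sum_nonneg fun p _ => div_nonneg (D3_c_nonneg a X p) (Nat.cast_nonneg p)
  rw [abs_of_nonneg h0]
  have h1 : ∑ p ∈ Pr (X ^ 2) \ Pr X, D3_c a X p / p ≤ ∑ p ∈ Pr (X ^ 2) \ Pr X, 1 / (p : ℝ) := by
    refine Finset.sum_le_sum fun p hp => ?_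
    rw [mem_sdiff, mem_Pr] at hp
    exact div_le_div_of_nonneg_right (D3_c_le_one a X p hp.1.1) (Nat.cast_nonneg p)
  have h2 := Finset.sum_sdiff (f := fun p : ℕ => 1 / (p : ℝ)) hsub
  have h3 := (abs_le.1 (hM (X ^ 2) hX2)).2
  have h4 := (abs_le.1 (hM X hX)).1
  have hXr : (3 : ℝ) ≤ X := by exact_mod_cast hX
  have hlog : 0 < Real.log X := Real.log_pos (by linarith)
  have h5 : Real.log (Real.log ((X ^ 2 : ℕ) : ℝ)) = Real.log 2 + Real.log (Real.log X) := by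
    rw [Nat.cast_pow, Real.log_pow, Nat.cast_ofNat, Real.log_mul two_ne_zero hlog.ne']
  have h6 : Real.log 2 ≤ 1 := by
    have := Real.log_two_lt_d9
    linarith
  linarith

end Pool.Agent.Lib.MP_5deb1d_nt
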