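import Mathlib
import Pool.Agent.Lib.MP_5deb1d_nt.D1
import Pool.Agent.Lib.MP_5deb1d_nt.D3

/-!
JOB D4. `∑_{q ≤ X} S1 q/q = (SS true X - SS false X)/2 + O(1)`: `S1 q/q = (1/2)(1 - 1/q) ∑_{p ≤ q²} eps q p/p`, `dc_err` for the part `1/q`, `dcount` for both classes. Second statement: `|S1 q|/q ≤ (1/2) ∑_{p ≤ q²} (cl true q p + cl false q p)/p` (`eps_abs_le`, `(q-1)/q ≤ 1`) and `dcount`.
-/

set_option autoImplicit false

open Finset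
open ArithmeticFunction (vonMangoldt)

namespace Pool.Agent.Lib.MP_5deb1d_nt

private lemma D4_S1 {q : ℕ} (hq : q.Prime) : S1 q / q = (∑ p ∈ Pr (q ^ 2), eps q p / p) / 2 -
    1 / 2 * (1 / (q : ℝ) * ∑ p ∈ Pr (q ^ 2), eps q p / p) := by
  have h0 : (q : ℝ) ≠ 0 := by exact_mod_cast hq.ne_zero
  unfold S1
  field_simp

private lemma D4_sum (q : ℕ) : ∑ p ∈ Pr (q ^ 2), eps q p / (p : ℝ) =
    ∑ p ∈ Pr (q ^ 2), cl true q p / (p : ℝ) - ∑ p ∈ Pr (q ^ 2), cl false q p / (p : ℝ) := by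
  rw [← Finset.sum_sub_distrib]
  refine Finset.sum_congr rfl fun p _ => ?_
  unfold eps
  ring

private lemma D4_abs (q : ℕ) : |∑ p ∈ Pr (q ^ 2), eps q p / (p : ℝ)| ≤
    ∑ p ∈ Pr (q ^ 2), cl true q p / (p : ℝ) + ∑ p ∈ Pr (q ^ 2), cl false q p / (p : ℝ) := by
  rw [← Finset.sum_add_distrib]
  refine le_trans (Finset.abs_sum_le_sum_abs _ _) (Finset.sum_le_sum fun p _ => ?_)
  rw [abs_div, Nat.abs_cast, ← add_div]
  exact div_le_div_of_nonneg_right (eps_abs_le q p) (Nat.cast_nonneg p)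

theorem sum_S1 : ∃ C : ℝ, 0 < C ∧ ∀ X : ℕ, 3 ≤ X →
    |∑ q ∈ Pr X, S1 q / q - (SS true X - SS false X) / 2| ≤ C := by
  obtain ⟨C1, hC1, h1⟩ := dc_err
  obtain ⟨C2, hC2, h2⟩ := dcount
  refine ⟨C1 + C2, by linarith, fun X hX => ?_⟩
  have e1 : ∑ q ∈ Pr X, S1 q / q = (∑ q ∈ Pr X, ∑ p ∈ Pr (q ^ 2), eps q p / (p : ℝ)) / 2 -
      1 / 2 * ∑ q ∈ Pr X, 1 / (q : ℝ) * ∑ p ∈ Pr (q ^ 2), eps q p / (p : ℝ) := by
    rw [Finset.sum_div, Finset.mul_sum, ← Finset.sum_sub_distrib]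
    exact Finset.sum_congr rfl fun q hq => D4_S1 (mem_Pr.1 hq).1
  have e2 : ∑ q ∈ Pr X, ∑ p ∈ Pr (q ^ 2), eps q p / (p : ℝ) =
      ∑ q ∈ Pr X, ∑ p ∈ Pr (q ^ 2), cl true q p / (p : ℝ) -
        ∑ q ∈ Pr X, ∑ p ∈ Pr (q ^ 2), cl false q p / (p : ℝ) := by
    rw [← Finset.sum_sub_distrib]
    exact Finset.sum_congr rfl fun q _ => D4_sum q
  have e3 : |∑ q ∈ Pr X, 1 / (q : ℝ) * ∑ p ∈ Pr (q ^ 2), eps q p / (p : ℝ)| ≤ C1 := by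
    refine le_trans (le_trans (Finset.abs_sum_le_sum_abs _ _) (Finset.sum_le_sum fun q _ => ?_)) (h1 X)
    rw [abs_mul, abs_of_nonneg (show (0 : ℝ) ≤ 1 / (q : ℝ) by positivity)]
  have h3 := abs_le.1 (h2 true X hX)
  have h4 := abs_le.1 (h2 false X hX)
  have h5 := abs_le.1 e3
  rw [e1, e2, abs_le]
  constructor <;> linarith [h3.1, h3.2, h4.1, h4.2, h5.1, h5.2]

theorem sum_S1_abs : ∃ C : ℝ, 0 < C ∧ ∀ X : ℕ, 3 ≤ X →
    ∑ q ∈ Pr X, |S1 q| / q ≤ (SS true X + SS false X) / 2 + C := by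
  obtain ⟨C2, hC2, h2⟩ := dcount
  refine ⟨C2, hC2, fun X hX => ?_⟩
  have e1 : ∑ q ∈ Pr X, |S1 q| / q ≤ ∑ q ∈ Pr X, (∑ p ∈ Pr (q ^ 2), cl true q p / (p : ℝ) +
      ∑ p ∈ Pr (q ^ 2), cl false q p / (p : ℝ)) / 2 := by
    refine Finset.sum_le_sum fun q hq => ?_
    have hq' : (1 : ℝ) ≤ q := by exact_mod_cast (mem_Pr.1 hq).1.one_lt.le
    have h0 : (0 : ℝ) < q := by linarith
    have h3 := D4_abs q
    have h4 : |S1 q| = ((q : ℝ) - 1) / 2 * |∑ p ∈ Pr (q ^ 2), eps q p / (p : ℝ)| := by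
      unfold S1
      rw [abs_mul, abs_of_nonneg (show (0 : ℝ) ≤ ((q : ℝ) - 1) / 2 by linarith)]
    rw [h4, div_le_iff₀ h0]
    have h5 := abs_nonneg (∑ p ∈ Pr (q ^ 2), eps q p / (p : ℝ))
    nlinarith
  rw [← Finset.sum_div, Finset.sum_add_distrib] at e1
  have h3 := abs_le.1 (h2 true X hX)
  have h4 := abs_le.1 (h2 false X hX)
  linarith [h3.1, h3.2, h4.1, h4.2]

end Pool.Agent.Lib.MP_5deb1d_nt
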