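import Mathlib
import Pool.Agent.Lib.MP_5deb1d_nt.D0

/-!
JOB DY. Dyadic summation. PROOF. Given `ε`, use `h (ε/100)` or so with `Q0 ≥ 3`. The primes `q ≤ X` with `q > Q1 := 2^j0 ≥ Q0` lie in the sets `PB (2^j)`, `j0 ≤ j`, `2^j ≤ X`;
`∑_{q ∈ PB(2^j)} |g q|/q ≤ 2^(-j) * ε' 2^j/log(2^j) = ε'/(j log 2)`; the sum over `j0 ≤ j ≤ log X/log 2` is `≤ (ε'/log 2)(1 + log(log X/log 2))`. The finitely many `q ≤ Q1` give a constant,
absorbed for large `X` (`log log X → ∞`).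
-/

set_option autoImplicit false

open Finset
open ArithmeticFunction (vonMangoldt)

namespace Pool.Agent.Lib.MP_5deb1d_nt

private theorem DY_block (g : ℕ → ℝ) (ε' : ℝ) (j : ℕ) (hj : 1 ≤ j)
    (h : ∑ q ∈ PB (2 ^ j), |g q| ≤ ε' * (((2 ^ j : ℕ) : ℝ) / Real.log ((2 ^ j : ℕ) : ℝ))) :
    ∑ q ∈ PB (2 ^ j), |g q| / q ≤ ε' / (j * Real.log 2) := by
  have h2 : (0 : ℝ) < ((2 ^ j : ℕ) : ℝ) := by positivity
  have h1 : ∑ q ∈ PB (2 ^ j), |g q| / q ≤ ∑ q ∈ PB (2 ^ j), |g q| / ((2 ^ j : ℕ) : ℝ) := by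
    refine sum_le_sum fun q hq => ?_
    have hq2 := (mem_PB.1 hq).2.1
    have hq3 : ((2 ^ j : ℕ) : ℝ) ≤ (q : ℝ) := by exact_mod_cast hq2.le
    exact div_le_div_of_nonneg_left (abs_nonneg _) h2 hq3
  rw [← sum_div] at h1
  refine h1.trans ?_
  rw [div_le_iff₀ h2]
  refine h.trans (le_of_eq ?_)
  have h3 : Real.log ((2 ^ j : ℕ) : ℝ) = j * Real.log 2 := by
    push_cast
    rw [Real.log_pow]
  have h4 : (0 : ℝ) < Real.log 2 := Real.log_pos (by norm_num)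
  have h5 : (0 : ℝ) < (j : ℝ) := by exact_mod_cast hj
  rw [h3]
  field_simp

private theorem DY_log (j : ℕ) (hj : 1 ≤ j) :
    1 / (j : ℝ) ≤ 2 * (Real.log ((j + 1 : ℕ) : ℝ) - Real.log (j : ℝ)) := by
  have h5 : (1 : ℝ) ≤ (j : ℝ) := by exact_mod_cast hj
  have h6 : (0 : ℝ) < (j : ℝ) := by linarith
  have h7 : (0 : ℝ) < ((j + 1 : ℕ) : ℝ) := by positivity
  have h1 : 1 - (j : ℝ) / ((j + 1 : ℕ) : ℝ) ≤ Real.log (((j + 1 : ℕ) : ℝ) / j) := by
    have := Real.one_sub_inv_le_log_of_pos (x := ((j + 1 : ℕ) : ℝ) / j) (by positivity)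
    rwa [inv_div] at this
  rw [Real.log_div h7.ne' h6.ne'] at h1
  have h2 : 1 / (j : ℝ) ≤ 2 * (1 - (j : ℝ) / ((j + 1 : ℕ) : ℝ)) := by
    push_cast
    rw [div_le_iff₀ h6]
    have h8 : (1 : ℝ) - (j : ℝ) / ((j : ℝ) + 1) = 1 / ((j : ℝ) + 1) := by
      field_simp
      ring
    rw [h8]
    have h9 : 2 * (1 / ((j : ℝ) + 1)) * j = 2 * j / (j + 1) := by ring
    rw [h9, le_div_iff₀ (by linarith)]
    linarith
  linarith

private theorem DY_step (f : ℕ → ℝ) (m : ℕ) :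
    ∑ q ∈ Pr (2 ^ (m + 1)), f q = ∑ q ∈ Pr (2 ^ m), f q + ∑ q ∈ PB (2 ^ m), f q := by
  have h1 : Pr (2 ^ (m + 1)) = Pr (2 ^ m) ∪ PB (2 ^ m) := by
    ext q
    rw [mem_union, mem_Pr, mem_Pr, mem_PB, pow_succ]
    constructor
    · rintro ⟨a, b⟩
      rcases Nat.lt_or_ge (2 ^ m) q with hq | hq
      · exact Or.inr ⟨a, hq, by omega⟩
      · exact Or.inl ⟨a, hq⟩
    · rintro (⟨a, b⟩ | ⟨a, b, c⟩)
      · exact ⟨a, by omega⟩
      · exact ⟨a, by omega⟩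
  have h2 : Disjoint (Pr (2 ^ m)) (PB (2 ^ m)) := by
    rw [Finset.disjoint_left]
    intro q hq hq2
    have h3 := (mem_Pr.1 hq).2
    have h4 := (mem_PB.1 hq2).2.1
    omega
  rw [h1, sum_union h2]

private theorem DY_ind (g : ℕ → ℝ) (ε' : ℝ) (he : 0 < ε') (j0 : ℕ) (hj0 : 1 ≤ j0)
    (h : ∀ j : ℕ, j0 ≤ j →
      ∑ q ∈ PB (2 ^ j), |g q| ≤ ε' * (((2 ^ j : ℕ) : ℝ) / Real.log ((2 ^ j : ℕ) : ℝ)))
    (m : ℕ) (hm : j0 ≤ m) :
    ∑ q ∈ Pr (2 ^ m), |g q| / q ≤ ∑ q ∈ Pr (2 ^ j0), |g q| / q +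
      2 * ε' / Real.log 2 * Real.log m := by
  have h4 : (0 : ℝ) < Real.log 2 := Real.log_pos (by norm_num)
  induction m, hm using Nat.le_induction with
  | base =>
    have h1 : 0 ≤ Real.log (j0 : ℝ) := Real.log_nonneg (by exact_mod_cast hj0)
    have h2 : 0 ≤ 2 * ε' / Real.log 2 * Real.log j0 := by positivity
    linarith
  | succ m hm ih =>
    rw [DY_step]
    have h1 := DY_block g ε' m (hj0.trans hm) (h m hm)
    have h2 := DY_log m (hj0.trans hm)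
    have h5 : (0 : ℝ) < (m : ℝ) := by exact_mod_cast (hj0.trans hm)
    have h3 : ε' / (m * Real.log 2) ≤
        2 * ε' / Real.log 2 * (Real.log ((m + 1 : ℕ) : ℝ) - Real.log (m : ℝ)) := by
      have h6 : ε' / (m * Real.log 2) = ε' / Real.log 2 * (1 / (m : ℝ)) := by
        field_simp
      have h7 : 2 * ε' / Real.log 2 * (Real.log ((m + 1 : ℕ) : ℝ) - Real.log (m : ℝ)) =
          ε' / Real.log 2 * (2 * (Real.log ((m + 1 : ℕ) : ℝ) - Real.log (m : ℝ))) := by ring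
      rw [h6, h7]
      exact mul_le_mul_of_nonneg_left h2 (by positivity)
    have h8 : 2 * ε' / Real.log 2 * (Real.log ((m + 1 : ℕ) : ℝ) - Real.log (m : ℝ)) =
        2 * ε' / Real.log 2 * Real.log ((m + 1 : ℕ) : ℝ) -
          2 * ε' / Real.log 2 * Real.log (m : ℝ) := by ring
    linarith

theorem dyadic_o (g : ℕ → ℝ)
    (h : ∀ ε : ℝ, 0 < ε → ∃ Q0 : ℕ, ∀ Q : ℕ, Q0 ≤ Q → ∑ q ∈ PB Q, |g q| ≤ ε * (Q / Real.log Q)) :
    ∀ ε : ℝ, 0 < ε → ∃ X0 : ℕ, ∀ X : ℕ, X0 ≤ X → ∑ q ∈ Pr X, |g q| / q ≤ ε * Real.log (Real.log X) := by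
  intro ε hε
  have h4 : (0 : ℝ) < Real.log 2 := Real.log_pos (by norm_num)
  have he' : 0 < ε * Real.log 2 / 4 := by positivity
  obtain ⟨Q0, hQ0⟩ := h (ε * Real.log 2 / 4) he'
  set j0 : ℕ := max Q0 1 with hj0
  have hj1 : 1 ≤ j0 := le_max_right _ _
  have hind := DY_ind g (ε * Real.log 2 / 4) he' j0 hj1 (fun j hj => by
    refine hQ0 (2 ^ j) ?_
    exact ((le_max_left _ _).trans hj).trans (Nat.lt_two_pow_self).le)
  set C0 : ℝ := ∑ q ∈ Pr (2 ^ j0), |g q| / q with hC0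
  have hcoef : 2 * (ε * Real.log 2 / 4) / Real.log 2 = ε / 2 := by
    field_simp
    ring
  rw [hcoef] at hind
  have ht : Filter.Tendsto (fun X : ℕ => Real.log (Real.log (X : ℝ))) Filter.atTop Filter.atTop :=
    Real.tendsto_log_atTop.comp (Real.tendsto_log_atTop.comp tendsto_natCast_atTop_atTop)
  obtain ⟨X1, hX1⟩ := Filter.eventually_atTop.1
    (ht.eventually_ge_atTop (2 / ε * (C0 + ε / 2 * Real.log 3)))
  refine ⟨max X1 (max 2 (2 ^ j0)), fun X hX => ?_⟩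
  have hX1' : X1 ≤ X := (le_max_left _ _).trans hX
  have hX2 : 2 ≤ X := ((le_max_left _ _).trans (le_max_right _ _)).trans hX
  have hX3 : 2 ^ j0 ≤ X := ((le_max_right _ _).trans (le_max_right _ _)).trans hX
  have hX0 : X ≠ 0 := by omega
  set m : ℕ := Nat.log 2 X + 1 with hm
  have hmX : X ≤ 2 ^ m := (Nat.lt_pow_succ_log_self (by norm_num) X).le
  have hjm : j0 ≤ m := by
    have := Nat.le_log_of_pow_le (by norm_num : 1 < 2) hX3
    omega
  have h1 : ∑ q ∈ Pr X, |g q| / q ≤ ∑ q ∈ Pr (2 ^ m), |g q| / q := by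
    refine sum_le_sum_of_subset_of_nonneg ?_ ?_
    · intro q hq
      rw [mem_Pr] at hq ⊢
      exact ⟨hq.1, hq.2.trans hmX⟩
    · intro q _ _
      exact div_nonneg (abs_nonneg _) (Nat.cast_nonneg _)
  have h2 := hind m hjm
  have hlX : Real.log 2 ≤ Real.log X :=
    Real.log_le_log (by norm_num) (by exact_mod_cast hX2)
  have hlX0 : 0 < Real.log X := lt_of_lt_of_le h4 hlX
  have h3 : (m : ℝ) ≤ 3 * Real.log X := by
    have e1 : ((2 ^ Nat.log 2 X : ℕ) : ℝ) ≤ (X : ℝ) := by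
      exact_mod_cast Nat.pow_log_le_self 2 hX0
    have e2 : (Nat.log 2 X : ℝ) * Real.log 2 ≤ Real.log X := by
      rw [← Real.log_pow]
      refine Real.log_le_log (by positivity) ?_
      exact_mod_cast e1
    have e3 : (m : ℝ) = (Nat.log 2 X : ℝ) + 1 := by
      rw [hm]
      push_cast
      ring
    have e4 : (m : ℝ) * Real.log 2 ≤ 2 * Real.log X := by
      rw [e3, add_mul, one_mul]
      linarith
    have e5 : (2 / 3 : ℝ) ≤ Real.log 2 := by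
      have := Real.log_two_gt_d9
      linarith
    have e6 : (0 : ℝ) ≤ (m : ℝ) := Nat.cast_nonneg _
    have e7 : (m : ℝ) * (2 / 3) ≤ (m : ℝ) * Real.log 2 := mul_le_mul_of_nonneg_left e5 e6
    linarith
  have hm1 : (1 : ℝ) ≤ (m : ℝ) := by
    have : 1 ≤ m := by omega
    exact_mod_cast this
  have h5 : Real.log m ≤ Real.log 3 + Real.log (Real.log X) := by
    rw [← Real.log_mul (by norm_num) hlX0.ne']
    exact Real.log_le_log (by linarith) h3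
  have h6 := hX1 X hX1'
  have h7 : C0 + ε / 2 * Real.log 3 ≤ ε / 2 * Real.log (Real.log X) := by
    have e1 : ε / 2 * (2 / ε * (C0 + ε / 2 * Real.log 3)) = C0 + ε / 2 * Real.log 3 := by
      field_simp
    rw [← e1]
    exact mul_le_mul_of_nonneg_left h6 (by positivity)
  have h8 : ε / 2 * Real.log m ≤ ε / 2 * (Real.log 3 + Real.log (Real.log X)) :=
    mul_le_mul_of_nonneg_left h5 (by positivity)
  have h9 : ε / 2 * (Real.log 3 + Real.log (Real.log X)) =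
      ε / 2 * Real.log 3 + ε / 2 * Real.log (Real.log X) := by ring
  linarith

end Pool.Agent.Lib.MP_5deb1d_nt
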