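import Mathlib
import Pool.Agent.Lib.MP_5deb1d_nt.D2
import Pool.Agent.Lib.MP_5deb1d_nt.M1

/-!
JOB E1. The lower bound for `SS` reduced to two sums. PROOF: let `p ≥ 3` be prime, `m = sh a p ≥ 2`. `log m = ∑_{n ∣ m} Λ n` (`ArithmeticFunction.vonMangoldt_sum`)
`= ∑_{q ∣ m, q prime} log q + ∑_{n ∣ m, n not prime} Λ n`. By `uniq` at most one prime `q ∣ m` has `p < q²`, and then `p ∈ A_a` and `log q ≤ log(p+1)`. So
`log m ≤ [p ∈ A_a] log(p+1) + ∑_{q ∣ m prime, q² ≤ p} log q + ∑_{n ∣ m, n not prime} Λ n`. Divide by `p log p` and sum over `p ∈ Pr X`: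
`log m/(p log p) ≥ 1/p - (2/p)/(p log p)`-type (`log p - log(p-1) ≤ 2/p`), `log(p+1)/(p log p) ≤ 1/p + 1/(p² log p)`, `mertens2` for `∑ 1/p`. The prime `p = 2` is `O(1)`.
-/

set_option autoImplicit false

open Finset
open ArithmeticFunction (vonMangoldt)

namespace Pool.Agent.Lib.MP_5deb1d_nt

private lemma E1_sh_pos (a : Bool) (p : ℕ) (hp : p.Prime) : 0 < sh a p := by
  cases a
  · simp [sh]
  · have := hp.two_le
    simp only [sh, cond_true]
    omega

private lemma E1_sh_le (a : Bool) (p : ℕ) : sh a p ≤ p + 1 := by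
  cases a
  · simp [sh]
  · simp only [sh, cond_true]
    omega

open Classical in
/-- The large prime divisor contributes at most `log (p + 1)`, and only if `p ∈ A_a`. -/
private lemma E1_big (a : Bool) (p : ℕ) (hp : p.Prime) :
    ∑ q ∈ (sh a p).divisors.filter (fun q => q.Prime ∧ ¬ q ^ 2 ≤ p), Real.log q ≤
      if Ax a p then Real.log ((p : ℝ) + 1) else 0 := by
  by_cases hA : Ax a p
  · rw [if_pos hA]
    obtain ⟨q0, h0, h1, h2⟩ := hA
    have hsub : (sh a p).divisors.filter (fun q => q.Prime ∧ ¬ q ^ 2 ≤ p) ⊆ {q0} := by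
      intro q hq
      rw [mem_filter, Nat.mem_divisors] at hq
      obtain ⟨⟨hq1, _⟩, hq2, hq3⟩ := hq
      rw [mem_singleton]
      exact uniq a p hp q q0 hq2 h0 hq1 h1 (not_le.1 hq3) h2
    calc ∑ q ∈ (sh a p).divisors.filter (fun q => q.Prime ∧ ¬ q ^ 2 ≤ p), Real.log q
        ≤ ∑ q ∈ ({q0} : Finset ℕ), Real.log q :=
          sum_le_sum_of_subset_of_nonneg hsub fun i _ _ => Real.log_natCast_nonneg i
      _ = Real.log q0 := sum_singleton _ _
      _ ≤ Real.log ((p : ℝ) + 1) := by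
          have h3 : q0 ≤ p + 1 := (Nat.le_of_dvd (E1_sh_pos a p hp) h1).trans (E1_sh_le a p)
          refine Real.log_le_log (by exact_mod_cast h0.pos) ?_
          exact_mod_cast h3
  · rw [if_neg hA]
    refine (sum_eq_zero fun q hq => ?_).le
    exfalso
    rw [mem_filter, Nat.mem_divisors] at hq
    exact hA ⟨q, hq.2.1, hq.1.1, not_le.1 hq.2.2⟩

open Classical in
/-- `log (p ∓ 1)` as a sum over the divisors. -/
private lemma E1_log (a : Bool) (p : ℕ) (hp : p.Prime) :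
    Real.log (sh a p : ℕ) ≤ (if Ax a p then Real.log ((p : ℝ) + 1) else 0) +
      (∑ q ∈ (sh a p).divisors.filter (fun q => q.Prime ∧ q ^ 2 ≤ p), Real.log q) +
      (∑ n ∈ (sh a p).divisors.filter (fun n => ¬ n.Prime), vonMangoldt n) := by
  have h1 := E1_big a p hp
  have h2 : Real.log (sh a p : ℕ) = ∑ n ∈ (sh a p).divisors, vonMangoldt n :=
    (ArithmeticFunction.vonMangoldt_sum).symm
  have h3 : ∑ n ∈ (sh a p).divisors, vonMangoldt n =
      ∑ n ∈ (sh a p).divisors.filter (fun n => n.Prime), vonMangoldt n +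
        ∑ n ∈ (sh a p).divisors.filter (fun n => ¬ n.Prime), vonMangoldt n :=
    (sum_filter_add_sum_filter_not _ _ _).symm
  have h4 : ∑ n ∈ (sh a p).divisors.filter (fun n => n.Prime), vonMangoldt n =
      ∑ n ∈ (sh a p).divisors.filter (fun n => n.Prime), Real.log n :=
    sum_congr rfl fun n hn => ArithmeticFunction.vonMangoldt_apply_prime (mem_filter.1 hn).2
  have h5 : ∑ n ∈ (sh a p).divisors.filter (fun n => n.Prime), Real.log n =
      (∑ q ∈ (sh a p).divisors.filter (fun q => q.Prime ∧ q ^ 2 ≤ p), Real.log q) +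
      (∑ q ∈ (sh a p).divisors.filter (fun q => q.Prime ∧ ¬ q ^ 2 ≤ p), Real.log q) := by
    rw [← sum_filter_add_sum_filter_not ((sh a p).divisors.filter (fun n => n.Prime))
      (fun q => q ^ 2 ≤ p), filter_filter, filter_filter]
  rw [h2, h3, h4, h5]
  linarith

open Classical in
/-- The inequality for one prime. -/
private lemma E1_pt (a : Bool) (p : ℕ) (hp : p.Prime) :
    1 / (p : ℝ) - 3 * (1 / ((p : ℝ) * Real.log p)) -
      (∑ q ∈ (sh a p).divisors.filter (fun q => q.Prime ∧ q ^ 2 ≤ p), Real.log q) /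
        ((p : ℝ) * Real.log p) -
      (∑ n ∈ (sh a p).divisors.filter (fun n => ¬ n.Prime), vonMangoldt n) /
        ((p : ℝ) * Real.log p) ≤
    if Ax a p then 1 / (p : ℝ) else 0 := by
  have hp2 : (2 : ℝ) ≤ p := by exact_mod_cast hp.two_le
  have hp0 : (0 : ℝ) < p := by linarith
  have hl : 0 < Real.log p := Real.log_pos (by linarith)
  have hpl : 0 < (p : ℝ) * Real.log p := mul_pos hp0 hl
  have h1 := E1_log a p hp
  set T1 := ∑ q ∈ (sh a p).divisors.filter (fun q => q.Prime ∧ q ^ 2 ≤ p), Real.log q with hT1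
  set T2 := ∑ n ∈ (sh a p).divisors.filter (fun n => ¬ n.Prime), vonMangoldt n with hT2
  -- the logarithms
  have h2 : Real.log p - 2 ≤ Real.log (sh a p : ℕ) := by
    cases a
    · have h3 : Real.log p ≤ Real.log (sh false p : ℕ) := by
        refine Real.log_le_log hp0 ?_
        simp [sh]
      linarith
    · have h3 : ((sh true p : ℕ) : ℝ) = (p : ℝ) - 1 := by
        simp only [sh, cond_true]
        rw [Nat.cast_sub hp.one_le, Nat.cast_one]
      rw [h3]
      have h4 : Real.log p - Real.log ((p : ℝ) - 1) = Real.log ((p : ℝ) / ((p : ℝ) - 1)) :=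
        (Real.log_div hp0.ne' (by linarith)).symm
      have h5 : Real.log ((p : ℝ) / ((p : ℝ) - 1)) ≤ (p : ℝ) / ((p : ℝ) - 1) - 1 :=
        Real.log_le_sub_one_of_pos (div_pos hp0 (by linarith))
      have h6 : (p : ℝ) / ((p : ℝ) - 1) ≤ 2 := by
        rw [div_le_iff₀ (by linarith)]
        linarith
      linarith
  have h3 : Real.log ((p : ℝ) + 1) ≤ Real.log p + 1 := by
    have h4 : Real.log ((p : ℝ) + 1) - Real.log p = Real.log (((p : ℝ) + 1) / (p : ℝ)) :=
      (Real.log_div (by linarith) hp0.ne').symm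
    have h5 : Real.log (((p : ℝ) + 1) / (p : ℝ)) ≤ ((p : ℝ) + 1) / (p : ℝ) - 1 :=
      Real.log_le_sub_one_of_pos (div_pos (by linarith) hp0)
    have h6 : ((p : ℝ) + 1) / (p : ℝ) ≤ 2 := by
      rw [div_le_iff₀ hp0]
      linarith
    linarith
  have e1 : 1 / (p : ℝ) = Real.log p / ((p : ℝ) * Real.log p) := by
    rw [mul_comm, div_mul_eq_div_div, div_self hl.ne']
  have h7 : Real.log p - 3 - T1 - T2 ≤ if Ax a p then Real.log p else 0 := by
    split_ifs at h1 ⊢ with hA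
    · linarith
    · linarith
  have h8 := div_le_div_of_nonneg_right h7 hpl.le
  have e2 : (Real.log p - 3 - T1 - T2) / ((p : ℝ) * Real.log p) =
      1 / (p : ℝ) - 3 * (1 / ((p : ℝ) * Real.log p)) - T1 / ((p : ℝ) * Real.log p) -
        T2 / ((p : ℝ) * Real.log p) := by
    rw [e1]
    ring
  rw [e2] at h8
  refine h8.trans (le_of_eq ?_)
  split_ifs with hA
  · exact e1.symm
  · exact zero_div _

theorem low_red : ∃ C : ℝ, 0 < C ∧ ∀ a : Bool, ∀ X : ℕ, 3 ≤ X →
    Real.log (Real.log X) - C -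
      ∑ p ∈ Pr X, (∑ q ∈ (sh a p).divisors.filter (fun q => q.Prime ∧ q ^ 2 ≤ p), Real.log q) / ((p : ℝ) * Real.log p) -
      ∑ p ∈ Pr X, (∑ n ∈ (sh a p).divisors.filter (fun n => ¬ n.Prime), vonMangoldt n) / ((p : ℝ) * Real.log p) ≤
    SS a X := by
  classical
  obtain ⟨C1, hC1, h1⟩ := mertens2
  obtain ⟨C2, hC2, h2⟩ := sum_inv_p_log
  refine ⟨C1 + 3 * C2, by positivity, fun a X hX => ?_⟩
  have h3 := (abs_le.1 (h1 X hX)).1
  have h4 := h2 X
  have h5 : ∑ p ∈ Pr X, (1 / (p : ℝ) - 3 * (1 / ((p : ℝ) * Real.log p)) -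
      (∑ q ∈ (sh a p).divisors.filter (fun q => q.Prime ∧ q ^ 2 ≤ p), Real.log q) /
        ((p : ℝ) * Real.log p) -
      (∑ n ∈ (sh a p).divisors.filter (fun n => ¬ n.Prime), vonMangoldt n) /
        ((p : ℝ) * Real.log p)) ≤ ∑ p ∈ Pr X, if Ax a p then 1 / (p : ℝ) else 0 :=
    sum_le_sum fun p hp => E1_pt a p (mem_Pr.1 hp).1
  have h6 : SS a X = ∑ p ∈ Pr X, if Ax a p then 1 / (p : ℝ) else 0 := by
    unfold SS
    rw [sum_filter]
  rw [sum_sub_distrib, sum_sub_distrib, sum_sub_distrib, ← mul_sum] at h5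
  rw [h6]
  linarith

end Pool.Agent.Lib.MP_5deb1d_nt
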