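import Mathlib
import Pool.Agent.Lib.MP_5deb1d_nt.PS
import Pool.Agent.Lib.MP_5deb1d_nt.M1

/-!
JOB E2. The proper prime powers in E1. PROOF: exchange: `∑_{n not prime} Λ(n) ∑_{p ≤ X, n ∣ sh a p} 1/(p log p)`. For `n ≤ D`: `≤ Λ(n) * C` (`sum_inv_p_log`). For `n > D` (`n ≥ 4`): drop the
primality of `p`: `p = k n ± 1` with `k ≥ 1` (`p = 2`, `a = true` has `sh = 1`, no `n`; fine), `p ≥ k n/2 ≥ 2k`, so the inner sum is `≤ ∑_{k ≤ X} (2/(k n))/log(2k) ≤ (2/n)(log log X + C)` for `X ≥ 3`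
(`1/(k log 2k)`, `k ≥ 2`, telescopes against `log log(k)`...; any constant `C'` in front is allowed: `≤ (C'/n)(log log X + C')`). By `pp_tail` with `Q = D`: `∑_{n > D, not prime} Λ(n)/n ≤ C log D/√D`, which is
`≤ ε/C'` for large `D`.
-/

set_option autoImplicit false

open Finset
open ArithmeticFunction (vonMangoldt)

namespace Pool.Agent.Lib.MP_5deb1d_nt

private theorem E2_step (x : ℝ) (hx : 1 ≤ x) :
    1 / ((x + 1) * Real.log (4 * (x + 1))) ≤ Real.log (Real.log (4 * (x + 1))) - Real.log (Real.log (4 * x)) := by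
  have h0 : 0 < Real.log (4 * x) := Real.log_pos (by linarith)
  have h1 : 0 < Real.log (4 * (x + 1)) := Real.log_pos (by linarith)
  have h2 : 1 / (x + 1) ≤ Real.log (4 * (x + 1)) - Real.log (4 * x) := by
    have h3 := Real.log_le_sub_one_of_pos (show 0 < (4 * x) / (4 * (x + 1)) by positivity)
    rw [Real.log_div (by positivity) (by positivity)] at h3
    have h4 : (4 * x) / (4 * (x + 1)) - 1 = - (1 / (x + 1)) := by
      field_simp
      ring
    rw [h4] at h3
    linarith
  have h5 : Real.log (Real.log (4 * x)) - Real.log (Real.log (4 * (x + 1))) ≤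
      Real.log (4 * x) / Real.log (4 * (x + 1)) - 1 := by
    rw [← Real.log_div h0.ne' h1.ne']
    exact Real.log_le_sub_one_of_pos (div_pos h0 h1)
  have h6 : 1 / ((x + 1) * Real.log (4 * (x + 1))) ≤ 1 - Real.log (4 * x) / Real.log (4 * (x + 1)) := by
    rw [← div_div, div_le_iff₀ h1, sub_mul, div_mul_cancel₀ _ h1.ne', one_mul]
    exact h2
  linarith

private theorem E2_log4 : 1 ≤ Real.log 4 := by
  have h := Real.log_two_gt_d9
  have h2 : Real.log 4 = 2 * Real.log 2 := by
    rw [show (4 : ℝ) = 2 ^ 2 by norm_num, Real.log_pow]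
    norm_num
  linarith

private theorem E2_tel (X : ℕ) : ∑ k ∈ Ioc 0 (X + 1), 1 / ((k : ℝ) * Real.log (4 * k)) ≤
    Real.log (Real.log (4 * ((X : ℝ) + 1))) + 1 := by
  induction X with
  | zero =>
    rw [zero_add, Finset.sum_Ioc_succ_top (le_refl 0), Ioc_self, sum_empty, zero_add, Nat.cast_zero, zero_add]
    have h := E2_log4
    have h1 : 0 ≤ Real.log (Real.log 4) := Real.log_nonneg h
    have h2 : 1 / ((1 : ℝ) * Real.log (4 * 1)) ≤ 1 := by
      rw [one_mul, mul_one, div_le_one (by linarith)]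
      exact h
    rw [Nat.cast_one, mul_one] at *
    linarith
  | succ n ih =>
    rw [Finset.sum_Ioc_succ_top (Nat.zero_le _)]
    have h := E2_step ((n : ℝ) + 1) (by linarith [Nat.cast_nonneg (α := ℝ) n])
    push_cast at *
    linarith

private theorem E2_ll (X : ℕ) (hX : 3 ≤ X) : Real.log (Real.log (4 * (X : ℝ))) ≤ Real.log (Real.log X) + 2 ∧
    0 ≤ Real.log (Real.log X) := by
  have hX' : (3 : ℝ) ≤ X := by exact_mod_cast hX
  have h3 : 1 ≤ Real.log X := by
    rw [Real.le_log_iff_exp_le (by linarith)]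
    linarith [Real.exp_one_lt_d9]
  have h4 : Real.log 4 ≤ 2 := by
    have h := Real.log_two_lt_d9
    have h2 : Real.log 4 = 2 * Real.log 2 := by
      rw [show (4 : ℝ) = 2 ^ 2 by norm_num, Real.log_pow]
      norm_num
    linarith
  refine ⟨?_, Real.log_nonneg h3⟩
  have h5 : Real.log (4 * (X : ℝ)) ≤ 3 * Real.log X := by
    rw [Real.log_mul (by norm_num) (by linarith)]
    linarith
  have h6 : 0 < Real.log (4 * (X : ℝ)) := Real.log_pos (by linarith)
  have h7 : Real.log (Real.log (4 * (X : ℝ))) ≤ Real.log (3 * Real.log X) := Real.log_le_log h6 h5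
  have h9 : Real.log (3 * Real.log X) = Real.log 3 + Real.log (Real.log X) :=
    Real.log_mul (by norm_num) (by linarith)
  rw [h9] at h7
  have h8 : Real.log 3 ≤ 2 := by
    have := Real.log_le_sub_one_of_pos (show (0 : ℝ) < 3 by norm_num)
    linarith
  linarith

private theorem E2_w (a : Bool) (p : ℕ) (h : 4 ≤ sh a p) : 0 < Real.log (sh a p) ∧
    1 / ((p : ℝ) * Real.log p) ≤ 4 / ((sh a p : ℝ) * Real.log (sh a p)) := by
  have hm : (4 : ℝ) ≤ (sh a p : ℝ) := by exact_mod_cast h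
  have h0 : 0 < Real.log (sh a p) := Real.log_pos (by linarith)
  refine ⟨h0, ?_⟩
  have h1 : (sh a p : ℝ) ≤ 2 * p := by
    cases a
    · simp only [sh, cond_false] at *
      push_cast at *
      linarith
    · simp only [sh, cond_true] at *
      rw [Nat.cast_sub (by omega)] at *
      push_cast at *
      linarith
  have h2 : Real.log (sh a p) ≤ 2 * Real.log p := by
    have h3 : (sh a p : ℝ) ≤ (p : ℝ) ^ 2 := by nlinarith
    have h4 := Real.log_le_log (by linarith) h3
    rwa [Real.log_pow, Nat.cast_ofNat] at h4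
  have hp : (0 : ℝ) < p := by linarith
  have hlp : 0 < Real.log p := by linarith
  rw [div_le_div_iff₀ (by positivity) (by positivity), one_mul]
  calc (sh a p : ℝ) * Real.log (sh a p) ≤ (2 * p) * (2 * Real.log p) :=
        mul_le_mul h1 h2 h0.le (by positivity)
    _ = 4 * (p * Real.log p) := by ring

private theorem E2_inner (a : Bool) (X n : ℕ) (hX : 3 ≤ X) (hn : 4 ≤ n) :
    ∑ p ∈ (Pr X).filter (fun p => n ∣ sh a p), 1 / ((p : ℝ) * Real.log p) ≤
      1 / n * (4 * (Real.log (Real.log X) + 3)) := by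
  have hn0 : (4 : ℝ) ≤ n := by exact_mod_cast hn
  have hpos : ∀ p ∈ (Pr X).filter (fun p => n ∣ sh a p), 2 ≤ p ∧ p ≤ X ∧ n ≤ sh a p ∧
      n * (sh a p / n) = sh a p := by
    intro p hp
    rw [mem_filter, mem_Pr] at hp
    obtain ⟨⟨hp1, hp2⟩, hp3⟩ := hp
    refine ⟨hp1.two_le, hp2, Nat.le_of_dvd ?_ hp3, Nat.mul_div_cancel' hp3⟩
    have := hp1.two_le
    cases a
    · simp only [sh, cond_false]
      omega
    · simp only [sh, cond_true]
      omega
  have h1 : ∀ p ∈ (Pr X).filter (fun p => n ∣ sh a p), 1 / ((p : ℝ) * Real.log p) ≤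
      (4 / n) * (1 / (((sh a p / n : ℕ) : ℝ) * Real.log (4 * ((sh a p / n : ℕ) : ℝ)))) := by
    intro p hp
    obtain ⟨h2, h3, h4, h5⟩ := hpos p hp
    obtain ⟨h6, h7⟩ := E2_w a p (le_trans hn h4)
    set k := sh a p / n with hk
    have hk1 : 1 ≤ k := by
      rcases Nat.eq_zero_or_pos k with h | h
      · rw [h, mul_zero] at h5
        omega
      · exact h
    have hk1' : (1 : ℝ) ≤ k := by exact_mod_cast hk1
    have h8 : (sh a p : ℝ) = n * k := by
      rw [← h5]
      push_cast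
      rfl
    have h9 : Real.log (4 * k) ≤ Real.log (sh a p) := by
      apply Real.log_le_log (by linarith)
      rw [h8]
      exact mul_le_mul_of_nonneg_right hn0 (by linarith)
    have h10 : 0 < Real.log (4 * k) := Real.log_pos (by linarith)
    refine le_trans h7 ?_
    rw [div_mul_div_comm, mul_one, h8, ← mul_assoc]
    rw [h8] at h9
    apply div_le_div_of_nonneg_left (by norm_num) (by positivity)
    exact mul_le_mul_of_nonneg_left h9 (by positivity)
  have hinj : Set.InjOn (fun p => sh a p / n) (((Pr X).filter (fun p => n ∣ sh a p) : Finset ℕ) : Set ℕ) := by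
    intro p hp q hq h
    obtain ⟨h2, -, -, h5⟩ := hpos p (by exact_mod_cast hp)
    obtain ⟨h2', -, -, h5'⟩ := hpos q (by exact_mod_cast hq)
    have h' : sh a p / n = sh a q / n := h
    rw [h', h5'] at h5
    cases a
    · simp only [sh, cond_false] at h5
      omega
    · simp only [sh, cond_true] at h5
      omega
  have hLL := E2_ll X hX
  calc ∑ p ∈ (Pr X).filter (fun p => n ∣ sh a p), 1 / ((p : ℝ) * Real.log p)
      ≤ ∑ p ∈ (Pr X).filter (fun p => n ∣ sh a p),
        (4 / n) * (1 / (((sh a p / n : ℕ) : ℝ) * Real.log (4 * ((sh a p / n : ℕ) : ℝ)))) := sum_le_sum h1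
    _ = ∑ k ∈ ((Pr X).filter (fun p => n ∣ sh a p)).image (fun p => sh a p / n),
        (4 / n) * (1 / ((k : ℝ) * Real.log (4 * k))) := by
      rw [sum_image hinj]
    _ ≤ ∑ k ∈ Ioc 0 ((X - 1) + 1), (4 / n) * (1 / ((k : ℝ) * Real.log (4 * k))) := by
      apply sum_le_sum_of_subset_of_nonneg
      · intro k hk
        rw [mem_image] at hk
        obtain ⟨p, hp, rfl⟩ := hk
        obtain ⟨h2, h3, h4, h5⟩ := hpos p hp
        rw [mem_Ioc]
        constructor
        · exact Nat.div_pos h4 (by omega)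
        · have h6 : sh a p ≤ X + 1 := by
            cases a
            · simp only [sh, cond_false]
              omega
            · simp only [sh, cond_true]
              omega
          have h7 : 4 * (sh a p / n) ≤ sh a p := by
            calc 4 * (sh a p / n) ≤ n * (sh a p / n) := Nat.mul_le_mul_right _ hn
              _ = sh a p := h5
          omega
      · intro k hk _
        rw [mem_Ioc] at hk
        have hk1 : (1 : ℝ) ≤ k := by exact_mod_cast hk.1
        have h10 : 0 < Real.log (4 * k) := Real.log_pos (by linarith)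
        positivity
    _ ≤ 1 / n * (4 * (Real.log (Real.log X) + 3)) := by
      rw [← mul_sum]
      have h := E2_tel (X - 1)
      have hX1 : ((X - 1 : ℕ) : ℝ) + 1 = X := by
        rw [Nat.cast_sub (by omega)]
        push_cast
        ring
      rw [hX1] at h
      have h2 : ∑ k ∈ Ioc 0 ((X - 1) + 1), 1 / ((k : ℝ) * Real.log (4 * k)) ≤ Real.log (Real.log X) + 3 := by
        linarith [hLL.1]
      calc (4 / n) * ∑ k ∈ Ioc 0 ((X - 1) + 1), 1 / ((k : ℝ) * Real.log (4 * k))
          ≤ (4 / n) * (Real.log (Real.log X) + 3) := mul_le_mul_of_nonneg_left h2 (by positivity)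
        _ = 1 / n * (4 * (Real.log (Real.log X) + 3)) := by ring

private theorem E2_D (c ε : ℝ) (hc : 0 < c) (hε : 0 < ε) : ∃ D : ℕ, 4 ≤ D ∧
    4 * (c * Real.log D / √(D : ℝ)) ≤ ε := by
  have h1 : Filter.Tendsto (fun x : ℝ => Real.log x / x ^ ((1 : ℝ) / 2)) Filter.atTop (nhds 0) :=
    (isLittleO_log_rpow_atTop (by norm_num)).tendsto_div_nhds_zero
  have h2 : Filter.Tendsto (fun n : ℕ => Real.log n / (n : ℝ) ^ ((1 : ℝ) / 2)) Filter.atTop (nhds 0) :=
    h1.comp tendsto_natCast_atTop_atTop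
  have h3 : ∀ᶠ n : ℕ in Filter.atTop, Real.log n / (n : ℝ) ^ ((1 : ℝ) / 2) < ε / (4 * c) :=
    h2.eventually (gt_mem_nhds (by positivity))
  obtain ⟨D, hD, hD4⟩ := (h3.and (Filter.eventually_ge_atTop 4)).exists
  refine ⟨D, hD4, ?_⟩
  rw [← Real.sqrt_eq_rpow] at hD
  calc 4 * (c * Real.log D / √(D : ℝ)) = (4 * c) * (Real.log D / √(D : ℝ)) := by ring
    _ ≤ (4 * c) * (ε / (4 * c)) := mul_le_mul_of_nonneg_left hD.le (by positivity)
    _ = ε := by field_simp

theorem pp_small (ε : ℝ) (hε : 0 < ε) : ∃ C : ℝ, 0 < C ∧ ∀ a : Bool, ∀ X : ℕ, 3 ≤ X →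
    ∑ p ∈ Pr X, (∑ n ∈ (sh a p).divisors.filter (fun n => ¬ n.Prime), vonMangoldt n) / ((p : ℝ) * Real.log p) ≤
      ε * Real.log (Real.log X) + C := by
  obtain ⟨C1, hC1, h1⟩ := sum_inv_p_log
  obtain ⟨C2, hC2, h2⟩ := pp_tail
  obtain ⟨D, hD, hDε⟩ := E2_D C2 ε hC2 hε
  have hΛ : ∀ n : ℕ, (0 : ℝ) ≤ vonMangoldt n := fun n => ArithmeticFunction.vonMangoldt_nonneg
  have hK : 0 ≤ (∑ n ∈ Ioc 0 D, vonMangoldt n) * C1 := mul_nonneg (sum_nonneg fun n _ => hΛ n) hC1.le
  refine ⟨(∑ n ∈ Ioc 0 D, vonMangoldt n) * C1 + 3 * ε, by positivity, fun a X hX => ?_⟩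
  have hLL := (E2_ll X hX).2
  have hw : ∀ p ∈ Pr X, (0 : ℝ) ≤ 1 / ((p : ℝ) * Real.log p) := by
    intro p hp
    rw [mem_Pr] at hp
    have h3 : (1 : ℝ) ≤ p := by exact_mod_cast hp.1.one_le
    have h4 := Real.log_nonneg h3
    positivity
  have e1 : ∀ p ∈ Pr X, (∑ n ∈ (sh a p).divisors.filter (fun n => ¬ n.Prime), vonMangoldt n) / ((p : ℝ) * Real.log p) =
      ∑ n ∈ (Ioc 0 (X + 1)).filter (fun n => ¬ n.Prime),
        if n ∣ sh a p then vonMangoldt n * (1 / ((p : ℝ) * Real.log p)) else 0 := by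
    intro p hp
    rw [mem_Pr] at hp
    have hs : (sh a p).divisors.filter (fun n => ¬ n.Prime) =
        ((Ioc 0 (X + 1)).filter (fun n => ¬ n.Prime)).filter (fun n => n ∣ sh a p) := by
      ext n
      rw [mem_filter, mem_filter, mem_filter, Nat.mem_divisors, mem_Ioc]
      have h3 : 0 < sh a p ∧ sh a p ≤ X + 1 := by
        have := hp.1.two_le
        have := hp.2
        cases a
        · simp only [sh, cond_false]
          omega
        · simp only [sh, cond_true]
          omega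
      constructor
      · rintro ⟨⟨h4, _⟩, h5⟩
        exact ⟨⟨⟨Nat.pos_of_dvd_of_pos h4 h3.1, le_trans (Nat.le_of_dvd h3.1 h4) h3.2⟩, h5⟩, h4⟩
      · rintro ⟨⟨_, h5⟩, h4⟩
        exact ⟨⟨h4, h3.1.ne'⟩, h5⟩
    rw [hs, ← sum_filter, sum_div]
    exact sum_congr rfl fun n _ => by rw [mul_one_div]
  have e2 : ∑ p ∈ Pr X, (∑ n ∈ (sh a p).divisors.filter (fun n => ¬ n.Prime), vonMangoldt n) / ((p : ℝ) * Real.log p) =
      ∑ n ∈ (Ioc 0 (X + 1)).filter (fun n => ¬ n.Prime),
        vonMangoldt n * ∑ p ∈ (Pr X).filter (fun p => n ∣ sh a p), 1 / ((p : ℝ) * Real.log p) := by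
    rw [sum_congr rfl e1, sum_comm]
    refine sum_congr rfl fun n _ => ?_
    rw [mul_sum, sum_filter]
  have e3 : ∀ n ∈ (Ioc 0 (X + 1)).filter (fun n => ¬ n.Prime),
      vonMangoldt n * ∑ p ∈ (Pr X).filter (fun p => n ∣ sh a p), 1 / ((p : ℝ) * Real.log p) ≤
        (if n ≤ D then vonMangoldt n * C1 else 0) +
        (if D ≤ n then vonMangoldt n / n * (4 * (Real.log (Real.log X) + 3)) else 0) := by
    intro n hn
    have hn2 : 0 ≤ (if D ≤ n then vonMangoldt n / n * (4 * (Real.log (Real.log X) + 3)) else 0) := by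
      have := hΛ n
      split_ifs
      · positivity
      · exact le_refl _
    by_cases hnD : n ≤ D
    · rw [if_pos hnD]
      have h3 : ∑ p ∈ (Pr X).filter (fun p => n ∣ sh a p), 1 / ((p : ℝ) * Real.log p) ≤ C1 :=
        le_trans (sum_le_sum_of_subset_of_nonneg (filter_subset _ _) fun p hp _ => hw p hp) (h1 X)
      have h4 := mul_le_mul_of_nonneg_left h3 (hΛ n)
      linarith
    · have hDn : D ≤ n := by omega
      rw [if_neg hnD, if_pos hDn, zero_add]
      have h3 := mul_le_mul_of_nonneg_left (E2_inner a X n hX (by omega)) (hΛ n)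
      refine le_trans h3 (le_of_eq ?_)
      ring
  have e4 : ∑ n ∈ (Ioc 0 (X + 1)).filter (fun n => ¬ n.Prime), (if n ≤ D then vonMangoldt n * C1 else 0) ≤
      (∑ n ∈ Ioc 0 D, vonMangoldt n) * C1 := by
    rw [← sum_filter, ← sum_mul]
    apply mul_le_mul_of_nonneg_right _ hC1.le
    apply sum_le_sum_of_subset_of_nonneg
    · intro n hn
      rw [mem_filter, mem_filter, mem_Ioc] at hn
      rw [mem_Ioc]
      exact ⟨hn.1.1.1, hn.2⟩
    · exact fun n _ _ => hΛ n
  have e5 : ∑ n ∈ (Ioc 0 (X + 1)).filter (fun n => ¬ n.Prime),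
      (if D ≤ n then vonMangoldt n / n * (4 * (Real.log (Real.log X) + 3)) else 0) ≤
      ε * (Real.log (Real.log X) + 3) := by
    rw [← sum_filter, ← sum_mul]
    have h3 : ((Ioc 0 (X + 1)).filter (fun n => ¬ n.Prime)).filter (fun n => D ≤ n) =
        (Ioc 0 (X + 1)).filter (fun n => D ≤ n ∧ ¬ n.Prime) := by
      ext n
      rw [mem_filter, mem_filter, mem_filter]
      tauto
    rw [h3]
    have h4 := mul_le_mul_of_nonneg_right (h2 D (by omega) (X + 1))
      (show 0 ≤ 4 * (Real.log (Real.log X) + 3) by positivity)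
    refine le_trans h4 ?_
    calc C2 * Real.log D / √(D : ℝ) * (4 * (Real.log (Real.log X) + 3))
        = (4 * (C2 * Real.log D / √(D : ℝ))) * (Real.log (Real.log X) + 3) := by ring
      _ ≤ ε * (Real.log (Real.log X) + 3) := mul_le_mul_of_nonneg_right hDε (by positivity)
  rw [e2]
  refine le_trans (sum_le_sum e3) ?_
  rw [sum_add_distrib]
  linarith

end Pool.Agent.Lib.MP_5deb1d_nt
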