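import Mathlib
import Pool.Agent.Lib.MP_5deb1d_nt.D0
import Pool.Agent.Lib.MP_5deb1d_nt.BL
import Pool.Agent.Lib.MP_5deb1d_nt.AB
import Pool.Agent.Lib.MP_5deb1d_nt.AF

/-!
JOB E3. The primes `p > Q^(2+d)` in the classes `±1`, in a block, in terms of the kernel. PROOF: `abel_block` with `w q n = Λ n * dk a q n`, `f n = 1/(n log² n)` (`g_fac`), `N1 = y ≥ 3`, `B = Q^(-η)`
(`blk`: `∑_{q ∈ PB Q} |DD a q N| ≤ Q^(-η) N/log² N` for all `N ≥ y ≥ Q^(2+d)`): the sum is `≤ 10 Q^(-η)`.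
-/

set_option autoImplicit false

open Finset
open ArithmeticFunction (vonMangoldt)

namespace Pool.Agent.Lib.MP_5deb1d_nt

theorem blk_g (d : ℝ) (hd : 0 < d) : ∃ η : ℝ, 0 < η ∧ ∃ Q0 : ℕ, ∀ Q : ℕ, Q0 ≤ Q → ∀ y N : ℕ, (Q : ℝ) ^ (2 + d) ≤ y → y ≤ N →
    ∀ a : Bool, ∑ q ∈ PB Q, |∑ n ∈ Ioc y N, vonMangoldt n * dk a q n * (1 / ((n : ℝ) * (Real.log n) ^ 2))| ≤
      10 * (Q : ℝ) ^ (-η) := by
  obtain ⟨η, hη, Q0, hQ0⟩ := blk d hd
  refine ⟨η, hη, max Q0 3, ?_⟩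
  intro Q hQ y N hy hyN a
  have hQ1 : Q0 ≤ Q := le_trans (le_max_left _ _) hQ
  have hQ3 : 3 ≤ Q := le_trans (le_max_right _ _) hQ
  have hQ3r : (3 : ℝ) ≤ (Q : ℝ) := by exact_mod_cast hQ3
  have hQpos : (0 : ℝ) < (Q : ℝ) := by linarith
  have hy3 : 3 ≤ y := by
    have h1 : (Q : ℝ) ^ (1 : ℝ) ≤ (Q : ℝ) ^ (2 + d) :=
      Real.rpow_le_rpow_of_exponent_le (by linarith) (by linarith)
    rw [Real.rpow_one] at h1
    have h2 : (3 : ℝ) ≤ (y : ℝ) := by linarith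
    exact_mod_cast h2
  have key := abel_block (PB Q) (fun q n => vonMangoldt n * dk a q n)
    (fun n => 1 / ((n : ℝ) * (Real.log n) ^ 2)) y N hy3 hyN ((Q : ℝ) ^ (-η))
    (Real.rpow_nonneg hQpos.le _)
    (by
      intro M hM
      have hM2 : (Q : ℝ) ^ (2 + d) ≤ (M : ℝ) := by
        have : (y : ℝ) ≤ (M : ℝ) := by exact_mod_cast hM
        linarith
      have h := hQ0 Q hQ1 M hM2 a
      simpa only [DD] using h)
    (fun k hk => (g_fac k hk).1)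
    (fun k hk => (g_fac k hk).2)
  exact key

end Pool.Agent.Lib.MP_5deb1d_nt
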