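import Mathlib
import Pool.Agent.Lib.MP_5deb1d_nt.D0
import Pool.Agent.Lib.MP_2c5684_nt.Mertens

/-!
JOB M3. `∑_{y < n ≤ N} Λ(n)/(n log² n) ≤ 1/log y + C/log² y`. PROOF: `M(n) = ∑_{k ≤ n} Λ(k)/k = log n + e(n)`, `|e(n)| ≤ C0` (`sum_vM_le`, `le_sum_vM` in
`Pool/Agent/Lib/MP_2c5684_nt/Mertens.lean`), `h(n) = 1/log² n` decreasing. Abel: the `e`-part is `≤ 2 C0 h(y)` (up to the ends), the main part is
`∑_{y < n ≤ N} (log n - log(n-1)) h(n) ≤ ∑ (1/log(n-1) - 1/log n) ≤ 1/log y`, because `(log n - log(n-1))/(log² n) ≤ (log n - log (n-1))/(log n log(n-1))`.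
-/

set_option autoImplicit false

open Finset
open ArithmeticFunction (vonMangoldt)

namespace Pool.Agent.Lib.MP_5deb1d_nt

private theorem M3_step {N : ℕ} (hN : 3 ≤ N) :
    (Real.log (N + 1 : ℕ) - Real.log N) / (Real.log (N + 1 : ℕ)) ^ 2 ≤ 1 / Real.log N - 1 / Real.log (N + 1 : ℕ) := by
  have h3 : (1 : ℝ) < N := by exact_mod_cast (by omega : 1 < N)
  have h4 : (N : ℝ) ≤ ((N + 1 : ℕ) : ℝ) := by exact_mod_cast Nat.le_succ N
  have h1 : 0 < Real.log N := Real.log_pos h3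
  have h2 : Real.log N ≤ Real.log (N + 1 : ℕ) := Real.log_le_log (by linarith) h4
  have h5 : 0 < Real.log (N + 1 : ℕ) := h1.trans_le h2
  have e : 1 / Real.log N - 1 / Real.log (N + 1 : ℕ) =
      (Real.log (N + 1 : ℕ) - Real.log N) / (Real.log N * Real.log (N + 1 : ℕ)) := by
    field_simp
  rw [e]
  apply div_le_div_of_nonneg_left (by linarith) (by positivity)
  nlinarith

private theorem M3_ind {y : ℕ} (hy : 3 ≤ y) {N : ℕ} (hN : y ≤ N) :
    ∑ n ∈ Ioc y N, vonMangoldt n / ((n : ℝ) * (Real.log n) ^ 2) +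
      (Real.log N - Real.log y + 6.4 - ∑ n ∈ Ioc y N, vonMangoldt n / (n : ℝ)) / (Real.log N) ^ 2 ≤
      6.4 / (Real.log y) ^ 2 + 1 / Real.log y - 1 / Real.log N := by
  induction N, hN using Nat.le_induction with
  | base =>
    rw [Ioc_self, sum_empty, sum_empty]
    apply le_of_eq
    ring
  | succ N hN ih =>
    have hD : 0 ≤ Real.log N - Real.log y + 6.4 - ∑ n ∈ Ioc y N, vonMangoldt n / (n : ℝ) := by
      have h := Pool.Agent.Lib.MP_2c5684_nt.sum_vM_Ioc_le y N (by omega) hN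
      have h' : ∑ n ∈ Ioc y N, vonMangoldt n / (n : ℝ) ≤ Real.log N - Real.log y + 6.4 := h
      linarith
    have h3 : (1 : ℝ) < N := by exact_mod_cast (by omega : 1 < N)
    have h4 : (N : ℝ) ≤ ((N + 1 : ℕ) : ℝ) := by exact_mod_cast Nat.le_succ N
    have h1 : 0 < Real.log N := Real.log_pos h3
    have h2 : Real.log N ≤ Real.log (N + 1 : ℕ) := Real.log_le_log (by linarith) h4
    have h5 : 0 < Real.log (N + 1 : ℕ) := h1.trans_le h2
    have hs := M3_step (hy.trans hN)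
    have hle : (Real.log N - Real.log y + 6.4 - ∑ n ∈ Ioc y N, vonMangoldt n / (n : ℝ)) / (Real.log (N + 1 : ℕ)) ^ 2 ≤
        (Real.log N - Real.log y + 6.4 - ∑ n ∈ Ioc y N, vonMangoldt n / (n : ℝ)) / (Real.log N) ^ 2 := by
      apply div_le_div_of_nonneg_left hD (by positivity)
      exact pow_le_pow_left₀ h1.le h2 2
    rw [sum_Ioc_succ_top (by omega), sum_Ioc_succ_top (by omega)]
    have hn1 : (((N + 1 : ℕ) : ℝ)) ≠ 0 := by positivity
    have e : ∑ n ∈ Ioc y N, vonMangoldt n / ((n : ℝ) * (Real.log n) ^ 2) +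
        vonMangoldt (N + 1) / (((N + 1 : ℕ) : ℝ) * (Real.log (N + 1 : ℕ)) ^ 2) +
        (Real.log (N + 1 : ℕ) - Real.log y + 6.4 - (∑ n ∈ Ioc y N, vonMangoldt n / (n : ℝ) +
          vonMangoldt (N + 1) / ((N + 1 : ℕ) : ℝ))) / (Real.log (N + 1 : ℕ)) ^ 2 =
        ∑ n ∈ Ioc y N, vonMangoldt n / ((n : ℝ) * (Real.log n) ^ 2) +
        (Real.log N - Real.log y + 6.4 - ∑ n ∈ Ioc y N, vonMangoldt n / (n : ℝ)) / (Real.log (N + 1 : ℕ)) ^ 2 +
        (Real.log (N + 1 : ℕ) - Real.log N) / (Real.log (N + 1 : ℕ)) ^ 2 := by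
      field_simp
      ring
    rw [e]
    linarith

theorem mertens_g : ∃ C : ℝ, 0 < C ∧ ∀ y : ℕ, 3 ≤ y → ∀ N : ℕ,
    ∑ n ∈ Ioc y N, vonMangoldt n / ((n : ℝ) * (Real.log n) ^ 2) ≤ 1 / Real.log y + C / (Real.log y) ^ 2 := by
  refine ⟨6.4, by norm_num, fun y hy N => ?_⟩
  have h3 : (1 : ℝ) < y := by exact_mod_cast (by omega : 1 < y)
  have h1 : 0 < Real.log y := Real.log_pos h3
  rcases le_or_gt y N with hN | hN
  · have h := M3_ind hy hN
    have hD : 0 ≤ Real.log N - Real.log y + 6.4 - ∑ n ∈ Ioc y N, vonMangoldt n / (n : ℝ) := by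
      have h := Pool.Agent.Lib.MP_2c5684_nt.sum_vM_Ioc_le y N (by omega) hN
      have h' : ∑ n ∈ Ioc y N, vonMangoldt n / (n : ℝ) ≤ Real.log N - Real.log y + 6.4 := h
      linarith
    have h2 : 0 ≤ (Real.log N - Real.log y + 6.4 - ∑ n ∈ Ioc y N, vonMangoldt n / (n : ℝ)) / (Real.log N) ^ 2 := by
      positivity
    have h4 : 0 ≤ 1 / Real.log N := div_nonneg zero_le_one (Real.log_natCast_nonneg N)
    linarith
  · rw [Ioc_eq_empty_of_le hN.le, sum_empty]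
    positivity

end Pool.Agent.Lib.MP_5deb1d_nt
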