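import Mathlib
import Pool.Agent.Lib.MP_5deb1d_nt.E3
import Pool.Agent.Lib.MP_5deb1d_nt.M3
import Pool.Agent.Lib.MP_5deb1d_nt.BD

/-!
JOB E4. The contribution of a block of `q` to the main sum. For `Q` large and `q ∈ PB Q`, `y = ⌈Q^(2+d)⌉`: the `p` with `q² ≤ p ≤ X`, `q ∣ sh a p` (`cl_eq`; `p = q²` impossible):
(i) `q² < p ≤ y`: `1/(p log p) ≤ 1/(2 p log q)`, `bt_sum`: `≤ (1/(2 log q)) (C/q)(d + 1/log q)`;
(ii) `y < p ≤ X`: `∑ cl a q p/(p log p) ≤ ∑_{y < n ≤ X} Λ(n) cl a q n/(n log² n) = ∑ Λ dk g + (1/(q-1)) ∑_{q ∤ n} Λ g`; the last is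
`≤ (1/(q-1))(1/log y + C/log² y)` (`mertens_g`), `log y ≥ (2+d) log Q ≥ 2 log Q ≥ 2 log q - 2 log 2`, so `≤ (1/(q-1))(1/(2 log q) + C'/log² q)`.
So with `T q := ∑_{p ≤ X, q² ≤ p, q ∣ sh a p} 1/(p log p)`: `log q * T q ≤ (C d + 1/2)/q + C''/(q log q) + log q * |∑_{y < n ≤ X} Λ dk g|`
(also `1/(q-1) ≤ 1/q + 2/q²`). Sum over the block with `blk_g`: the last part is `≤ log(2Q) 10 Q^(-η)`. If `X < y` part (ii) is empty.
-/

set_option autoImplicit false

open Finset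
open ArithmeticFunction (vonMangoldt)

namespace Pool.Agent.Lib.MP_5deb1d_nt

/-- the two parts of the sum over `p` -/
private lemma E4_split (q : ℕ) (hq : q.Prime) (y X N : ℕ) (hN : X ≤ N) (a : Bool) :
    ∑ p ∈ (Pr X).filter (fun p => q ^ 2 ≤ p ∧ q ∣ sh a p), 1 / ((p : ℝ) * Real.log p) ≤
      1 / (2 * Real.log q) * ∑ p ∈ (Ioc (q ^ 2) y).filter Nat.Prime, cl a q p / p +
        ∑ n ∈ Ioc y N, vonMangoldt n * cl a q n * (1 / ((n : ℝ) * (Real.log n) ^ 2)) := by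
  have hq1 : (1 : ℝ) < q := by exact_mod_cast hq.one_lt
  have hlq : 0 < Real.log q := Real.log_pos hq1
  rw [← Finset.sum_filter_add_sum_filter_not ((Pr X).filter (fun p => q ^ 2 ≤ p ∧ q ∣ sh a p)) (fun p => p ≤ y)]
  have hmem : ∀ p ∈ (Pr X).filter (fun p => q ^ 2 ≤ p ∧ q ∣ sh a p), p.Prime ∧ p ≤ X ∧ q ^ 2 < p ∧ cl a q p = 1 := by
    intro p hp
    rw [mem_filter, mem_Pr] at hp
    obtain ⟨⟨h1, h2⟩, h3, h4⟩ := hp
    refine ⟨h1, h2, lt_of_le_of_ne h3 ?_, ?_⟩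
    · intro h5
      rw [← h5] at h1
      exact Nat.Prime.not_prime_pow (le_refl 2) h1
    · rw [cl_eq a q p h1.one_le, if_pos h4]
  refine add_le_add ?_ ?_
  · rw [Finset.mul_sum]
    calc ∑ p ∈ ((Pr X).filter (fun p => q ^ 2 ≤ p ∧ q ∣ sh a p)).filter (fun p => p ≤ y), 1 / ((p : ℝ) * Real.log p)
        ≤ ∑ p ∈ ((Pr X).filter (fun p => q ^ 2 ≤ p ∧ q ∣ sh a p)).filter (fun p => p ≤ y),
            1 / (2 * Real.log q) * (cl a q p / p) := by
          refine Finset.sum_le_sum fun p hp => ?_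
          obtain ⟨h1, -, h3, h4⟩ := hmem p (mem_filter.1 hp).1
          have hp0 : (0 : ℝ) < p := by exact_mod_cast h1.pos
          have h5 : 2 * Real.log q ≤ Real.log p := by
            have h6 : Real.log ((q : ℝ) ^ 2) ≤ Real.log p :=
              Real.log_le_log (by positivity) (by exact_mod_cast h3.le)
            rwa [Real.log_pow, Nat.cast_ofNat] at h6
          rw [h4, div_mul_div_comm, one_mul]
          refine div_le_div_of_nonneg_left zero_le_one (by positivity) ?_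
          rw [mul_comm (p : ℝ)]
          exact mul_le_mul_of_nonneg_right h5 hp0.le
      _ ≤ ∑ p ∈ (Ioc (q ^ 2) y).filter Nat.Prime, 1 / (2 * Real.log q) * (cl a q p / p) := by
          refine Finset.sum_le_sum_of_subset_of_nonneg ?_ ?_
          · intro p hp
            obtain ⟨h1, -, h3, -⟩ := hmem p (mem_filter.1 hp).1
            rw [mem_filter, mem_Ioc]
            exact ⟨⟨h3, (mem_filter.1 hp).2⟩, h1⟩
          · intro p _ _
            have := cl_nonneg a q p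
            positivity
  · calc ∑ p ∈ ((Pr X).filter (fun p => q ^ 2 ≤ p ∧ q ∣ sh a p)).filter (fun p => ¬ p ≤ y), 1 / ((p : ℝ) * Real.log p)
        ≤ ∑ p ∈ ((Pr X).filter (fun p => q ^ 2 ≤ p ∧ q ∣ sh a p)).filter (fun p => ¬ p ≤ y),
            vonMangoldt p * cl a q p * (1 / ((p : ℝ) * (Real.log p) ^ 2)) := by
          refine Finset.sum_le_sum fun p hp => ?_
          obtain ⟨h1, -, h3, h4⟩ := hmem p (mem_filter.1 hp).1
          have hp0 : (0 : ℝ) < p := by exact_mod_cast h1.pos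
          have hlp : 0 < Real.log p := Real.log_pos (by exact_mod_cast h1.one_lt)
          rw [h4, ArithmeticFunction.vonMangoldt_apply_prime h1]
          apply le_of_eq
          field_simp
      _ ≤ ∑ n ∈ Ioc y N, vonMangoldt n * cl a q n * (1 / ((n : ℝ) * (Real.log n) ^ 2)) := by
          refine Finset.sum_le_sum_of_subset_of_nonneg ?_ ?_
          · intro p hp
            obtain ⟨h1, h2, h3, -⟩ := hmem p (mem_filter.1 hp).1
            rw [mem_Ioc]
            exact ⟨not_le.1 (mem_filter.1 hp).2, h2.trans hN⟩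
          · intro n _ _
            have h1 := cl_nonneg a q n
            have h2 : 0 ≤ vonMangoldt n := ArithmeticFunction.vonMangoldt_nonneg
            positivity

/-- the second part in terms of the kernel -/
private lemma E4_ker (q : ℕ) (hq : q.Prime) (y N : ℕ) (a : Bool) :
    ∑ n ∈ Ioc y N, vonMangoldt n * cl a q n * (1 / ((n : ℝ) * (Real.log n) ^ 2)) ≤
      |∑ n ∈ Ioc y N, vonMangoldt n * dk a q n * (1 / ((n : ℝ) * (Real.log n) ^ 2))| +
        1 / ((q : ℝ) - 1) * ∑ n ∈ Ioc y N, vonMangoldt n / ((n : ℝ) * (Real.log n) ^ 2) := by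
  have hq1 : (1 : ℝ) < q := by exact_mod_cast hq.one_lt
  have hq2 : 0 < (q : ℝ) - 1 := by linarith
  refine le_trans ?_ (add_le_add_left (le_abs_self _) _)
  rw [Finset.mul_sum, ← Finset.sum_add_distrib]
  refine Finset.sum_le_sum fun n _ => ?_
  have h2 : 0 ≤ vonMangoldt n := ArithmeticFunction.vonMangoldt_nonneg
  have h3 : (if q ∣ n then (0 : ℝ) else 1 / ((q : ℝ) - 1)) ≤ 1 / ((q : ℝ) - 1) := by
    split_ifs
    · positivity
    · exact le_refl _
  have h4 : cl a q n = dk a q n + (if q ∣ n then (0 : ℝ) else 1 / ((q : ℝ) - 1)) := by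
    unfold dk
    ring
  have h5 : 0 ≤ vonMangoldt n / ((n : ℝ) * (Real.log n) ^ 2) := by positivity
  rw [h4]
  have h6 := mul_le_mul_of_nonneg_right h3 h5
  have h7 : vonMangoldt n * (dk a q n + (if q ∣ n then (0 : ℝ) else 1 / ((q : ℝ) - 1))) *
      (1 / ((n : ℝ) * (Real.log n) ^ 2)) =
      vonMangoldt n * dk a q n * (1 / ((n : ℝ) * (Real.log n) ^ 2)) +
      (if q ∣ n then (0 : ℝ) else 1 / ((q : ℝ) - 1)) * (vonMangoldt n / ((n : ℝ) * (Real.log n) ^ 2)) := by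
    ring
  rw [h7]
  linarith

/-- elementary inequality for the second part -/
private lemma E4_el (C2 q ly : ℝ) (hC2 : 0 < C2) (hq : 4 ≤ q) (hly : 2 * (Real.log q - Real.log 2) ≤ ly) :
    Real.log q * (1 / (q - 1) * (1 / ly + C2 / ly ^ 2)) ≤ 1 / 2 * (1 / q) + (4 + 3 * C2) * (1 / (q * Real.log q)) := by
  have hq0 : 0 < q := by linarith
  have hl2 : 0 < Real.log 2 := Real.log_pos (by norm_num)
  have hl21 : Real.log 2 ≤ 1 := by
    have := Real.log_two_lt_d9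
    linarith
  have hl4 : 2 * Real.log 2 ≤ Real.log q := by
    have h1 : Real.log (2 ^ 2 : ℝ) ≤ Real.log q := Real.log_le_log (by norm_num) (by linarith)
    rwa [Real.log_pow, Nat.cast_ofNat] at h1
  set L := Real.log q with hL
  have hL0 : 0 < L := by linarith
  have hL1 : 1 < L := by
    have := Real.log_two_gt_d9
    linarith
  have hy0 : L ≤ ly := by linarith
  have hly0 : 0 < ly := by linarith
  have hLq : L ≤ q := by
    have := Real.log_le_sub_one_of_pos hq0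
    linarith
  -- `L / ly ≤ 1/2 + 1/L`
  have h1 : L * (1 / ly) ≤ 1 / 2 + 1 / L := by
    rw [mul_one_div, div_le_iff₀ hly0]
    have h2 : (1 / 2 + 1 / L) * (2 * (L - Real.log 2)) ≤ (1 / 2 + 1 / L) * ly :=
      mul_le_mul_of_nonneg_left hly (by positivity)
    refine le_trans ?_ h2
    have h3 : (1 / 2 + 1 / L) * (2 * (L - Real.log 2)) = L - Real.log 2 + 2 - 2 * Real.log 2 / L := by
      field_simp
      ring
    rw [h3]
    have h4 : 2 * Real.log 2 / L ≤ 1 := by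
      rw [div_le_one hL0]
      exact hl4
    linarith
  have h2 : L * (C2 / ly ^ 2) ≤ C2 * (1 / L) := by
    rw [mul_div_assoc', mul_one_div, div_le_div_iff₀ (by positivity) hL0]
    have h3 : L ^ 2 ≤ ly ^ 2 := by
      apply pow_le_pow_left₀ hL0.le hy0
    nlinarith [mul_le_mul_of_nonneg_left h3 hC2.le]
  have h3 : 1 / (q - 1) ≤ 1 / q + 2 / q ^ 2 := by
    rw [div_add_div _ _ hq0.ne' (by positivity), div_le_div_iff₀ (by linarith) (by positivity)]
    nlinarith [mul_nonneg hq0.le (mul_nonneg hq0.le hq0.le), mul_nonneg hq0.le hq0.le]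
  have h4 : L * (1 / ly + C2 / ly ^ 2) ≤ 1 / 2 + (1 + C2) * (1 / L) := by
    rw [mul_add]
    linarith
  have h5 : Real.log q * (1 / (q - 1) * (1 / ly + C2 / ly ^ 2)) ≤
      (1 / q + 2 / q ^ 2) * (1 / 2 + (1 + C2) * (1 / L)) := by
    have h6 : Real.log q * (1 / (q - 1) * (1 / ly + C2 / ly ^ 2)) =
        1 / (q - 1) * (L * (1 / ly + C2 / ly ^ 2)) := by
      rw [← hL]
      ring
    rw [h6]
    have h7 : 0 ≤ L * (1 / ly + C2 / ly ^ 2) := by positivity
    refine le_trans (mul_le_mul_of_nonneg_right h3 h7) ?_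
    exact mul_le_mul_of_nonneg_left h4 (by positivity)
  refine h5.trans ?_
  have h8 : 1 / q ^ 2 ≤ 1 / (q * L) := by
    refine div_le_div_of_nonneg_left zero_le_one (by positivity) ?_
    rw [pow_two]
    exact mul_le_mul_of_nonneg_left hLq hq0.le
  have h9 : 1 / q ^ 2 * (1 / L) ≤ 1 / (q * L) := by
    have h10 : 1 / L ≤ 1 := by
      rw [div_le_one hL0]
      exact hL1.le
    have h11 : 1 / q ^ 2 * (1 / L) ≤ 1 / q ^ 2 * 1 := mul_le_mul_of_nonneg_left h10 (by positivity)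
    linarith
  have h12 : (1 / q + 2 / q ^ 2) * (1 / 2 + (1 + C2) * (1 / L)) =
      1 / 2 * (1 / q) + 1 / q ^ 2 + (1 + C2) * (1 / (q * L)) + 2 * (1 + C2) * (1 / q ^ 2 * (1 / L)) := by
    field_simp
    ring
  rw [h12]
  have h13 : 2 * (1 + C2) * (1 / q ^ 2 * (1 / L)) ≤ 2 * (1 + C2) * (1 / (q * L)) :=
    mul_le_mul_of_nonneg_left h9 (by positivity)
  linarith

theorem block_main : ∃ C : ℝ, 0 < C ∧ ∀ d : ℝ, 0 < d → d ≤ 1 → ∃ η : ℝ, 0 < η ∧ ∃ Q0 : ℕ, ∀ Q : ℕ, Q0 ≤ Q → ∀ X : ℕ, ∀ a : Bool,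
    ∑ q ∈ PB Q, Real.log q * ∑ p ∈ (Pr X).filter (fun p => q ^ 2 ≤ p ∧ q ∣ sh a p), 1 / ((p : ℝ) * Real.log p) ≤
      (1 / 2 + C * d) * ∑ q ∈ PB Q, 1 / (q : ℝ) + C * ∑ q ∈ PB Q, 1 / ((q : ℝ) * Real.log q) + C * (Q : ℝ) ^ (-η) := by
  obtain ⟨C1, hC1, hb⟩ := bt_sum
  obtain ⟨C2, hC2, hm⟩ := mertens_g
  refine ⟨C1 + 3 * C2 + 24, by positivity, fun d hd hd1 => ?_⟩
  obtain ⟨η, hη, Q1, hg⟩ := blk_g d hd
  obtain ⟨Q2, hQ2⟩ : ∃ Q2 : ℕ, ∀ Q : ℕ, Q2 ≤ Q → Real.log Q ≤ (Q : ℝ) ^ (η / 2) := by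
    have h1 : ∀ᶠ x : ℝ in Filter.atTop, Real.log x ≤ x ^ (η / 2) := by
      have h2 := (isLittleO_log_rpow_atTop (half_pos hη)).bound (zero_lt_one (α := ℝ))
      filter_upwards [h2, Filter.eventually_ge_atTop (0 : ℝ)] with x hx hx0
      rw [one_mul, Real.norm_eq_abs, Real.norm_eq_abs, abs_of_nonneg (Real.rpow_nonneg hx0 _)] at hx
      exact (le_abs_self _).trans hx
    exact Filter.eventually_atTop.1 (tendsto_natCast_atTop_atTop.eventually h1)
  refine ⟨η / 2, half_pos hη, max (max Q1 Q2) 3, fun Q hQ X a => ?_⟩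
  have hQ1 : Q1 ≤ Q := (le_max_left _ _).trans ((le_max_left _ _).trans hQ)
  have hQ2' : Q2 ≤ Q := (le_max_right _ _).trans ((le_max_left _ _).trans hQ)
  have hQ3 : 3 ≤ Q := (le_max_right _ _).trans hQ
  have hQR : (3 : ℝ) ≤ Q := by exact_mod_cast hQ3
  have hQ0 : (0 : ℝ) < Q := by linarith
  obtain ⟨y, hy⟩ : ∃ y : ℕ, y = ⌈(Q : ℝ) ^ (2 + d)⌉₊ := ⟨_, rfl⟩
  have hy1 : (Q : ℝ) ^ (2 + d) ≤ y := by
    rw [hy]
    exact Nat.le_ceil _
  have hQd : (Q : ℝ) ≤ (Q : ℝ) ^ (2 + d) := by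
    have h1 := Real.rpow_le_rpow_of_exponent_le (x := (Q : ℝ)) (by linarith) (show (1 : ℝ) ≤ 2 + d by linarith)
    rwa [Real.rpow_one] at h1
  have hy2 : (y : ℝ) ≤ 2 * (Q : ℝ) ^ (2 + d) := by
    have h1 : (y : ℝ) < (Q : ℝ) ^ (2 + d) + 1 := by
      rw [hy]
      exact Nat.ceil_lt_add_one (by positivity)
    linarith
  have hy3 : 3 ≤ y := by
    have h1 : (3 : ℝ) ≤ y := by linarith
    exact_mod_cast h1
  have hy0 : (0 : ℝ) < y := by linarith
  have hl2 : Real.log 2 ≤ 1 := by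
    have := Real.log_two_lt_d9
    linarith
  have hlQ : 0 < Real.log Q := Real.log_pos (by linarith)
  have hlyQ : (2 + d) * Real.log Q ≤ Real.log y := by
    rw [← Real.log_rpow hQ0]
    exact Real.log_le_log (by positivity) hy1
  have hlyQ' : Real.log y ≤ (2 + d) * Real.log Q + 1 := by
    have h1 : Real.log y ≤ Real.log (2 * (Q : ℝ) ^ (2 + d)) := Real.log_le_log hy0 hy2
    rw [Real.log_mul (by norm_num) (by positivity), Real.log_rpow hQ0] at h1
    linarith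
  obtain ⟨N, hN⟩ : ∃ N : ℕ, N = max X y := ⟨_, rfl⟩
  have hXN : X ≤ N := by
    rw [hN]
    exact le_max_left _ _
  have hyN : y ≤ N := by
    rw [hN]
    exact le_max_right _ _
  have hkey : ∀ q ∈ PB Q, Real.log q *
      ∑ p ∈ (Pr X).filter (fun p => q ^ 2 ≤ p ∧ q ∣ sh a p), 1 / ((p : ℝ) * Real.log p) ≤
      (1 / 2 + (C1 + 3 * C2 + 24) * d) * (1 / (q : ℝ)) + (C1 + 3 * C2 + 24) * (1 / ((q : ℝ) * Real.log q)) +
        2 * Real.log Q * |∑ n ∈ Ioc y N, vonMangoldt n * dk a q n * (1 / ((n : ℝ) * (Real.log n) ^ 2))| := by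
    intro q hq
    obtain ⟨hqp, hQlt, hq2Q⟩ := mem_PB.1 hq
    have hq4 : (4 : ℝ) ≤ q := by exact_mod_cast (show 4 ≤ q by omega)
    have hq0 : (0 : ℝ) < q := by linarith
    have hQlR : (Q : ℝ) ≤ q := by exact_mod_cast hQlt.le
    have hq2R : (q : ℝ) ≤ 2 * Q := by exact_mod_cast hq2Q
    have hlq0 : 0 < Real.log q := Real.log_pos (by linarith)
    have hlqQ : Real.log Q ≤ Real.log q := Real.log_le_log hQ0 hQlR
    have hlq : Real.log q ≤ Real.log 2 + Real.log Q := by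
      rw [← Real.log_mul (by norm_num) (by linarith)]
      exact Real.log_le_log hq0 hq2R
    have hl2Q : Real.log 2 ≤ Real.log Q := Real.log_le_log (by norm_num) (by linarith)
    have h1 := E4_split q hqp y X N hXN a
    have h2 := E4_ker q hqp y N a
    have h3 := hb q hqp (by omega) d hd.le y (by nlinarith) a
    have h4 := hm y hy3 N
    have h5 := E4_el C2 q (Real.log y) hC2 hq4 (by nlinarith)
    have hq1 : 0 ≤ 1 / ((q : ℝ) - 1) := by
      have : 0 < (q : ℝ) - 1 := by linarith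
      positivity
    set A := |∑ n ∈ Ioc y N, vonMangoldt n * dk a q n * (1 / ((n : ℝ) * (Real.log n) ^ 2))| with hA
    have hA0 : 0 ≤ A := abs_nonneg _
    have h6 : ∑ p ∈ (Pr X).filter (fun p => q ^ 2 ≤ p ∧ q ∣ sh a p), 1 / ((p : ℝ) * Real.log p) ≤
        1 / (2 * Real.log q) * (C1 / q * (d + 1 / Real.log q)) + (A + 1 / ((q : ℝ) - 1) *
          (1 / Real.log y + C2 / (Real.log y) ^ 2)) := by
      refine h1.trans (add_le_add (mul_le_mul_of_nonneg_left h3 (by positivity)) (h2.trans ?_))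
      exact add_le_add_right (mul_le_mul_of_nonneg_left h4 hq1) _
    refine le_trans (mul_le_mul_of_nonneg_left h6 hlq0.le) ?_
    have h7 : Real.log q * (1 / (2 * Real.log q) * (C1 / q * (d + 1 / Real.log q))) =
        C1 / 2 * d * (1 / q) + C1 / 2 * (1 / (q * Real.log q)) := by
      field_simp
    have h8 : Real.log q * A ≤ 2 * Real.log Q * A := by
      refine mul_le_mul_of_nonneg_right ?_ hA0
      linarith
    rw [mul_add, h7, mul_add (Real.log q) A]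
    have h9 : 0 ≤ d * (1 / (q : ℝ)) := by positivity
    have h10 : 0 ≤ 1 / ((q : ℝ) * Real.log q) := by positivity
    have h11 : C1 / 2 * d * (1 / q) ≤ (C1 + 3 * C2 + 24) * d * (1 / (q : ℝ)) := by
      have : C1 / 2 * (d * (1 / (q : ℝ))) ≤ (C1 + 3 * C2 + 24) * (d * (1 / (q : ℝ))) :=
        mul_le_mul_of_nonneg_right (by linarith) h9
      linarith
    have h12 : C1 / 2 * (1 / ((q : ℝ) * Real.log q)) + (4 + 3 * C2) * (1 / ((q : ℝ) * Real.log q)) ≤
        (C1 + 3 * C2 + 24) * (1 / ((q : ℝ) * Real.log q)) := by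
      rw [← add_mul]
      exact mul_le_mul_of_nonneg_right (by linarith) h10
    linarith
  refine (Finset.sum_le_sum hkey).trans ?_
  rw [Finset.sum_add_distrib, Finset.sum_add_distrib, ← Finset.mul_sum, ← Finset.mul_sum, ← Finset.mul_sum]
  refine add_le_add_right ?_ _
  have h1 := hg Q hQ1 y N hy1 hyN a
  have h2 : 2 * Real.log Q * ∑ q ∈ PB Q, |∑ n ∈ Ioc y N, vonMangoldt n * dk a q n * (1 / ((n : ℝ) * (Real.log n) ^ 2))| ≤
      2 * (Q : ℝ) ^ (η / 2) * (10 * (Q : ℝ) ^ (-η)) :=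
    mul_le_mul (mul_le_mul_of_nonneg_left (hQ2 Q hQ2') (by norm_num)) h1
      (Finset.sum_nonneg fun q _ => abs_nonneg _) (by positivity)
  have h3 : 2 * (Q : ℝ) ^ (η / 2) * (10 * (Q : ℝ) ^ (-η)) = 20 * (Q : ℝ) ^ (-(η / 2)) := by
    have h4 : (Q : ℝ) ^ (η / 2) * (Q : ℝ) ^ (-η) = (Q : ℝ) ^ (-(η / 2)) := by
      rw [← Real.rpow_add hQ0]
      congr 1
      ring
    rw [← h4]
    ring
  rw [h3] at h2
  refine h2.trans ?_
  refine mul_le_mul_of_nonneg_right ?_ (by positivity)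
  linarith

end Pool.Agent.Lib.MP_5deb1d_nt
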