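import Mathlib
import Pool.Agent.Lib.MP_5deb1d_nt.E4
import Pool.Agent.Lib.MP_5deb1d_nt.M1

/-!
JOB E5. The main sum: `∑_{p ≤ X} (∑_{q ∣ sh a p prime, q² ≤ p} log q)/(p log p) = ∑_{q ∈ Pr X} log q * ∑_{p ≤ X, q² ≤ p, q ∣ sh a p} 1/(p log p)` (exchange; `q ≤ q² ≤ p ≤ X`). Choose `d ≤ 1` with `C d ≤ ε/2`.
The `q ≤ 2^j0` (`2^j0 ≥ Q0`): at most a constant (`sum_inv_p_log` for each of the finitely many `q`). The others lie in the disjoint `PB (2^j)`, `j ≥ j0`, `2^j ≤ X`: sum `block_main`: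
`∑_j ∑_{PB(2^j)} 1/q ≤ ∑_{q ≤ 2X} 1/q ≤ log log (2X) + C ≤ log log X + C'` (`mertens2`), `∑ 1/(q log q) ≤ C` (`sum_inv_p_log`), `∑_j 2^(-η j) ≤ C`.
-/

set_option autoImplicit false

open Finset
open ArithmeticFunction (vonMangoldt)

namespace Pool.Agent.Lib.MP_5deb1d_nt

private theorem E5_split (f : ℕ → ℝ) (j0 n : ℕ) :
    ∑ q ∈ Pr (2 ^ (j0 + n)), f q = ∑ q ∈ Pr (2 ^ j0), f q + ∑ j ∈ range n, ∑ q ∈ PB (2 ^ (j0 + j)), f q := by
  induction n with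
  | zero => rw [range_zero, sum_empty, add_zero, add_zero]
  | succ n ih =>
    have h2 : 2 ^ (j0 + (n + 1)) = 2 * 2 ^ (j0 + n) := by ring
    have h1 : Pr (2 ^ (j0 + (n + 1))) = Pr (2 ^ (j0 + n)) ∪ PB (2 ^ (j0 + n)) := by
      ext q
      rw [mem_union, mem_Pr, mem_Pr, mem_PB, h2]
      constructor
      · rintro ⟨h3, h4⟩
        rcases le_or_gt q (2 ^ (j0 + n)) with h5 | h5
        · exact Or.inl ⟨h3, h5⟩
        · exact Or.inr ⟨h3, h5, h4⟩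
      · rintro (⟨h3, h4⟩ | ⟨h3, h4, h5⟩)
        · exact ⟨h3, h4.trans (Nat.le_mul_of_pos_left _ (by norm_num))⟩
        · exact ⟨h3, h5⟩
    have h6 : Disjoint (Pr (2 ^ (j0 + n))) (PB (2 ^ (j0 + n))) := by
      rw [disjoint_left]
      intro q h3 h4
      rw [mem_Pr] at h3
      rw [mem_PB] at h4
      exact absurd h3.2 (not_le.2 h4.2.1)
    rw [h1, sum_union h6, ih, sum_range_succ, add_assoc]

private theorem E5_exch (a : Bool) (X : ℕ) :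
    ∑ p ∈ Pr X, (∑ q ∈ (sh a p).divisors.filter (fun q => q.Prime ∧ q ^ 2 ≤ p), Real.log q) / ((p : ℝ) * Real.log p) =
    ∑ q ∈ Pr X, Real.log q * ∑ p ∈ (Pr X).filter (fun p => q ^ 2 ≤ p ∧ q ∣ sh a p), 1 / ((p : ℝ) * Real.log p) := by
  have h1 : ∀ p ∈ Pr X, (∑ q ∈ (sh a p).divisors.filter (fun q => q.Prime ∧ q ^ 2 ≤ p), Real.log q) /
      ((p : ℝ) * Real.log p) =
      ∑ q ∈ Pr X, if q ^ 2 ≤ p ∧ q ∣ sh a p then Real.log q * (1 / ((p : ℝ) * Real.log p)) else 0 := by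
    intro p hp
    obtain ⟨hpp, hpX⟩ := mem_Pr.1 hp
    have h0 : sh a p ≠ 0 := by
      have h2 := hpp.two_le
      cases a
      · exact Nat.succ_ne_zero p
      · show p - 1 ≠ 0
        omega
    have hs : (sh a p).divisors.filter (fun q => q.Prime ∧ q ^ 2 ≤ p) =
        (Pr X).filter (fun q => q ^ 2 ≤ p ∧ q ∣ sh a p) := by
      ext q
      rw [mem_filter, mem_filter, Nat.mem_divisors, mem_Pr]
      constructor
      · rintro ⟨⟨h3, -⟩, h4, h5⟩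
        exact ⟨⟨h4, ((Nat.le_self_pow two_ne_zero q).trans h5).trans hpX⟩, h5, h3⟩
      · rintro ⟨⟨h3, -⟩, h4, h5⟩
        exact ⟨⟨h5, h0⟩, h3, h4⟩
    rw [hs, ← sum_filter, sum_div]
    refine sum_congr rfl fun q _ => ?_
    rw [mul_one_div]
  rw [sum_congr rfl h1, sum_comm]
  refine sum_congr rfl fun q _ => ?_
  rw [← sum_filter, mul_sum]

private theorem E5_pl (p : ℕ) : 0 ≤ 1 / ((p : ℝ) * Real.log p) := by
  have h1 := Real.log_natCast_nonneg p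
  positivity

private theorem E5_geom {r : ℝ} (h0 : 0 ≤ r) (h1 : r < 1) (n : ℕ) : ∑ j ∈ range n, r ^ j ≤ 1 / (1 - r) := by
  rw [le_div_iff₀ (by linarith), mul_comm, mul_neg_geom_sum]
  have := pow_nonneg h0 n
  linarith

theorem main_small (ε : ℝ) (hε : 0 < ε) : ∃ C : ℝ, 0 < C ∧ ∀ a : Bool, ∀ X : ℕ, 3 ≤ X →
    ∑ p ∈ Pr X, (∑ q ∈ (sh a p).divisors.filter (fun q => q.Prime ∧ q ^ 2 ≤ p), Real.log q) / ((p : ℝ) * Real.log p) ≤
      (1 / 2 + ε) * Real.log (Real.log X) + C := by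
  obtain ⟨C₁, hC₁, hbl⟩ := block_main
  obtain ⟨C₂, hC₂, hm⟩ := mertens2
  obtain ⟨C₃, hC₃, hs⟩ := sum_inv_p_log
  obtain ⟨d, hd, hd1, hdε⟩ : ∃ d : ℝ, 0 < d ∧ d ≤ 1 ∧ C₁ * d ≤ ε := by
    refine ⟨min 1 (ε / C₁), lt_min one_pos (div_pos hε hC₁), min_le_left _ _, ?_⟩
    calc C₁ * min 1 (ε / C₁) ≤ C₁ * (ε / C₁) := mul_le_mul_of_nonneg_left (min_le_right _ _) hC₁.le
      _ = ε := mul_div_cancel₀ _ hC₁.ne'
  obtain ⟨η, hη, Q0, hblk⟩ := hbl d hd hd1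
  obtain ⟨r, hr⟩ : ∃ r : ℝ, r = (2 : ℝ) ^ (-η) := ⟨_, rfl⟩
  have hr0 : 0 ≤ r := by
    rw [hr]
    positivity
  have hr1 : r < 1 := by
    rw [hr]
    exact Real.rpow_lt_one_of_one_lt_of_neg (by norm_num) (by linarith)
  have hK0 : 0 ≤ ∑ q ∈ Pr (2 ^ Q0), Real.log q * C₃ :=
    sum_nonneg fun q _ => mul_nonneg (Real.log_natCast_nonneg q) hC₃.le
  have hlog2 : 0 < Real.log 2 := Real.log_pos (by norm_num)
  have h1r : 0 < 1 - r := by linarith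
  refine ⟨∑ q ∈ Pr (2 ^ Q0), Real.log q * C₃ + (1 / 2 + ε) * (Real.log 2 + C₂) + C₁ * C₃ + C₁ * (1 / (1 - r)),
    by positivity, fun a X hX => ?_⟩
  rw [E5_exch]
  obtain ⟨f, hf⟩ : ∃ f : ℕ → ℝ, ∀ q, f q = Real.log q *
      ∑ p ∈ (Pr X).filter (fun p => q ^ 2 ≤ p ∧ q ∣ sh a p), 1 / ((p : ℝ) * Real.log p) := ⟨_, fun _ => rfl⟩
  rw [sum_congr rfl fun q _ => (hf q).symm]
  have hf0 : ∀ q, 0 ≤ f q := fun q => by
    rw [hf]
    exact mul_nonneg (Real.log_natCast_nonneg q) (sum_nonneg fun p _ => E5_pl p)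
  have hfC : ∀ q, f q ≤ Real.log q * C₃ := fun q => by
    rw [hf]
    refine mul_le_mul_of_nonneg_left ?_ (Real.log_natCast_nonneg q)
    exact (sum_le_sum_of_subset_of_nonneg (filter_subset _ _) fun p _ _ => E5_pl p).trans (hs X)
  have hX3 : (3 : ℝ) ≤ (X : ℝ) := by exact_mod_cast hX
  have hlX : 1 ≤ Real.log X := by
    rw [Real.le_log_iff_exp_le (by linarith)]
    have := Real.exp_one_lt_d9
    linarith
  have hllX : 0 ≤ Real.log (Real.log X) := Real.log_nonneg hlX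
  have hXJ : X < 2 ^ (Nat.log 2 X + 1) := Nat.lt_pow_succ_log_self (by norm_num) X
  have hJX : 2 ^ (Nat.log 2 X + 1) ≤ 2 * X := by
    rw [pow_succ, mul_comm]
    exact Nat.mul_le_mul_left 2 (Nat.pow_log_le_self 2 (by omega))
  have hS0 : ∑ q ∈ Pr (2 ^ Q0), f q ≤ ∑ q ∈ Pr (2 ^ Q0), Real.log q * C₃ := sum_le_sum fun q _ => hfC q
  have hsub : ∀ Y : ℕ, X ≤ Y → ∑ q ∈ Pr X, f q ≤ ∑ q ∈ Pr Y, f q := by
    intro Y hY
    refine sum_le_sum_of_subset_of_nonneg ?_ fun q _ _ => hf0 q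
    intro q hq
    rw [mem_Pr] at hq ⊢
    exact ⟨hq.1, hq.2.trans hY⟩
  have hA : 0 ≤ (1 / 2 + ε) * (Real.log 2 + C₂) := by positivity
  have hB : 0 ≤ C₁ * C₃ := by positivity
  have hD : 0 ≤ C₁ * (1 / (1 - r)) := by positivity
  have hE : 0 ≤ (1 / 2 + ε) * Real.log (Real.log X) := by positivity
  rcases le_or_gt (Nat.log 2 X + 1) Q0 with hJ | hJ
  · have h1 := hsub (2 ^ Q0) (hXJ.le.trans (Nat.pow_le_pow_right (by norm_num) hJ))
    linarith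
  · obtain ⟨n, hn⟩ := Nat.exists_eq_add_of_lt hJ
    have hn' : Nat.log 2 X + 1 = Q0 + (n + 1) := by omega
    have h1 := hsub (2 ^ (Q0 + (n + 1))) (by rw [← hn']; exact hXJ.le)
    rw [E5_split] at h1
    have h2 : ∀ j ∈ range (n + 1), ∑ q ∈ PB (2 ^ (Q0 + j)), f q ≤
        (1 / 2 + ε) * ∑ q ∈ PB (2 ^ (Q0 + j)), 1 / (q : ℝ) + C₁ * ∑ q ∈ PB (2 ^ (Q0 + j)), 1 / ((q : ℝ) * Real.log q) +
          C₁ * r ^ j := by
      intro j _
      have hQ : Q0 ≤ 2 ^ (Q0 + j) := (Nat.lt_two_pow_self).le.trans (Nat.pow_le_pow_right (by norm_num) (Nat.le_add_right _ _))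
      have h3 := hblk (2 ^ (Q0 + j)) hQ X a
      rw [sum_congr rfl fun q _ => (hf q).symm] at h3
      have h4 : (1 / 2 + C₁ * d) * ∑ q ∈ PB (2 ^ (Q0 + j)), 1 / (q : ℝ) ≤ (1 / 2 + ε) * ∑ q ∈ PB (2 ^ (Q0 + j)), 1 / (q : ℝ) := by
        refine mul_le_mul_of_nonneg_right (by linarith) (sum_nonneg fun q _ => by positivity)
      have h5 : (((2 ^ (Q0 + j) : ℕ) : ℝ)) ^ (-η) ≤ r ^ j := by
        have h6 : (((2 ^ (Q0 + j) : ℕ) : ℝ)) ^ (-η) = r ^ (Q0 + j) := by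
          rw [hr, Nat.cast_pow, Nat.cast_ofNat, ← Real.rpow_natCast, ← Real.rpow_natCast, ← Real.rpow_mul (by norm_num),
            ← Real.rpow_mul (by norm_num), mul_comm]
        rw [h6]
        exact pow_le_pow_of_le_one hr0 hr1.le (Nat.le_add_left _ _)
      have h6 := mul_le_mul_of_nonneg_left h5 hC₁.le
      linarith
    have h3 := sum_le_sum h2
    rw [sum_add_distrib, sum_add_distrib, ← mul_sum, ← mul_sum, ← mul_sum] at h3
    have h4 := E5_split (fun q => 1 / (q : ℝ)) Q0 (n + 1)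
    have h5 := E5_split (fun q => 1 / ((q : ℝ) * Real.log q)) Q0 (n + 1)
    have h6 : 0 ≤ ∑ q ∈ Pr (2 ^ Q0), 1 / (q : ℝ) := sum_nonneg fun q _ => by positivity
    have h7 : 0 ≤ ∑ q ∈ Pr (2 ^ Q0), 1 / ((q : ℝ) * Real.log q) := sum_nonneg fun q _ => E5_pl q
    have h8 := hs (2 ^ (Q0 + (n + 1)))
    have h9 : 3 ≤ 2 ^ (Q0 + (n + 1)) := by
      rw [← hn']
      omega
    have h10 := (abs_le.1 (hm (2 ^ (Q0 + (n + 1))) h9)).2
    have h11 : Real.log (Real.log ((2 ^ (Q0 + (n + 1)) : ℕ) : ℝ)) ≤ Real.log (Real.log X) + Real.log 2 := by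
      have h12 : (((2 ^ (Q0 + (n + 1)) : ℕ)) : ℝ) ≤ 2 * (X : ℝ) := by
        rw [← hn']
        exact_mod_cast hJX
      have h13 : (3 : ℝ) ≤ (((2 ^ (Q0 + (n + 1)) : ℕ)) : ℝ) := by exact_mod_cast h9
      have h14 : Real.log (((2 ^ (Q0 + (n + 1)) : ℕ)) : ℝ) ≤ 2 * Real.log X := by
        calc Real.log (((2 ^ (Q0 + (n + 1)) : ℕ)) : ℝ) ≤ Real.log (2 * (X : ℝ)) := Real.log_le_log (by linarith) h12
          _ = Real.log 2 + Real.log X := Real.log_mul (by norm_num) (by linarith)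
          _ ≤ Real.log X + Real.log X := by
            have := Real.log_le_log (by norm_num) (by linarith : (2 : ℝ) ≤ (X : ℝ))
            linarith
          _ = 2 * Real.log X := by ring
      have h15 : 0 < Real.log (((2 ^ (Q0 + (n + 1)) : ℕ)) : ℝ) := Real.log_pos (by linarith)
      calc Real.log (Real.log ((2 ^ (Q0 + (n + 1)) : ℕ) : ℝ)) ≤ Real.log (2 * Real.log X) := Real.log_le_log h15 h14
        _ = Real.log 2 + Real.log (Real.log X) := Real.log_mul (by norm_num) (by linarith)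
        _ = _ := by ring
    have h12 : (1 / 2 + ε) * ∑ j ∈ range (n + 1), ∑ q ∈ PB (2 ^ (Q0 + j)), 1 / (q : ℝ) ≤
        (1 / 2 + ε) * (Real.log (Real.log X) + Real.log 2 + C₂) :=
      mul_le_mul_of_nonneg_left (by linarith) (by positivity)
    have h13 : C₁ * ∑ j ∈ range (n + 1), ∑ q ∈ PB (2 ^ (Q0 + j)), 1 / ((q : ℝ) * Real.log q) ≤ C₁ * C₃ :=
      mul_le_mul_of_nonneg_left (by linarith) hC₁.le
    have h14 : C₁ * ∑ j ∈ range (n + 1), r ^ j ≤ C₁ * (1 / (1 - r)) :=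
      mul_le_mul_of_nonneg_left (E5_geom hr0 hr1 _) hC₁.le
    linarith

end Pool.Agent.Lib.MP_5deb1d_nt
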