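import Mathlib
import Pool.Agent.Lib.MP_5deb1d_nt.BK
import Pool.Agent.Lib.MP_5deb1d_nt.DY
import Pool.Agent.Lib.MP_5deb1d_nt.D4
import Pool.Agent.Lib.MP_5deb1d_nt.E1
import Pool.Agent.Lib.MP_5deb1d_nt.E2
import Pool.Agent.Lib.MP_5deb1d_nt.E5

/-!
JOB FI. The final assembly. (1): `block` and `dyadic_o` (with `g q = rq q - S1 q`), `sum_S1`. (2): `SS a X ≤ ∑_{p ≤ X} 1/p ≤ log log X + C` (`mertens2`) and
`SS a X ≥ (1/2 - 2ε) log log X - C` (`low_red`, `pp_small ε`, `main_small ε`), so `|SS true X - SS false X| ≤ (1/2 + 2ε) log log X + C`, with (1). `mean_abs`: `sum_S1_abs`, the upper bound for `SS`, `block` with `dyadic_o`. Last: from (1) and `rq → 0`: `∑_{q ≤ X} |rq q|/q ≤ ε log log X` eventually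
(`mertens2`).
-/

set_option autoImplicit false

open Finset
open ArithmeticFunction (vonMangoldt)

namespace Pool.Agent.Lib.MP_5deb1d_nt

private theorem FI_ll (c ε : ℝ) (hε : 0 < ε) : ∃ X0 : ℕ, ∀ X : ℕ, X0 ≤ X → c ≤ ε * Real.log (Real.log X) := by
  have h1 : Filter.Tendsto (fun X : ℕ => Real.log (Real.log (X : ℝ))) Filter.atTop Filter.atTop :=
    Real.tendsto_log_atTop.comp (Real.tendsto_log_atTop.comp tendsto_natCast_atTop_atTop)
  obtain ⟨X0, hX0⟩ := Filter.eventually_atTop.1 (h1.eventually_ge_atTop (c / ε))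
  refine ⟨X0, fun X hX => ?_⟩
  have h2 := hX0 X hX
  rw [div_le_iff₀ hε] at h2
  linarith [mul_comm ε (Real.log (Real.log (X : ℝ)))]

private theorem FI_block (ε : ℝ) (hε : 0 < ε) : ∃ X0 : ℕ, ∀ X : ℕ, X0 ≤ X →
    ∑ q ∈ Pr X, |rq q - S1 q| / q ≤ ε * Real.log (Real.log X) :=
  dyadic_o (fun q => rq q - S1 q) block ε hε

theorem mean_exact (ε : ℝ) (hε : 0 < ε) : ∃ X0 : ℕ, ∀ X : ℕ, X0 ≤ X →
    |∑ q ∈ Pr X, rq q / q - (SS true X - SS false X) / 2| ≤ ε * Real.log (Real.log X) := by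
  obtain ⟨X1, h1⟩ := FI_block (ε / 2) (by linarith)
  obtain ⟨C, hC, h2⟩ := sum_S1
  obtain ⟨X3, h3⟩ := FI_ll C (ε / 2) (by linarith)
  refine ⟨max 3 (max X1 X3), fun X hX => ?_⟩
  have hX3 : 3 ≤ X := le_trans (le_max_left _ _) hX
  have hX1 : X1 ≤ X := le_trans (le_trans (le_max_left _ _) (le_max_right _ _)) hX
  have hX4 : X3 ≤ X := le_trans (le_trans (le_max_right _ _) (le_max_right _ _)) hX
  have a1 := h1 X hX1
  have a2 := h2 X hX3
  have a3 := h3 X hX4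
  have e1 : ∑ q ∈ Pr X, rq q / q - (SS true X - SS false X) / 2 =
      ∑ q ∈ Pr X, (rq q - S1 q) / q + (∑ q ∈ Pr X, S1 q / q - (SS true X - SS false X) / 2) := by
    have : ∑ q ∈ Pr X, rq q / q = ∑ q ∈ Pr X, (rq q - S1 q) / q + ∑ q ∈ Pr X, S1 q / q := by
      rw [← sum_add_distrib]
      exact sum_congr rfl fun q _ => by ring
    rw [this]
    ring
  have e2 : |∑ q ∈ Pr X, (rq q - S1 q) / q| ≤ ∑ q ∈ Pr X, |rq q - S1 q| / q := by
    refine (abs_sum_le_sum_abs _ _).trans (sum_le_sum fun q _ => ?_)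
    rw [abs_div, Nat.abs_cast]
  rw [e1]
  refine (abs_add_le _ _).trans ?_
  linarith

open Classical in
private theorem FI_SS_le (a : Bool) (X : ℕ) : SS a X ≤ ∑ p ∈ Pr X, 1 / (p : ℝ) := by
  unfold SS
  exact sum_le_sum_of_subset_of_nonneg (filter_subset _ _) fun p _ _ => by positivity

theorem SS_bounds (ε : ℝ) (hε : 0 < ε) : ∃ X0 : ℕ, ∀ X : ℕ, X0 ≤ X → ∀ a : Bool,
    (1 / 2 - ε) * Real.log (Real.log X) ≤ SS a X ∧ SS a X ≤ (1 + ε) * Real.log (Real.log X) := by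
  obtain ⟨C1, hC1, h1⟩ := low_red
  obtain ⟨C2, hC2, h2⟩ := pp_small (ε / 3) (by linarith)
  obtain ⟨C3, hC3, h3⟩ := main_small (ε / 3) (by linarith)
  obtain ⟨C4, hC4, h4⟩ := mertens2
  obtain ⟨X5, h5⟩ := FI_ll (C1 + C2 + C3 + C4) (ε / 3) (by linarith)
  refine ⟨max 3 X5, fun X hX a => ?_⟩
  have hX3 : 3 ≤ X := le_trans (le_max_left _ _) hX
  have hX5 : X5 ≤ X := le_trans (le_max_right _ _) hX
  have a1 := h1 a X hX3
  have a2 := h2 a X hX3
  have a3 := h3 a X hX3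
  have a4 := h4 X hX3
  have a5 := h5 X hX5
  have a6 := FI_SS_le a X
  have a7 := (abs_le.1 a4).2
  constructor
  · nlinarith
  · nlinarith

theorem mean_bound (ε : ℝ) (hε : 0 < ε) : ∃ X0 : ℕ, ∀ X : ℕ, X0 ≤ X →
    |∑ q ∈ Pr X, rq q / q| ≤ (1 / 4 + ε) * Real.log (Real.log X) := by
  obtain ⟨X1, h1⟩ := mean_exact (ε / 2) (by linarith)
  obtain ⟨X2, h2⟩ := SS_bounds (ε / 2) (by linarith)
  refine ⟨max X1 X2, fun X hX => ?_⟩
  have a1 := h1 X (le_trans (le_max_left _ _) hX)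
  have a2 := h2 X (le_trans (le_max_right _ _) hX) true
  have a3 := h2 X (le_trans (le_max_right _ _) hX) false
  have b1 := abs_le.1 a1
  rw [abs_le]
  constructor
  · nlinarith [b1.1, b1.2, a2.1, a2.2, a3.1, a3.2]
  · nlinarith [b1.1, b1.2, a2.1, a2.2, a3.1, a3.2]

theorem mean_abs (ε : ℝ) (hε : 0 < ε) : ∃ X0 : ℕ, ∀ X : ℕ, X0 ≤ X →
    ∑ q ∈ Pr X, |rq q| / q ≤ (1 + ε) * Real.log (Real.log X) := by
  obtain ⟨X1, h1⟩ := FI_block (ε / 3) (by linarith)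
  obtain ⟨C, hC, h2⟩ := sum_S1_abs
  obtain ⟨X3, h3⟩ := FI_ll C (ε / 3) (by linarith)
  obtain ⟨X4, h4⟩ := SS_bounds (ε / 3) (by linarith)
  refine ⟨max (max 3 X4) (max X1 X3), fun X hX => ?_⟩
  have hX3 : 3 ≤ X := le_trans (le_trans (le_max_left _ _) (le_max_left _ _)) hX
  have hX4 : X4 ≤ X := le_trans (le_trans (le_max_right _ _) (le_max_left _ _)) hX
  have hX1 : X1 ≤ X := le_trans (le_trans (le_max_left _ _) (le_max_right _ _)) hX
  have hX5 : X3 ≤ X := le_trans (le_trans (le_max_right _ _) (le_max_right _ _)) hX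
  have a1 := h1 X hX1
  have a2 := h2 X hX3
  have a3 := h3 X hX5
  have a4 := (h4 X hX4 true).2
  have a5 := (h4 X hX4 false).2
  have e1 : ∑ q ∈ Pr X, |rq q| / q ≤ ∑ q ∈ Pr X, |rq q - S1 q| / q + ∑ q ∈ Pr X, |S1 q| / q := by
    rw [← sum_add_distrib]
    refine sum_le_sum fun q _ => ?_
    rw [← add_div]
    have : |rq q| ≤ |rq q - S1 q| + |S1 q| := by
      have := abs_add_le (rq q - S1 q) (S1 q)
      rwa [sub_add_cancel] at this
    exact div_le_div_of_nonneg_right this (Nat.cast_nonneg q)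
  linarith

theorem mean_of_kummer (h : ∀ ε : ℝ, 0 < ε → ∃ Q0 : ℕ, ∀ q : ℕ, Q0 ≤ q → q.Prime → |rq q| ≤ ε) (ε : ℝ) (hε : 0 < ε) :
    ∃ X0 : ℕ, ∀ X : ℕ, X0 ≤ X → |SS true X - SS false X| ≤ ε * Real.log (Real.log X) := by
  obtain ⟨Q0, hQ⟩ := h (ε / 8) (by linarith)
  obtain ⟨C4, hC4, h4⟩ := mertens2
  obtain ⟨X1, h1⟩ := mean_exact (ε / 8) (by linarith)
  set K : ℝ := ∑ q ∈ range Q0, |rq q| / q with hK
  obtain ⟨X3, h3⟩ := FI_ll (K + ε / 8 * C4) (ε / 8) (by linarith)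
  obtain ⟨X6, h6⟩ := FI_ll 0 1 one_pos
  refine ⟨max (max 3 X6) (max X1 X3), fun X hX => ?_⟩
  have hX3 : 3 ≤ X := le_trans (le_trans (le_max_left _ _) (le_max_left _ _)) hX
  have hX6 : X6 ≤ X := le_trans (le_trans (le_max_right _ _) (le_max_left _ _)) hX
  have hX1 : X1 ≤ X := le_trans (le_trans (le_max_left _ _) (le_max_right _ _)) hX
  have hX5 : X3 ≤ X := le_trans (le_trans (le_max_right _ _) (le_max_right _ _)) hX
  have a1 := h1 X hX1
  have a3 := h3 X hX5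
  have a4 := (abs_le.1 (h4 X hX3)).2
  have a6 := h6 X hX6
  have e1 : |∑ q ∈ Pr X, rq q / q| ≤ ∑ q ∈ Pr X, |rq q| / q := by
    refine (abs_sum_le_sum_abs _ _).trans (sum_le_sum fun q _ => ?_)
    rw [abs_div, Nat.abs_cast]
  have e2 : ∑ q ∈ Pr X, |rq q| / q ≤ K + ε / 8 * ∑ p ∈ Pr X, 1 / (p : ℝ) := by
    rw [← sum_filter_add_sum_filter_not (Pr X) (fun q => q < Q0)]
    refine add_le_add ?_ ?_
    · refine sum_le_sum_of_subset_of_nonneg (fun q hq => ?_) fun q _ _ => by positivity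
      exact mem_range.2 (mem_filter.1 hq).2
    · rw [mul_sum]
      refine (sum_le_sum (g := fun q : ℕ => ε / 8 * (1 / (q : ℝ))) fun q hq => ?_).trans
        (sum_le_sum_of_subset_of_nonneg (filter_subset _ _) fun q _ _ => by positivity)
      obtain ⟨h7, h8⟩ := mem_filter.1 hq
      have h9 := hQ q (not_lt.1 h8) (mem_Pr.1 h7).1
      rw [mul_one_div]
      exact div_le_div_of_nonneg_right h9 (Nat.cast_nonneg q)
  have b1 := abs_le.1 a1
  have b2 := abs_le.1 (e1.trans e2)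
  have b3 : ε / 8 * ∑ p ∈ Pr X, 1 / (p : ℝ) ≤ ε / 8 * (Real.log (Real.log X) + C4) :=
    mul_le_mul_of_nonneg_left (by linarith) (by linarith)
  have b4 : 0 ≤ ε * Real.log (Real.log X) := mul_nonneg hε.le (by linarith)
  rw [abs_le]
  constructor
  · linarith [b1.1, b1.2, b2.1, b2.2]
  · linarith [b1.1, b1.2, b2.1, b2.2]

end Pool.Agent.Lib.MP_5deb1d_nt
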