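import Mathlib
import Pool.Agent.Lib.MP_5deb1d_nt.D0

/-!
Definitions for the block H (Hasse's formula). `K` is the `q`-th cyclotomic field, `maximalRealSubfield K` its maximal real subfield.
-/

set_option autoImplicit false

open NumberField NumberField.Units NumberField.InfinitePlace Ideal

namespace Pool.Agent.Lib.MP_5deb1d_nt

/-- `∑_{P ∣ p, f_P ∣ k} f_P` -/
noncomputable def cc (L : Type*) [Field L] [NumberField L] (p k : ℕ) : ℝ :=
  ∑ᶠ P ∈ {P : Ideal (𝓞 L) | P ∈ primesOver (span {(p : ℤ)}) (𝓞 L) ∧ inertiaDeg P ℤ ∣ k}, (inertiaDeg P ℤ : ℝ)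

end Pool.Agent.Lib.MP_5deb1d_nt
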