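import Mathlib
import Pool.Agent.Lib.MP_5deb1d_nt.H0

/-!
JOB HA. The unit index of `ℚ(ζ_q)` is `1`. PROOF: otherwise (`indexRealUnits_eq_one_or_two`, `indexRealUnits_eq_two_iff`) there is a unit `u` with `w = u/ū` a generator of `torsion K`, which has order
`2q` (`IsCyclotomicExtension.Rat.torsionOrder_eq`), so `w = -ζ'` with `ζ'^q = 1` (`w^q = -1`, as `w` generates). Let `λ = ζ - 1`, `𝓞 K/(λ) = ℤ/q` (`absNorm_span_zeta_sub_one`, so every class contains an
integer; complex conjugation fixes the ideal `(λ)` and the integers), hence `ū ≡ u mod λ`. So `u ≡ u w` up to the order, `w ≡ 1 mod λ`; but `ζ' ≡ 1`, `w ≡ -1`, so `2 ∈ (λ)`: contradiction to `q` odd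
(`two_not_mem_span_zeta_sub_one'`). (`unitsMulComplexConjInv_apply`.)
-/

set_option autoImplicit false

open NumberField NumberField.Units NumberField.InfinitePlace Ideal

namespace Pool.Agent.Lib.MP_5deb1d_nt

variable (q : ℕ) [hq : Fact q.Prime] (K : Type*) [Field K] [NumberField K] [hK : IsCyclotomicExtension {q} ℚ K]

omit hq in
private theorem HA_conj_mod [NeZero q] [IsCMField K] {ζ : K} (hζ : IsPrimitiveRoot ζ q) (x : 𝓞 K) :
    Ideal.Quotient.mk (span {hζ.toInteger - 1}) (IsCMField.ringOfIntegersComplexConj K x)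
      = Ideal.Quotient.mk (span {hζ.toInteger - 1}) x := by
  have h1 : Ideal.Quotient.mk (span {hζ.toInteger - 1}) hζ.toInteger = 1 := by
    rw [← map_one (Ideal.Quotient.mk (span {hζ.toInteger - 1})), Ideal.Quotient.eq]
    exact Ideal.mem_span_singleton_self _
  have h2 : IsCMField.ringOfIntegersComplexConj K hζ.toInteger * hζ.toInteger = 1 := by
    have hu : IsPrimitiveRoot hζ.toInteger q := hζ.toInteger_isPrimitiveRoot
    have hunit : IsUnit hζ.toInteger := hu.isUnit (NeZero.ne q)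
    obtain ⟨v, hv⟩ := hunit
    have hvt : v ∈ torsion K := by
      rw [torsion, CommGroup.mem_torsion, isOfFinOrder_iff_pow_eq_one]
      refine ⟨q, Nat.pos_of_ne_zero (NeZero.ne q), ?_⟩
      ext
      rw [Units.val_pow_eq_pow_val, hv, hu.pow_eq_one, Units.val_one]
    have h3 := IsCMField.complexConj_torsion K ⟨v, hvt⟩
    apply RingOfIntegers.ext
    have h4 : (IsCMField.ringOfIntegersComplexConj K hζ.toInteger : K) = (hζ.toInteger : K)⁻¹ := by
      rw [IsCMField.coe_ringOfIntegersComplexConj, ← hv]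
      exact h3
    have h5 : (hζ.toInteger : K) ≠ 0 := by
      rw [← hv]
      exact Units.coe_ne_zero v
    have h7 : ((IsCMField.ringOfIntegersComplexConj K hζ.toInteger * hζ.toInteger : 𝓞 K) : K)
        = (IsCMField.ringOfIntegersComplexConj K hζ.toInteger : K) * (hζ.toInteger : K) :=
      map_mul (algebraMap (𝓞 K) K) _ _
    rw [h7, h4, inv_mul_cancel₀ h5]
    exact (map_one (algebraMap (𝓞 K) K)).symm
  let f : 𝓞 K →ₐ[ℤ] (𝓞 K ⧸ span {hζ.toInteger - 1}) :=
    (Ideal.Quotient.mkₐ ℤ (span {hζ.toInteger - 1})).comp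
      ((IsCMField.ringOfIntegersComplexConj K : 𝓞 K →+* 𝓞 K).toIntAlgHom)
  let g : 𝓞 K →ₐ[ℤ] (𝓞 K ⧸ span {hζ.toInteger - 1}) := Ideal.Quotient.mkₐ ℤ (span {hζ.toInteger - 1})
  have hfg : f = g := by
    refine hζ.integralPowerBasis.algHom_ext ?_
    rw [hζ.integralPowerBasis_gen]
    change Ideal.Quotient.mk (span {hζ.toInteger - 1}) (IsCMField.ringOfIntegersComplexConj K hζ.toInteger)
      = Ideal.Quotient.mk (span {hζ.toInteger - 1}) hζ.toInteger
    have h6 := congrArg (Ideal.Quotient.mk (span {hζ.toInteger - 1})) h2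
    rw [map_mul, h1, mul_one, map_one] at h6
    rw [h6, h1]
  exact congrArg (fun F : 𝓞 K →ₐ[ℤ] (𝓞 K ⧸ span {hζ.toInteger - 1}) => F x) hfg

theorem index_one (h3 : 3 ≤ q) [IsCMField K] : IsCMField.indexRealUnits K = 1 := by
  have : NeZero q := ⟨hq.out.ne_zero⟩
  rcases IsCMField.indexRealUnits_eq_one_or_two K with h | h
  · exact h
  exfalso
  obtain ⟨u, hu⟩ := (IsCMField.indexRealUnits_eq_two_iff K).1 h
  have hζ := IsCyclotomicExtension.zeta_spec q ℚ K
  set I : Ideal (𝓞 K) := span {hζ.toInteger - 1} with hI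
  -- the image of the generator is one
  have hw : Units.map (Ideal.Quotient.mk I).toMonoidHom ((IsCMField.unitsMulComplexConjInv K u : torsion K) : (𝓞 K)ˣ) = 1 := by
    rw [IsCMField.unitsMulComplexConjInv_apply, map_mul, map_inv, mul_inv_eq_one]
    ext
    exact (HA_conj_mod q K hζ (u : 𝓞 K)).symm
  have hall : ∀ x : torsion K, Units.map (Ideal.Quotient.mk I).toMonoidHom (x : (𝓞 K)ˣ) = 1 := by
    intro x
    have hx : x ∈ Subgroup.zpowers (IsCMField.unitsMulComplexConjInv K u) := by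
      rw [hu]
      trivial
    obtain ⟨k, hk⟩ := Subgroup.mem_zpowers_iff.1 hx
    rw [← hk, Subgroup.coe_zpow, map_zpow, hw, one_zpow]
  have hneg : (-1 : (𝓞 K)ˣ) ∈ torsion K := by
    rw [torsion, CommGroup.mem_torsion, isOfFinOrder_iff_pow_eq_one]
    exact ⟨2, by norm_num, by simp⟩
  have h1 := hall ⟨-1, hneg⟩
  have h2 : Ideal.Quotient.mk I (-1 : 𝓞 K) = 1 := by
    have := congrArg (fun t : (𝓞 K ⧸ I)ˣ => (t : 𝓞 K ⧸ I)) h1
    simpa using this
  rw [← map_one (Ideal.Quotient.mk I), Ideal.Quotient.eq] at h2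
  have h3 : (2 : 𝓞 K) ∈ I := by
    have := I.neg_mem h2
    have e : -(-1 - 1 : 𝓞 K) = 2 := by ring
    rwa [e] at this
  exact IsCyclotomicExtension.Rat.two_not_mem_span_zeta_sub_one' q hζ (by omega) h3

end Pool.Agent.Lib.MP_5deb1d_nt
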