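import Mathlib
import Pool.Agent.Lib.MP_5deb1d_nt.HA

/-!
JOB HB. Regulators: `IsCMField.regulator_div_regulator_eq_two_pow_mul_indexRealUnits_inv` and `index_one`; the unit rank of `K` is `(q-1)/2 - 1` (`rank = card (InfinitePlace K) - 1`, `K` totally complex of degree `q - 1`:
`IsCyclotomicExtension.Rat.nrComplexPlaces_eq_totient_div_two`, `nrRealPlaces_eq_zero`).
-/

set_option autoImplicit false

open NumberField NumberField.Units NumberField.InfinitePlace Ideal

namespace Pool.Agent.Lib.MP_5deb1d_nt

variable (q : ℕ) [hq : Fact q.Prime] (K : Type*) [Field K] [NumberField K] [hK : IsCyclotomicExtension {q} ℚ K]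

theorem reg_quot (h3 : 3 ≤ q) [IsCMField K] :
    regulator K / regulator (maximalRealSubfield K) = 2 ^ ((q - 3) / 2) := by
  have h2 : NeZero q := ⟨hq.out.ne_zero⟩
  have hr : NumberField.Units.rank K = (q - 3) / 2 := by
    rw [NumberField.Units.rank, card_eq_nrRealPlaces_add_nrComplexPlaces,
      IsTotallyComplex.nrRealPlaces_eq_zero K,
      IsCyclotomicExtension.Rat.nrComplexPlaces_eq_totient_div_two q K, Nat.totient_prime hq.out]
    omega
  rw [IsCMField.regulator_div_regulator_eq_two_pow_mul_indexRealUnits_inv, index_one q K h3, hr,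
    Nat.cast_one, inv_one, mul_one]

end Pool.Agent.Lib.MP_5deb1d_nt
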