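import Mathlib
import Pool.Agent.Lib.MP_5deb1d_nt.H0

/-!
JOB HC. A totally real field has exactly the roots of unity `±1`: a torsion unit maps under a real embedding to a real root of unity, `±1`, and embeddings are injective; `-1 ≠ 1`.
(`torsionOrder = Fintype.card`/`Nat.card (torsion F)`; `even_torsionOrder` gives `2 ∣`.)
-/

set_option autoImplicit false

open NumberField NumberField.Units NumberField.InfinitePlace Ideal

namespace Pool.Agent.Lib.MP_5deb1d_nt

set_option backward.isDefEq.respectTransparency false in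
private theorem HC_torsion (F : Type*) [Field F] [NumberField F] [IsTotallyReal F] (x : torsion F) :
    (x : (𝓞 F)ˣ) = 1 ∨ (x : (𝓞 F)ˣ) = -1 := by
  have h0 : 0 < nrRealPlaces F := by
    rw [← IsTotallyReal.finrank (K := F)]
    exact Module.finrank_pos
  by_cases! hc : 2 < orderOf (x : (𝓞 F)ˣ)
  · rw [← orderOf_units, ← orderOf_submonoid] at hc
    linarith [IsPrimitiveRoot.nrRealPlaces_eq_zero_of_two_lt hc (IsPrimitiveRoot.orderOf (x.1 : F))]
  · interval_cases hi : orderOf (x : (𝓞 F)ˣ)
    · linarith [orderOf_pos_iff.2 ((CommGroup.mem_torsion x.1).1 x.2)]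
    · exact Or.intro_left _ (orderOf_eq_one_iff.1 hi)
    · rw [← orderOf_units, CharP.orderOf_eq_two_iff 0 (by decide)] at hi
      simp [← Units.val_inj, ← Units.val_inj, Units.val_neg, Units.val_one, hi]

theorem torsion_real (F : Type*) [Field F] [NumberField F] [IsTotallyReal F] : torsionOrder F = 2 := by
  classical
  let := Fintype.ofFinite (torsion F)
  rw [torsionOrder, Nat.card_eq_fintype_card]
  refine (Finset.card_eq_two.2 ⟨1, ⟨-1, neg_one_mem_torsion⟩,
    by simp [← Subtype.coe_ne_coe], Finset.ext fun x ↦ ⟨fun _ ↦ ?_, fun _ ↦ Finset.mem_univ _⟩⟩)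
  rw [Finset.mem_insert, Finset.mem_singleton, ← Subtype.val_inj, ← Subtype.val_inj]
  exact HC_torsion F x

end Pool.Agent.Lib.MP_5deb1d_nt
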