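import Mathlib
import Pool.Agent.Lib.MP_5deb1d_nt.H0

/-!
JOB HD. The discriminant of `K⁺`. PROOF: `natAbs_discr_eq_absNorm_differentIdeal_mul_natAbs_discr_pow` for `K/K⁺`: `|D_K| = N(𝔇) |D_{K⁺}|²`, `|D_K| = q^(q-2)` (`IsCyclotomicExtension.Rat.discr_prime`). The relative different:
`𝓞 K = ℤ[ζ]` (`IsCyclotomicExtension.Rat.adjoin_singleton_eq_top` or `integralPowerBasis`), so `𝓞 K = 𝓞 K⁺[ζ]`, conductor `⊤`, and (`conductor_mul_differentIdeal` in Mathlib) `𝔇 = (f'(ζ))` with
`f = X² - (ζ + ζ⁻¹) X + 1` the minimal polynomial over `K⁺`, `f'(ζ) = 2ζ - (ζ + ζ⁻¹) = ζ - ζ⁻¹ = ζ⁻¹ (ζ² - 1)`, and `ζ²` is again a primitive `q`-th root of unity, so the norm of `(ζ² - 1)` is `q`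
(`absNorm_span_zeta_sub_one`). Hence `q^(q-2) = q |D_{K⁺}|²`, `|D_{K⁺}| = q^((q-3)/2)`.
-/

set_option autoImplicit false

open NumberField NumberField.Units NumberField.InfinitePlace Ideal

namespace Pool.Agent.Lib.MP_5deb1d_nt

private theorem HD_conj {q : ℕ} (hq0 : q ≠ 0) {K : Type*} [Field K] [NumberField K] [IsCMField K] {ζ : K}
    (hζ : IsPrimitiveRoot ζ q) : IsCMField.complexConj K ζ = ζ⁻¹ := by
  let φ : K →+* ℂ := Classical.choice (inferInstance : Nonempty _)
  refine φ.injective ?_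
  have h1 : IsPrimitiveRoot (φ ζ) q := hζ.map_of_injective φ.injective
  rw [IsCMField.complexEmbedding_complexConj, map_inv₀]
  exact (Complex.inv_eq_conj (h1.norm'_eq_one hq0)).symm

private theorem HD_adjoin {q : ℕ} [NeZero q] {K : Type*} [Field K] [NumberField K]
    [IsCyclotomicExtension {q} ℚ K] {ζ : K} (hζ : IsPrimitiveRoot ζ q) :
    Algebra.adjoin (maximalRealSubfield K) {ζ} = ⊤ := by
  refine top_unique fun x _ => ?_
  have h1 : x ∈ Algebra.adjoin ℚ {ζ} := by
    rw [IsCyclotomicExtension.adjoin_primitive_root_eq_top hζ]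
    exact Algebra.mem_top
  have h2 : Algebra.adjoin ℚ {ζ} ≤ (Algebra.adjoin (maximalRealSubfield K) {ζ}).restrictScalars ℚ :=
    Algebra.adjoin_le (Set.singleton_subset_iff.2 (Algebra.subset_adjoin (Set.mem_singleton ζ)))
  exact h2 h1

/-- the derivative of the minimal polynomial at `ζ` -/
private theorem HD_der {q : ℕ} (h3 : 3 ≤ q) {K : Type*} [Field K] [NumberField K]
    [IsCyclotomicExtension {q} ℚ K] [IsCMField K] {ζ : K} (hζ : IsPrimitiveRoot ζ q) :
    Polynomial.aeval ζ (Polynomial.derivative (minpoly (maximalRealSubfield K) ζ)) = ζ - ζ⁻¹ := by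
  have : NeZero q := ⟨by omega⟩
  have hint : IsIntegral (maximalRealSubfield K) ζ := Algebra.IsIntegral.isIntegral ζ
  have htop : IntermediateField.adjoin (maximalRealSubfield K) {ζ} = ⊤ := by
    rw [← IntermediateField.toSubalgebra_inj, IntermediateField.adjoin_simple_toSubalgebra_of_isAlgebraic
      hint.isAlgebraic, HD_adjoin hζ, IntermediateField.top_toSubalgebra]
  have hdeg : (minpoly (maximalRealSubfield K) ζ).natDegree = 2 := by
    rw [(Field.primitive_element_iff_minpoly_natDegree_eq (maximalRealSubfield K) ζ).1 htop]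
    exact Algebra.IsQuadraticExtension.finrank_eq_two _ _
  have hmon := minpoly.monic hint
  have h1 := minpoly.aeval (maximalRealSubfield K) ζ
  have h2 : Polynomial.aeval ζ⁻¹ (minpoly (maximalRealSubfield K) ζ) = 0 := by
    rw [← HD_conj (by omega) hζ, ← AlgEquiv.coe_toAlgHom, Polynomial.aeval_algHom_apply, h1, map_zero]
  have hp := Polynomial.eq_quadratic_of_degree_le_two (p := minpoly (maximalRealSubfield K) ζ)
    (Polynomial.degree_le_of_natDegree_le hdeg.le)
  have hc2 : (minpoly (maximalRealSubfield K) ζ).coeff 2 = 1 := by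
    have h4 := hmon.coeff_natDegree
    rw [hdeg] at h4
    exact h4
  rw [hc2] at hp
  have hζ0 : ζ ≠ 0 := hζ.ne_zero (by omega)
  have hne : ζ - ζ⁻¹ ≠ 0 := by
    intro h
    have h5 : ζ ^ 2 = 1 := by
      have h6 : ζ = ζ⁻¹ := sub_eq_zero.1 h
      calc ζ ^ 2 = ζ * ζ := by ring
        _ = ζ * ζ⁻¹ := by rw [← h6]
        _ = 1 := mul_inv_cancel₀ hζ0
    have h7 := Nat.le_of_dvd (by norm_num) (hζ.dvd_of_pow_eq_one 2 h5)
    omega
  generalize hb : (minpoly (maximalRealSubfield K) ζ).coeff 1 = b at hp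
  generalize hc : (minpoly (maximalRealSubfield K) ζ).coeff 0 = c at hp
  rw [hp] at h1 h2
  rw [hp]
  simp only [map_add, map_mul, map_pow, Polynomial.aeval_X, Polynomial.aeval_C, map_one, one_mul] at h1 h2
  simp only [Polynomial.derivative_mul, Polynomial.derivative_C,
    Polynomial.derivative_X_pow, Polynomial.derivative_X, zero_mul, zero_add, mul_one, add_zero, map_add,
    map_mul, Polynomial.aeval_X, Polynomial.aeval_C, map_one, one_mul, map_pow]
  have h8 : (ζ - ζ⁻¹) * (ζ + ζ⁻¹ + algebraMap (maximalRealSubfield K) K b) = 0 := by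
    linear_combination h1 - h2
  have h9 := (mul_eq_zero.1 h8).resolve_left hne
  push_cast
  simp only [map_ofNat]
  linear_combination h9

variable (q : ℕ) [hq : Fact q.Prime] (K : Type*) [Field K] [NumberField K] [hK : IsCyclotomicExtension {q} ℚ K]

theorem discr_real (h3 : 3 ≤ q) [IsCMField K] :
    (discr (maximalRealSubfield K)).natAbs = q ^ ((q - 3) / 2) := by
  have hne : NeZero q := ⟨by omega⟩
  have hζ := IsCyclotomicExtension.zeta_spec q ℚ K
  generalize IsCyclotomicExtension.zeta q ℚ K = ζ at hζ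
  -- the conductor
  have hadj : Algebra.adjoin (𝓞 (maximalRealSubfield K)) {hζ.toInteger} = ⊤ := by
    refine top_unique fun x _ => ?_
    have h1 : x ∈ Algebra.adjoin ℤ {hζ.toInteger} := by
      rw [IsCyclotomicExtension.Rat.adjoin_singleton_eq_top hζ]
      exact Algebra.mem_top
    have h2 : Algebra.adjoin ℤ {hζ.toInteger} ≤
        (Algebra.adjoin (𝓞 (maximalRealSubfield K)) {hζ.toInteger}).restrictScalars ℤ :=
      Algebra.adjoin_le (Set.singleton_subset_iff.2 (Algebra.subset_adjoin (Set.mem_singleton _)))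
    exact h2 h1
  have hcon := conductor_mul_differentIdeal (𝓞 (maximalRealSubfield K)) (maximalRealSubfield K) K hζ.toInteger
    (HD_adjoin hζ)
  rw [conductor_eq_top_of_adjoin_eq_top hadj, Ideal.top_mul] at hcon
  -- the generator of the different
  have hint : IsIntegral (𝓞 (maximalRealSubfield K)) hζ.toInteger := Algebra.IsIntegral.isIntegral _
  have hmin := minpoly.isIntegrallyClosed_eq_field_fractions (maximalRealSubfield K) K hint
  have hw : algebraMap (𝓞 K) K (Polynomial.aeval hζ.toInteger (Polynomial.derivative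
      (minpoly (𝓞 (maximalRealSubfield K)) hζ.toInteger))) = ζ - ζ⁻¹ := by
    rw [← HD_der h3 hζ]
    have e : minpoly (maximalRealSubfield K) ζ = (minpoly (𝓞 (maximalRealSubfield K)) hζ.toInteger).map
      (algebraMap (𝓞 (maximalRealSubfield K)) (maximalRealSubfield K)) := hmin
    rw [e, Polynomial.derivative_map, Polynomial.aeval_map_algebraMap]
    exact (Polynomial.aeval_algebraMap_apply K hζ.toInteger _).symm
  generalize Polynomial.aeval hζ.toInteger (Polynomial.derivative
      (minpoly (𝓞 (maximalRealSubfield K)) hζ.toInteger)) = w at hcon hw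
  have hζ0 : ζ ≠ 0 := hζ.ne_zero (by omega)
  have hzw : hζ.toInteger * w = hζ.toInteger ^ 2 - 1 := by
    refine RingOfIntegers.ext ?_
    have h1 : ((hζ.toInteger * w : 𝓞 K) : K) = ζ * (ζ - ζ⁻¹) := by
      rw [← hw]
      rfl
    rw [h1, mul_sub, mul_inv_cancel₀ hζ0]
    rw [← sq]
    rfl
  have hodd : q ≠ 2 := by omega
  have hcop : Nat.Coprime 2 q := (Nat.coprime_primes Nat.prime_two hq.out).2 (Ne.symm hodd)
  have hζ2 : IsPrimitiveRoot (ζ ^ 2) q := hζ.pow_of_coprime 2 hcop
  have hN := hζ2.norm_toInteger_sub_one_of_prime_ne_two' hodd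
  have hz2 : hζ2.toInteger = hζ.toInteger ^ 2 := rfl
  have hu : IsUnit hζ.toInteger := hζ.toInteger_isPrimitiveRoot.isUnit (by omega)
  have hspan : Ideal.span {w} = Ideal.span {hζ2.toInteger - 1} := by
    rw [hz2, ← hzw]
    exact Ideal.span_singleton_eq_span_singleton.2 (associated_unit_mul_right w _ hu)
  have hnorm : Ideal.absNorm (differentIdeal (𝓞 (maximalRealSubfield K)) (𝓞 K)) = q := by
    rw [hcon, hspan, Ideal.absNorm_span_singleton, hN, Int.natAbs_natCast]
  -- the discriminants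
  have hD := natAbs_discr_eq_absNorm_differentIdeal_mul_natAbs_discr_pow (maximalRealSubfield K)
    (𝓞 (maximalRealSubfield K)) K (𝓞 K)
  have hfr : Module.finrank (maximalRealSubfield K) K = 2 := Algebra.IsQuadraticExtension.finrank_eq_two _ _
  rw [hnorm, hfr, IsCyclotomicExtension.Rat.discr_prime q K, Int.natAbs_mul, Int.natAbs_pow, Int.natAbs_pow,
    Int.natAbs_neg, Int.natAbs_one, one_pow, one_mul, Int.natAbs_natCast] at hD
  have hqodd : Odd q := hq.out.odd_of_ne_two hodd
  obtain ⟨m, hm⟩ := hqodd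
  have e1 : q - 2 = 1 + 2 * ((q - 3) / 2) := by omega
  rw [e1, pow_add, pow_one] at hD
  have h5 := Nat.eq_of_mul_eq_mul_left hq.out.pos hD
  rw [mul_comm 2, pow_mul] at h5
  exact (Nat.pow_left_injective two_ne_zero h5).symm

end Pool.Agent.Lib.MP_5deb1d_nt
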