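import Mathlib
import Pool.Agent.Lib.MP_5deb1d_nt.H0

/-!
JOB HE. The numbers of places: `IsCyclotomicExtension.Rat.nrRealPlaces_eq_zero`, `nrComplexPlaces_eq_totient_div_two`; `K⁺` is totally real of degree `(q-1)/2` (`K/K⁺` quadratic, `[K:ℚ] = q - 1`).
-/

set_option autoImplicit false

open NumberField NumberField.Units NumberField.InfinitePlace Ideal

namespace Pool.Agent.Lib.MP_5deb1d_nt

variable (q : ℕ) [hq : Fact q.Prime] (K : Type*) [Field K] [NumberField K] [hK : IsCyclotomicExtension {q} ℚ K]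

theorem places (h3 : 3 ≤ q) [IsCMField K] :
    nrRealPlaces K = 0 ∧ nrComplexPlaces K = (q - 1) / 2 ∧
      nrRealPlaces (maximalRealSubfield K) = (q - 1) / 2 ∧ nrComplexPlaces (maximalRealSubfield K) = 0 := by
  have hp := hq.out
  have : NeZero q := ⟨hp.ne_zero⟩
  have h0 : nrRealPlaces K = 0 := IsTotallyComplex.nrRealPlaces_eq_zero K
  have h1 : nrComplexPlaces K = (q - 1) / 2 := by
    rw [IsCyclotomicExtension.Rat.nrComplexPlaces_eq_totient_div_two q, Nat.totient_prime hp]
  have h2 : nrComplexPlaces (maximalRealSubfield K) = 0 := IsTotallyReal.nrComplexPlaces_eq_zero _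
  have h3' : Fintype.card (InfinitePlace K) = Fintype.card (InfinitePlace (maximalRealSubfield K)) :=
    (IsCMField.card_infinitePlace_eq_card_infinitePlace K).symm
  rw [card_eq_nrRealPlaces_add_nrComplexPlaces, card_eq_nrRealPlaces_add_nrComplexPlaces, h0, h1, h2,
    zero_add, add_zero] at h3'
  exact ⟨h0, h1, h3'.symm, h2⟩

end Pool.Agent.Lib.MP_5deb1d_nt
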