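import Mathlib
import Pool.Agent.Lib.MP_5deb1d_nt.HB
import Pool.Agent.Lib.MP_5deb1d_nt.HC
import Pool.Agent.Lib.MP_5deb1d_nt.HD
import Pool.Agent.Lib.MP_5deb1d_nt.HE

/-!
JOB HF. The quotient of the residues. `dedekindZeta_residue_def`; with `n = (q-1)/2`: for `K`: `(2π)^n R_K h_K/(2q √(q^(q-2)))`, for `K⁺`: `2^n R h/(2 √(q^((q-3)/2)))`; `R_K/R = 2^(n-1)`. The quotient is
`(h_K/h) π^n 2^(n-1)/(q q^((q-1)/4)) = (h_K/h)/(2 q (q/(4π²))^((q-1)/4))` because `(q-2)/2 - (q-3)/4 = (q-1)/4` and `(4π²)^((q-1)/4) = (2π)^n`. (`torsionOrder K = 2q`: `torsionOrder_eq`; `|D_K|`: `discr_prime`.)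
-/

set_option autoImplicit false

open NumberField NumberField.Units NumberField.InfinitePlace Ideal

namespace Pool.Agent.Lib.MP_5deb1d_nt

private lemma HF_sqrt {Q : ℝ} (hQ : 0 < Q) (n : ℕ) : √(Q ^ n) = Q ^ ((n : ℝ) / 2) := by
  rw [Real.sqrt_eq_rpow, ← Real.rpow_natCast, ← Real.rpow_mul hQ.le]
  congr 1
  ring

private lemma HF_rpow {Q : ℝ} (hQ : 0 < Q) (n : ℕ) :
    (Q / (4 * Real.pi ^ 2)) ^ ((n : ℝ) / 2) = √(Q ^ n) / (2 * Real.pi) ^ n := by
  have hpi := Real.pi_pos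
  have h1 : 4 * Real.pi ^ 2 = (2 * Real.pi) ^ 2 := by ring
  rw [h1, Real.div_rpow hQ.le (by positivity), ← HF_sqrt hQ, ← HF_sqrt (by positivity : (0 : ℝ) < (2 * Real.pi) ^ 2),
    ← pow_mul, mul_comm 2 n, pow_mul, Real.sqrt_sq (by positivity)]

private lemma HF_calc {Q R R' h h' π : ℝ} (hQ : 0 < Q) (hR' : 0 < R') (hh' : 0 < h') (hπ : 0 < π) (m : ℕ)
    (hR : R = 2 ^ m * R') :
    (2 ^ 0 * (2 * π) ^ (m + 1) * R * h / (2 * Q * √(Q ^ (2 * m + 1)))) /
      (2 ^ (m + 1) * (2 * π) ^ 0 * R' * h' / (2 * √(Q ^ m))) =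
      h / h' / (2 * Q * (√(Q ^ (m + 1)) / (2 * π) ^ (m + 1))) := by
  have h1 : √(Q ^ (2 * m + 1)) = √(Q ^ m) * √(Q ^ (m + 1)) := by
    rw [← Real.sqrt_mul (by positivity), ← pow_add]
    congr 2
    ring
  have h2 : 0 < √(Q ^ m) := Real.sqrt_pos.2 (by positivity)
  have h3 : 0 < √(Q ^ (m + 1)) := Real.sqrt_pos.2 (by positivity)
  rw [h1, hR]
  field_simp
  ring

variable (q : ℕ) [hq : Fact q.Prime] (K : Type*) [Field K] [NumberField K] [hK : IsCyclotomicExtension {q} ℚ K]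

theorem residue_quot (h3 : 3 ≤ q) [IsCMField K] :
    dedekindZeta_residue K / dedekindZeta_residue (maximalRealSubfield K) =
      ((classNumber K : ℝ) / (classNumber (maximalRealSubfield K) : ℝ)) /
        (2 * (q : ℝ) * ((q : ℝ) / (4 * Real.pi ^ 2)) ^ (((q : ℝ) - 1) / 4)) := by
  obtain ⟨m, hm⟩ : ∃ m : ℕ, q = 2 * m + 3 := by
    have hodd : Odd q := hq.out.odd_of_ne_two (by omega)
    obtain ⟨k, hk⟩ := hodd
    exact ⟨k - 1, by omega⟩
  have hne : NeZero q := ⟨by omega⟩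
  have hQ : (0 : ℝ) < q := by exact_mod_cast hq.out.pos
  obtain ⟨p1, p2, p3, p4⟩ := places q K h3
  have e1 : (q - 1) / 2 = m + 1 := by omega
  have e2 : (q - 3) / 2 = m := by omega
  have e3 : q - 2 = 2 * m + 1 := by omega
  have t1 : torsionOrder K = 2 * q := by
    rw [IsCyclotomicExtension.Rat.torsionOrder_eq (n := q), if_neg]
    rw [Nat.not_even_iff_odd]
    exact hq.out.odd_of_ne_two (by omega)
  have t2 : torsionOrder (maximalRealSubfield K) = 2 := torsion_real _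
  have d1 : (|discr K| : ℝ) = (q : ℝ) ^ (2 * m + 1) := by
    rw [IsCyclotomicExtension.Rat.discr_prime q K, e3]
    push_cast
    rw [abs_mul, abs_pow, abs_neg, abs_one, one_pow, one_mul, abs_of_nonneg (by positivity)]
  have d2 : (|discr (maximalRealSubfield K)| : ℝ) = (q : ℝ) ^ m := by
    have h1 := discr_real q K h3
    rw [e2] at h1
    rw [← Int.cast_abs, Int.abs_eq_natAbs, h1]
    push_cast
    rfl
  have hR' : 0 < regulator (maximalRealSubfield K) := regulator_pos _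
  have hR : regulator K = 2 ^ m * regulator (maximalRealSubfield K) := by
    have h1 := reg_quot q K h3
    rw [e2, div_eq_iff hR'.ne'] at h1
    exact h1
  have hh' : (0 : ℝ) < (classNumber (maximalRealSubfield K) : ℝ) := by
    exact_mod_cast Fintype.card_pos
  have hE : ((q : ℝ) - 1) / 4 = ((m + 1 : ℕ) : ℝ) / 2 := by
    rw [hm]
    push_cast
    ring
  rw [hE, HF_rpow hQ, dedekindZeta_residue_def, dedekindZeta_residue_def, p1, p2, p3, p4, t1, t2, d1, d2, e1]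
  rw [← HF_calc hQ hR' hh' Real.pi_pos m hR]
  push_cast
  rfl

end Pool.Agent.Lib.MP_5deb1d_nt
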