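import Mathlib
import Pool.Agent.Lib.MP_5deb1d_nt.H0
import Pool.Agent.Lib.MP_1a91b9_ntT.S4.EulerSum

/-!
JOB HG. The Euler product of the Dedekind zeta function, logarithmic form. PROOF: `hasProd_ideals` (`Lib/MP_1a91b9_ntT/S4/EulerSum.lean`) for `f I = (absNorm I)^(-s)` (complex; `f 0 = 0`), summability and
`∑' I, f I = dedekindZeta L s` by grouping the ideals of norm `n` (finitely many; models: `Lib/MP_021685_agT/GC1.lean`, `GC2.lean`, `Lib/MP_10e784_ag/PT/PTZetaL.lean`, `Lib/MP_1a91b9_ntT/S4`). All factors `(1 - N P^(-s))⁻¹ > 1` are real, so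
the product is real `≥ 1` and the logarithms are summable (`HasProd` of positive reals `≥ 1` and `Real.log`: partial products, `Real.log_prod`, continuity).
-/

set_option autoImplicit false

open NumberField NumberField.Units NumberField.InfinitePlace Ideal

namespace Pool.Agent.Lib.MP_5deb1d_nt

open Filter Topology in
private theorem HG_bigO (K : Type*) [Field K] [NumberField K] :
    (fun n : ℕ ↦ ∑ k ∈ Finset.Icc 1 n, (Nat.card {I : Ideal (𝓞 K) // Ideal.absNorm I = k} : ℝ))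
      =O[atTop] fun n ↦ (n : ℝ) ^ (1 : ℝ) := by
  have h1 : Tendsto (fun n : ℕ ↦
      (∑ k ∈ Finset.Icc 1 n, (Nat.card {I : Ideal (𝓞 K) // Ideal.absNorm I = k} : ℝ)) / (n : ℝ)) atTop
      (𝓝 ((2 ^ InfinitePlace.nrRealPlaces K * (2 * Real.pi) ^ InfinitePlace.nrComplexPlaces K *
        Units.regulator K * classNumber K) / (Units.torsionOrder K * Real.sqrt |discr K|))) := by
    refine ((Ideal.tendsto_norm_le_div_atTop₀ K).comp tendsto_natCast_atTop_atTop).congr fun n ↦ ?_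
    simp only [Function.comp_apply, Nat.cast_le, ← Nat.cast_sum]
    congr
    rw [← add_left_inj 1, ← Ideal.card_norm_le_eq_card_norm_le_add_one,
      show Finset.Icc 1 n = Finset.Ioc 0 n from Finset.Icc_succ_left_eq_Ioc _ _,
      show 1 = Nat.card {I : Ideal (𝓞 K) // Ideal.absNorm I = 0} by simp [Ideal.absNorm_eq_zero_iff],
      Finset.sum_Ioc_add_eq_sum_Icc (n.zero_le),
      ← Finset.card_preimage_eq_sum_card_image_eq (fun k _ ↦ Ideal.finite_setOfPred_absNorm_eq k)]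
    simp [Set.coe_eq_subtype]
  have h2 := h1.isBigO_one ℝ
  have h3 : (fun n : ℕ ↦ (∑ k ∈ Finset.Icc 1 n, (Nat.card {I : Ideal (𝓞 K) // Ideal.absNorm I = k} : ℝ)))
      =ᶠ[atTop] (fun n : ℕ ↦ ((∑ k ∈ Finset.Icc 1 n,
        (Nat.card {I : Ideal (𝓞 K) // Ideal.absNorm I = k} : ℝ)) / (n : ℝ)) * (n : ℝ) ^ (1 : ℝ)) := by
    filter_upwards [eventually_gt_atTop 0] with n hn
    have : (n : ℝ) ≠ 0 := by positivity
    rw [Real.rpow_one]
    field_simp
  refine h3.trans_isBigO ?_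
  have h4 := h2.mul (Asymptotics.isBigO_refl (fun n : ℕ ↦ (n : ℝ) ^ (1 : ℝ)) atTop)
  simpa using h4

private theorem HG_summable (K : Type*) [Field K] [NumberField K] {s : ℝ} (hs : 1 < s) :
    LSeriesSummable (fun n ↦ ((Nat.card {I : Ideal (𝓞 K) // Ideal.absNorm I = n} : ℝ) : ℂ)) (s : ℂ) :=
  LSeriesSummable_of_sum_norm_bigO_and_nonneg (HG_bigO K) (fun _ => Nat.cast_nonneg _) zero_le_one
    (by simpa using hs)

private theorem HG_term (a : ℕ → ℕ) {s : ℝ} (hs : 1 < s) (n : ℕ) :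
    LSeries.term (fun n ↦ ((a n : ℝ) : ℂ)) (s : ℂ) n = (((a n : ℝ) * (n : ℝ) ^ (-s) : ℝ) : ℂ) := by
  rcases eq_or_ne n 0 with rfl | hn
  · rw [LSeries.term_zero, Nat.cast_zero, Real.zero_rpow (by linarith), mul_zero, Complex.ofReal_zero]
  · rw [LSeries.term_of_ne_zero hn]
    have h1 : ((n : ℂ)) ^ (s : ℂ) = (((n : ℝ) ^ s : ℝ) : ℂ) := by
      rw [Complex.ofReal_cpow (Nat.cast_nonneg n)]
      simp
    rw [h1, ← Complex.ofReal_div, Real.rpow_neg (Nat.cast_nonneg n)]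
    rfl

private theorem HG_sum (L : Type*) [Field L] [NumberField L] {s : ℝ} (hs : 1 < s) :
    (Summable fun I : Ideal (𝓞 L) => (absNorm I : ℝ) ^ (-s)) ∧
      dedekindZeta L (s : ℂ) = ((∑' I : Ideal (𝓞 L), (absNorm I : ℝ) ^ (-s) : ℝ) : ℂ) := by
  have hsum := HG_summable L hs
  have ht : ∀ n, LSeries.term (fun n ↦ ((Nat.card {I : Ideal (𝓞 L) // Ideal.absNorm I = n} : ℝ) : ℂ))
      (s : ℂ) n = (((Nat.card {I : Ideal (𝓞 L) // Ideal.absNorm I = n} : ℝ) * (n : ℝ) ^ (-s) : ℝ) : ℂ) :=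
    fun n => HG_term (fun n => Nat.card {I : Ideal (𝓞 L) // Ideal.absNorm I = n}) hs n
  have hb : Summable fun n : ℕ => (Nat.card {I : Ideal (𝓞 L) // Ideal.absNorm I = n} : ℝ) * (n : ℝ) ^ (-s) := by
    have h1 : Summable fun n => (((Nat.card {I : Ideal (𝓞 L) // Ideal.absNorm I = n} : ℝ) *
        (n : ℝ) ^ (-s) : ℝ) : ℂ) := by
      refine Summable.congr hsum fun n => ?_
      exact ht n
    exact Complex.summable_ofReal.mp h1
  have hz : dedekindZeta L (s : ℂ) =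
      ((∑' n : ℕ, (Nat.card {I : Ideal (𝓞 L) // Ideal.absNorm I = n} : ℝ) * (n : ℝ) ^ (-s) : ℝ) : ℂ) := by
    have h1 : dedekindZeta L (s : ℂ) = ∑' n, LSeries.term
        (fun n ↦ ((Nat.card {I : Ideal (𝓞 L) // Ideal.absNorm I = n} : ℝ) : ℂ)) (s : ℂ) n := by
      unfold dedekindZeta LSeries
      simp
    rw [h1, Complex.ofReal_tsum]
    exact tsum_congr ht
  set e : (Σ n, {I : Ideal (𝓞 L) // absNorm I = n}) ≃ Ideal (𝓞 L) :=
    Equiv.sigmaFiberEquiv (fun I : Ideal (𝓞 L) => absNorm I) with he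
  have hev : ∀ x, (absNorm (e x) : ℝ) ^ (-s) = ((x.1 : ℕ) : ℝ) ^ (-s) := by
    rintro ⟨n, I, hI⟩
    change ((absNorm I : ℕ) : ℝ) ^ (-s) = _
    rw [hI]
  have hfib : ∀ n : ℕ, ∑' _ : {I : Ideal (𝓞 L) // absNorm I = n}, (n : ℝ) ^ (-s) =
      (Nat.card {I : Ideal (𝓞 L) // Ideal.absNorm I = n} : ℝ) * (n : ℝ) ^ (-s) := by
    intro n
    rw [tsum_const, nsmul_eq_mul]
  have hg : Summable fun x : (Σ n, {I : Ideal (𝓞 L) // absNorm I = n}) => ((x.1 : ℕ) : ℝ) ^ (-s) := by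
    rw [summable_sigma_of_nonneg fun x => Real.rpow_nonneg (Nat.cast_nonneg _) _]
    refine ⟨fun n => ?_, ?_⟩
    · have : Finite {I : Ideal (𝓞 L) // absNorm I = n} := Ideal.finite_setOfPred_absNorm_eq n
      exact Summable.of_finite
    · exact hb.congr fun n => (hfib n).symm
  have ha : Summable fun I : Ideal (𝓞 L) => (absNorm I : ℝ) ^ (-s) := by
    rw [← e.summable_iff]
    exact hg.congr fun x => (hev x).symm
  refine ⟨ha, ?_⟩
  rw [hz]
  congr 1
  rw [← e.tsum_eq, tsum_congr hev, hg.tsum_sigma]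
  exact tsum_congr fun n => (hfib n).symm

theorem log_zeta (L : Type*) [Field L] [NumberField L] (s : ℝ) (hs : 1 < s) :
    ∃ z : ℝ, 0 < z ∧ dedekindZeta L (s : ℂ) = (z : ℂ) ∧
      HasSum (fun P : IsDedekindDomain.HeightOneSpectrum (𝓞 L) => -Real.log (1 - (absNorm P.asIdeal : ℝ) ^ (-s)))
        (Real.log z) := by
  obtain ⟨ha, hz⟩ := HG_sum L hs
  have hs0 : -s ≠ 0 := by linarith
  have h1 : ((absNorm (1 : Ideal (𝓞 L)) : ℕ) : ℝ) ^ (-s) = 1 := by
    rw [map_one, Nat.cast_one, Real.one_rpow]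
  have hpos : 0 < ∑' I : Ideal (𝓞 L), (absNorm I : ℝ) ^ (-s) := by
    refine lt_of_lt_of_le one_pos ?_
    rw [← h1]
    exact ha.le_tsum (1 : Ideal (𝓞 L)) fun I _ => Real.rpow_nonneg (Nat.cast_nonneg _) _
  refine ⟨_, hpos, hz, ?_⟩
  have hP := Pool.Agent.Lib.MP_1a91b9_ntT.S4.hasProd_ideals (R := 𝓞 L)
    (fun I => ((((absNorm I : ℕ) : ℝ) ^ (-s) : ℝ) : ℂ)) (by
      rw [map_zero, Nat.cast_zero, Real.zero_rpow hs0, Complex.ofReal_zero]) (by
      rw [h1, Complex.ofReal_one]) (by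
      intro I J
      rw [map_mul, Nat.cast_mul, Real.mul_rpow (Nat.cast_nonneg _) (Nat.cast_nonneg _), Complex.ofReal_mul])
    (by
      refine ha.congr fun I => ?_
      rw [Complex.norm_real, Real.norm_of_nonneg (Real.rpow_nonneg (Nat.cast_nonneg _) _)])
  rw [← Complex.ofReal_tsum] at hP
  have hlt : ∀ P : IsDedekindDomain.HeightOneSpectrum (𝓞 L), ((absNorm P.asIdeal : ℕ) : ℝ) ^ (-s) < 1 := by
    intro P
    have hn0 : absNorm P.asIdeal ≠ 0 := fun h => P.ne_bot (Ideal.absNorm_eq_zero_iff.1 h)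
    have hn1 : absNorm P.asIdeal ≠ 1 := fun h => P.isPrime.ne_top (Ideal.absNorm_eq_one_iff.1 h)
    have h2 : (1 : ℝ) < ((absNorm P.asIdeal : ℕ) : ℝ) := by
      have : 1 < absNorm P.asIdeal := by omega
      exact_mod_cast this
    exact Real.rpow_lt_one_of_one_lt_of_neg h2 (by linarith)
  have hR : Filter.Tendsto (fun S : Finset (IsDedekindDomain.HeightOneSpectrum (𝓞 L)) =>
      ∏ P ∈ S, (1 - ((absNorm P.asIdeal : ℕ) : ℝ) ^ (-s))⁻¹) Filter.atTop
      (nhds (∑' I : Ideal (𝓞 L), (absNorm I : ℝ) ^ (-s))) := by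
    rw [HasProd, SummationFilter.unconditional_filter] at hP
    have h3 := (Complex.continuous_re.tendsto _).comp hP
    rw [Complex.ofReal_re] at h3
    refine h3.congr fun S => ?_
    rw [Function.comp_apply, ← Complex.ofReal_re (∏ P ∈ S, (1 - ((absNorm P.asIdeal : ℕ) : ℝ) ^ (-s))⁻¹)]
    congr 1
    push_cast
    rfl
  rw [HasSum, SummationFilter.unconditional_filter]
  refine (hR.log hpos.ne').congr fun S => ?_
  rw [Real.log_prod]
  · refine Finset.sum_congr rfl fun P _ => ?_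
    rw [Real.log_inv]
  · intro P _
    exact inv_ne_zero (by linarith [hlt P])

end Pool.Agent.Lib.MP_5deb1d_nt
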