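import Mathlib
import Pool.Agent.Lib.MP_5deb1d_nt.H0

/-!
JOB HH. From prime ideals to prime powers. PROOF: every `P` lies over a unique prime `p`, `N P = p^f`, `f = inertiaDeg P ℤ ≥ 1` (`pow_inertiaDeg`); `-log(1 - p^(-f s)) = ∑_{m ≥ 1} p^(-f m s)/m = ∑_{k ≥ 1, f ∣ k} f p^(-k s)/k`
(`Real.hasSum_pow_div_log_of_abs_lt_one`). All terms are `≥ 0`, so the double sum may be reordered: `∑_P ∑_k = ∑_{(p,k)} (1/k) p^(-ks) ∑_{P ∣ p, f_P ∣ k} f_P`. The index is `k + 1`. (`primesOver` is finite.)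
-/

set_option autoImplicit false

open NumberField NumberField.Units NumberField.InfinitePlace Ideal

namespace Pool.Agent.Lib.MP_5deb1d_nt

/-- The prime number below `P`. -/
private noncomputable def HH_p {L : Type*} [Field L] [NumberField L]
    (P : IsDedekindDomain.HeightOneSpectrum (𝓞 L)) : Nat.Primes :=
  ⟨absNorm (under ℤ P.asIdeal), by
    have : NeZero P.asIdeal := ⟨P.ne_bot⟩
    exact Nat.absNorm_under_prime P.asIdeal⟩

private theorem HH_norm {L : Type*} [Field L] [NumberField L]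
    (P : IsDedekindDomain.HeightOneSpectrum (𝓞 L)) :
    ((HH_p P : Nat.Primes) : ℕ) ^ (inertiaDeg P.asIdeal ℤ) = absNorm P.asIdeal :=
  pow_inertiaDeg (absNorm (under ℤ P.asIdeal)) P.asIdeal

private theorem HH_pos {L : Type*} [Field L] [NumberField L]
    (P : IsDedekindDomain.HeightOneSpectrum (𝓞 L)) : 0 < inertiaDeg P.asIdeal ℤ :=
  inertiaDeg_pos P.asIdeal ℤ

private theorem HH_iff {L : Type*} [Field L] [NumberField L]
    (P : IsDedekindDomain.HeightOneSpectrum (𝓞 L)) (p : ℕ) :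
    P.asIdeal ∈ primesOver (span {(p : ℤ)}) (𝓞 L) ↔ ((HH_p P : Nat.Primes) : ℕ) = p := by
  constructor
  · rintro ⟨-, h⟩
    have h1 : span {(p : ℤ)} = under ℤ P.asIdeal := h.over
    have h2 := congrArg absNorm h1
    have h3 : absNorm (span {(p : ℤ)}) = p := by simp
    rw [h3] at h2
    exact h2.symm
  · intro h
    rw [← h]
    exact ⟨P.isPrime, Int.liesOver_span_absNorm P.asIdeal⟩

private theorem HH_two {L : Type*} [Field L] [NumberField L]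
    (P : IsDedekindDomain.HeightOneSpectrum (𝓞 L)) : (1 : ℝ) < (absNorm P.asIdeal : ℝ) := by
  have h1 : 1 < absNorm P.asIdeal := by
    rw [← HH_norm]
    exact Nat.one_lt_pow (HH_pos P).ne' (HH_p P).2.one_lt
  exact_mod_cast h1

private theorem HH_term {L : Type*} [Field L] [NumberField L] (s : ℝ)
    (P : IsDedekindDomain.HeightOneSpectrum (𝓞 L)) (m k : ℕ)
    (hk : inertiaDeg P.asIdeal ℤ * (m + 1) = k + 1) :
    ((absNorm P.asIdeal : ℝ) ^ (-s)) ^ (m + 1) / ((m : ℝ) + 1) =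
      (inertiaDeg P.asIdeal ℤ : ℝ) *
        (((((HH_p P : Nat.Primes) : ℕ) ^ (k + 1) : ℕ) : ℝ) ^ (-s) / ((k : ℝ) + 1)) := by
  have hN : (0 : ℝ) ≤ (absNorm P.asIdeal : ℝ) := Nat.cast_nonneg _
  have h1 : ((absNorm P.asIdeal : ℝ) ^ (-s)) ^ (m + 1) =
      ((((HH_p P : Nat.Primes) : ℕ) ^ (k + 1) : ℕ) : ℝ) ^ (-s) := by
    rw [← hk, pow_mul, HH_norm, Nat.cast_pow, ← Real.rpow_natCast ((absNorm P.asIdeal : ℝ) ^ (-s)),
      ← Real.rpow_mul hN, ← Real.rpow_natCast (absNorm P.asIdeal : ℝ), ← Real.rpow_mul hN,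
      mul_comm]
  rw [h1]
  have h2 : (inertiaDeg P.asIdeal ℤ : ℝ) * ((m : ℝ) + 1) = (k : ℝ) + 1 := by exact_mod_cast hk
  have h3 : (0 : ℝ) < (m : ℝ) + 1 := by positivity
  have h4 : (0 : ℝ) < (inertiaDeg P.asIdeal ℤ : ℝ) := by exact_mod_cast HH_pos P
  rw [← h2]
  field_simp

private theorem HH_fib {L : Type*} [Field L] [NumberField L] (p k : ℕ) (w : ℝ) :
    HasSum (fun P : {P : Ideal (𝓞 L) | P ∈ primesOver (span {(p : ℤ)}) (𝓞 L) ∧
      inertiaDeg P ℤ ∣ k} => (inertiaDeg P.1 ℤ : ℝ) * w) (cc L p k * w) := by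
  have hfin : {P : Ideal (𝓞 L) | P ∈ primesOver (span {(p : ℤ)}) (𝓞 L) ∧
      inertiaDeg P ℤ ∣ k}.Finite :=
    (Algebra.QuasiFinite.finite_primesOver (R := ℤ) (S := 𝓞 L) (span {(p : ℤ)})).subset
      fun P hP => hP.1
  have : Fintype {P : Ideal (𝓞 L) | P ∈ primesOver (span {(p : ℤ)}) (𝓞 L) ∧
      inertiaDeg P ℤ ∣ k} := hfin.fintype
  refine HasSum.mul_right w ?_
  have h1 : cc L p k = ∑ P : {P : Ideal (𝓞 L) | P ∈ primesOver (span {(p : ℤ)}) (𝓞 L) ∧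
      inertiaDeg P ℤ ∣ k}, (inertiaDeg P.1 ℤ : ℝ) := by
    unfold cc
    rw [← finsum_set_coe_eq_finsum_mem, finsum_eq_sum_of_fintype]
  rw [h1]
  exact hasSum_fintype _

theorem sum_pk (L : Type*) [Field L] [NumberField L] (s : ℝ) (hs : 1 < s) (z : ℝ)
    (hz : HasSum (fun P : IsDedekindDomain.HeightOneSpectrum (𝓞 L) => -Real.log (1 - (absNorm P.asIdeal : ℝ) ^ (-s))) z) :
    HasSum (fun x : Nat.Primes × ℕ => cc L (x.1 : ℕ) (x.2 + 1) * ((((x.1 : ℕ) ^ (x.2 + 1) : ℕ) : ℝ) ^ (-s) / ((x.2 : ℝ) + 1))) z := by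
  classical
  have hx : ∀ P : IsDedekindDomain.HeightOneSpectrum (𝓞 L),
      0 < (absNorm P.asIdeal : ℝ) ^ (-s) ∧ (absNorm P.asIdeal : ℝ) ^ (-s) < 1 := fun P =>
    ⟨Real.rpow_pos_of_pos (by linarith [HH_two P]) _,
      Real.rpow_lt_one_of_one_lt_of_neg (HH_two P) (by linarith)⟩
  have hin : ∀ P : IsDedekindDomain.HeightOneSpectrum (𝓞 L),
      HasSum (fun m : ℕ => ((absNorm P.asIdeal : ℝ) ^ (-s)) ^ (m + 1) / ((m : ℝ) + 1))
        (-Real.log (1 - (absNorm P.asIdeal : ℝ) ^ (-s))) := fun P =>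
    Real.hasSum_pow_div_log_of_abs_lt_one (by rw [abs_of_pos (hx P).1]; exact (hx P).2)
  let f : IsDedekindDomain.HeightOneSpectrum (𝓞 L) × ℕ → ℝ := fun a =>
    ((absNorm a.1.asIdeal : ℝ) ^ (-s)) ^ (a.2 + 1) / ((a.2 : ℝ) + 1)
  have hnn : 0 ≤ f := fun a => div_nonneg (pow_nonneg (hx a.1).1.le _) (by positivity)
  have hsum : Summable f := by
    refine (summable_prod_of_nonneg hnn).2 ⟨fun P => (hin P).summable, ?_⟩
    have h1 : (fun P : IsDedekindDomain.HeightOneSpectrum (𝓞 L) => ∑' m, f (P, m)) =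
        fun P => -Real.log (1 - (absNorm P.asIdeal : ℝ) ^ (-s)) :=
      funext fun P => (hin P).tsum_eq
    rw [h1]
    exact hz.summable
  have hf : HasSum f z := by
    have h1 := hsum.hasSum.prod_fiberwise hin
    rw [← h1.unique hz]
    exact hsum.hasSum
  let φ : IsDedekindDomain.HeightOneSpectrum (𝓞 L) × ℕ → Nat.Primes × ℕ := fun a =>
    (HH_p a.1, inertiaDeg a.1.asIdeal ℤ * (a.2 + 1) - 1)
  have h2 := (Equiv.sigmaFiberEquiv φ).hasSum_iff.2 hf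
  refine HasSum.sigma h2 fun y => ?_
  have hφ : ∀ a : {a // φ a = y}, ((HH_p a.1.1 : Nat.Primes) : ℕ) = (y.1 : ℕ) ∧
      inertiaDeg a.1.1.asIdeal ℤ * (a.1.2 + 1) = y.2 + 1 := by
    rintro ⟨⟨P, m⟩, h⟩
    have h3 : HH_p P = y.1 := congrArg Prod.fst h
    have h4 : inertiaDeg P.asIdeal ℤ * (m + 1) - 1 = y.2 := congrArg Prod.snd h
    have h5 : 0 < inertiaDeg P.asIdeal ℤ * (m + 1) := Nat.mul_pos (HH_pos P) (Nat.succ_pos m)
    refine ⟨by rw [h3], ?_⟩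
    change inertiaDeg P.asIdeal ℤ * (m + 1) = y.2 + 1
    omega
  let e : {a // φ a = y} → {P : Ideal (𝓞 L) | P ∈ primesOver (span {((y.1 : ℕ) : ℤ)}) (𝓞 L) ∧
      inertiaDeg P ℤ ∣ y.2 + 1} := fun a =>
    ⟨a.1.1.asIdeal, (HH_iff a.1.1 _).2 (hφ a).1, ⟨a.1.2 + 1, (hφ a).2.symm⟩⟩
  have hinj : Function.Injective e := by
    intro a b hab
    have h3 : a.1.1.asIdeal = b.1.1.asIdeal := congrArg Subtype.val hab
    have h4 : a.1.1 = b.1.1 := IsDedekindDomain.HeightOneSpectrum.ext h3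
    have h5 : a.1.2 = b.1.2 := by
      have h6 := (hφ a).2
      have h7 := (hφ b).2
      rw [← h3, ← h6] at h7
      have h8 := Nat.eq_of_mul_eq_mul_left (HH_pos a.1.1) h7
      omega
    exact Subtype.ext (Prod.ext h4 h5)
  have hsurj : Function.Surjective e := by
    rintro ⟨P, hP, c, hc⟩
    have hp0 : (span {((y.1 : ℕ) : ℤ)} : Ideal ℤ) ≠ ⊥ := by
      rw [Ne, span_singleton_eq_bot]
      exact_mod_cast y.1.2.ne_zero
    let Q : IsDedekindDomain.HeightOneSpectrum (𝓞 L) :=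
      ⟨P, hP.1, ne_bot_of_mem_primesOver hp0 hP⟩
    have hc0 : c ≠ 0 := by
      rintro rfl
      rw [mul_zero] at hc
      exact absurd hc (Nat.succ_ne_zero _)
    obtain ⟨c, rfl⟩ := Nat.exists_eq_succ_of_ne_zero hc0
    have hQ : φ (Q, c) = y := by
      refine Prod.ext ?_ ?_
      · exact Subtype.ext ((HH_iff Q _).1 hP)
      · change inertiaDeg P ℤ * (c + 1) - 1 = y.2
        rw [← Nat.succ_eq_add_one c, ← hc, Nat.add_sub_cancel]
    exact ⟨⟨(Q, c), hQ⟩, rfl⟩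
  have h3 := (Equiv.ofBijective e ⟨hinj, hsurj⟩).hasSum_iff.2 (HH_fib (L := L) (y.1 : ℕ) (y.2 + 1)
    (((((y.1 : ℕ) ^ (y.2 + 1) : ℕ) : ℝ) ^ (-s) / ((y.2 : ℝ) + 1))))
  have h4 : (fun c : {a // φ a = y} => (f ∘ (Equiv.sigmaFiberEquiv φ)) ⟨y, c⟩) =
      (fun P : {P : Ideal (𝓞 L) | P ∈ primesOver (span {((y.1 : ℕ) : ℤ)}) (𝓞 L) ∧
        inertiaDeg P ℤ ∣ y.2 + 1} => (inertiaDeg P.1 ℤ : ℝ) *
          (((((y.1 : ℕ) ^ (y.2 + 1) : ℕ) : ℝ) ^ (-s) / ((y.2 : ℝ) + 1)))) ∘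
      (Equiv.ofBijective e ⟨hinj, hsurj⟩) := by
    funext c
    change ((absNorm c.1.1.asIdeal : ℝ) ^ (-s)) ^ (c.1.2 + 1) / ((c.1.2 : ℝ) + 1) =
      (inertiaDeg c.1.1.asIdeal ℤ : ℝ) *
          (((((y.1 : ℕ) ^ (y.2 + 1) : ℕ) : ℝ) ^ (-s) / ((y.2 : ℝ) + 1)))
    rw [HH_term s c.1.1 c.1.2 y.2 (hφ c).2, (hφ c).1]
  rw [h4]
  exact h3

end Pool.Agent.Lib.MP_5deb1d_nt
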