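import Mathlib
import Pool.Agent.Lib.MP_5deb1d_nt.H0

/-!
JOB HI. Splitting in `K = ℚ(ζ_q)`. `p ≠ q`: all `P` over `p` have `inertiaDeg P ℤ = orderOf (p : ZMod q) =: f` (`IsCyclotomicExtension.Rat.inertiaDeg_eq_of_not_dvd`), `e = 1` (`ramificationIdx_eq_of_not_dvd`), so their number is `(q-1)/f`
(`ncard_primesOver_mul_ramificationIdxIn_mul_inertiaDegIn` or `sum_ramification_inertia`), and `f ∣ k ↔ p^k ≡ 1 [MOD q]`. `p = q`: `ncard_primesOver_of_prime` (`= 1`), `inertiaDeg_eq_of_prime` (`= 1`).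
-/

set_option autoImplicit false

open NumberField NumberField.Units NumberField.InfinitePlace Ideal

namespace Pool.Agent.Lib.MP_5deb1d_nt

variable (q : ℕ) [hq : Fact q.Prime] (K : Type*) [Field K] [NumberField K] [hK : IsCyclotomicExtension {q} ℚ K]

omit hq hK in
private theorem HI_sum (S : Set (Ideal (𝓞 K))) (hS : S.Finite) (c : ℝ) (f : Ideal (𝓞 K) → ℝ)
    (hf : ∀ P ∈ S, f P = c) : ∑ᶠ P ∈ S, f P = (S.ncard : ℝ) * c := by
  rw [finsum_mem_congr rfl hf, finsum_mem_eq_finite_toFinset_sum _ hS, Finset.sum_const, nsmul_eq_mul,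
    Set.ncard_eq_toFinset_card S hS]

omit hq hK in
private theorem HI_fin (p : ℕ) (hp : p.Prime) : (primesOver (span {(p : ℤ)}) (𝓞 K)).Finite := by
  have h0 : (span {(p : ℤ)} : Ideal ℤ) ≠ ⊥ := by
    rw [Ne, span_singleton_eq_bot]
    exact_mod_cast hp.ne_zero
  have h1 : (span {(p : ℤ)} : Ideal ℤ).IsPrime :=
    (span_singleton_prime (by exact_mod_cast hp.ne_zero)).2 (Nat.prime_iff_prime_int.1 hp)
  exact Algebra.QuasiFinite.finite_primesOver _

theorem cc_K (p k : ℕ) (hp : p.Prime) (hpq : p ≠ q) (hk : 1 ≤ k) :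
    cc K p k = if p ^ k ≡ 1 [MOD q] then (q : ℝ) - 1 else 0 := by
  have : Fact p.Prime := ⟨hp⟩
  have hnd : ¬ p ∣ q := fun h => hpq ((Nat.prime_dvd_prime_iff_eq hp hq.out).1 h)
  have hdeg : ∀ P ∈ primesOver (span {(p : ℤ)}) (𝓞 K), inertiaDeg P ℤ = orderOf (p : ZMod q) := by
    rintro P ⟨hP1, hP2⟩
    exact IsCyclotomicExtension.Rat.inertiaDeg_eq_of_not_dvd p K P hnd
  have hiff : orderOf (p : ZMod q) ∣ k ↔ p ^ k ≡ 1 [MOD q] := by
    rw [orderOf_dvd_iff_pow_eq_one, ← ZMod.natCast_eq_natCast_iff, Nat.cast_pow, Nat.cast_one]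
  have hfin := HI_fin K p hp
  unfold cc
  by_cases h : p ^ k ≡ 1 [MOD q]
  · rw [if_pos h]
    have hset : {P : Ideal (𝓞 K) | P ∈ primesOver (span {(p : ℤ)}) (𝓞 K) ∧ inertiaDeg P ℤ ∣ k} =
        primesOver (span {(p : ℤ)}) (𝓞 K) := by
      ext P
      constructor
      · exact fun hP => hP.1
      · intro hP
        refine ⟨hP, ?_⟩
        rw [hdeg P hP]
        exact hiff.2 h
    rw [hset, HI_sum K _ hfin (orderOf (p : ZMod q) : ℝ) _ (fun P hP => by rw [hdeg P hP])]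
    have : IsGalois ℚ K := IsCyclotomicExtension.isGalois {q} ℚ K
    have h1 : (span {(p : ℤ)} : Ideal ℤ).IsPrime :=
      (span_singleton_prime (by exact_mod_cast hp.ne_zero)).2 (Nat.prime_iff_prime_int.1 hp)
    have h2 := ncard_primesOver_mul_ramificationIdxIn_mul_inertiaDegIn (span {(p : ℤ)}) (𝓞 K) Gal(K/ℚ)
    rw [IsCyclotomicExtension.Rat.ramificationIdxIn_eq_of_not_dvd p K hnd,
      IsCyclotomicExtension.Rat.inertiaDegIn_eq_of_not_dvd p K hnd, one_mul,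
      IsGaloisGroup.card_eq_finrank Gal(K/ℚ) ℚ K, IsCyclotomicExtension.Rat.finrank q K,
      Nat.totient_prime hq.out] at h2
    have h3 : (1 : ℕ) ≤ q := hq.out.one_le
    calc ((primesOver (span {(p : ℤ)}) (𝓞 K)).ncard : ℝ) * (orderOf (p : ZMod q) : ℝ)
        = (((primesOver (span {(p : ℤ)}) (𝓞 K)).ncard * orderOf (p : ZMod q) : ℕ) : ℝ) := by
          rw [Nat.cast_mul]
      _ = (q : ℝ) - 1 := by rw [h2, Nat.cast_sub h3, Nat.cast_one]
  · rw [if_neg h]
    have hset : {P : Ideal (𝓞 K) | P ∈ primesOver (span {(p : ℤ)}) (𝓞 K) ∧ inertiaDeg P ℤ ∣ k} = ∅ := by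
      ext P
      constructor
      · intro hP
        exact absurd (hiff.1 (by rw [← hdeg P hP.1]; exact hP.2)) h
      · exact fun hP => absurd hP (Set.notMem_empty P)
    rw [hset, finsum_mem_empty]

theorem cc_K_q (k : ℕ) (hk : 1 ≤ k) : cc K q k = 1 := by
  have hdeg : ∀ P ∈ primesOver (span {(q : ℤ)}) (𝓞 K), inertiaDeg P ℤ = 1 := by
    rintro P ⟨hP1, hP2⟩
    exact IsCyclotomicExtension.Rat.inertiaDeg_eq_of_prime q K P
  unfold cc
  have hset : {P : Ideal (𝓞 K) | P ∈ primesOver (span {(q : ℤ)}) (𝓞 K) ∧ inertiaDeg P ℤ ∣ k} =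
      primesOver (span {(q : ℤ)}) (𝓞 K) := by
    ext P
    constructor
    · exact fun hP => hP.1
    · intro hP
      refine ⟨hP, ?_⟩
      rw [hdeg P hP]
      exact one_dvd k
  rw [hset, HI_sum K _ (HI_fin K q hq.out) 1 _ (fun P hP => by rw [hdeg P hP, Nat.cast_one]),
    IsCyclotomicExtension.Rat.ncard_primesOver_of_prime q K, Nat.cast_one, one_mul]

end Pool.Agent.Lib.MP_5deb1d_nt
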