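import Mathlib
import Pool.Agent.Lib.MP_5deb1d_nt.H0

/-!
JOB HJ. Splitting in `K⁺`. PROOF, `p ≠ q`: `K⁺/ℚ` is Galois (`K/ℚ` is abelian). Let `P` be a prime of `K` over `p`, `𝔭` below it in `K⁺`. Inertia degrees multiply in the tower, `f(P/ℤ) = f = orderOf (p : ZMod q)`, and `f(P/𝔭)` is the order of the stabilizer of `P`
in `Gal(K/K⁺) = {1, c}` (`e = 1`): it is `2` iff `c` (complex conjugation, `galEquivZMod` image `-1`) lies in the decomposition group, iff `-1 ∈ ⟨p⟩ ⊆ (ZMod q)ˣ` (`galEquivZMod_stabilizer` in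
`NumberField/Cyclotomic/Galois.lean`). So `f(𝔭/ℤ) = f/2` or `f`, in both cases the least `k ≥ 1` with `p^k ≡ ±1`, i.e. `f(𝔭) ∣ k ↔ p^k ≡ ±1 (q)`. The number of the `𝔭` is `(q-1)/2` divided by this (`e = 1`). So the sum is
`(q-1)/2` or `0`. `p = q`: there is exactly one prime of `K` over `q` with residue degree `1`, so the same in `K⁺`.
(Another way to get `f(P/𝔭)`: count; e.g. if `-1 ∉ ⟨p⟩`, `c P ≠ P`.)
-/

set_option autoImplicit false

open NumberField NumberField.Units NumberField.InfinitePlace Ideal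

namespace Pool.Agent.Lib.MP_5deb1d_nt

variable (q : ℕ) [hq : Fact q.Prime] (K : Type*) [Field K] [NumberField K] [hK : IsCyclotomicExtension {q} ℚ K]


omit hq in
include hK in
private theorem HJ_conj_gal [NeZero q] [IsCMField K] :
    IsCyclotomicExtension.Rat.galEquivZMod q K ((IsCMField.complexConj K).restrictScalars ℚ) = -1 := by
  have hζ := IsCyclotomicExtension.zeta_spec q ℚ K
  have h1 := IsCyclotomicExtension.Rat.galEquivZMod_apply_of_pow_eq q K
    ((IsCMField.complexConj K).restrictScalars ℚ) hζ.pow_eq_one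
  have h2 : IsCMField.complexConj K (IsCyclotomicExtension.zeta q ℚ K) =
      (IsCyclotomicExtension.zeta q ℚ K)⁻¹ := by
    let φ : K →+* ℂ := Classical.choice (inferInstance : Nonempty _)
    apply φ.injective
    rw [IsCMField.complexEmbedding_complexConj, map_inv₀]
    have hn : ‖φ (IsCyclotomicExtension.zeta q ℚ K)‖ = 1 := by
      have : (φ (IsCyclotomicExtension.zeta q ℚ K)) ^ q = 1 := by
        rw [← map_pow, hζ.pow_eq_one, map_one]
      exact Complex.norm_eq_one_of_pow_eq_one this (NeZero.ne q)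
    rw [Complex.inv_def, Complex.normSq_eq_norm_sq, hn]
    simp
  have h3 : (IsCyclotomicExtension.zeta q ℚ K) ^
      (IsCyclotomicExtension.Rat.galEquivZMod q K
        ((IsCMField.complexConj K).restrictScalars ℚ)).val.val * IsCyclotomicExtension.zeta q ℚ K = 1 := by
    rw [← h1]
    change IsCMField.complexConj K (IsCyclotomicExtension.zeta q ℚ K) * _ = 1
    rw [h2]
    exact inv_mul_cancel₀ (hζ.ne_zero (NeZero.ne q))
  rw [← pow_succ] at h3
  have h4 := (hζ.pow_eq_one_iff_dvd _).mp h3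
  have h5 := (ZMod.natCast_eq_zero_iff _ _).mpr h4
  rw [Nat.cast_add, ZMod.natCast_zmod_val, Nat.cast_one] at h5
  rw [Units.ext_iff, Units.val_neg, Units.val_one]
  exact eq_neg_of_add_eq_zero_left h5

open scoped Pointwise in
private theorem HJ_not_one (h3 : 3 ≤ q) [IsCMField K] (p k : ℕ) [hp : Fact p.Prime] (hpq : p ≠ q)
    (hpk : q ∣ p ^ k + 1) (P : Ideal (𝓞 K)) [P.IsMaximal] [P.LiesOver (span {(p : ℤ)})]
    (h1 : ∀ x : 𝓞 K, ∃ r : 𝓞 (maximalRealSubfield K),
      x - algebraMap (𝓞 (maximalRealSubfield K)) (𝓞 K) r ∈ P) : False := by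
  classical
  have hζ := IsCyclotomicExtension.zeta_spec q ℚ K
  have hn : p.Coprime q := (Nat.coprime_primes hp.out hq.out).mpr hpq
  set c : Gal(K/ℚ) := (IsCMField.complexConj K).restrictScalars ℚ with hc
  have hmem : (-1 : (ZMod q)ˣ) ∈ Subgroup.zpowers (ZMod.unitOfCoprime p hn) := by
    refine ⟨k, ?_⟩
    rw [Units.ext_iff]
    simp only [zpow_natCast, Units.val_pow_eq_pow_val, ZMod.coe_unitOfCoprime, Units.val_neg, Units.val_one]
    have h5 := (ZMod.natCast_eq_zero_iff _ _).mpr hpk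
    push_cast at h5
    exact eq_neg_of_add_eq_zero_left h5
  rw [← IsCyclotomicExtension.Rat.galEquivZMod_stabilizer q K p P hn] at hmem
  have hcs : c ∈ MulAction.stabilizer Gal(K/ℚ) P := by
    obtain ⟨σ, hσ, hσ1⟩ := hmem
    have h6 := HJ_conj_gal q K
    have h7 : σ = c := by
      apply (IsCyclotomicExtension.Rat.galEquivZMod q K).injective
      rw [hc, h6]
      exact hσ1
    rw [← h7]
    exact hσ
  have hcP : ∀ x ∈ P, c • x ∈ P := by
    intro x hx
    have h8 : c • P = P := hcs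
    rw [← h8]
    exact Ideal.smul_mem_pointwise_smul c x P hx
  obtain ⟨r, hr⟩ := h1 hζ.toInteger
  have h9 := hcP _ hr
  rw [smul_sub] at h9
  have h10 : c • (algebraMap (𝓞 (maximalRealSubfield K)) (𝓞 K) r) =
      algebraMap (𝓞 (maximalRealSubfield K)) (𝓞 K) r := by
    apply RingOfIntegers.ext
    exact (IsCMField.complexConj K).commutes (r : maximalRealSubfield K)
  have h11 : c • hζ.toInteger * hζ.toInteger = 1 := by
    have h12 := HJ_conj_gal q K
    have h13 := IsCyclotomicExtension.Rat.galEquivZMod_smul_of_pow_eq q K c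
      (hζ.toInteger_isPrimitiveRoot.pow_eq_one)
    rw [h13, hc, h12, ← pow_succ, hζ.toInteger_isPrimitiveRoot.pow_eq_one_iff_dvd,
      ← ZMod.natCast_eq_zero_iff]
    simp
  rw [h10] at h9
  have h14 : hζ.toInteger - c • hζ.toInteger ∈ P := by
    have := P.sub_mem hr h9
    rwa [sub_sub_sub_cancel_right] at this
  have h15 : hζ.toInteger ^ 2 - 1 ∈ P := by
    have := P.mul_mem_right hζ.toInteger h14
    rw [sub_mul, h11] at this
    rwa [pow_two]
  have h0 : IsPrimitiveRoot (Ideal.Quotient.mk P hζ.toInteger) q := by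
    refine hζ.toInteger_isPrimitiveRoot.idealQuotient_mk
      (by simpa using IsMaximal.ne_top inferInstance) ?_
    rw [← pow_inertiaDeg p]
    exact Nat.Coprime.pow_left _ hn
  have h16 : (Ideal.Quotient.mk P hζ.toInteger) ^ 2 = 1 := by
    rw [← map_pow, ← map_one (Ideal.Quotient.mk P)]
    exact Ideal.Quotient.eq.mpr h15
  have h17 := (h0.pow_eq_one_iff_dvd 2).mp h16
  have := Nat.le_of_dvd (by norm_num) h17
  omega


private theorem HJ_le_two [IsCMField K] (𝔭 : Ideal (𝓞 (maximalRealSubfield K))) [𝔭.IsPrime]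
    (P : Ideal (𝓞 K)) [P.IsPrime] [P.LiesOver 𝔭] :
    P.inertiaDeg (𝓞 (maximalRealSubfield K)) ≤ 2 := by
  classical
  have : Fintype (primesOver 𝔭 (𝓞 K)) := (Algebra.QuasiFinite.finite_primesOver 𝔭).fintype
  have h1 := sum_ramification_inertia_eq_finrank 𝔭 (𝓞 K)
  have h2 : Module.finrank (𝓞 (maximalRealSubfield K)) (𝓞 K) = 2 := by
    rw [← IsFractionRing.finrank_eq (𝓞 (maximalRealSubfield K)) (maximalRealSubfield K) (𝓞 K) K]
    exact Algebra.IsQuadraticExtension.finrank_eq_two _ _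
  rw [h2] at h1
  have h3 := Finset.single_le_sum (f := fun Q : primesOver 𝔭 (𝓞 K) =>
    Q.1.ramificationIdx (𝓞 (maximalRealSubfield K)) * Q.1.inertiaDeg (𝓞 (maximalRealSubfield K)))
    (fun _ _ => Nat.zero_le _) (Finset.mem_univ (primesOver.mk 𝔭 P))
  rw [h1] at h3
  have h4 := P.ramificationIdx_pos (𝓞 (maximalRealSubfield K))
  have h5 : P.inertiaDeg (𝓞 (maximalRealSubfield K)) ≤
      P.ramificationIdx (𝓞 (maximalRealSubfield K)) * P.inertiaDeg (𝓞 (maximalRealSubfield K)) :=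
    Nat.le_mul_of_pos_left _ h4
  exact le_trans h5 h3

private theorem HJ_surj [IsCMField K] (𝔭 : Ideal (𝓞 (maximalRealSubfield K))) [𝔭.IsMaximal]
    (P : Ideal (𝓞 K)) [P.IsMaximal] [P.LiesOver 𝔭]
    (h : P.inertiaDeg (𝓞 (maximalRealSubfield K)) = 1) (x : 𝓞 K) :
    ∃ r : 𝓞 (maximalRealSubfield K), x - algebraMap (𝓞 (maximalRealSubfield K)) (𝓞 K) r ∈ P := by
  rw [inertiaDeg_eq_of_isMaximal 𝔭 P] at h
  let _ : Field (𝓞 (maximalRealSubfield K) ⧸ 𝔭) := Quotient.field 𝔭
  have h1 := (finrank_eq_one_iff_of_nonzero' (K := 𝓞 (maximalRealSubfield K) ⧸ 𝔭) (V := 𝓞 K ⧸ P) 1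
    one_ne_zero).mp h
  obtain ⟨c, hc⟩ := h1 (Ideal.Quotient.mk P x)
  obtain ⟨r, hr⟩ := Ideal.Quotient.mk_surjective c
  refine ⟨r, ?_⟩
  rw [← Ideal.Quotient.eq, ← hc, ← hr, Algebra.smul_def, mul_one]
  rfl

private theorem HJ_main (h3 : 3 ≤ q) [IsCMField K] (p k : ℕ) [hp : Fact p.Prime] (hpq : p ≠ q)
    (𝔭 : Ideal (𝓞 (maximalRealSubfield K))) [𝔭.IsPrime] [𝔭.LiesOver (span {(p : ℤ)})] :
    𝔭.ramificationIdx ℤ = 1 ∧
      (𝔭.inertiaDeg ℤ ∣ k ↔ p ^ k ≡ 1 [MOD q] ∨ q ∣ p ^ k + 1) := by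
  obtain ⟨⟨P, hP1, hP2⟩⟩ := 𝔭.nonempty_primesOver (S := 𝓞 K)
  have hPp : P.LiesOver (span {(p : ℤ)}) := LiesOver.trans P 𝔭 _
  have hpz : (span {(p : ℤ)}).IsMaximal := Int.ideal_span_isMaximal_of_prime p
  have hPm : P.IsMaximal := IsMaximal.of_liesOver_isMaximal P (span {(p : ℤ)})
  have hpm : 𝔭.IsMaximal := IsMaximal.of_liesOver_isMaximal 𝔭 (span {(p : ℤ)})
  have hdvd : ¬ p ∣ q := by
    intro h
    exact hpq ((Nat.prime_dvd_prime_iff_eq hp.out hq.out).mp h)
  have he := IsCyclotomicExtension.Rat.ramificationIdx_eq_of_not_dvd (m := q) p K P hdvd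
  have hf := IsCyclotomicExtension.Rat.inertiaDeg_eq_of_not_dvd (m := q) p K P hdvd
  have het := ramificationIdx_below_dvd (R := ℤ) 𝔭 P
  have hft := inertiaDeg_tower (R := ℤ) 𝔭 P
  rw [he] at het
  refine ⟨Nat.dvd_one.mp het, ?_⟩
  have h2 := HJ_le_two K 𝔭 P
  have hpos := P.inertiaDeg_pos (𝓞 (maximalRealSubfield K))
  rw [hf] at hft
  set g := P.inertiaDeg (𝓞 (maximalRealSubfield K)) with hg
  set f := 𝔭.inertiaDeg ℤ with hf'
  have hone : p ^ k ≡ 1 [MOD q] ↔ orderOf (p : ZMod q) ∣ k := by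
    rw [orderOf_dvd_iff_pow_eq_one, ← ZMod.natCast_eq_natCast_iff]
    push_cast
    rfl
  have hneg : q ∣ p ^ k + 1 → g = 2 := by
    intro hq1
    by_contra hne
    have hg1 : g = 1 := by omega
    exact HJ_not_one q K h3 p k hpq hq1 P (HJ_surj K 𝔭 P hg1)
  have hnegk : q ∣ p ^ k + 1 → orderOf (p : ZMod q) ∣ 2 * k := by
    intro hq1
    rw [orderOf_dvd_iff_pow_eq_one, mul_comm, pow_mul]
    have h5 := (ZMod.natCast_eq_zero_iff _ _).mpr hq1
    push_cast at h5
    rw [eq_neg_of_add_eq_zero_left h5]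
    norm_num
  constructor
  · intro hfk
    have h6 : orderOf (p : ZMod q) ∣ k * 2 := by
      rw [hft]
      refine Nat.mul_dvd_mul hfk ?_
      have : g = 1 ∨ g = 2 := by omega
      rcases this with h | h
      · rw [h]; norm_num
      · rw [h]
    rw [orderOf_dvd_iff_pow_eq_one, pow_mul] at h6
    have h6' : ((p : ZMod q) ^ k - 1) * ((p : ZMod q) ^ k + 1) = 0 := by
      linear_combination h6
    rcases mul_eq_zero.mp h6' with h | h
    · left
      rw [hone, orderOf_dvd_iff_pow_eq_one]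
      exact sub_eq_zero.mp h
    · right
      rw [← ZMod.natCast_eq_zero_iff]
      push_cast
      exact h
  · rintro (h | h)
    · rw [hone] at h
      exact dvd_trans (Dvd.intro _ hft.symm) h
    · have h7 := hneg h
      have h8 := hnegk h
      rw [hft, h7, mul_comm] at h8
      exact Nat.dvd_of_mul_dvd_mul_left (by norm_num) h8

theorem cc_R (h3 : 3 ≤ q) [IsCMField K] (p k : ℕ) (hp : p.Prime) (hpq : p ≠ q) (hk : 1 ≤ k) :
    cc (maximalRealSubfield K) p k = if p ^ k ≡ 1 [MOD q] ∨ q ∣ p ^ k + 1 then ((q : ℝ) - 1) / 2 else 0 := by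
  classical
  have hpf : Fact p.Prime := ⟨hp⟩
  have hpz : (span {(p : ℤ)}).IsMaximal := Int.ideal_span_isMaximal_of_prime p
  unfold cc
  split_ifs with hcond
  · have hs : {P : Ideal (𝓞 (maximalRealSubfield K)) |
        P ∈ primesOver (span {(p : ℤ)}) (𝓞 (maximalRealSubfield K)) ∧ inertiaDeg P ℤ ∣ k} =
        primesOver (span {(p : ℤ)}) (𝓞 (maximalRealSubfield K)) := by
      ext P
      constructor
      · exact fun h => h.1
      · intro h
        have := h.1
        have := h.2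
        exact ⟨h, (HJ_main q K h3 p k hpq P).2.mpr hcond⟩
    rw [hs]
    have : Fintype (primesOver (span {(p : ℤ)}) (𝓞 (maximalRealSubfield K))) :=
      (Algebra.QuasiFinite.finite_primesOver (span {(p : ℤ)})).fintype
    rw [← finsum_set_coe_eq_finsum_mem, finsum_eq_sum_of_fintype]
    have h1 := sum_ramification_inertia_eq_finrank (span {(p : ℤ)}) (𝓞 (maximalRealSubfield K))
    rw [RingOfIntegers.rank] at h1
    have h2 : Module.finrank ℚ (maximalRealSubfield K) * 2 = q - 1 := by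
      have h4 := Module.finrank_mul_finrank ℚ (maximalRealSubfield K) K
      rw [Algebra.IsQuadraticExtension.finrank_eq_two (maximalRealSubfield K) K,
        IsCyclotomicExtension.finrank (n := q) K (Polynomial.cyclotomic.irreducible_rat hq.out.pos),
        Nat.totient_prime hq.out] at h4
      exact h4
    have h5 : ∑ Q : primesOver (span {(p : ℤ)}) (𝓞 (maximalRealSubfield K)), Q.1.inertiaDeg ℤ =
        Module.finrank ℚ (maximalRealSubfield K) := by
      rw [← h1]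
      refine Finset.sum_congr rfl ?_
      intro Q _
      rw [(HJ_main q K h3 p k hpq Q.1).1, one_mul]
    rw [← Nat.cast_sum, h5, eq_div_iff (by norm_num : (2 : ℝ) ≠ 0)]
    have h6 : ((Module.finrank ℚ (maximalRealSubfield K) * 2 : ℕ) : ℝ) = ((q - 1 : ℕ) : ℝ) := by
      rw [h2]
    rw [Nat.cast_sub hq.out.one_le] at h6
    push_cast at h6
    exact h6
  · have hs : {P : Ideal (𝓞 (maximalRealSubfield K)) |
        P ∈ primesOver (span {(p : ℤ)}) (𝓞 (maximalRealSubfield K)) ∧ inertiaDeg P ℤ ∣ k} = ∅ := by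
      rw [Set.eq_empty_iff_forall_notMem]
      intro P h
      have := h.1.1
      have := h.1.2
      exact hcond ((HJ_main q K h3 p k hpq P).2.mp h.2)
    rw [hs, finsum_mem_empty]

theorem cc_R_q (h3 : 3 ≤ q) [IsCMField K] (k : ℕ) (hk : 1 ≤ k) : cc (maximalRealSubfield K) q k = 1 := by
  classical
  have hqz : (span {(q : ℤ)}).IsMaximal := Int.ideal_span_isMaximal_of_prime q
  obtain ⟨⟨P0, hP01, hP02⟩⟩ := (span {(q : ℤ)}).nonempty_primesOver (S := 𝓞 K)
  have huni : ∀ 𝔭 : Ideal (𝓞 (maximalRealSubfield K)), 𝔭.IsPrime → 𝔭.LiesOver (span {(q : ℤ)}) →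
      𝔭 = P0.under (𝓞 (maximalRealSubfield K)) ∧ 𝔭.inertiaDeg ℤ = 1 := by
    intro 𝔭 h1 h2
    obtain ⟨⟨P, hP1, hP2⟩⟩ := 𝔭.nonempty_primesOver (S := 𝓞 K)
    have hPp : P.LiesOver (span {(q : ℤ)}) := LiesOver.trans P 𝔭 _
    have hPP : P = P0 := by
      rw [IsCyclotomicExtension.Rat.eq_span_zeta_sub_one_of_liesOver' q K
        (IsCyclotomicExtension.zeta_spec q ℚ K) P,
        IsCyclotomicExtension.Rat.eq_span_zeta_sub_one_of_liesOver' q K
        (IsCyclotomicExtension.zeta_spec q ℚ K) P0]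
    refine ⟨?_, ?_⟩
    · rw [← hPP]
      exact hP2.over
    · have h4 := IsCyclotomicExtension.Rat.inertiaDeg_eq_of_prime q K P
      have h5 := inertiaDeg_below_dvd (R := ℤ) 𝔭 P
      rw [h4] at h5
      exact Nat.dvd_one.mp h5
  unfold cc
  have hs : {P : Ideal (𝓞 (maximalRealSubfield K)) |
      P ∈ primesOver (span {(q : ℤ)}) (𝓞 (maximalRealSubfield K)) ∧ inertiaDeg P ℤ ∣ k} =
      {P0.under (𝓞 (maximalRealSubfield K))} := by
    obtain ⟨⟨𝔭, h1, h2⟩⟩ := (span {(q : ℤ)}).nonempty_primesOver (S := 𝓞 (maximalRealSubfield K))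
    ext P
    rw [Set.mem_singleton_iff]
    constructor
    · intro h
      exact (huni P h.1.1 h.1.2).1
    · intro h
      obtain ⟨h3, h4⟩ := huni 𝔭 h1 h2
      rw [h, ← h3]
      refine ⟨⟨h1, h2⟩, ?_⟩
      rw [h4]
      exact one_dvd k
  rw [hs, finsum_mem_singleton]
  obtain ⟨⟨𝔭, h1, h2⟩⟩ := (span {(q : ℤ)}).nonempty_primesOver (S := 𝓞 (maximalRealSubfield K))
  obtain ⟨h3, h4⟩ := huni 𝔭 h1 h2
  rw [← h3, h4]
  norm_num

end Pool.Agent.Lib.MP_5deb1d_nt
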