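import Mathlib
import Pool.Agent.Lib.MP_5deb1d_nt.HG
import Pool.Agent.Lib.MP_5deb1d_nt.HH
import Pool.Agent.Lib.MP_5deb1d_nt.HI
import Pool.Agent.Lib.MP_5deb1d_nt.HJ
import Pool.Agent.Lib.MP_5deb1d_nt.A3
import Pool.Agent.Lib.MP_5deb1d_nt.A4

/-!
JOB HK. Hasse's formula with residues. PROOF: for real `s > 1` let `z, z⁺` be the values of the zeta functions of `K, K⁺` (`log_zeta`). By `sum_pk`, `cc_K`, `cc_R` (and `p = q`: difference `0`, `eps q (q^k) = 0`)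
`log z - log z⁺ = ∑_{(p,k)} ((q-1)/2) eps q (p^(k+1)) (p^(k+1))^(-s)/(k+1)` (`2 [p^k ≡ 1] - [p^k ≡ ± 1] = eps`, for `q ≥ 3` the classes `±1` are different), and `LR_hasSum` is the same series indexed by `n = p^(k+1)` (`vl (p^(k+1)) = 1/(k+1)`, `vl n = 0` for the
other `n`; `Nat.Primes.prodNatEquiv`). So `LR q s = log (z/z⁺)`. Let `s → 1+`: `(s-1) z → residue` (`tendsto_sub_one_mul_dedekindZeta_nhdsGT`), so `z/z⁺ → residue K/residue K⁺ > 0`, and `LR_tendsto`; uniqueness of limits.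
-/

set_option autoImplicit false

open NumberField NumberField.Units NumberField.InfinitePlace Ideal

namespace Pool.Agent.Lib.MP_5deb1d_nt

variable (q : ℕ) [hq : Fact q.Prime] (K : Type*) [Field K] [NumberField K] [hK : IsCyclotomicExtension {q} ℚ K]

private theorem HK_vl (p k : ℕ) (hp : p.Prime) : vl (p ^ (k + 1)) = 1 / ((k : ℝ) + 1) := by
  have hl : 0 < Real.log p := Real.log_pos (by exact_mod_cast hp.one_lt)
  have hk : (0 : ℝ) < (k : ℝ) + 1 := by positivity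
  unfold vl
  rw [ArithmeticFunction.vonMangoldt_apply_pow (Nat.succ_ne_zero k),
    ArithmeticFunction.vonMangoldt_apply_prime hp]
  push_cast
  rw [Real.log_pow]
  push_cast
  field_simp

private theorem HK_eps_q (q k : ℕ) (hq : q.Prime) : eps q (q ^ (k + 1)) = 0 := by
  have hd : q ∣ q ^ (k + 1) := dvd_pow_self q (Nat.succ_ne_zero k)
  have h1 : ¬ q ^ (k + 1) ≡ 1 [MOD q] := by
    intro h
    have h2 : 1 ≡ 0 [MOD q] := h.symm.trans ((Nat.modEq_zero_iff_dvd).2 hd)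
    have h3 := (Nat.modEq_zero_iff_dvd).1 h2
    exact hq.one_lt.ne' (Nat.dvd_one.1 h3)
  have h2 : ¬ q ∣ q ^ (k + 1) + 1 := by
    intro h
    have h3 := (Nat.dvd_add_right hd).1 h
    exact hq.one_lt.ne' (Nat.dvd_one.1 h3)
  unfold eps
  simp only [cl]
  rw [if_neg h1, if_neg h2, sub_zero]

private theorem HK_two (q n : ℕ) (h3 : 3 ≤ q) (h1 : n ≡ 1 [MOD q]) (h2 : q ∣ n + 1) : False := by
  have h4 : n + 1 ≡ 1 + 1 [MOD q] := h1.add_right 1
  have h5 : 1 + 1 ≡ 0 [MOD q] := h4.symm.trans ((Nat.modEq_zero_iff_dvd).2 h2)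
  have h6 := Nat.le_of_dvd (by norm_num) ((Nat.modEq_zero_iff_dvd).1 h5)
  omega

private theorem HK_term (h3 : 3 ≤ q) [IsCMField K] (s : ℝ) (x : Nat.Primes × ℕ) :
    cc K (x.1 : ℕ) (x.2 + 1) * ((((x.1 : ℕ) ^ (x.2 + 1) : ℕ) : ℝ) ^ (-s) / ((x.2 : ℝ) + 1)) -
      cc (maximalRealSubfield K) (x.1 : ℕ) (x.2 + 1) *
        ((((x.1 : ℕ) ^ (x.2 + 1) : ℕ) : ℝ) ^ (-s) / ((x.2 : ℝ) + 1)) =
      ((q : ℝ) - 1) / 2 * (eps q ((x.1 : ℕ) ^ (x.2 + 1)) *
        (vl ((x.1 : ℕ) ^ (x.2 + 1)) * (((x.1 : ℕ) ^ (x.2 + 1) : ℕ) : ℝ) ^ (-s))) := by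
  obtain ⟨⟨p, hp⟩, k⟩ := x
  show cc K p (k + 1) * (((p ^ (k + 1) : ℕ) : ℝ) ^ (-s) / ((k : ℝ) + 1)) -
      cc (maximalRealSubfield K) p (k + 1) * (((p ^ (k + 1) : ℕ) : ℝ) ^ (-s) / ((k : ℝ) + 1)) =
      ((q : ℝ) - 1) / 2 * (eps q (p ^ (k + 1)) *
        (vl (p ^ (k + 1)) * ((p ^ (k + 1) : ℕ) : ℝ) ^ (-s)))
  rw [HK_vl p k hp]
  have hk : (0 : ℝ) < (k : ℝ) + 1 := by positivity
  by_cases hpq : p = q
  · subst hpq
    rw [cc_K_q p K (k + 1) (by omega), cc_R_q p K h3 (k + 1) (by omega), HK_eps_q p k hp]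
    ring
  · rw [cc_K q K p (k + 1) hp hpq (by omega), cc_R q K h3 p (k + 1) hp hpq (by omega)]
    unfold eps
    simp only [cl]
    by_cases h1 : p ^ (k + 1) ≡ 1 [MOD q]
    · have h2 : ¬ q ∣ p ^ (k + 1) + 1 := fun h => HK_two q _ h3 h1 h
      rw [if_pos h1, if_pos (Or.inl h1), if_pos h1, if_neg h2]
      field_simp
      ring
    · by_cases h2 : q ∣ p ^ (k + 1) + 1
      · rw [if_neg h1, if_pos (Or.inr h2), if_neg h1, if_pos h2]
        field_simp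
        ring
      · rw [if_neg h1, if_neg (not_or.2 ⟨h1, h2⟩), if_neg h1, if_neg h2]
        ring

private theorem HK_sum (s : ℝ) (hs : 1 < s) [NeZero q] :
    HasSum (fun x : Nat.Primes × ℕ => ((q : ℝ) - 1) / 2 * (eps q ((x.1 : ℕ) ^ (x.2 + 1)) *
        (vl ((x.1 : ℕ) ^ (x.2 + 1)) * (((x.1 : ℕ) ^ (x.2 + 1) : ℕ) : ℝ) ^ (-s))))
      (LR q (s : ℂ)) := by
  have h := LR_hasSum q hq.out s hs
  have hsup : Function.support (fun n : ℕ => ((q : ℝ) - 1) / 2 *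
      (eps q n * (vl n * (n : ℝ) ^ (-s)))) ⊆ {n : ℕ | IsPrimePow n} := by
    intro n hn
    by_contra hne
    apply hn
    have h0 : ArithmeticFunction.vonMangoldt n = 0 :=
      ArithmeticFunction.vonMangoldt_eq_zero_iff.2 hne
    show ((q : ℝ) - 1) / 2 * (eps q n * (vl n * (n : ℝ) ^ (-s))) = 0
    unfold vl
    rw [h0]
    ring
  have h1 := (hasSum_subtype_iff_of_support_subset hsup).2 h
  exact (Nat.Primes.prodNatEquiv.hasSum_iff
    (f := (fun n : ℕ => ((q : ℝ) - 1) / 2 * (eps q n * (vl n * (n : ℝ) ^ (-s)))) ∘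
      (Subtype.val : {n : ℕ // IsPrimePow n} → ℕ))).2 h1

private theorem HK_LR (h3 : 3 ≤ q) [IsCMField K] [NeZero q] (s : ℝ) (hs : 1 < s) :
    0 < (dedekindZeta K (s : ℂ)).re ∧ 0 < (dedekindZeta (maximalRealSubfield K) (s : ℂ)).re ∧
      LR q (s : ℂ) = Real.log ((dedekindZeta K (s : ℂ)).re /
        (dedekindZeta (maximalRealSubfield K) (s : ℂ)).re) := by
  obtain ⟨z, hz, hz1, hz2⟩ := log_zeta K s hs
  obtain ⟨w, hw, hw1, hw2⟩ := log_zeta (maximalRealSubfield K) s hs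
  rw [hz1, hw1, Complex.ofReal_re, Complex.ofReal_re]
  refine ⟨hz, hw, ?_⟩
  have h := (sum_pk K s hs _ hz2).sub (sum_pk (maximalRealSubfield K) s hs _ hw2)
  rw [Real.log_div hz.ne' hw.ne']
  exact (HK_sum q s hs).unique (h.congr_fun fun x => (HK_term q K h3 s x).symm)

theorem LR_residue (h3 : 3 ≤ q) [IsCMField K] [NeZero q] :
    LR q 1 = Real.log (dedekindZeta_residue K / dedekindZeta_residue (maximalRealSubfield K)) := by
  have hK1 : Filter.Tendsto (fun s : ℝ => (s - 1) * (dedekindZeta K (s : ℂ)).re)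
      (nhdsWithin 1 (Set.Ioi 1)) (nhds (dedekindZeta_residue K)) := by
    have h := (Complex.continuous_re.tendsto _).comp (tendsto_sub_one_mul_dedekindZeta_nhdsGT K)
    refine h.congr fun s => ?_
    show (((s : ℂ) - 1) * dedekindZeta K (s : ℂ)).re = _
    have e : (s : ℂ) - 1 = ((s - 1 : ℝ) : ℂ) := by push_cast; rfl
    rw [e, Complex.re_ofReal_mul]
  have hR1 : Filter.Tendsto (fun s : ℝ => (s - 1) *
      (dedekindZeta (maximalRealSubfield K) (s : ℂ)).re)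
      (nhdsWithin 1 (Set.Ioi 1)) (nhds (dedekindZeta_residue (maximalRealSubfield K))) := by
    have h := (Complex.continuous_re.tendsto _).comp
      (tendsto_sub_one_mul_dedekindZeta_nhdsGT (maximalRealSubfield K))
    refine h.congr fun s => ?_
    show (((s : ℂ) - 1) * dedekindZeta (maximalRealSubfield K) (s : ℂ)).re = _
    have e : (s : ℂ) - 1 = ((s - 1 : ℝ) : ℂ) := by push_cast; rfl
    rw [e, Complex.re_ofReal_mul]
  have hp := dedekindZeta_residue_pos K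
  have hp' := dedekindZeta_residue_pos (maximalRealSubfield K)
  have h2 := (hK1.div hR1 hp'.ne').log (div_pos hp hp').ne'
  refine tendsto_nhds_unique (LR_tendsto q) (h2.congr' ?_)
  filter_upwards [self_mem_nhdsWithin] with s hs
  have hs1 : (1 : ℝ) < s := hs
  obtain ⟨h4, h5, h6⟩ := HK_LR q K h3 s hs1
  rw [h6]
  show Real.log ((s - 1) * (dedekindZeta K (s : ℂ)).re /
    ((s - 1) * (dedekindZeta (maximalRealSubfield K) (s : ℂ)).re)) = _
  rw [mul_div_mul_left _ _ (sub_pos.2 hs1).ne']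

end Pool.Agent.Lib.MP_5deb1d_nt
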