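import Mathlib
import Pool.Agent.Lib.MP_5deb1d_nt.H0

/-!
JOB HL. A number field `K` with a primitive `q`-th root of unity `ζ` and degree `q - 1` over `ℚ` is the cyclotomic field: `ℚ(ζ)` has degree `φ(q) = q - 1` (`Polynomial.cyclotomic.irreducible_rat`, or `IsCyclotomicExtension.Rat.finrank` for `ℚ(ζ)`), so `ℚ(ζ) = K` and `IsPrimitiveRoot.adjoin_isCyclotomicExtension`-type lemmas apply.
-/

set_option autoImplicit false

open NumberField NumberField.Units NumberField.InfinitePlace Ideal

namespace Pool.Agent.Lib.MP_5deb1d_nt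

theorem isCyclo (q : ℕ) (hq : q.Prime) (K : Type*) [Field K] [NumberField K] (ζ : K) (hζ : IsPrimitiveRoot ζ q)
    (hd : Module.finrank ℚ K = q - 1) : IsCyclotomicExtension {q} ℚ K := by
  have hq0 : NeZero q := ⟨hq.ne_zero⟩
  have h1 := IsPrimitiveRoot.intermediateField_adjoin_isCyclotomicExtension ℚ hζ
  have h2 : Module.finrank ℚ (IntermediateField.adjoin ℚ {ζ}) = q - 1 := by
    have h1' : IsCyclotomicExtension {q} ℚ (IntermediateField.adjoin ℚ {ζ}) :=
      IsPrimitiveRoot.intermediateField_adjoin_isCyclotomicExtension ℚ hζ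
    rw [IsCyclotomicExtension.finrank (n := q) (K := ℚ) (IntermediateField.adjoin ℚ {ζ})
      (Polynomial.cyclotomic.irreducible_rat hq.pos), Nat.totient_prime hq]
  have h3 : IntermediateField.adjoin ℚ {ζ} = ⊤ := by
    refine IntermediateField.eq_of_le_of_finrank_eq le_top ?_
    rw [IntermediateField.finrank_top', hd]
    exact h2
  have e : (IntermediateField.adjoin ℚ {ζ} : IntermediateField ℚ K) ≃ₐ[ℚ] K :=
    (IntermediateField.equivOfEq h3).trans IntermediateField.topEquiv
  exact @IsCyclotomicExtension.equiv {q} ℚ (IntermediateField.adjoin ℚ {ζ}) _ _ _ K _ _ h1 e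

end Pool.Agent.Lib.MP_5deb1d_nt
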