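import Mathlib
import Pool.Agent.Lib.MP_5deb1d_nt.H0

/-!
JOB HM. If `[K : F] = 2` for the `q`-th cyclotomic field `K` then `F ≃+* K⁺`: `K/ℚ` is Galois with cyclic group `(ZMod q)ˣ` of order `q - 1`, a cyclic group has at most one subgroup of order `2`; the image of `F` in `K` (an intermediate field of `K/ℚ`)
and `K⁺` are the fixed fields of such subgroups (Galois correspondence), so they are equal.
-/

set_option autoImplicit false

open NumberField NumberField.Units NumberField.InfinitePlace Ideal

namespace Pool.Agent.Lib.MP_5deb1d_nt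

private theorem HM_group {G : Type*} [Group G] [Finite G] [IsCyclic G] (H₁ H₂ : Subgroup G) (h1 : Nat.card H₁ = 2)
    (h2 : Nat.card H₂ = 2) : H₁ = H₂ := by
  classical
  have := Fintype.ofFinite G
  have key : ∀ H : Subgroup G, Nat.card H = 2 → (H : Set G).toFinset = Finset.univ.filter (fun a : G => a ^ 2 = 1) := by
    intro H hH
    refine Finset.eq_of_subset_of_card_le ?_ ?_
    · intro x hx
      rw [Set.mem_toFinset] at hx
      rw [Finset.mem_filter]
      refine ⟨Finset.mem_univ _, ?_⟩
      have h3 : (⟨x, hx⟩ : H) ^ Nat.card H = 1 := pow_card_eq_one'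
      rw [hH] at h3
      exact congrArg Subtype.val h3
    · refine (IsCyclic.card_pow_eq_one_le two_pos).trans ?_
      rw [← hH, Set.toFinset_card, Nat.card_eq_fintype_card]
      exact le_of_eq rfl
  have h3 := (key H₁ h1).trans (key H₂ h2).symm
  exact SetLike.coe_injective (Set.toFinset_inj.1 h3)

private theorem HM_field {K : Type*} [Field K] [NumberField K] [IsGalois ℚ K] [IsCyclic (K ≃ₐ[ℚ] K)]
    (L₁ L₂ : IntermediateField ℚ K) (h1 : Module.finrank L₁ K = 2) (h2 : Module.finrank L₂ K = 2) : L₁ = L₂ := by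
  have h3 : L₁.fixingSubgroup = L₂.fixingSubgroup := by
    refine HM_group _ _ ?_ ?_
    · rw [IsGalois.card_fixingSubgroup_eq_finrank, h1]
    · rw [IsGalois.card_fixingSubgroup_eq_finrank, h2]
  rw [← IsGalois.fixedField_fixingSubgroup L₁, h3, IsGalois.fixedField_fixingSubgroup]

/-- the image of a subfield -/
private theorem HM_img (K : Type*) [Field K] [NumberField K] (F : Type*) [Field F] [NumberField F] [Algebra F K]
    (h2 : Module.finrank F K = 2) :
    ∃ L : IntermediateField ℚ K, Module.finrank L K = 2 ∧ Nonempty (F ≃+* L) := by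
  let f : F →ₐ[ℚ] K := IsScalarTower.toAlgHom ℚ F K
  let e : F ≃+* f.fieldRange := RingEquiv.ofBijective f.rangeRestrict.toRingHom
    ⟨fun x y h => f.injective (congrArg Subtype.val h), f.rangeRestrict_surjective⟩
  refine ⟨f.fieldRange, ?_, ⟨e⟩⟩
  have h3 : Module.finrank ℚ F = Module.finrank ℚ f.fieldRange :=
    LinearEquiv.finrank_eq (LinearEquiv.ofInjective f.toLinearMap f.injective)
  have h4 := Module.finrank_mul_finrank ℚ F K
  have h5 := Module.finrank_mul_finrank ℚ f.fieldRange K
  rw [h2] at h4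
  rw [← h4, ← h3] at h5
  exact Nat.eq_of_mul_eq_mul_left Module.finrank_pos h5

variable (q : ℕ) [hq : Fact q.Prime] (K : Type*) [Field K] [NumberField K] [hK : IsCyclotomicExtension {q} ℚ K]

theorem equiv_real (h3 : 3 ≤ q) [IsCMField K] (F : Type*) [Field F] [NumberField F] [Algebra F K]
    (h2 : Module.finrank F K = 2) : Nonempty (F ≃+* maximalRealSubfield K) := by
  have hg : IsGalois ℚ K := IsCyclotomicExtension.isGalois {q} ℚ K
  have hne : NeZero q := ⟨hq.out.ne_zero⟩
  have hcy : IsCyclic (K ≃ₐ[ℚ] K) :=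
    isCyclic_of_surjective (IsCyclotomicExtension.autEquivPow K (Polynomial.cyclotomic.irreducible_rat hq.out.pos)).symm
      (IsCyclotomicExtension.autEquivPow K (Polynomial.cyclotomic.irreducible_rat hq.out.pos)).symm.surjective
  obtain ⟨L₁, h3, ⟨e₁⟩⟩ := HM_img K F h2
  have h4 : Module.finrank (maximalRealSubfield K) K = 2 := Algebra.IsQuadraticExtension.finrank_eq_two _ _
  obtain ⟨L₂, h5, ⟨e₂⟩⟩ := HM_img K (maximalRealSubfield K) h4
  obtain rfl := HM_field L₁ L₂ h3 h5
  exact ⟨e₁.trans e₂.symm⟩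

end Pool.Agent.Lib.MP_5deb1d_nt
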