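import Mathlib
import Pool.Agent.Lib.MP_5deb1d_nt.H0

/-!
JOB HN. The class number is invariant under ring isomorphisms of the fields: `𝓞 F ≃+* 𝓞 L` (`RingOfIntegers.mapRingEquiv`), class groups of isomorphic Dedekind domains (look for `ClassGroup.equiv`-type lemmas in Mathlib; or `ClassGroup` as ideals modulo principal ideals,
`Ideal.map` of the isomorphism is a multiplicative bijection preserving principal ideals, `ClassGroup.mk0_eq_mk0_iff`).
-/

set_option autoImplicit false

open NumberField NumberField.Units NumberField.InfinitePlace Ideal

namespace Pool.Agent.Lib.MP_5deb1d_nt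

theorem classNumber_eq (F : Type*) [Field F] [NumberField F] (L : Type*) [Field L] [NumberField L] (e : F ≃+* L) :
    classNumber F = classNumber L := by
  unfold NumberField.classNumber
  exact Fintype.card_congr (ClassGroup.mulEquiv (RingOfIntegers.mapRingEquiv e)).toEquiv

end Pool.Agent.Lib.MP_5deb1d_nt
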