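import Mathlib
import Pool.Agent.Lib.MP_5deb1d_nt.HF
import Pool.Agent.Lib.MP_5deb1d_nt.HK
import Pool.Agent.Lib.MP_5deb1d_nt.HL
import Pool.Agent.Lib.MP_5deb1d_nt.HM
import Pool.Agent.Lib.MP_5deb1d_nt.HN

/-!
JOB HZ. Hasse's formula in the form of the frozen statement. `isCyclo`, `IsCyclotomicExtension.Rat.isCMField`, `equiv_real`, `classNumber_eq`, `residue_quot`, `LR_residue`, `rq_eq`.
-/

set_option autoImplicit false

open NumberField NumberField.Units NumberField.InfinitePlace Ideal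

namespace Pool.Agent.Lib.MP_5deb1d_nt

theorem hasse (q : ℕ) (hq : q.Prime) (h3 : 3 ≤ q) (K : Type) [Field K] [NumberField K] (F : Type) [Field F] [NumberField F]
    [Algebra F K] (ζ : K) (hζ : IsPrimitiveRoot ζ q) (hd : Module.finrank ℚ K = q - 1) (h2 : Module.finrank F K = 2) :
    Real.log (((NumberField.classNumber K : ℝ) / (NumberField.classNumber F : ℝ)) /
      (2 * (q : ℝ) * ((q : ℝ) / (4 * Real.pi ^ 2)) ^ (((q : ℝ) - 1) / 4))) = rq q := by
  have hqf : Fact q.Prime := ⟨hq⟩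
  have hnz : NeZero q := ⟨hq.ne_zero⟩
  have hcy : IsCyclotomicExtension {q} ℚ K := isCyclo q hq K ζ hζ hd
  have hcm : IsCMField K := IsCyclotomicExtension.Rat.isCMField K (S := {q}) ⟨q, rfl, by omega⟩
  obtain ⟨e⟩ := equiv_real q K h3 F h2
  rw [classNumber_eq F (maximalRealSubfield K) e, rq_eq, LR_residue q K h3, residue_quot q K h3]

end Pool.Agent.Lib.MP_5deb1d_nt
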