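import Mathlib
import Pool.Agent.Lib.MP_5deb1d_nt.FI
import Pool.Agent.Lib.MP_5deb1d_nt.HZ

/-!
Kummer's ratio `R(q)` for the cyclotomic field of Mathlib and its maximal real subfield, and the link with `rq`.
-/

set_option autoImplicit false

open NumberField Finset

namespace Pool.Agent.Lib.MP_5deb1d_nt

/-- Kummer's ratio `R(q) = (h(q)/h⁺(q)) / G(q)`, `G(q) = 2 q (q/(4π²))^((q-1)/4)`: `h(q)` is the class number of the `q`-th
cyclotomic field, `h⁺(q)` the class number of its maximal real subfield. -/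
noncomputable def R (q : ℕ) : ℝ :=
  ((classNumber (CyclotomicField q ℚ) : ℝ) / (classNumber (maximalRealSubfield (CyclotomicField q ℚ)) : ℝ)) /
    (2 * (q : ℝ) * ((q : ℝ) / (4 * Real.pi ^ 2)) ^ (((q : ℝ) - 1) / 4))

/-- the primes `3 ≤ q ≤ X` -/
def PP (X : ℕ) : Finset ℕ := (Icc 3 X).filter Nat.Prime

theorem R_pos (q : ℕ) (h : 0 < q) : 0 < R q := by
  unfold R
  have h1 : 0 < classNumber (CyclotomicField q ℚ) := classNumber_pos _
  have h2 : 0 < classNumber (maximalRealSubfield (CyclotomicField q ℚ)) := classNumber_pos _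
  have h3 : (0 : ℝ) < q := by exact_mod_cast h
  have h4 := Real.pi_pos
  positivity

theorem log_R (q : ℕ) (hq : q.Prime) (h3 : 3 ≤ q) : Real.log (R q) = rq q := by
  have : NeZero q := ⟨hq.ne_zero⟩
  have hc : IsCyclotomicExtension {q} ℚ (CyclotomicField q ℚ) := CyclotomicField.isCyclotomicExtension q ℚ
  have hcm : IsCMField (CyclotomicField q ℚ) :=
    IsCyclotomicExtension.Rat.isCMField (CyclotomicField q ℚ) (S := {q}) ⟨q, rfl, by omega⟩
  have h1 : IsPrimitiveRoot (IsCyclotomicExtension.zeta q ℚ (CyclotomicField q ℚ)) q :=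
    IsCyclotomicExtension.zeta_spec q ℚ (CyclotomicField q ℚ)
  have h2 : Module.finrank ℚ (CyclotomicField q ℚ) = q - 1 := by
    rw [IsCyclotomicExtension.Rat.finrank (k := q), Nat.totient_prime hq]
  have h4 : Module.finrank (maximalRealSubfield (CyclotomicField q ℚ)) (CyclotomicField q ℚ) = 2 :=
    Algebra.IsQuadraticExtension.finrank_eq_two _ _
  rw [← hasse q hq h3 (CyclotomicField q ℚ) (maximalRealSubfield (CyclotomicField q ℚ)) _ h1 h2 h4]
  rfl

open Classical in
theorem rq_two : rq 2 = 0 := by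
  rw [rq_eq]
  unfold LR
  apply sum_eq_zero
  intro χ hχ
  replace hχ := mem_filter.1 hχ
  exfalso
  have h1 := hχ.2
  unfold DirichletCharacter.Odd at h1
  have h2 : (-1 : ZMod 2) = 1 := by decide
  rw [h2, map_one] at h1
  norm_num at h1

/-- the sums over `Pr X` and over `PP X` agree (the prime `2` contributes `0`) -/
theorem sum_PP (X : ℕ) (f : ℕ → ℝ) (hf : f 2 = 0) : ∑ q ∈ PP X, f q = ∑ q ∈ Pr X, f q := by
  apply sum_subset
  · intro q hq
    unfold PP at hq
    rw [mem_filter, mem_Icc] at hq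
    exact mem_Pr.2 ⟨hq.2, hq.1.2⟩
  · intro q hq hn
    rw [mem_Pr] at hq
    have h2 : q = 2 := by
      by_contra hne
      apply hn
      unfold PP
      rw [mem_filter, mem_Icc]
      have := hq.1.two_le
      exact ⟨⟨by omega, hq.2⟩, hq.1⟩
    rw [h2, hf]

theorem sum_R (X : ℕ) : ∑ q ∈ PP X, Real.log (R q) / q = ∑ q ∈ Pr X, rq q / q := by
  rw [← sum_PP X (fun q => rq q / q) (by simp only [rq_two, zero_div])]
  apply sum_congr rfl
  intro q hq
  unfold PP at hq
  rw [mem_filter, mem_Icc] at hq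
  rw [log_R q hq.2 hq.1.1]

theorem sum_R_abs (X : ℕ) : ∑ q ∈ PP X, |Real.log (R q)| / q = ∑ q ∈ Pr X, |rq q| / q := by
  rw [← sum_PP X (fun q => |rq q| / q) (by simp only [rq_two, abs_zero, zero_div])]
  apply sum_congr rfl
  intro q hq
  unfold PP at hq
  rw [mem_filter, mem_Icc] at hq
  rw [log_R q hq.2 hq.1.1]

end Pool.Agent.Lib.MP_5deb1d_nt
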