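import Mathlib
import Pool.Agent.Lib.MP_5deb1d_nt.D0
import Pool.Agent.Lib.MP_2a816b_nt.Tensor2

/-!
Definitions for the block K (almost all primes): `2 log 2 + ε` bounds `|log R(q)|` for almost all primes `q`.
-/

set_option autoImplicit false

open Finset

namespace Pool.Agent.Lib.MP_5deb1d_nt

/-- `k q - 1` (`b = true`) resp. `k q + 1` (`b = false`): `d ∣ nn b k q ↔ cl b d (k q) = 1` -/
def nn (b : Bool) (k q : ℕ) : ℕ := bif b then k * q - 1 else k * q + 1

/-- the product kernel `∏_{p ∈ I} dk b p n` -/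
noncomputable def dF (b : Bool) (I : Finset ℕ) (n : ℕ) : ℂ := ∏ p ∈ I, ((dk b p n : ℝ) : ℂ)

/-- `∑_{k ∈ S, nn b k q prime} 1/k` -/
noncomputable def WW (b : Bool) (q : ℕ) (S : Finset ℕ) : ℝ :=
  ∑ k ∈ S, (if (nn b k q).Prime then 1 / (k : ℝ) else 0)

lemma WW_nonneg (b : Bool) (q : ℕ) (S : Finset ℕ) : 0 ≤ WW b q S := by
  unfold WW
  apply sum_nonneg
  intro k _
  split_ifs
  · positivity
  · exact le_rfl

end Pool.Agent.Lib.MP_5deb1d_nt
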