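import Mathlib
import Pool.Agent.Lib.MP_5deb1d_nt.K0

/-!
JOB K1. Fourier expansion of the kernel `dk b l` modulo a prime `l`. Copy of `Gm`, `Gm_inversion`, `Gm_form`, `Gm_apply` (`Lib/MP_2a816b_nt/Tensor.lean`), with the kernel
`δ(u) = [u = ±1] - [u ≠ 0]/(l-1)` on `ZMod l` in place of `kap`: `∑_c δ(c d) = 0` for every `d`, and `|∑_{c,d} X_c Y_d δ(c d)| ≤ 2 ‖X‖ ‖Y‖` (the units part is a permutation, the other part is
`(1/(l-1)) |∑_{c≠0} X_c| |∑_{d≠0} Y_d| ≤ ‖X‖ ‖Y‖`; compare `Q1_bilin_le` in `Lib/MP_9c2ea5_nt/Q1.lean`), so the constant `2/√l` there becomes `2/l` and `4/l` becomes `4/l²`.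
`G x y = (1/l²) ∑_{c,d} δ(c d) ps(-(x c)) ps(-(y d))`.
-/

set_option autoImplicit false

open Finset

namespace Pool.Agent.Lib.MP_5deb1d_nt

open Pool.Agent.Lib.MP_2a816b_nt (ps)
open Real
open Pool.Agent.Lib.MP_2a816b_nt (ps_zero ps_add sum_ps parseval one_lt_q q_sub_one_ne l_ne)

/-- The kernel `dk b l` on `ZMod l`. -/
private noncomputable def K1_dl (l : ℕ) (b : Bool) (u : ZMod l) : ℂ :=
  (if u = (bif b then 1 else -1) then 1 else 0) - (if u = 0 then 0 else 1 / ((l : ℂ) - 1))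

private lemma K1_dk (l : ℕ) (b : Bool) (n : ℕ) : ((dk b l n : ℝ) : ℂ) = K1_dl l b (n : ZMod l) := by
  unfold dk K1_dl
  rw [Complex.ofReal_sub]
  congr 1
  · cases b
    · have h1 : ((n : ZMod l) = -1) ↔ l ∣ n + 1 := by
        rw [eq_neg_iff_add_eq_zero, ← ZMod.natCast_eq_zero_iff, Nat.cast_add, Nat.cast_one]
      simp only [cl, cond_false]
      by_cases h : l ∣ n + 1
      · rw [if_pos h, if_pos (h1.2 h), Complex.ofReal_one]
      · rw [if_neg h, if_neg (fun h2 => h (h1.1 h2)), Complex.ofReal_zero]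
    · have h1 : ((n : ZMod l) = 1) ↔ n ≡ 1 [MOD l] := by
        rw [← ZMod.natCast_eq_natCast_iff, Nat.cast_one]
      simp only [cl, cond_true]
      by_cases h : n ≡ 1 [MOD l]
      · rw [if_pos h, if_pos (h1.2 h), Complex.ofReal_one]
      · rw [if_neg h, if_neg (fun h2 => h (h1.1 h2)), Complex.ofReal_zero]
  · have h1 : ((n : ZMod l) = 0) ↔ l ∣ n := ZMod.natCast_eq_zero_iff n l
    by_cases h : l ∣ n
    · rw [if_pos h, if_pos (h1.2 h), Complex.ofReal_zero]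
    · rw [if_neg h, if_neg (fun h2 => h (h1.1 h2))]
      push_cast
      rfl

section matrix

variable (l : ℕ) [Fact l.Prime]

private lemma K1_unit (b : Bool) : (bif b then (1 : ZMod l) else -1) ≠ 0 := by
  cases b
  · simp
  · simp

private lemma K1_card : ((univ.erase (0 : ZMod l)).card : ℝ) = (l : ℝ) - 1 := by
  rw [card_erase_of_mem (mem_univ _), card_univ, ZMod.card, Nat.cast_sub (Fact.out : l.Prime).one_lt.le, Nat.cast_one]

private lemma K1_sum (b : Bool) (d : ZMod l) : ∑ c : ZMod l, K1_dl l b (c * d) = 0 := by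
  have hs := K1_unit l b
  by_cases hd : d = 0
  · subst hd
    apply sum_eq_zero
    intro c _
    unfold K1_dl
    rw [mul_zero, if_neg (Ne.symm hs), if_pos rfl, sub_zero]
  · have h1 : ∑ c : ZMod l, K1_dl l b (c * d) = ∑ c : ZMod l, K1_dl l b c :=
      Fintype.sum_equiv (Equiv.mulRight₀ d hd) _ _ (fun c => rfl)
    rw [h1]
    unfold K1_dl
    rw [sum_sub_distrib, sum_ite_eq' univ (bif b then (1 : ZMod l) else -1) (fun _ => (1 : ℂ)), if_pos (mem_univ _),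
      ← add_sum_erase univ _ (mem_univ (0 : ZMod l)), if_pos rfl, zero_add]
    have h2 : ∀ c ∈ univ.erase (0 : ZMod l), (if c = 0 then (0 : ℂ) else 1 / ((l : ℂ) - 1)) = 1 / ((l : ℂ) - 1) := by
      intro c hc
      rw [if_neg (mem_erase.1 hc).1]
    rw [sum_congr rfl h2, sum_const, nsmul_eq_mul]
    have h3 : (((univ.erase (0 : ZMod l)).card : ℕ) : ℂ) = (l : ℂ) - 1 := by
      have := congrArg (fun r : ℝ => (r : ℂ)) (K1_card l)
      push_cast at this
      exact this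
    rw [h3, mul_one_div_cancel (q_sub_one_ne l), sub_self]

private lemma K1_part (X : ZMod l → ℂ) :
    ‖∑ c ∈ univ.erase (0 : ZMod l), X c‖ ≤ √((l : ℝ) - 1) * √(∑ c : ZMod l, ‖X c‖ ^ 2) := by
  have h1 := sum_mul_le_sqrt_mul_sqrt (univ.erase (0 : ZMod l)) (fun _ => (1 : ℝ)) (fun c => ‖X c‖)
  simp only [one_mul, one_pow, sum_const, nsmul_eq_mul, mul_one] at h1
  rw [K1_card] at h1
  refine (norm_sum_le _ _).trans (h1.trans ?_)
  refine mul_le_mul_of_nonneg_left (Real.sqrt_le_sqrt ?_) (Real.sqrt_nonneg _)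
  exact sum_le_sum_of_subset_of_nonneg (erase_subset _ _) (fun _ _ _ => by positivity)

private lemma K1_bilin (b : Bool) (X Y : ZMod l → ℂ) :
    ‖∑ c : ZMod l, ∑ d : ZMod l, X c * Y d * K1_dl l b (c * d)‖ ≤
      2 * (√(∑ c : ZMod l, ‖X c‖ ^ 2) * √(∑ c : ZMod l, ‖Y c‖ ^ 2)) := by
  obtain ⟨s, hs⟩ : ∃ s : ZMod l, s = bif b then (1 : ZMod l) else -1 := ⟨_, rfl⟩
  have hs0 : s ≠ 0 := by rw [hs]; exact K1_unit l b
  have e1 : ∀ c d : ZMod l, X c * Y d * K1_dl l b (c * d) = (if c * d = s then X c * Y d else 0) -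
      (if c = 0 then 0 else X c) * (if d = 0 then 0 else Y d) * (1 / ((l : ℂ) - 1)) := by
    intro c d
    unfold K1_dl
    rw [← hs, mul_sub]
    congr 1
    · split_ifs
      · rw [mul_one]
      · rw [mul_zero]
    · by_cases hc : c = 0
      · rw [if_pos hc, if_pos (by rw [hc, zero_mul]), mul_zero, zero_mul, zero_mul]
      · by_cases hd : d = 0
        · rw [if_pos hd, if_pos (by rw [hd, mul_zero]), mul_zero, mul_zero, zero_mul]
        · rw [if_neg hc, if_neg hd, if_neg (mul_ne_zero hc hd)]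
  have e2 : ∑ c : ZMod l, ∑ d : ZMod l, (if c * d = s then X c * Y d else 0) =
      ∑ c ∈ univ.erase (0 : ZMod l), X c * Y (s * c⁻¹) := by
    rw [← add_sum_erase univ _ (mem_univ (0 : ZMod l))]
    have h0 : ∑ d : ZMod l, (if 0 * d = s then X 0 * Y d else 0) = 0 := by
      apply sum_eq_zero
      intro d _
      rw [zero_mul, if_neg (Ne.symm hs0)]
    rw [h0, zero_add]
    apply sum_congr rfl
    intro c hc
    have hc0 : c ≠ 0 := (mem_erase.1 hc).1
    rw [sum_eq_single (s * c⁻¹)]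
    · rw [if_pos]
      rw [mul_comm s, mul_inv_cancel_left₀ hc0]
    · intro d _ hd
      rw [if_neg]
      intro h
      apply hd
      rw [← h, mul_comm c, mul_inv_cancel_right₀ hc0]
    · intro h
      exact absurd (mem_univ _) h
  have e3 : ∑ c : ZMod l, ∑ d : ZMod l, (if c = 0 then 0 else X c) * (if d = 0 then 0 else Y d) * (1 / ((l : ℂ) - 1)) =
      (∑ c ∈ univ.erase (0 : ZMod l), X c) * (∑ d ∈ univ.erase (0 : ZMod l), Y d) * (1 / ((l : ℂ) - 1)) := by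
    have h0 : ∀ Z : ZMod l → ℂ, ∑ c : ZMod l, (if c = 0 then 0 else Z c) = ∑ c ∈ univ.erase (0 : ZMod l), Z c := by
      intro Z
      rw [← add_sum_erase univ _ (mem_univ (0 : ZMod l)), if_pos rfl, zero_add]
      apply sum_congr rfl
      intro c hc
      rw [if_neg (mem_erase.1 hc).1]
    rw [← h0 X, ← h0 Y, sum_mul_sum, sum_mul]
    apply sum_congr rfl
    intro c _
    rw [sum_mul]
  simp_rw [e1, sum_sub_distrib]
  rw [e2, e3]
  have b1 : ‖∑ c ∈ univ.erase (0 : ZMod l), X c * Y (s * c⁻¹)‖ ≤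
      √(∑ c : ZMod l, ‖X c‖ ^ 2) * √(∑ c : ZMod l, ‖Y c‖ ^ 2) := by
    have h1 : ∑ c : ZMod l, ‖Y (s * c⁻¹)‖ ^ 2 = ∑ c : ZMod l, ‖Y c‖ ^ 2 :=
      Fintype.sum_equiv ((Equiv.inv (ZMod l)).trans (Equiv.mulLeft₀ s hs0)) _ _ (fun c => rfl)
    rw [← h1]
    refine le_trans ?_ (sum_mul_le_sqrt_mul_sqrt univ (fun c => ‖X c‖) (fun c => ‖Y (s * c⁻¹)‖))
    refine (norm_sum_le _ _).trans ?_
    simp_rw [norm_mul]
    exact sum_le_sum_of_subset_of_nonneg (erase_subset _ _) (fun _ _ _ => by positivity)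
  have hl1 : (0 : ℝ) < (l : ℝ) - 1 := by
    have := one_lt_q l
    linarith
  have b2 : ‖(∑ c ∈ univ.erase (0 : ZMod l), X c) * (∑ d ∈ univ.erase (0 : ZMod l), Y d) * (1 / ((l : ℂ) - 1))‖ ≤
      √(∑ c : ZMod l, ‖X c‖ ^ 2) * √(∑ c : ZMod l, ‖Y c‖ ^ 2) := by
    have h1 : ‖(1 : ℂ) / ((l : ℂ) - 1)‖ = 1 / ((l : ℝ) - 1) := by
      have h2 : (1 : ℂ) / ((l : ℂ) - 1) = ((1 / ((l : ℝ) - 1) : ℝ) : ℂ) := by push_cast; rfl
      rw [h2, Complex.norm_real, Real.norm_of_nonneg (by positivity)]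
    rw [norm_mul, norm_mul, h1]
    have h3 := K1_part l X
    have h4 := K1_part l Y
    calc ‖∑ c ∈ univ.erase (0 : ZMod l), X c‖ * ‖∑ d ∈ univ.erase (0 : ZMod l), Y d‖ * (1 / ((l : ℝ) - 1))
        ≤ (√((l : ℝ) - 1) * √(∑ c : ZMod l, ‖X c‖ ^ 2)) * (√((l : ℝ) - 1) * √(∑ c : ZMod l, ‖Y c‖ ^ 2)) *
          (1 / ((l : ℝ) - 1)) := by gcongr
      _ = (√((l : ℝ) - 1) * √((l : ℝ) - 1)) * (1 / ((l : ℝ) - 1)) *
          (√(∑ c : ZMod l, ‖X c‖ ^ 2) * √(∑ c : ZMod l, ‖Y c‖ ^ 2)) := by ring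
      _ = _ := by
        rw [Real.mul_self_sqrt hl1.le, mul_one_div_cancel hl1.ne', one_mul]
  refine (norm_sub_le _ _).trans ?_
  linarith

variable (Q : ZMod l → ℂ)

/-- Fourier coefficients of the kernel -/
private noncomputable def K1_Gm (b b' : ZMod l) : ℂ :=
  (1 / (l : ℂ) ^ 2) * ∑ c : ZMod l, ∑ d : ZMod l, Q (c * d) * (ps l (-(b * c)) * ps l (-(b' * d)))

private lemma K1_Gm_zero_left (hQ : ∀ d, ∑ c : ZMod l, Q (c * d) = 0) (b' : ZMod l) : K1_Gm l Q 0 b' = 0 := by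
  unfold K1_Gm
  rw [sum_comm]
  have : ∀ d ∈ (univ : Finset (ZMod l)), ∑ c : ZMod l, Q (c * d) * (ps l (-(0 * c)) * ps l (-(b' * d))) = 0 := by
    intro d _
    have e1 : ∀ c ∈ (univ : Finset (ZMod l)), Q (c * d) * (ps l (-(0 * c)) * ps l (-(b' * d))) =
        Q (c * d) * ps l (-(b' * d)) := by
      intro c _
      rw [zero_mul, neg_zero, ps_zero, one_mul]
    rw [sum_congr rfl e1, ← sum_mul, hQ d, zero_mul]
  rw [sum_eq_zero this, mul_zero]

private lemma K1_Gm_zero_right (hQ : ∀ d, ∑ c : ZMod l, Q (c * d) = 0) (b : ZMod l) : K1_Gm l Q b 0 = 0 := by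
  unfold K1_Gm
  have : ∀ c ∈ (univ : Finset (ZMod l)), ∑ d : ZMod l, Q (c * d) * (ps l (-(b * c)) * ps l (-(0 * d))) = 0 := by
    intro c _
    have e1 : ∀ d ∈ (univ : Finset (ZMod l)), Q (c * d) * (ps l (-(b * c)) * ps l (-(0 * d))) =
        Q (d * c) * ps l (-(b * c)) := by
      intro d _
      rw [zero_mul, neg_zero, ps_zero, mul_one, mul_comm c d]
    rw [sum_congr rfl e1, ← sum_mul, hQ c, zero_mul]
  rw [sum_eq_zero this, mul_zero]

private lemma K1_Gm_inversion (hQ : ∀ d, ∑ c : ZMod l, Q (c * d) = 0) (c0 d0 : ZMod l) : Q (c0 * d0) =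
    ∑ b ∈ univ.erase (0 : ZMod l), ∑ b' ∈ univ.erase (0 : ZMod l),
      K1_Gm l Q b b' * (ps l (b * c0) * ps l (b' * d0)) := by
  have h1 : ∑ b : ZMod l, ∑ b' : ZMod l, K1_Gm l Q b b' * (ps l (b * c0) * ps l (b' * d0)) =
      ∑ b ∈ univ.erase (0 : ZMod l), ∑ b' ∈ univ.erase (0 : ZMod l),
      K1_Gm l Q b b' * (ps l (b * c0) * ps l (b' * d0)) := by
    rw [← add_sum_erase univ _ (mem_univ (0 : ZMod l))]
    have e0 : ∑ b' : ZMod l, K1_Gm l Q 0 b' * (ps l (0 * c0) * ps l (b' * d0)) = 0 := by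
      apply sum_eq_zero; intro b' _
      rw [K1_Gm_zero_left l Q hQ b', zero_mul]
    rw [e0, zero_add]
    apply sum_congr rfl; intro b _
    rw [← add_sum_erase univ _ (mem_univ (0 : ZMod l)), K1_Gm_zero_right l Q hQ b, zero_mul, zero_add]
  rw [← h1]
  unfold K1_Gm
  have h2 : ∑ b : ZMod l, ∑ b' : ZMod l, (1 / (l : ℂ) ^ 2) * (∑ c : ZMod l, ∑ d : ZMod l,
      Q (c * d) * (ps l (-(b * c)) * ps l (-(b' * d)))) * (ps l (b * c0) * ps l (b' * d0)) =
      (1 / (l : ℂ) ^ 2) * ∑ c : ZMod l, ∑ d : ZMod l, Q (c * d) *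
        ((∑ b : ZMod l, ps l (b * (c0 - c))) * (∑ b' : ZMod l, ps l (b' * (d0 - d)))) := by
    have e1 : ∀ b b' c d : ZMod l, ps l (b * (c0 - c)) * ps l (b' * (d0 - d)) =
        (ps l (-(b * c)) * ps l (-(b' * d))) * (ps l (b * c0) * ps l (b' * d0)) := by
      intro b b' c d
      rw [show b * (c0 - c) = -(b * c) + b * c0 by ring, show b' * (d0 - d) = -(b' * d) + b' * d0 by ring,
        ps_add, ps_add]
      ring
    calc _ = ∑ b : ZMod l, ∑ b' : ZMod l, ∑ c : ZMod l, ∑ d : ZMod l, (1 / (l : ℂ) ^ 2) *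
          (Q (c * d) * (ps l (b * (c0 - c)) * ps l (b' * (d0 - d)))) := by
          apply sum_congr rfl; intro b _
          apply sum_congr rfl; intro b' _
          rw [mul_assoc, sum_mul, mul_sum]
          apply sum_congr rfl; intro c _
          rw [sum_mul, mul_sum]
          apply sum_congr rfl; intro d _
          rw [e1]; ring
      _ = ∑ c : ZMod l, ∑ d : ZMod l, ∑ b : ZMod l, ∑ b' : ZMod l, (1 / (l : ℂ) ^ 2) *
          (Q (c * d) * (ps l (b * (c0 - c)) * ps l (b' * (d0 - d)))) := by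
          calc _ = ∑ b : ZMod l, ∑ c : ZMod l, ∑ b' : ZMod l, ∑ d : ZMod l, (1 / (l : ℂ) ^ 2) *
                (Q (c * d) * (ps l (b * (c0 - c)) * ps l (b' * (d0 - d)))) := by
                apply sum_congr rfl; intro b _; rw [sum_comm]
            _ = ∑ c : ZMod l, ∑ b : ZMod l, ∑ b' : ZMod l, ∑ d : ZMod l, (1 / (l : ℂ) ^ 2) *
                (Q (c * d) * (ps l (b * (c0 - c)) * ps l (b' * (d0 - d)))) := sum_comm
            _ = ∑ c : ZMod l, ∑ b : ZMod l, ∑ d : ZMod l, ∑ b' : ZMod l, (1 / (l : ℂ) ^ 2) *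
                (Q (c * d) * (ps l (b * (c0 - c)) * ps l (b' * (d0 - d)))) := by
                apply sum_congr rfl; intro c _; apply sum_congr rfl; intro b _; rw [sum_comm]
            _ = _ := by
                apply sum_congr rfl; intro c _; rw [sum_comm]
      _ = _ := by
          rw [mul_sum]
          apply sum_congr rfl; intro c _
          rw [mul_sum]
          apply sum_congr rfl; intro d _
          rw [sum_mul_sum, mul_sum, mul_sum]
          apply sum_congr rfl; intro b _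
          rw [mul_sum, mul_sum]
  rw [h2]
  have h3 : ∀ c d : ZMod l, Q (c * d) *
        ((∑ b : ZMod l, ps l (b * (c0 - c))) * (∑ b' : ZMod l, ps l (b' * (d0 - d)))) =
      if c0 = c then (if d0 = d then Q (c * d) * (l : ℂ) ^ 2 else 0) else 0 := by
    intro c d
    rw [sum_ps, sum_ps]
    by_cases h1 : c0 = c
    · by_cases h2 : d0 = d
      · rw [if_pos (by rw [h1, sub_self]), if_pos (by rw [h2, sub_self]), if_pos h1, if_pos h2]
        ring
      · rw [if_neg (sub_ne_zero.2 h2), if_pos h1, if_neg h2]; ring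
    · rw [if_neg (sub_ne_zero.2 h1), if_neg h1]; ring
  simp_rw [h3]
  rw [sum_eq_single c0]
  · rw [sum_eq_single d0]
    · rw [if_pos rfl, if_pos rfl]
      have := l_ne l
      field_simp
    · intro d _ hd
      rw [if_pos rfl, if_neg (Ne.symm hd)]
    · intro h; exact absurd (mem_univ _) h
  · intro c _ hc
    apply sum_eq_zero; intro d _
    rw [if_neg (Ne.symm hc)]
  · intro h; exact absurd (mem_univ _) h

private lemma K1_Gm_form (hQ : ∀ d, ∑ c : ZMod l, Q (c * d) = 0)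
    (hB : ∀ X Y : ZMod l → ℂ, ‖∑ c : ZMod l, ∑ d : ZMod l, X c * Y d * Q (c * d)‖ ≤
      2 * (√(∑ c : ZMod l, ‖X c‖ ^ 2) * √(∑ c : ZMod l, ‖Y c‖ ^ 2))) (X Y : ZMod l → ℂ) :
    ‖∑ b ∈ univ.erase (0 : ZMod l), ∑ b' ∈ univ.erase (0 : ZMod l), K1_Gm l Q b b' * (X b * Y b')‖ ≤
      2 / l * (√(∑ b ∈ univ.erase (0 : ZMod l), ‖X b‖ ^ 2) *
        √(∑ b ∈ univ.erase (0 : ZMod l), ‖Y b‖ ^ 2)) := by
  have hl0 : (0 : ℝ) < l := by have := one_lt_q l; linarith
  set X' : ZMod l → ℂ := fun b => if b = 0 then 0 else X b with hX'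
  set Y' : ZMod l → ℂ := fun b => if b = 0 then 0 else Y b with hY'
  set Xt : ZMod l → ℂ := fun c => ∑ b : ZMod l, X' b * ps l (-c * b) with hXt
  set Yt : ZMod l → ℂ := fun c => ∑ b : ZMod l, Y' b * ps l (-c * b) with hYt
  have hn : ∀ Z : ZMod l → ℂ, ∑ c : ZMod l, ‖∑ b : ZMod l, (if b = 0 then 0 else Z b) * ps l (-c * b)‖ ^ 2 =
      l * ∑ b ∈ univ.erase (0 : ZMod l), ‖Z b‖ ^ 2 := by
    intro Z
    have h1 := parseval l (fun b => if b = 0 then 0 else Z b)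
    have h2 : ∑ c : ZMod l, ‖∑ b : ZMod l, (if b = 0 then 0 else Z b) * ps l (-c * b)‖ ^ 2 =
        ∑ c : ZMod l, ‖∑ b : ZMod l, (if b = 0 then 0 else Z b) * ps l (c * b)‖ ^ 2 :=
      Fintype.sum_equiv (Equiv.neg (ZMod l)) _ _ (fun c => rfl)
    rw [h2, h1]
    congr 1
    rw [← add_sum_erase univ _ (mem_univ (0 : ZMod l)), if_pos rfl]
    simp only [norm_zero, ne_eq, OfNat.ofNat_ne_zero, not_false_eq_true, zero_pow, zero_add]
    apply sum_congr rfl; intro b hb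
    rw [mem_erase] at hb
    rw [if_neg hb.1]
  have hform : ∑ b ∈ univ.erase (0 : ZMod l), ∑ b' ∈ univ.erase (0 : ZMod l), K1_Gm l Q b b' * (X b * Y b') =
      (1 / (l : ℂ) ^ 2) * ∑ c : ZMod l, ∑ d : ZMod l, Xt c * Yt d * Q (c * d) := by
    have e0 : ∑ b ∈ univ.erase (0 : ZMod l), ∑ b' ∈ univ.erase (0 : ZMod l), K1_Gm l Q b b' * (X b * Y b') =
        ∑ b : ZMod l, ∑ b' : ZMod l, K1_Gm l Q b b' * (X' b * Y' b') := by
      rw [← add_sum_erase univ (fun b => ∑ b' : ZMod l, K1_Gm l Q b b' * (X' b * Y' b'))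
        (mem_univ (0 : ZMod l))]
      have z1 : ∑ b' : ZMod l, K1_Gm l Q 0 b' * (X' 0 * Y' b') = 0 := by
        apply sum_eq_zero; intro b' _
        rw [K1_Gm_zero_left l Q hQ b', zero_mul]
      rw [z1, zero_add]
      apply sum_congr rfl; intro b hb
      rw [← add_sum_erase univ (fun b' => K1_Gm l Q b b' * (X' b * Y' b')) (mem_univ (0 : ZMod l)),
        K1_Gm_zero_right l Q hQ b, zero_mul, zero_add]
      apply sum_congr rfl; intro b' hb'
      rw [mem_erase] at hb hb'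
      simp only [hX', hY']
      rw [if_neg hb.1, if_neg hb'.1]
    rw [e0]
    unfold K1_Gm
    calc _ = ∑ b : ZMod l, ∑ b' : ZMod l, ∑ c : ZMod l, ∑ d : ZMod l, (1 / (l : ℂ) ^ 2) *
          ((X' b * ps l (-c * b)) * (Y' b' * ps l (-d * b')) * Q (c * d)) := by
          apply sum_congr rfl; intro b _
          apply sum_congr rfl; intro b' _
          rw [mul_assoc, sum_mul, mul_sum]
          apply sum_congr rfl; intro c _
          rw [sum_mul, mul_sum]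
          apply sum_congr rfl; intro d _
          rw [show -c * b = -(b * c) by ring, show -d * b' = -(b' * d) by ring]
          ring
      _ = ∑ c : ZMod l, ∑ d : ZMod l, ∑ b : ZMod l, ∑ b' : ZMod l, (1 / (l : ℂ) ^ 2) *
          ((X' b * ps l (-c * b)) * (Y' b' * ps l (-d * b')) * Q (c * d)) := by
          calc _ = ∑ b : ZMod l, ∑ c : ZMod l, ∑ b' : ZMod l, ∑ d : ZMod l, (1 / (l : ℂ) ^ 2) *
                ((X' b * ps l (-c * b)) * (Y' b' * ps l (-d * b')) * Q (c * d)) := by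
                apply sum_congr rfl; intro b _; rw [sum_comm]
            _ = ∑ c : ZMod l, ∑ b : ZMod l, ∑ b' : ZMod l, ∑ d : ZMod l, (1 / (l : ℂ) ^ 2) *
                ((X' b * ps l (-c * b)) * (Y' b' * ps l (-d * b')) * Q (c * d)) := sum_comm
            _ = ∑ c : ZMod l, ∑ b : ZMod l, ∑ d : ZMod l, ∑ b' : ZMod l, (1 / (l : ℂ) ^ 2) *
                ((X' b * ps l (-c * b)) * (Y' b' * ps l (-d * b')) * Q (c * d)) := by
                apply sum_congr rfl; intro c _; apply sum_congr rfl; intro b _; rw [sum_comm]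
            _ = _ := by
                apply sum_congr rfl; intro c _; rw [sum_comm]
      _ = _ := by
          rw [mul_sum]
          apply sum_congr rfl; intro c _
          rw [mul_sum]
          apply sum_congr rfl; intro d _
          simp only [hXt, hYt]
          rw [sum_mul_sum, sum_mul, mul_sum]
          apply sum_congr rfl; intro b _
          rw [sum_mul, mul_sum]
  rw [hform, norm_mul]
  have hb := hB Xt Yt
  have hX2 : ∑ c : ZMod l, ‖Xt c‖ ^ 2 = l * ∑ b ∈ univ.erase (0 : ZMod l), ‖X b‖ ^ 2 := hn X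
  have hY2 : ∑ c : ZMod l, ‖Yt c‖ ^ 2 = l * ∑ b ∈ univ.erase (0 : ZMod l), ‖Y b‖ ^ 2 := hn Y
  rw [hX2, hY2, sqrt_mul hl0.le, sqrt_mul hl0.le] at hb
  have hnl : ‖(1 : ℂ) / (l : ℂ) ^ 2‖ = 1 / (l : ℝ) ^ 2 := by
    rw [norm_div, norm_one, norm_pow, Complex.norm_natCast]
  rw [hnl]
  have hs : √(l : ℝ) * √(l : ℝ) = l := mul_self_sqrt hl0.le
  have hs0 : 0 < √(l : ℝ) := sqrt_pos.2 hl0
  calc 1 / (l : ℝ) ^ 2 * ‖∑ c : ZMod l, ∑ d : ZMod l, Xt c * Yt d * Q (c * d)‖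
      ≤ 1 / (l : ℝ) ^ 2 * (2 * ((√l * √(∑ b ∈ univ.erase (0 : ZMod l), ‖X b‖ ^ 2)) *
        (√l * √(∑ b ∈ univ.erase (0 : ZMod l), ‖Y b‖ ^ 2)))) := by gcongr
    _ = (√l * √l) / (l : ℝ) ^ 2 * (2 * (√(∑ b ∈ univ.erase (0 : ZMod l), ‖X b‖ ^ 2) *
        √(∑ b ∈ univ.erase (0 : ZMod l), ‖Y b‖ ^ 2))) := by
        ring
    _ = _ := by
        rw [hs]
        have : (l : ℝ) / (l : ℝ) ^ 2 = 1 / l := by field_simp
        rw [this]
        ring

private lemma K1_Gm_apply (hQ : ∀ d, ∑ c : ZMod l, Q (c * d) = 0)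
    (hB : ∀ X Y : ZMod l → ℂ, ‖∑ c : ZMod l, ∑ d : ZMod l, X c * Y d * Q (c * d)‖ ≤
      2 * (√(∑ c : ZMod l, ‖X c‖ ^ 2) * √(∑ c : ZMod l, ‖Y c‖ ^ 2))) (X : ZMod l → ℂ) :
    ∑ b' ∈ univ.erase (0 : ZMod l), ‖∑ b ∈ univ.erase (0 : ZMod l), K1_Gm l Q b b' * X b‖ ^ 2 ≤
      4 / (l : ℝ) ^ 2 * ∑ b ∈ univ.erase (0 : ZMod l), ‖X b‖ ^ 2 := by
  have hl0 : (0 : ℝ) < l := by have := one_lt_q l; linarith
  set W : ZMod l → ℂ := fun b' => ∑ b ∈ univ.erase (0 : ZMod l), K1_Gm l Q b b' * X b with hW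
  set S : ℝ := ∑ b' ∈ univ.erase (0 : ZMod l), ‖W b'‖ ^ 2 with hS
  set T : ℝ := ∑ b ∈ univ.erase (0 : ZMod l), ‖X b‖ ^ 2 with hT
  have hS0 : 0 ≤ S := by positivity
  have hT0 : 0 ≤ T := by positivity
  have h1 := K1_Gm_form l Q hQ hB X (fun b' => (starRingEnd ℂ) (W b'))
  have h2 : ∑ b ∈ univ.erase (0 : ZMod l), ∑ b' ∈ univ.erase (0 : ZMod l),
      K1_Gm l Q b b' * (X b * (starRingEnd ℂ) (W b')) = (S : ℂ) := by
    rw [sum_comm, hS]
    push_cast
    apply sum_congr rfl; intro b' _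
    rw [← Complex.mul_conj']
    have : W b' = ∑ b ∈ univ.erase (0 : ZMod l), K1_Gm l Q b b' * X b := rfl
    nth_rewrite 2 [this]
    rw [sum_mul]
    apply sum_congr rfl; intro b _
    ring
  rw [h2, Complex.norm_real, norm_eq_abs, abs_of_nonneg hS0] at h1
  simp only [RCLike.norm_conj] at h1
  change S ≤ 2 / l * (√T * √S) at h1
  have hsS : √S * √S = S := mul_self_sqrt hS0
  rcases eq_or_lt_of_le hS0 with h | h
  · change S ≤ 4 / (l : ℝ) ^ 2 * T
    rw [← h]; positivity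
  · have hsp : 0 < √S := sqrt_pos.2 h
    have h3 : √S ≤ 2 / l * √T := by
      have : √S * √S ≤ (2 / l * √T) * √S := by rw [hsS]; linarith
      exact le_of_mul_le_mul_right this hsp
    change S ≤ 4 / (l : ℝ) ^ 2 * T
    calc S = √S ^ 2 := (sq_sqrt hS0).symm
      _ ≤ (2 / l * √T) ^ 2 := by gcongr
      _ = 4 / (l : ℝ) ^ 2 * T := by
          rw [mul_pow, div_pow, sq_sqrt hT0]; norm_num

end matrix

theorem fourier_dk (l : ℕ) [Fact l.Prime] (b : Bool) : ∃ G : ZMod l → ZMod l → ℂ,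
    (∀ m n : ℕ, ((dk b l (m * n) : ℝ) : ℂ) = ∑ x ∈ univ.erase (0 : ZMod l), ∑ y ∈ univ.erase (0 : ZMod l),
      G x y * (ps l (x * m) * ps l (y * n))) ∧
    ∀ X : ZMod l → ℂ, ∑ y ∈ univ.erase (0 : ZMod l), ‖∑ x ∈ univ.erase (0 : ZMod l), G x y * X x‖ ^ 2 ≤
      4 / (l : ℝ) ^ 2 * ∑ x ∈ univ.erase (0 : ZMod l), ‖X x‖ ^ 2 := by
  refine ⟨K1_Gm l (K1_dl l b), fun m n => ?_, fun X => ?_⟩
  · rw [K1_dk, Nat.cast_mul]
    exact K1_Gm_inversion l (K1_dl l b) (K1_sum l b) m n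
  · exact K1_Gm_apply l (K1_dl l b) (K1_sum l b) (K1_bilin l b) X

end Pool.Agent.Lib.MP_5deb1d_nt
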