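import Mathlib
import Pool.Agent.Lib.MP_5deb1d_nt.K0
import Pool.Agent.Lib.MP_2a816b_nt.Divisor

/-!
JOB K10. The main term. PROOF: `∑_{K < k ≤ 2K, (k,d)=1} 1/k = ∑_{e ∣ d} (μ(e)/e) ∑_{K/e < j ≤ 2K/e} 1/j` and the inner sum is `log 2 + O(e/K)` (absolute constant, also for `e > K`), so it is `(φ(d)/d) log 2 + O(τ(d)/K)`. Multiply by `λ(d)/φ(d)` and sum:
`∑_{d ≤ D} τ(d)³/(φ(d) K) ≤ (C D^δ)/K`, as `1/φ(d) ≤ τ(d)/d` and `divisor_bound` (`Lib/MP_2a816b_nt/Divisor.lean`), `∑_{d ≤ D} 1/d ≤ 1 + log D`.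
-/

set_option autoImplicit false

open Finset

namespace Pool.Agent.Lib.MP_5deb1d_nt

private theorem K10_harm_le (M N : ℕ) (hM : 1 ≤ M) (hMN : M ≤ N) :
    ∑ m ∈ Ioc M N, 1 / (m : ℝ) ≤ Real.log N - Real.log M := by
  induction N, hMN using Nat.le_induction with
  | base => simp
  | succ N hN ih =>
    rw [Finset.sum_Ioc_succ_top hN]
    have hN0 : (0 : ℝ) < N := by exact_mod_cast (lt_of_lt_of_le hM hN)
    have hN1 : (0 : ℝ) < (N : ℝ) + 1 := by linarith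
    have h1 := Real.one_sub_inv_le_log_of_pos (x := ((N : ℝ) + 1) / N) (div_pos hN1 hN0)
    rw [Real.log_div hN1.ne' hN0.ne'] at h1
    have h2 : 1 - (((N : ℝ) + 1) / N)⁻¹ = 1 / ((N : ℝ) + 1) := by
      field_simp
      ring
    rw [h2] at h1
    push_cast
    linarith

private theorem K10_harm_ge (M N : ℕ) (hMN : M ≤ N) :
    Real.log ((N : ℝ) + 1) - Real.log ((M : ℝ) + 1) ≤ ∑ m ∈ Ioc M N, 1 / (m : ℝ) := by
  induction N, hMN using Nat.le_induction with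
  | base => simp
  | succ N hN ih =>
    rw [Finset.sum_Ioc_succ_top hN]
    have hN1 : (0 : ℝ) < (N : ℝ) + 1 := by positivity
    have hN2 : (0 : ℝ) < (N : ℝ) + 1 + 1 := by positivity
    have h1 := Real.log_le_sub_one_of_pos (x := ((N : ℝ) + 1 + 1) / ((N : ℝ) + 1)) (div_pos hN2 hN1)
    rw [Real.log_div hN2.ne' hN1.ne'] at h1
    have h2 : ((N : ℝ) + 1 + 1) / ((N : ℝ) + 1) - 1 = 1 / ((N : ℝ) + 1) := by
      field_simp
      ring
    rw [h2] at h1
    push_cast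
    linarith

private theorem K10_half (M N : ℕ) (h : N = 2 * M ∨ N = 2 * M + 1) :
    |∑ m ∈ Ioc M N, 1 / (m : ℝ) - Real.log 2| ≤ 2 / ((M : ℝ) + 1) := by
  have hM1 : (0 : ℝ) < (M : ℝ) + 1 := by positivity
  have hl2 : Real.log 2 ≤ 1 := by
    have := Real.log_two_lt_d9
    linarith
  have hl0 : 0 ≤ Real.log 2 := Real.log_nonneg (by norm_num)
  have hlow : Real.log 2 - 1 / ((M : ℝ) + 1) ≤ ∑ m ∈ Ioc M (2 * M), 1 / (m : ℝ) := by
    have h1 := K10_harm_ge M (2 * M) (by omega)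
    have h2 : (0 : ℝ) < ((2 * M : ℕ) : ℝ) + 1 := by positivity
    have h3 := Real.one_sub_inv_le_log_of_pos (x := (((2 * M : ℕ) : ℝ) + 1) / (2 * ((M : ℝ) + 1)))
      (div_pos h2 (by positivity))
    rw [Real.log_div h2.ne' (by positivity), Real.log_mul (by norm_num) hM1.ne'] at h3
    have h4 : 1 - ((((2 * M : ℕ) : ℝ) + 1) / (2 * ((M : ℝ) + 1)))⁻¹ = -(1 / (2 * (M : ℝ) + 1)) := by
      push_cast
      have h5 : (2 * (M : ℝ) + 1) ≠ 0 := by positivity
      field_simp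
      ring
    rw [h4] at h3
    have h6 : 1 / (2 * (M : ℝ) + 1) ≤ 1 / ((M : ℝ) + 1) := by
      apply one_div_le_one_div_of_le hM1
      have : (0 : ℝ) ≤ M := Nat.cast_nonneg M
      linarith
    linarith
  have hup : ∑ m ∈ Ioc M (2 * M), 1 / (m : ℝ) ≤ Real.log 2 := by
    rcases Nat.eq_zero_or_pos M with h0 | h0
    · subst h0
      simpa using hl0
    · have h1 := K10_harm_le M (2 * M) h0 (by omega)
      have hM0 : (M : ℝ) ≠ 0 := by
        have : (0 : ℝ) < M := by exact_mod_cast h0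
        exact this.ne'
      push_cast at h1
      rw [Real.log_mul (by norm_num) hM0] at h1
      linarith
  have hnn : 0 ≤ 1 / ((M : ℝ) + 1) := by positivity
  have h2e : 2 / ((M : ℝ) + 1) = 1 / ((M : ℝ) + 1) + 1 / ((M : ℝ) + 1) := by ring
  rcases h with h | h
  · subst h
    rw [abs_le, h2e]
    constructor <;> linarith
  · subst h
    rw [Finset.sum_Ioc_succ_top (by omega : M ≤ 2 * M)]
    have h7 : 1 / ((2 * M + 1 : ℕ) : ℝ) ≤ 1 / ((M : ℝ) + 1) := by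
      push_cast
      apply one_div_le_one_div_of_le hM1
      have : (0 : ℝ) ≤ M := Nat.cast_nonneg M
      linarith
    have h8 : 0 ≤ 1 / ((2 * M + 1 : ℕ) : ℝ) := by positivity
    rw [abs_le, h2e]
    constructor <;> linarith

private theorem K10_mult (K e : ℕ) (he : 0 < e) :
    ∑ k ∈ (Ioc K (2 * K)).filter (fun k => e ∣ k), 1 / (k : ℝ) =
      1 / (e : ℝ) * ∑ m ∈ Ioc (K / e) (2 * K / e), 1 / (m : ℝ) := by
  have h1 : (Ioc K (2 * K)).filter (fun k => e ∣ k) = (Ioc (K / e) (2 * K / e)).image (fun m => e * m) := by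
    ext k
    rw [mem_filter, mem_Ioc, mem_image]
    constructor
    · rintro ⟨⟨h2, h3⟩, m, rfl⟩
      refine ⟨m, ?_, rfl⟩
      rw [mem_Ioc, Nat.div_lt_iff_lt_mul he, Nat.le_div_iff_mul_le he, mul_comm m e]
      exact ⟨h2, h3⟩
    · rintro ⟨m, hm, rfl⟩
      rw [mem_Ioc, Nat.div_lt_iff_lt_mul he, Nat.le_div_iff_mul_le he, mul_comm m e] at hm
      exact ⟨hm, Dvd.intro m rfl⟩
  rw [h1, Finset.sum_image (fun a _ b _ hab => Nat.eq_of_mul_eq_mul_left he hab), Finset.mul_sum]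
  refine Finset.sum_congr rfl fun m _ => ?_
  push_cast
  rw [one_div_mul_one_div]

private theorem K10_e (K e : ℕ) (hK : 1 ≤ K) (he : 0 < e) :
    |∑ k ∈ (Ioc K (2 * K)).filter (fun k => e ∣ k), 1 / (k : ℝ) - Real.log 2 / e| ≤ 2 / K := by
  have he0 : (0 : ℝ) < e := by exact_mod_cast he
  have hK0 : (0 : ℝ) < K := by exact_mod_cast hK
  have hor : 2 * K / e = 2 * (K / e) ∨ 2 * K / e = 2 * (K / e) + 1 := by
    have h1 := Nat.div_add_mod K e
    have h2 := Nat.mod_lt K he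
    have h3 : 2 * K = 2 * (K % e) + e * (2 * (K / e)) := by
      conv_lhs => rw [← h1]
      ring
    rw [h3, Nat.add_mul_div_left _ _ he]
    have h4 : 2 * (K % e) / e < 2 := by
      rw [Nat.div_lt_iff_lt_mul he]
      omega
    generalize 2 * (K % e) / e = t at h4 ⊢
    generalize K / e = s
    omega
  rw [K10_mult K e he]
  have h1 := K10_half (K / e) (2 * K / e) hor
  have h2 : 1 / (e : ℝ) * ∑ m ∈ Ioc (K / e) (2 * K / e), 1 / (m : ℝ) - Real.log 2 / e =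
      1 / (e : ℝ) * (∑ m ∈ Ioc (K / e) (2 * K / e), 1 / (m : ℝ) - Real.log 2) := by ring
  rw [h2, abs_mul, abs_of_pos (one_div_pos.2 he0)]
  have h3 : (K : ℝ) ≤ e * (((K / e : ℕ) : ℝ) + 1) := by
    have := (Nat.lt_mul_div_succ K he).le
    exact_mod_cast this
  have h4 : (0 : ℝ) < ((K / e : ℕ) : ℝ) + 1 := by positivity
  calc 1 / (e : ℝ) * |∑ m ∈ Ioc (K / e) (2 * K / e), 1 / (m : ℝ) - Real.log 2| ≤
        1 / (e : ℝ) * (2 / (((K / e : ℕ) : ℝ) + 1)) := mul_le_mul_of_nonneg_left h1 (one_div_pos.2 he0).le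
    _ = 2 / (e * (((K / e : ℕ) : ℝ) + 1)) := by
      field_simp
    _ ≤ 2 / K := div_le_div_of_nonneg_left (by norm_num) hK0 h3

private theorem K10_moebius (d n : ℕ) (hd : d ≠ 0) :
    ∑ e ∈ d.divisors with e ∣ n, ArithmeticFunction.moebius e = if n.Coprime d then (1 : ℤ) else 0 := by
  have h1 : d.divisors.filter (fun e => e ∣ n) = (n.gcd d).divisors := by
    ext e
    rw [mem_filter, Nat.mem_divisors, Nat.mem_divisors]
    constructor
    · rintro ⟨⟨h1, _⟩, h2⟩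
      exact ⟨Nat.dvd_gcd h2 h1, (Nat.gcd_pos_of_pos_right _ (Nat.pos_of_ne_zero hd)).ne'⟩
    · rintro ⟨h1, _⟩
      exact ⟨⟨h1.trans (Nat.gcd_dvd_right _ _), hd⟩, h1.trans (Nat.gcd_dvd_left _ _)⟩
  rw [h1, ← ArithmeticFunction.coe_mul_zeta_apply, ArithmeticFunction.moebius_mul_coe_zeta,
    ArithmeticFunction.one_apply]

private theorem K10_wsum (S : Finset ℕ) (w : ℕ → ℝ) (d : ℕ) (hd : d ≠ 0) :
    ∑ k ∈ S.filter (fun k => k.Coprime d), w k =
      ∑ e ∈ d.divisors, (ArithmeticFunction.moebius e : ℝ) * ∑ k ∈ S.filter (fun k => e ∣ k), w k := by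
  have h1 : ∀ e ∈ d.divisors, (ArithmeticFunction.moebius e : ℝ) * ∑ k ∈ S.filter (fun k => e ∣ k), w k =
      ∑ k ∈ S, (if e ∣ k then (ArithmeticFunction.moebius e : ℝ) else 0) * w k := by
    intro e _
    rw [Finset.mul_sum, Finset.sum_filter]
    refine Finset.sum_congr rfl fun k _ => ?_
    split_ifs <;> simp
  rw [Finset.sum_congr rfl h1, Finset.sum_comm, Finset.sum_filter]
  refine Finset.sum_congr rfl fun k _ => ?_
  rw [← Finset.sum_mul]
  have h2 : (∑ e ∈ d.divisors, if e ∣ k then (ArithmeticFunction.moebius e : ℝ) else 0) =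
      ((∑ e ∈ d.divisors with e ∣ k, ArithmeticFunction.moebius e : ℤ) : ℝ) := by
    rw [← Finset.sum_filter]
    push_cast
    rfl
  rw [h2, K10_moebius d k hd]
  split_ifs <;> simp

private theorem K10_tot (d : ℕ) (hd : 0 < d) :
    (d.totient : ℝ) / d = ∑ e ∈ d.divisors, (ArithmeticFunction.moebius e : ℝ) * (1 / (e : ℝ)) := by
  have hd0 : (0 : ℝ) < d := by exact_mod_cast hd
  have h1 : ((Ioc 0 d).filter (fun n => n.Coprime d)).card = d.totient := by
    rw [← Nat.filter_coprime_Ico_eq_totient d 1]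
    congr 1
    ext n
    rw [mem_filter, mem_filter, mem_Ioc, mem_Ico, Nat.coprime_comm]
    constructor
    · rintro ⟨h1, h2⟩
      exact ⟨⟨by omega, by omega⟩, h2⟩
    · rintro ⟨h1, h2⟩
      exact ⟨⟨by omega, by omega⟩, h2⟩
  have h2 : ((d.totient : ℕ) : ℝ) = ∑ e ∈ d.divisors, (ArithmeticFunction.moebius e : ℝ) * ((d : ℝ) / e) := by
    have h3 := K10_wsum (Ioc 0 d) (fun _ => 1) d hd.ne'
    rw [Finset.sum_const, nsmul_eq_mul, mul_one, h1] at h3
    rw [h3]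
    refine Finset.sum_congr rfl fun e he => ?_
    have he0 : (e : ℝ) ≠ 0 := by
      have : e ≠ 0 := (Nat.pos_of_mem_divisors he).ne'
      exact_mod_cast this
    rw [Finset.sum_const, nsmul_eq_mul, mul_one, Nat.Ioc_filter_dvd_card_eq_div,
      Nat.cast_div (Nat.dvd_of_mem_divisors he) he0]
  rw [h2, Finset.sum_div]
  refine Finset.sum_congr rfl fun e _ => ?_
  field_simp

private theorem K10_cop (K d : ℕ) (hK : 1 ≤ K) (hd : 0 < d) :
    |∑ k ∈ (Ioc K (2 * K)).filter (fun k => k.Coprime d), 1 / (k : ℝ) - Real.log 2 * ((d.totient : ℝ) / d)| ≤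
      2 * (d.divisors.card : ℝ) / K := by
  rw [K10_wsum (Ioc K (2 * K)) (fun k => 1 / (k : ℝ)) d hd.ne', K10_tot d hd, Finset.mul_sum,
    ← Finset.sum_sub_distrib]
  refine (Finset.abs_sum_le_sum_abs _ _).trans ?_
  have h1 : ∀ e ∈ d.divisors, |(ArithmeticFunction.moebius e : ℝ) *
      ∑ k ∈ (Ioc K (2 * K)).filter (fun k => e ∣ k), 1 / (k : ℝ) -
      Real.log 2 * ((ArithmeticFunction.moebius e : ℝ) * (1 / (e : ℝ)))| ≤ 2 / K := by
    intro e he
    have he0 : 0 < e := Nat.pos_of_mem_divisors he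
    have h2 : (ArithmeticFunction.moebius e : ℝ) *
        ∑ k ∈ (Ioc K (2 * K)).filter (fun k => e ∣ k), 1 / (k : ℝ) -
        Real.log 2 * ((ArithmeticFunction.moebius e : ℝ) * (1 / (e : ℝ))) = (ArithmeticFunction.moebius e : ℝ) *
        (∑ k ∈ (Ioc K (2 * K)).filter (fun k => e ∣ k), 1 / (k : ℝ) - Real.log 2 / e) := by ring
    have h4 : |(ArithmeticFunction.moebius e : ℝ)| ≤ 1 := by
      have := ArithmeticFunction.abs_moebius_le_one (n := e)
      exact_mod_cast this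
    rw [h2, abs_mul]
    calc |(ArithmeticFunction.moebius e : ℝ)| *
          |∑ k ∈ (Ioc K (2 * K)).filter (fun k => e ∣ k), 1 / (k : ℝ) - Real.log 2 / e| ≤ 1 * (2 / K) :=
          mul_le_mul h4 (K10_e K e hK he0) (abs_nonneg _) zero_le_one
      _ = 2 / K := one_mul _
  refine (Finset.sum_le_sum h1).trans (le_of_eq ?_)
  rw [Finset.sum_const, nsmul_eq_mul]
  ring

private theorem K10_phi (d : ℕ) (hd : 0 < d) : (d : ℝ) ≤ (d.totient : ℝ) * (d.divisors.card : ℝ) := by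
  have h1 : d ≤ d.totient * d.divisors.card := by
    calc d = ∑ m ∈ d.divisors, m.totient := (Nat.sum_totient d).symm
      _ ≤ ∑ _m ∈ d.divisors, d.totient := Finset.sum_le_sum fun m hm =>
          Nat.le_of_dvd (Nat.totient_pos.2 hd) (Nat.totient_dvd_of_dvd (Nat.dvd_of_mem_divisors hm))
      _ = d.totient * d.divisors.card := by
          rw [Finset.sum_const, smul_eq_mul, mul_comm]
  exact_mod_cast h1

theorem main_lam (δ : ℝ) (hδ : 0 < δ) : ∃ C : ℝ, 0 < C ∧ ∀ (K D : ℕ) (lam : ℕ → ℝ), 1 ≤ K → 1 ≤ D →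
    (∀ d, |lam d| ≤ (d.divisors.card : ℝ) ^ 2) →
    |∑ d ∈ Icc 1 D, lam d * ∑ k ∈ (Ioc K (2 * K)).filter (fun k => k.Coprime d), 1 / ((k : ℝ) * (Nat.totient d : ℝ)) -
      Real.log 2 * ∑ d ∈ Icc 1 D, lam d / d| ≤ C * (D : ℝ) ^ δ / K := by
  obtain ⟨C1, hC1, hdiv⟩ := Pool.Agent.Lib.MP_2a816b_nt.divisor_bound (δ / 8) (by positivity)
  have hC0 : 0 < C1 := by linarith
  refine ⟨2 * C1 ^ 4 * (1 + 2 / δ), by positivity, ?_⟩
  intro K D lam hK hD hlam
  have hK0 : (0 : ℝ) < K := by exact_mod_cast hK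
  have hD0 : (0 : ℝ) < D := by exact_mod_cast hD
  have hD1 : (1 : ℝ) ≤ D := by exact_mod_cast hD
  have hterm : ∀ d ∈ Icc 1 D, |lam d * ∑ k ∈ (Ioc K (2 * K)).filter (fun k => k.Coprime d),
      1 / ((k : ℝ) * (Nat.totient d : ℝ)) - Real.log 2 * (lam d / d)| ≤
      2 * C1 ^ 4 * (D : ℝ) ^ (δ / 2) / K * (1 / (d : ℝ)) := by
    intro d hd
    rw [mem_Icc] at hd
    have hd0 : 0 < d := hd.1
    have hdr : (0 : ℝ) < d := by exact_mod_cast hd0
    have hphi : (0 : ℝ) < (d.totient : ℝ) := by exact_mod_cast Nat.totient_pos.2 hd0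
    have hS : ∑ k ∈ (Ioc K (2 * K)).filter (fun k => k.Coprime d), 1 / ((k : ℝ) * (Nat.totient d : ℝ)) =
        (∑ k ∈ (Ioc K (2 * K)).filter (fun k => k.Coprime d), 1 / (k : ℝ)) / (d.totient : ℝ) := by
      rw [Finset.sum_div]
      refine Finset.sum_congr rfl fun k _ => ?_
      rw [div_div]
    have he : lam d * ∑ k ∈ (Ioc K (2 * K)).filter (fun k => k.Coprime d),
        1 / ((k : ℝ) * (Nat.totient d : ℝ)) - Real.log 2 * (lam d / d) = lam d / (d.totient : ℝ) *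
        (∑ k ∈ (Ioc K (2 * K)).filter (fun k => k.Coprime d), 1 / (k : ℝ) -
          Real.log 2 * ((d.totient : ℝ) / d)) := by
      rw [hS]
      field_simp
    have hτ : (d.divisors.card : ℝ) ≤ C1 * (d : ℝ) ^ (δ / 8) := hdiv d hd0
    have hτ0 : (0 : ℝ) ≤ (d.divisors.card : ℝ) := Nat.cast_nonneg _
    rw [he, abs_mul, abs_div, abs_of_pos hphi]
    calc |lam d| / (d.totient : ℝ) * |∑ k ∈ (Ioc K (2 * K)).filter (fun k => k.Coprime d), 1 / (k : ℝ) -
          Real.log 2 * ((d.totient : ℝ) / d)| ≤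
          (d.divisors.card : ℝ) ^ 2 / (d.totient : ℝ) * (2 * (d.divisors.card : ℝ) / K) :=
          mul_le_mul (div_le_div_of_nonneg_right (hlam d) hphi.le) (K10_cop K d hK hd0) (abs_nonneg _)
            (by positivity)
      _ = 2 * (d.divisors.card : ℝ) ^ 3 / K * (1 / (d.totient : ℝ)) := by ring
      _ ≤ 2 * (d.divisors.card : ℝ) ^ 3 / K * ((d.divisors.card : ℝ) / d) := by
          refine mul_le_mul_of_nonneg_left ?_ (by positivity)
          rw [div_le_div_iff₀ hphi hdr, one_mul, mul_comm]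
          exact K10_phi d hd0
      _ = 2 * (d.divisors.card : ℝ) ^ 4 / K * (1 / (d : ℝ)) := by ring
      _ ≤ 2 * (C1 ^ 4 * (D : ℝ) ^ (δ / 2)) / K * (1 / (d : ℝ)) := by
          refine mul_le_mul_of_nonneg_right ?_ (by positivity)
          refine div_le_div_of_nonneg_right ?_ hK0.le
          refine mul_le_mul_of_nonneg_left ?_ (by norm_num)
          calc (d.divisors.card : ℝ) ^ 4 ≤ (C1 * (d : ℝ) ^ (δ / 8)) ^ 4 := pow_le_pow_left₀ hτ0 hτ 4
            _ = C1 ^ 4 * (d : ℝ) ^ (δ / 2) := by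
                rw [mul_pow, ← Real.rpow_natCast ((d : ℝ) ^ (δ / 8)), ← Real.rpow_mul hdr.le]
                congr 2
                push_cast
                ring
            _ ≤ C1 ^ 4 * (D : ℝ) ^ (δ / 2) := by
                refine mul_le_mul_of_nonneg_left ?_ (by positivity)
                exact Real.rpow_le_rpow hdr.le (by exact_mod_cast hd.2) (by positivity)
      _ = 2 * C1 ^ 4 * (D : ℝ) ^ (δ / 2) / K * (1 / (d : ℝ)) := by ring
  have hharm : ∑ d ∈ Icc 1 D, 1 / (d : ℝ) ≤ (1 + 2 / δ) * (D : ℝ) ^ (δ / 2) := by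
    have h1 : ∑ d ∈ Icc 1 D, 1 / (d : ℝ) ≤ 1 + Real.log D := by
      rw [Finset.Icc_eq_cons_Ioc hD, Finset.sum_cons]
      have h2 := K10_harm_le 1 D le_rfl hD
      simp only [Nat.cast_one, Real.log_one, sub_zero, div_one] at h2 ⊢
      linarith
    have h2 := Real.log_le_rpow_div hD0.le (half_pos hδ)
    have h3 : (1 : ℝ) ≤ (D : ℝ) ^ (δ / 2) := Real.one_le_rpow hD1 (half_pos hδ).le
    have h4 : (D : ℝ) ^ (δ / 2) / (δ / 2) = 2 / δ * (D : ℝ) ^ (δ / 2) := by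
      field_simp
    rw [h4] at h2
    calc ∑ d ∈ Icc 1 D, 1 / (d : ℝ) ≤ 1 + Real.log D := h1
      _ ≤ (D : ℝ) ^ (δ / 2) + 2 / δ * (D : ℝ) ^ (δ / 2) := by linarith
      _ = (1 + 2 / δ) * (D : ℝ) ^ (δ / 2) := by ring
  rw [Finset.mul_sum, ← Finset.sum_sub_distrib]
  refine (Finset.abs_sum_le_sum_abs _ _).trans ((Finset.sum_le_sum hterm).trans ?_)
  rw [← Finset.mul_sum]
  calc 2 * C1 ^ 4 * (D : ℝ) ^ (δ / 2) / K * ∑ d ∈ Icc 1 D, 1 / (d : ℝ) ≤
        2 * C1 ^ 4 * (D : ℝ) ^ (δ / 2) / K * ((1 + 2 / δ) * (D : ℝ) ^ (δ / 2)) :=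
        mul_le_mul_of_nonneg_left hharm (by positivity)
    _ = 2 * C1 ^ 4 * (1 + 2 / δ) * ((D : ℝ) ^ (δ / 2) * (D : ℝ) ^ (δ / 2)) / K := by ring
    _ = 2 * C1 ^ 4 * (1 + 2 / δ) * (D : ℝ) ^ δ / K := by
        rw [← Real.rpow_add hD0, add_halves]

end Pool.Agent.Lib.MP_5deb1d_nt
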