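import Mathlib
import Pool.Agent.Lib.MP_5deb1d_nt.K1

/-!
JOB K2. Bilinear forms with the product kernel `dF`: copy of `tensor_bound` (`Lib/MP_2a816b_nt/Tensor2.lean`) with `fourier_dk` in place of `Gm_inversion`, `Gm_apply` (the factor `2/√p` becomes `2/p`).
`FS`, `hat`, `FS_insert`, `hat_periodic`, `hat_twist`, `sum_erase_val`, `ps_mul_natCast` are in `Tensor2.lean`.
-/

set_option autoImplicit false

open Finset

namespace Pool.Agent.Lib.MP_5deb1d_nt

open Pool.Agent.Lib.MP_2a816b_nt (FS hat)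
open Pool.Agent.Lib.MP_2a816b_nt (FS_empty ps e FS_insert hat_periodic sum_erase_val ps_mul_natCast hat_twist FS_congr FS_mono FS_nonneg FS_sum FS_mul Cop e_add)

theorem tensor_dF (b : Bool) (I : Finset ℕ) (hI : ∀ p ∈ I, p.Prime) :
    ∀ (M N : ℕ) (x y : ℕ → ℂ),
      ‖∑ m ∈ range M, ∑ n ∈ range N, x m * y n * dF b I (m * n)‖ ≤
        (∏ p ∈ I, (2 / (p : ℝ))) * (√(FS I (fun β => ‖hat M x β‖ ^ 2)) * √(FS I (fun β => ‖hat N y β‖ ^ 2))) := by
  classical
  induction I using Finset.induction_on with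
  | empty =>
    intro M N x y
    rw [FS_empty, FS_empty, prod_empty, one_mul, Real.sqrt_sq (norm_nonneg _), Real.sqrt_sq (norm_nonneg _),
      ← norm_mul]
    apply le_of_eq
    congr 1
    unfold hat dF
    rw [sum_mul_sum]
    apply sum_congr rfl; intro m _
    apply sum_congr rfl; intro n _
    simp
  | insert l I hlI ih =>
    intro M N x y
    have hIp : ∀ p ∈ I, p.Prime := fun p hp => hI p (mem_insert_of_mem hp)
    have hl := hI l (mem_insert_self l I)
    have hfact : Fact l.Prime := ⟨hl⟩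
    have hlpos : (0 : ℝ) < l := by exact_mod_cast hl.pos
    have ih' := ih hIp
    set C : ℝ := ∏ p ∈ I, (2 / (p : ℝ)) with hC
    have hC0 : 0 ≤ C := prod_nonneg (fun p _ => by positivity)
    obtain ⟨G, hG1, hG2⟩ := fourier_dk l b
    set X : ZMod l → ℕ → ℂ := fun b' m => (∑ c ∈ univ.erase (0 : ZMod l), G c b' * ps l (c * m)) * x m
      with hX
    set Y : ZMod l → ℕ → ℂ := fun b' n => e (n * (b'.val / l)) * y n with hY
    -- decomposition
    have h1 : ∑ m ∈ range M, ∑ n ∈ range N, x m * y n * dF b (insert l I) (m * n) =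
        ∑ b' ∈ univ.erase (0 : ZMod l), ∑ m ∈ range M, ∑ n ∈ range N,
          X b' m * Y b' n * dF b I (m * n) := by
      have e1 : ∀ m n : ℕ, x m * y n * dF b (insert l I) (m * n) =
          ∑ b' ∈ univ.erase (0 : ZMod l), X b' m * Y b' n * dF b I (m * n) := by
        intro m n
        unfold dF
        rw [prod_insert hlI, hG1 m n, sum_comm]
        simp only [hX, hY]
        rw [sum_mul, mul_sum]
        apply sum_congr rfl; intro b' _
        rw [← ps_mul_natCast l b' n, sum_mul, sum_mul, mul_sum, sum_mul, sum_mul]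
        apply sum_congr rfl; intro c _
        ring
      calc _ = ∑ m ∈ range M, ∑ n ∈ range N, ∑ b' ∈ univ.erase (0 : ZMod l),
            X b' m * Y b' n * dF b I (m * n) := by
            apply sum_congr rfl; intro m _
            apply sum_congr rfl; intro n _
            exact e1 m n
        _ = ∑ m ∈ range M, ∑ b' ∈ univ.erase (0 : ZMod l), ∑ n ∈ range N,
            X b' m * Y b' n * dF b I (m * n) := by
            apply sum_congr rfl; intro m _; rw [sum_comm]
        _ = _ := by rw [sum_comm]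
    rw [h1]
    -- the two families
    have hgx : ∀ (x : ℝ) (m : ℤ) (K : ℕ) (z : ℕ → ℂ), ‖hat K z (x + m)‖ ^ 2 = ‖hat K z x‖ ^ 2 := by
      intro x m K z; rw [hat_periodic]
    have hYsum : ∑ b' ∈ univ.erase (0 : ZMod l), FS I (fun β => ‖hat N (Y b') β‖ ^ 2) =
        FS (insert l I) (fun β => ‖hat N y β‖ ^ 2) := by
      rw [FS_insert l I hl hIp hlI _ (fun t m => hgx t m N y)]
      rw [← sum_erase_val l (fun c => FS I (fun β => ‖hat N y (c / l + β)‖ ^ 2))]
      apply sum_congr rfl; intro b' _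
      apply FS_congr; intro β
      simp only [hY]
      rw [hat_twist]
    have hXsum : ∑ b' ∈ univ.erase (0 : ZMod l), FS I (fun β => ‖hat M (X b') β‖ ^ 2) ≤
        4 / (l : ℝ) ^ 2 * FS (insert l I) (fun β => ‖hat M x β‖ ^ 2) := by
      rw [FS_insert l I hl hIp hlI _ (fun t m => hgx t m M x)]
      rw [← FS_sum]
      have e1 : ∀ β : ℝ, ∑ b' ∈ univ.erase (0 : ZMod l), ‖hat M (X b') β‖ ^ 2 ≤
          4 / (l : ℝ) ^ 2 * ∑ c ∈ Cop l, ‖hat M x (c / l + β)‖ ^ 2 := by
        intro β
        have e2 : ∀ b' : ZMod l, hat M (X b') β = ∑ c ∈ univ.erase (0 : ZMod l),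
            G c b' * hat M x ((c.val : ℝ) / l + β) := by
          intro b'
          unfold hat
          simp only [hX]
          simp_rw [mul_sum]
          rw [sum_comm]
          apply sum_congr rfl; intro m _
          rw [sum_mul, sum_mul]
          apply sum_congr rfl; intro c _
          rw [ps_mul_natCast]
          have : e (m * ((c.val : ℝ) / l + β)) = e (m * ((c.val : ℝ) / l)) * e (m * β) := by
            rw [← e_add]; congr 1; ring
          rw [this]; ring
        have e3 := hG2 (fun c => hat M x ((c.val : ℝ) / l + β))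
        rw [sum_erase_val l (fun c => ‖hat M x ((c : ℝ) / l + β)‖ ^ 2)] at e3
        refine le_trans (le_of_eq ?_) e3
        apply sum_congr rfl; intro b' _
        rw [e2]
      calc _ ≤ FS I (fun β => 4 / (l : ℝ) ^ 2 * ∑ c ∈ Cop l, ‖hat M x (c / l + β)‖ ^ 2) := FS_mono I _ _ e1
        _ = _ := by rw [FS_mul, FS_sum]
    -- conclusion
    have hFX : 0 ≤ FS (insert l I) (fun β => ‖hat M x β‖ ^ 2) := FS_nonneg _ _ (fun β => by positivity)
    have hFY : 0 ≤ FS (insert l I) (fun β => ‖hat N y β‖ ^ 2) := FS_nonneg _ _ (fun β => by positivity)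
    calc ‖∑ b' ∈ univ.erase (0 : ZMod l), ∑ m ∈ range M, ∑ n ∈ range N,
          X b' m * Y b' n * dF b I (m * n)‖
        ≤ ∑ b' ∈ univ.erase (0 : ZMod l), ‖∑ m ∈ range M, ∑ n ∈ range N,
          X b' m * Y b' n * dF b I (m * n)‖ := norm_sum_le _ _
      _ ≤ ∑ b' ∈ univ.erase (0 : ZMod l), C * (√(FS I (fun β => ‖hat M (X b') β‖ ^ 2)) *
          √(FS I (fun β => ‖hat N (Y b') β‖ ^ 2))) := sum_le_sum (fun b' _ => ih' M N (X b') (Y b'))
      _ = C * ∑ b' ∈ univ.erase (0 : ZMod l), √(FS I (fun β => ‖hat M (X b') β‖ ^ 2)) *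
          √(FS I (fun β => ‖hat N (Y b') β‖ ^ 2)) := by rw [mul_sum]
      _ ≤ C * (√(∑ b' ∈ univ.erase (0 : ZMod l), √(FS I (fun β => ‖hat M (X b') β‖ ^ 2)) ^ 2) *
          √(∑ b' ∈ univ.erase (0 : ZMod l), √(FS I (fun β => ‖hat N (Y b') β‖ ^ 2)) ^ 2)) := by
          gcongr
          exact Real.sum_mul_le_sqrt_mul_sqrt _ _ _
      _ = C * (√(∑ b' ∈ univ.erase (0 : ZMod l), FS I (fun β => ‖hat M (X b') β‖ ^ 2)) *
          √(∑ b' ∈ univ.erase (0 : ZMod l), FS I (fun β => ‖hat N (Y b') β‖ ^ 2))) := by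
          congr 2
          · congr 1; apply sum_congr rfl; intro b' _
            exact Real.sq_sqrt (FS_nonneg _ _ (fun β => by positivity))
          · congr 1; apply sum_congr rfl; intro b' _
            exact Real.sq_sqrt (FS_nonneg _ _ (fun β => by positivity))
      _ ≤ C * (√(4 / (l : ℝ) ^ 2 * FS (insert l I) (fun β => ‖hat M x β‖ ^ 2)) *
          √(FS (insert l I) (fun β => ‖hat N y β‖ ^ 2))) := by
          rw [hYsum]
          gcongr
      _ = _ := by
          rw [prod_insert hlI, Real.sqrt_mul (by positivity)]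
          have h4 : √(4 / (l : ℝ) ^ 2) = 2 / l := by
            rw [show 4 / (l : ℝ) ^ 2 = (2 / l) ^ 2 by rw [div_pow]; norm_num]
            exact Real.sqrt_sq (by positivity)
          rw [h4]; ring

end Pool.Agent.Lib.MP_5deb1d_nt
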