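import Mathlib
import Pool.Agent.Lib.MP_5deb1d_nt.K2

/-!
JOB K3. Average of `tensor_dF` over squarefree moduli `V < d ≤ 2V`. `∏_{p ∣ d} 2/p = 2^ω(d)/d ≤ T/V`; Cauchy-Schwarz over `d`; `farey_sieve` (`Lib/MP_2a816b_nt/Farey.lean`, denominators `≤ 2V`:
factor `9 (N + (2V)²)`; `FS d.primeFactors g = ∑_{b ∈ Cop d} g(b/d)` for squarefree `d` as `∏ p ∈ d.primeFactors, p = d`, `Nat.prod_primeFactors_of_squarefree`).
-/

set_option autoImplicit false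

open Finset

namespace Pool.Agent.Lib.MP_5deb1d_nt

private theorem K3_sum (DD : Finset ℕ) (V : ℕ) (hD : ∀ d ∈ DD, Squarefree d ∧ V < d ∧ d ≤ 2 * V) (M : ℕ) (x : ℕ → ℂ) :
    ∑ d ∈ DD, Pool.Agent.Lib.MP_2a816b_nt.FS d.primeFactors
        (fun β => ‖Pool.Agent.Lib.MP_2a816b_nt.hat M x β‖ ^ 2) ≤
      9 * ((M + (2 * (V : ℝ)) ^ 2) * ∑ m ∈ range M, ‖x m‖ ^ 2) := by
  have h1 : ∀ d ∈ DD, Pool.Agent.Lib.MP_2a816b_nt.FS d.primeFactors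
        (fun β => ‖Pool.Agent.Lib.MP_2a816b_nt.hat M x β‖ ^ 2) =
      ∑ b ∈ Pool.Agent.Lib.MP_2a816b_nt.Cop d,
        ‖∑ n ∈ range M, x n * Pool.Agent.Lib.MP_2a816b_nt.e (n * ((b : ℝ) / d))‖ ^ 2 := by
    intro d hd
    unfold Pool.Agent.Lib.MP_2a816b_nt.FS Pool.Agent.Lib.MP_2a816b_nt.hat
    rw [Nat.prod_primeFactors_of_squarefree (hD d hd).1]
  rw [sum_congr rfl h1]
  have h2 := Pool.Agent.Lib.MP_2a816b_nt.farey_sieve DD (2 * V)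
    (fun d hd => ⟨lt_of_le_of_lt (Nat.zero_le _) (hD d hd).2.1, (hD d hd).2.2⟩) M x
  push_cast at h2
  rw [← mul_assoc]
  exact h2

theorem avg_dF (b : Bool) (DD : Finset ℕ) (V : ℕ) (hV : 1 ≤ V) (hD : ∀ d ∈ DD, Squarefree d ∧ V < d ∧ d ≤ 2 * V)
    (T : ℝ) (hT : ∀ d ∈ DD, (2 : ℝ) ^ d.primeFactors.card ≤ T) (M N : ℕ) (x y : ℕ → ℂ) :
    ∑ d ∈ DD, ‖∑ m ∈ range M, ∑ n ∈ range N, x m * y n * dF b d.primeFactors (m * n)‖ ≤
      9 * |T| / V * (√((M + (2 * (V : ℝ)) ^ 2) * ∑ m ∈ range M, ‖x m‖ ^ 2) *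
        √((N + (2 * (V : ℝ)) ^ 2) * ∑ n ∈ range N, ‖y n‖ ^ 2)) := by
  have hV' : (0 : ℝ) < V := by exact_mod_cast hV
  have hA0 : ∀ (M : ℕ) (x : ℕ → ℂ) (d : ℕ), 0 ≤ Pool.Agent.Lib.MP_2a816b_nt.FS d.primeFactors
      (fun β => ‖Pool.Agent.Lib.MP_2a816b_nt.hat M x β‖ ^ 2) := fun M x d =>
    Pool.Agent.Lib.MP_2a816b_nt.FS_nonneg _ _ fun β => sq_nonneg _
  have h1 : ∀ d ∈ DD, ‖∑ m ∈ range M, ∑ n ∈ range N, x m * y n * dF b d.primeFactors (m * n)‖ ≤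
      |T| / V * (√(Pool.Agent.Lib.MP_2a816b_nt.FS d.primeFactors
          (fun β => ‖Pool.Agent.Lib.MP_2a816b_nt.hat M x β‖ ^ 2)) *
        √(Pool.Agent.Lib.MP_2a816b_nt.FS d.primeFactors
          (fun β => ‖Pool.Agent.Lib.MP_2a816b_nt.hat N y β‖ ^ 2))) := by
    intro d hd
    refine le_trans (tensor_dF b d.primeFactors (fun p hp => Nat.prime_of_mem_primeFactors hp) M N x y) ?_
    apply mul_le_mul_of_nonneg_right _ (by positivity)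
    have hd0 : (V : ℝ) ≤ d := by exact_mod_cast (hD d hd).2.1.le
    have h2 : ∏ p ∈ d.primeFactors, (2 / (p : ℝ)) = 2 ^ d.primeFactors.card / d := by
      rw [prod_div_distrib, prod_const, ← Nat.cast_prod, Nat.prod_primeFactors_of_squarefree (hD d hd).1]
    rw [h2]
    exact div_le_div₀ (abs_nonneg T) (le_trans (hT d hd) (le_abs_self T)) hV' hd0
  refine le_trans (sum_le_sum h1) ?_
  rw [← mul_sum]
  have h3 := Real.sum_sqrt_mul_sqrt_le DD (fun d => hA0 M x d) (fun d => hA0 N y d)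
  have h4 : √(∑ d ∈ DD, Pool.Agent.Lib.MP_2a816b_nt.FS d.primeFactors
        (fun β => ‖Pool.Agent.Lib.MP_2a816b_nt.hat M x β‖ ^ 2)) ≤
      3 * √((M + (2 * (V : ℝ)) ^ 2) * ∑ m ∈ range M, ‖x m‖ ^ 2) := by
    have h5 : (3 : ℝ) = √9 := by
      rw [show (9 : ℝ) = 3 ^ 2 by norm_num, Real.sqrt_sq (by norm_num)]
    rw [h5, ← Real.sqrt_mul (by norm_num)]
    exact Real.sqrt_le_sqrt (K3_sum DD V hD M x)
  have h6 : √(∑ d ∈ DD, Pool.Agent.Lib.MP_2a816b_nt.FS d.primeFactors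
        (fun β => ‖Pool.Agent.Lib.MP_2a816b_nt.hat N y β‖ ^ 2)) ≤
      3 * √((N + (2 * (V : ℝ)) ^ 2) * ∑ n ∈ range N, ‖y n‖ ^ 2) := by
    have h5 : (3 : ℝ) = √9 := by
      rw [show (9 : ℝ) = 3 ^ 2 by norm_num, Real.sqrt_sq (by norm_num)]
    rw [h5, ← Real.sqrt_mul (by norm_num)]
    exact Real.sqrt_le_sqrt (K3_sum DD V hD N y)
  have h7 := le_trans h3 (mul_le_mul h4 h6 (Real.sqrt_nonneg _) (by positivity))
  refine le_trans (mul_le_mul_of_nonneg_left h7 (by positivity)) (le_of_eq ?_)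
  ring

end Pool.Agent.Lib.MP_5deb1d_nt
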