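import Mathlib
import Pool.Agent.Lib.MP_5deb1d_nt.K3
import Pool.Agent.Lib.MP_2a816b_nt.Divisor

/-!
JOB K4. The bilinear sums over `V1 < d ≤ D`. PROOF: fix `δ`; `T = C0 (2 Q)^(δ/2)`-type bound for `2^ω(d) ≤ τ(d) ≤ C0 d^(δ/2)` (`divisor_bound` in `Lib/MP_2a816b_nt/Divisor.lean`; `d ≤ D ≤ Q`). Cut `(V1, D]` into at most
`log₂ D + 1` ranges `(V, 2V]`, `V = V1 2^i ≤ D ≤ Q`. In each `avg_dF` with `M = 2K+1`, `N = 2Q+1`, `x` cut to `Ioc K (2K)`, `y` cut to `PB Q`: `∑ ‖x‖² ≤ 1/K`, `∑ ‖y‖² ≤ Q`, so it is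
`≤ C (T/V) √((K + V²)/K) √((Q + V²) Q) = C (T/V) √(Q/K) √((K + V²)(Q + V²)) ≤ C T √(Q/K) (√(K Q)/V + √K + √Q + V)`
`= C T (Q/V + √Q + Q/√K + V √(Q/K))`. Sum over the ranges; `log₂ Q ≤ C Q^(δ/2)`.
-/

set_option autoImplicit false

open Finset

namespace Pool.Agent.Lib.MP_5deb1d_nt

private lemma K4_conv (b : Bool) (Q K : ℕ) (x y : ℕ → ℂ) (I : Finset ℕ) :
    ∑ m ∈ range (2 * K + 1), ∑ n ∈ range (2 * Q + 1), (if m ∈ Ioc K (2 * K) then x m else 0) *
      (if n ∈ PB Q then y n else 0) * dF b I (m * n) =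
    ∑ k ∈ Ioc K (2 * K), ∑ q ∈ PB Q, x k * y q * dF b I (k * q) := by
  have h1 : range (2 * K + 1) ∩ Ioc K (2 * K) = Ioc K (2 * K) := by
    apply inter_eq_right.mpr
    intro m hm
    rw [mem_Ioc] at hm
    rw [mem_range]
    omega
  have h2 : range (2 * Q + 1) ∩ PB Q = PB Q := by
    apply inter_eq_right.mpr
    intro m hm
    rw [mem_PB] at hm
    rw [mem_range]
    omega
  calc _ = ∑ m ∈ range (2 * K + 1), (if m ∈ Ioc K (2 * K) then
          (∑ q ∈ PB Q, x m * y q * dF b I (m * q)) else 0) := by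
        refine sum_congr rfl fun m _ => ?_
        split_ifs with h
        · calc _ = ∑ n ∈ range (2 * Q + 1), (if n ∈ PB Q then x m * y n * dF b I (m * n) else 0) := by
                refine sum_congr rfl fun n _ => ?_
                split_ifs
                · rfl
                · ring
            _ = _ := by rw [sum_ite_mem, h2]
        · refine sum_eq_zero fun n _ => ?_
          ring
    _ = _ := by rw [sum_ite_mem, h1]

private lemma K4_l2 (N : ℕ) (S : Finset ℕ) (x : ℕ → ℂ) (c : ℝ) (h : ∀ m ∈ S, ‖x m‖ ≤ c) :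
    ∑ m ∈ range N, ‖(if m ∈ S then x m else 0)‖ ^ 2 ≤ S.card * c ^ 2 := by
  calc ∑ m ∈ range N, ‖(if m ∈ S then x m else 0)‖ ^ 2
      = ∑ m ∈ range N, (if m ∈ S then ‖x m‖ ^ 2 else 0) := by
        refine sum_congr rfl fun m _ => ?_
        split_ifs
        · rfl
        · rw [norm_zero]
          norm_num
    _ = ∑ m ∈ range N ∩ S, ‖x m‖ ^ 2 := by rw [sum_ite_mem]
    _ ≤ ∑ m ∈ S, ‖x m‖ ^ 2 := sum_le_sum_of_subset_of_nonneg inter_subset_right fun m _ _ => by positivity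
    _ ≤ ∑ m ∈ S, c ^ 2 := sum_le_sum fun m hm => pow_le_pow_left₀ (norm_nonneg _) (h m hm) 2
    _ = S.card * c ^ 2 := by rw [sum_const, nsmul_eq_mul]

private lemma K4_real (V K Q X Y M N : ℝ) (hV : 1 ≤ V) (hK : 1 ≤ K) (hQ : 1 ≤ Q) (hX : X ≤ 1 / K) (hX0 : 0 ≤ X)
    (hY : Y ≤ Q) (hY0 : 0 ≤ Y) (hM : M ≤ 3 * K) (hN : N ≤ 3 * Q) :
    1 / V * (√((M + (2 * V) ^ 2) * X) * √((N + (2 * V) ^ 2) * Y)) ≤
      4 * (Q / V + √Q + Q / √K + V * √(Q / K)) := by
  have hs : 0 < √Q := Real.sqrt_pos.mpr (by linarith)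
  have hk : 0 < √K := Real.sqrt_pos.mpr (by linarith)
  have hs2 : √Q ^ 2 = Q := Real.sq_sqrt (by linarith)
  have hk2 : √K ^ 2 = K := Real.sq_sqrt (by linarith)
  have hK0 : 0 < K := by linarith
  have hV0 : 0 < V := by linarith
  set s := √Q with hsd
  set a := 1 / √K with had
  have ha : 0 < a := by positivity
  have ha2 : a ^ 2 = 1 / K := by
    rw [had, div_pow, hk2, one_pow]
  have haK : K * a ^ 2 = 1 := by
    rw [ha2]
    field_simp
  have h1 : √((M + (2 * V) ^ 2) * X) ≤ 2 * (1 + V * a) := by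
    apply Real.sqrt_le_iff.mpr
    refine ⟨by positivity, ?_⟩
    calc (M + (2 * V) ^ 2) * X ≤ (3 * K + (2 * V) ^ 2) * X := by
          apply mul_le_mul_of_nonneg_right _ hX0
          linarith
      _ ≤ (3 * K + (2 * V) ^ 2) * a ^ 2 := by
          apply mul_le_mul_of_nonneg_left _ (by positivity)
          rw [ha2]
          exact hX
      _ = 3 * (K * a ^ 2) + 4 * V ^ 2 * a ^ 2 := by ring
      _ = 3 + 4 * V ^ 2 * a ^ 2 := by rw [haK]; ring
      _ ≤ (2 * (1 + V * a)) ^ 2 := by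
          have : 0 < V * a := by positivity
          nlinarith
  have h2 : √((N + (2 * V) ^ 2) * Y) ≤ 2 * (Q + V * s) := by
    apply Real.sqrt_le_iff.mpr
    refine ⟨by positivity, ?_⟩
    calc (N + (2 * V) ^ 2) * Y ≤ (3 * Q + (2 * V) ^ 2) * Y := by
          apply mul_le_mul_of_nonneg_right _ hY0
          linarith
      _ ≤ (3 * Q + (2 * V) ^ 2) * Q := by
          apply mul_le_mul_of_nonneg_left hY (by positivity)
      _ = 3 * Q ^ 2 + 4 * V ^ 2 * Q := by ring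
      _ = 3 * Q ^ 2 + 4 * V ^ 2 * s ^ 2 := by rw [hs2]
      _ ≤ (2 * (Q + V * s)) ^ 2 := by
          have : 0 < Q * (V * s) := by positivity
          nlinarith [sq_nonneg Q]
  have h3 : √(Q / K) = s * a := by
    rw [Real.sqrt_div (by linarith : (0 : ℝ) ≤ Q), had]
    ring
  have h4 : Q / √K = Q * a := by
    rw [had]
    ring
  rw [h3, h4]
  calc 1 / V * (√((M + (2 * V) ^ 2) * X) * √((N + (2 * V) ^ 2) * Y))
      ≤ 1 / V * ((2 * (1 + V * a)) * (2 * (Q + V * s))) := by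
        apply mul_le_mul_of_nonneg_left _ (by positivity)
        exact mul_le_mul h1 h2 (Real.sqrt_nonneg _) (by positivity)
    _ = 4 * (Q / V + s + Q * a + V * (s * a)) := by
        have hss : s ^ 2 = Q := hs2
        field_simp
        ring

private lemma K4_two_pow (d : ℕ) (hd : Squarefree d) : (2 : ℝ) ^ d.primeFactors.card ≤ (d.divisors.card : ℝ) := by
  have h0 : d ≠ 0 := hd.ne_zero
  have h1 : d.divisors.card = 2 ^ d.primeFactors.card := by
    rw [Nat.card_divisors h0]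
    rw [prod_congr rfl (g := fun _ => 2), prod_const]
    intro p hp
    have h2 : d.factorization p ≤ 1 := Squarefree.natFactorization_le_one p hd
    have h3 : d.factorization p ≠ 0 := by
      have := Nat.support_factorization d
      rw [← this, Finsupp.mem_support_iff] at hp
      exact hp
    have h4 : d.factorization p = 1 := by omega
    rw [h4]
  rw [h1]
  push_cast
  exact le_rfl

private lemma K4_log (δ : ℝ) (hδ : 0 < δ) (Q : ℕ) (hQ : 2 ≤ Q) :
    ((Nat.log 2 Q + 1 : ℕ) : ℝ) ≤ 8 / δ * (Q : ℝ) ^ (δ / 2) := by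
  have hQ' : (2 : ℝ) ≤ Q := by exact_mod_cast hQ
  have h1 : ((2 ^ Nat.log 2 Q : ℕ) : ℝ) ≤ Q := by
    exact_mod_cast Nat.pow_log_le_self 2 (by omega)
  push_cast at h1
  have h2 : (Nat.log 2 Q : ℝ) * Real.log 2 ≤ Real.log Q := by
    have := Real.log_le_log (by positivity) h1
    rw [Real.log_pow] at this
    exact this
  have h3 : Real.log 2 ≤ Real.log Q := Real.log_le_log (by norm_num) hQ'
  have h4 : (1 : ℝ) / 2 < Real.log 2 := by
    have := Real.log_two_gt_d9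
    linarith
  have h5 : Real.log Q ≤ (Q : ℝ) ^ (δ / 2) / (δ / 2) := Real.log_le_rpow_div (by positivity) (by positivity)
  have h6 : ((Nat.log 2 Q + 1 : ℕ) : ℝ) * (1 / 2) ≤ 2 * Real.log Q := by
    push_cast
    have h7 : (Nat.log 2 Q : ℝ) * (1 / 2) ≤ (Nat.log 2 Q : ℝ) * Real.log 2 :=
      mul_le_mul_of_nonneg_left h4.le (by positivity)
    linarith
  calc ((Nat.log 2 Q + 1 : ℕ) : ℝ) ≤ 4 * Real.log Q := by linarith
    _ ≤ 4 * ((Q : ℝ) ^ (δ / 2) / (δ / 2)) := by linarith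
    _ = 8 / δ * (Q : ℝ) ^ (δ / 2) := by
        field_simp
        ring

theorem dy_sum (δ : ℝ) (hδ : 0 < δ) : ∃ C : ℝ, 0 < C ∧ ∀ (b : Bool) (Q K D V1 : ℕ) (x y : ℕ → ℂ),
    2 ≤ Q → 1 ≤ K → K ≤ 2 * Q → D ≤ Q → 1 ≤ V1 →
    (∀ k ∈ Ioc K (2 * K), ‖x k‖ ≤ 1 / (K : ℝ)) → (∀ q ∈ PB Q, ‖y q‖ ≤ 1) →
    ∑ d ∈ (Ioc V1 D).filter Squarefree, ‖∑ k ∈ Ioc K (2 * K), ∑ q ∈ PB Q, x k * y q * dF b d.primeFactors (k * q)‖ ≤
      C * (Q : ℝ) ^ δ * (Q / V1 + √(Q : ℝ) + Q / √(K : ℝ) + D * √((Q : ℝ) / K)) := by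
  classical
  obtain ⟨C0, hC0, hdiv⟩ := Pool.Agent.Lib.MP_2a816b_nt.divisor_bound (δ / 2) (by positivity)
  refine ⟨8 / δ * (36 * C0), by positivity, ?_⟩
  intro b Q K D V1 x y hQ hK hKQ hDQ hV1 hx hy
  have hQ' : (2 : ℝ) ≤ Q := by exact_mod_cast hQ
  have hK' : (1 : ℝ) ≤ K := by exact_mod_cast hK
  have hV1' : (1 : ℝ) ≤ V1 := by exact_mod_cast hV1
  have hK0 : (0 : ℝ) < K := by linarith
  set T : ℝ := C0 * (Q : ℝ) ^ (δ / 2) with hTd
  have hT0 : 0 ≤ T := by positivity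
  set B : ℝ := (Q : ℝ) / V1 + √(Q : ℝ) + Q / √(K : ℝ) + D * √((Q : ℝ) / K) with hBd
  have hB0 : 0 ≤ B := by positivity
  set S := (Ioc V1 D).filter Squarefree with hSd
  set f : ℕ → ℝ := fun d => ‖∑ k ∈ Ioc K (2 * K), ∑ q ∈ PB Q, x k * y q * dF b d.primeFactors (k * q)‖ with hfd
  set L : ℕ := Nat.log 2 Q + 1 with hLd
  have hmaps : ∀ d ∈ S, Nat.log 2 ((d - 1) / V1) ∈ range L := by
    intro d hd
    rw [hSd, mem_filter, mem_Ioc] at hd
    rw [mem_range]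
    have h1 : (d - 1) / V1 ≤ Q := by
      have := Nat.div_le_self (d - 1) V1
      omega
    have h2 : Nat.log 2 ((d - 1) / V1) ≤ Nat.log 2 Q := Nat.log_mono_right h1
    omega
  have hT : ∀ d ∈ S, (2 : ℝ) ^ d.primeFactors.card ≤ T := by
    intro d hd
    rw [hSd, mem_filter, mem_Ioc] at hd
    have hd0 : 0 < d := by omega
    refine (K4_two_pow d hd.2).trans ((hdiv d hd0).trans ?_)
    rw [hTd]
    apply mul_le_mul_of_nonneg_left _ (by linarith)
    apply Real.rpow_le_rpow (by positivity) _ (by positivity)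
    have : d ≤ Q := by omega
    exact_mod_cast this
  have hX : ∑ m ∈ range (2 * K + 1), ‖(if m ∈ Ioc K (2 * K) then x m else 0)‖ ^ 2 ≤ 1 / (K : ℝ) := by
    refine (K4_l2 _ (Ioc K (2 * K)) x (1 / (K : ℝ)) hx).trans ?_
    rw [Nat.card_Ioc]
    have h1 : 2 * K - K = K := by omega
    rw [h1]
    apply le_of_eq
    field_simp
  have hY : ∑ n ∈ range (2 * Q + 1), ‖(if n ∈ PB Q then y n else 0)‖ ^ 2 ≤ (Q : ℝ) := by
    refine (K4_l2 _ (PB Q) y 1 hy).trans ?_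
    have h1 : (PB Q).card ≤ Q := by
      unfold PB
      refine (card_filter_le _ _).trans ?_
      rw [Nat.card_Ioc]
      omega
    have h2 : ((PB Q).card : ℝ) ≤ Q := by exact_mod_cast h1
    linarith
  have hfib : ∀ i ∈ range L, ∑ d ∈ S.filter (fun d => Nat.log 2 ((d - 1) / V1) = i), f d ≤ 36 * T * B := by
    intro i _
    set DD' := S.filter (fun d => Nat.log 2 ((d - 1) / V1) = i) with hDDd
    rcases DD'.eq_empty_or_nonempty with hem | ⟨d0, hd0⟩
    · rw [hem, sum_empty]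
      positivity
    set V : ℕ := V1 * 2 ^ i with hVd
    have hVr : ∀ d ∈ DD', Squarefree d ∧ V < d ∧ d ≤ 2 * V := by
      intro d hd
      rw [hDDd, mem_filter, hSd, mem_filter, mem_Ioc] at hd
      obtain ⟨⟨⟨hd1, hd2⟩, hd3⟩, hd4⟩ := hd
      have hn0 : (d - 1) / V1 ≠ 0 := by
        have : 0 < (d - 1) / V1 := Nat.div_pos (by omega) (by omega)
        omega
      have h1 : 2 ^ i ≤ (d - 1) / V1 := by
        rw [← hd4]
        exact Nat.pow_log_le_self 2 hn0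
      have h2 : (d - 1) / V1 < 2 ^ (i + 1) := by
        rw [← hd4]
        exact Nat.lt_pow_succ_log_self (by norm_num) _
      have h3 : 2 ^ i * V1 ≤ d - 1 := (Nat.le_div_iff_mul_le (by omega)).mp h1
      have h4 : d - 1 < 2 ^ (i + 1) * V1 := (Nat.div_lt_iff_lt_mul (by omega)).mp h2
      refine ⟨hd3, ?_, ?_⟩
      · rw [hVd, mul_comm]
        omega
      · have h5 : 2 ^ (i + 1) * V1 = 2 * V := by
          rw [hVd, pow_succ]
          ring
        omega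
    have hV1V : V1 ≤ V := by
      rw [hVd]
      exact Nat.le_mul_of_pos_right _ (by positivity)
    have hVD : V ≤ D := by
      have h1 := (hVr d0 hd0).2.1
      rw [hDDd, mem_filter, hSd, mem_filter, mem_Ioc] at hd0
      omega
    have hV1r : 1 ≤ V := by omega
    have hVreal : (1 : ℝ) ≤ V := by exact_mod_cast hV1r
    have key := avg_dF b DD' V hV1r hVr T (fun d hd => hT d (filter_subset _ _ hd)) (2 * K + 1) (2 * Q + 1)
      (fun m => if m ∈ Ioc K (2 * K) then x m else 0) (fun n => if n ∈ PB Q then y n else 0)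
    simp only [K4_conv] at key
    refine key.trans ?_
    have hr := K4_real (V : ℝ) (K : ℝ) (Q : ℝ) (∑ m ∈ range (2 * K + 1), ‖(if m ∈ Ioc K (2 * K) then x m else 0)‖ ^ 2)
      (∑ n ∈ range (2 * Q + 1), ‖(if n ∈ PB Q then y n else 0)‖ ^ 2) ((2 * K + 1 : ℕ) : ℝ) ((2 * Q + 1 : ℕ) : ℝ)
      hVreal hK' (by linarith) hX (sum_nonneg fun _ _ => by positivity) hY (sum_nonneg fun _ _ => by positivity)
      (by push_cast; linarith) (by push_cast; linarith)
    have hrB : 4 * ((Q : ℝ) / V + √(Q : ℝ) + Q / √(K : ℝ) + V * √((Q : ℝ) / K)) ≤ 4 * B := by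
      have h1 : (Q : ℝ) / V ≤ Q / V1 := by
        apply div_le_div_of_nonneg_left (by positivity) (by linarith)
        exact_mod_cast hV1V
      have h2 : (V : ℝ) * √((Q : ℝ) / K) ≤ D * √((Q : ℝ) / K) := by
        apply mul_le_mul_of_nonneg_right _ (Real.sqrt_nonneg _)
        exact_mod_cast hVD
      rw [hBd]
      linarith
    rw [abs_of_nonneg hT0]
    calc 9 * T / (V : ℝ) * (√((((2 * K + 1 : ℕ) : ℝ) + (2 * (V : ℝ)) ^ 2) *
            ∑ m ∈ range (2 * K + 1), ‖(if m ∈ Ioc K (2 * K) then x m else 0)‖ ^ 2) *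
          √((((2 * Q + 1 : ℕ) : ℝ) + (2 * (V : ℝ)) ^ 2) *
            ∑ n ∈ range (2 * Q + 1), ‖(if n ∈ PB Q then y n else 0)‖ ^ 2))
        = 9 * T * (1 / (V : ℝ) * (√((((2 * K + 1 : ℕ) : ℝ) + (2 * (V : ℝ)) ^ 2) *
            ∑ m ∈ range (2 * K + 1), ‖(if m ∈ Ioc K (2 * K) then x m else 0)‖ ^ 2) *
          √((((2 * Q + 1 : ℕ) : ℝ) + (2 * (V : ℝ)) ^ 2) *
            ∑ n ∈ range (2 * Q + 1), ‖(if n ∈ PB Q then y n else 0)‖ ^ 2))) := by ring
      _ ≤ 9 * T * (4 * B) := mul_le_mul_of_nonneg_left (hr.trans hrB) (by positivity)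
      _ = 36 * T * B := by ring
  calc ∑ d ∈ S, f d = ∑ i ∈ range L, ∑ d ∈ S.filter (fun d => Nat.log 2 ((d - 1) / V1) = i), f d :=
        (sum_fiberwise_of_maps_to hmaps f).symm
    _ ≤ ∑ i ∈ range L, 36 * T * B := sum_le_sum hfib
    _ = (L : ℝ) * (36 * T * B) := by rw [sum_const, card_range, nsmul_eq_mul]
    _ ≤ (8 / δ * (Q : ℝ) ^ (δ / 2)) * (36 * T * B) :=
        mul_le_mul_of_nonneg_right (K4_log δ hδ Q hQ) (by positivity)
    _ = 8 / δ * (36 * C0) * ((Q : ℝ) ^ (δ / 2) * (Q : ℝ) ^ (δ / 2)) * B := by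
        rw [hTd]
        ring
    _ = 8 / δ * (36 * C0) * (Q : ℝ) ^ δ * B := by
        rw [← Real.rpow_add (by linarith : (0 : ℝ) < Q)]
        rw [add_halves]

end Pool.Agent.Lib.MP_5deb1d_nt
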