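import Mathlib
import Pool.Agent.Lib.MP_5deb1d_nt.K0

/-!
JOB K5. Small moduli, pointwise in `q`. PROOF: `[(k,m) = 1] = ∑_{e ∣ m} μ(e) [e ∣ k]`, `k = e j`, `1/k = 1/(e j)`. For `e ∣ m` (coprime to `d`) the function `j ↦ dF b d.primeFactors (e j q)` has period `d`, absolute value `≤ 2^ω(d)`, and sum `0` over a
period (`d > 1`: for a prime `p ∣ d` the sum over the residues modulo `p` vanishes, as `p ∤ e q`; model `kd_periodic`, `kd_complete`, `kd_range`, `periodic_sum_bound` in `Lib/MP_2a816b_nt/Core2.lean`, `Basic0.lean`). So the initial sums are `≤ d 2^ω(d)` and by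
Abel summation with the decreasing weight `1/(e j) ≤ 1/K` the sum over `j` is `≤ 2 d 2^ω(d)/K`. (`|dk b p u| ≤ 2`.)
-/

set_option autoImplicit false

open Finset

namespace Pool.Agent.Lib.MP_5deb1d_nt

private lemma K5_cl_add (b : Bool) (p n t : ℕ) : cl b p (n + p * t) = cl b p n := by
  cases b
  · have h : (p ∣ n + p * t + 1) ↔ p ∣ n + 1 := by
      rw [show n + p * t + 1 = (n + 1) + p * t by ring]
      exact (Nat.dvd_add_iff_left (dvd_mul_right p t)).symm
    simp only [cl, h]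
  · have h : (n + p * t ≡ 1 [MOD p]) ↔ n ≡ 1 [MOD p] := by
      unfold Nat.ModEq
      rw [Nat.add_mul_mod_self_left]
    simp only [cl, h]

private lemma K5_dk_add (b : Bool) (p n t : ℕ) : dk b p (n + p * t) = dk b p n := by
  unfold dk
  rw [K5_cl_add]
  have h : (p ∣ n + p * t) ↔ p ∣ n := (Nat.dvd_add_iff_left (dvd_mul_right p t)).symm
  simp only [h]

private lemma K5_dk_mod (b : Bool) (p n : ℕ) : dk b p (n % p) = dk b p n := by
  have h := K5_dk_add b p (n % p) (n / p)
  rw [Nat.mod_add_div] at h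
  exact h.symm

private lemma K5_dk_abs (b : Bool) (p : ℕ) (hp : p.Prime) (n : ℕ) : |dk b p n| ≤ 1 := by
  have h1 := cl_nonneg b p n
  have h2 := cl_le_one b p n
  have h3 : (2 : ℝ) ≤ p := by exact_mod_cast hp.two_le
  have h4 : (0 : ℝ) ≤ 1 / ((p : ℝ) - 1) := by
    apply div_nonneg zero_le_one
    linarith
  have h5 : 1 / ((p : ℝ) - 1) ≤ 1 := by
    rw [div_le_one (by linarith)]
    linarith
  unfold dk
  rw [abs_le]
  split_ifs
  · constructor <;> linarith
  · constructor <;> linarith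

private lemma K5_cl_sum (b : Bool) (p : ℕ) (hp : p.Prime) : ∑ n ∈ range p, cl b p n = 1 := by
  have hp2 := hp.two_le
  cases b
  · have h : ∀ n ∈ range p, cl false p n = if n = p - 1 then 1 else 0 := by
      intro n hn
      rw [mem_range] at hn
      have h2 : (p ∣ n + 1) ↔ n = p - 1 := by
        constructor
        · intro h3
          have := Nat.le_of_dvd (Nat.succ_pos n) h3
          omega
        · intro h3
          rw [h3, Nat.sub_add_cancel hp.one_le]
      simp only [cl, h2]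
    rw [sum_congr rfl h, sum_ite_eq' (range p) (p - 1) (fun _ => (1 : ℝ)), if_pos (mem_range.2 (by omega))]
  · have h : ∀ n ∈ range p, cl true p n = if n = 1 then 1 else 0 := by
      intro n hn
      rw [mem_range] at hn
      have h2 : (n ≡ 1 [MOD p]) ↔ n = 1 := by
        unfold Nat.ModEq
        rw [Nat.mod_eq_of_lt hn, Nat.mod_eq_of_lt hp.one_lt]
      simp only [cl, h2]
    rw [sum_congr rfl h, sum_ite_eq' (range p) 1 (fun _ => (1 : ℝ)), if_pos (mem_range.2 (by omega))]

private lemma K5_dk_sum (b : Bool) (p : ℕ) (hp : p.Prime) : ∑ n ∈ range p, dk b p n = 0 := by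
  unfold dk
  rw [sum_sub_distrib, K5_cl_sum b p hp]
  have hp2 : (2 : ℝ) ≤ p := by exact_mod_cast hp.two_le
  have h : ∀ n ∈ range p, (if p ∣ n then 0 else 1 / ((p : ℝ) - 1)) =
      1 / ((p : ℝ) - 1) - if n = 0 then 1 / ((p : ℝ) - 1) else 0 := by
    intro n hn
    rw [mem_range] at hn
    by_cases h0 : n = 0
    · rw [h0, if_pos (dvd_zero p), if_pos rfl, sub_self]
    · rw [if_neg h0, if_neg, sub_zero]
      intro h2
      exact absurd (Nat.le_of_dvd (Nat.pos_of_ne_zero h0) h2) (by omega)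
  rw [sum_congr rfl h, sum_sub_distrib, sum_const, card_range, nsmul_eq_mul,
    sum_ite_eq' (range p) 0 (fun _ => 1 / ((p : ℝ) - 1)), if_pos (mem_range.2 hp.pos)]
  have h3 : (p : ℝ) - 1 ≠ 0 := by linarith
  field_simp
  ring

/-- the sum of the kernel over an arithmetic progression of `p` terms with a difference prime to `p` -/
private lemma K5_dk_ap (b : Bool) (p : ℕ) (hp : p.Prime) (R u : ℕ) (hR : ¬ p ∣ R) :
    ∑ v ∈ range p, ((dk b p (R * v + u) : ℝ) : ℂ) = 0 := by
  have hfact : Fact p.Prime := ⟨hp⟩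
  have h1 : ∀ v ∈ range p, ((dk b p (R * v + u) : ℝ) : ℂ) =
      (fun x : ZMod p => ((dk b p x.val : ℝ) : ℂ)) ((R : ZMod p) * (v : ZMod p) + u) := by
    intro v _
    have h2 : (R : ZMod p) * (v : ZMod p) + u = ((R * v + u : ℕ) : ZMod p) := by push_cast; rfl
    simp only [h2]
    rw [ZMod.val_natCast, K5_dk_mod]
  rw [sum_congr rfl h1]
  rw [Pool.Agent.Lib.MP_2a816b_nt.sum_range_zmod p
    (fun y => (fun x : ZMod p => ((dk b p x.val : ℝ) : ℂ)) ((R : ZMod p) * y + u))]
  have hR' : (R : ZMod p) ≠ 0 := by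
    rw [Ne, ZMod.natCast_eq_zero_iff]
    exact hR
  have h2 : ∑ y : ZMod p, (fun x : ZMod p => ((dk b p x.val : ℝ) : ℂ)) ((R : ZMod p) * y + u) =
      ∑ w : ZMod p, (fun x : ZMod p => ((dk b p x.val : ℝ) : ℂ)) w := by
    let eq1 : ZMod p ≃ ZMod p := (Equiv.mulLeft₀ (R : ZMod p) hR').trans (Equiv.addRight (u : ZMod p))
    exact Fintype.sum_equiv eq1 _ _ (fun v => rfl)
  rw [h2, ← Pool.Agent.Lib.MP_2a816b_nt.sum_range_zmod p (fun x : ZMod p => ((dk b p x.val : ℝ) : ℂ))]
  have h3 : ∀ v ∈ range p, (fun x : ZMod p => ((dk b p x.val : ℝ) : ℂ)) (v : ZMod p) =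
      ((dk b p v : ℝ) : ℂ) := by
    intro v _
    simp only
    rw [ZMod.val_natCast, K5_dk_mod]
  rw [sum_congr rfl h3, ← Complex.ofReal_sum, K5_dk_sum b p hp, Complex.ofReal_zero]

private lemma K5_norm (b : Bool) (d n : ℕ) : ‖dF b d.primeFactors n‖ ≤ 1 := by
  unfold dF
  rw [norm_prod]
  apply prod_le_one
  · intro p _
    exact norm_nonneg _
  · intro p hp
    rw [Complex.norm_real]
    exact K5_dk_abs b p (Nat.prime_of_mem_primeFactors hp) n

private lemma K5_periodic (b : Bool) (d M t : ℕ) :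
    dF b d.primeFactors (M * (d + t)) = dF b d.primeFactors (M * t) := by
  unfold dF
  apply prod_congr rfl
  intro p hp
  rw [Nat.mem_primeFactors] at hp
  obtain ⟨c, hc⟩ := hp.2.1
  have h : M * (d + t) = M * t + p * (M * c) := by
    nth_rewrite 1 [hc]
    ring
  rw [h, K5_dk_add]

private lemma K5_complete (b : Bool) (d M : ℕ) (hd : 1 < d) (hsq : Squarefree d) (hM : M.Coprime d) :
    ∑ t ∈ range d, dF b d.primeFactors (M * t) = 0 := by
  obtain ⟨p, hp, hpd⟩ := Nat.exists_prime_and_dvd (show d ≠ 1 by omega)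
  have hmem : p ∈ d.primeFactors := by
    rw [Nat.mem_primeFactors]
    exact ⟨hp, hpd, by omega⟩
  have hpM : ¬ p ∣ M := by
    intro h
    have h2 : p ∣ Nat.gcd M d := Nat.dvd_gcd h hpd
    rw [hM] at h2
    exact hp.one_lt.ne' (Nat.dvd_one.1 h2)
  obtain ⟨R, hR⟩ := hpd
  have hpR : ¬ p ∣ R := by
    intro h
    obtain ⟨c, hc⟩ := h
    have h1 : p * p ∣ d := ⟨c, by rw [hR, hc]; ring⟩
    have h2 := hsq p h1
    exact hp.one_lt.ne' (Nat.isUnit_iff.1 h2)
  have hd2 : range d = range (R * p) := by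
    rw [hR, mul_comm]
  rw [hd2, Pool.Agent.Lib.MP_2a816b_nt.sum_range_mul_eq R p (fun t => dF b d.primeFactors (M * t)), sum_comm]
  apply sum_eq_zero
  intro u _
  have h1 : ∀ v ∈ range p, dF b d.primeFactors (M * (R * v + u)) =
      ((dk b p ((M * R) * v + M * u) : ℝ) : ℂ) * dF b (d.primeFactors.erase p) (M * u) := by
    intro v _
    unfold dF
    rw [← mul_prod_erase _ _ hmem]
    congr 1
    · rw [show M * (R * v + u) = (M * R) * v + M * u by ring]
    · apply prod_congr rfl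
      intro r hr
      rw [mem_erase, Nat.mem_primeFactors] at hr
      have hrR : r ∣ R := by
        have h3 : r ∣ p * R := by rw [← hR]; exact hr.2.2.1
        rcases (Nat.Prime.dvd_mul hr.2.1).1 h3 with h4 | h4
        · exact absurd ((Nat.prime_dvd_prime_iff_eq hr.2.1 hp).1 h4) hr.1
        · exact h4
      obtain ⟨c, hc⟩ := hrR
      have h5 : M * (R * v + u) = M * u + r * (M * c * v) := by
        rw [hc]
        ring
      rw [h5, K5_dk_add]
  rw [sum_congr rfl h1, ← sum_mul, K5_dk_ap b p hp (M * R) (M * u), zero_mul]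
  rw [hp.dvd_mul]
  push Not
  exact ⟨hpM, hpR⟩

private lemma K5_psum (b : Bool) (d M : ℕ) (hd : 1 < d) (hsq : Squarefree d) (hM : M.Coprime d) (t : ℕ) :
    ‖∑ s ∈ range t, dF b d.primeFactors (M * s)‖ ≤ d := by
  have h := Pool.Agent.Lib.MP_2a816b_nt.periodic_sum_bound (fun s => dF b d.primeFactors (M * s)) d 1
    (by omega) (fun s => K5_periodic b d M s) (K5_complete b d M hd hsq hM) (fun s => K5_norm b d _) t
  rw [one_mul] at h
  exact h

private lemma K5_abel (w : ℕ → ℝ) (g : ℕ → ℂ) (C : ℝ) (a n : ℕ)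
    (hw : ∀ i, a ≤ i → w (i + 1) ≤ w i) (hw0 : ∀ i, a ≤ i → 0 ≤ w i)
    (hG : ∀ t, ‖∑ i ∈ Ico a t, g i‖ ≤ C) : ‖∑ i ∈ Ico a (a + n), (w i : ℂ) * g i‖ ≤ C * w a := by
  have key : ∀ n, ‖∑ i ∈ Ico a (a + n), (w i : ℂ) * g i - (w (a + n) : ℂ) * ∑ i ∈ Ico a (a + n), g i‖ ≤
      C * (w a - w (a + n)) := by
    intro n
    induction n with
    | zero => simp
    | succ n ih =>
      have h1 : a + (n + 1) = a + n + 1 := by ring
      rw [h1, sum_Ico_succ_top (by omega), sum_Ico_succ_top (by omega)]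
      have h2 : ∑ i ∈ Ico a (a + n), (w i : ℂ) * g i + (w (a + n) : ℂ) * g (a + n) -
          (w (a + n + 1) : ℂ) * (∑ i ∈ Ico a (a + n), g i + g (a + n)) =
          (∑ i ∈ Ico a (a + n), (w i : ℂ) * g i - (w (a + n) : ℂ) * ∑ i ∈ Ico a (a + n), g i) +
          ((w (a + n) - w (a + n + 1) : ℝ) : ℂ) * (∑ i ∈ Ico a (a + n), g i + g (a + n)) := by
        push_cast
        ring
      rw [h2]
      refine (norm_add_le _ _).trans ?_
      have h3 : 0 ≤ w (a + n) - w (a + n + 1) := sub_nonneg.2 (hw (a + n) (by omega))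
      have h4 : ‖∑ i ∈ Ico a (a + n), g i + g (a + n)‖ ≤ C := by
        have h5 := hG (a + n + 1)
        rw [sum_Ico_succ_top (by omega)] at h5
        exact h5
      rw [norm_mul, Complex.norm_real, Real.norm_of_nonneg h3]
      have h6 := mul_le_mul_of_nonneg_left h4 h3
      linarith
  have h7 := key n
  have h8 := hG (a + n)
  have h9 := hw0 (a + n) (by omega)
  have h10 : ∑ i ∈ Ico a (a + n), (w i : ℂ) * g i =
      (∑ i ∈ Ico a (a + n), (w i : ℂ) * g i - (w (a + n) : ℂ) * ∑ i ∈ Ico a (a + n), g i) +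
      (w (a + n) : ℂ) * ∑ i ∈ Ico a (a + n), g i := by ring
  rw [h10]
  refine (norm_add_le _ _).trans ?_
  rw [norm_mul, Complex.norm_real, Real.norm_of_nonneg h9]
  have h11 := mul_le_mul_of_nonneg_left h8 h9
  linarith

private lemma K5_moebius (d n : ℕ) (hd : d ≠ 0) :
    ∑ e ∈ d.divisors with e ∣ n, ArithmeticFunction.moebius e = if n.Coprime d then (1 : ℤ) else 0 := by
  have h1 : d.divisors.filter (fun e => e ∣ n) = (n.gcd d).divisors := by
    ext e
    rw [mem_filter, Nat.mem_divisors, Nat.mem_divisors]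
    constructor
    · rintro ⟨⟨h1, _⟩, h2⟩
      exact ⟨Nat.dvd_gcd h2 h1, (Nat.gcd_pos_of_pos_right _ (Nat.pos_of_ne_zero hd)).ne'⟩
    · rintro ⟨h1, _⟩
      exact ⟨⟨h1.trans (Nat.gcd_dvd_right _ _), hd⟩, h1.trans (Nat.gcd_dvd_left _ _)⟩
  rw [h1, ← ArithmeticFunction.coe_mul_zeta_apply, ArithmeticFunction.moebius_mul_coe_zeta,
    ArithmeticFunction.one_apply]

private lemma K5_multiples (e K L : ℕ) (he : 0 < e) (g : ℕ → ℂ) :
    ∑ k ∈ (Ioc K L).filter (fun k => e ∣ k), g k = ∑ j ∈ Ioc (K / e) (L / e), g (e * j) := by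
  apply sum_nbij' (fun k => k / e) (fun j => e * j)
  · intro k hk
    rw [mem_filter, mem_Ioc] at hk
    obtain ⟨⟨h1, h2⟩, c, hc⟩ := hk
    rw [mem_Ioc, hc, Nat.mul_div_cancel_left c he]
    constructor
    · rw [Nat.div_lt_iff_lt_mul he, mul_comm, ← hc]
      exact h1
    · rw [Nat.le_div_iff_mul_le he, mul_comm, ← hc]
      exact h2
  · intro j hj
    rw [mem_Ioc] at hj
    rw [mem_filter, mem_Ioc]
    refine ⟨⟨?_, ?_⟩, dvd_mul_right e j⟩
    · have := hj.1
      rw [Nat.div_lt_iff_lt_mul he, mul_comm] at this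
      exact this
    · have := hj.2
      rw [Nat.le_div_iff_mul_le he, mul_comm] at this
      exact this
  · intro k hk
    rw [mem_filter] at hk
    exact Nat.mul_div_cancel' hk.2
  · intro j _
    exact Nat.mul_div_cancel_left j he
  · intro k hk
    rw [mem_filter] at hk
    rw [Nat.mul_div_cancel' hk.2]

private lemma K5_one (b : Bool) (d q K e : ℕ) (hd : 1 < d) (hsq : Squarefree d) (he : 0 < e) (hed : e.Coprime d)
    (hq : q.Coprime d) (hK : 1 ≤ K) :
    ‖∑ k ∈ (Ioc K (2 * K)).filter (fun k => e ∣ k), (1 / (k : ℂ)) * dF b d.primeFactors (k * q)‖ ≤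
      2 * d / K := by
  rw [K5_multiples e K (2 * K) he (fun k => (1 / (k : ℂ)) * dF b d.primeFactors (k * q))]
  have hI : Ioc (K / e) (2 * K / e) = Ico (K / e + 1) (K / e + 1 + (2 * K / e - K / e)) := by
    have h1 : K / e ≤ 2 * K / e := Nat.div_le_div_right (by omega)
    ext j
    rw [mem_Ioc, mem_Ico]
    omega
  have h1 : ∀ j ∈ Ioc (K / e) (2 * K / e), (1 / (((e * j : ℕ)) : ℂ)) * dF b d.primeFactors (e * j * q) =
      ((1 / ((e : ℝ) * (j : ℝ)) : ℝ) : ℂ) * dF b d.primeFactors ((e * q) * j) := by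
    intro j _
    rw [show e * j * q = (e * q) * j by ring]
    push_cast
    rfl
  rw [sum_congr rfl h1, hI]
  have hMd : (e * q).Coprime d := Nat.Coprime.mul_left hed hq
  have he' : (0 : ℝ) < e := by exact_mod_cast he
  have h2 := K5_abel (fun j => 1 / ((e : ℝ) * (j : ℝ))) (fun j => dF b d.primeFactors ((e * q) * j)) (2 * d)
    (K / e + 1) (2 * K / e - K / e) (by
      intro i hi
      have hi' : (0 : ℝ) < i := by exact_mod_cast lt_of_lt_of_le (Nat.succ_pos (K / e)) hi
      apply one_div_le_one_div_of_le (by positivity)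
      apply mul_le_mul_of_nonneg_left _ he'.le
      push_cast
      linarith) (by
      intro i _
      positivity) (by
      intro t
      by_cases ht : K / e + 1 ≤ t
      · rw [sum_Ico_eq_sub _ ht]
        refine (norm_sub_le _ _).trans ?_
        have h3 := K5_psum b d (e * q) hd hsq hMd t
        have h4 := K5_psum b d (e * q) hd hsq hMd (K / e + 1)
        linarith
      · rw [Ico_eq_empty_of_le (by omega), sum_empty, norm_zero]
        positivity)
  refine h2.trans ?_
  have hK' : (0 : ℝ) < K := by exact_mod_cast (by omega : 0 < K)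
  have h5 : (K : ℝ) ≤ (e : ℝ) * ((K / e + 1 : ℕ) : ℝ) := by
    have h6 : K ≤ e * (K / e + 1) := (Nat.lt_mul_div_succ K he).le
    exact_mod_cast h6
  have h7 : 1 / ((e : ℝ) * ((K / e + 1 : ℕ) : ℝ)) ≤ 1 / K := one_div_le_one_div_of_le hK' h5
  have h8 : (0 : ℝ) ≤ 2 * d := by positivity
  calc _ ≤ (2 * (d : ℝ)) * (1 / K) := mul_le_mul_of_nonneg_left h7 h8
    _ = 2 * d / K := by ring

theorem small_dF (b : Bool) (d m q K : ℕ) (hd : 1 < d) (hsq : Squarefree d) (hm : 0 < m) (hmd : m.Coprime d)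
    (hq : q.Coprime d) (hK : 1 ≤ K) :
    ‖∑ k ∈ (Ioc K (2 * K)).filter (fun k => k.Coprime m), (1 / (k : ℂ)) * dF b d.primeFactors (k * q)‖ ≤
      4 * m.divisors.card * d * 2 ^ d.primeFactors.card / K := by
  have h1 : ∑ k ∈ (Ioc K (2 * K)).filter (fun k => k.Coprime m), (1 / (k : ℂ)) * dF b d.primeFactors (k * q) =
      ∑ e ∈ m.divisors, ((ArithmeticFunction.moebius e : ℤ) : ℂ) *
        ∑ k ∈ (Ioc K (2 * K)).filter (fun k => e ∣ k), (1 / (k : ℂ)) * dF b d.primeFactors (k * q) := by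
    have h2 : ∀ k ∈ Ioc K (2 * K), (if k.Coprime m then (1 / (k : ℂ)) * dF b d.primeFactors (k * q) else 0) =
        ∑ e ∈ m.divisors, (if e ∣ k then ((ArithmeticFunction.moebius e : ℤ) : ℂ) *
          ((1 / (k : ℂ)) * dF b d.primeFactors (k * q)) else 0) := by
      intro k _
      rw [← sum_filter, ← sum_mul, ← Int.cast_sum, K5_moebius m k (by omega)]
      by_cases h : k.Coprime m
      · rw [if_pos h, if_pos h, Int.cast_one, one_mul]
      · rw [if_neg h, if_neg h, Int.cast_zero, zero_mul]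
    rw [sum_filter, sum_congr rfl h2, sum_comm]
    apply sum_congr rfl
    intro e _
    rw [← sum_filter, mul_sum]
  rw [h1]
  have hK' : (0 : ℝ) < K := by exact_mod_cast (by omega : 0 < K)
  have h3 : ∀ e ∈ m.divisors, ‖((ArithmeticFunction.moebius e : ℤ) : ℂ) *
        ∑ k ∈ (Ioc K (2 * K)).filter (fun k => e ∣ k), (1 / (k : ℂ)) * dF b d.primeFactors (k * q)‖ ≤
      2 * d / K := by
    intro e he
    rw [norm_mul]
    have hem := Nat.dvd_of_mem_divisors he
    have he0 : 0 < e := Nat.pos_of_mem_divisors he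
    have h4 := K5_one b d q K e hd hsq he0 (Nat.Coprime.coprime_dvd_left hem hmd) hq hK
    have h5 : ‖((ArithmeticFunction.moebius e : ℤ) : ℂ)‖ ≤ 1 := by
      rw [Complex.norm_intCast]
      have := ArithmeticFunction.abs_moebius_le_one (n := e)
      exact_mod_cast this
    calc _ ≤ 1 * (2 * (d : ℝ) / K) := mul_le_mul h5 h4 (norm_nonneg _) zero_le_one
      _ = _ := one_mul _
  refine (norm_sum_le _ _).trans ((sum_le_sum h3).trans ?_)
  rw [sum_const, nsmul_eq_mul]
  have h6 : (1 : ℝ) ≤ 2 ^ d.primeFactors.card := one_le_pow₀ (by norm_num)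
  have h7 : (0 : ℝ) ≤ m.divisors.card * d / K := by positivity
  calc (m.divisors.card : ℝ) * (2 * (d : ℝ) / K) = 2 * (m.divisors.card * d / K) * 1 := by ring
    _ ≤ 4 * (m.divisors.card * d / K) * 2 ^ d.primeFactors.card := by
        apply mul_le_mul _ h6 zero_le_one
        · positivity
        · linarith
    _ = _ := by ring

end Pool.Agent.Lib.MP_5deb1d_nt
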