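import Mathlib
import Pool.Agent.Lib.MP_5deb1d_nt.K0

/-!
JOB K6. Decomposition of the class indicator modulo a squarefree `d`. PROOF: `cl b d u = ∏_{p ∣ d} cl b p u` for squarefree `d` (`u ≡ 1 [MOD d]` iff modulo every `p ∣ d`; `d ∣ u + 1` iff every `p ∣ d` does), `cl b p u = dk b p u + (if p ∣ u then 0 else 1/(p-1))`
(definition of `dk`), `Finset.prod_add`, `u = k q`, `p ∤ q`: `p ∣ k q ↔ p ∣ k`; the sets of primes correspond to the divisors of `d`, `∏_{p ∣ m} 1/(p-1) = 1/φ(m)`.
-/

set_option autoImplicit false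

open Finset

namespace Pool.Agent.Lib.MP_5deb1d_nt

/-- the class indicator is the indicator of a divisibility -/
private theorem K6_cl (b : Bool) (u : ℕ) : ∃ x : ℕ, ∀ d : ℕ, cl b d u = if d ∣ x then 1 else 0 := by
  cases b
  · exact ⟨u + 1, fun d => rfl⟩
  · refine ⟨((1 : ℤ) - (u : ℤ)).natAbs, fun d => ?_⟩
    have h : (u ≡ 1 [MOD d]) ↔ d ∣ ((1 : ℤ) - (u : ℤ)).natAbs := by
      rw [Nat.modEq_iff_dvd, ← Int.natCast_dvd, Nat.cast_one]
    simp only [cl]
    by_cases h1 : u ≡ 1 [MOD d]
    · rw [if_pos h1, if_pos (h.1 h1)]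
    · rw [if_neg h1, if_neg (fun h2 => h1 (h.2 h2))]

/-- the arithmetic function `[(k, e) = 1]/φ(e)` -/
private noncomputable def K6_g (k : ℕ) : ArithmeticFunction ℝ where
  toFun e := if k.Coprime e then 1 / (Nat.totient e : ℝ) else 0
  map_zero' := by
    rw [Nat.totient_zero, Nat.cast_zero, div_zero, ite_self]

private theorem K6_g_apply (k e : ℕ) : K6_g k e = if k.Coprime e then 1 / (Nat.totient e : ℝ) else 0 := rfl

private theorem K6_mult (k : ℕ) : ArithmeticFunction.IsMultiplicative (K6_g k) := by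
  rw [ArithmeticFunction.IsMultiplicative.iff_ne_zero]
  refine ⟨?_, ?_⟩
  · rw [K6_g_apply, if_pos (Nat.coprime_one_right k), Nat.totient_one, Nat.cast_one, div_one]
  · intro m n _ _ hmn
    rw [K6_g_apply, K6_g_apply, K6_g_apply, Nat.totient_mul hmn, Nat.cast_mul]
    by_cases h1 : k.Coprime m
    · by_cases h2 : k.Coprime n
      · rw [if_pos (Nat.Coprime.mul_right h1 h2), if_pos h1, if_pos h2, one_div_mul_one_div]
      · rw [if_neg (fun h => h2 (Nat.Coprime.coprime_mul_left_right h)), if_neg h2, mul_zero]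
    · rw [if_neg (fun h => h1 (Nat.Coprime.coprime_mul_right_right h)), if_neg h1, zero_mul]

theorem cl_decomp (b : Bool) (d q k : ℕ) (hd : 0 < d) (hsq : Squarefree d) (hq : q.Coprime d) :
    cl b d (k * q) = ∑ d' ∈ d.divisors, (∏ p ∈ d'.primeFactors, dk b p (k * q)) *
      (if k.Coprime (d / d') then 1 / (Nat.totient (d / d') : ℝ) else 0) := by
  classical
  obtain ⟨x, hx⟩ := K6_cl b (k * q)
  have h1 : cl b d (k * q) = ∏ p ∈ d.primeFactors, cl b p (k * q) := by
    have h2 : ∏ p ∈ d.primeFactors, cl b p (k * q) = ∏ p ∈ d.primeFactors, if p ∣ x then (1 : ℝ) else 0 :=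
      prod_congr rfl fun p _ => hx p
    rw [hx d, h2, Finset.prod_ite_zero, prod_const_one]
    have h3 : d ∣ x ↔ ∀ p ∈ d.primeFactors, p ∣ x := by
      constructor
      · intro h p hp
        exact (Nat.dvd_of_mem_primeFactors hp).trans h
      · intro h
        rw [← Nat.prod_primeFactors_of_squarefree hsq]
        exact Finset.prod_primes_dvd x (fun p hp => (Nat.prime_of_mem_primeFactors hp).prime) h
    by_cases h4 : d ∣ x
    · rw [if_pos h4, if_pos (h3.1 h4)]
    · rw [if_neg h4, if_neg (fun h5 => h4 (h3.2 h5))]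
  obtain ⟨f, hf⟩ : ∃ f : ArithmeticFunction ℝ,
      f = ArithmeticFunction.prodPrimeFactors (fun p => dk b p (k * q)) := ⟨_, rfl⟩
  have hfm : ArithmeticFunction.IsMultiplicative f := by
    rw [hf]
    exact ArithmeticFunction.IsMultiplicative.prodPrimeFactors _
  have hfa : ∀ n : ℕ, n ≠ 0 → f n = ∏ p ∈ n.primeFactors, dk b p (k * q) := by
    intro n hn
    rw [hf]
    exact ArithmeticFunction.prodPrimeFactors_apply hn
  have h2 := ArithmeticFunction.IsMultiplicative.prodPrimeFactors_add_of_squarefree hfm (K6_mult k) hsq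
  rw [ArithmeticFunction.prodPrimeFactors_apply hd.ne', ArithmeticFunction.mul_apply,
    Nat.sum_divisorsAntidiagonal (fun i j => f i * K6_g k j)] at h2
  have h3 : ∏ p ∈ d.primeFactors, cl b p (k * q) = ∏ p ∈ d.primeFactors, (f + K6_g k) p := by
    refine prod_congr rfl fun p hp => ?_
    have hpp := Nat.prime_of_mem_primeFactors hp
    have hpd := Nat.dvd_of_mem_primeFactors hp
    have hpq : ¬ p ∣ q := by
      intro h
      have h4 : p ∣ Nat.gcd q d := Nat.dvd_gcd h hpd
      rw [hq] at h4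
      exact hpp.one_lt.ne' (Nat.dvd_one.1 h4)
    have h5 : (p ∣ k * q) ↔ p ∣ k := by
      constructor
      · intro h
        exact (hpp.dvd_mul.1 h).resolve_right hpq
      · intro h
        exact h.mul_right q
    rw [ArithmeticFunction.add_apply, hfa p hpp.ne_zero, hpp.primeFactors, prod_singleton, K6_g_apply,
      Nat.totient_prime hpp, Nat.cast_sub hpp.one_lt.le, Nat.cast_one]
    unfold dk
    by_cases h6 : p ∣ k
    · rw [if_pos (h5.2 h6), if_neg (fun h => (hpp.coprime_iff_not_dvd.1 h.symm) h6)]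
      ring
    · rw [if_neg (fun h => h6 (h5.1 h)), if_pos (hpp.coprime_iff_not_dvd.2 h6).symm]
      ring
  rw [h1, h3, h2]
  refine sum_congr rfl fun d' hd' => ?_
  rw [hfa d' (Nat.pos_of_mem_divisors hd').ne', K6_g_apply]

end Pool.Agent.Lib.MP_5deb1d_nt
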