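import Mathlib
import Pool.Agent.Lib.MP_5deb1d_nt.K4
import Pool.Agent.Lib.MP_5deb1d_nt.K5
import Pool.Agent.Lib.MP_5deb1d_nt.K6
import Pool.Agent.Lib.MP_2a816b_nt.Divisor

/-!
JOB K7. The error term of the sieve, on average over the primes `q`. PROOF: choose signs `c q = ±1` with `|E q| = c q * E q`. By `cl_decomp` (`q > Q ≥ D` prime is coprime to `d ≤ D`; the term `d' = 1` is the subtracted main term, because `k.Coprime d` and
`1/(k φ(d))`), with `d = d' m`: `∑_q |E q| ≤ ∑_{m ≤ D} (1/φ(m)) ∑_{1 < d' ≤ D} |λ(d' m)| ‖∑_{k, (k,m)=1} ∑_q (1/k) c_q dF b d'.primeFactors (k q)‖` over the pairs with `d' m` squarefree (so coprime). For `d' ≤ V1`: `small_dF` for each `q` (at most `Q` of them):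
`≤ Q * 4 τ(m) d' 2^ω(d')/K`, total `≤ C Q^δ * Q V1²/K`. For `V1 < d' ≤ D`: `dy_sum` (with `x k = 1/k` on `(k,m) = 1`), for each `m`. `|λ| ≤ τ² ≤ C Q^(δ/8)`-type bounds (`divisor_bound`), `1/φ(m) ≤ τ(m)/m` or `∑_{m ≤ D} 1/φ(m) ≤ C Q^(δ/8)`.
-/

set_option autoImplicit false

open Finset

namespace Pool.Agent.Lib.MP_5deb1d_nt

/-- `1/φ(m) ≤ τ(m)/m` -/
private lemma K7_tot (m : ℕ) (hm : 0 < m) : 1 / (Nat.totient m : ℝ) ≤ (m.divisors.card : ℝ) / m := by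
  have hφ : 0 < Nat.totient m := Nat.totient_pos.2 hm
  have h1 : m ≤ m.divisors.card * Nat.totient m := by
    calc m = ∑ d ∈ m.divisors, Nat.totient d := (Nat.sum_totient m).symm
      _ ≤ ∑ _d ∈ m.divisors, Nat.totient m := by
        apply Finset.sum_le_sum
        intro d hd
        exact Nat.le_of_dvd hφ (Nat.totient_dvd_of_dvd (Nat.dvd_of_mem_divisors hd))
      _ = m.divisors.card * Nat.totient m := by
        rw [Finset.sum_const, smul_eq_mul]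
  have h2 : (m : ℝ) ≤ (m.divisors.card : ℝ) * Nat.totient m := by exact_mod_cast h1
  rw [div_le_div_iff₀ (by exact_mod_cast hφ) (by exact_mod_cast hm)]
  linarith

/-- `2^ω(d) ≤ τ(d)` -/
private lemma K7_om (d : ℕ) (hd : 0 < d) : (2 : ℝ) ^ d.primeFactors.card ≤ (d.divisors.card : ℝ) := by
  have h1 : 2 ^ d.primeFactors.card ≤ d.divisors.card := by
    rw [Nat.card_divisors hd.ne']
    apply Finset.pow_card_le_prod
    intro p hp
    have h2 := (Nat.prime_of_mem_primeFactors hp).factorization_pos_of_dvd hd.ne' (Nat.dvd_of_mem_primeFactors hp)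
    omega
  exact_mod_cast h1

/-- the sum of `1/φ(m)` -/
private lemma K7_sum {C0 η : ℝ} (hη : 0 < η) (hC0 : 1 ≤ C0)
    (hC : ∀ n : ℕ, 0 < n → (n.divisors.card : ℝ) ≤ C0 * (n : ℝ) ^ η) {D Q : ℕ} (hD : 1 ≤ D) (hDQ : D ≤ Q) :
    ∑ m ∈ Icc 1 D, 1 / (Nat.totient m : ℝ) ≤ C0 * (1 + 1 / η) * (Q : ℝ) ^ (2 * η) := by
  have hQ1 : (1 : ℝ) ≤ Q := by exact_mod_cast hD.trans hDQ
  have hQ0 : (0 : ℝ) ≤ Q := by linarith
  have hx1 : (1 : ℝ) ≤ (Q : ℝ) ^ η := Real.one_le_rpow hQ1 hη.le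
  have h1 : ∀ m ∈ Icc 1 D, 1 / (Nat.totient m : ℝ) ≤ C0 * (Q : ℝ) ^ η * (1 / (m : ℝ)) := by
    intro m hm
    rw [mem_Icc] at hm
    have hm0 : (0 : ℝ) < m := by exact_mod_cast hm.1
    have h2 : (m : ℝ) ^ η ≤ (Q : ℝ) ^ η :=
      Real.rpow_le_rpow hm0.le (by exact_mod_cast hm.2.trans hDQ) hη.le
    calc 1 / (Nat.totient m : ℝ) ≤ (m.divisors.card : ℝ) / m := K7_tot m hm.1
      _ ≤ (C0 * (Q : ℝ) ^ η) / m := by
        apply div_le_div_of_nonneg_right _ hm0.le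
        exact (hC m hm.1).trans (mul_le_mul_of_nonneg_left h2 (by linarith))
      _ = C0 * (Q : ℝ) ^ η * (1 / (m : ℝ)) := by ring
  have h3 : ∑ m ∈ Icc 1 D, (1 / (m : ℝ)) ≤ 1 + Real.log D := by
    have h4 := harmonic_le_one_add_log D
    have h5 : ((harmonic D : ℚ) : ℝ) = ∑ m ∈ Icc 1 D, (1 / (m : ℝ)) := by
      rw [harmonic_eq_sum_Icc]
      push_cast
      exact Finset.sum_congr rfl fun m _ => (one_div _).symm
    rw [← h5]
    exact h4
  have h6 : Real.log D ≤ (Q : ℝ) ^ η / η := by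
    have h7 : Real.log D ≤ Real.log Q :=
      Real.log_le_log (by exact_mod_cast hD) (by exact_mod_cast hDQ)
    exact h7.trans (Real.log_le_rpow_div hQ0 hη)
  have h8 : 1 + Real.log D ≤ (1 + 1 / η) * (Q : ℝ) ^ η := by
    have : (1 + 1 / η) * (Q : ℝ) ^ η = (Q : ℝ) ^ η + (Q : ℝ) ^ η / η := by ring
    rw [this]
    linarith
  calc ∑ m ∈ Icc 1 D, 1 / (Nat.totient m : ℝ) ≤ ∑ m ∈ Icc 1 D, C0 * (Q : ℝ) ^ η * (1 / (m : ℝ)) :=
        Finset.sum_le_sum h1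
    _ = C0 * (Q : ℝ) ^ η * ∑ m ∈ Icc 1 D, (1 / (m : ℝ)) := by rw [Finset.mul_sum]
    _ ≤ C0 * (Q : ℝ) ^ η * ((1 + 1 / η) * (Q : ℝ) ^ η) := by
        apply mul_le_mul_of_nonneg_left (h3.trans h8)
        positivity
    _ = C0 * (1 + 1 / η) * (Q : ℝ) ^ (2 * η) := by
        have : (Q : ℝ) ^ (2 * η) = (Q : ℝ) ^ η * (Q : ℝ) ^ η := by
          rw [two_mul, Real.rpow_add (by linarith)]
        rw [this]
        ring

/-- reindexing `d = e m` -/
private lemma K7_re (D : ℕ) (F : ℕ → ℕ → ℕ → ℝ) :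
    ∑ d ∈ Icc 1 D, ∑ e ∈ d.divisors.erase 1, F d e (d / e) =
      ∑ m ∈ Icc 1 D, ∑ e ∈ Icc 2 D, if e * m ≤ D then F (e * m) e m else 0 := by
  rw [Finset.sum_sigma', ← Finset.sum_product', ← Finset.sum_filter]
  refine Finset.sum_nbij' (fun x => (x.1 / x.2, x.2)) (fun y => ⟨y.2 * y.1, y.2⟩) ?_ ?_ ?_ ?_ ?_
  · rintro ⟨d, e⟩ h
    rw [mem_sigma, mem_Icc, mem_erase, Nat.mem_divisors] at h
    obtain ⟨⟨h1, h2⟩, h3, h4, h5⟩ := h
    simp only at h1 h2 h3 h4 h5 ⊢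
    have he0 : 0 < e := Nat.pos_of_dvd_of_pos h4 h1
    rw [mem_filter, mem_product, mem_Icc, mem_Icc]
    refine ⟨⟨⟨Nat.div_pos (Nat.le_of_dvd h1 h4) he0, (Nat.div_le_self _ _).trans h2⟩, by omega,
      (Nat.le_of_dvd h1 h4).trans h2⟩, ?_⟩
    rw [Nat.mul_div_cancel' h4]
    exact h2
  · rintro ⟨m, e⟩ h
    rw [mem_filter, mem_product, mem_Icc, mem_Icc] at h
    obtain ⟨⟨⟨h1, h2⟩, h3, h4⟩, h5⟩ := h
    simp only at h1 h2 h3 h4 h5 ⊢
    rw [mem_sigma, mem_Icc, mem_erase, Nat.mem_divisors]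
    have h6 : 0 < e * m := Nat.mul_pos (by omega) h1
    have h7 : e ≠ 1 := by omega
    exact ⟨⟨h6, h5⟩, h7, Dvd.intro _ rfl, h6.ne'⟩
  · rintro ⟨d, e⟩ h
    rw [mem_sigma, mem_Icc, mem_erase, Nat.mem_divisors] at h
    obtain ⟨⟨h1, h2⟩, h3, h4, h5⟩ := h
    simp only at h4 ⊢
    rw [Nat.mul_div_cancel' h4]
  · rintro ⟨m, e⟩ h
    rw [mem_filter, mem_product, mem_Icc, mem_Icc] at h
    obtain ⟨⟨⟨h1, h2⟩, h3, h4⟩, h5⟩ := h
    simp only at h3 ⊢
    rw [Nat.mul_div_cancel_left m (by omega)]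
  · rintro ⟨d, e⟩ h
    rw [mem_sigma, mem_Icc, mem_erase, Nat.mem_divisors] at h
    obtain ⟨⟨h1, h2⟩, h3, h4, h5⟩ := h
    simp only at h4 ⊢
    rw [Nat.mul_div_cancel' h4]

/-- the inner sums -/
private noncomputable def K7_R (b : Bool) (K m e q : ℕ) : ℝ :=
  ∑ k ∈ (Ioc K (2 * K)).filter (fun k => k.Coprime m), (1 / (k : ℝ)) * ∏ p ∈ e.primeFactors, dk b p (k * q)

/-- one modulus -/
private lemma K7_one (b : Bool) (K d q : ℕ) (l : ℝ) (hd : 0 < d) (hsq : l ≠ 0 → Squarefree d) (hq : q.Coprime d) :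
    (∑ k ∈ Ioc K (2 * K), (1 / (k : ℝ)) * (l * cl b d (k * q))) -
        l * ∑ k ∈ (Ioc K (2 * K)).filter (fun k => k.Coprime d), 1 / ((k : ℝ) * (Nat.totient d : ℝ)) =
      ∑ e ∈ d.divisors.erase 1, l / (Nat.totient (d / e) : ℝ) * K7_R b K (d / e) e q := by
  rcases eq_or_ne l 0 with rfl | hl
  · simp
  have hsq := hsq hl
  have h1 : ∀ k, cl b d (k * q) = (if k.Coprime d then 1 / (Nat.totient d : ℝ) else 0) +
      ∑ e ∈ d.divisors.erase 1, (∏ p ∈ e.primeFactors, dk b p (k * q)) *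
        (if k.Coprime (d / e) then 1 / (Nat.totient (d / e) : ℝ) else 0) := by
    intro k
    rw [cl_decomp b d q k hd hsq hq, ← Finset.add_sum_erase _ _ (Nat.one_mem_divisors.2 hd.ne'), Nat.primeFactors_one,
      Finset.prod_empty, one_mul, Nat.div_one]
  have h2 : ∑ k ∈ Ioc K (2 * K), (1 / (k : ℝ)) * (l * cl b d (k * q)) =
      ∑ k ∈ Ioc K (2 * K), (1 / (k : ℝ)) * (l * (if k.Coprime d then 1 / (Nat.totient d : ℝ) else 0)) +
      ∑ k ∈ Ioc K (2 * K), (1 / (k : ℝ)) * (l * ∑ e ∈ d.divisors.erase 1, (∏ p ∈ e.primeFactors, dk b p (k * q)) *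
        (if k.Coprime (d / e) then 1 / (Nat.totient (d / e) : ℝ) else 0)) := by
    rw [← Finset.sum_add_distrib]
    refine Finset.sum_congr rfl fun k _ => ?_
    rw [h1 k]
    ring
  have h3 : ∑ k ∈ Ioc K (2 * K), (1 / (k : ℝ)) * (l * (if k.Coprime d then 1 / (Nat.totient d : ℝ) else 0)) =
      l * ∑ k ∈ (Ioc K (2 * K)).filter (fun k => k.Coprime d), 1 / ((k : ℝ) * (Nat.totient d : ℝ)) := by
    rw [Finset.mul_sum, Finset.sum_filter]
    refine Finset.sum_congr rfl fun k _ => ?_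
    split_ifs with h
    · rw [one_div_mul_eq_div, div_eq_mul_one_div, ← one_div_mul_one_div]
      ring
    · ring
  have h4 : ∑ k ∈ Ioc K (2 * K), (1 / (k : ℝ)) * (l * ∑ e ∈ d.divisors.erase 1, (∏ p ∈ e.primeFactors, dk b p (k * q)) *
        (if k.Coprime (d / e) then 1 / (Nat.totient (d / e) : ℝ) else 0)) =
      ∑ e ∈ d.divisors.erase 1, l / (Nat.totient (d / e) : ℝ) * K7_R b K (d / e) e q := by
    unfold K7_R
    have e1 : ∀ k : ℕ, (1 / (k : ℝ)) * (l * ∑ e ∈ d.divisors.erase 1, (∏ p ∈ e.primeFactors, dk b p (k * q)) *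
        (if k.Coprime (d / e) then 1 / (Nat.totient (d / e) : ℝ) else 0)) =
        ∑ e ∈ d.divisors.erase 1, l / (Nat.totient (d / e) : ℝ) *
          (if k.Coprime (d / e) then (1 / (k : ℝ)) * ∏ p ∈ e.primeFactors, dk b p (k * q) else 0) := by
      intro k
      rw [Finset.mul_sum, Finset.mul_sum]
      refine Finset.sum_congr rfl fun e _ => ?_
      split_ifs with h
      · rw [div_eq_mul_one_div l]
        ring
      · ring
    rw [Finset.sum_congr rfl fun k _ => e1 k, Finset.sum_comm]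
    refine Finset.sum_congr rfl fun e _ => ?_
    rw [← Finset.mul_sum, Finset.sum_filter]
  rw [h2, h3, h4]
  ring

/-- the error term of one `q` -/
private lemma K7_E (b : Bool) (K D q : ℕ) (lam : ℕ → ℝ) (hsq : ∀ d, lam d ≠ 0 → Squarefree d) (hq : q.Prime) (hDq : D < q) :
    (∑ k ∈ Ioc K (2 * K), (1 / (k : ℝ)) * ∑ d ∈ Icc 1 D, lam d * cl b d (k * q)) -
        ∑ d ∈ Icc 1 D, lam d * ∑ k ∈ (Ioc K (2 * K)).filter (fun k => k.Coprime d), 1 / ((k : ℝ) * (Nat.totient d : ℝ)) =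
      ∑ m ∈ Icc 1 D, ∑ e ∈ Icc 2 D, if e * m ≤ D then lam (e * m) / (Nat.totient m : ℝ) * K7_R b K m e q else 0 := by
  have h1 : ∑ k ∈ Ioc K (2 * K), (1 / (k : ℝ)) * ∑ d ∈ Icc 1 D, lam d * cl b d (k * q) =
      ∑ d ∈ Icc 1 D, ∑ k ∈ Ioc K (2 * K), (1 / (k : ℝ)) * (lam d * cl b d (k * q)) := by
    rw [Finset.sum_comm]
    exact Finset.sum_congr rfl fun k _ => Finset.mul_sum _ _ _
  rw [h1, ← Finset.sum_sub_distrib]
  have h2 : ∀ d ∈ Icc 1 D, (∑ k ∈ Ioc K (2 * K), (1 / (k : ℝ)) * (lam d * cl b d (k * q))) -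
      lam d * ∑ k ∈ (Ioc K (2 * K)).filter (fun k => k.Coprime d), 1 / ((k : ℝ) * (Nat.totient d : ℝ)) =
      ∑ e ∈ d.divisors.erase 1, lam d / (Nat.totient (d / e) : ℝ) * K7_R b K (d / e) e q := by
    intro d hd
    rw [mem_Icc] at hd
    refine K7_one b K d q (lam d) hd.1 (hsq d) ?_
    rw [hq.coprime_iff_not_dvd]
    intro h
    have := Nat.le_of_dvd hd.1 h
    omega
  rw [Finset.sum_congr rfl h2]
  exact K7_re D fun d e m => lam d / (Nat.totient m : ℝ) * K7_R b K m e q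

private lemma K7_norm (b : Bool) (K m e q : ℕ) :
    |K7_R b K m e q| = ‖∑ k ∈ (Ioc K (2 * K)).filter (fun k => k.Coprime m), (1 / (k : ℂ)) * dF b e.primeFactors (k * q)‖ := by
  rw [← Real.norm_eq_abs, ← Complex.norm_real]
  congr 1
  unfold K7_R dF
  push_cast
  rfl

private lemma K7_G (b : Bool) (Q K m e : ℕ) (s : ℕ → ℝ) :
    |∑ q ∈ PB Q, s q * K7_R b K m e q| =
      ‖∑ k ∈ Ioc K (2 * K), ∑ q ∈ PB Q, (if k.Coprime m then 1 / (k : ℂ) else 0) * ((s q : ℝ) : ℂ) *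
        dF b e.primeFactors (k * q)‖ := by
  rw [← Real.norm_eq_abs, ← Complex.norm_real]
  congr 1
  rw [Finset.sum_comm]
  unfold K7_R dF
  push_cast
  refine Finset.sum_congr rfl fun q _ => ?_
  rw [Finset.mul_sum, Finset.sum_filter]
  refine Finset.sum_congr rfl fun k _ => ?_
  split_ifs with h
  · ring
  · ring

private lemma K7_card (Q : ℕ) : ((PB Q).card : ℝ) ≤ Q := by
  have h1 : (PB Q).card ≤ Q := by
    unfold PB
    refine (Finset.card_filter_le _ _).trans ?_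
    rw [Nat.card_Ioc]
    omega
  exact_mod_cast h1

/-- the pairs -/
private lemma K7_pair {C0 η : ℝ} (hη : 0 < η) (hC0 : 1 ≤ C0)
    (hC : ∀ n : ℕ, 0 < n → (n.divisors.card : ℝ) ≤ C0 * (n : ℝ) ^ η)
    (b : Bool) (Q K D V1 : ℕ) (lam : ℕ → ℝ) (hQ : 2 ≤ Q) (hK : 1 ≤ K) (hDQ : D ≤ Q) (hV : 1 ≤ V1)
    (hlam : ∀ d, |lam d| ≤ (d.divisors.card : ℝ) ^ 2) (hsq : ∀ d, lam d ≠ 0 → Squarefree d)
    (s : ℕ → ℝ) (hs : ∀ q, |s q| ≤ 1) (Z : ℝ)
    (hdy : ∀ (x y : ℕ → ℂ), (∀ k ∈ Ioc K (2 * K), ‖x k‖ ≤ 1 / (K : ℝ)) → (∀ q ∈ PB Q, ‖y q‖ ≤ 1) →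
      ∑ d ∈ (Ioc V1 D).filter Squarefree, ‖∑ k ∈ Ioc K (2 * K), ∑ q ∈ PB Q, x k * y q * dF b d.primeFactors (k * q)‖ ≤ Z)
    (m : ℕ) (hm : m ∈ Icc 1 D) :
    ∑ e ∈ Icc 2 D, |if e * m ≤ D then lam (e * m) / (Nat.totient m : ℝ) else 0| * |∑ q ∈ PB Q, s q * K7_R b K m e q| ≤
      (C0 * (Q : ℝ) ^ η) ^ 2 * (1 / (Nat.totient m : ℝ)) * (4 * (C0 * (Q : ℝ) ^ η) ^ 2 * (Q * (V1 : ℝ) ^ 2 / K) + Z) := by
  classical
  rw [mem_Icc] at hm
  have hQ1 : (1 : ℝ) ≤ Q := by exact_mod_cast (by omega : 1 ≤ Q)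
  have hQ0 : (0 : ℝ) ≤ Q := by linarith
  have hK0 : (0 : ℝ) < K := by exact_mod_cast hK
  have hx1 : (1 : ℝ) ≤ (Q : ℝ) ^ η := Real.one_le_rpow hQ1 hη.le
  obtain ⟨T, hT⟩ : ∃ T : ℝ, T = C0 * (Q : ℝ) ^ η := ⟨_, rfl⟩
  have hT0 : 0 ≤ T := by rw [hT]; positivity
  have hTd : ∀ n : ℕ, 0 < n → n ≤ D → (n.divisors.card : ℝ) ≤ T := by
    intro n hn hn2
    rw [hT]
    refine (hC n hn).trans (mul_le_mul_of_nonneg_left ?_ (by linarith))
    exact Real.rpow_le_rpow (by positivity) (by exact_mod_cast hn2.trans hDQ) hη.le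
  rw [← hT]
  have hφ : (0 : ℝ) ≤ 1 / (Nat.totient m : ℝ) := by positivity
  obtain ⟨P, hP⟩ : ∃ P : ℝ, P = T ^ 2 * (1 / (Nat.totient m : ℝ)) := ⟨_, rfl⟩
  have hP0 : 0 ≤ P := by rw [hP]; positivity
  rw [← hP]
  have key : ∀ e ∈ Icc 2 D, |if e * m ≤ D then lam (e * m) / (Nat.totient m : ℝ) else 0| *
      |∑ q ∈ PB Q, s q * K7_R b K m e q| ≤ P * ((if e ≤ V1 then 4 * T ^ 2 * (Q * V1 / K) else 0) +
        (if e ∈ (Ioc V1 D).filter Squarefree then |∑ q ∈ PB Q, s q * K7_R b K m e q| else 0)) := by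
    intro e he
    rw [mem_Icc] at he
    have hnn : 0 ≤ P * ((if e ≤ V1 then 4 * T ^ 2 * (Q * V1 / K) else 0) +
        (if e ∈ (Ioc V1 D).filter Squarefree then |∑ q ∈ PB Q, s q * K7_R b K m e q| else 0)) := by
      apply mul_nonneg hP0
      apply add_nonneg
      · split_ifs
        · positivity
        · exact le_rfl
      · split_ifs
        · exact abs_nonneg _
        · exact le_rfl
    by_cases h1 : e * m ≤ D
    · rw [if_pos h1]
      rcases eq_or_ne (lam (e * m)) 0 with h0 | h0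
      · rw [h0, zero_div, abs_zero, zero_mul]
        exact hnn
      · have hsf := hsq _ h0
        rw [Nat.squarefree_mul_iff] at hsf
        obtain ⟨hco, hse, hsm⟩ := hsf
        have hem : 0 < e * m := Nat.mul_pos (by omega) hm.1
        have hw : |lam (e * m) / (Nat.totient m : ℝ)| ≤ P := by
          rw [abs_div, div_eq_mul_one_div, Nat.abs_cast, hP]
          apply mul_le_mul_of_nonneg_right _ hφ
          exact (hlam _).trans (pow_le_pow_left₀ (by positivity) (hTd _ hem h1) 2)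
        refine mul_le_mul hw ?_ (abs_nonneg _) hP0
        by_cases h2 : e ≤ V1
        · rw [if_pos h2, if_neg, add_zero]
          · have h3 : ∀ q ∈ PB Q, |s q * K7_R b K m e q| ≤ 4 * T ^ 2 * (V1 / K) := by
              intro q hq
              rw [mem_PB] at hq
              have hqe : q.Coprime e := by
                rw [hq.1.coprime_iff_not_dvd]
                intro h
                have := Nat.le_of_dvd (by omega) h
                omega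
              have h4 := small_dF b e m q K (by omega) hse hm.1 hco.symm hqe hK
              rw [← K7_norm] at h4
              rw [abs_mul]
              have h5 : |s q| * |K7_R b K m e q| ≤ 1 * |K7_R b K m e q| :=
                mul_le_mul_of_nonneg_right (hs q) (abs_nonneg _)
              rw [one_mul] at h5
              refine h5.trans (h4.trans ?_)
              have h6 : (m.divisors.card : ℝ) ≤ T := hTd m hm.1 hm.2
              have h7 : (2 : ℝ) ^ e.primeFactors.card ≤ T :=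
                (K7_om e (by omega)).trans (hTd e (by omega) he.2)
              have h8 : (e : ℝ) ≤ V1 := by exact_mod_cast h2
              have h9 : (m.divisors.card : ℝ) * e * 2 ^ e.primeFactors.card ≤ T * V1 * T :=
                mul_le_mul (mul_le_mul h6 h8 (by positivity) hT0) h7 (by positivity) (by positivity)
              calc 4 * (m.divisors.card : ℝ) * e * 2 ^ e.primeFactors.card / K =
                    4 * ((m.divisors.card : ℝ) * e * 2 ^ e.primeFactors.card) / K := by ring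
                _ ≤ 4 * (T * V1 * T) / K := by
                  apply div_le_div_of_nonneg_right _ hK0.le
                  linarith
                _ = 4 * T ^ 2 * (V1 / K) := by ring
            calc |∑ q ∈ PB Q, s q * K7_R b K m e q| ≤ ∑ q ∈ PB Q, |s q * K7_R b K m e q| :=
                  Finset.abs_sum_le_sum_abs _ _
              _ ≤ ∑ _q ∈ PB Q, 4 * T ^ 2 * ((V1 : ℝ) / K) := Finset.sum_le_sum h3
              _ = ((PB Q).card : ℝ) * (4 * T ^ 2 * ((V1 : ℝ) / K)) := by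
                rw [Finset.sum_const, nsmul_eq_mul]
              _ ≤ (Q : ℝ) * (4 * T ^ 2 * ((V1 : ℝ) / K)) := by
                apply mul_le_mul_of_nonneg_right (K7_card Q)
                positivity
              _ = 4 * T ^ 2 * (Q * V1 / K) := by ring
          · intro h
            rw [mem_filter, mem_Ioc] at h
            omega
        · rw [if_neg h2, zero_add, if_pos]
          rw [mem_filter, mem_Ioc]
          exact ⟨⟨by omega, he.2⟩, hse⟩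
    · rw [if_neg h1, abs_zero, zero_mul]
      exact hnn
  refine (Finset.sum_le_sum key).trans ?_
  rw [← Finset.mul_sum, Finset.sum_add_distrib]
  apply mul_le_mul_of_nonneg_left _ hP0
  apply add_le_add
  · rw [← Finset.sum_filter, Finset.sum_const, nsmul_eq_mul]
    have h1 : (((Icc 2 D).filter (fun e => e ≤ V1)).card : ℝ) ≤ V1 := by
      have h2 : ((Icc 2 D).filter (fun e => e ≤ V1)).card ≤ (Icc 1 V1).card := by
        apply Finset.card_le_card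
        intro e he
        rw [mem_filter, mem_Icc] at he
        rw [mem_Icc]
        omega
      rw [Nat.card_Icc] at h2
      have h3 : ((Icc 2 D).filter (fun e => e ≤ V1)).card ≤ V1 := by omega
      exact_mod_cast h3
    calc (((Icc 2 D).filter (fun e => e ≤ V1)).card : ℝ) * (4 * T ^ 2 * (Q * V1 / K)) ≤
          (V1 : ℝ) * (4 * T ^ 2 * (Q * V1 / K)) := by
          apply mul_le_mul_of_nonneg_right h1
          positivity
      _ = 4 * T ^ 2 * (Q * (V1 : ℝ) ^ 2 / K) := by ring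
  · have h1 : ∑ e ∈ Icc 2 D, (if e ∈ (Ioc V1 D).filter Squarefree then |∑ q ∈ PB Q, s q * K7_R b K m e q| else 0) =
        ∑ e ∈ (Ioc V1 D).filter Squarefree, |∑ q ∈ PB Q, s q * K7_R b K m e q| := by
      rw [← Finset.sum_filter]
      apply Finset.sum_congr _ (fun _ _ => rfl)
      ext e
      simp only [mem_filter, mem_Icc, mem_Ioc]
      constructor
      · rintro ⟨_, h⟩
        exact h
      · intro h
        exact ⟨⟨by omega, h.1.2⟩, h⟩
    rw [h1, Finset.sum_congr rfl fun e _ => K7_G b Q K m e s]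
    refine hdy (fun k => if k.Coprime m then 1 / (k : ℂ) else 0) (fun q => ((s q : ℝ) : ℂ)) ?_ ?_
    · intro k hk
      rw [mem_Ioc] at hk
      have hk0 : (0 : ℝ) < k := by exact_mod_cast (by omega : 0 < k)
      split_ifs
      · rw [norm_div, norm_one, Complex.norm_natCast]
        exact one_div_le_one_div_of_le hK0 (by exact_mod_cast hk.1.le)
      · rw [norm_zero]
        positivity
    · intro q _
      rw [Complex.norm_real, Real.norm_eq_abs]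
      exact hs q

theorem bil_err (δ : ℝ) (hδ : 0 < δ) : ∃ C : ℝ, 0 < C ∧ ∀ (b : Bool) (Q K D V1 : ℕ) (lam : ℕ → ℝ),
    2 ≤ Q → 1 ≤ K → K ≤ 2 * Q → 1 ≤ D → D ≤ Q → 1 ≤ V1 →
    (∀ d, |lam d| ≤ (d.divisors.card : ℝ) ^ 2) → (∀ d, lam d ≠ 0 → Squarefree d) →
    ∑ q ∈ PB Q, |∑ k ∈ Ioc K (2 * K), (1 / (k : ℝ)) * ∑ d ∈ Icc 1 D, lam d * cl b d (k * q) -
        ∑ d ∈ Icc 1 D, lam d * ∑ k ∈ (Ioc K (2 * K)).filter (fun k => k.Coprime d), 1 / ((k : ℝ) * (Nat.totient d : ℝ))| ≤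
      C * (Q : ℝ) ^ δ * (Q * (V1 : ℝ) ^ 2 / K + Q / V1 + √(Q : ℝ) + Q / √(K : ℝ) + D * √((Q : ℝ) / K)) := by
  obtain ⟨C0, hC0, hC⟩ := Pool.Agent.Lib.MP_2a816b_nt.divisor_bound (δ / 6) (by positivity)
  obtain ⟨C1, hC1, hdy⟩ := dy_sum (δ / 6) (by positivity)
  have hη : 0 < δ / 6 := by positivity
  refine ⟨C0 ^ 3 * (1 + 1 / (δ / 6)) * (4 * C0 ^ 2 + C1), by positivity, ?_⟩
  intro b Q K D V1 lam hQ hK hKQ hD hDQ hV hlam hsq
  have hQ1 : (1 : ℝ) ≤ Q := by exact_mod_cast (by omega : 1 ≤ Q)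
  have hQ0 : (0 : ℝ) < Q := by linarith
  have hK0 : (0 : ℝ) < K := by exact_mod_cast hK
  obtain ⟨E, hE⟩ : ∃ E : ℕ → ℝ, E = fun q => ∑ k ∈ Ioc K (2 * K), (1 / (k : ℝ)) * ∑ d ∈ Icc 1 D, lam d * cl b d (k * q) -
        ∑ d ∈ Icc 1 D, lam d * ∑ k ∈ (Ioc K (2 * K)).filter (fun k => k.Coprime d), 1 / ((k : ℝ) * (Nat.totient d : ℝ)) :=
    ⟨_, rfl⟩
  obtain ⟨s, hs⟩ : ∃ s : ℕ → ℝ, s = fun q => if 0 ≤ E q then 1 else -1 := ⟨_, rfl⟩
  have hs1 : ∀ q, |s q| ≤ 1 := by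
    intro q
    rw [hs]
    simp only
    split_ifs <;> simp
  have hsE : ∀ q, |E q| = s q * E q := by
    intro q
    rw [hs]
    simp only
    split_ifs with h
    · rw [abs_of_nonneg h, one_mul]
    · rw [abs_of_neg (not_le.1 h)]
      ring
  obtain ⟨A, hA⟩ : ∃ A : ℝ, A = Q * (V1 : ℝ) ^ 2 / K := ⟨_, rfl⟩
  obtain ⟨Y, hY⟩ : ∃ Y : ℝ, Y = Q / V1 + √(Q : ℝ) + Q / √(K : ℝ) + D * √((Q : ℝ) / K) := ⟨_, rfl⟩
  have hA0 : 0 ≤ A := by rw [hA]; positivity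
  have hY0 : 0 ≤ Y := by rw [hY]; positivity
  have hdy' := hdy b Q K D V1
  have h1 : ∑ q ∈ PB Q, |E q| = ∑ m ∈ Icc 1 D, ∑ e ∈ Icc 2 D,
      (if e * m ≤ D then lam (e * m) / (Nat.totient m : ℝ) else 0) * ∑ q ∈ PB Q, s q * K7_R b K m e q := by
    have e1 : ∀ q ∈ PB Q, |E q| = ∑ m ∈ Icc 1 D, ∑ e ∈ Icc 2 D,
        (if e * m ≤ D then lam (e * m) / (Nat.totient m : ℝ) else 0) * (s q * K7_R b K m e q) := by
      intro q hq
      rw [mem_PB] at hq
      rw [hsE, hE]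
      simp only
      rw [K7_E b K D q lam hsq hq.1 (by omega), Finset.mul_sum]
      refine Finset.sum_congr rfl fun m _ => ?_
      rw [Finset.mul_sum]
      refine Finset.sum_congr rfl fun e _ => ?_
      split_ifs with h
      · ring
      · ring
    rw [Finset.sum_congr rfl e1, Finset.sum_comm]
    refine Finset.sum_congr rfl fun m _ => ?_
    rw [Finset.sum_comm]
    refine Finset.sum_congr rfl fun e _ => ?_
    rw [Finset.mul_sum]
  have h2 : ∑ q ∈ PB Q, |E q| ≤ ∑ m ∈ Icc 1 D, (C0 * (Q : ℝ) ^ (δ / 6)) ^ 2 * (1 / (Nat.totient m : ℝ)) *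
      (4 * (C0 * (Q : ℝ) ^ (δ / 6)) ^ 2 * A + C1 * (Q : ℝ) ^ (δ / 6) * Y) := by
    rw [h1]
    refine Finset.sum_le_sum fun m hm => ?_
    have h3 := K7_pair hη hC0 hC b Q K D V1 lam hQ hK hDQ hV hlam hsq s hs1 (C1 * (Q : ℝ) ^ (δ / 6) * Y)
      (fun x y hx hy => by rw [hY]; exact hdy' x y hQ hK hKQ hDQ hV hx hy) m hm
    rw [← hA] at h3
    refine le_trans (Finset.sum_le_sum fun e _ => ?_) h3
    rw [← abs_mul]
    exact le_abs_self _
  have h3 : ∑ m ∈ Icc 1 D, (C0 * (Q : ℝ) ^ (δ / 6)) ^ 2 * (1 / (Nat.totient m : ℝ)) *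
      (4 * (C0 * (Q : ℝ) ^ (δ / 6)) ^ 2 * A + C1 * (Q : ℝ) ^ (δ / 6) * Y) =
      (∑ m ∈ Icc 1 D, 1 / (Nat.totient m : ℝ)) * ((C0 * (Q : ℝ) ^ (δ / 6)) ^ 2 *
      (4 * (C0 * (Q : ℝ) ^ (δ / 6)) ^ 2 * A + C1 * (Q : ℝ) ^ (δ / 6) * Y)) := by
    rw [Finset.sum_mul]
    exact Finset.sum_congr rfl fun m _ => by ring
  have h4 := K7_sum hη hC0 hC hD hDQ
  obtain ⟨x, hx⟩ : ∃ x : ℝ, x = (Q : ℝ) ^ (δ / 6) := ⟨_, rfl⟩
  have hx1 : 1 ≤ x := by rw [hx]; exact Real.one_le_rpow hQ1 hη.le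
  have hx2 : (Q : ℝ) ^ (2 * (δ / 6)) = x ^ 2 := by
    rw [hx, ← Real.rpow_natCast, ← Real.rpow_mul hQ0.le]
    congr 1
    push_cast
    ring
  have hx6 : (Q : ℝ) ^ δ = x ^ 6 := by
    rw [hx, ← Real.rpow_natCast, ← Real.rpow_mul hQ0.le]
    congr 1
    push_cast
    ring
  rw [h3, ← hx] at h2
  rw [hx2] at h4
  have hC00 : 0 ≤ C0 := by linarith
  have hx0 : 0 ≤ x := by linarith
  have h5 : (∑ m ∈ Icc 1 D, 1 / (Nat.totient m : ℝ)) * ((C0 * x) ^ 2 * (4 * (C0 * x) ^ 2 * A + C1 * x * Y)) ≤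
      (C0 * (1 + 1 / (δ / 6)) * x ^ 2) * ((C0 * x) ^ 2 * (4 * (C0 * x) ^ 2 * A + C1 * x * Y)) :=
    mul_le_mul_of_nonneg_right h4 (by positivity)
  have h6 : 4 * (C0 * x) ^ 2 * A + C1 * x * Y ≤ (4 * C0 ^ 2 + C1) * x ^ 2 * (A + Y) := by
    have e1 : x ≤ x ^ 2 := by nlinarith
    have e2 : C1 * x * Y ≤ C1 * x ^ 2 * Y := by
      apply mul_le_mul_of_nonneg_right _ hY0
      exact mul_le_mul_of_nonneg_left e1 hC1.le
    have e3 : 0 ≤ 4 * C0 ^ 2 * x ^ 2 * Y := by positivity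
    have e4 : 0 ≤ C1 * x ^ 2 * A := by positivity
    nlinarith
  have h7 : (C0 * (1 + 1 / (δ / 6)) * x ^ 2) * ((C0 * x) ^ 2 * (4 * (C0 * x) ^ 2 * A + C1 * x * Y)) ≤
      C0 ^ 3 * (1 + 1 / (δ / 6)) * (4 * C0 ^ 2 + C1) * x ^ 6 * (A + Y) := by
    calc (C0 * (1 + 1 / (δ / 6)) * x ^ 2) * ((C0 * x) ^ 2 * (4 * (C0 * x) ^ 2 * A + C1 * x * Y)) ≤
          (C0 * (1 + 1 / (δ / 6)) * x ^ 2) * ((C0 * x) ^ 2 * ((4 * C0 ^ 2 + C1) * x ^ 2 * (A + Y))) := by
          apply mul_le_mul_of_nonneg_left _ (by positivity)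
          exact mul_le_mul_of_nonneg_left h6 (by positivity)
      _ = C0 ^ 3 * (1 + 1 / (δ / 6)) * (4 * C0 ^ 2 + C1) * x ^ 6 * (A + Y) := by ring
  have h8 := (h2.trans h5).trans h7
  rw [hE] at h8
  refine h8.trans (le_of_eq ?_)
  rw [hx6, hA, hY]
  ring

end Pool.Agent.Lib.MP_5deb1d_nt
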