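import Mathlib
import Pool.Agent.Lib.MP_5deb1d_nt.K0

/-!
JOB K8. Selberg's weights for the sieve of dimension 1. PROOF: `G = ∑_{m ≤ z} μ²(m)/φ(m) ≥ ∑_{n ≤ z} 1/n ≥ log z` (`1/φ(m)` for squarefree `m` is the sum of `1/n` over the `n` with the same prime factors, or: `∑_{n ≤ z} 1/n = ∑_{m sqfree ≤ z} ∑_{n ≤ z, rad n = m} 1/n`), and
`ρ(d) = μ(d) d G⁻¹ ∑_{m ≤ z, d ∣ m} μ²(m)/φ(m)`. `ρ(1) = 1`. `|ρ(d)| ≤ 1`: `G ≥ ∑_{l ∣ d} (1/φ(l)) ∑_{m ≤ z/d, (m,d)=1} μ²/φ = (d/φ(d)) ∑_{m ≤ z/d, (m,d) = 1}` for squarefree `d`. The form: `1/lcm(d1,d2) = (1/(d1 d2)) ∑_{l ∣ gcd} φ(l)`, so it is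
`∑_{l ≤ z} φ(l) (∑_{l ∣ d} ρ(d)/d)²`, and `∑_{l ∣ d} ρ(d)/d = μ(l)/(φ(l) G)` (Moebius), total `G/G² = 1/G ≤ 1/log z`. Mathlib `NumberTheory/SelbergSieve.lean` has the diagonalisation (`mainSum_lambdaSquared_eq_sum_mul_sum_sq`); a direct proof is fine.
-/

set_option autoImplicit false

open Finset

namespace Pool.Agent.Lib.MP_5deb1d_nt

/-- `μ²(m)/φ(m)` -/
private noncomputable def K8_h (m : ℕ) : ℝ := if Squarefree m then 1 / (Nat.totient m : ℝ) else 0

private lemma K8_h_nonneg (m : ℕ) : 0 ≤ K8_h m := by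
  unfold K8_h
  split_ifs
  · positivity
  · exact le_rfl

private lemma K8_h_mul {a b : ℕ} (hab : a.Coprime b) : K8_h (a * b) = K8_h a * K8_h b := by
  unfold K8_h
  by_cases ha : Squarefree a
  · by_cases hb : Squarefree b
    · rw [if_pos ((Nat.squarefree_mul hab).2 ⟨ha, hb⟩), if_pos ha, if_pos hb, Nat.totient_mul hab, Nat.cast_mul,
        one_div_mul_one_div]
    · rw [if_neg (fun h => hb ((Nat.squarefree_mul hab).1 h).2), if_neg hb, mul_zero]
  · rw [if_neg (fun h => ha ((Nat.squarefree_mul hab).1 h).1), if_neg ha, zero_mul]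

/-- the function `1/n` -/
private noncomputable def K8_inv : ℕ →* ℝ where
  toFun n := (n : ℝ)⁻¹
  map_one' := by simp
  map_mul' a b := by rw [Nat.cast_mul, mul_inv]

private lemma K8_fact (m : ℕ) (hm : 1 ≤ m) (T : Finset ℕ) (hT : ∀ n ∈ T, n ∈ Nat.factoredNumbers m.primeFactors) :
    ∑ n ∈ T, (n : ℝ)⁻¹ ≤ m / (Nat.totient m : ℝ) := by
  have h1 := EulerProduct.summable_and_hasSum_factoredNumbers_prod_filter_prime_geometric (f := K8_inv)
    (fun {p} hp => by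
      show ‖((p : ℝ))⁻¹‖ < 1
      rw [Real.norm_of_nonneg (by positivity)]
      exact inv_lt_one_of_one_lt₀ (by exact_mod_cast hp.one_lt)) m.primeFactors
  have h2 := h1.2
  have h3 : ∏ p ∈ m.primeFactors with p.Prime, (1 - K8_inv p)⁻¹ = m / (Nat.totient m : ℝ) := by
    have h4 : (m.primeFactors.filter fun p => p.Prime) = m.primeFactors :=
      filter_true_of_mem fun p hp => Nat.prime_of_mem_primeFactors hp
    rw [h4, prod_inv_distrib]
    have h5 : (Nat.totient m : ℝ) = m * ∏ p ∈ m.primeFactors, (1 - (p : ℝ)⁻¹) := by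
      have h6 := congrArg (Rat.cast : ℚ → ℝ) (Nat.totient_eq_mul_prod_factors m)
      push_cast at h6
      exact h6
    have h7 : ∏ p ∈ m.primeFactors, (1 - K8_inv p) = ∏ p ∈ m.primeFactors, (1 - (p : ℝ)⁻¹) := rfl
    rw [h5, h7, ← div_div, div_self (by exact_mod_cast (by omega : m ≠ 0)), one_div]
  rw [h3] at h2
  have h8 : HasSum ((Nat.factoredNumbers m.primeFactors).indicator fun n : ℕ => (n : ℝ)⁻¹)
      (m / (Nat.totient m : ℝ)) := (hasSum_subtype_iff_indicator (f := fun n : ℕ => (n : ℝ)⁻¹)).1 h2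
  have h9 := sum_le_hasSum T (fun i _ => Set.indicator_nonneg (fun n _ => by positivity) i) h8
  refine le_trans (le_of_eq (sum_congr rfl fun n hn => ?_)) h9
  rw [Set.indicator_of_mem (hT n hn)]

/-- the product of the prime divisors -/
private def K8_rad (n : ℕ) : ℕ := ∏ p ∈ n.primeFactors, p

private lemma K8_rad_pf (n : ℕ) : (K8_rad n).primeFactors = n.primeFactors :=
  Nat.primeFactors_prod fun _ hp => Nat.prime_of_mem_primeFactors hp

private lemma K8_rad_dvd (n : ℕ) : K8_rad n ∣ n := Nat.prod_primeFactors_dvd n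

private lemma K8_rad_pos (n : ℕ) : 0 < K8_rad n :=
  prod_pos fun _ hp => (Nat.prime_of_mem_primeFactors hp).pos

private lemma K8_rad_sq (n : ℕ) : Squarefree (K8_rad n) := by
  unfold K8_rad
  refine Finset.squarefree_prod_of_pairwise_isCoprime (fun p hp q hq hpq => ?_)
    fun p hp => (Nat.prime_of_mem_primeFactors hp).prime.squarefree
  exact Nat.coprime_iff_isRelPrime.1
    ((Nat.coprime_primes (Nat.prime_of_mem_primeFactors hp) (Nat.prime_of_mem_primeFactors hq)).2 hpq)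

/-- the sum of `1/n` over a fibre of the kernel -/
private lemma K8_fib (z m : ℕ) :
    ∑ n ∈ (Icc 1 z).filter (fun n => K8_rad n = m), (n : ℝ)⁻¹ ≤ K8_h m := by
  classical
  rcases ((Icc 1 z).filter (fun n => K8_rad n = m)).eq_empty_or_nonempty with h0 | ⟨n₀, hn₀⟩
  · rw [h0, sum_empty]
    exact K8_h_nonneg m
  have hm : K8_rad n₀ = m := (mem_filter.1 hn₀).2
  have hsq : Squarefree m := hm ▸ K8_rad_sq n₀
  have hm1 : 1 ≤ m := hm ▸ K8_rad_pos n₀
  have hm0 : (m : ℝ) ≠ 0 := by exact_mod_cast (by omega : m ≠ 0)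
  have hdv : ∀ n ∈ (Icc 1 z).filter (fun n => K8_rad n = m), m ∣ n := by
    intro n hn
    rw [← (mem_filter.1 hn).2]
    exact K8_rad_dvd n
  have hinj : Set.InjOn (fun n => n / m) ((Icc 1 z).filter (fun n => K8_rad n = m) : Finset ℕ) := by
    intro a ha b hb hab
    have h1 := Nat.div_mul_cancel (hdv a ha)
    have h2 := Nat.div_mul_cancel (hdv b hb)
    have h3 : a / m = b / m := hab
    rw [← h1, ← h2, h3]
  have h1 : ∑ n ∈ (Icc 1 z).filter (fun n => K8_rad n = m), (n : ℝ)⁻¹ =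
      (m : ℝ)⁻¹ * ∑ n ∈ ((Icc 1 z).filter (fun n => K8_rad n = m)).image (fun n => n / m), (n : ℝ)⁻¹ := by
    rw [sum_image hinj, mul_sum]
    refine sum_congr rfl fun n hn => ?_
    rw [← mul_inv]
    congr 1
    rw [← Nat.cast_mul, Nat.mul_div_cancel' (hdv n hn)]
  have h2 := K8_fact m hm1 (((Icc 1 z).filter (fun n => K8_rad n = m)).image (fun n => n / m)) (by
    intro k hk
    obtain ⟨n, hn, rfl⟩ := mem_image.1 hk
    have hn1 : 1 ≤ n := (mem_Icc.1 (mem_filter.1 hn).1).1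
    have hnm : n / m ≠ 0 := by
      intro h3
      have h4 := Nat.div_mul_cancel (hdv n hn)
      rw [h3, zero_mul] at h4
      omega
    refine Nat.mem_factoredNumbers.2 ⟨hnm, fun p hp => ?_⟩
    rw [Nat.mem_primeFactorsList hnm] at hp
    rw [← (mem_filter.1 hn).2, K8_rad_pf]
    exact Nat.mem_primeFactors.2 ⟨hp.1, hp.2.trans (Nat.div_dvd_of_dvd (hdv n hn)), by omega⟩)
  rw [h1]
  unfold K8_h
  rw [if_pos hsq]
  calc (m : ℝ)⁻¹ * _ ≤ (m : ℝ)⁻¹ * (m / (Nat.totient m : ℝ)) :=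
        mul_le_mul_of_nonneg_left h2 (by positivity)
    _ = 1 / (Nat.totient m : ℝ) := by rw [← mul_div_assoc, inv_mul_cancel₀ hm0]

/-- the sum `G` -/
private noncomputable def K8_G (z : ℕ) : ℝ := ∑ m ∈ Icc 1 z, K8_h m

private lemma K8_log_le (z : ℕ) (hz : 1 ≤ z) : Real.log z ≤ K8_G z := by
  have h1 : ∑ n ∈ Icc 1 z, (n : ℝ)⁻¹ ≤ K8_G z := by
    have h2 : ∀ n ∈ Icc 1 z, K8_rad n ∈ Icc 1 z := by
      intro n hn
      rw [mem_Icc] at hn ⊢
      exact ⟨K8_rad_pos n, (Nat.le_of_dvd (by omega) (K8_rad_dvd n)).trans hn.2⟩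
    rw [← sum_fiberwise_of_maps_to h2]
    exact sum_le_sum fun m _ => K8_fib z m
  refine le_trans ?_ h1
  have h3 := log_add_one_le_harmonic z
  rw [harmonic_eq_sum_Icc] at h3
  push_cast at h3
  refine le_trans (Real.log_le_log (by exact_mod_cast hz) ?_) h3
  linarith

open ArithmeticFunction in
private lemma K8_mu (m l : ℕ) (hm : Squarefree m) (hm1 : 1 ≤ m) :
    ∑ d ∈ m.divisors.filter (fun d => l ∣ d), ((moebius d : ℤ) : ℝ) = if l = m then ((moebius l : ℤ) : ℝ) else 0 := by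
  classical
  by_cases hl : l ∣ m
  · obtain ⟨k, rfl⟩ := hl
    have hlk : l.Coprime k := Nat.coprime_of_squarefree_mul hm
    have hl0 : l ≠ 0 := by
      rintro rfl
      omega
    have hk0 : k ≠ 0 := by
      rintro rfl
      omega
    have h1 : (l * k).divisors.filter (fun d => l ∣ d) = k.divisors.image (fun e => l * e) := by
      ext d
      rw [mem_filter, Nat.mem_divisors, mem_image]
      constructor
      · rintro ⟨⟨h1, _⟩, e, rfl⟩
        exact ⟨e, Nat.mem_divisors.2 ⟨Nat.dvd_of_mul_dvd_mul_left (Nat.pos_of_ne_zero hl0) h1, hk0⟩, rfl⟩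
      · rintro ⟨e, he, rfl⟩
        exact ⟨⟨Nat.mul_dvd_mul_left l (Nat.mem_divisors.1 he).1, by omega⟩, Nat.dvd_mul_right l e⟩
    have h2 : ∀ e ∈ k.divisors, ((moebius (l * e) : ℤ) : ℝ) = (moebius l : ℝ) * (moebius e : ℝ) := by
      intro e he
      rw [isMultiplicative_moebius.map_mul_of_coprime (hlk.coprime_dvd_right (Nat.mem_divisors.1 he).1)]
      push_cast
      rfl
    have h3 : ∑ e ∈ k.divisors, (moebius e : ℤ) = if k = 1 then 1 else 0 := by
      have h4 : (moebius * (zeta : ArithmeticFunction ℤ)) k = (1 : ArithmeticFunction ℤ) k := by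
        rw [moebius_mul_coe_zeta]
      rw [coe_mul_zeta_apply, one_apply] at h4
      exact h4
    rw [h1, sum_image (fun a _ b _ hab => Nat.eq_of_mul_eq_mul_left (Nat.pos_of_ne_zero hl0) hab),
      sum_congr rfl h2, ← mul_sum]
    have h5 : ∑ e ∈ k.divisors, ((moebius e : ℤ) : ℝ) = if k = 1 then 1 else 0 := by
      have h6 := congrArg (Int.cast : ℤ → ℝ) h3
      push_cast at h6
      exact h6
    rw [h5]
    by_cases hk : k = 1
    · rw [if_pos hk, hk, mul_one, mul_one, if_pos rfl]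
    · rw [if_neg hk, mul_zero, if_neg]
      intro h6
      apply hk
      exact Nat.eq_of_mul_eq_mul_left (Nat.pos_of_ne_zero hl0) (by rw [mul_one]; exact h6.symm)
  · have h1 : m.divisors.filter (fun d => l ∣ d) = ∅ := by
      rw [filter_eq_empty_iff]
      intro d hd h2
      exact hl (h2.trans (Nat.mem_divisors.1 hd).1)
    rw [h1, sum_empty, if_neg]
    rintro rfl
    exact hl dvd_rfl

private lemma K8_sumdiv (d : ℕ) (hd : Squarefree d) (hd1 : 1 ≤ d) :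
    ∑ l ∈ d.divisors, K8_h l = d * K8_h d := by
  have h0 : (Nat.totient d : ℝ) ≠ 0 := by
    exact_mod_cast (Nat.totient_pos.2 hd1).ne'
  have h1 : ∀ l ∈ d.divisors, K8_h l = (Nat.totient (d / l) : ℝ) / (Nat.totient d : ℝ) := by
    intro l hl
    obtain ⟨k, rfl⟩ := (Nat.mem_divisors.1 hl).1
    have hl0 : 0 < l := Nat.pos_of_mem_divisors hl
    have hlk : l.Coprime k := Nat.coprime_of_squarefree_mul hd
    have hk0 : 0 < k := by
      rcases Nat.eq_zero_or_pos k with h | h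
      · rw [h, mul_zero] at hd1
        omega
      · exact h
    have h2 : (Nat.totient l : ℝ) ≠ 0 := by exact_mod_cast (Nat.totient_pos.2 hl0).ne'
    have h3 : (Nat.totient k : ℝ) ≠ 0 := by exact_mod_cast (Nat.totient_pos.2 hk0).ne'
    unfold K8_h
    rw [if_pos ((Nat.squarefree_mul hlk).1 hd).1, Nat.mul_div_cancel_left k hl0, Nat.totient_mul hlk, Nat.cast_mul]
    field_simp
  rw [sum_congr rfl h1, ← sum_div]
  have h2 : ∑ l ∈ d.divisors, (Nat.totient (d / l) : ℝ) = d := by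
    have h3 := (Nat.sum_div_divisors d Nat.totient).trans (Nat.sum_totient d)
    have h4 := congrArg (Nat.cast : ℕ → ℝ) h3
    push_cast at h4
    exact h4
  rw [h2]
  unfold K8_h
  rw [if_pos hd]
  ring

private lemma K8_key (z d : ℕ) (hd : Squarefree d) (hd1 : 1 ≤ d) :
    (d : ℝ) * ∑ m ∈ (Icc 1 z).filter (fun m => d ∣ m), K8_h m ≤ K8_G z := by
  classical
  obtain ⟨S, hS⟩ : ∃ S : Finset ℕ, S = (Icc 1 z).filter (fun m => d ∣ m ∧ Squarefree m) := ⟨_, rfl⟩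
  have h1 : ∑ m ∈ (Icc 1 z).filter (fun m => d ∣ m), K8_h m = ∑ m ∈ S, K8_h m := by
    symm
    refine sum_subset (fun m hm => ?_) fun m hm hm2 => ?_
    · rw [hS, mem_filter] at hm
      exact mem_filter.2 ⟨hm.1, hm.2.1⟩
    · unfold K8_h
      rw [if_neg]
      intro h3
      apply hm2
      rw [hS, mem_filter]
      exact ⟨(mem_filter.1 hm).1, (mem_filter.1 hm).2, h3⟩
  have hSm : ∀ m ∈ S, 1 ≤ m ∧ m ≤ z ∧ m = d * (m / d) ∧ d.Coprime (m / d) ∧ 0 < m / d := by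
    intro m hm
    rw [hS, mem_filter, mem_Icc] at hm
    obtain ⟨⟨h2, h3⟩, h4, h5⟩ := hm
    have h6 : m = d * (m / d) := (Nat.mul_div_cancel' h4).symm
    refine ⟨h2, h3, h6, ?_, Nat.div_pos (Nat.le_of_dvd h2 h4) hd1⟩
    rw [h6] at h5
    exact Nat.coprime_of_squarefree_mul h5
  have h2 : ∀ m ∈ S, (d : ℝ) * K8_h m = ∑ l ∈ d.divisors, K8_h (l * (m / d)) := by
    intro m hm
    obtain ⟨_, _, h3, h4, _⟩ := hSm m hm
    have h5 : K8_h m = K8_h d * K8_h (m / d) := by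
      conv_lhs => rw [h3]
      exact K8_h_mul h4
    rw [h5, ← mul_assoc, ← K8_sumdiv d hd hd1, sum_mul]
    refine sum_congr rfl fun l hl => ?_
    rw [K8_h_mul (h4.coprime_dvd_left (Nat.mem_divisors.1 hl).1)]
  rw [h1, mul_sum, sum_congr rfl h2, ← sum_product']
  have hinj : Set.InjOn (fun x : ℕ × ℕ => x.2 * (x.1 / d)) (S ×ˢ d.divisors : Finset (ℕ × ℕ)) := by
    rintro ⟨m, l⟩ ha ⟨m', l'⟩ hb hab
    rw [mem_coe, mem_product] at ha hb
    obtain ⟨_, _, h3, h4, h4'⟩ := hSm m ha.1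
    obtain ⟨_, _, h5, h6, _⟩ := hSm m' hb.1
    have hab' : l * (m / d) = l' * (m' / d) := hab
    have h7 : Nat.gcd (l * (m / d)) d = l := by
      rw [Nat.Coprime.gcd_mul_right_cancel l h4.symm]
      exact Nat.gcd_eq_left (Nat.mem_divisors.1 ha.2).1
    have h8 : Nat.gcd (l' * (m' / d)) d = l' := by
      rw [Nat.Coprime.gcd_mul_right_cancel l' h6.symm]
      exact Nat.gcd_eq_left (Nat.mem_divisors.1 hb.2).1
    have h9 : l = l' := by rw [← h7, ← h8, hab']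
    subst h9
    have h10 : m / d = m' / d := Nat.eq_of_mul_eq_mul_left (Nat.pos_of_mem_divisors ha.2) hab'
    have h11 : m = m' := by rw [h3, h5, h10]
    rw [h11]
  have h3 : ∑ x ∈ S ×ˢ d.divisors, K8_h (x.2 * (x.1 / d)) =
      ∑ n ∈ (S ×ˢ d.divisors).image (fun x => x.2 * (x.1 / d)), K8_h n := (sum_image hinj).symm
  rw [h3]
  refine sum_le_sum_of_subset_of_nonneg (fun n hn => ?_) fun n _ _ => K8_h_nonneg n
  obtain ⟨⟨m, l⟩, hx, rfl⟩ := mem_image.1 hn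
  rw [mem_product] at hx
  obtain ⟨_, h5, h6, _, h7⟩ := hSm m hx.1
  rw [mem_Icc]
  refine ⟨Nat.mul_pos (Nat.pos_of_mem_divisors hx.2) h7, ?_⟩
  refine le_trans (Nat.mul_le_mul_right _ (Nat.divisor_le hx.2)) ?_
  rw [← h6]
  exact h5

/-- Selberg's weights -/
private noncomputable def K8_rho (z d : ℕ) : ℝ :=
  (ArithmeticFunction.moebius d : ℝ) * d * (K8_G z)⁻¹ * ∑ m ∈ (Icc 1 z).filter (fun m => d ∣ m), K8_h m

/-- `ρ(d)/d` -/
private noncomputable def K8_a (z d : ℕ) : ℝ :=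
  (ArithmeticFunction.moebius d : ℝ) * (K8_G z)⁻¹ * ∑ m ∈ (Icc 1 z).filter (fun m => d ∣ m), K8_h m

private lemma K8_moebius_sq (d : ℕ) (hd : Squarefree d) : ((ArithmeticFunction.moebius d : ℤ) : ℝ) ^ 2 = 1 := by
  have h := ArithmeticFunction.moebius_sq_eq_one_of_squarefree hd
  have h1 := congrArg (Int.cast : ℤ → ℝ) h
  push_cast at h1
  exact h1

private lemma K8_rho_le (z d : ℕ) (hG : 0 < K8_G z) : |K8_rho z d| ≤ 1 := by
  by_cases hd : Squarefree d
  · have hd1 : 1 ≤ d := Nat.pos_of_ne_zero hd.ne_zero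
    have h1 : |((ArithmeticFunction.moebius d : ℤ) : ℝ)| = 1 := by
      rw [← sq_eq_sq₀ (abs_nonneg _) zero_le_one, sq_abs, one_pow]
      exact K8_moebius_sq d hd
    have h2 := K8_key z d hd hd1
    have h3 : K8_rho z d = (ArithmeticFunction.moebius d : ℝ) *
        ((K8_G z)⁻¹ * ((d : ℝ) * ∑ m ∈ (Icc 1 z).filter (fun m => d ∣ m), K8_h m)) := by
      unfold K8_rho
      ring
    have h4 : 0 ≤ (d : ℝ) * ∑ m ∈ (Icc 1 z).filter (fun m => d ∣ m), K8_h m :=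
      mul_nonneg (Nat.cast_nonneg d) (sum_nonneg fun m _ => K8_h_nonneg m)
    rw [h3, abs_mul, h1, one_mul, abs_of_nonneg (mul_nonneg (inv_nonneg.2 hG.le) h4)]
    calc (K8_G z)⁻¹ * ((d : ℝ) * ∑ m ∈ (Icc 1 z).filter (fun m => d ∣ m), K8_h m) ≤ (K8_G z)⁻¹ * K8_G z :=
          mul_le_mul_of_nonneg_left h2 (inv_nonneg.2 hG.le)
      _ = 1 := inv_mul_cancel₀ hG.ne'
  · have h1 : K8_rho z d = 0 := by
      unfold K8_rho
      rw [ArithmeticFunction.moebius_eq_zero_of_not_squarefree hd]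
      simp
    rw [h1, abs_zero]
    exact zero_le_one

private lemma K8_rho_supp (z d : ℕ) (h : K8_rho z d ≠ 0) : Squarefree d ∧ 1 ≤ d ∧ d ≤ z := by
  have hd : Squarefree d := by
    by_contra hd
    apply h
    unfold K8_rho
    rw [ArithmeticFunction.moebius_eq_zero_of_not_squarefree hd]
    simp
  refine ⟨hd, Nat.pos_of_ne_zero hd.ne_zero, ?_⟩
  by_contra hz
  apply h
  have h1 : (Icc 1 z).filter (fun m => d ∣ m) = ∅ := by
    rw [filter_eq_empty_iff]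
    intro m hm hdm
    rw [mem_Icc] at hm
    have := Nat.le_of_dvd hm.1 hdm
    omega
  unfold K8_rho
  rw [h1, sum_empty, mul_zero]

/-- the Moebius inversion -/
private lemma K8_A (z l : ℕ) (hl : l ∈ Icc 1 z) :
    ∑ d ∈ Icc 1 z, (if l ∣ d then K8_a z d else 0) =
      (K8_G z)⁻¹ * (K8_h l * (ArithmeticFunction.moebius l : ℝ)) := by
  classical
  have h1 : ∀ d ∈ Icc 1 z, (if l ∣ d then K8_a z d else 0) = ∑ m ∈ Icc 1 z, (K8_G z)⁻¹ * (K8_h m *
      (if d ∣ m then (if l ∣ d then (ArithmeticFunction.moebius d : ℝ) else 0) else 0)) := by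
    intro d _
    unfold K8_a
    rw [sum_filter]
    by_cases hd : l ∣ d
    · rw [if_pos hd, mul_sum]
      refine sum_congr rfl fun m _ => ?_
      rw [if_pos hd]
      by_cases hm : d ∣ m
      · rw [if_pos hm, if_pos hm]
        ring
      · rw [if_neg hm, if_neg hm]
        ring
    · rw [if_neg hd]
      symm
      refine sum_eq_zero fun m _ => ?_
      rw [if_neg hd, ite_self, mul_zero, mul_zero]
  rw [sum_congr rfl h1, sum_comm]
  have h2 : ∀ m ∈ Icc 1 z, ∑ d ∈ Icc 1 z, (K8_G z)⁻¹ * (K8_h m *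
      (if d ∣ m then (if l ∣ d then (ArithmeticFunction.moebius d : ℝ) else 0) else 0)) =
      if l = m then (K8_G z)⁻¹ * (K8_h m * (ArithmeticFunction.moebius l : ℝ)) else 0 := by
    intro m hm
    rw [mem_Icc] at hm
    rw [← mul_sum, ← mul_sum]
    by_cases hsq : Squarefree m
    · have h3 : ∑ d ∈ Icc 1 z, (if d ∣ m then (if l ∣ d then (ArithmeticFunction.moebius d : ℝ) else 0) else 0) =
          ∑ d ∈ m.divisors.filter (fun d => l ∣ d), ((ArithmeticFunction.moebius d : ℤ) : ℝ) := by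
        rw [← sum_filter, ← sum_filter, filter_filter]
        refine sum_congr ?_ fun _ _ => rfl
        ext d
        rw [mem_filter, mem_filter, mem_Icc, Nat.mem_divisors]
        constructor
        · rintro ⟨_, h4, h5⟩
          exact ⟨⟨h4, by omega⟩, h5⟩
        · rintro ⟨⟨h4, _⟩, h5⟩
          exact ⟨⟨Nat.pos_of_dvd_of_pos h4 hm.1, (Nat.le_of_dvd hm.1 h4).trans hm.2⟩, h4, h5⟩
      rw [h3, K8_mu m l hsq hm.1]
      by_cases hlm : l = m
      · rw [if_pos hlm, if_pos hlm]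
      · rw [if_neg hlm, if_neg hlm, mul_zero, mul_zero]
    · have h3 : K8_h m = 0 := by
        unfold K8_h
        rw [if_neg hsq]
      rw [h3, zero_mul, mul_zero]
      by_cases hlm : l = m
      · rw [if_pos hlm, zero_mul, mul_zero]
      · rw [if_neg hlm]
  rw [sum_congr rfl h2, sum_ite_eq (Icc 1 z) l, if_pos hl]

/-- the diagonal form -/
private lemma K8_form (z : ℕ) (hG : 0 < K8_G z) :
    ∑ d1 ∈ Icc 1 z, ∑ d2 ∈ Icc 1 z, K8_rho z d1 * K8_rho z d2 / (Nat.lcm d1 d2 : ℝ) = (K8_G z)⁻¹ := by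
  classical
  have h1 : ∀ d1 ∈ Icc 1 z, ∀ d2 ∈ Icc 1 z, K8_rho z d1 * K8_rho z d2 / (Nat.lcm d1 d2 : ℝ) =
      ∑ l ∈ Icc 1 z, (Nat.totient l : ℝ) * ((if l ∣ d1 then K8_a z d1 else 0) * (if l ∣ d2 then K8_a z d2 else 0)) := by
    intro d1 hd1 d2 hd2
    rw [mem_Icc] at hd1 hd2
    have e1 : K8_rho z d1 = d1 * K8_a z d1 := by
      unfold K8_rho K8_a
      ring
    have e2 : K8_rho z d2 = d2 * K8_a z d2 := by
      unfold K8_rho K8_a
      ring
    have hl0 : (Nat.lcm d1 d2 : ℝ) ≠ 0 := by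
      exact_mod_cast (Nat.lcm_pos hd1.1 hd2.1).ne'
    have hgl : (Nat.gcd d1 d2 : ℝ) * (Nat.lcm d1 d2 : ℝ) = d1 * d2 := by
      rw [← Nat.cast_mul, Nat.gcd_mul_lcm, Nat.cast_mul]
    have e3 : K8_rho z d1 * K8_rho z d2 / (Nat.lcm d1 d2 : ℝ) = (Nat.gcd d1 d2 : ℝ) * (K8_a z d1 * K8_a z d2) := by
      rw [e1, e2, div_eq_iff hl0]
      linear_combination (-(K8_a z d1 * K8_a z d2)) * hgl
    have e4 : (Nat.gcd d1 d2 : ℝ) = ∑ l ∈ (Icc 1 z).filter (fun l => l ∣ d1 ∧ l ∣ d2), (Nat.totient l : ℝ) := by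
      have h2 : (Icc 1 z).filter (fun l => l ∣ d1 ∧ l ∣ d2) = (Nat.gcd d1 d2).divisors := by
        ext l
        rw [mem_filter, mem_Icc, Nat.mem_divisors, Nat.dvd_gcd_iff]
        constructor
        · rintro ⟨_, h3⟩
          exact ⟨h3, (Nat.gcd_pos_of_pos_left _ hd1.1).ne'⟩
        · rintro ⟨h3, _⟩
          exact ⟨⟨Nat.pos_of_dvd_of_pos h3.1 hd1.1, (Nat.le_of_dvd hd1.1 h3.1).trans hd1.2⟩, h3⟩
      rw [h2]
      have h4 := congrArg (Nat.cast : ℕ → ℝ) (Nat.sum_totient (Nat.gcd d1 d2))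
      push_cast at h4
      exact h4.symm
    rw [e3, e4, sum_mul, sum_filter]
    refine sum_congr rfl fun l _ => ?_
    by_cases hl1 : l ∣ d1
    · by_cases hl2 : l ∣ d2
      · rw [if_pos ⟨hl1, hl2⟩, if_pos hl1, if_pos hl2]
      · rw [if_neg (fun h => hl2 h.2), if_neg hl2, mul_zero, mul_zero]
    · rw [if_neg (fun h => hl1 h.1), if_neg hl1, zero_mul, mul_zero]
  have h2 : ∑ d1 ∈ Icc 1 z, ∑ d2 ∈ Icc 1 z, K8_rho z d1 * K8_rho z d2 / (Nat.lcm d1 d2 : ℝ) =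
      ∑ l ∈ Icc 1 z, (Nat.totient l : ℝ) * (∑ d ∈ Icc 1 z, (if l ∣ d then K8_a z d else 0)) ^ 2 := by
    have h3 : ∑ d1 ∈ Icc 1 z, ∑ d2 ∈ Icc 1 z, K8_rho z d1 * K8_rho z d2 / (Nat.lcm d1 d2 : ℝ) =
        ∑ d1 ∈ Icc 1 z, ∑ l ∈ Icc 1 z, (Nat.totient l : ℝ) * ((if l ∣ d1 then K8_a z d1 else 0) *
          ∑ d2 ∈ Icc 1 z, (if l ∣ d2 then K8_a z d2 else 0)) := by
      refine sum_congr rfl fun d1 hd1 => ?_
      rw [sum_congr rfl (h1 d1 hd1), sum_comm]
      refine sum_congr rfl fun l _ => ?_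
      rw [← mul_sum, ← mul_sum]
    rw [h3, sum_comm]
    refine sum_congr rfl fun l _ => ?_
    rw [← mul_sum, ← sum_mul, sq]
  rw [h2]
  have h3 : ∀ l ∈ Icc 1 z, (Nat.totient l : ℝ) * (∑ d ∈ Icc 1 z, (if l ∣ d then K8_a z d else 0)) ^ 2 =
      (K8_G z)⁻¹ ^ 2 * K8_h l := by
    intro l hl
    rw [K8_A z l hl]
    by_cases hsq : Squarefree l
    · have h4 : (Nat.totient l : ℝ) ≠ 0 := by
        exact_mod_cast (Nat.totient_pos.2 (mem_Icc.1 hl).1).ne'
      have h5 : K8_h l = 1 / (Nat.totient l : ℝ) := by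
        unfold K8_h
        rw [if_pos hsq]
      have h6 : (Nat.totient l : ℝ) * K8_h l = 1 := by
        rw [h5]
        field_simp
      have h7 := K8_moebius_sq l hsq
      calc (Nat.totient l : ℝ) * ((K8_G z)⁻¹ * (K8_h l * (ArithmeticFunction.moebius l : ℝ))) ^ 2
          = (K8_G z)⁻¹ ^ 2 * K8_h l * ((Nat.totient l : ℝ) * K8_h l) * ((ArithmeticFunction.moebius l : ℤ) : ℝ) ^ 2 := by
            ring
        _ = (K8_G z)⁻¹ ^ 2 * K8_h l := by rw [h6, h7, mul_one, mul_one]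
    · have h5 : K8_h l = 0 := by
        unfold K8_h
        rw [if_neg hsq]
      rw [h5]
      ring
  rw [sum_congr rfl h3, ← mul_sum]
  show (K8_G z)⁻¹ ^ 2 * K8_G z = (K8_G z)⁻¹
  rw [sq, mul_assoc, inv_mul_cancel₀ hG.ne', mul_one]

theorem selberg (z : ℕ) (hz : 2 ≤ z) : ∃ ρ : ℕ → ℝ, ρ 1 = 1 ∧ (∀ d, |ρ d| ≤ 1) ∧
    (∀ d, ρ d ≠ 0 → Squarefree d ∧ 1 ≤ d ∧ d ≤ z) ∧
    ∑ d1 ∈ Icc 1 z, ∑ d2 ∈ Icc 1 z, ρ d1 * ρ d2 / (Nat.lcm d1 d2 : ℝ) ≤ 1 / Real.log z := by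
  have hlog : 0 < Real.log z := Real.log_pos (by exact_mod_cast (by omega : 1 < z))
  have hle := K8_log_le z (by omega)
  have hG : 0 < K8_G z := lt_of_lt_of_le hlog hle
  refine ⟨K8_rho z, ?_, fun d => K8_rho_le z d hG, fun d hd => K8_rho_supp z d hd, ?_⟩
  · unfold K8_rho
    have h1 : (Icc 1 z).filter (fun m => 1 ∣ m) = Icc 1 z := filter_true_of_mem fun m _ => one_dvd m
    rw [h1, ArithmeticFunction.moebius_apply_one, Int.cast_one, Nat.cast_one, one_mul, one_mul]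
    exact inv_mul_cancel₀ hG.ne'
  · rw [K8_form z hG, ← one_div]
    exact one_div_le_one_div_of_le hlog hle

end Pool.Agent.Lib.MP_5deb1d_nt
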