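import Mathlib
import Pool.Agent.Lib.MP_5deb1d_nt.K8

/-!
JOB K9. The upper bound sieve weights `λ(d) = ∑_{lcm(d1,d2) = d} ρ(d1) ρ(d2)`. PROOF: `|λ(d)| ≤ #{(d1,d2) : d1, d2 ∣ d} = τ(d)²`; `lcm(d1,d2) ≤ z²` is squarefree; `∑_{d ∣ n} λ(d) = (∑_{d ∣ n} ρ(d))² ≥ 0`, `= 1` if `n > z` is prime (only `d = 1` counts);
`∑ λ(d)/d = ∑∑ ρρ/lcm ≤ 1/log z`.
-/

set_option autoImplicit false

open Finset

namespace Pool.Agent.Lib.MP_5deb1d_nt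

theorem selberg_lam (z : ℕ) (hz : 2 ≤ z) : ∃ lam : ℕ → ℝ, (∀ d, |lam d| ≤ (d.divisors.card : ℝ) ^ 2) ∧
    (∀ d, lam d ≠ 0 → Squarefree d ∧ 1 ≤ d ∧ d ≤ z ^ 2) ∧
    (∀ n : ℕ, 1 ≤ n → 0 ≤ ∑ d ∈ (Icc 1 (z ^ 2)).filter (fun d => d ∣ n), lam d) ∧
    (∀ n : ℕ, n.Prime → z < n → 1 ≤ ∑ d ∈ (Icc 1 (z ^ 2)).filter (fun d => d ∣ n), lam d) ∧
    ∑ d ∈ Icc 1 (z ^ 2), lam d / d ≤ 1 / Real.log z := by
  classical
  obtain ⟨ρ, hρ1, hρle, hρsupp, hρsum⟩ := selberg z hz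
  set P : Finset (ℕ × ℕ) := Icc 1 z ×ˢ Icc 1 z with hP
  have hPm : ∀ p ∈ P, (1 ≤ p.1 ∧ p.1 ≤ z) ∧ 1 ≤ p.2 ∧ p.2 ≤ z := by
    intro p hp
    rw [hP, mem_product, mem_Icc, mem_Icc] at hp
    exact hp
  have hlpos : ∀ p ∈ P, 1 ≤ Nat.lcm p.1 p.2 := by
    intro p hp
    obtain ⟨⟨h1, _⟩, h2, _⟩ := hPm p hp
    exact Nat.lcm_pos h1 h2
  have hlle : ∀ p ∈ P, Nat.lcm p.1 p.2 ≤ z ^ 2 := by
    intro p hp
    obtain ⟨⟨h1, h1'⟩, h2, h2'⟩ := hPm p hp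
    calc Nat.lcm p.1 p.2 ≤ p.1 * p.2 := Nat.lcm_le_mul h1 h2
      _ ≤ z * z := Nat.mul_le_mul h1' h2'
      _ = z ^ 2 := by ring
  -- the sum over the multiples
  have hsq : ∀ n : ℕ, ∑ d ∈ (Icc 1 (z ^ 2)).filter (fun d => d ∣ n),
      ∑ p ∈ P.filter (fun p => Nat.lcm p.1 p.2 = d), ρ p.1 * ρ p.2 =
      (∑ d ∈ (Icc 1 z).filter (fun d => d ∣ n), ρ d) ^ 2 := by
    intro n
    have h1 : ∑ d ∈ (Icc 1 (z ^ 2)).filter (fun d => d ∣ n),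
        ∑ p ∈ (P.filter (fun p => Nat.lcm p.1 p.2 ∣ n)).filter (fun p => Nat.lcm p.1 p.2 = d), ρ p.1 * ρ p.2 =
        ∑ p ∈ P.filter (fun p => Nat.lcm p.1 p.2 ∣ n), ρ p.1 * ρ p.2 := by
      refine Finset.sum_fiberwise_of_maps_to (g := fun p : ℕ × ℕ => Nat.lcm p.1 p.2) (fun p hp => ?_) _
      rw [mem_filter] at hp
      rw [mem_filter, mem_Icc]
      exact ⟨⟨hlpos p hp.1, hlle p hp.1⟩, hp.2⟩
    have h2 : ∑ d ∈ (Icc 1 (z ^ 2)).filter (fun d => d ∣ n),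
        ∑ p ∈ P.filter (fun p => Nat.lcm p.1 p.2 = d), ρ p.1 * ρ p.2 =
        ∑ d ∈ (Icc 1 (z ^ 2)).filter (fun d => d ∣ n),
        ∑ p ∈ (P.filter (fun p => Nat.lcm p.1 p.2 ∣ n)).filter (fun p => Nat.lcm p.1 p.2 = d), ρ p.1 * ρ p.2 := by
      refine sum_congr rfl fun d hd => ?_
      rw [mem_filter] at hd
      refine sum_congr ?_ fun _ _ => rfl
      ext p
      simp only [mem_filter]
      constructor
      · rintro ⟨ha, hb⟩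
        exact ⟨⟨ha, hb ▸ hd.2⟩, hb⟩
      · rintro ⟨⟨ha, _⟩, hb⟩
        exact ⟨ha, hb⟩
    have h3 : P.filter (fun p => Nat.lcm p.1 p.2 ∣ n) =
        ((Icc 1 z).filter (fun d => d ∣ n)) ×ˢ ((Icc 1 z).filter (fun d => d ∣ n)) := by
      ext p
      rw [mem_filter, hP, mem_product, mem_product, mem_filter, mem_filter]
      constructor
      · rintro ⟨⟨ha, hb⟩, hc⟩
        exact ⟨⟨ha, (Nat.dvd_lcm_left _ _).trans hc⟩, hb, (Nat.dvd_lcm_right _ _).trans hc⟩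
      · rintro ⟨⟨ha, hb⟩, hc, hd⟩
        exact ⟨⟨ha, hc⟩, Nat.lcm_dvd hb hd⟩
    rw [h2, h1, h3, sum_product, sq, sum_mul_sum]
  refine ⟨fun d => ∑ p ∈ P.filter (fun p => Nat.lcm p.1 p.2 = d), ρ p.1 * ρ p.2, ?_, ?_, ?_, ?_, ?_⟩
  · intro d
    have h1 : |∑ p ∈ P.filter (fun p => Nat.lcm p.1 p.2 = d), ρ p.1 * ρ p.2| ≤
        ∑ p ∈ P.filter (fun p => Nat.lcm p.1 p.2 = d), (1 : ℝ) := by
      refine (abs_sum_le_sum_abs _ _).trans (sum_le_sum fun p _ => ?_)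
      rw [abs_mul]
      exact mul_le_one₀ (hρle _) (abs_nonneg _) (hρle _)
    have h2 : P.filter (fun p => Nat.lcm p.1 p.2 = d) ⊆ d.divisors ×ˢ d.divisors := by
      intro p hp
      rw [mem_filter] at hp
      have hd0 : d ≠ 0 := by
        have := hlpos p hp.1
        omega
      rw [mem_product, Nat.mem_divisors, Nat.mem_divisors]
      exact ⟨⟨hp.2 ▸ Nat.dvd_lcm_left _ _, hd0⟩, hp.2 ▸ Nat.dvd_lcm_right _ _, hd0⟩
    refine h1.trans ?_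
    rw [sum_const, nsmul_eq_mul, mul_one, sq, ← Nat.cast_mul, ← card_product]
    exact_mod_cast card_le_card h2
  · intro d hd
    obtain ⟨p, hp, hp0⟩ := exists_ne_zero_of_sum_ne_zero hd
    rw [mem_filter] at hp
    obtain ⟨h1, h2⟩ := mul_ne_zero_iff.1 hp0
    have hs1 := (hρsupp _ h1).1
    have hs2 := (hρsupp _ h2).1
    have hp1 : p.1 ≠ 0 := hs1.ne_zero
    have hp2 : p.2 ≠ 0 := hs2.ne_zero
    refine ⟨?_, hp.2 ▸ hlpos p hp.1, hp.2 ▸ hlle p hp.1⟩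
    rw [← hp.2, Nat.squarefree_iff_factorization_le_one (Nat.lcm_ne_zero hp1 hp2)]
    intro q
    rw [Nat.factorization_lcm hp1 hp2, Finsupp.sup_apply]
    exact sup_le ((Nat.squarefree_iff_factorization_le_one hp1).1 hs1 q)
      ((Nat.squarefree_iff_factorization_le_one hp2).1 hs2 q)
  · intro n _
    rw [hsq n]
    exact sq_nonneg _
  · intro n hn hzn
    rw [hsq n]
    have h1 : (Icc 1 z).filter (fun d => d ∣ n) = {1} := by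
      ext d
      rw [mem_filter, mem_Icc, mem_singleton]
      constructor
      · rintro ⟨⟨ha, hb⟩, hc⟩
        rcases (Nat.dvd_prime hn).1 hc with h | h
        · exact h
        · omega
      · rintro rfl
        exact ⟨⟨le_rfl, by omega⟩, one_dvd _⟩
    rw [h1, sum_singleton, hρ1]
    norm_num
  · have h1 : ∑ d ∈ Icc 1 (z ^ 2), (∑ p ∈ P.filter (fun p => Nat.lcm p.1 p.2 = d), ρ p.1 * ρ p.2) / (d : ℝ) =
        ∑ d ∈ Icc 1 (z ^ 2), ∑ p ∈ P.filter (fun p => Nat.lcm p.1 p.2 = d),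
          ρ p.1 * ρ p.2 / (Nat.lcm p.1 p.2 : ℝ) := by
      refine sum_congr rfl fun d _ => ?_
      rw [sum_div]
      refine sum_congr rfl fun p hp => ?_
      rw [mem_filter] at hp
      rw [hp.2]
    have h2 : ∑ d ∈ Icc 1 (z ^ 2), ∑ p ∈ P.filter (fun p => Nat.lcm p.1 p.2 = d),
          ρ p.1 * ρ p.2 / (Nat.lcm p.1 p.2 : ℝ) = ∑ p ∈ P, ρ p.1 * ρ p.2 / (Nat.lcm p.1 p.2 : ℝ) := by
      refine Finset.sum_fiberwise_of_maps_to (g := fun p : ℕ × ℕ => Nat.lcm p.1 p.2) (fun p hp => ?_) _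
      rw [mem_Icc]
      exact ⟨hlpos p hp, hlle p hp⟩
    rw [h1, h2, hP, sum_product]
    exact hρsum

end Pool.Agent.Lib.MP_5deb1d_nt
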