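import Mathlib
import Pool.Agent.Lib.MP_5deb1d_nt.K7
import Pool.Agent.Lib.MP_5deb1d_nt.K9
import Pool.Agent.Lib.MP_5deb1d_nt.K10

/-!
JOB K11. The block `K < k ≤ 2K`. PROOF. Let `ε1 > 0` be small in terms of `ε0`, `z = ⌊(K Q)^(1/4 - ε1)⌋`, `D = z²` (`D ≤ (2Q²)^(1/2 - 2ε1) ≤ Q` for large `Q`). With `selberg_lam z`: for `q ∈ PB Q`, `k ∈ Ioc K (2K)`: `d ∣ nn b k q ↔ cl b d (k q) = 1` (`k q ≥ 1`), a prime
`nn b k q` is `> z`, so `WW b q (Ioc K (2K)) ≤ ∑_k (1/k) ∑_{d ≤ D} λ(d) cl b d (k q)`. This is the main term plus the error of `bil_err`. Main term (`main_lam`): `≤ log 2/log z + C D^δ/K ≤ (4 + ε0) log 2/(log K + log Q)` for `Q` large, because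
`log z ≥ (1/4 - 2 ε1)(log K + log Q)` and `K ≥ Q^κ0`, `D ≤ Q`, `δ ≤ κ0/2`. So the sum over `q` of the positive part is at most the bound of `bil_err` with `V1 = ⌈Q^(κ0/4)⌉`:
`Q V1²/K ≤ 4 Q^(1 - κ0/2)`, `Q/V1 ≤ Q^(1 - κ0/4)`, `Q/√K ≤ Q^(1 - κ0/2)`, `D √(Q/K) ≤ (KQ)^(1/2 - 2ε1) √(Q/K) ≤ Q^(1 - 2ε1)`; `δ` small.
-/

set_option autoImplicit false

open Finset

namespace Pool.Agent.Lib.MP_5deb1d_nt

private lemma K11_pt {b : Bool} {k q z : ℕ} {lam : ℕ → ℝ} (h : z + 2 ≤ k * q)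
    (h1 : ∀ n : ℕ, 1 ≤ n → 0 ≤ ∑ d ∈ (Icc 1 (z ^ 2)).filter (fun d => d ∣ n), lam d)
    (h2 : ∀ n : ℕ, n.Prime → z < n → 1 ≤ ∑ d ∈ (Icc 1 (z ^ 2)).filter (fun d => d ∣ n), lam d) :
    (if (nn b k q).Prime then 1 / (k : ℝ) else 0) ≤
      (1 / (k : ℝ)) * ∑ d ∈ Icc 1 (z ^ 2), lam d * cl b d (k * q) := by
  have e : ∑ d ∈ Icc 1 (z ^ 2), lam d * cl b d (k * q) =
      ∑ d ∈ (Icc 1 (z ^ 2)).filter (fun d => d ∣ nn b k q), lam d := by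
    rw [sum_filter]
    refine sum_congr rfl fun d _ => ?_
    rw [cl_eq b d (k * q) (by omega)]
    have h3 : sh b (k * q) = nn b k q := rfl
    rw [h3, mul_ite, mul_one, mul_zero]
  have hn : z + 1 ≤ nn b k q := by
    cases b
    · show z + 1 ≤ k * q + 1
      omega
    · show z + 1 ≤ k * q - 1
      omega
  rw [e]
  have hk : 0 ≤ 1 / (k : ℝ) := by positivity
  split_ifs with hp
  · calc 1 / (k : ℝ) = 1 / (k : ℝ) * 1 := (mul_one _).symm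
      _ ≤ _ := mul_le_mul_of_nonneg_left (h2 _ hp (by omega)) hk
  · exact mul_nonneg hk (h1 _ (by omega))

private lemma K11_core {Q K z : ℕ} (hK : 1 ≤ K) (hz : z ≤ K * Q) (b : Bool) {lam : ℕ → ℝ} {T : ℝ}
    (h1 : ∀ n : ℕ, 1 ≤ n → 0 ≤ ∑ d ∈ (Icc 1 (z ^ 2)).filter (fun d => d ∣ n), lam d)
    (h2 : ∀ n : ℕ, n.Prime → z < n → 1 ≤ ∑ d ∈ (Icc 1 (z ^ 2)).filter (fun d => d ∣ n), lam d)
    (hM : ∑ d ∈ Icc 1 (z ^ 2), lam d * ∑ k ∈ (Ioc K (2 * K)).filter (fun k => k.Coprime d),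
      1 / ((k : ℝ) * (Nat.totient d : ℝ)) ≤ T) {q : ℕ} (hq : q ∈ PB Q) :
    max 0 (WW b q (Ioc K (2 * K)) - T) ≤
      |∑ k ∈ Ioc K (2 * K), (1 / (k : ℝ)) * ∑ d ∈ Icc 1 (z ^ 2), lam d * cl b d (k * q) -
        ∑ d ∈ Icc 1 (z ^ 2), lam d * ∑ k ∈ (Ioc K (2 * K)).filter (fun k => k.Coprime d),
          1 / ((k : ℝ) * (Nat.totient d : ℝ))| := by
  have hq2 : Q + 1 ≤ q := (mem_PB.1 hq).2.1
  have hW : WW b q (Ioc K (2 * K)) ≤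
      ∑ k ∈ Ioc K (2 * K), (1 / (k : ℝ)) * ∑ d ∈ Icc 1 (z ^ 2), lam d * cl b d (k * q) := by
    unfold WW
    refine sum_le_sum fun k hk => K11_pt ?_ h1 h2
    have hk1 : K + 1 ≤ k := (mem_Ioc.1 hk).1
    have h3 : (K + 1) * (Q + 1) ≤ k * q := Nat.mul_le_mul hk1 hq2
    have h4 : (K + 1) * (Q + 1) = K * Q + K + Q + 1 := by ring
    omega
  refine max_le (abs_nonneg _) ?_
  refine le_trans ?_ (le_abs_self _)
  linarith

private lemma K11_D {Q K : ℝ} (hQ : 1 ≤ Q) (hK : 1 ≤ K) {α β : ℝ} (hα : 2 * α = 1 / 2 - β) (hβ : 0 ≤ β) :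
    (K * Q) ^ (2 * α) * √(Q / K) ≤ Q ^ (1 - β) := by
  have hQ0 : 0 < Q := by linarith
  have hK0 : 0 < K := by linarith
  have hN : 0 < K * Q := by positivity
  have h1 : √(K * Q) * √(Q / K) = Q := by
    rw [← Real.sqrt_mul hN.le]
    have h2 : K * Q * (Q / K) = Q ^ 2 := by field_simp
    rw [h2, Real.sqrt_sq hQ0.le]
  have h3 : (K * Q) ^ (2 * α) * √(Q / K) = Q / (K * Q) ^ β := by
    rw [hα, Real.rpow_sub hN, ← Real.sqrt_eq_rpow, div_mul_eq_mul_div, h1]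
  rw [h3, Real.rpow_sub hQ0, Real.rpow_one]
  have h4 : Q ^ β ≤ (K * Q) ^ β := Real.rpow_le_rpow hQ0.le (by nlinarith) hβ
  have h5 : 0 < Q ^ β := Real.rpow_pos_of_pos hQ0 _
  exact div_le_div_of_nonneg_left hQ0.le h5 h4

/-- the parameters of the sieve for one `K` -/
private lemma K11_z {Q K : ℕ} {α : ℝ} (hQ : 1 ≤ Q) (hK : 1 ≤ K) (hK2 : K ≤ 2 * Q) (hα0 : 0 < α) (hα1 : 2 * α ≤ 1)
    (h2 : (2 : ℝ) ≤ (Q : ℝ) ^ α) (h3 : 2 * (Q : ℝ) ^ (4 * α) ≤ Q) :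
    ∃ z : ℕ, 2 ≤ z ∧ z ≤ K * Q ∧ z ^ 2 ≤ Q ∧ ((z ^ 2 : ℕ) : ℝ) ≤ ((K : ℝ) * Q) ^ (2 * α) ∧
      α * (Real.log K + Real.log Q) - Real.log 2 ≤ Real.log z := by
  have hQ1 : (1 : ℝ) ≤ Q := by exact_mod_cast hQ
  have hK1 : (1 : ℝ) ≤ K := by exact_mod_cast hK
  have hK3 : (K : ℝ) ≤ 2 * Q := by exact_mod_cast hK2
  have hN1 : (Q : ℝ) ≤ (K : ℝ) * Q := by nlinarith
  have hN0 : (0 : ℝ) < (K : ℝ) * Q := by linarith
  have hN2 : (K : ℝ) * Q ≤ 2 * (Q : ℝ) ^ 2 := by nlinarith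
  have hNα : (2 : ℝ) ≤ ((K : ℝ) * Q) ^ α := h2.trans (Real.rpow_le_rpow (by linarith) hN1 hα0.le)
  have hz1 : ((⌊((K : ℝ) * Q) ^ α⌋₊ : ℕ) : ℝ) ≤ ((K : ℝ) * Q) ^ α := Nat.floor_le (by positivity)
  have hz2 : ((K : ℝ) * Q) ^ α < ((⌊((K : ℝ) * Q) ^ α⌋₊ : ℕ) : ℝ) + 1 := Nat.lt_floor_add_one _
  obtain ⟨z, hz⟩ : ∃ z : ℕ, z = ⌊((K : ℝ) * Q) ^ α⌋₊ := ⟨_, rfl⟩
  rw [← hz] at hz1 hz2
  have hz3 : 2 ≤ z := by
    rw [hz]
    exact Nat.le_floor (by exact_mod_cast hNα)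
  have hz4 : ((z ^ 2 : ℕ) : ℝ) ≤ ((K : ℝ) * Q) ^ (2 * α) := by
    have h4 : ((K : ℝ) * Q) ^ (2 * α) = (((K : ℝ) * Q) ^ α) ^ 2 := by
      rw [mul_comm 2 α, Real.rpow_mul hN0.le]
      exact_mod_cast rfl
    rw [h4]
    push_cast
    exact pow_le_pow_left₀ (Nat.cast_nonneg z) hz1 2
  refine ⟨z, hz3, ?_, ?_, hz4, ?_⟩
  · have h4 : (z : ℝ) ≤ (K : ℝ) * Q := by
      refine hz1.trans ?_
      calc ((K : ℝ) * Q) ^ α ≤ ((K : ℝ) * Q) ^ (1 : ℝ) :=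
            Real.rpow_le_rpow_of_exponent_le (by linarith) (by linarith)
        _ = (K : ℝ) * Q := Real.rpow_one _
    exact_mod_cast h4
  · have h4 : ((z ^ 2 : ℕ) : ℝ) ≤ (Q : ℝ) := by
      refine hz4.trans (le_trans ?_ h3)
      calc ((K : ℝ) * Q) ^ (2 * α) ≤ (2 * (Q : ℝ) ^ 2) ^ (2 * α) :=
            Real.rpow_le_rpow hN0.le hN2 (by linarith)
        _ = 2 ^ (2 * α) * (Q : ℝ) ^ (4 * α) := by
            rw [Real.mul_rpow (by norm_num) (by positivity), ← Real.rpow_natCast (Q : ℝ) 2,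
              ← Real.rpow_mul (by linarith)]
            congr 2
            push_cast
            ring
        _ ≤ 2 * (Q : ℝ) ^ (4 * α) := by
            refine mul_le_mul_of_nonneg_right ?_ (by positivity)
            calc (2 : ℝ) ^ (2 * α) ≤ 2 ^ (1 : ℝ) := Real.rpow_le_rpow_of_exponent_le (by norm_num) hα1
              _ = 2 := Real.rpow_one _
    exact_mod_cast h4
  · have hz5 : (2 : ℝ) ≤ z := by exact_mod_cast hz3
    have h4 : ((K : ℝ) * Q) ^ α / 2 ≤ z := by linarith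
    have h5 := Real.log_le_log (by positivity) h4
    rw [Real.log_div (by positivity) (by norm_num), Real.log_rpow hN0,
      Real.log_mul (by linarith) (by linarith)] at h5
    exact h5

/-- the powers of `Q` in the error term -/
private lemma K11_err {Q K D κ ε1 η : ℝ} (hQ : 1 ≤ Q) (hκ : 0 < κ) (hκ1 : κ ≤ 1) (hK : Q ^ κ ≤ K)
    (hη1 : 4 * η ≤ κ / 4) (hη2 : 4 * η ≤ 2 * ε1) (hε1 : 0 < ε1) (hD : D ≤ (K * Q) ^ (2 * (1 / 4 - ε1))) :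
    Q * ((⌈Q ^ (κ / 4)⌉₊ : ℕ) : ℝ) ^ 2 / K + Q / ((⌈Q ^ (κ / 4)⌉₊ : ℕ) : ℝ) + √Q + Q / √K + D * √(Q / K) ≤
      8 * Q ^ (1 - 4 * η) := by
  have hQ0 : 0 < Q := by linarith
  have hQκ : 0 < Q ^ κ := Real.rpow_pos_of_pos hQ0 _
  have hQκ4 : 1 ≤ Q ^ (κ / 4) := Real.one_le_rpow hQ (by positivity)
  have hK1 : 1 ≤ K := (Real.one_le_rpow hQ hκ.le).trans hK
  have hV1 : Q ^ (κ / 4) ≤ ((⌈Q ^ (κ / 4)⌉₊ : ℕ) : ℝ) := Nat.le_ceil _
  have hV2 : ((⌈Q ^ (κ / 4)⌉₊ : ℕ) : ℝ) ≤ 2 * Q ^ (κ / 4) := by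
    have h1 := Nat.ceil_lt_add_one (a := Q ^ (κ / 4)) (by positivity)
    linarith
  obtain ⟨V, hV⟩ : ∃ V : ℝ, V = ((⌈Q ^ (κ / 4)⌉₊ : ℕ) : ℝ) := ⟨_, rfl⟩
  rw [← hV] at hV1 hV2 ⊢
  have hV0 : 0 < V := by linarith
  have mono : ∀ {x y : ℝ}, x ≤ y → Q ^ x ≤ Q ^ y := fun h => Real.rpow_le_rpow_of_exponent_le hQ h
  have a1 : Q * V ^ 2 / K ≤ 4 * Q ^ (1 - 4 * η) := by
    have h1 : V ^ 2 ≤ 4 * Q ^ (κ / 2) := by
      have h2 : Q ^ (κ / 2) = (Q ^ (κ / 4)) ^ 2 := by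
        rw [← Real.rpow_natCast (Q ^ (κ / 4)) 2, ← Real.rpow_mul hQ0.le]
        congr 1
        push_cast
        ring
      rw [h2]
      nlinarith
    calc Q * V ^ 2 / K ≤ Q * (4 * Q ^ (κ / 2)) / Q ^ κ := by gcongr
      _ = 4 * Q ^ (1 - κ / 2) := by
        have h2 : Q ^ (1 - κ / 2) = Q * Q ^ (κ / 2) / Q ^ κ := by
          rw [eq_div_iff hQκ.ne', ← Real.rpow_add hQ0]
          nth_rewrite 2 [← Real.rpow_one Q]
          rw [← Real.rpow_add hQ0]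
          congr 1
          ring
        rw [h2]
        ring
      _ ≤ 4 * Q ^ (1 - 4 * η) := by
        have h3 := mono (x := 1 - κ / 2) (y := 1 - 4 * η) (by linarith)
        linarith
  have a2 : Q / V ≤ Q ^ (1 - 4 * η) := by
    calc Q / V ≤ Q / Q ^ (κ / 4) := by gcongr
      _ = Q ^ (1 - κ / 4) := by rw [Real.rpow_sub hQ0, Real.rpow_one]
      _ ≤ Q ^ (1 - 4 * η) := mono (by linarith)
  have a3 : √Q ≤ Q ^ (1 - 4 * η) := by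
    rw [Real.sqrt_eq_rpow]
    exact mono (by linarith)
  have a4 : Q / √K ≤ Q ^ (1 - 4 * η) := by
    have h1 : Q ^ (κ / 2) ≤ √K := by
      rw [Real.le_sqrt (by positivity) (by linarith), ← Real.rpow_natCast (Q ^ (κ / 2)) 2, ← Real.rpow_mul hQ0.le]
      have h2 : κ / 2 * ((2 : ℕ) : ℝ) = κ := by
        push_cast
        ring
      rw [h2]
      exact hK
    have h3 : 0 < Q ^ (κ / 2) := Real.rpow_pos_of_pos hQ0 _
    calc Q / √K ≤ Q / Q ^ (κ / 2) := by gcongr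
      _ = Q ^ (1 - κ / 2) := by rw [Real.rpow_sub hQ0, Real.rpow_one]
      _ ≤ Q ^ (1 - 4 * η) := mono (by linarith)
  have a5 : D * √(Q / K) ≤ Q ^ (1 - 4 * η) := by
    calc D * √(Q / K) ≤ (K * Q) ^ (2 * (1 / 4 - ε1)) * √(Q / K) := by gcongr
      _ ≤ Q ^ (1 - 2 * ε1) := K11_D hQ hK1 (by ring) (by linarith)
      _ ≤ Q ^ (1 - 4 * η) := mono (by linarith)
  linarith

theorem blk_WW (ε0 κ0 : ℝ) (hε : 0 < ε0) (hκ : 0 < κ0) (hκ1 : κ0 ≤ 1) : ∃ η : ℝ, 0 < η ∧ ∃ Q0 : ℕ, ∀ Q : ℕ, Q0 ≤ Q → ∀ K : ℕ,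
    (Q : ℝ) ^ κ0 ≤ K → K ≤ 2 * Q → ∀ b : Bool,
    ∑ q ∈ PB Q, max 0 (WW b q (Ioc K (2 * K)) - (4 + ε0) * Real.log 2 / (Real.log K + Real.log Q)) ≤ (Q : ℝ) ^ (1 - η) := by
  obtain ⟨ε1, hε1, hε2, hε3⟩ : ∃ ε1 : ℝ, 0 < ε1 ∧ ε1 ≤ 1 / 16 ∧ ε1 * (4 + ε0 / 2) ≤ ε0 / 16 := by
    refine ⟨min (1 / 16) (ε0 / (16 * (4 + ε0 / 2))), lt_min (by norm_num) (by positivity), min_le_left _ _, ?_⟩
    calc min (1 / 16) (ε0 / (16 * (4 + ε0 / 2))) * (4 + ε0 / 2) ≤ ε0 / (16 * (4 + ε0 / 2)) * (4 + ε0 / 2) :=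
          mul_le_mul_of_nonneg_right (min_le_right _ _) (by positivity)
      _ = ε0 / 16 := by field_simp
  obtain ⟨η, hη, hη1, hη2⟩ : ∃ η : ℝ, 0 < η ∧ 4 * η ≤ κ0 / 4 ∧ 4 * η ≤ 2 * ε1 := by
    refine ⟨min (κ0 / 4) (2 * ε1) / 4, by positivity, ?_, ?_⟩
    · have h1 := min_le_left (κ0 / 4) (2 * ε1)
      linarith
    · have h1 := min_le_right (κ0 / 4) (2 * ε1)
      linarith
  obtain ⟨C1, hC1, hb⟩ := bil_err η hη
  obtain ⟨C2, hC2, hm⟩ := main_lam (κ0 / 2) (by positivity)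
  have hl2 : 0 < Real.log 2 := Real.log_pos (by norm_num)
  have hcast : Filter.Tendsto (fun Q : ℕ => (Q : ℝ)) Filter.atTop Filter.atTop := tendsto_natCast_atTop_atTop
  have e2 : ∀ᶠ Q : ℕ in Filter.atTop, (2 : ℝ) ≤ (Q : ℝ) ^ (1 / 4 - ε1) :=
    ((tendsto_rpow_atTop (by linarith)).comp hcast).eventually_ge_atTop 2
  have e3 : ∀ᶠ Q : ℕ in Filter.atTop, (2 : ℝ) ≤ (Q : ℝ) ^ (4 * ε1) :=
    ((tendsto_rpow_atTop (by linarith)).comp hcast).eventually_ge_atTop 2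
  have e4 : ∀ᶠ Q : ℕ in Filter.atTop, (4 + ε0 / 2) * Real.log 2 / (ε0 / 16) ≤ Real.log (Q : ℝ) :=
    (Real.tendsto_log_atTop.comp hcast).eventually_ge_atTop _
  have e5 : ∀ᶠ Q : ℕ in Filter.atTop,
      ‖Real.log (Q : ℝ)‖ ≤ (ε0 / 2 * Real.log 2 / (3 * C2)) * ‖(Q : ℝ) ^ (κ0 / 2)‖ :=
    hcast.eventually ((isLittleO_log_rpow_atTop (by positivity : (0 : ℝ) < κ0 / 2)).def (by positivity))
  have e6 : ∀ᶠ Q : ℕ in Filter.atTop, 8 * C1 ≤ (Q : ℝ) ^ (2 * η) :=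
    ((tendsto_rpow_atTop (by linarith)).comp hcast).eventually_ge_atTop _
  obtain ⟨Q0, hQ0⟩ := Filter.eventually_atTop.1
    ((Filter.eventually_ge_atTop 2).and (e2.and (e3.and (e4.and (e5.and e6)))))
  refine ⟨η, hη, Q0, fun Q hQ K hK1 hK2 b => ?_⟩
  obtain ⟨f1, f2, f3, f4, f5, f6⟩ := hQ0 Q hQ
  have hQ1 : (1 : ℝ) ≤ Q := by exact_mod_cast (by omega : 1 ≤ Q)
  have hQ2 : (2 : ℝ) ≤ Q := by exact_mod_cast f1
  have hQp : (0 : ℝ) < Q := by linarith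
  have hKr : (1 : ℝ) ≤ K := (Real.one_le_rpow hQ1 hκ.le).trans hK1
  have hKn : 1 ≤ K := by exact_mod_cast hKr
  have g3 : 2 * (Q : ℝ) ^ (4 * (1 / 4 - ε1)) ≤ Q := by
    have h1 : (Q : ℝ) ^ (4 * (1 / 4 - ε1)) * (Q : ℝ) ^ (4 * ε1) = Q := by
      rw [← Real.rpow_add hQp]
      have h2 : 4 * (1 / 4 - ε1) + 4 * ε1 = 1 := by ring
      rw [h2, Real.rpow_one]
    have h3 : 0 ≤ (Q : ℝ) ^ (4 * (1 / 4 - ε1)) := by positivity
    nlinarith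
  obtain ⟨z, z1, z2, z3, z4, z5⟩ := K11_z (by omega) hKn hK2 (by linarith : 0 < 1 / 4 - ε1) (by linarith) f2 g3
  obtain ⟨lam, l1, l2, l3, l4, l5⟩ := selberg_lam z z1
  have hL1 : Real.log Q ≤ Real.log K + Real.log Q := by
    have h1 := Real.log_nonneg hKr
    linarith
  have hLQ : 0 < Real.log (Q : ℝ) := Real.log_pos (by linarith)
  have hL : 0 < Real.log K + Real.log Q := by linarith
  have hL2 : Real.log K + Real.log Q ≤ 3 * Real.log Q := by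
    have h1 : (K : ℝ) ≤ (Q : ℝ) ^ 2 := by
      have h2 : (K : ℝ) ≤ 2 * Q := by exact_mod_cast hK2
      nlinarith
    have h3 := Real.log_le_log (by linarith) h1
    rw [Real.log_pow] at h3
    push_cast at h3
    linarith
  have hD1 : 1 ≤ z ^ 2 := Nat.one_le_pow _ _ (by omega)
  have hzr : (2 : ℝ) ≤ z := by exact_mod_cast z1
  have hzl : 0 < Real.log (z : ℝ) := Real.log_pos (by linarith)
  -- the main term
  have hT : ∑ d ∈ Icc 1 (z ^ 2), lam d * ∑ k ∈ (Ioc K (2 * K)).filter (fun k => k.Coprime d),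
      1 / ((k : ℝ) * (Nat.totient d : ℝ)) ≤ (4 + ε0) * Real.log 2 / (Real.log K + Real.log Q) := by
    have h1 := (abs_le.1 (hm K (z ^ 2) lam hKn hD1 l1)).2
    have h2 : C2 * ((z ^ 2 : ℕ) : ℝ) ^ (κ0 / 2) / K ≤ (ε0 / 2) * Real.log 2 / (Real.log K + Real.log Q) := by
      have h3 : ((z ^ 2 : ℕ) : ℝ) ^ (κ0 / 2) ≤ (Q : ℝ) ^ (κ0 / 2) :=
        Real.rpow_le_rpow (Nat.cast_nonneg _) (by exact_mod_cast z3) (by positivity)
      have h4 : (0 : ℝ) < (Q : ℝ) ^ (κ0 / 2) := Real.rpow_pos_of_pos hQp _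
      have h5 : (Q : ℝ) ^ κ0 = (Q : ℝ) ^ (κ0 / 2) * (Q : ℝ) ^ (κ0 / 2) := by
        rw [← Real.rpow_add hQp]
        congr 1
        ring
      rw [Real.norm_of_nonneg hLQ.le, Real.norm_of_nonneg h4.le] at f5
      have h6 : 3 * C2 * Real.log Q ≤ ε0 / 2 * Real.log 2 * (Q : ℝ) ^ (κ0 / 2) := by
        have h7 := mul_le_mul_of_nonneg_left f5 (by positivity : 0 ≤ 3 * C2)
        calc 3 * C2 * Real.log Q ≤ 3 * C2 * ((ε0 / 2 * Real.log 2 / (3 * C2)) * (Q : ℝ) ^ (κ0 / 2)) := h7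
          _ = _ := by field_simp
      calc C2 * ((z ^ 2 : ℕ) : ℝ) ^ (κ0 / 2) / K ≤ C2 * (Q : ℝ) ^ (κ0 / 2) / (Q : ℝ) ^ κ0 := by gcongr
        _ = C2 / (Q : ℝ) ^ (κ0 / 2) := by
          rw [h5]
          field_simp
        _ ≤ (ε0 / 2) * Real.log 2 / (Real.log K + Real.log Q) := by
          rw [div_le_div_iff₀ h4 hL]
          have h8 : C2 * (Real.log K + Real.log Q) ≤ C2 * (3 * Real.log Q) := mul_le_mul_of_nonneg_left hL2 hC2.le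
          linarith
    have h9 : Real.log 2 * ∑ d ∈ Icc 1 (z ^ 2), lam d / d ≤
        (4 + ε0 / 2) * Real.log 2 / (Real.log K + Real.log Q) := by
      have h10 : Real.log 2 * ∑ d ∈ Icc 1 (z ^ 2), lam d / d ≤ Real.log 2 * (1 / Real.log z) :=
        mul_le_mul_of_nonneg_left l5 hl2.le
      refine h10.trans ?_
      rw [mul_one_div, div_le_div_iff₀ hzl hL]
      have h11 : Real.log K + Real.log Q ≤ (4 + ε0 / 2) * Real.log z := by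
        have h12 := mul_le_mul_of_nonneg_left z5 (by positivity : 0 ≤ 4 + ε0 / 2)
        have h13 : (4 + ε0 / 2) * Real.log 2 ≤ ε0 / 16 * Real.log Q := by
          rw [div_le_iff₀ (by positivity)] at f4
          linarith
        have h14 : ε0 / 16 * Real.log Q ≤ ε0 / 16 * (Real.log K + Real.log Q) :=
          mul_le_mul_of_nonneg_left hL1 (by positivity)
        have h15 : ε1 * (4 + ε0 / 2) * (Real.log K + Real.log Q) ≤ ε0 / 16 * (Real.log K + Real.log Q) :=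
          mul_le_mul_of_nonneg_right hε3 hL.le
        nlinarith
      calc Real.log 2 * (Real.log K + Real.log Q) ≤ Real.log 2 * ((4 + ε0 / 2) * Real.log z) :=
            mul_le_mul_of_nonneg_left h11 hl2.le
        _ = _ := by ring
    have h16 : (4 + ε0) * Real.log 2 / (Real.log K + Real.log Q) =
        (4 + ε0 / 2) * Real.log 2 / (Real.log K + Real.log Q) + (ε0 / 2) * Real.log 2 / (Real.log K + Real.log Q) := by
      ring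
    rw [h16]
    linarith
  -- the error term
  have hV : 1 ≤ ⌈(Q : ℝ) ^ (κ0 / 4)⌉₊ := Nat.one_le_ceil_iff.2 (by positivity)
  refine (sum_le_sum fun q hq => K11_core hKn z2 b l3 l4 hT hq).trans ?_
  refine (hb b Q K (z ^ 2) ⌈(Q : ℝ) ^ (κ0 / 4)⌉₊ lam f1 hKn hK2 hD1 z3 hV l1 (fun d hd => (l2 d hd).1)).trans ?_
  have h1 := K11_err hQ1 hκ hκ1 hK1 hη1 hη2 hε1 z4
  have h2 : (0 : ℝ) < (Q : ℝ) ^ η := Real.rpow_pos_of_pos hQp _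
  calc _ ≤ C1 * (Q : ℝ) ^ η * (8 * (Q : ℝ) ^ (1 - 4 * η)) := mul_le_mul_of_nonneg_left h1 (by positivity)
    _ = 8 * C1 * (Q : ℝ) ^ (1 - 3 * η) := by
      have h3 : (Q : ℝ) ^ (1 - 3 * η) = (Q : ℝ) ^ η * (Q : ℝ) ^ (1 - 4 * η) := by
        rw [← Real.rpow_add hQp]
        congr 1
        ring
      rw [h3]
      ring
    _ ≤ (Q : ℝ) ^ (2 * η) * (Q : ℝ) ^ (1 - 3 * η) := mul_le_mul_of_nonneg_right f6 (by positivity)
    _ = (Q : ℝ) ^ (1 - η) := by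
      rw [← Real.rpow_add hQp]
      congr 1
      ring

end Pool.Agent.Lib.MP_5deb1d_nt
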