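import Mathlib
import Pool.Agent.Lib.MP_5deb1d_nt.K11
import Pool.Agent.Lib.MP_5deb1d_nt.CH

/-!
JOB K12. The sum over the dyadic blocks. PROOF. `Ioc K1 (2Q)` is covered by the `Ioc (K1 2^i) (K1 2^(i+1))`, `K1 2^i ≤ 2Q`, at most `2 log Q + 2` of them. Main terms: `∑_i log 2/(log K1 + i log 2 + log Q) ≤ log 2/log Q + log((log(2Q) + log Q)/(log K1 + log Q)) ≤ log 2 + o(1)`
(comparison with `∫ dt/t`; `log K1 ≥ 0`). So with `ε0` small the main terms are `≤ 4 log 2 + ε/2` for `Q` large, and if `WW > 4 log 2 + ε` the sum of the positive parts is `> ε/2`; by `blk_WW` and Markov the number of these `q` is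
`≤ (2/ε)(2 log Q + 2) Q^(1-η) ≤ ε Q/log Q` for large `Q`.
-/

set_option autoImplicit false

open Finset

namespace Pool.Agent.Lib.MP_5deb1d_nt

private lemma kK12_split (b : Bool) (q K1 : ℕ) : ∀ N : ℕ,
    WW b q (Ioc K1 (K1 * 2 ^ N)) = ∑ i ∈ range N, WW b q (Ioc (K1 * 2 ^ i) (2 * (K1 * 2 ^ i))) := by
  intro N
  induction N with
  | zero => simp [WW]
  | succ N ih =>
    rw [sum_range_succ, ← ih]
    unfold WW
    have e : K1 * 2 ^ (N + 1) = 2 * (K1 * 2 ^ N) := by ring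
    rw [e]
    symm
    apply Finset.sum_Ioc_consecutive
    · exact Nat.le_mul_of_pos_right _ (by positivity)
    · omega

private lemma kK12_mono (b : Bool) (q : ℕ) {S T : Finset ℕ} (h : S ⊆ T) : WW b q S ≤ WW b q T := by
  unfold WW
  refine sum_le_sum_of_subset_of_nonneg h fun k _ _ => ?_
  split_ifs
  · positivity
  · exact le_rfl

private lemma kK12_log (a : ℝ) (ha : 0 < a) : ∀ N : ℕ,
    ∑ i ∈ range (N + 1), Real.log 2 / (a + i * Real.log 2)
      ≤ Real.log 2 / a + (Real.log (a + N * Real.log 2) - Real.log a) := by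
  intro N
  have h2 : 0 < Real.log 2 := Real.log_pos (by norm_num)
  induction N with
  | zero => simp
  | succ N ih =>
    rw [sum_range_succ]
    have hy : 0 < a + (N : ℝ) * Real.log 2 := by positivity
    have hy' : 0 < a + ((N + 1 : ℕ) : ℝ) * Real.log 2 := by positivity
    have key : Real.log 2 / (a + ((N + 1 : ℕ) : ℝ) * Real.log 2)
        ≤ Real.log (a + ((N + 1 : ℕ) : ℝ) * Real.log 2) - Real.log (a + N * Real.log 2) := by
      rw [← Real.log_div hy'.ne' hy.ne']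
      have h3 := Real.one_sub_inv_le_log_of_pos (div_pos hy' hy)
      refine le_trans (le_of_eq ?_) h3
      rw [inv_div, eq_sub_iff_add_eq, ← add_div, div_eq_one_iff_eq hy'.ne']
      push_cast
      ring
    linarith

private lemma kK12_N (K1 Q : ℕ) (hK : 1 ≤ K1) : ∃ N : ℕ, 2 * Q ≤ K1 * 2 ^ N ∧ ∀ i < N, K1 * 2 ^ i ≤ 2 * Q := by
  classical
  have hex : ∃ n : ℕ, 2 * Q ≤ K1 * 2 ^ n := by
    refine ⟨2 * Q, le_trans (Nat.lt_two_pow_self).le ?_⟩
    exact Nat.le_mul_of_pos_left _ hK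
  refine ⟨Nat.find hex, Nat.find_spec hex, fun i hi => ?_⟩
  have := Nat.find_min hex hi
  omega

/-- the number of blocks and the main terms -/
private lemma kK12_main (K1 Q N : ℕ) (c : ℝ) (hc : 0 ≤ c) (hK : 1 ≤ K1) (hQ : 1 ≤ Real.log Q)
    (hN : ∀ i < N, K1 * 2 ^ i ≤ 2 * Q) :
    (N : ℝ) ≤ 4 * Real.log Q ∧
    ∑ i ∈ range N, c * Real.log 2 / (Real.log ((K1 * 2 ^ i : ℕ) : ℝ) + Real.log Q)
      ≤ c * (Real.log 2 + 3 / (2 * Real.log Q)) := by
  have h2 : 0 < Real.log 2 := Real.log_pos (by norm_num)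
  have h2' := Real.log_two_gt_d9
  have h2'' := Real.log_two_lt_d9
  have hK0 : (1 : ℝ) ≤ K1 := by exact_mod_cast hK
  have hlK : 0 ≤ Real.log K1 := Real.log_nonneg hK0
  have hQp : (0 : ℝ) < Q := by
    rcases Nat.eq_zero_or_pos Q with h | h
    · subst h
      simp at hQ
      linarith
    · exact_mod_cast h
  rcases N with _ | M
  · simp only [range_zero, sum_empty, Nat.cast_zero]
    refine ⟨by linarith, ?_⟩
    positivity
  · have hM := hN M (Nat.lt_succ_self M)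
    have hM' : (K1 : ℝ) * 2 ^ M ≤ 2 * Q := by exact_mod_cast hM
    have hlog : Real.log K1 + M * Real.log 2 ≤ Real.log 2 + Real.log Q := by
      rw [← Real.log_pow, ← Real.log_mul (by linarith) (by positivity), ← Real.log_mul (by norm_num) hQp.ne']
      exact Real.log_le_log (by positivity) hM'
    constructor
    · push_cast
      nlinarith
    · set a : ℝ := Real.log K1 + Real.log Q with ha
      have ha0 : Real.log Q ≤ a := by linarith
      have hap : 0 < a := by linarith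
      have h4 := kK12_log a hap M
      have e1 : ∑ i ∈ range (M + 1), c * Real.log 2 / (Real.log ((K1 * 2 ^ i : ℕ) : ℝ) + Real.log Q)
          = c * ∑ i ∈ range (M + 1), Real.log 2 / (a + i * Real.log 2) := by
        rw [mul_sum]
        refine sum_congr rfl fun i _ => ?_
        have e2 : Real.log ((K1 * 2 ^ i : ℕ) : ℝ) + Real.log Q = a + i * Real.log 2 := by
          push_cast
          rw [Real.log_mul (by linarith) (by positivity), Real.log_pow, ha]
          ring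
        rw [e2, mul_div_assoc]
      rw [e1]
      refine mul_le_mul_of_nonneg_left ?_ hc
      refine h4.trans ?_
      have h5 : Real.log 2 / a ≤ 1 / Real.log Q := by
        rw [div_le_div_iff₀ hap (by linarith)]
        nlinarith
      have h6 : Real.log (a + M * Real.log 2) - Real.log a ≤ Real.log 2 + 1 / (2 * Real.log Q) := by
        have hs : a + M * Real.log 2 ≤ 2 * Real.log Q + Real.log 2 := by linarith
        have hs0 : 0 < a + M * Real.log 2 := by positivity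
        have h7 : Real.log (a + M * Real.log 2) ≤ Real.log (2 * Real.log Q + Real.log 2) := Real.log_le_log hs0 hs
        have h8 : Real.log (Real.log Q) ≤ Real.log a := Real.log_le_log (by linarith) ha0
        have hL : 0 < Real.log Q := by linarith
        have e3 : 2 * Real.log Q + Real.log 2 = 2 * (Real.log Q * (1 + Real.log 2 / (2 * Real.log Q))) := by
          field_simp
        have hpos : 0 < 1 + Real.log 2 / (2 * Real.log Q) := by positivity
        have h9 : Real.log (2 * Real.log Q + Real.log 2)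
            = Real.log 2 + (Real.log (Real.log Q) + Real.log (1 + Real.log 2 / (2 * Real.log Q))) := by
          rw [e3, Real.log_mul (by norm_num) (by positivity), Real.log_mul hL.ne' hpos.ne']
        have h10 : Real.log (1 + Real.log 2 / (2 * Real.log Q)) ≤ Real.log 2 / (2 * Real.log Q) := by
          have := Real.log_le_sub_one_of_pos hpos
          linarith
        have h11 : Real.log 2 / (2 * Real.log Q) ≤ 1 / (2 * Real.log Q) := by
          apply div_le_div_of_nonneg_right (by linarith) (by positivity)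
        linarith
      have e4 : 3 / (2 * Real.log Q) = 1 / Real.log Q + 1 / (2 * Real.log Q) := by
        have hL : Real.log Q ≠ 0 := by linarith
        field_simp
        norm_num
      rw [e4]
      linarith

theorem mid_sum (ε κ0 : ℝ) (hε : 0 < ε) (hκ : 0 < κ0) (hκ1 : κ0 ≤ 1) : ∃ Q0 : ℕ, ∀ Q : ℕ, Q0 ≤ Q → ∀ K1 : ℕ,
    (Q : ℝ) ^ κ0 ≤ K1 → ∀ b : Bool,
    (((PB Q).filter (fun q => 4 * Real.log 2 + ε < WW b q (Ioc K1 (2 * Q)))).card : ℝ) ≤ ε * (Q / Real.log Q) := by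
  obtain ⟨η, hη, Q1, hQ1⟩ := blk_WW (ε / 4) κ0 (by positivity) hκ hκ1
  have hL : Filter.Tendsto (fun Q : ℕ => Real.log Q) Filter.atTop Filter.atTop :=
    Real.tendsto_log_atTop.comp tendsto_natCast_atTop_atTop
  have e1 : ∀ᶠ Q : ℕ in Filter.atTop, max 1 ((4 + ε / 4) * 6 / ε) ≤ Real.log Q :=
    hL.eventually_ge_atTop _
  have e2 : ∀ᶠ Q : ℕ in Filter.atTop, Real.log Q ^ (2 : ℝ) ≤ (ε ^ 2 / 8) * (Q : ℝ) ^ η := by
    have h0 := (isLittleO_log_rpow_rpow_atTop 2 hη).def (c := ε ^ 2 / 8) (by positivity)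
    have h1 := (tendsto_natCast_atTop_atTop (R := ℝ)).eventually h0
    filter_upwards [h1, e1] with Q h h'
    have hl : 1 ≤ Real.log Q := le_trans (le_max_left _ _) h'
    rwa [Real.norm_of_nonneg (by positivity), Real.norm_of_nonneg (by positivity)] at h
  obtain ⟨Q2, hQ2⟩ := Filter.eventually_atTop.1 (e1.and e2)
  refine ⟨max 1 (max Q1 Q2), fun Q hQ K1 hK1 b => ?_⟩
  have hQge1 : 1 ≤ Q := le_trans (le_max_left _ _) hQ
  have hQgeQ1 : Q1 ≤ Q := le_trans (le_trans (le_max_left _ _) (le_max_right _ _)) hQ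
  have hQgeQ2 : Q2 ≤ Q := le_trans (le_trans (le_max_right _ _) (le_max_right _ _)) hQ
  obtain ⟨hA, hB⟩ := hQ2 Q hQgeQ2
  have hl : 1 ≤ Real.log Q := le_trans (le_max_left _ _) hA
  have hl2 : (4 + ε / 4) * 6 / ε ≤ Real.log Q := le_trans (le_max_right _ _) hA
  have hQr : (1 : ℝ) ≤ Q := by exact_mod_cast hQge1
  have hK1' : (1 : ℝ) ≤ K1 := le_trans (Real.one_le_rpow hQr hκ.le) hK1
  have hK1n : 1 ≤ K1 := by exact_mod_cast hK1'
  obtain ⟨N, hN1, hN2⟩ := kK12_N K1 Q hK1n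
  obtain ⟨hN3, hN4⟩ := kK12_main K1 Q N (4 + ε / 4) (by positivity) hK1n hl hN2
  set M : ℕ → ℝ := fun i => (4 + ε / 4) * Real.log 2 / (Real.log ((K1 * 2 ^ i : ℕ) : ℝ) + Real.log Q) with hM
  -- the main terms
  have hmain : ∑ i ∈ range N, M i ≤ 4 * Real.log 2 + ε / 2 := by
    refine hN4.trans ?_
    have h2'' := Real.log_two_lt_d9
    have h2 : 0 < Real.log 2 := Real.log_pos (by norm_num)
    have h3 : (4 + ε / 4) * (3 / (2 * Real.log Q)) ≤ ε / 4 := by
      rw [div_le_iff₀ hε] at hl2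
      rw [mul_div_assoc', div_le_iff₀ (by positivity)]
      linarith
    nlinarith
  -- the exceptional primes
  set B := (PB Q).filter (fun q => 4 * Real.log 2 + ε < WW b q (Ioc K1 (2 * Q))) with hBdef
  have hlow : ∀ q ∈ B, ε / 2 ≤ ∑ i ∈ range N, max 0 (WW b q (Ioc (K1 * 2 ^ i) (2 * (K1 * 2 ^ i))) - M i) := by
    intro q hq
    have hq' := (mem_filter.1 hq).2
    have h1 : WW b q (Ioc K1 (2 * Q)) ≤ ∑ i ∈ range N, WW b q (Ioc (K1 * 2 ^ i) (2 * (K1 * 2 ^ i))) := by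
      rw [← kK12_split]
      exact kK12_mono b q (Ioc_subset_Ioc_right hN1)
    have h2 : ∑ i ∈ range N, (WW b q (Ioc (K1 * 2 ^ i) (2 * (K1 * 2 ^ i))) - M i)
        ≤ ∑ i ∈ range N, max 0 (WW b q (Ioc (K1 * 2 ^ i) (2 * (K1 * 2 ^ i))) - M i) :=
      sum_le_sum fun i _ => le_max_right _ _
    rw [sum_sub_distrib] at h2
    linarith
  have hup : ∀ i ∈ range N, ∑ q ∈ PB Q, max 0 (WW b q (Ioc (K1 * 2 ^ i) (2 * (K1 * 2 ^ i))) - M i)
      ≤ (Q : ℝ) ^ (1 - η) := by
    intro i hi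
    have h1 := hQ1 Q hQgeQ1 (K1 * 2 ^ i) ?_ (hN2 i (mem_range.1 hi)) b
    · exact h1
    · refine hK1.trans ?_
      have : K1 ≤ K1 * 2 ^ i := Nat.le_mul_of_pos_right _ (by positivity)
      exact_mod_cast this
  have hcard : (B.card : ℝ) * (ε / 2) ≤ N * (Q : ℝ) ^ (1 - η) := by
    calc (B.card : ℝ) * (ε / 2) = B.card • (ε / 2) := by rw [nsmul_eq_mul]
      _ ≤ ∑ q ∈ B, ∑ i ∈ range N, max 0 (WW b q (Ioc (K1 * 2 ^ i) (2 * (K1 * 2 ^ i))) - M i) :=
        Finset.card_nsmul_le_sum _ _ _ hlow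
      _ ≤ ∑ q ∈ PB Q, ∑ i ∈ range N, max 0 (WW b q (Ioc (K1 * 2 ^ i) (2 * (K1 * 2 ^ i))) - M i) :=
        sum_le_sum_of_subset_of_nonneg (filter_subset _ _)
          fun q _ _ => sum_nonneg fun i _ => le_max_left _ _
      _ = ∑ i ∈ range N, ∑ q ∈ PB Q, max 0 (WW b q (Ioc (K1 * 2 ^ i) (2 * (K1 * 2 ^ i))) - M i) :=
        sum_comm
      _ ≤ ∑ _i ∈ range N, (Q : ℝ) ^ (1 - η) := sum_le_sum hup
      _ = N * (Q : ℝ) ^ (1 - η) := by rw [sum_const, card_range, nsmul_eq_mul]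
  -- the end
  have hQpos : (0 : ℝ) < Q := by linarith
  have hpow : (Q : ℝ) ^ η * (Q : ℝ) ^ (1 - η) = Q := by
    rw [← Real.rpow_add hQpos]
    simp
  have hP : 0 < (Q : ℝ) ^ (1 - η) := Real.rpow_pos_of_pos hQpos _
  rw [Real.rpow_two] at hB
  have h5 : Real.log Q ^ 2 * (Q : ℝ) ^ (1 - η) ≤ ε ^ 2 / 8 * Q := by
    calc Real.log Q ^ 2 * (Q : ℝ) ^ (1 - η) ≤ (ε ^ 2 / 8) * (Q : ℝ) ^ η * (Q : ℝ) ^ (1 - η) :=
          mul_le_mul_of_nonneg_right hB hP.le
      _ = ε ^ 2 / 8 * Q := by rw [mul_assoc, hpow]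
  have h6 : (B.card : ℝ) * (ε / 2) ≤ 4 * Real.log Q * (Q : ℝ) ^ (1 - η) :=
    hcard.trans (mul_le_mul_of_nonneg_right hN3 hP.le)
  have hLp : 0 < Real.log Q := by linarith
  rw [mul_div_assoc', le_div_iff₀ hLp]
  have h7 : (B.card : ℝ) * (ε / 2) * Real.log Q ≤ ε / 2 * (ε * Q) := by
    calc (B.card : ℝ) * (ε / 2) * Real.log Q ≤ 4 * Real.log Q * (Q : ℝ) ^ (1 - η) * Real.log Q :=
          mul_le_mul_of_nonneg_right h6 hLp.le
      _ = 4 * (Real.log Q ^ 2 * (Q : ℝ) ^ (1 - η)) := by ring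
      _ ≤ 4 * (ε ^ 2 / 8 * Q) := by linarith
      _ = ε / 2 * (ε * Q) := by ring
  have h8 : ε / 2 * ((B.card : ℝ) * Real.log Q) ≤ ε / 2 * (ε * Q) := by
    calc ε / 2 * ((B.card : ℝ) * Real.log Q) = (B.card : ℝ) * (ε / 2) * Real.log Q := by ring
      _ ≤ _ := h7
  exact le_of_mul_le_mul_left h8 (by positivity)

end Pool.Agent.Lib.MP_5deb1d_nt
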