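import Mathlib
import Pool.Agent.Lib.MP_5deb1d_nt.K0
import Pool.Agent.Lib.MP_252578_ntA.Sv

/-!
JOB K13. The sieve for the pairs `q, k q ± 1` both prime. PROOF: as `sieve_pairs` in `Lib/MP_252578_ntA/Sv.lean` (`sieve2`, `fund 1`, `mert`). Sift `n ∈ (Q, 2Q]` by `p ∣ n (k n ± 1)`, `p ≤ z`, `z = ⌊Q^(1/(3K+3))⌋` or so; `g p = 2/p` for `p ∤ k` and `1/p` for `p ∣ k` (this is `gh k p` of `Prd.lean`
for even `k`, in particular `g 2 = 1/2`); for odd `k` and `q > 2` the number `k q ± 1` is even, so not prime (`> 2`). `#{n ∈ (Q,2Q] : ∏ T ∣ n (k n ± 1)} = Q ∏ g + O(2^|T|)`. The product: `prod_bound` in `Lib/MP_252578_ntA/Prd.lean` (with its `q` a prime `> z`, or `0`-free variant) and `mert`: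
`∏ (1 - g p) ≤ 8 (1/log z)² sg k`, `sg k = ∑_{d ∣ k} 1/d`. The primes `q ≤ z` do not occur (`q > Q`).
-/

set_option autoImplicit false

open Finset

namespace Pool.Agent.Lib.MP_5deb1d_nt

open Pool.Agent.Lib.MP_42948a_nt.OA (PP)
open Pool.Agent.Lib.MP_42948a_nt.TQ (Adm TT fund sieve2 card_TT)
open Pool.Agent.Lib.MP_252578_ntA (gh gq sg PZ prod_bound)

private theorem K13_base (Q M r : ℕ) (hM : 0 < M) :
    |((((Ioc Q (2 * Q)).filter (fun n => n ≡ r [MOD M])).card : ℕ) : ℝ) - (Q : ℝ) / M| ≤ 1 := by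
  have h1 := Nat.Ioc_filter_modEq_card Q (2 * Q) hM r
  have hMq : (0 : ℚ) < M := by exact_mod_cast hM
  have hmono : ⌊((Q : ℚ) - r) / (M : ℚ)⌋ ≤ ⌊(((2 * Q : ℕ) : ℚ) - r) / (M : ℚ)⌋ := by
    refine Int.floor_le_floor ?_
    have : (Q : ℚ) ≤ ((2 * Q : ℕ) : ℚ) := by exact_mod_cast (by omega : Q ≤ 2 * Q)
    gcongr
  rw [max_eq_left (sub_nonneg.2 hmono)] at h1
  have h2 : (((((Ioc Q (2 * Q)).filter (fun n => n ≡ r [MOD M])).card : ℤ) : ℚ)) =
      ((⌊(((2 * Q : ℕ) : ℚ) - r) / (M : ℚ)⌋ - ⌊((Q : ℚ) - r) / (M : ℚ)⌋ : ℤ) : ℚ) := by rw [h1]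
  have h3 := Int.floor_le ((((2 * Q : ℕ) : ℚ) - r) / (M : ℚ))
  have h4 := Int.lt_floor_add_one ((((2 * Q : ℕ) : ℚ) - r) / (M : ℚ))
  have h5 := Int.floor_le (((Q : ℚ) - r) / (M : ℚ))
  have h6 := Int.lt_floor_add_one (((Q : ℚ) - r) / (M : ℚ))
  have h7 : (((2 * Q : ℕ) : ℚ) - r) / (M : ℚ) - ((Q : ℚ) - r) / (M : ℚ) = Q / M := by
    rw [← sub_div]
    congr 1
    push_cast
    ring
  push_cast at h2
  have h8 : |((((Ioc Q (2 * Q)).filter (fun n => n ≡ r [MOD M])).card : ℚ)) - Q / M| ≤ 1 := by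
    rw [h2, ← h7, abs_le]
    push_cast at h3 h4 h5 h6 ⊢
    constructor <;> linarith
  have h9 : ((|((((Ioc Q (2 * Q)).filter (fun n => n ≡ r [MOD M])).card : ℚ)) - Q / M| : ℚ) : ℝ) ≤
      ((1 : ℚ) : ℝ) := by
    exact_mod_cast h8
  push_cast at h9
  exact h9

private theorem K13_c0 {p k : ℕ} (hp : p.Prime) (b : Bool) (hk : 0 < k) (hd : p ∣ k) (n : ℕ) (hn : 0 < n) :
    p ∣ n * nn b k n ↔ n ≡ 0 [MOD p] := by
  rw [hp.dvd_mul, Nat.modEq_zero_iff_dvd]
  constructor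
  · rintro (h | h)
    · exact h
    · exfalso
      have h1 : p ∣ k * n := Dvd.dvd.mul_right hd n
      have hkn : 0 < k * n := Nat.mul_pos hk hn
      cases b
      · have h0 : p ∣ k * n + 1 := h
        have h2 := (Nat.dvd_add_right h1).1 h0
        exact hp.one_lt.ne' (Nat.dvd_one.1 h2)
      · have h0 : p ∣ k * n - 1 := h
        have h3 : k * n - 1 + 1 = k * n := by omega
        rw [← h3] at h1
        have h2 := (Nat.dvd_add_right h0).1 h1
        exact hp.one_lt.ne' (Nat.dvd_one.1 h2)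
  · intro h
    exact Or.inl h

private theorem K13_c1 {p k : ℕ} (hp : p.Prime) (b : Bool) (hk : 0 < k) (hd : ¬ p ∣ k) :
    ∃ s : ℕ, ¬ s ≡ 0 [MOD p] ∧
      ∀ n : ℕ, 0 < n → (p ∣ n * nn b k n ↔ n ≡ 0 [MOD p] ∨ n ≡ s [MOD p]) := by
  haveI : Fact p.Prime := ⟨hp⟩
  have hk0 : (k : ZMod p) ≠ 0 := fun h => hd ((ZMod.natCast_eq_zero_iff _ _).1 h)
  obtain ⟨c, hc⟩ : ∃ c : ZMod p, c = (bif b then (k : ZMod p)⁻¹ else -(k : ZMod p)⁻¹) := ⟨_, rfl⟩
  have hc0 : c ≠ 0 := by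
    rw [hc]
    cases b
    · exact neg_ne_zero.2 (inv_ne_zero hk0)
    · exact inv_ne_zero hk0
  refine ⟨c.val, fun h => hc0 ?_, fun n hn => ?_⟩
  · have h1 := (ZMod.natCast_eq_natCast_iff _ _ p).2 h
    rw [ZMod.natCast_zmod_val] at h1
    rw [h1, Nat.cast_zero]
  · rw [hp.dvd_mul, Nat.modEq_zero_iff_dvd]
    have hkn : 1 ≤ k * n := Nat.mul_pos hk hn
    have key : p ∣ nn b k n ↔ n ≡ c.val [MOD p] := by
      rw [← ZMod.natCast_eq_natCast_iff, ZMod.natCast_zmod_val, ← ZMod.natCast_eq_zero_iff, hc]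
      cases b
      · change ((k * n + 1 : ℕ) : ZMod p) = 0 ↔ (n : ZMod p) = -(k : ZMod p)⁻¹
        push_cast
        constructor
        · intro h
          have h1 : (k : ZMod p) * n = -1 := eq_neg_of_add_eq_zero_left h
          calc (n : ZMod p) = (k : ZMod p)⁻¹ * ((k : ZMod p) * n) := by
                rw [← mul_assoc, inv_mul_cancel₀ hk0, one_mul]
            _ = -(k : ZMod p)⁻¹ := by rw [h1, mul_neg, mul_one]
        · intro h
          rw [h, mul_neg, mul_inv_cancel₀ hk0]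
          exact neg_add_cancel _
      · change ((k * n - 1 : ℕ) : ZMod p) = 0 ↔ (n : ZMod p) = (k : ZMod p)⁻¹
        rw [Nat.cast_sub hkn]
        push_cast
        constructor
        · intro h
          have h1 : (k : ZMod p) * n = 1 := sub_eq_zero.1 h
          calc (n : ZMod p) = (k : ZMod p)⁻¹ * ((k : ZMod p) * n) := by
                rw [← mul_assoc, inv_mul_cancel₀ hk0, one_mul]
            _ = (k : ZMod p)⁻¹ := by rw [h1, mul_one]
        · intro h
          rw [h, mul_inv_cancel₀ hk0]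
          exact sub_self _
    rw [key]

private theorem K13_crt {M p : ℕ} (hc : M.Coprime p) (r s : ℕ) :
    ∃ t : ℕ, ∀ n : ℕ, (n ≡ r [MOD M] ∧ n ≡ s [MOD p]) ↔ n ≡ t [MOD M * p] := by
  obtain ⟨t, ht1, ht2⟩ := Nat.chineseRemainder hc r s
  refine ⟨t, fun n => ⟨fun h => ?_, fun h => ?_⟩⟩
  · exact (Nat.modEq_and_modEq_iff_modEq_mul hc).1 ⟨h.1.trans ht1.symm, h.2.trans ht2.symm⟩
  · obtain ⟨h1, h2⟩ := (Nat.modEq_and_modEq_iff_modEq_mul hc).2 h
    exact ⟨h1.trans ht1, h2.trans ht2⟩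

/-- the `n` in `(Q, 2Q]` in the class `r` modulo `M` with `p ∣ n (k n ± 1)` for all `p ∈ T` -/
private def K13_cls (Q M r k : ℕ) (b : Bool) (T : Finset ℕ) : Finset ℕ :=
  (Ioc Q (2 * Q)).filter (fun n => n ≡ r [MOD M] ∧ ∀ p ∈ T, p ∣ n * nn b k n)

private theorem K13_card (Q k : ℕ) (hk : 0 < k) (b : Bool) (T : Finset ℕ) (hT : ∀ p ∈ T, p.Prime) (M r : ℕ)
    (hM : 0 < M) (hTM : ∀ p ∈ T, ¬ p ∣ M) :
    |((K13_cls Q M r k b T).card : ℝ) - (Q : ℝ) / M * ∏ p ∈ T, gh k p| ≤ 2 ^ T.card := by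
  classical
  induction T using Finset.induction_on generalizing M r with
  | empty =>
    rw [prod_empty, mul_one, card_empty, pow_zero]
    have h0 : K13_cls Q M r k b ∅ = (Ioc Q (2 * Q)).filter (fun n => n ≡ r [MOD M]) := by
      unfold K13_cls
      refine filter_congr fun n _ => ?_
      simp
    rw [h0]
    exact K13_base Q M r hM
  | insert p T hpT ih =>
    have hp : p.Prime := hT p (mem_insert_self _ _)
    have hT' : ∀ q ∈ T, q.Prime := fun q hq => hT q (mem_insert_of_mem hq)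
    have hcop : M.Coprime p := by
      rw [Nat.coprime_comm]
      exact (Nat.Prime.coprime_iff_not_dvd hp).2 (hTM p (mem_insert_self _ _))
    have hMp : 0 < M * p := Nat.mul_pos hM hp.pos
    have hTMp : ∀ q ∈ T, ¬ q ∣ M * p := by
      intro q hq hd
      rcases (hT' q hq).dvd_mul.1 hd with h1 | h1
      · exact hTM q (mem_insert_of_mem hq) h1
      · have h2 := (Nat.prime_dvd_prime_iff_eq (hT' q hq) hp).1 h1
        exact hpT (h2 ▸ hq)
    have hp0 : (p : ℝ) ≠ 0 := by exact_mod_cast hp.ne_zero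
    have hM0 : (M : ℝ) ≠ 0 := by exact_mod_cast hM.ne'
    rw [prod_insert hpT, card_insert_of_notMem hpT]
    by_cases hd : p ∣ k
    · obtain ⟨t, ht⟩ := K13_crt hcop r 0
      have e1 : K13_cls Q M r k b (insert p T) = K13_cls Q (M * p) t k b T := by
        unfold K13_cls
        refine filter_congr fun n hn => ?_
        have hn0 : 0 < n := by
          rw [mem_Ioc] at hn
          omega
        rw [forall_mem_insert, K13_c0 hp b hk hd n hn0, ← ht n]
        tauto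
      have e2 : (Q : ℝ) / M * (gh k p * ∏ q ∈ T, gh k q) = (Q : ℝ) / ((M * p : ℕ) : ℝ) * ∏ q ∈ T, gh k q := by
        rw [show gh k p = 1 / p by unfold gh; rw [if_pos hd]]
        push_cast
        field_simp
      rw [e1, e2]
      refine (ih hT' (M * p) t hMp hTMp).trans ?_
      rw [pow_succ]
      have : (0 : ℝ) < 2 ^ T.card := by positivity
      linarith
    · obtain ⟨s, hs0, hs⟩ := K13_c1 hp b hk hd
      obtain ⟨t, ht⟩ := K13_crt hcop r 0
      obtain ⟨t', ht'⟩ := K13_crt hcop r s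
      have e1 : K13_cls Q M r k b (insert p T) = K13_cls Q (M * p) t k b T ∪ K13_cls Q (M * p) t' k b T := by
        unfold K13_cls
        rw [← filter_or]
        refine filter_congr fun n hn => ?_
        have hn0 : 0 < n := by
          rw [mem_Ioc] at hn
          omega
        rw [forall_mem_insert, hs n hn0, ← ht n, ← ht' n]
        tauto
      have e3 : Disjoint (K13_cls Q (M * p) t k b T) (K13_cls Q (M * p) t' k b T) := by
        rw [disjoint_left]
        intro n h1 h2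
        unfold K13_cls at h1 h2
        rw [mem_filter, ← ht n] at h1
        rw [mem_filter, ← ht' n] at h2
        exact hs0 (h2.2.1.2.symm.trans h1.2.1.2)
      have e2 : (Q : ℝ) / M * (gh k p * ∏ q ∈ T, gh k q) =
          (Q : ℝ) / ((M * p : ℕ) : ℝ) * (∏ q ∈ T, gh k q) + (Q : ℝ) / ((M * p : ℕ) : ℝ) * ∏ q ∈ T, gh k q := by
        rw [show gh k p = 2 / p by unfold gh; rw [if_neg hd]]
        push_cast
        field_simp
        ring
      rw [e1, card_union_of_disjoint e3, e2]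
      push_cast
      have i1 := ih hT' (M * p) t hMp hTMp
      have i2 := ih hT' (M * p) t' hMp hTMp
      push_cast at i1 i2
      rw [abs_le] at i1 i2 ⊢
      rw [pow_succ]
      constructor <;> linarith [i1.1, i1.2, i2.1, i2.2]

private theorem K13_adm (z k : ℕ) (h2 : 2 ∣ k) : Adm z (gq 0 k) := by
  intro p hp
  have hpp : p.Prime := (mem_filter.1 hp).2
  have hp2 : (2 : ℝ) ≤ p := by exact_mod_cast hpp.two_le
  have hp0 : (0 : ℝ) < p := by linarith
  unfold gq gh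
  split_ifs with h3 h4
  · exact ⟨le_rfl, by norm_num, by positivity⟩
  · refine ⟨by positivity, ?_, ?_⟩
    · have : 1 / (p : ℝ) ≤ 1 / 2 := one_div_le_one_div_of_le (by norm_num) hp2
      linarith
    · exact div_le_div_of_nonneg_right (by norm_num) hp0.le
  · have hp3 : (3 : ℝ) ≤ p := by
      have h5 : p ≠ 2 := fun h6 => h4 (h6 ▸ h2)
      have h6 : 3 ≤ p := by
        have := hpp.two_le
        omega
      exact_mod_cast h6
    refine ⟨by positivity, ?_, le_rfl⟩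
    rw [div_le_div_iff₀ hp0 (by norm_num)]
    linarith

private theorem K13_nn_lt (b : Bool) (k : ℕ) (hk : 2 ≤ k) {x y : ℕ} (hx : 0 < x) (hxy : x < y) :
    x * nn b k x < y * nn b k y := by
  have h1 : k * x < k * y := Nat.mul_lt_mul_of_pos_left hxy (by omega)
  have h2 : 2 ≤ k * x := by
    calc 2 = 2 * 1 := rfl
      _ ≤ k * x := Nat.mul_le_mul hk hx
  have h3 : nn b k x < nn b k y := by
    cases b
    · change k * x + 1 < k * y + 1
      omega
    · change k * x - 1 < k * y - 1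
      omega
  exact Nat.mul_lt_mul'' hxy h3

private theorem K13_inj (b : Bool) (k : ℕ) (hk : 2 ≤ k) :
    Set.InjOn (fun n : ℕ => n * nn b k n) {n : ℕ | 0 < n} := by
  intro x hx y hy hxy
  have hxy' : x * nn b k x = y * nn b k y := hxy
  rw [Set.mem_setOf_eq] at hx hy
  rcases lt_trichotomy x y with h1 | h1 | h1
  · exfalso
    have h2 := K13_nn_lt b k hk hx h1
    omega
  · exact h1
  · exfalso
    have h2 := K13_nn_lt b k hk hy h1
    omega

private theorem K13_filter (Q k : ℕ) (hk : 2 ≤ k) (b : Bool) (P : ℕ → Prop) [DecidablePred P] :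
    (((Ioc Q (2 * Q)).image (fun n : ℕ => n * nn b k n)).filter P).card =
      ((Ioc Q (2 * Q)).filter (fun n => P (n * nn b k n))).card := by
  rw [filter_image]
  refine card_image_of_injOn fun x hx y hy hxy => ?_
  rw [coe_filter, Set.mem_setOf_eq, mem_Ioc] at hx hy
  exact K13_inj b k hk (by rw [Set.mem_setOf_eq]; omega) (by rw [Set.mem_setOf_eq]; omega) hxy

private theorem K13_err (z K Q k : ℕ) (hk : 2 ≤ k) (b : Bool) (T : Finset ℕ) (hT : T ∈ TT z K) :
    |∑ n ∈ ((Ioc Q (2 * Q)).image (fun n : ℕ => n * nn b k n)).filter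
        (fun n : ℕ => ∀ p ∈ T, p ∣ n), (1 : ℝ) - (Q : ℝ) * ∏ p ∈ T, gq 0 k p| ≤ (z : ℝ) ^ K := by
  unfold TT at hT
  rw [mem_filter, mem_powerset] at hT
  have hTp : ∀ p ∈ T, p.Prime := fun p hp => (mem_filter.1 (hT.1 hp)).2
  rw [sum_const, nsmul_eq_mul, mul_one, K13_filter Q k hk]
  have h1 : ∏ p ∈ T, gq 0 k p = ∏ p ∈ T, gh k p := by
    refine prod_congr rfl fun p hp => ?_
    unfold gq
    rw [if_neg (hTp p hp).ne_zero]
  have h2 : (Ioc Q (2 * Q)).filter (fun n => ∀ p ∈ T, p ∣ n * nn b k n) = K13_cls Q 1 0 k b T := by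
    unfold K13_cls
    refine filter_congr fun n _ => ?_
    constructor
    · intro h
      exact ⟨Nat.modEq_one, h⟩
    · intro h
      exact h.2
  rw [h1, h2]
  have h3 := K13_card Q k (by omega) b T hTp 1 0 one_pos
    (fun p hp hd => (hTp p hp).one_lt.ne' (Nat.dvd_one.1 hd))
  rw [Nat.cast_one, div_one] at h3
  refine h3.trans ?_
  have h4 : 2 ^ T.card ≤ ∏ p ∈ T, p := by
    rw [← prod_const]
    exact prod_le_prod' fun p hp => (hTp p hp).two_le
  have h5 : 2 ^ T.card ≤ z ^ K := h4.trans hT.2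
  exact_mod_cast h5

private theorem K13_sieve : ∃ K : ℕ, ∀ z : ℕ, 2 ≤ z → ∀ Q k : ℕ, z < Q → 2 ≤ k → 2 ∣ k → ∀ b : Bool,
    (((PB Q).filter (fun q => (nn b k q).Prime)).card : ℝ) ≤
      16 * (Q : ℝ) * (1 / Real.log z) ^ 2 * sg k + (z : ℝ) ^ (2 * K) := by
  classical
  obtain ⟨K, hK⟩ := fund 1 one_pos le_rfl
  refine ⟨K, fun z hz Q k hzQ hk h2 b => ?_⟩
  obtain ⟨u, l, hF⟩ := hK z hz
  obtain ⟨A, hA⟩ : ∃ A : Finset ℕ, A = (Ioc Q (2 * Q)).image (fun n : ℕ => n * nn b k n) := ⟨_, rfl⟩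
  have hX : (0 : ℝ) ≤ (Q : ℝ) := by positivity
  have hs := sieve2 hF A (fun _ => 1) (gq 0 k) (Q : ℝ) (fun _ => (z : ℝ) ^ K)
    (fun _ _ => zero_le_one) (K13_adm z k h2) hX
    (fun T hT => by rw [hA]; exact K13_err z K Q k hk b T hT)
  have hs1 := (abs_le.1 hs).2
  rw [sum_const, sum_const, nsmul_eq_mul, nsmul_eq_mul, mul_one, one_mul] at hs1
  have hcard : ((PB Q).filter (fun q => (nn b k q).Prime)).card ≤
      (A.filter (fun n : ℕ => ∀ p ∈ PP z, ¬ p ∣ n)).card := by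
    rw [hA, K13_filter Q k hk]
    refine card_le_card fun q hq => ?_
    rw [mem_filter, mem_PB] at hq
    obtain ⟨⟨hqp, hqQ, hq2⟩, hqn⟩ := hq
    rw [mem_filter, mem_Ioc]
    refine ⟨⟨hqQ, hq2⟩, fun p hp hd => ?_⟩
    unfold PP at hp
    rw [mem_filter, mem_Icc] at hp
    have hlt : z < nn b k q := by
      have h3 : 2 * q ≤ k * q := Nat.mul_le_mul_right q hk
      cases b
      · change z < k * q + 1
        omega
      · change z < k * q - 1
        omega
    rcases hp.2.dvd_mul.1 hd with h4 | h4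
    · have := (Nat.prime_dvd_prime_iff_eq hp.2 hqp).1 h4
      omega
    · have := (Nat.prime_dvd_prime_iff_eq hp.2 hqn).1 h4
      omega
  have hTT := card_TT z K
  have hzr : (2 : ℝ) ≤ z := by exact_mod_cast hz
  have hlog : 0 < Real.log z := Real.log_pos (by linarith)
  have hV := Pool.Agent.Lib.MP_d57abb_nt.KT.mert z hz
  have hV0 : 0 ≤ ∏ p ∈ PZ z, (1 - 1 / (p : ℝ)) := by
    refine prod_nonneg fun p hp => ?_
    have hp2 : (2 : ℝ) ≤ p := by exact_mod_cast (mem_filter.1 hp).2.two_le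
    have : 1 / (p : ℝ) ≤ 1 / 2 := one_div_le_one_div_of_le (by norm_num) hp2
    linarith
  have hsg : 0 ≤ sg k := by
    unfold sg
    positivity
  have hP : ∏ p ∈ PP z, (1 - gq 0 k p) ≤ 8 * (1 / Real.log z) ^ 2 * sg k := by
    refine (prod_bound 0 k z (by omega) (by omega)).trans ?_
    refine mul_le_mul_of_nonneg_right ?_ hsg
    refine mul_le_mul_of_nonneg_left ?_ (by norm_num)
    exact pow_le_pow_left₀ hV0 hV 2
  have hc : (((PB Q).filter (fun q => (nn b k q).Prime)).card : ℝ) ≤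
      ((A.filter (fun n : ℕ => ∀ p ∈ PP z, ¬ p ∣ n)).card : ℝ) := by
    exact_mod_cast hcard
  have hE : ((TT z K).card : ℝ) * (z : ℝ) ^ K ≤ (z : ℝ) ^ (2 * K) := by
    calc ((TT z K).card : ℝ) * (z : ℝ) ^ K ≤ (z : ℝ) ^ K * (z : ℝ) ^ K :=
          mul_le_mul_of_nonneg_right hTT (by positivity)
      _ = (z : ℝ) ^ (2 * K) := by rw [← pow_add]; congr 1; ring
  have hM : (Q : ℝ) * ∏ p ∈ PP z, (1 - gq 0 k p) ≤ (Q : ℝ) * (8 * (1 / Real.log z) ^ 2 * sg k) :=
    mul_le_mul_of_nonneg_left hP hX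
  have e1 : 16 * (Q : ℝ) * (1 / Real.log z) ^ 2 * sg k =
      (Q : ℝ) * (8 * (1 / Real.log z) ^ 2 * sg k) + (Q : ℝ) * (8 * (1 / Real.log z) ^ 2 * sg k) := by ring
  rw [e1]
  linarith

private theorem K13_sg (k : ℕ) (hk : 1 ≤ k) : (1 : ℝ) ≤ ∑ d ∈ k.divisors, 1 / (d : ℝ) := by
  have h1 : 1 ∈ k.divisors := Nat.mem_divisors.2 ⟨one_dvd _, by omega⟩
  have h2 := single_le_sum (f := fun d : ℕ => 1 / (d : ℝ)) (fun d _ => by positivity) h1
  simpa using h2

/-- the choice of the sifting level -/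
private theorem K13_level (N : ℕ) (hN : 1 ≤ N) (Q : ℕ) (hQ : 2 ^ (2 * N) ≤ Q) :
    ∃ z : ℕ, 2 ≤ z ∧ z ^ N ≤ Q ∧ Real.log Q ≤ 2 * N * Real.log z := by
  have hQ1 : 1 ≤ Q := Nat.one_le_two_pow.trans hQ
  have hex : ∃ z : ℕ, Q < (z + 1) ^ N := by
    refine ⟨Q, ?_⟩
    calc Q < Q + 1 := Nat.lt_succ_self Q
      _ = (Q + 1) ^ 1 := (pow_one _).symm
      _ ≤ (Q + 1) ^ N := Nat.pow_le_pow_right (by omega) hN
  classical
  obtain ⟨z, hzdef⟩ : ∃ z : ℕ, z = Nat.find hex := ⟨_, rfl⟩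
  have hz1 : Q < (z + 1) ^ N := by
    rw [hzdef]
    exact Nat.find_spec hex
  have hz2 : 2 ≤ z := by
    by_contra hcon
    have h3 : z + 1 ≤ 2 := by omega
    have h4 : (z + 1) ^ N ≤ 2 ^ N := Nat.pow_le_pow_left h3 N
    have h5 : 2 ^ N ≤ 2 ^ (2 * N) := Nat.pow_le_pow_right (by norm_num) (by omega)
    omega
  refine ⟨z, hz2, ?_, ?_⟩
  · have h3 := Nat.find_min hex (m := z - 1) (by omega)
    have h4 : z - 1 + 1 = z := by omega
    rw [h4] at h3
    omega
  · have hzr : (2 : ℝ) ≤ z := by exact_mod_cast hz2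
    have hQr : (0 : ℝ) < Q := by exact_mod_cast hQ1
    have h3 : (Q : ℝ) ≤ (z : ℝ) ^ (2 * N) := by
      have h4 : Q ≤ (z ^ 2) ^ N := by
        refine hz1.le.trans (Nat.pow_le_pow_left ?_ N)
        nlinarith
      rw [pow_mul]
      exact_mod_cast h4
    calc Real.log Q ≤ Real.log ((z : ℝ) ^ (2 * N)) := Real.log_le_log hQr h3
      _ = 2 * N * Real.log z := by
          rw [Real.log_pow]
          push_cast
          ring

private theorem K13_log (Q : ℕ) (hQ : 1 ≤ Q) : (Real.log Q) ^ 2 ≤ 16 * Real.sqrt Q := by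
  have hQr : (0 : ℝ) ≤ (Q : ℝ) := by positivity
  have hQ1 : (1 : ℝ) ≤ Q := by exact_mod_cast hQ
  have h1 := Real.log_le_rpow_div hQr (show (0 : ℝ) < 1 / 4 by norm_num)
  have h0 : 0 ≤ Real.log Q := Real.log_nonneg hQ1
  have h2 : Real.log Q ≤ 4 * (Q : ℝ) ^ (1 / 4 : ℝ) := by
    calc Real.log Q ≤ (Q : ℝ) ^ (1 / 4 : ℝ) / (1 / 4) := h1
      _ = 4 * (Q : ℝ) ^ (1 / 4 : ℝ) := by ring
  have h3 : ((Q : ℝ) ^ (1 / 4 : ℝ)) ^ 2 = Real.sqrt Q := by
    rw [← Real.rpow_natCast, ← Real.rpow_mul hQr, Real.sqrt_eq_rpow]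
    norm_num
  calc (Real.log Q) ^ 2 ≤ (4 * (Q : ℝ) ^ (1 / 4 : ℝ)) ^ 2 := pow_le_pow_left₀ h0 h2 2
    _ = 16 * ((Q : ℝ) ^ (1 / 4 : ℝ)) ^ 2 := by ring
    _ = 16 * Real.sqrt Q := by rw [h3]


theorem pair_sieve : ∃ C : ℝ, 0 < C ∧ ∃ Q0 : ℕ, ∀ Q : ℕ, Q0 ≤ Q → ∀ k : ℕ, 1 ≤ k → k ≤ Q → ∀ b : Bool,
    (((PB Q).filter (fun q => (nn b k q).Prime)).card : ℝ) ≤
      C * (∑ d ∈ k.divisors, 1 / (d : ℝ)) * (Q / (Real.log Q) ^ 2) := by
  obtain ⟨K, hK⟩ := K13_sieve
  obtain ⟨N, hNdef⟩ : ∃ N : ℕ, N = 4 * (K + 1) := ⟨_, rfl⟩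
  have hN : 1 ≤ N := by omega
  have hN0 : (0 : ℝ) < N := by exact_mod_cast hN
  refine ⟨64 * (N : ℝ) ^ 2 + 16, by positivity, 2 ^ (2 * N), fun Q hQ k hk _ b => ?_⟩
  have hQ4 : 4 ≤ Q := by
    have h1 : 2 ^ 2 ≤ 2 ^ (2 * N) := Nat.pow_le_pow_right (by norm_num) (by omega)
    omega
  have hQr : (4 : ℝ) ≤ Q := by exact_mod_cast hQ4
  have hlQ : 0 < Real.log Q := Real.log_pos (by linarith)
  have hsg := K13_sg k hk
  by_cases h2 : 2 ∣ k
  · obtain ⟨z, hz2, hzQ, hzl⟩ := K13_level N hN Q hQ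
    have hzr : (2 : ℝ) ≤ z := by exact_mod_cast hz2
    have hlz : 0 < Real.log z := Real.log_pos (by linarith)
    have hzlt : z < Q := by
      have h1 : z ^ 2 ≤ z ^ N := Nat.pow_le_pow_right (by omega) (by omega)
      nlinarith
    have hk2 : 2 ≤ k := Nat.le_of_dvd hk h2
    have hmain := hK z hz2 Q k hzlt hk2 h2 b
    -- the error
    have hsq : (z : ℝ) ^ (2 * K) ≤ Real.sqrt Q := by
      refine Real.le_sqrt_of_sq_le ?_
      rw [← pow_mul]
      have h3 : z ^ (2 * K * 2) ≤ z ^ N := Nat.pow_le_pow_right (by omega) (by omega)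
      exact_mod_cast h3.trans hzQ
    have hlog := K13_log Q (by omega)
    have herr : (z : ℝ) ^ (2 * K) ≤ 16 * (Q / (Real.log Q) ^ 2) := by
      refine hsq.trans ?_
      rw [← mul_div_assoc, le_div_iff₀ (by positivity)]
      calc Real.sqrt Q * (Real.log Q) ^ 2 ≤ Real.sqrt Q * (16 * Real.sqrt Q) :=
            mul_le_mul_of_nonneg_left hlog (Real.sqrt_nonneg _)
        _ = 16 * (Real.sqrt Q * Real.sqrt Q) := by ring
        _ = 16 * Q := by rw [Real.mul_self_sqrt (by linarith)]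
    have hX0 : 0 ≤ (Q : ℝ) / (Real.log Q) ^ 2 := by positivity
    -- the main term
    have h4 : 1 / Real.log z ≤ 2 * N / Real.log Q := by
      rw [div_le_div_iff₀ hlz hlQ]
      linarith
    have h5 : (1 / Real.log z) ^ 2 ≤ (2 * N / Real.log Q) ^ 2 :=
      pow_le_pow_left₀ (by positivity) h4 2
    have h6 : 16 * (Q : ℝ) * (1 / Real.log z) ^ 2 * sg k ≤
        64 * (N : ℝ) ^ 2 * (∑ d ∈ k.divisors, 1 / (d : ℝ)) * (Q / (Real.log Q) ^ 2) := by
      have h7 : 0 ≤ sg k := by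
        unfold sg
        positivity
      calc 16 * (Q : ℝ) * (1 / Real.log z) ^ 2 * sg k ≤ 16 * (Q : ℝ) * (2 * N / Real.log Q) ^ 2 * sg k := by
            refine mul_le_mul_of_nonneg_right ?_ h7
            exact mul_le_mul_of_nonneg_left h5 (by positivity)
        _ = 64 * (N : ℝ) ^ 2 * sg k * (Q / (Real.log Q) ^ 2) := by
            rw [div_pow]
            ring
    have h8 : 16 * (Q / (Real.log Q) ^ 2) ≤
        16 * (∑ d ∈ k.divisors, 1 / (d : ℝ)) * (Q / (Real.log Q) ^ 2) := by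
      refine mul_le_mul_of_nonneg_right ?_ hX0
      linarith
    calc (((PB Q).filter (fun q => (nn b k q).Prime)).card : ℝ)
        ≤ 16 * (Q : ℝ) * (1 / Real.log z) ^ 2 * sg k + (z : ℝ) ^ (2 * K) := hmain
      _ ≤ 64 * (N : ℝ) ^ 2 * (∑ d ∈ k.divisors, 1 / (d : ℝ)) * (Q / (Real.log Q) ^ 2) +
          16 * (∑ d ∈ k.divisors, 1 / (d : ℝ)) * (Q / (Real.log Q) ^ 2) :=
            add_le_add h6 (herr.trans h8)
      _ = (64 * (N : ℝ) ^ 2 + 16) * (∑ d ∈ k.divisors, 1 / (d : ℝ)) * (Q / (Real.log Q) ^ 2) := by ring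
  · have h0 : (PB Q).filter (fun q => (nn b k q).Prime) = ∅ := by
      rw [filter_eq_empty_iff]
      intro q hq hqn
      rw [mem_PB] at hq
      obtain ⟨hqp, hqQ, _⟩ := hq
      have hodd : ¬ 2 ∣ k * q := by
        intro h3
        rcases Nat.prime_two.dvd_mul.1 h3 with h4 | h4
        · exact h2 h4
        · have := (Nat.prime_dvd_prime_iff_eq Nat.prime_two hqp).1 h4
          omega
      have hge : q ≤ k * q := Nat.le_mul_of_pos_left q hk
      have hev : 2 ∣ nn b k q := by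
        cases b
        · change 2 ∣ k * q + 1
          omega
        · change 2 ∣ k * q - 1
          omega
      have hgt : 2 < nn b k q := by
        cases b
        · change 2 < k * q + 1
          omega
        · change 2 < k * q - 1
          omega
      have := (Nat.prime_dvd_prime_iff_eq Nat.prime_two hqn).1 hev
      omega
    rw [h0, card_empty, Nat.cast_zero]
    positivity

end Pool.Agent.Lib.MP_5deb1d_nt
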