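import Mathlib
import Pool.Agent.Lib.MP_5deb1d_nt.K13

/-!
JOB K15. The small `k` on average. PROOF: exchange: `∑_{q ∈ PB Q} WW b q (Ioc 0 K) = ∑_{k ≤ K} (1/k) #{q ∈ PB Q : nn b k q prime} ≤ C Q/(log Q)² ∑_{k ≤ K} (1/k) ∑_{d ∣ k} 1/d` (`K ≤ Q^κ ≤ Q`), and
`∑_{k ≤ K} (1/k) ∑_{d ∣ k} 1/d = ∑_d (1/d²) ∑_{j ≤ K/d} 1/j ≤ 2 (1 + log K) ≤ 2 (1 + κ log Q)`; for `Q` large `1 ≤ κ log Q`.
-/

set_option autoImplicit false

open Finset

namespace Pool.Agent.Lib.MP_5deb1d_nt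

private lemma K15_sq (K : ℕ) : ∑ d ∈ Ioc 0 K, 1 / (d : ℝ) ^ 2 ≤ 2 := by
  have h : ∑ d ∈ Ioc 0 K, 1 / (d : ℝ) ^ 2 ≤ 2 - 2 / ((K : ℝ) + 1) := by
    induction K with
    | zero => simp
    | succ n ih =>
      rw [← Finset.insert_Ioc_right_eq_Ioc_add_one (Nat.zero_le n), Finset.sum_insert (by simp)]
      have hn : (0 : ℝ) ≤ n := Nat.cast_nonneg n
      have h1 : 1 / ((n : ℝ) + 1) ^ 2 ≤ 2 / ((n : ℝ) + 1) - 2 / ((n : ℝ) + 1 + 1) := by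
        rw [div_sub_div _ _ (by positivity) (by positivity), div_le_div_iff₀ (by positivity) (by positivity)]
        nlinarith [mul_nonneg hn hn, mul_nonneg (mul_nonneg hn hn) hn]
      push_cast
      linarith
  have h2 : 0 ≤ 2 / ((K : ℝ) + 1) := by positivity
  linarith

private lemma K15_harm (K : ℕ) : ∑ j ∈ Ioc 0 K, 1 / (j : ℝ) ≤ 1 + Real.log K := by
  have h := harmonic_le_one_add_log K
  rw [harmonic_eq_sum_Icc] at h
  push_cast at h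
  have h1 : Ioc 0 K = Icc 1 K := by
    ext x
    simp only [mem_Ioc, mem_Icc]
    omega
  rw [h1]
  simpa only [one_div] using h

private lemma K15_mult (K d : ℕ) (hd : 0 < d) :
    ∑ k ∈ (Ioc 0 K).filter (fun k => d ∣ k), 1 / (k : ℝ) ≤ 1 / (d : ℝ) * ∑ j ∈ Ioc 0 K, 1 / (j : ℝ) := by
  rw [Finset.mul_sum]
  have hinj : Set.InjOn (fun k => k / d) ((Ioc 0 K).filter (fun k => d ∣ k) : Finset ℕ) := by
    intro x hx y hy hxy
    rw [Finset.mem_coe, mem_filter] at hx hy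
    simp only at hxy
    rw [← Nat.div_mul_cancel hx.2, hxy, Nat.div_mul_cancel hy.2]
  have h1 : ∑ k ∈ (Ioc 0 K).filter (fun k => d ∣ k), 1 / (k : ℝ) =
      ∑ j ∈ ((Ioc 0 K).filter (fun k => d ∣ k)).image (fun k => k / d), 1 / (d : ℝ) * (1 / (j : ℝ)) := by
    rw [Finset.sum_image hinj]
    refine Finset.sum_congr rfl fun k hk => ?_
    rw [mem_filter] at hk
    obtain ⟨j, rfl⟩ := hk.2
    rw [Nat.mul_div_cancel_left j hd, Nat.cast_mul, one_div_mul_one_div]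
  rw [h1]
  refine Finset.sum_le_sum_of_subset_of_nonneg ?_ fun j _ _ => by positivity
  intro j hj
  rw [mem_image] at hj
  obtain ⟨k, hk, rfl⟩ := hj
  rw [mem_filter, mem_Ioc] at hk
  rw [mem_Ioc]
  exact ⟨Nat.div_pos (Nat.le_of_dvd hk.1.1 hk.2) hd, (Nat.div_le_self k d).trans hk.1.2⟩

private lemma K15_sum (K : ℕ) :
    ∑ k ∈ Ioc 0 K, 1 / (k : ℝ) * ∑ d ∈ k.divisors, 1 / (d : ℝ) ≤ 2 * (1 + Real.log K) := by
  have h1 : ∀ k ∈ Ioc 0 K, 1 / (k : ℝ) * ∑ d ∈ k.divisors, 1 / (d : ℝ) =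
      ∑ d ∈ Ioc 0 K, if d ∣ k then 1 / (d : ℝ) * (1 / (k : ℝ)) else 0 := by
    intro k hk
    rw [mem_Ioc] at hk
    rw [← Finset.sum_filter, Finset.mul_sum]
    have h2 : k.divisors = (Ioc 0 K).filter (fun d => d ∣ k) := by
      ext d
      rw [Nat.mem_divisors, mem_filter, mem_Ioc]
      constructor
      · rintro ⟨h3, _⟩
        exact ⟨⟨Nat.pos_of_dvd_of_pos h3 hk.1, (Nat.le_of_dvd hk.1 h3).trans hk.2⟩, h3⟩
      · rintro ⟨_, h3⟩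
        exact ⟨h3, hk.1.ne'⟩
    rw [h2]
    exact Finset.sum_congr rfl fun d _ => mul_comm _ _
  rw [Finset.sum_congr rfl h1, Finset.sum_comm]
  have h0 : 0 ≤ ∑ j ∈ Ioc 0 K, 1 / (j : ℝ) := Finset.sum_nonneg fun j _ => by positivity
  calc ∑ d ∈ Ioc 0 K, ∑ k ∈ Ioc 0 K, (if d ∣ k then 1 / (d : ℝ) * (1 / (k : ℝ)) else 0)
      ≤ ∑ d ∈ Ioc 0 K, 1 / (d : ℝ) ^ 2 * ∑ j ∈ Ioc 0 K, 1 / (j : ℝ) := by
        refine Finset.sum_le_sum fun d hd => ?_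
        rw [mem_Ioc] at hd
        rw [← Finset.sum_filter, ← Finset.mul_sum]
        have h4 := mul_le_mul_of_nonneg_left (K15_mult K d hd.1) (show (0 : ℝ) ≤ 1 / (d : ℝ) by positivity)
        refine h4.trans (le_of_eq ?_)
        rw [← mul_assoc, one_div_mul_one_div, pow_two]
    _ = (∑ d ∈ Ioc 0 K, 1 / (d : ℝ) ^ 2) * ∑ j ∈ Ioc 0 K, 1 / (j : ℝ) := by rw [Finset.sum_mul]
    _ ≤ 2 * (1 + Real.log K) := mul_le_mul (K15_sq K) (K15_harm K) h0 (by norm_num)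

theorem small_avg : ∃ C : ℝ, 0 < C ∧ ∀ κ : ℝ, 0 < κ → κ ≤ 1 → ∃ Q0 : ℕ, ∀ Q : ℕ, Q0 ≤ Q → ∀ K : ℕ, (K : ℝ) ≤ (Q : ℝ) ^ κ →
    ∀ b : Bool, ∑ q ∈ PB Q, WW b q (Ioc 0 K) ≤ C * κ * (Q / Real.log Q) := by
  obtain ⟨C, hC, Q1, hP⟩ := pair_sieve
  refine ⟨4 * C, by positivity, fun κ hκ hκ1 => ⟨max Q1 ⌈Real.exp (1 / κ)⌉₊, fun Q hQ K hK b => ?_⟩⟩
  have hQ1 : Q1 ≤ Q := (le_max_left _ _).trans hQ
  have hQe : Real.exp (1 / κ) ≤ Q := (Nat.le_ceil _).trans (by exact_mod_cast (le_max_right _ _).trans hQ)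
  have hQpos : (0 : ℝ) < Q := (Real.exp_pos _).trans_le hQe
  have hQ1r : (1 : ℝ) ≤ Q := (Real.one_le_exp (by positivity)).trans hQe
  have hlog : 1 / κ ≤ Real.log Q := by
    rw [Real.le_log_iff_exp_le hQpos]
    exact hQe
  have hlog0 : 0 < Real.log Q := lt_of_lt_of_le (by positivity) hlog
  have hκl : 1 ≤ κ * Real.log Q := by
    rw [div_le_iff₀ hκ] at hlog
    linarith
  have hKQ : K ≤ Q := by
    have h1 : (Q : ℝ) ^ κ ≤ Q := by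
      calc (Q : ℝ) ^ κ ≤ (Q : ℝ) ^ (1 : ℝ) := Real.rpow_le_rpow_of_exponent_le hQ1r hκ1
        _ = Q := Real.rpow_one _
    exact_mod_cast hK.trans h1
  have hlK : Real.log K ≤ κ * Real.log Q := by
    rcases Nat.eq_zero_or_pos K with h | h
    · rw [h, Nat.cast_zero, Real.log_zero]
      positivity
    · rw [← Real.log_rpow hQpos]
      exact Real.log_le_log (by exact_mod_cast h) hK
  have hswap : ∑ q ∈ PB Q, WW b q (Ioc 0 K) =
      ∑ k ∈ Ioc 0 K, 1 / (k : ℝ) * (((PB Q).filter (fun q => (nn b k q).Prime)).card : ℝ) := by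
    unfold WW
    rw [Finset.sum_comm]
    refine Finset.sum_congr rfl fun k _ => ?_
    rw [← Finset.sum_filter, Finset.sum_const, nsmul_eq_mul, mul_comm]
  rw [hswap]
  calc ∑ k ∈ Ioc 0 K, 1 / (k : ℝ) * (((PB Q).filter (fun q => (nn b k q).Prime)).card : ℝ)
      ≤ ∑ k ∈ Ioc 0 K, (C * (Q / (Real.log Q) ^ 2)) * (1 / (k : ℝ) * ∑ d ∈ k.divisors, 1 / (d : ℝ)) := by
        refine Finset.sum_le_sum fun k hk => ?_
        rw [mem_Ioc] at hk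
        have h1 := mul_le_mul_of_nonneg_left (hP Q hQ1 k hk.1 (hk.2.trans hKQ) b)
          (show (0 : ℝ) ≤ 1 / (k : ℝ) by positivity)
        refine h1.trans (le_of_eq ?_)
        ring
    _ = (C * (Q / (Real.log Q) ^ 2)) * ∑ k ∈ Ioc 0 K, 1 / (k : ℝ) * ∑ d ∈ k.divisors, 1 / (d : ℝ) := by
        rw [Finset.mul_sum]
    _ ≤ (C * (Q / (Real.log Q) ^ 2)) * (4 * (κ * Real.log Q)) := by
        refine mul_le_mul_of_nonneg_left ((K15_sum K).trans ?_) (by positivity)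
        linarith
    _ = 4 * C * κ * (Q / Real.log Q) := by
        field_simp

end Pool.Agent.Lib.MP_5deb1d_nt
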