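import Mathlib
import Pool.Agent.Lib.MP_5deb1d_nt.K12
import Pool.Agent.Lib.MP_5deb1d_nt.K15

/-!
JOB K16. All `k ≤ 2Q`. PROOF: `κ` small (`C κ * (2/ε) ≤ ε/2`, `κ ≤ 1`), `K1 = ⌊Q^κ⌋`; `K1 ≥ Q^(κ/2)` for large `Q`. `WW b q (Ioc 0 (2Q)) = WW b q (Ioc 0 K1) + WW b q (Ioc K1 (2Q))`. If the sum is `> 4 log 2 + ε` then the first is `> ε/2` (Markov with `small_avg`: at most
`(2/ε) C κ Q/log Q ≤ (ε/2) Q/log Q` such `q`) or the second is `> 4 log 2 + ε/2` (`mid_sum (ε/2) (κ/2)`: at most `(ε/2) Q/log Q`).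
-/

set_option autoImplicit false

open Finset

namespace Pool.Agent.Lib.MP_5deb1d_nt

private lemma K16_add (b : Bool) (q K1 Q : ℕ) (h : K1 ≤ 2 * Q) :
    WW b q (Ioc 0 (2 * Q)) = WW b q (Ioc 0 K1) + WW b q (Ioc K1 (2 * Q)) := by
  unfold WW
  rw [← Finset.Ioc_union_Ioc_eq_Ioc (Nat.zero_le K1) h, Finset.sum_union]
  exact Finset.Ioc_disjoint_Ioc_of_le le_rfl

private lemma K16_markov (s : Finset ℕ) (f : ℕ → ℝ) (hf : ∀ q, 0 ≤ f q) (c : ℝ) :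
    c * ((s.filter (fun q => c < f q)).card : ℝ) ≤ ∑ q ∈ s, f q := by
  have h1 : c * ((s.filter (fun q => c < f q)).card : ℝ) = ∑ _q ∈ s.filter (fun q => c < f q), c := by
    rw [sum_const, nsmul_eq_mul, mul_comm]
  rw [h1]
  have h2 : ∑ _q ∈ s.filter (fun q => c < f q), c ≤ ∑ q ∈ s.filter (fun q => c < f q), f q := by
    apply sum_le_sum
    intro q hq
    exact (mem_filter.1 hq).2.le
  exact h2.trans (sum_le_sum_of_subset_of_nonneg (filter_subset _ _) (fun q _ _ => hf q))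

private lemma K16_pow (κ : ℝ) (hκ : 0 < κ) : ∃ Q0 : ℕ, 1 ≤ Q0 ∧ ∀ Q : ℕ, Q0 ≤ Q → (2 : ℝ) ≤ (Q : ℝ) ^ (κ / 2) := by
  refine ⟨⌈(2 : ℝ) ^ (2 / κ)⌉₊ + 1, by omega, ?_⟩
  intro Q hQ
  have h1 : (2 : ℝ) ^ (2 / κ) ≤ (Q : ℝ) := by
    have h2 : (2 : ℝ) ^ (2 / κ) ≤ (⌈(2 : ℝ) ^ (2 / κ)⌉₊ : ℝ) := Nat.le_ceil _
    have h3 : ((⌈(2 : ℝ) ^ (2 / κ)⌉₊ : ℕ) : ℝ) ≤ (Q : ℝ) := by
      exact_mod_cast (by omega : ⌈(2 : ℝ) ^ (2 / κ)⌉₊ ≤ Q)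
    exact h2.trans h3
  have h4 : ((2 : ℝ) ^ (2 / κ)) ^ (κ / 2) = 2 := by
    rw [← Real.rpow_mul (by norm_num)]
    have h5 : 2 / κ * (κ / 2) = 1 := by
      field_simp
    rw [h5, Real.rpow_one]
  calc (2 : ℝ) = ((2 : ℝ) ^ (2 / κ)) ^ (κ / 2) := h4.symm
    _ ≤ (Q : ℝ) ^ (κ / 2) := Real.rpow_le_rpow (by positivity) h1 (by positivity)

theorem all_sum (ε : ℝ) (hε : 0 < ε) : ∃ Q0 : ℕ, ∀ Q : ℕ, Q0 ≤ Q → ∀ b : Bool,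
    (((PB Q).filter (fun q => 4 * Real.log 2 + ε < WW b q (Ioc 0 (2 * Q)))).card : ℝ) ≤ ε * (Q / Real.log Q) := by
  obtain ⟨C, hC, hs⟩ := small_avg
  have hκ : 0 < min 1 (ε ^ 2 / (4 * C)) := lt_min one_pos (by positivity)
  have hκ1 : min 1 (ε ^ 2 / (4 * C)) ≤ 1 := min_le_left _ _
  have hκ2 : min 1 (ε ^ 2 / (4 * C)) ≤ ε ^ 2 / (4 * C) := min_le_right _ _
  generalize min 1 (ε ^ 2 / (4 * C)) = κ at hκ hκ1 hκ2
  obtain ⟨Q1, h1⟩ := hs κ hκ hκ1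
  obtain ⟨Q2, h2⟩ := mid_sum (ε / 2) (κ / 2) (by positivity) (by positivity) (by linarith)
  obtain ⟨Q3, h30, h3⟩ := K16_pow κ hκ
  refine ⟨max Q1 (max Q2 Q3), ?_⟩
  intro Q hQ b
  have hQ1 : Q1 ≤ Q := (le_max_left _ _).trans hQ
  have hQ2 : Q2 ≤ Q := (le_max_left _ _).trans ((le_max_right _ _).trans hQ)
  have hQ3 : Q3 ≤ Q := (le_max_right _ _).trans ((le_max_right _ _).trans hQ)
  have hQpos : (1 : ℝ) ≤ (Q : ℝ) := by exact_mod_cast h30.trans hQ3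
  have hpow := h3 Q hQ3
  have hfl : ((⌊(Q : ℝ) ^ κ⌋₊ : ℕ) : ℝ) ≤ (Q : ℝ) ^ κ := Nat.floor_le (by positivity)
  have hfl2 : (Q : ℝ) ^ κ < ((⌊(Q : ℝ) ^ κ⌋₊ : ℕ) : ℝ) + 1 := Nat.lt_floor_add_one _
  have hsq : (Q : ℝ) ^ κ = (Q : ℝ) ^ (κ / 2) * (Q : ℝ) ^ (κ / 2) := by
    rw [← Real.rpow_add (by linarith)]
    congr 1
    ring
  have hlow : (Q : ℝ) ^ (κ / 2) ≤ ((⌊(Q : ℝ) ^ κ⌋₊ : ℕ) : ℝ) := by
    nlinarith
  have hup : ⌊(Q : ℝ) ^ κ⌋₊ ≤ 2 * Q := by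
    have h5 : (Q : ℝ) ^ κ ≤ (Q : ℝ) ^ (1 : ℝ) := Real.rpow_le_rpow_of_exponent_le hQpos hκ1
    rw [Real.rpow_one] at h5
    have h6 : ((⌊(Q : ℝ) ^ κ⌋₊ : ℕ) : ℝ) ≤ (Q : ℝ) := hfl.trans h5
    have h7 : ⌊(Q : ℝ) ^ κ⌋₊ ≤ Q := by exact_mod_cast h6
    omega
  have hA := h1 Q hQ1 ⌊(Q : ℝ) ^ κ⌋₊ hfl b
  have hB := h2 Q hQ2 ⌊(Q : ℝ) ^ κ⌋₊ hlow b
  generalize ⌊(Q : ℝ) ^ κ⌋₊ = K1 at hA hB hup
  have hnn : 0 ≤ (Q : ℝ) / Real.log Q := div_nonneg (by linarith) (Real.log_nonneg hQpos)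
  generalize (Q : ℝ) / Real.log Q = T at hA hB hnn ⊢
  have hM := K16_markov (PB Q) (fun q => WW b q (Ioc 0 K1)) (fun q => WW_nonneg b q _) (ε / 2)
  have hA2 : (((PB Q).filter (fun q => ε / 2 < WW b q (Ioc 0 K1))).card : ℝ) ≤ ε / 2 * T := by
    have h8 : ε / 2 * (((PB Q).filter (fun q => ε / 2 < WW b q (Ioc 0 K1))).card : ℝ) ≤ C * κ * T := hM.trans hA
    have h9 : C * κ ≤ ε / 2 * (ε / 2) := by
      have h10 : C * κ ≤ C * (ε ^ 2 / (4 * C)) := mul_le_mul_of_nonneg_left hκ2 hC.le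
      have h11 : C * (ε ^ 2 / (4 * C)) = ε / 2 * (ε / 2) := by
        field_simp
        ring
      linarith
    have h12 : C * κ * T ≤ ε / 2 * (ε / 2) * T := mul_le_mul_of_nonneg_right h9 hnn
    have h13 : ε / 2 * (((PB Q).filter (fun q => ε / 2 < WW b q (Ioc 0 K1))).card : ℝ) ≤ ε / 2 * (ε / 2 * T) := by
      linarith
    exact le_of_mul_le_mul_left h13 (by positivity)
  have hsub : (PB Q).filter (fun q => 4 * Real.log 2 + ε < WW b q (Ioc 0 (2 * Q))) ⊆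
      (PB Q).filter (fun q => ε / 2 < WW b q (Ioc 0 K1)) ∪
      (PB Q).filter (fun q => 4 * Real.log 2 + ε / 2 < WW b q (Ioc K1 (2 * Q))) := by
    intro q hq
    rw [mem_filter] at hq
    rw [mem_union, mem_filter, mem_filter]
    obtain ⟨hq1, hq2⟩ := hq
    rw [K16_add b q K1 Q hup] at hq2
    by_cases h : ε / 2 < WW b q (Ioc 0 K1)
    · exact Or.inl ⟨hq1, h⟩
    · refine Or.inr ⟨hq1, ?_⟩
      push Not at h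
      linarith
  have hcard : (((PB Q).filter (fun q => 4 * Real.log 2 + ε < WW b q (Ioc 0 (2 * Q)))).card : ℝ) ≤
      (((PB Q).filter (fun q => ε / 2 < WW b q (Ioc 0 K1))).card : ℝ) +
      (((PB Q).filter (fun q => 4 * Real.log 2 + ε / 2 < WW b q (Ioc K1 (2 * Q)))).card : ℝ) := by
    exact_mod_cast (card_le_card hsub).trans (card_union_le _ _)
  linarith

end Pool.Agent.Lib.MP_5deb1d_nt
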