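import Mathlib
import Pool.Agent.Lib.MP_5deb1d_nt.K0

/-!
JOB K17. `S1` and `WW`. PROOF: a prime `p ≤ q²` with `p ≡ 1 (q)` is `k q + 1` with `1 ≤ k ≤ q` (`p ≠ 1`), i.e. `nn false k q`, and `((q-1)/2)/(k q + 1) ≤ 1/(2k)`; a prime `p ≡ -1 (q)` is `k q - 1 = nn true k q` with `1 ≤ k ≤ q`
(`k q - 1 ≤ q²`, so `k ≤ q`, as `q ≥ 2`), `((q-1)/2)/(k q - 1) ≤ 1/(2k)` since `k q - 1 ≥ k (q - 1)`. `k ↦ k q ± 1` is injective, `q ≤ 2Q`; `eps = cl true - cl false`, the other class only helps.
-/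

set_option autoImplicit false

open Finset

namespace Pool.Agent.Lib.MP_5deb1d_nt

/-- the sum over one class -/
private lemma K17_class (a : Bool) (Q q : ℕ) (hq : q.Prime) (hqQ : q ≤ 2 * Q) :
    ((q : ℝ) - 1) / 2 * ∑ p ∈ Pr (q ^ 2), cl a q p / p ≤ WW (!a) q (Ioc 0 (2 * Q)) / 2 := by
  have hq2 : 2 ≤ q := hq.two_le
  have hq1 : (1 : ℝ) ≤ (q : ℝ) - 1 := by
    have : (2 : ℝ) ≤ q := by exact_mod_cast hq2
    linarith
  -- the indices
  have hS : ∑ p ∈ Pr (q ^ 2), cl a q p / p = ∑ p ∈ (Pr (q ^ 2)).filter (fun p => q ∣ sh a p), 1 / (p : ℝ) := by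
    rw [Finset.sum_filter]
    refine Finset.sum_congr rfl fun p hp => ?_
    rw [mem_Pr] at hp
    rw [cl_eq a q p hp.1.one_lt.le]
    split_ifs
    · rfl
    · rw [zero_div]
  have hW : WW (!a) q (Ioc 0 (2 * Q)) =
      ∑ k ∈ (Ioc 0 (2 * Q)).filter (fun k => (nn (!a) k q).Prime), 1 / (k : ℝ) := by
    unfold WW
    rw [Finset.sum_filter]
  rw [hS, hW, Finset.mul_sum, Finset.sum_div]
  -- the map `p ↦ k`
  have hk : ∀ p ∈ (Pr (q ^ 2)).filter (fun p => q ∣ sh a p), ∃ k : ℕ, 0 < k ∧ k ≤ q ∧ sh a p = k * q ∧ nn (!a) k q = p := by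
    intro p hp
    rw [mem_filter, mem_Pr] at hp
    obtain ⟨⟨hpp, hple⟩, k, hk⟩ := hp
    have hp2 := hpp.two_le
    cases a
    · have hk' : p + 1 = q * k := hk
      refine ⟨k, ?_, ?_, ?_, ?_⟩
      · rcases Nat.eq_zero_or_pos k with h | h
        · rw [h, mul_zero] at hk'
          omega
        · exact h
      · by_contra hcon
        push Not at hcon
        have h1 : q * (q + 1) ≤ q * k := Nat.mul_le_mul_left q hcon
        nlinarith
      · change p + 1 = k * q
        rw [hk', mul_comm]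
      · change k * q - 1 = p
        rw [mul_comm, ← hk']
        omega
    · have hk' : p - 1 = q * k := hk
      refine ⟨k, ?_, ?_, ?_, ?_⟩
      · rcases Nat.eq_zero_or_pos k with h | h
        · rw [h, mul_zero] at hk'
          omega
        · exact h
      · by_contra hcon
        push Not at hcon
        have h1 : q * (q + 1) ≤ q * k := Nat.mul_le_mul_left q hcon
        have h2 : p ≤ q * q := by rw [← pow_two]; exact hple
        have h5 : p = q * k + 1 := by omega
        nlinarith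
      · change p - 1 = k * q
        rw [hk', mul_comm]
      · change k * q + 1 = p
        rw [mul_comm, ← hk']
        omega
  choose! κ h1 h2 h3 h4 using hk
  calc ∑ p ∈ (Pr (q ^ 2)).filter (fun p => q ∣ sh a p), ((q : ℝ) - 1) / 2 * (1 / (p : ℝ))
      ≤ ∑ p ∈ (Pr (q ^ 2)).filter (fun p => q ∣ sh a p), 1 / (κ p : ℝ) / 2 := by
        refine Finset.sum_le_sum fun p hp => ?_
        have hp' := hp
        rw [mem_filter, mem_Pr] at hp'
        have hppos : (0 : ℝ) < p := by exact_mod_cast hp'.1.1.pos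
        have hκ : (1 : ℝ) ≤ κ p := by exact_mod_cast h1 p hp
        have hle : ((q : ℝ) - 1) * κ p ≤ p := by
          have h5 := h3 p hp
          cases a
          · have h6 : p + 1 = κ p * q := h5
            have h7 : (p : ℝ) + 1 = κ p * q := by exact_mod_cast h6
            nlinarith
          · have h6 : p - 1 = κ p * q := h5
            have h7 : p = κ p * q + 1 := by
              have := hp'.1.1.two_le
              omega
            have h8 : (p : ℝ) = κ p * q + 1 := by exact_mod_cast h7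
            nlinarith
        rw [div_mul_div_comm, mul_one, div_div, div_le_div_iff₀ (by positivity) (by positivity)]
        nlinarith
    _ = ∑ k ∈ ((Pr (q ^ 2)).filter (fun p => q ∣ sh a p)).image κ, 1 / (k : ℝ) / 2 := by
        rw [Finset.sum_image]
        intro x hx y hy hxy
        rw [← h4 x hx, ← h4 y hy, hxy]
    _ ≤ ∑ k ∈ (Ioc 0 (2 * Q)).filter (fun k => (nn (!a) k q).Prime), 1 / (k : ℝ) / 2 := by
        refine Finset.sum_le_sum_of_subset_of_nonneg ?_ fun k _ _ => by positivity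
        intro k hk
        rw [mem_image] at hk
        obtain ⟨p, hp, rfl⟩ := hk
        rw [mem_filter, mem_Ioc]
        refine ⟨⟨h1 p hp, (h2 p hp).trans hqQ⟩, ?_⟩
        rw [h4 p hp]
        rw [mem_filter, mem_Pr] at hp
        exact hp.1.1

theorem S1_le (Q q : ℕ) (hQ : 2 ≤ Q) (hq : q ∈ PB Q) :
    S1 q ≤ WW false q (Ioc 0 (2 * Q)) / 2 ∧ -S1 q ≤ WW true q (Ioc 0 (2 * Q)) / 2 := by
  rw [mem_PB] at hq
  have hq1 : (0 : ℝ) ≤ ((q : ℝ) - 1) / 2 := by
    have : (1 : ℝ) ≤ q := by exact_mod_cast hq.1.one_lt.le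
    linarith
  have h0 : ∀ a, 0 ≤ ((q : ℝ) - 1) / 2 * ∑ p ∈ Pr (q ^ 2), cl a q p / p := fun a =>
    mul_nonneg hq1 (Finset.sum_nonneg fun p _ => div_nonneg (cl_nonneg a q p) (Nat.cast_nonneg p))
  have hS : S1 q = ((q : ℝ) - 1) / 2 * ∑ p ∈ Pr (q ^ 2), cl true q p / p -
      ((q : ℝ) - 1) / 2 * ∑ p ∈ Pr (q ^ 2), cl false q p / p := by
    unfold S1 eps
    rw [← mul_sub, ← Finset.sum_sub_distrib]
    congr 1
    exact Finset.sum_congr rfl fun p _ => sub_div _ _ _
  have ht := K17_class true Q q hq.1 hq.2.2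
  have hf := K17_class false Q q hq.1 hq.2.2
  have h0t := h0 true
  have h0f := h0 false
  simp only [Bool.not_true, Bool.not_false] at ht hf
  constructor
  · rw [hS]
    linarith
  · rw [hS]
    linarith

end Pool.Agent.Lib.MP_5deb1d_nt
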