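import Mathlib
import Pool.Agent.Lib.MP_5deb1d_nt.K16
import Pool.Agent.Lib.MP_5deb1d_nt.K17
import Pool.Agent.Lib.MP_5deb1d_nt.BK

/-!
JOB K18. A block. PROOF: `|rq q| > 2 log 2 + ε` implies `|rq q - S1 q| > ε/2` (Markov with `block (ε²/8)`-type: at most `(2/ε) ε' Q/log Q` of the `q`) or `|S1 q| > 2 log 2 + ε/2`, then by `S1_le` `WW b q (Ioc 0 (2Q)) > 4 log 2 + ε` for `b = false` or `b = true` (`all_sum`).
-/

set_option autoImplicit false

open Finset

namespace Pool.Agent.Lib.MP_5deb1d_nt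

private lemma K18_markov (ε : ℝ) (hε : 0 < ε) (Q : ℕ) (c : ℝ)
    (h : ∑ q ∈ PB Q, |rq q - S1 q| ≤ ε / 2 * c) :
    (((PB Q).filter (fun q => ε / 2 < |rq q - S1 q|)).card : ℝ) ≤ c := by
  have h1 : (((PB Q).filter (fun q => ε / 2 < |rq q - S1 q|)).card : ℝ) * (ε / 2) ≤
      ∑ q ∈ (PB Q).filter (fun q => ε / 2 < |rq q - S1 q|), |rq q - S1 q| := by
    rw [← nsmul_eq_mul]
    exact Finset.card_nsmul_le_sum _ _ _ fun q hq => (mem_filter.1 hq).2.le
  have h2 : ∑ q ∈ (PB Q).filter (fun q => ε / 2 < |rq q - S1 q|), |rq q - S1 q| ≤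
      ∑ q ∈ PB Q, |rq q - S1 q| :=
    sum_le_sum_of_subset_of_nonneg (filter_subset _ _) fun _ _ _ => abs_nonneg _
  have h3 : (((PB Q).filter (fun q => ε / 2 < |rq q - S1 q|)).card : ℝ) * (ε / 2) ≤
      c * (ε / 2) := by linarith
  exact le_of_mul_le_mul_right h3 (by positivity)

theorem block_aa (ε : ℝ) (hε : 0 < ε) : ∃ Q0 : ℕ, ∀ Q : ℕ, Q0 ≤ Q →
    (((PB Q).filter (fun q => 2 * Real.log 2 + ε < |rq q|)).card : ℝ) ≤ ε * (Q / Real.log Q) := by
  obtain ⟨Q1, h1⟩ := block (ε / 2 * (ε / 4)) (by positivity)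
  obtain ⟨Q2, h2⟩ := all_sum (ε / 4) (by positivity)
  refine ⟨max (max Q1 Q2) 2, fun Q hQ => ?_⟩
  have hQ1 : Q1 ≤ Q := (le_max_left _ _).trans ((le_max_left _ _).trans hQ)
  have hQ2 : Q2 ≤ Q := (le_max_right _ _).trans ((le_max_left _ _).trans hQ)
  have hQ3 : 2 ≤ Q := (le_max_right _ _).trans hQ
  have hQr : (2 : ℝ) ≤ Q := by exact_mod_cast hQ3
  have hX : 0 ≤ (Q : ℝ) / Real.log Q :=
    div_nonneg (by linarith) (Real.log_nonneg (by linarith))
  have g1 := K18_markov ε hε Q (ε / 4 * (Q / Real.log Q)) (by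
    have := h1 Q hQ1
    linarith)
  have g2 := h2 Q hQ2 false
  have g3 := h2 Q hQ2 true
  have hsub : (PB Q).filter (fun q => 2 * Real.log 2 + ε < |rq q|) ⊆
      ((PB Q).filter (fun q => ε / 2 < |rq q - S1 q|) ∪
        (PB Q).filter (fun q => 4 * Real.log 2 + ε / 4 < WW false q (Ioc 0 (2 * Q)))) ∪
        (PB Q).filter (fun q => 4 * Real.log 2 + ε / 4 < WW true q (Ioc 0 (2 * Q))) := by
    intro q hq
    obtain ⟨hqP, hqr⟩ := mem_filter.1 hq
    rw [mem_union, mem_union, mem_filter, mem_filter, mem_filter]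
    by_contra hcon
    push Not at hcon
    obtain ⟨⟨a1, a2⟩, a3⟩ := hcon
    have b1 := a1 hqP
    have b2 := a2 hqP
    have b3 := a3 hqP
    obtain ⟨c1, c2⟩ := S1_le Q q hQ3 hqP
    have d1 : |S1 q| ≤ 2 * Real.log 2 + ε / 8 := by
      rw [abs_le]
      constructor <;> linarith
    have d2 : |rq q| ≤ |rq q - S1 q| + |S1 q| := by
      have := abs_add_le (rq q - S1 q) (S1 q)
      rwa [sub_add_cancel] at this
    linarith
  have e1 := (card_le_card hsub).trans ((card_union_le _ _).trans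
    (Nat.add_le_add_right (card_union_le _ _) _))
  have e2 : (((PB Q).filter (fun q => 2 * Real.log 2 + ε < |rq q|)).card : ℝ) ≤
      (((PB Q).filter (fun q => ε / 2 < |rq q - S1 q|)).card : ℝ) +
        (((PB Q).filter (fun q => 4 * Real.log 2 + ε / 4 < WW false q (Ioc 0 (2 * Q)))).card : ℝ) +
        (((PB Q).filter (fun q => 4 * Real.log 2 + ε / 4 < WW true q (Ioc 0 (2 * Q)))).card : ℝ) := by
    exact_mod_cast e1
  have e3 : 0 ≤ ε * ((Q : ℝ) / Real.log Q) := mul_nonneg hε.le hX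
  linarith

end Pool.Agent.Lib.MP_5deb1d_nt
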