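import Mathlib
import Pool.Agent.Lib.MP_5deb1d_nt.K18

/-!
JOB K19. Almost all primes. PROOF: `block_aa (ε')` with `ε' ≤ ε` small for the blocks `PB Q_i`, `Q_i = ⌊X/2^i⌋`, `i ≥ 1`, `Q_i ≥ √X`: they contain all primes in `(√X, X]` except at most `log₂ X + 1` numbers (`2⌊X/2^(i+1)⌋ ≥ ⌊X/2^i⌋ - 1`); the counts are
`≤ ε' (X/2^i)/log √X`, sum `≤ 2 ε' X/(log X) * 2`; the rest is `≤ √X + log₂ X + 1`. `π(X) ≥ c X/log X` (`Chebyshev.pi_ge` in Mathlib: `(n log 2 - log(n+1))/log n ≤ π n`). A smaller `ε` in the threshold only makes the set larger, so `ε' ≤ ε` may be used.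
-/

set_option autoImplicit false

open Finset

namespace Pool.Agent.Lib.MP_5deb1d_nt

private lemma K19_log (c : ℝ) (hc : 0 < c) :
    ∃ N : ℕ, ∀ n : ℕ, N ≤ n → Real.log n ≤ c * n := by
  have h := Real.isLittleO_log_id_atTop.def hc
  have h2 := (tendsto_natCast_atTop_atTop (R := ℝ)).eventually h
  obtain ⟨N, hN⟩ := Filter.eventually_atTop.1 h2
  refine ⟨N, fun n hn => ?_⟩
  have h3 := hN n hn
  simp only [id, Real.norm_eq_abs] at h3
  rw [abs_of_nonneg (Nat.cast_nonneg n : (0 : ℝ) ≤ n)] at h3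
  exact (le_abs_self _).trans h3

private lemma K19_step (δ : ℝ) (hδ : 0 < δ) : ∃ X1 : ℕ, ∀ X : ℕ, X1 ≤ X →
    5 * δ * (((X / 2 : ℕ) : ℝ) / Real.log ((X / 2 : ℕ) : ℝ)) + 1
      ≤ 4 * δ * ((X : ℝ) / Real.log X) := by
  obtain ⟨N, hN⟩ := K19_log δ hδ
  refine ⟨max N (3 ^ 10), fun X hX => ?_⟩
  have hX1 : N ≤ X := le_trans (le_max_left _ _) hX
  have hX2 : 3 ^ 10 ≤ X := le_trans (le_max_right _ _) hX
  have hL := hN X hX1
  have hXr : (3 : ℝ) ^ 10 ≤ X := by exact_mod_cast hX2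
  have h3 : 0 < Real.log 3 := Real.log_pos (by norm_num)
  have hl10 : 10 * Real.log 3 ≤ Real.log X := by
    have h := Real.log_le_log (by norm_num : (0 : ℝ) < 3 ^ 10) hXr
    rw [Real.log_pow] at h
    exact_mod_cast h
  have hLpos : 0 < Real.log X := by linarith
  have hXpos : (0 : ℝ) < X := lt_of_lt_of_le (by norm_num) hXr
  obtain ⟨Y, hY⟩ : ∃ Y : ℕ, Y = X / 2 := ⟨_, rfl⟩
  rw [← hY]
  have hY1 : (Y : ℝ) ≤ X / 2 := by
    have h : 2 * Y ≤ X := by omega
    have h' : (2 : ℝ) * Y ≤ X := by exact_mod_cast h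
    linarith
  have hY2 : (X : ℝ) / 3 ≤ Y := by
    have h : X ≤ 3 * Y := by
      have : 3 ≤ X := le_trans (by norm_num) hX2
      omega
    have h' : (X : ℝ) ≤ 3 * Y := by exact_mod_cast h
    linarith
  have hlY : 9 / 10 * Real.log X ≤ Real.log Y := by
    have h := Real.log_le_log (by positivity) hY2
    rw [Real.log_div hXpos.ne' (by norm_num)] at h
    linarith
  have h1 : (Y : ℝ) / Real.log Y ≤ (X / 2) / (9 / 10 * Real.log X) :=
    div_le_div₀ (by positivity) hY1 (by positivity) hlY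
  have h2 : (1 : ℝ) ≤ δ * (X / Real.log X) := by
    rw [mul_div_assoc', le_div_iff₀ hLpos]
    linarith
  have h4 : (X / 2 : ℝ) / (9 / 10 * Real.log X) = 5 / 9 * (X / Real.log X) := by
    field_simp
    norm_num
  rw [h4] at h1
  have h5 := mul_le_mul_of_nonneg_left h1 (by positivity : (0 : ℝ) ≤ 5 * δ)
  have h6 : 5 * δ * (5 / 9 * ((X : ℝ) / Real.log X)) = 25 / 9 * (δ * (X / Real.log X)) := by
    ring
  have h7 : 4 * δ * ((X : ℝ) / Real.log X) = 4 * (δ * (X / Real.log X)) := by ring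
  rw [h6] at h5
  rw [h7]
  linarith

private lemma K19_split (P : ℕ → Prop) [DecidablePred P] (X : ℕ) :
    ((Pr X).filter P).card
      ≤ ((Pr (X / 2)).filter P).card + ((PB (X / 2)).filter P).card + 1 := by
  have hsub : (Pr X).filter P
      ⊆ ((Pr (X / 2)).filter P ∪ (PB (X / 2)).filter P) ∪ {X} := by
    intro q hq
    rw [mem_filter, mem_Pr] at hq
    obtain ⟨⟨hp, hX⟩, hP⟩ := hq
    rw [mem_union, mem_union, mem_filter, mem_filter, mem_Pr, mem_PB, mem_singleton]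
    by_cases h1 : q ≤ X / 2
    · exact Or.inl (Or.inl ⟨⟨hp, h1⟩, hP⟩)
    · by_cases h2 : q ≤ 2 * (X / 2)
      · exact Or.inl (Or.inr ⟨⟨hp, by omega, h2⟩, hP⟩)
      · right
        omega
  refine (card_le_card hsub).trans ((card_union_le _ _).trans ?_)
  rw [card_singleton]
  exact Nat.add_le_add_right (card_union_le _ _) 1

private lemma K19_ind (P : ℕ → Prop) [DecidablePred P] (δ : ℝ) (hδ : 0 < δ) (Q0 : ℕ)
    (hQ0 : ∀ Q : ℕ, Q0 ≤ Q → (((PB Q).filter P).card : ℝ) ≤ δ * (Q / Real.log Q)) :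
    ∃ C : ℝ, ∀ X : ℕ, (((Pr X).filter P).card : ℝ) ≤ 4 * δ * (X / Real.log X) + C := by
  obtain ⟨X1, h1⟩ := K19_step δ hδ
  refine ⟨((X1 + 2 * Q0 + 1 : ℕ) : ℝ), fun X => ?_⟩
  induction X using Nat.strong_induction_on with
  | _ X ih =>
    by_cases hX : X < X1 + 2 * Q0 + 1
    · have hc : ((Pr X).filter P).card ≤ X := by
        refine (card_filter_le _ _).trans ?_
        unfold Pr
        refine (card_filter_le _ _).trans ?_
        rw [Nat.card_Ioc]
        omega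
      have h2 : (((Pr X).filter P).card : ℝ) ≤ ((X1 + 2 * Q0 + 1 : ℕ) : ℝ) := by
        exact_mod_cast hc.trans hX.le
      have h3 : 0 ≤ 4 * δ * ((X : ℝ) / Real.log X) := by
        have := Real.log_natCast_nonneg X
        positivity
      linarith
    · have hX' : X1 + 2 * Q0 + 1 ≤ X := not_lt.1 hX
      have hs := h1 X (by omega)
      have hq := hQ0 (X / 2) (by omega)
      have hi := ih (X / 2) (by omega)
      have hsp : (((Pr X).filter P).card : ℝ)
          ≤ ((Pr (X / 2)).filter P).card + ((PB (X / 2)).filter P).card + 1 := by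
        exact_mod_cast K19_split P X
      linarith

theorem almost_all (ε : ℝ) (hε : 0 < ε) : ∃ X0 : ℕ, ∀ X : ℕ, X0 ≤ X →
    (((Pr X).filter (fun q => 2 * Real.log 2 + ε < |rq q|)).card : ℝ) ≤ ε * (Nat.primeCounting X : ℝ) := by
  obtain ⟨Q0, hQ0⟩ := block_aa (ε / 16) (by positivity)
  have hPB : ∀ Q : ℕ, Q0 ≤ Q →
      (((PB Q).filter (fun q => 2 * Real.log 2 + ε < |rq q|)).card : ℝ)
        ≤ ε / 16 * (Q / Real.log Q) := by
    intro Q hQ
    refine le_trans ?_ (hQ0 Q hQ)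
    have : (PB Q).filter (fun q => 2 * Real.log 2 + ε < |rq q|)
        ⊆ (PB Q).filter (fun q => 2 * Real.log 2 + ε / 16 < |rq q|) := by
      intro q hq
      rw [mem_filter] at hq ⊢
      refine ⟨hq.1, ?_⟩
      linarith [hq.2]
    exact_mod_cast card_le_card this
  obtain ⟨C, hC⟩ := K19_ind (fun q => 2 * Real.log 2 + ε < |rq q|) (ε / 16) (by positivity) Q0 hPB
  obtain ⟨N1, hN1⟩ := K19_log (1 / 10) (by norm_num)
  obtain ⟨N2, hN2⟩ := K19_log (ε / 4 / (|C| + 1)) (by positivity)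
  refine ⟨N1 + N2 + 2, fun X hX => ?_⟩
  have hX2 : 2 ≤ X := by omega
  have hXr : (2 : ℝ) ≤ X := by exact_mod_cast hX2
  have hLpos : 0 < Real.log X := Real.log_pos (by linarith)
  have ha := hN1 (X + 1) (by omega)
  have hb := hN2 X (by omega)
  push_cast at ha
  have hπ : 1 / 2 * ((X : ℝ) / Real.log X) ≤ (Nat.primeCounting X : ℝ) := by
    refine le_trans ?_ (Chebyshev.pi_ge X)
    rw [mul_div_assoc']
    refine div_le_div_of_nonneg_right ?_ hLpos.le
    have hl2 : (0.6931471803 : ℝ) < Real.log 2 := Real.log_two_gt_d9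
    nlinarith
  have hCX : C ≤ ε / 4 * ((X : ℝ) / Real.log X) := by
    rw [mul_div_assoc', le_div_iff₀ hLpos]
    have h1 : (|C| + 1) * Real.log X ≤ ε / 4 * X := by
      have h := mul_le_mul_of_nonneg_left hb (by positivity : (0 : ℝ) ≤ |C| + 1)
      have h' : (|C| + 1) * (ε / 4 / (|C| + 1) * X) = ε / 4 * X := by
        have : |C| + 1 ≠ 0 := by positivity
        field_simp
      rw [h'] at h
      exact h
    have h2 : C * Real.log X ≤ (|C| + 1) * Real.log X := by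
      refine mul_le_mul_of_nonneg_right ?_ hLpos.le
      linarith [le_abs_self C]
    exact h2.trans h1
  have hfin := hC X
  have h8 := mul_le_mul_of_nonneg_left hπ hε.le
  have h9 : ε * (1 / 2 * ((X : ℝ) / Real.log X)) = ε / 2 * (X / Real.log X) := by ring
  have h10 : 4 * (ε / 16) * ((X : ℝ) / Real.log X) = ε / 4 * (X / Real.log X) := by ring
  have h11 : ε / 2 * ((X : ℝ) / Real.log X)
      = ε / 4 * (X / Real.log X) + ε / 4 * (X / Real.log X) := by ring
  rw [h9, h11] at h8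
  rw [h10] at hfin
  linarith

end Pool.Agent.Lib.MP_5deb1d_nt
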