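import Mathlib
import Pool.Agent.Lib.MP_5deb1d_nt.K20
import Pool.Agent.Lib.MP_5deb1d_nt.K15
import Pool.Agent.Lib.MP_5deb1d_nt.K17
import Pool.Agent.Lib.MP_5deb1d_nt.BK
import Pool.Agent.Lib.MP_5deb1d_nt.CH

/-!
JOB K21. The excess of `|r(q)|` over `2 log 2` is small on average. PROOF: `|rq q| ≤ |rq q - S1 q| + |S1 q|`, and by `S1_le` `|S1 q| ≤ max_b WW b q (Ioc 0 (2Q))/2`, where `WW b q (Ioc 0 (2Q)) = WW b q (Ioc 0 K1) + WW b q (Ioc K1 (2Q))`, `K1 = ⌊Q^κ⌋`, so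
`max 0 (|rq q| - 2 log 2) ≤ |rq q - S1 q| + ∑_b (WW b q (Ioc 0 K1) + max 0 (WW b q (Ioc K1 (2Q)) - (4 log 2 + ε')))/2 + ε'/2`. Sum over `q ∈ PB Q`: `block ε'`, `small_avg` (`κ` small), `mid_excess ε' (κ/2)`, `card_PB` (`#PB Q ≤ 4 Q/log Q`).
-/

set_option autoImplicit false

open Finset

namespace Pool.Agent.Lib.MP_5deb1d_nt

private lemma K21_add (b : Bool) (q K1 Q : ℕ) (h : K1 ≤ 2 * Q) :
    WW b q (Ioc 0 (2 * Q)) = WW b q (Ioc 0 K1) + WW b q (Ioc K1 (2 * Q)) := by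
  unfold WW
  rw [← Finset.Ioc_union_Ioc_eq_Ioc (Nat.zero_le K1) h, Finset.sum_union]
  exact Finset.Ioc_disjoint_Ioc_of_le le_rfl

private lemma K21_pow (κ : ℝ) (hκ : 0 < κ) : ∃ Q0 : ℕ, 1 ≤ Q0 ∧ ∀ Q : ℕ, Q0 ≤ Q → (2 : ℝ) ≤ (Q : ℝ) ^ (κ / 2) := by
  refine ⟨⌈(2 : ℝ) ^ (2 / κ)⌉₊ + 1, by omega, ?_⟩
  intro Q hQ
  have h1 : (2 : ℝ) ^ (2 / κ) ≤ (Q : ℝ) := by
    have h2 : (2 : ℝ) ^ (2 / κ) ≤ (⌈(2 : ℝ) ^ (2 / κ)⌉₊ : ℝ) := Nat.le_ceil _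
    have h3 : ((⌈(2 : ℝ) ^ (2 / κ)⌉₊ : ℕ) : ℝ) ≤ (Q : ℝ) := by
      exact_mod_cast (by omega : ⌈(2 : ℝ) ^ (2 / κ)⌉₊ ≤ Q)
    exact h2.trans h3
  have h4 : ((2 : ℝ) ^ (2 / κ)) ^ (κ / 2) = 2 := by
    rw [← Real.rpow_mul (by norm_num)]
    have h5 : 2 / κ * (κ / 2) = 1 := by
      field_simp
    rw [h5, Real.rpow_one]
  calc (2 : ℝ) = ((2 : ℝ) ^ (2 / κ)) ^ (κ / 2) := h4.symm
    _ ≤ (Q : ℝ) ^ (κ / 2) := Real.rpow_le_rpow (by positivity) h1 (by positivity)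

private lemma K21_point (e : ℝ) (he : 0 < e) (Q q K1 : ℕ) (hQ : 2 ≤ Q) (hq : q ∈ PB Q) (hK : K1 ≤ 2 * Q) :
    max 0 (|rq q| - 2 * Real.log 2) ≤ |rq q - S1 q| +
      (WW false q (Ioc 0 K1) + max 0 (WW false q (Ioc K1 (2 * Q)) - (4 * Real.log 2 + e))) / 2 +
      (WW true q (Ioc 0 K1) + max 0 (WW true q (Ioc K1 (2 * Q)) - (4 * Real.log 2 + e))) / 2 + e / 2 := by
  obtain ⟨c1, c2⟩ := S1_le Q q hQ hq
  rw [K21_add false q K1 Q hK] at c1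
  rw [K21_add true q K1 Q hK] at c2
  have n1 := WW_nonneg false q (Ioc 0 K1)
  have n2 := WW_nonneg true q (Ioc 0 K1)
  have m1 := le_max_left (0 : ℝ) (WW false q (Ioc K1 (2 * Q)) - (4 * Real.log 2 + e))
  have m2 := le_max_right (0 : ℝ) (WW false q (Ioc K1 (2 * Q)) - (4 * Real.log 2 + e))
  have m3 := le_max_left (0 : ℝ) (WW true q (Ioc K1 (2 * Q)) - (4 * Real.log 2 + e))
  have m4 := le_max_right (0 : ℝ) (WW true q (Ioc K1 (2 * Q)) - (4 * Real.log 2 + e))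
  have a0 := abs_nonneg (rq q - S1 q)
  generalize max 0 (WW false q (Ioc K1 (2 * Q)) - (4 * Real.log 2 + e)) = A at m1 m2 ⊢
  generalize max 0 (WW true q (Ioc K1 (2 * Q)) - (4 * Real.log 2 + e)) = B at m3 m4 ⊢
  have d1 : |S1 q| ≤ 2 * Real.log 2 + e / 2 + (WW false q (Ioc 0 K1) + A) / 2 + (WW true q (Ioc 0 K1) + B) / 2 := by
    rw [abs_le]
    constructor <;> linarith
  have d2 : |rq q| ≤ |rq q - S1 q| + |S1 q| := by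
    have := abs_add_le (rq q - S1 q) (S1 q)
    rwa [sub_add_cancel] at this
  apply max_le
  · positivity
  · linarith

theorem excess (ε : ℝ) (hε : 0 < ε) : ∃ Q0 : ℕ, ∀ Q : ℕ, Q0 ≤ Q →
    ∑ q ∈ PB Q, max 0 (|rq q| - 2 * Real.log 2) ≤ ε * (Q / Real.log Q) := by
  obtain ⟨C, hC, hs⟩ := small_avg
  have hκ : 0 < min 1 (ε / (2 * C)) := lt_min one_pos (by positivity)
  have hκ1 : min 1 (ε / (2 * C)) ≤ 1 := min_le_left _ _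
  have hκ2 : min 1 (ε / (2 * C)) ≤ ε / (2 * C) := min_le_right _ _
  generalize min 1 (ε / (2 * C)) = κ at hκ hκ1 hκ2
  obtain ⟨Q1, h1⟩ := hs κ hκ hκ1
  obtain ⟨Q2, h2⟩ := mid_excess (ε / 8) (κ / 2) (by positivity) (by positivity) (by linarith)
  obtain ⟨Q3, h30, h3⟩ := K21_pow κ hκ
  obtain ⟨Q4, h4⟩ := block (ε / 8) (by positivity)
  refine ⟨max (max Q1 Q2) (max (max Q3 Q4) 2), ?_⟩
  intro Q hQ
  have hQ1 : Q1 ≤ Q := (le_max_left _ _).trans ((le_max_left _ _).trans hQ)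
  have hQ2 : Q2 ≤ Q := (le_max_right _ _).trans ((le_max_left _ _).trans hQ)
  have hQ3 : Q3 ≤ Q := (le_max_left _ _).trans ((le_max_left _ _).trans ((le_max_right _ _).trans hQ))
  have hQ4 : Q4 ≤ Q := (le_max_right _ _).trans ((le_max_left _ _).trans ((le_max_right _ _).trans hQ))
  have hQ5 : 2 ≤ Q := (le_max_right _ _).trans ((le_max_right _ _).trans hQ)
  have hQpos : (1 : ℝ) ≤ (Q : ℝ) := by exact_mod_cast h30.trans hQ3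
  have hpow := h3 Q hQ3
  have hfl : ((⌊(Q : ℝ) ^ κ⌋₊ : ℕ) : ℝ) ≤ (Q : ℝ) ^ κ := Nat.floor_le (by positivity)
  have hfl2 : (Q : ℝ) ^ κ < ((⌊(Q : ℝ) ^ κ⌋₊ : ℕ) : ℝ) + 1 := Nat.lt_floor_add_one _
  have hsq : (Q : ℝ) ^ κ = (Q : ℝ) ^ (κ / 2) * (Q : ℝ) ^ (κ / 2) := by
    rw [← Real.rpow_add (by linarith)]
    congr 1
    ring
  have hlow : (Q : ℝ) ^ (κ / 2) ≤ ((⌊(Q : ℝ) ^ κ⌋₊ : ℕ) : ℝ) := by
    nlinarith
  have hup : ⌊(Q : ℝ) ^ κ⌋₊ ≤ 2 * Q := by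
    have h5 : (Q : ℝ) ^ κ ≤ (Q : ℝ) ^ (1 : ℝ) := Real.rpow_le_rpow_of_exponent_le hQpos hκ1
    rw [Real.rpow_one] at h5
    have h6 : ((⌊(Q : ℝ) ^ κ⌋₊ : ℕ) : ℝ) ≤ (Q : ℝ) := hfl.trans h5
    have h7 : ⌊(Q : ℝ) ^ κ⌋₊ ≤ Q := by exact_mod_cast h6
    omega
  have hAf := h1 Q hQ1 ⌊(Q : ℝ) ^ κ⌋₊ hfl false
  have hAt := h1 Q hQ1 ⌊(Q : ℝ) ^ κ⌋₊ hfl true
  have hBf := h2 Q hQ2 ⌊(Q : ℝ) ^ κ⌋₊ hlow false
  have hBt := h2 Q hQ2 ⌊(Q : ℝ) ^ κ⌋₊ hlow true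
  generalize ⌊(Q : ℝ) ^ κ⌋₊ = K1 at hAf hAt hBf hBt hup
  have hD := h4 Q hQ4
  have hE := card_PB Q hQ5
  have hnn : 0 ≤ (Q : ℝ) / Real.log Q := div_nonneg (by linarith) (Real.log_nonneg hQpos)
  generalize (Q : ℝ) / Real.log Q = T at hAf hAt hBf hBt hD hE hnn ⊢
  have hCκ : C * κ ≤ ε / 2 := by
    have h10 : C * κ ≤ C * (ε / (2 * C)) := mul_le_mul_of_nonneg_left hκ2 hC.le
    have h11 : C * (ε / (2 * C)) = ε / 2 := by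
      field_simp
    linarith
  have hCT : C * κ * T ≤ ε / 2 * T := mul_le_mul_of_nonneg_right hCκ hnn
  have hsum : ∑ q ∈ PB Q, max 0 (|rq q| - 2 * Real.log 2) ≤
      ∑ q ∈ PB Q, (|rq q - S1 q| +
      (WW false q (Ioc 0 K1) + max 0 (WW false q (Ioc K1 (2 * Q)) - (4 * Real.log 2 + ε / 8))) / 2 +
      (WW true q (Ioc 0 K1) + max 0 (WW true q (Ioc K1 (2 * Q)) - (4 * Real.log 2 + ε / 8))) / 2 + ε / 8 / 2) :=
    sum_le_sum fun q hq => K21_point (ε / 8) (by positivity) Q q K1 hQ5 hq hup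
  refine hsum.trans ?_
  rw [sum_add_distrib, sum_add_distrib, sum_add_distrib, ← sum_div, ← sum_div, sum_add_distrib, sum_add_distrib,
    sum_const, nsmul_eq_mul]
  have hF : ((PB Q).card : ℝ) * (ε / 8 / 2) ≤ 4 * T * (ε / 8 / 2) :=
    mul_le_mul_of_nonneg_right hE (by positivity)
  have hT : 0 ≤ ε * T := mul_nonneg hε.le hnn
  nlinarith

end Pool.Agent.Lib.MP_5deb1d_nt
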