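import Mathlib
import Pool.Agent.Lib.MP_5deb1d_nt.K0

/-!
Definitions for the block V (better constants in the mean value theorems, by the sieve of block K).
-/

set_option autoImplicit false

open Finset
open ArithmeticFunction (vonMangoldt)

namespace Pool.Agent.Lib.MP_5deb1d_nt

/-- `∑_{k ∈ S, nn b k q prime} f(log q/log (nn b k q))/k` -/
noncomputable def WF (f : ℝ → ℝ) (b : Bool) (q : ℕ) (S : Finset ℕ) : ℝ :=
  ∑ k ∈ S, (if (nn b k q).Prime then f (Real.log q / Real.log (nn b k q : ℕ)) / (k : ℝ) else 0)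

/-- `∑_{q ∣ sh a p prime, p < q²} f(log q/log p)` (at most one term) -/
noncomputable def FF (f : ℝ → ℝ) (a : Bool) (p : ℕ) : ℝ :=
  ∑ q ∈ (sh a p).divisors.filter (fun q => q.Prime ∧ p < q ^ 2), f (Real.log q / Real.log p)

/-- the conditions on the weight `f` -/
structure Wt (f : ℝ → ℝ) : Prop where
  pos : ∀ u, 0 ≤ f u
  bd : ∀ u, 0 ≤ u → u ≤ 2 → f u ≤ 2
  lip : ∀ u v, |f u - f v| ≤ 2 * |u - v|

/-- the two weights -/
noncomputable def fhi (u : ℝ) : ℝ := max 0 (1 - 8 / 5 * u)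

/-- the two weights -/
noncomputable def flo (u : ℝ) : ℝ := max 0 (u - 7 / 8)

end Pool.Agent.Lib.MP_5deb1d_nt
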