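import Mathlib
import Pool.Agent.Lib.MP_5deb1d_nt.V0
import Pool.Agent.Lib.MP_5deb1d_nt.E1
import Pool.Agent.Lib.MP_5deb1d_nt.M1

/-!
JOB V1. The mass `∑_{p ≤ X, p ∈ A_a} log q(p)/(p log p)`. PROOF. `FF (fun u => u) a p / p = (∑_{q ∣ m prime, p < q²} log q)/(p log p)`, `m = sh a p`. `log m = ∑_{n ∣ m} Λ n`
(`ArithmeticFunction.vonMangoldt_sum`) `= ∑_{q ∣ m prime, q² ≤ p} log q + ∑_{q ∣ m prime, p < q²} log q + ∑_{n ∣ m, n not prime} Λ n`, the last `≥ 0`. `|log m - log p| ≤ 2/p`-type bounds (`p ≥ 3`; `p = 2` is `O(1)`), so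
`∑_{p ∈ Pr X} log m/(p log p) = ∑ 1/p + O(1) = log log X + O(1)` (`mertens2` in M1, `sum_inv_p_log`). The file E1.lean has a private proof of the same kind (`E1_log`, `E1_pt`), copy what is useful (it is imported but its
lemmas are private).
-/

set_option autoImplicit false

open Finset
open ArithmeticFunction (vonMangoldt)

namespace Pool.Agent.Lib.MP_5deb1d_nt

/-- `log (p ∓ 1)` as a sum over the divisors. -/
private lemma V1_log (a : Bool) (p : ℕ) :
    Real.log (sh a p : ℕ) = (∑ q ∈ (sh a p).divisors.filter (fun q => q.Prime ∧ p < q ^ 2), Real.log q) +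
      (∑ q ∈ (sh a p).divisors.filter (fun q => q.Prime ∧ q ^ 2 ≤ p), Real.log q) +
      (∑ n ∈ (sh a p).divisors.filter (fun n => ¬ n.Prime), vonMangoldt n) := by
  have h2 : Real.log (sh a p : ℕ) = ∑ n ∈ (sh a p).divisors, vonMangoldt n :=
    (ArithmeticFunction.vonMangoldt_sum).symm
  have h3 : ∑ n ∈ (sh a p).divisors, vonMangoldt n =
      ∑ n ∈ (sh a p).divisors.filter (fun n => n.Prime), vonMangoldt n +
        ∑ n ∈ (sh a p).divisors.filter (fun n => ¬ n.Prime), vonMangoldt n :=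
    (sum_filter_add_sum_filter_not _ _ _).symm
  have h4 : ∑ n ∈ (sh a p).divisors.filter (fun n => n.Prime), vonMangoldt n =
      ∑ n ∈ (sh a p).divisors.filter (fun n => n.Prime), Real.log n :=
    sum_congr rfl fun n hn => ArithmeticFunction.vonMangoldt_apply_prime (mem_filter.1 hn).2
  have h5 : ∑ n ∈ (sh a p).divisors.filter (fun n => n.Prime), Real.log n =
      (∑ q ∈ (sh a p).divisors.filter (fun q => q.Prime ∧ q ^ 2 ≤ p), Real.log q) +
      (∑ q ∈ (sh a p).divisors.filter (fun q => q.Prime ∧ p < q ^ 2), Real.log q) := by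
    rw [← sum_filter_add_sum_filter_not ((sh a p).divisors.filter (fun n => n.Prime))
      (fun q => q ^ 2 ≤ p), filter_filter, filter_filter]
    simp only [not_le]
  rw [h2, h3, h4, h5]
  ring

private lemma V1_FF (a : Bool) (p : ℕ) (hp : p.Prime) :
    FF (fun u => u) a p / (p : ℝ) =
      Real.log (sh a p : ℕ) / ((p : ℝ) * Real.log p) -
      (∑ q ∈ (sh a p).divisors.filter (fun q => q.Prime ∧ q ^ 2 ≤ p), Real.log q) / ((p : ℝ) * Real.log p) -
      (∑ n ∈ (sh a p).divisors.filter (fun n => ¬ n.Prime), vonMangoldt n) / ((p : ℝ) * Real.log p) := by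
  have hp2 : (2 : ℝ) ≤ p := by exact_mod_cast hp.two_le
  have hl : 0 < Real.log p := Real.log_pos (by linarith)
  have h1 : FF (fun u => u) a p =
      (∑ q ∈ (sh a p).divisors.filter (fun q => q.Prime ∧ p < q ^ 2), Real.log q) / Real.log p := by
    unfold FF
    rw [sum_div]
  rw [h1, V1_log a p, div_div, mul_comm (Real.log p) (p : ℝ)]
  ring

private lemma V1_lower (a : Bool) (p : ℕ) (hp : p.Prime) :
    1 / (p : ℝ) - 2 * (1 / ((p : ℝ) * Real.log p)) ≤ Real.log (sh a p : ℕ) / ((p : ℝ) * Real.log p) := by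
  have hp2 : (2 : ℝ) ≤ p := by exact_mod_cast hp.two_le
  have hp0 : (0 : ℝ) < p := by linarith
  have hl : 0 < Real.log p := Real.log_pos (by linarith)
  have hpl : 0 < (p : ℝ) * Real.log p := mul_pos hp0 hl
  have h2 : Real.log p - 2 ≤ Real.log (sh a p : ℕ) := by
    cases a
    · have h3 : Real.log p ≤ Real.log (sh false p : ℕ) := by
        refine Real.log_le_log hp0 ?_
        simp [sh]
      linarith
    · have h3 : ((sh true p : ℕ) : ℝ) = (p : ℝ) - 1 := by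
        simp only [sh, cond_true]
        rw [Nat.cast_sub hp.one_le, Nat.cast_one]
      rw [h3]
      have h4 : Real.log p - Real.log ((p : ℝ) - 1) = Real.log ((p : ℝ) / ((p : ℝ) - 1)) :=
        (Real.log_div hp0.ne' (by linarith)).symm
      have h5 : Real.log ((p : ℝ) / ((p : ℝ) - 1)) ≤ (p : ℝ) / ((p : ℝ) - 1) - 1 :=
        Real.log_le_sub_one_of_pos (div_pos hp0 (by linarith))
      have h6 : (p : ℝ) / ((p : ℝ) - 1) ≤ 2 := by
        rw [div_le_iff₀ (by linarith)]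
        linarith
      linarith
  have e1 : 1 / (p : ℝ) = Real.log p / ((p : ℝ) * Real.log p) := by
    rw [mul_comm, div_mul_eq_div_div, div_self hl.ne']
  calc 1 / (p : ℝ) - 2 * (1 / ((p : ℝ) * Real.log p)) = (Real.log p - 2) / ((p : ℝ) * Real.log p) := by
        rw [e1]; ring
    _ ≤ _ := div_le_div_of_nonneg_right h2 hpl.le

private lemma V1_upper (a : Bool) (p : ℕ) (hp : p.Prime) :
    Real.log (sh a p : ℕ) / ((p : ℝ) * Real.log p) ≤ 1 / (p : ℝ) + 1 / ((p : ℝ) * Real.log p) := by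
  have hp2 : (2 : ℝ) ≤ p := by exact_mod_cast hp.two_le
  have hp0 : (0 : ℝ) < p := by linarith
  have hl : 0 < Real.log p := Real.log_pos (by linarith)
  have hpl : 0 < (p : ℝ) * Real.log p := mul_pos hp0 hl
  have h0 : Real.log (sh a p : ℕ) ≤ Real.log ((p : ℝ) + 1) := by
    have hpos : 0 < sh a p := by
      cases a
      · simp [sh]
      · have := hp.two_le
        simp only [sh, cond_true]
        omega
    have hle : sh a p ≤ p + 1 := by
      cases a
      · simp [sh]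
      · simp only [sh, cond_true]
        omega
    refine Real.log_le_log (by exact_mod_cast hpos) ?_
    exact_mod_cast hle
  have h3 : Real.log ((p : ℝ) + 1) ≤ Real.log p + 1 := by
    have h4 : Real.log ((p : ℝ) + 1) - Real.log p = Real.log (((p : ℝ) + 1) / (p : ℝ)) :=
      (Real.log_div (by linarith) hp0.ne').symm
    have h5 : Real.log (((p : ℝ) + 1) / (p : ℝ)) ≤ ((p : ℝ) + 1) / (p : ℝ) - 1 :=
      Real.log_le_sub_one_of_pos (div_pos (by linarith) hp0)
    have h6 : ((p : ℝ) + 1) / (p : ℝ) ≤ 2 := by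
      rw [div_le_iff₀ hp0]
      linarith
    linarith
  have e1 : 1 / (p : ℝ) = Real.log p / ((p : ℝ) * Real.log p) := by
    rw [mul_comm, div_mul_eq_div_div, div_self hl.ne']
  calc Real.log (sh a p : ℕ) / ((p : ℝ) * Real.log p) ≤ (Real.log p + 1) / ((p : ℝ) * Real.log p) :=
        div_le_div_of_nonneg_right (h0.trans h3) hpl.le
    _ = 1 / (p : ℝ) + 1 / ((p : ℝ) * Real.log p) := by
        rw [e1]; ring

theorem mm_low : ∃ C : ℝ, 0 < C ∧ ∀ a : Bool, ∀ X : ℕ, 3 ≤ X →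
    Real.log (Real.log X) - C -
      ∑ p ∈ Pr X, (∑ q ∈ (sh a p).divisors.filter (fun q => q.Prime ∧ q ^ 2 ≤ p), Real.log q) / ((p : ℝ) * Real.log p) -
      ∑ p ∈ Pr X, (∑ n ∈ (sh a p).divisors.filter (fun n => ¬ n.Prime), vonMangoldt n) / ((p : ℝ) * Real.log p) ≤
    ∑ p ∈ Pr X, FF (fun u => u) a p / (p : ℝ) := by
  obtain ⟨C1, hC1, h1⟩ := mertens2
  obtain ⟨C2, hC2, h2⟩ := sum_inv_p_log
  refine ⟨C1 + 2 * C2, by positivity, fun a X hX => ?_⟩
  have h3 := (abs_le.1 (h1 X hX)).1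
  have h4 := h2 X
  have h5 : ∑ p ∈ Pr X, (1 / (p : ℝ) - 2 * (1 / ((p : ℝ) * Real.log p))) ≤
      ∑ p ∈ Pr X, Real.log (sh a p : ℕ) / ((p : ℝ) * Real.log p) :=
    sum_le_sum fun p hp => V1_lower a p (mem_Pr.1 hp).1
  have h6 : ∑ p ∈ Pr X, FF (fun u => u) a p / (p : ℝ) = ∑ p ∈ Pr X,
      (Real.log (sh a p : ℕ) / ((p : ℝ) * Real.log p) -
      (∑ q ∈ (sh a p).divisors.filter (fun q => q.Prime ∧ q ^ 2 ≤ p), Real.log q) / ((p : ℝ) * Real.log p) -
      (∑ n ∈ (sh a p).divisors.filter (fun n => ¬ n.Prime), vonMangoldt n) / ((p : ℝ) * Real.log p)) :=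
    sum_congr rfl fun p hp => V1_FF a p (mem_Pr.1 hp).1
  rw [sum_sub_distrib, ← mul_sum] at h5
  rw [sum_sub_distrib, sum_sub_distrib] at h6
  rw [h6]
  linarith

theorem mm_up : ∃ C : ℝ, 0 < C ∧ ∀ a : Bool, ∀ X : ℕ, 3 ≤ X →
    ∑ p ∈ Pr X, FF (fun u => u) a p / (p : ℝ) +
      ∑ p ∈ Pr X, (∑ q ∈ (sh a p).divisors.filter (fun q => q.Prime ∧ q ^ 2 ≤ p), Real.log q) / ((p : ℝ) * Real.log p) ≤
    Real.log (Real.log X) + C := by
  obtain ⟨C1, hC1, h1⟩ := mertens2
  obtain ⟨C2, hC2, h2⟩ := sum_inv_p_log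
  refine ⟨C1 + C2, by positivity, fun a X hX => ?_⟩
  have h3 := (abs_le.1 (h1 X hX)).2
  have h4 := h2 X
  have h5 : ∑ p ∈ Pr X, Real.log (sh a p : ℕ) / ((p : ℝ) * Real.log p) ≤
      ∑ p ∈ Pr X, (1 / (p : ℝ) + 1 / ((p : ℝ) * Real.log p)) :=
    sum_le_sum fun p hp => V1_upper a p (mem_Pr.1 hp).1
  have h6 : ∑ p ∈ Pr X, FF (fun u => u) a p / (p : ℝ) = ∑ p ∈ Pr X,
      (Real.log (sh a p : ℕ) / ((p : ℝ) * Real.log p) -
      (∑ q ∈ (sh a p).divisors.filter (fun q => q.Prime ∧ q ^ 2 ≤ p), Real.log q) / ((p : ℝ) * Real.log p) -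
      (∑ n ∈ (sh a p).divisors.filter (fun n => ¬ n.Prime), vonMangoldt n) / ((p : ℝ) * Real.log p)) :=
    sum_congr rfl fun p hp => V1_FF a p (mem_Pr.1 hp).1
  have h7 : 0 ≤ ∑ p ∈ Pr X, (∑ n ∈ (sh a p).divisors.filter (fun n => ¬ n.Prime), vonMangoldt n) /
      ((p : ℝ) * Real.log p) := by
    refine sum_nonneg fun p _ => div_nonneg (sum_nonneg fun n _ => ArithmeticFunction.vonMangoldt_nonneg) ?_
    exact mul_nonneg (Nat.cast_nonneg p) (Real.log_natCast_nonneg p)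
  rw [sum_add_distrib] at h5
  rw [sum_sub_distrib, sum_sub_distrib] at h6
  rw [h6]
  linarith

end Pool.Agent.Lib.MP_5deb1d_nt
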