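import Mathlib
import Pool.Agent.Lib.MP_5deb1d_nt.K11
import Pool.Agent.Lib.MP_5deb1d_nt.CH

/-!
JOB V6. A range of `k`. PROOF: exactly as `mid_excess` (file K20.lean, to be copied): `Ioc K1 K2` is covered by the blocks `Ioc (K1 2^i) (K1 2^(i+1))`, `K1 2^i < K2 ≤ 2 Q^β ≤ 2Q` (if `K2 ≤ K1` the set is empty and `WW = 0`). The main terms of `blk_WW (ε0) α`:
`∑_i log 2/(log K1 + i log 2 + log Q) ≤ log 2/log Q + log((log K2 + log Q)/(log K1 + log Q)) ≤ log 2/log Q + log(((1 + β) log Q + log 2)/((1 + α) log Q))`, which tends to `log((1+β)/(1+α))`; `ε0` small, `Q` large. The sum of the positive parts is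
`≤ (2 log Q + 2) Q^(1-η)`.
-/

set_option autoImplicit false

open Finset
open ArithmeticFunction (vonMangoldt)

namespace Pool.Agent.Lib.MP_5deb1d_nt

private lemma V6_split (b : Bool) (q K1 : ℕ) : ∀ N : ℕ,
    WW b q (Ioc K1 (K1 * 2 ^ N)) = ∑ i ∈ range N, WW b q (Ioc (K1 * 2 ^ i) (2 * (K1 * 2 ^ i))) := by
  intro N
  induction N with
  | zero => simp [WW]
  | succ N ih =>
    rw [sum_range_succ, ← ih]
    unfold WW
    have e : K1 * 2 ^ (N + 1) = 2 * (K1 * 2 ^ N) := by ring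
    rw [e]
    symm
    apply Finset.sum_Ioc_consecutive
    · exact Nat.le_mul_of_pos_right _ (by positivity)
    · omega

private lemma V6_mono (b : Bool) (q : ℕ) {S T : Finset ℕ} (h : S ⊆ T) : WW b q S ≤ WW b q T := by
  unfold WW
  refine sum_le_sum_of_subset_of_nonneg h fun k _ _ => ?_
  split_ifs
  · positivity
  · exact le_rfl

private lemma V6_log (a : ℝ) (ha : 0 < a) : ∀ N : ℕ,
    ∑ i ∈ range (N + 1), Real.log 2 / (a + i * Real.log 2)
      ≤ Real.log 2 / a + (Real.log (a + N * Real.log 2) - Real.log a) := by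
  intro N
  have h2 : 0 < Real.log 2 := Real.log_pos (by norm_num)
  induction N with
  | zero => simp
  | succ N ih =>
    rw [sum_range_succ]
    have hy : 0 < a + (N : ℝ) * Real.log 2 := by positivity
    have hy' : 0 < a + ((N + 1 : ℕ) : ℝ) * Real.log 2 := by positivity
    have key : Real.log 2 / (a + ((N + 1 : ℕ) : ℝ) * Real.log 2)
        ≤ Real.log (a + ((N + 1 : ℕ) : ℝ) * Real.log 2) - Real.log (a + N * Real.log 2) := by
      rw [← Real.log_div hy'.ne' hy.ne']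
      have h3 := Real.one_sub_inv_le_log_of_pos (div_pos hy' hy)
      refine le_trans (le_of_eq ?_) h3
      rw [inv_div, eq_sub_iff_add_eq, ← add_div, div_eq_one_iff_eq hy'.ne']
      push_cast
      ring
    linarith

private lemma V6_N (K1 K2 : ℕ) (hK : 1 ≤ K1) : ∃ N : ℕ, K2 ≤ K1 * 2 ^ N ∧ ∀ i < N, K1 * 2 ^ i ≤ K2 := by
  classical
  have hex : ∃ n : ℕ, K2 ≤ K1 * 2 ^ n := by
    refine ⟨K2, le_trans (Nat.lt_two_pow_self).le ?_⟩
    exact Nat.le_mul_of_pos_left _ hK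
  refine ⟨Nat.find hex, Nat.find_spec hex, fun i hi => ?_⟩
  have := Nat.find_min hex hi
  omega

/-- the number of blocks and the main terms -/
private lemma V6_main (K1 Q N : ℕ) (c α β : ℝ) (hc : 0 ≤ c) (hα : 0 < α) (hαβ : α ≤ β) (hβ : β ≤ 1)
    (hQ : 1 ≤ Real.log Q) (hK1 : (Q : ℝ) ^ α ≤ K1)
    (hN : ∀ i < N, (K1 : ℝ) * 2 ^ i ≤ 2 * (Q : ℝ) ^ β) :
    (N : ℝ) ≤ 4 * Real.log Q ∧
    ∑ i ∈ range N, c * Real.log 2 / (Real.log ((K1 * 2 ^ i : ℕ) : ℝ) + Real.log Q)
      ≤ c * (Real.log ((1 + β) / (1 + α)) + 2 / Real.log Q) := by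
  have h2 : 0 < Real.log 2 := Real.log_pos (by norm_num)
  have h2' := Real.log_two_gt_d9
  have h2'' := Real.log_two_lt_d9
  have hQp : (0 : ℝ) < Q := by
    rcases Nat.eq_zero_or_pos Q with h | h
    · subst h
      simp at hQ
      linarith
    · exact_mod_cast h
  have hL : 0 < Real.log Q := by linarith
  have hQα : 0 < (Q : ℝ) ^ α := Real.rpow_pos_of_pos hQp _
  have hQβ : 0 < (Q : ℝ) ^ β := Real.rpow_pos_of_pos hQp _
  have hK0 : (0 : ℝ) < K1 := lt_of_lt_of_le hQα hK1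
  have hlK : α * Real.log Q ≤ Real.log K1 := by
    rw [← Real.log_rpow hQp]
    exact Real.log_le_log hQα hK1
  have hlK0 : 0 ≤ Real.log K1 := le_trans (by positivity) hlK
  have h1α : 0 < 1 + α := by linarith
  have h1β : 0 < 1 + β := by linarith
  have hlr : 0 ≤ Real.log ((1 + β) / (1 + α)) := by
    apply Real.log_nonneg
    rw [le_div_iff₀ h1α]
    linarith
  rcases N with _ | M
  · simp only [range_zero, sum_empty, Nat.cast_zero]
    refine ⟨by linarith, ?_⟩
    positivity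
  · have hM' := hN M (Nat.lt_succ_self M)
    have hlog : Real.log K1 + M * Real.log 2 ≤ Real.log 2 + β * Real.log Q := by
      rw [← Real.log_pow, ← Real.log_mul hK0.ne' (by positivity), ← Real.log_rpow hQp,
        ← Real.log_mul (by norm_num) hQβ.ne']
      exact Real.log_le_log (by positivity) hM'
    have hβL : β * Real.log Q ≤ Real.log Q := by nlinarith
    constructor
    · push_cast
      nlinarith
    · set a : ℝ := Real.log K1 + Real.log Q with ha
      have ha0 : (1 + α) * Real.log Q ≤ a := by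
        rw [ha]
        linarith
      have ha1 : Real.log Q ≤ a := by linarith
      have hap : 0 < a := by linarith
      have h4 := V6_log a hap M
      have e1 : ∑ i ∈ range (M + 1), c * Real.log 2 / (Real.log ((K1 * 2 ^ i : ℕ) : ℝ) + Real.log Q)
          = c * ∑ i ∈ range (M + 1), Real.log 2 / (a + i * Real.log 2) := by
        rw [mul_sum]
        refine sum_congr rfl fun i _ => ?_
        have e2 : Real.log ((K1 * 2 ^ i : ℕ) : ℝ) + Real.log Q = a + i * Real.log 2 := by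
          push_cast
          rw [Real.log_mul hK0.ne' (by positivity), Real.log_pow, ha]
          ring
        rw [e2, mul_div_assoc]
      rw [e1]
      refine mul_le_mul_of_nonneg_left ?_ hc
      refine h4.trans ?_
      have h5 : Real.log 2 / a ≤ 1 / Real.log Q := by
        rw [div_le_div_iff₀ hap hL]
        nlinarith
      have h6 : Real.log (a + M * Real.log 2) - Real.log a
          ≤ Real.log ((1 + β) / (1 + α)) + 1 / Real.log Q := by
        have hs : a + M * Real.log 2 ≤ (1 + β) * Real.log Q + Real.log 2 := by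
          rw [ha]
          linarith
        have hs0 : 0 < a + M * Real.log 2 := by positivity
        have h7 : Real.log (a + M * Real.log 2) ≤ Real.log ((1 + β) * Real.log Q + Real.log 2) :=
          Real.log_le_log hs0 hs
        have h8 : Real.log ((1 + α) * Real.log Q) ≤ Real.log a := Real.log_le_log (by positivity) ha0
        rw [Real.log_mul h1α.ne' hL.ne'] at h8
        have hpos : 0 < 1 + Real.log 2 / ((1 + β) * Real.log Q) := by positivity
        have e3 : (1 + β) * Real.log Q + Real.log 2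
            = (1 + β) * (Real.log Q * (1 + Real.log 2 / ((1 + β) * Real.log Q))) := by
          field_simp
        have h9 : Real.log ((1 + β) * Real.log Q + Real.log 2)
            = Real.log (1 + β) + (Real.log (Real.log Q) + Real.log (1 + Real.log 2 / ((1 + β) * Real.log Q))) := by
          rw [e3, Real.log_mul h1β.ne' (by positivity), Real.log_mul hL.ne' hpos.ne']
        have h10 : Real.log (1 + Real.log 2 / ((1 + β) * Real.log Q)) ≤ Real.log 2 / ((1 + β) * Real.log Q) := by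
          have := Real.log_le_sub_one_of_pos hpos
          linarith
        have h11 : Real.log 2 / ((1 + β) * Real.log Q) ≤ 1 / Real.log Q := by
          rw [div_le_div_iff₀ (by positivity) hL]
          nlinarith
        have h12 : Real.log ((1 + β) / (1 + α)) = Real.log (1 + β) - Real.log (1 + α) :=
          Real.log_div h1β.ne' h1α.ne'
        rw [h12]
        linarith
      have e4 : 2 / Real.log Q = 1 / Real.log Q + 1 / Real.log Q := by ring
      rw [e4]
      linarith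

theorem rng (α β ε : ℝ) (hα : 0 < α) (hαβ : α ≤ β) (hβ : β ≤ 1) (hε : 0 < ε) : ∃ Q0 : ℕ, ∀ Q : ℕ, Q0 ≤ Q → ∀ K1 K2 : ℕ,
    (Q : ℝ) ^ α ≤ K1 → (K2 : ℝ) ≤ 2 * (Q : ℝ) ^ β → ∀ b : Bool,
    ∑ q ∈ PB Q, max 0 (WW b q (Ioc K1 K2) - (4 * Real.log ((1 + β) / (1 + α)) + ε)) ≤ ε * (Q / Real.log Q) := by
  obtain ⟨η, hη, Q1, hQ1⟩ := blk_WW (ε / 4) α (by positivity) hα (hαβ.trans hβ)
  have hL : Filter.Tendsto (fun Q : ℕ => Real.log Q) Filter.atTop Filter.atTop :=
    Real.tendsto_log_atTop.comp tendsto_natCast_atTop_atTop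
  have e1 : ∀ᶠ Q : ℕ in Filter.atTop, max 1 ((4 + ε / 4) * 8 / ε) ≤ Real.log Q :=
    hL.eventually_ge_atTop _
  have e2 : ∀ᶠ Q : ℕ in Filter.atTop, Real.log Q ^ (2 : ℝ) ≤ (ε / 4) * (Q : ℝ) ^ η := by
    have h0 := (isLittleO_log_rpow_rpow_atTop 2 hη).def (c := ε / 4) (by positivity)
    have h1 := (tendsto_natCast_atTop_atTop (R := ℝ)).eventually h0
    filter_upwards [h1, e1] with Q h h'
    have hl : 1 ≤ Real.log Q := le_trans (le_max_left _ _) h'
    rwa [Real.norm_of_nonneg (by positivity), Real.norm_of_nonneg (by positivity)] at h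
  obtain ⟨Q2, hQ2⟩ := Filter.eventually_atTop.1 (e1.and e2)
  refine ⟨max 1 (max Q1 Q2), fun Q hQ K1 K2 hK1 hK2 b => ?_⟩
  have hQge1 : 1 ≤ Q := le_trans (le_max_left _ _) hQ
  have hQgeQ1 : Q1 ≤ Q := le_trans (le_trans (le_max_left _ _) (le_max_right _ _)) hQ
  have hQgeQ2 : Q2 ≤ Q := le_trans (le_trans (le_max_right _ _) (le_max_right _ _)) hQ
  obtain ⟨hA, hB⟩ := hQ2 Q hQgeQ2
  have hl : 1 ≤ Real.log Q := le_trans (le_max_left _ _) hA
  have hl2 : (4 + ε / 4) * 8 / ε ≤ Real.log Q := le_trans (le_max_right _ _) hA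
  have hQr : (1 : ℝ) ≤ Q := by exact_mod_cast hQge1
  have hQpos : (0 : ℝ) < Q := by linarith
  have hK1' : (1 : ℝ) ≤ K1 := le_trans (Real.one_le_rpow hQr hα.le) hK1
  have hK1n : 1 ≤ K1 := by exact_mod_cast hK1'
  have h1α : 0 < 1 + α := by linarith
  have hlr : 0 ≤ Real.log ((1 + β) / (1 + α)) := by
    apply Real.log_nonneg
    rw [le_div_iff₀ h1α]
    linarith
  have hlr1 : Real.log ((1 + β) / (1 + α)) ≤ 1 := by
    have h3 : (1 + β) / (1 + α) ≤ 2 := by
      rw [div_le_iff₀ h1α]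
      linarith
    have h4 : 0 < (1 + β) / (1 + α) := div_pos (by linarith) h1α
    have h5 := Real.log_le_sub_one_of_pos h4
    linarith
  obtain ⟨N, hN1, hN2⟩ := V6_N K1 K2 hK1n
  have hN2' : ∀ i < N, (K1 : ℝ) * 2 ^ i ≤ 2 * (Q : ℝ) ^ β := by
    intro i hi
    refine le_trans ?_ hK2
    exact_mod_cast hN2 i hi
  have hN2'' : ∀ i < N, K1 * 2 ^ i ≤ 2 * Q := by
    intro i hi
    have h3 := hN2' i hi
    have h4 : (Q : ℝ) ^ β ≤ Q := by
      calc (Q : ℝ) ^ β ≤ (Q : ℝ) ^ (1 : ℝ) := Real.rpow_le_rpow_of_exponent_le hQr hβ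
        _ = Q := Real.rpow_one _
    have h5 : (K1 : ℝ) * 2 ^ i ≤ 2 * Q := by linarith
    exact_mod_cast h5
  obtain ⟨hN3, hN4⟩ := V6_main K1 Q N (4 + ε / 4) α β (by positivity) hα hαβ hβ hl hK1 hN2'
  set M : ℕ → ℝ := fun i => (4 + ε / 4) * Real.log 2 / (Real.log ((K1 * 2 ^ i : ℕ) : ℝ) + Real.log Q) with hM
  -- the main terms
  have hmain : ∑ i ∈ range N, M i ≤ 4 * Real.log ((1 + β) / (1 + α)) + ε / 2 := by
    refine hN4.trans ?_
    have h3 : (4 + ε / 4) * (2 / Real.log Q) ≤ ε / 4 := by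
      rw [div_le_iff₀ hε] at hl2
      rw [mul_div_assoc', div_le_iff₀ (by positivity)]
      linarith
    have h4 : ε * Real.log ((1 + β) / (1 + α)) ≤ ε * 1 := mul_le_mul_of_nonneg_left hlr1 hε.le
    have h5 : (4 + ε / 4) * (Real.log ((1 + β) / (1 + α)) + 2 / Real.log Q)
        = 4 * Real.log ((1 + β) / (1 + α)) + ε * Real.log ((1 + β) / (1 + α)) / 4
          + (4 + ε / 4) * (2 / Real.log Q) := by ring
    rw [h5]
    linarith
  -- every prime
  have hlow : ∀ q ∈ PB Q, max 0 (WW b q (Ioc K1 K2) - (4 * Real.log ((1 + β) / (1 + α)) + ε)) ≤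
      ∑ i ∈ range N, max 0 (WW b q (Ioc (K1 * 2 ^ i) (2 * (K1 * 2 ^ i))) - M i) := by
    intro q _
    refine max_le (sum_nonneg fun i _ => le_max_left _ _) ?_
    have h1 : WW b q (Ioc K1 K2) ≤ ∑ i ∈ range N, WW b q (Ioc (K1 * 2 ^ i) (2 * (K1 * 2 ^ i))) := by
      rw [← V6_split]
      exact V6_mono b q (Ioc_subset_Ioc_right hN1)
    have h2 : ∑ i ∈ range N, (WW b q (Ioc (K1 * 2 ^ i) (2 * (K1 * 2 ^ i))) - M i)
        ≤ ∑ i ∈ range N, max 0 (WW b q (Ioc (K1 * 2 ^ i) (2 * (K1 * 2 ^ i))) - M i) :=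
      sum_le_sum fun i _ => le_max_right _ _
    rw [sum_sub_distrib] at h2
    linarith
  have hup : ∀ i ∈ range N, ∑ q ∈ PB Q, max 0 (WW b q (Ioc (K1 * 2 ^ i) (2 * (K1 * 2 ^ i))) - M i)
      ≤ (Q : ℝ) ^ (1 - η) := by
    intro i hi
    have h1 := hQ1 Q hQgeQ1 (K1 * 2 ^ i) ?_ (hN2'' i (mem_range.1 hi)) b
    · exact h1
    · refine hK1.trans ?_
      have : K1 ≤ K1 * 2 ^ i := Nat.le_mul_of_pos_right _ (by positivity)
      exact_mod_cast this
  have hsum : ∑ q ∈ PB Q, max 0 (WW b q (Ioc K1 K2) - (4 * Real.log ((1 + β) / (1 + α)) + ε))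
      ≤ N * (Q : ℝ) ^ (1 - η) := by
    calc ∑ q ∈ PB Q, max 0 (WW b q (Ioc K1 K2) - (4 * Real.log ((1 + β) / (1 + α)) + ε))
        ≤ ∑ q ∈ PB Q, ∑ i ∈ range N, max 0 (WW b q (Ioc (K1 * 2 ^ i) (2 * (K1 * 2 ^ i))) - M i) :=
        sum_le_sum hlow
      _ = ∑ i ∈ range N, ∑ q ∈ PB Q, max 0 (WW b q (Ioc (K1 * 2 ^ i) (2 * (K1 * 2 ^ i))) - M i) :=
        sum_comm
      _ ≤ ∑ _i ∈ range N, (Q : ℝ) ^ (1 - η) := sum_le_sum hup
      _ = N * (Q : ℝ) ^ (1 - η) := by rw [sum_const, card_range, nsmul_eq_mul]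
  -- the end
  have hpow : (Q : ℝ) ^ η * (Q : ℝ) ^ (1 - η) = Q := by
    rw [← Real.rpow_add hQpos]
    simp
  have hP : 0 < (Q : ℝ) ^ (1 - η) := Real.rpow_pos_of_pos hQpos _
  rw [Real.rpow_two] at hB
  have h5 : Real.log Q ^ 2 * (Q : ℝ) ^ (1 - η) ≤ ε / 4 * Q := by
    calc Real.log Q ^ 2 * (Q : ℝ) ^ (1 - η) ≤ (ε / 4) * (Q : ℝ) ^ η * (Q : ℝ) ^ (1 - η) :=
          mul_le_mul_of_nonneg_right hB hP.le
      _ = ε / 4 * Q := by rw [mul_assoc, hpow]
  have h6 := hsum.trans (mul_le_mul_of_nonneg_right hN3 hP.le)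
  have hLp : 0 < Real.log Q := by linarith
  rw [mul_div_assoc', le_div_iff₀ hLp]
  calc (∑ q ∈ PB Q, max 0 (WW b q (Ioc K1 K2) - (4 * Real.log ((1 + β) / (1 + α)) + ε))) * Real.log Q
      ≤ 4 * Real.log Q * (Q : ℝ) ^ (1 - η) * Real.log Q := mul_le_mul_of_nonneg_right h6 hLp.le
    _ = 4 * (Real.log Q ^ 2 * (Q : ℝ) ^ (1 - η)) := by ring
    _ ≤ 4 * (ε / 4 * Q) := by linarith
    _ = ε * Q := by ring

end Pool.Agent.Lib.MP_5deb1d_nt
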