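import Mathlib
import Pool.Agent.Lib.MP_5deb1d_nt.V0

/-!
JOB V7. (1) `u_bd`: `nn b k q ≥ k q - 1 ≥ k (Q+1) - 1 ≥ k Q ≥ Q^(1+α)` and `nn b k q ≤ k q + 1 ≤ 5 Q^(1+β)`; `log Q ≤ log q ≤ log Q + log 2`. So `u ≤ (log Q + log 2)/((1+α) log Q) ≤ 1/(1+α) + 1/log Q` and
`u ≥ log Q/((1+β) log Q + log 5) ≥ 1/(1+β) - 2/log Q`, `1/(1+α) - 1/(1+β) ≤ β - α`. (2) `riem`: for `t ∈ [1 + j/J, 1 + (j+1)/J]`: `f(1/(1+j/J)) ≤ f(1/t) + 2/J` (Lipschitz, `1/t` is 1-Lipschitz on `t ≥ 1`), so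
`f(1/(1+j/J)) 4 log(t_{j+1}/t_j) = ∫ 4 f(1/t_j)/t ≤ ∫ 4 f(1/t)/t + (8/J) ∫ 1/t`; sum over `1 ≤ j < J` and add the piece `[1, 1 + 1/J]`, `f ≥ 0`; `log 2 ≤ 1`.
-/

set_option autoImplicit false

open Finset
open ArithmeticFunction (vonMangoldt)

namespace Pool.Agent.Lib.MP_5deb1d_nt

private theorem V7_cont {f : ℝ → ℝ} (hf : Wt f) : Continuous f := by
  have h1 : LipschitzWith 2 f := LipschitzWith.of_dist_le_mul fun x y => by
    rw [Real.dist_eq, Real.dist_eq]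
    exact hf.lip x y
  exact h1.continuous

private theorem V7_contOn {f : ℝ → ℝ} (hf : Wt f) : ContinuousOn (fun t : ℝ => 4 * f (1 / t) / t) (Set.Ioi 0) := by
  have h0 : ∀ t ∈ Set.Ioi (0 : ℝ), t ≠ 0 := fun t ht => ne_of_gt ht
  exact (continuousOn_const.mul ((V7_cont hf).comp_continuousOn
    (continuousOn_const.div continuousOn_id h0))).div continuousOn_id h0

private theorem V7_inv : ContinuousOn (fun t : ℝ => t⁻¹) (Set.Ioi 0) :=
  continuousOn_inv₀.mono fun _ ht => ne_of_gt ht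

private theorem V7_int {g : ℝ → ℝ} (hg : ContinuousOn g (Set.Ioi 0)) {a b : ℝ} (ha : 0 < a) (hab : a ≤ b) :
    IntervalIntegrable g MeasureTheory.volume a b := by
  refine ContinuousOn.intervalIntegrable (hg.mono ?_)
  rw [Set.uIcc_of_le hab]
  intro x hx
  exact lt_of_lt_of_le ha hx.1

/-- The estimate for one piece. -/
private theorem V7_piece {f : ℝ → ℝ} (hf : Wt f) {a b δ : ℝ} (ha : 1 ≤ a) (hab : a ≤ b) (hδ : b - a ≤ δ) :
    f (1 / a) * (4 * Real.log (b / a)) ≤ ∫ t in a..b, (4 * f (1 / t) / t + 8 * δ * t⁻¹) := by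
  have ha0 : 0 < a := by linarith
  have hb0 : 0 < b := by linarith
  have h1 : f (1 / a) * (4 * Real.log (b / a)) = ∫ t in a..b, (f (1 / a) * 4) * t⁻¹ := by
    rw [intervalIntegral.integral_const_mul, integral_inv_of_pos ha0 hb0]
    ring
  rw [h1]
  refine intervalIntegral.integral_mono_on hab (V7_int (continuousOn_const.mul V7_inv) ha0 hab)
    (V7_int ((V7_contOn hf).add (continuousOn_const.mul V7_inv)) ha0 hab) fun t ht => ?_
  have ht0 : 0 < t := lt_of_lt_of_le ha0 ht.1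
  have ht1 : 1 ≤ t := ha.trans ht.1
  have h2 := hf.lip (1 / a) (1 / t)
  have h3 : |1 / a - 1 / t| ≤ δ := by
    have e1 : 1 / a - 1 / t = (t - a) / (a * t) := by
      field_simp
    have e2 : 1 ≤ a * t := one_le_mul_of_one_le_of_one_le ha ht1
    rw [e1, abs_of_nonneg (div_nonneg (by linarith [ht.1]) (by linarith))]
    have e3 : (t - a) / (a * t) ≤ t - a := div_le_self (by linarith [ht.1]) e2
    linarith [ht.2]
  have h4 : f (1 / a) ≤ f (1 / t) + 2 * δ := by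
    have h5 := (abs_le.1 h2).2
    linarith
  have h6 : 0 < t⁻¹ := inv_pos.2 ht0
  have h7 : (f (1 / a) * 4) * t⁻¹ ≤ ((f (1 / t) + 2 * δ) * 4) * t⁻¹ :=
    mul_le_mul_of_nonneg_right (by linarith) h6.le
  refine h7.trans (le_of_eq ?_)
  rw [div_eq_mul_inv]
  ring

theorem u_bd (Q q k : ℕ) (b : Bool) (α β : ℝ) (hQ : 3 ≤ Q) (hq : q ∈ PB Q) (hα : 0 ≤ α) (hαβ : α ≤ β) (hβ : β ≤ 1)
    (hk1 : (Q : ℝ) ^ α ≤ k) (hk2 : (k : ℝ) ≤ 2 * (Q : ℝ) ^ β) :
    |Real.log q / Real.log (nn b k q : ℕ) - 1 / (1 + α)| ≤ (β - α) + 4 / Real.log Q := by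
  obtain ⟨hqp, hq1, hq2⟩ := mem_PB.1 hq
  have hQR : (3 : ℝ) ≤ Q := by exact_mod_cast hQ
  have hQ0 : (0 : ℝ) < Q := by linarith
  have hL : 1 ≤ Real.log Q := by
    rw [Real.le_log_iff_exp_le hQ0]
    exact Real.exp_one_lt_d9.le.trans (by linarith)
  have hL0 : 0 < Real.log Q := by linarith
  have hQα : 1 ≤ (Q : ℝ) ^ α := Real.one_le_rpow (by linarith) hα
  have hk : 1 ≤ k := by
    have h1 : (1 : ℝ) ≤ k := hQα.trans hk1
    exact_mod_cast h1
  have hkR : (1 : ℝ) ≤ k := by exact_mod_cast hk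
  have hqR1 : (Q : ℝ) + 1 ≤ q := by exact_mod_cast hq1
  have hqR2 : (q : ℝ) ≤ 2 * Q := by exact_mod_cast hq2
  have hqR0 : (0 : ℝ) < q := by linarith
  have hkq : 1 ≤ k * q := Nat.one_le_iff_ne_zero.2 (Nat.mul_ne_zero (by omega) hqp.pos.ne')
  -- the bounds for `nn b k q`
  have hlow : (k : ℝ) * q - 1 ≤ (nn b k q : ℕ) := by
    cases b
    · show (k : ℝ) * q - 1 ≤ ((k * q + 1 : ℕ) : ℝ)
      push_cast
      linarith
    · show (k : ℝ) * q - 1 ≤ ((k * q - 1 : ℕ) : ℝ)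
      rw [Nat.cast_sub hkq]
      push_cast
      exact le_rfl
  have hup : ((nn b k q : ℕ) : ℝ) ≤ k * q + 1 := by
    cases b
    · show ((k * q + 1 : ℕ) : ℝ) ≤ k * q + 1
      push_cast
      exact le_rfl
    · show ((k * q - 1 : ℕ) : ℝ) ≤ k * q + 1
      rw [Nat.cast_sub hkq]
      push_cast
      linarith
  have hN1 : (Q : ℝ) ^ (1 + α) ≤ (nn b k q : ℕ) := by
    rw [Real.rpow_add hQ0, Real.rpow_one]
    have h1 : (Q : ℝ) * (Q : ℝ) ^ α ≤ Q * k := mul_le_mul_of_nonneg_left hk1 hQ0.le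
    have h2 : (k : ℝ) * (Q + 1) ≤ k * q := mul_le_mul_of_nonneg_left hqR1 (by linarith)
    nlinarith
  have hN2 : ((nn b k q : ℕ) : ℝ) ≤ 5 * (Q : ℝ) ^ (1 + β) := by
    rw [Real.rpow_add hQ0, Real.rpow_one]
    have hQβ : 1 ≤ (Q : ℝ) ^ β := Real.one_le_rpow (by linarith) (hα.trans hαβ)
    have h1 : (k : ℝ) * q ≤ (2 * (Q : ℝ) ^ β) * (2 * Q) := mul_le_mul hk2 hqR2 hqR0.le (by linarith)
    have h2 : 1 ≤ (Q : ℝ) * (Q : ℝ) ^ β := one_le_mul_of_one_le_of_one_le (by linarith) hQβ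
    nlinarith
  have hQ1 : 0 < (Q : ℝ) ^ (1 + α) := Real.rpow_pos_of_pos hQ0 _
  have hN0 : (0 : ℝ) < (nn b k q : ℕ) := lt_of_lt_of_le hQ1 hN1
  have hlog1 : (1 + α) * Real.log Q ≤ Real.log (nn b k q : ℕ) := by
    rw [← Real.log_rpow hQ0]
    exact Real.log_le_log hQ1 hN1
  have hlog2 : Real.log (nn b k q : ℕ) ≤ (1 + β) * Real.log Q + 2 := by
    have h1 := Real.log_le_log hN0 hN2
    rw [Real.log_mul (by norm_num) (Real.rpow_pos_of_pos hQ0 _).ne', Real.log_rpow hQ0] at h1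
    have h2 : Real.log 5 ≤ 2 := by
      rw [Real.log_le_iff_le_exp (by norm_num)]
      have h3 : Real.exp 2 = Real.exp 1 * Real.exp 1 := by
        rw [← Real.exp_add]
        norm_num
      have h4 := Real.exp_one_gt_d9
      rw [h3]
      nlinarith
    linarith
  have hq3 : Real.log Q ≤ Real.log q := Real.log_le_log hQ0 (by linarith)
  have hq4 : Real.log q ≤ Real.log Q + 1 := by
    have h1 := Real.log_le_log hqR0 hqR2
    rw [Real.log_mul (by norm_num) hQ0.ne'] at h1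
    have h2 : Real.log 2 ≤ 1 := by
      have := Real.log_two_lt_d9
      linarith
    linarith
  obtain ⟨L, hLd⟩ : ∃ L, L = Real.log Q := ⟨_, rfl⟩
  obtain ⟨M, hMd⟩ : ∃ M, M = Real.log (nn b k q : ℕ) := ⟨_, rfl⟩
  obtain ⟨l, hld⟩ : ∃ l, l = Real.log q := ⟨_, rfl⟩
  rw [← hLd] at hL hL0 hlog1 hlog2 hq3 hq4 ⊢
  rw [← hMd] at hlog1 hlog2 ⊢
  rw [← hld] at hq3 hq4 ⊢
  have hα1 : (0 : ℝ) < 1 + α := by linarith
  have hβ1 : (0 : ℝ) < 1 + β := by linarith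
  have hM0 : 0 < M := lt_of_lt_of_le (mul_pos hα1 hL0) hlog1
  rw [abs_le]
  constructor
  · have h1 : L / ((1 + β) * L + 2) ≤ l / M := by
      have h2 : 0 < (1 + β) * L + 2 := by positivity
      rw [div_le_div_iff₀ h2 hM0]
      have h3 : L * M ≤ L * ((1 + β) * L + 2) := mul_le_mul_of_nonneg_left hlog2 hL0.le
      have h4 : L * ((1 + β) * L + 2) ≤ l * ((1 + β) * L + 2) := mul_le_mul_of_nonneg_right hq3 h2.le
      exact h3.trans h4
    have h2 : 1 / (1 + β) - 4 / L ≤ L / ((1 + β) * L + 2) := by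
      have h3 : 0 < (1 + β) * L + 2 := by positivity
      have h4 : 1 / (1 + β) - L / ((1 + β) * L + 2) = 2 / ((1 + β) * ((1 + β) * L + 2)) := by
        field_simp
        ring
      have h5 : 2 / ((1 + β) * ((1 + β) * L + 2)) ≤ 2 / L := by
        refine div_le_div_of_nonneg_left (by norm_num) hL0 ?_
        have h6 : L ≤ (1 + β) * L + 2 := by nlinarith
        have h7 : (1 + β) * L + 2 ≤ (1 + β) * ((1 + β) * L + 2) := le_mul_of_one_le_left h3.le (by linarith)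
        exact h6.trans h7
      have h6 : 2 / L ≤ 4 / L := div_le_div_of_nonneg_right (by norm_num) hL0.le
      linarith
    have h3 : 1 / (1 + α) - 1 / (1 + β) ≤ β - α := by
      have h4 : 1 / (1 + α) - 1 / (1 + β) = (β - α) / ((1 + α) * (1 + β)) := by
        field_simp
        ring
      rw [h4]
      exact div_le_self (by linarith) (one_le_mul_of_one_le_of_one_le (by linarith) (by linarith))
    linarith
  · have h1 : l / M ≤ (L + 1) / ((1 + α) * L) := div_le_div₀ (by linarith) hq4 (mul_pos hα1 hL0) hlog1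
    have h2 : (L + 1) / ((1 + α) * L) = 1 / (1 + α) + 1 / ((1 + α) * L) := by
      field_simp
    have h3 : 1 / ((1 + α) * L) ≤ 1 / L :=
      div_le_div_of_nonneg_left zero_le_one hL0 (by nlinarith)
    have h4 : 1 / L ≤ 4 / L := div_le_div_of_nonneg_right (by norm_num) hL0.le
    linarith

theorem riem (f : ℝ → ℝ) (hf : Wt f) (J : ℕ) (hJ : 1 ≤ J) :
    ∑ j ∈ Ico 1 J, f (1 / (1 + (j : ℝ) / J)) * (4 * Real.log ((1 + ((j : ℝ) + 1) / J) / (1 + (j : ℝ) / J))) ≤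
      (∫ t in (1 : ℝ)..2, 4 * f (1 / t) / t) + 8 / J := by
  have hJ0 : (0 : ℝ) < J := by exact_mod_cast hJ
  obtain ⟨t, ht⟩ : ∃ t : ℕ → ℝ, ∀ j : ℕ, t j = 1 + (j : ℝ) / J := ⟨fun j => 1 + (j : ℝ) / J, fun _ => rfl⟩
  have ht' : ∀ j : ℕ, t (j + 1) = 1 + ((j : ℝ) + 1) / J := fun j => by
    rw [ht]
    push_cast
    rfl
  have h1 : ∀ j : ℕ, 1 ≤ t j := fun j => by
    rw [ht]
    have : 0 ≤ (j : ℝ) / J := by positivity
    linarith
  have h2 : ∀ j : ℕ, t (j + 1) - t j = 1 / J := fun j => by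
    rw [ht', ht]
    field_simp
    ring
  have h3 : ∀ j : ℕ, t j ≤ t (j + 1) := fun j => by
    have := h2 j
    have h4 : 0 ≤ 1 / (J : ℝ) := by positivity
    linarith
  have hT : ∀ j : ℕ, 0 ≤ f (1 / t j) * (4 * Real.log (t (j + 1) / t j)) := fun j => by
    refine mul_nonneg (hf.pos _) (mul_nonneg (by norm_num) (Real.log_nonneg ?_))
    rw [le_div_iff₀ (by linarith [h1 j]), one_mul]
    exact h3 j
  have h4 : ∑ j ∈ Ico 1 J, f (1 / (1 + (j : ℝ) / J)) *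
      (4 * Real.log ((1 + ((j : ℝ) + 1) / J) / (1 + (j : ℝ) / J))) =
      ∑ j ∈ Ico 1 J, f (1 / t j) * (4 * Real.log (t (j + 1) / t j)) := by
    refine sum_congr rfl fun j _ => ?_
    rw [ht', ht]
  rw [h4]
  have h5 : ∑ j ∈ Ico 1 J, f (1 / t j) * (4 * Real.log (t (j + 1) / t j)) ≤
      ∑ j ∈ range J, f (1 / t j) * (4 * Real.log (t (j + 1) / t j)) := by
    refine sum_le_sum_of_subset_of_nonneg (fun j hj => ?_) fun j _ _ => hT j
    rw [mem_range]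
    exact (mem_Ico.1 hj).2
  refine h5.trans ?_
  have hcont : ContinuousOn (fun s : ℝ => 4 * f (1 / s) / s + 8 * (1 / (J : ℝ)) * s⁻¹) (Set.Ioi 0) :=
    (V7_contOn hf).add (continuousOn_const.mul V7_inv)
  have h6 : ∑ j ∈ range J, f (1 / t j) * (4 * Real.log (t (j + 1) / t j)) ≤
      ∑ j ∈ range J, ∫ s in (t j)..(t (j + 1)), (4 * f (1 / s) / s + 8 * (1 / (J : ℝ)) * s⁻¹) :=
    sum_le_sum fun j _ => V7_piece hf (h1 j) (h3 j) (h2 j).le
  refine h6.trans ?_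
  have h10 := intervalIntegral.sum_integral_adjacent_intervals (μ := MeasureTheory.volume)
    (f := fun s : ℝ => 4 * f (1 / s) / s + 8 * (1 / (J : ℝ)) * s⁻¹) (a := t) (n := J)
    fun j _ => V7_int hcont (by linarith [h1 j]) (h3 j)
  rw [h10]
  have e0 : t 0 = 1 := by
    rw [ht, Nat.cast_zero, zero_div, add_zero]
  have eJ : t J = 2 := by
    rw [ht, div_self hJ0.ne']
    norm_num
  have h11 : ∫ s in (1 : ℝ)..2, (4 * f (1 / s) / s + 8 * (1 / (J : ℝ)) * s⁻¹) =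
      (∫ s in (1 : ℝ)..2, 4 * f (1 / s) / s) + ∫ s in (1 : ℝ)..2, 8 * (1 / (J : ℝ)) * s⁻¹ :=
    intervalIntegral.integral_add (V7_int (V7_contOn hf) one_pos one_le_two)
      (V7_int (continuousOn_const.mul V7_inv) one_pos one_le_two)
  rw [e0, eJ, h11, intervalIntegral.integral_const_mul, integral_inv_of_pos one_pos two_pos, div_one]
  have h7 : Real.log 2 ≤ 1 := by
    have := Real.log_two_lt_d9
    linarith
  have h8 : 8 * (1 / (J : ℝ)) * Real.log 2 ≤ 8 / J := by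
    have h9 : 0 ≤ 8 * (1 / (J : ℝ)) := by positivity
    calc 8 * (1 / (J : ℝ)) * Real.log 2 ≤ 8 * (1 / (J : ℝ)) * 1 := mul_le_mul_of_nonneg_left h7 h9
      _ = 8 / J := by ring
  linarith

end Pool.Agent.Lib.MP_5deb1d_nt
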