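import Mathlib
import Pool.Agent.Lib.MP_5deb1d_nt.V6
import Pool.Agent.Lib.MP_5deb1d_nt.V7
import Pool.Agent.Lib.MP_5deb1d_nt.K15
import Pool.Agent.Lib.MP_5deb1d_nt.CH

/-!
JOB V8. A block with weights. PROOF. `J ≥ 2` large (in terms of `ε`), `K_j = ⌈Q^(j/J)⌉` for `1 ≤ j < J`, `K_J = 2Q`. `Ioc 0 q ⊆ Ioc 0 (2Q)` is the disjoint union of `Ioc 0 K_1` and the `Ioc K_j K_(j+1)`, `1 ≤ j < J` (terms `≥ 0`). `k ≤ K_1`: `0 ≤ u ≤ 2` (`q ≤ (nn b k q)²`), `f u ≤ 2`, so at most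
`2 WW b q (Ioc 0 K_1)`; on average `small_avg` with `κ = 2/J` (`K_1 ≤ Q^(2/J)`): `≤ 2 C (2/J) Q/log Q`. `k ∈ Ioc K_j K_(j+1)`: `u_bd` with `α = j/J`, `β = (j+1)/J` and `lip`: `f u ≤ f(1/(1+j/J)) + 2/J + 8/log Q`, so the piece is at most
`(f(1/(1+j/J)) + 2/J + 8/log Q) WW b q (Ioc K_j K_(j+1))`, and `rng (j/J) ((j+1)/J) ε'` (`ε'` tiny in terms of `J`): `WW ≤ 4 log(t_(j+1)/t_j) + ε' + (positive part)`. The main terms add up to at most `∫ + 8/J + (2/J + 8/log Q) 4 log 2 + 10 J ε'` (`riem`), at most `∫ + ε/10` for suitable `J`, `ε'`, `Q`;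
sum over `q ∈ PB Q`, `card_PB`.
-/

set_option autoImplicit false

open Finset
open ArithmeticFunction (vonMangoldt)

namespace Pool.Agent.Lib.MP_5deb1d_nt

private lemma V8_piece (f : ℝ → ℝ) (hf : Wt f) (Q q K1 K2 : ℕ) (b : Bool) (α β : ℝ) (hQ : 3 ≤ Q)
    (hq : q ∈ PB Q) (hα : 0 ≤ α) (hαβ : α ≤ β) (hβ : β ≤ 1) (hK1 : (Q : ℝ) ^ α ≤ K1)
    (hK2 : (K2 : ℝ) ≤ 2 * (Q : ℝ) ^ β) :
    WF f b q (Ioc K1 K2)
      ≤ (f (1 / (1 + α)) + 2 * ((β - α) + 4 / Real.log Q)) * WW b q (Ioc K1 K2) := by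
  unfold WF WW
  rw [mul_sum]
  apply sum_le_sum
  intro k hk
  rw [mem_Ioc] at hk
  split_ifs with hp
  · have h1 : (Q : ℝ) ^ α ≤ k := hK1.trans (by exact_mod_cast hk.1.le)
    have h2 : (k : ℝ) ≤ 2 * (Q : ℝ) ^ β := le_trans (by exact_mod_cast hk.2) hK2
    have h3 := u_bd Q q k b α β hQ hq hα hαβ hβ h1 h2
    have h4 := hf.lip (Real.log q / Real.log (nn b k q : ℕ)) (1 / (1 + α))
    have h5 := (le_abs_self _).trans h4
    rw [div_eq_mul_one_div]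
    refine mul_le_mul_of_nonneg_right ?_ (by positivity)
    linarith
  · rw [mul_zero]

private lemma V8_small (f : ℝ → ℝ) (hf : Wt f) (Q q K : ℕ) (b : Bool) (hQ : 3 ≤ Q)
    (hq : q ∈ PB Q) : WF f b q (Ioc 0 K) ≤ 2 * WW b q (Ioc 0 K) := by
  unfold WF WW
  rw [mul_sum]
  apply sum_le_sum
  intro k hk
  rw [mem_Ioc] at hk
  obtain ⟨hqp, hq1, hq2⟩ := mem_PB.1 hq
  split_ifs with hp
  · have hkq : q ≤ k * q := Nat.le_mul_of_pos_left q hk.1
    have hsq : q ≤ (nn b k q) ^ 2 := by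
      cases b
      · have h1 : nn false k q = k * q + 1 := rfl
        rw [h1]
        nlinarith
      · have h1 : nn true k q = k * q - 1 := rfl
        obtain ⟨m, hm⟩ : ∃ m, k * q = m + 1 := ⟨k * q - 1, by omega⟩
        have h2 : nn true k q = m := by rw [h1, hm]; rfl
        rw [h2]
        have h3 : 3 ≤ m := by omega
        nlinarith
    have hn1 : (1 : ℝ) < (nn b k q : ℕ) := by exact_mod_cast hp.one_lt
    have hln : 0 < Real.log (nn b k q : ℕ) := Real.log_pos hn1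
    have hq0 : (0 : ℝ) < q := by exact_mod_cast hqp.pos
    have h2 : Real.log q / Real.log (nn b k q : ℕ) ≤ 2 := by
      rw [div_le_iff₀ hln]
      have h3 : Real.log q ≤ Real.log (((nn b k q : ℕ) : ℝ) ^ 2) :=
        Real.log_le_log hq0 (by exact_mod_cast hsq)
      rw [Real.log_pow] at h3
      exact_mod_cast h3
    have h1 : 0 ≤ Real.log q / Real.log (nn b k q : ℕ) :=
      div_nonneg (Real.log_natCast_nonneg q) hln.le
    rw [div_eq_mul_one_div]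
    exact mul_le_mul_of_nonneg_right (hf.bd _ h1 h2) (by positivity)
  · rw [mul_zero]

private lemma V8_sub (f : ℝ → ℝ) (hf : Wt f) (Q q : ℕ) (b : Bool) (hq : q ∈ PB Q) :
    WF f b q (Ioc 0 q) ≤ WF f b q (Ioc 0 (2 * Q)) := by
  unfold WF
  apply sum_le_sum_of_subset_of_nonneg
  · exact Ioc_subset_Ioc le_rfl (mem_PB.1 hq).2.2
  · intro k _ _
    split_ifs
    · exact div_nonneg (hf.pos _) (Nat.cast_nonneg _)
    · exact le_rfl

private lemma V8_tel (g : ℕ → ℝ) (K : ℕ → ℕ) (J : ℕ) (hJ : 1 ≤ J)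
    (hK : ∀ j, 1 ≤ j → j < J → K j ≤ K (j + 1)) :
    ∑ k ∈ Ioc 0 (K J), g k
      = ∑ k ∈ Ioc 0 (K 1), g k + ∑ j ∈ Ico 1 J, ∑ k ∈ Ioc (K j) (K (j + 1)), g k := by
  induction J, hJ using Nat.le_induction with
  | base => simp
  | succ m hm ih =>
    rw [sum_Ico_succ_top hm, ← add_assoc, ← ih (fun j h1 h2 => hK j h1 (by omega)),
      Finset.sum_Ioc_consecutive g (Nat.zero_le _) (hK m hm (Nat.lt_succ_self m))]

private lemma V8_M (J j : ℕ) (hJ : 1 ≤ J) :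
    0 ≤ 4 * Real.log ((1 + ((j : ℝ) + 1) / J) / (1 + (j : ℝ) / J)) ∧
      4 * Real.log ((1 + ((j : ℝ) + 1) / J) / (1 + (j : ℝ) / J)) ≤ 4 / J := by
  have hJ0 : (0 : ℝ) < J := by exact_mod_cast hJ
  have hα : (0 : ℝ) ≤ (j : ℝ) / J := by positivity
  have hβ : ((j : ℝ) + 1) / J = (j : ℝ) / J + 1 / J := by ring
  rw [hβ]
  generalize (j : ℝ) / J = α at hα
  have hJi : (0 : ℝ) < 1 / J := by positivity
  have hpos : (0 : ℝ) < 1 + α := by linarith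
  have hq : (1 + (α + 1 / J)) / (1 + α) = 1 + (1 / J) / (1 + α) := by
    field_simp
    ring
  have hx : 0 ≤ (1 / (J : ℝ)) / (1 + α) := by positivity
  have hx2 : (1 / (J : ℝ)) / (1 + α) ≤ 1 / J := div_le_self hJi.le (by linarith)
  rw [hq]
  constructor
  · have := Real.log_nonneg (by linarith : (1 : ℝ) ≤ 1 + (1 / (J : ℝ)) / (1 + α))
    linarith
  · have := Real.log_le_sub_one_of_pos (by linarith : (0 : ℝ) < 1 + (1 / (J : ℝ)) / (1 + α))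
    have h4 : (4 : ℝ) / J = 4 * (1 / J) := by ring
    rw [h4]
    linarith

private lemma V8_point (f : ℝ → ℝ) (hf : Wt f) (J : ℕ) (hJ : 4 ≤ J) (Q q : ℕ) (b : Bool)
    (K : ℕ → ℕ) (e : ℝ) (he : 0 ≤ e) (hL : 16 ≤ Real.log Q) (hq : q ∈ PB Q) (hQ : 3 ≤ Q)
    (hlow : ∀ j : ℕ, 1 ≤ j → j < J → (Q : ℝ) ^ ((j : ℝ) / J) ≤ K j)
    (hup : ∀ j : ℕ, 1 ≤ j → j < J → (K (j + 1) : ℝ) ≤ 2 * (Q : ℝ) ^ (((j : ℝ) + 1) / J))
    (hmon : ∀ j, 1 ≤ j → j < J → K j ≤ K (j + 1)) (hKJ : K J = 2 * Q) :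
    max 0 (WF f b q (Ioc 0 q) - ∫ t in (1 : ℝ)..2, 4 * f (1 / t) / t)
      ≤ 2 * WW b q (Ioc 0 (K 1)) + (16 / J + 32 / Real.log Q + 3 * J * e)
        + 3 * ∑ j ∈ Ico 1 J, max 0 (WW b q (Ioc (K j) (K (j + 1)))
          - (4 * Real.log ((1 + ((j : ℝ) + 1) / J) / (1 + (j : ℝ) / J)) + e)) := by
  have hJ0 : (0 : ℝ) < J := by
    have : (4 : ℝ) ≤ J := by exact_mod_cast hJ
    linarith
  have hL0 : 0 < Real.log Q := by linarith
  have hJ4 : (4 : ℝ) ≤ J := by exact_mod_cast hJ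
  set δ : ℝ := 2 * (1 / J + 4 / Real.log Q) with hδ
  have hδ0 : 0 ≤ δ := by positivity
  have hδ1 : δ ≤ 1 := by
    have h1 : (1 : ℝ) / J ≤ 1 / 4 := by
      apply one_div_le_one_div_of_le (by norm_num) hJ4
    have h2 : 4 / Real.log Q ≤ 1 / 4 := by
      rw [div_le_iff₀ hL0]
      linarith
    rw [hδ]
    linarith
  have hrie := riem f hf J (by omega)
  set I : ℝ := ∫ t in (1 : ℝ)..2, 4 * f (1 / t) / t with hI
  have hJmul : (J : ℝ) * (4 / J) = 4 := by field_simp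
  -- the pieces
  have hpiece : ∀ j ∈ Ico 1 J, WF f b q (Ioc (K j) (K (j + 1)))
      ≤ f (1 / (1 + (j : ℝ) / J))
          * (4 * Real.log ((1 + ((j : ℝ) + 1) / J) / (1 + (j : ℝ) / J)))
        + (δ * (4 / J) + 3 * e)
        + 3 * max 0 (WW b q (Ioc (K j) (K (j + 1)))
          - (4 * Real.log ((1 + ((j : ℝ) + 1) / J) / (1 + (j : ℝ) / J)) + e)) := by
    intro j hj
    rw [mem_Ico] at hj
    have hj1 : (1 : ℝ) ≤ j := by exact_mod_cast hj.1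
    have hjJ : (j : ℝ) + 1 ≤ J := by exact_mod_cast hj.2
    have hα : (0 : ℝ) ≤ (j : ℝ) / J := by positivity
    have hαβ : (j : ℝ) / J ≤ ((j : ℝ) + 1) / J := by
      apply div_le_div_of_nonneg_right _ hJ0.le
      linarith
    have hβ : ((j : ℝ) + 1) / J ≤ 1 := by
      rw [div_le_one hJ0]
      exact hjJ
    have h1 := V8_piece f hf Q q (K j) (K (j + 1)) b _ _ hQ hq hα hαβ hβ
      (hlow j hj.1 hj.2) (hup j hj.1 hj.2)
    have hd : ((j : ℝ) + 1) / J - (j : ℝ) / J = 1 / J := by ring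
    rw [hd, ← hδ] at h1
    obtain ⟨hM0, hM1⟩ := V8_M J j (by omega)
    have hf0 := hf.pos (1 / (1 + (j : ℝ) / J))
    have hf2 : f (1 / (1 + (j : ℝ) / J)) ≤ 2 := by
      apply hf.bd
      · positivity
      · have : 1 / (1 + (j : ℝ) / J) ≤ 1 := by
          rw [div_le_one (by positivity)]
          linarith
        linarith
    generalize 4 * Real.log ((1 + ((j : ℝ) + 1) / J) / (1 + (j : ℝ) / J)) = M at hM0 hM1 ⊢
    generalize f (1 / (1 + (j : ℝ) / J)) = F at h1 hf0 hf2 ⊢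
    have hW := le_max_right (0 : ℝ) (WW b q (Ioc (K j) (K (j + 1))) - (M + e))
    have hE := le_max_left (0 : ℝ) (WW b q (Ioc (K j) (K (j + 1))) - (M + e))
    generalize max 0 (WW b q (Ioc (K j) (K (j + 1))) - (M + e)) = E at hW hE ⊢
    have hFδ : 0 ≤ F + δ := by linarith
    have h2 : (F + δ) * WW b q (Ioc (K j) (K (j + 1))) ≤ (F + δ) * (M + e + E) :=
      mul_le_mul_of_nonneg_left (by linarith) hFδ
    have h3 : δ * M ≤ δ * (4 / J) := mul_le_mul_of_nonneg_left hM1 hδ0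
    have h4 : (F + δ) * (e + E) ≤ 3 * (e + E) :=
      mul_le_mul_of_nonneg_right (by linarith) (by linarith)
    have h5 : (F + δ) * (M + e + E) = F * M + δ * M + (F + δ) * (e + E) := by ring
    rw [h5] at h2
    linarith
  have htel : WF f b q (Ioc 0 (2 * Q))
      = WF f b q (Ioc 0 (K 1)) + ∑ j ∈ Ico 1 J, WF f b q (Ioc (K j) (K (j + 1))) := by
    rw [← hKJ]
    exact V8_tel _ K J (by omega) hmon
  have hsum := sum_le_sum hpiece
  rw [sum_add_distrib, sum_add_distrib, sum_const, nsmul_eq_mul, ← mul_sum, Nat.card_Ico] at hsum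
  have hcard : ((J - 1 : ℕ) : ℝ) * (δ * (4 / J) + 3 * e) ≤ J * (δ * (4 / J) + 3 * e) := by
    apply mul_le_mul_of_nonneg_right
    · exact_mod_cast Nat.sub_le J 1
    · positivity
  have hJδ : (J : ℝ) * (δ * (4 / J) + 3 * e) = 4 * δ + 3 * J * e := by
    have h1 : (J : ℝ) * (δ * (4 / J) + 3 * e) = δ * (J * (4 / J)) + 3 * J * e := by ring
    rw [h1, hJmul]
    ring
  have hsm := V8_small f hf Q q (K 1) b hQ hq
  have hsb := V8_sub f hf Q q b hq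
  have hWn := WW_nonneg b q (Ioc 0 (K 1))
  have hEn : 0 ≤ ∑ j ∈ Ico 1 J, max 0 (WW b q (Ioc (K j) (K (j + 1)))
      - (4 * Real.log ((1 + ((j : ℝ) + 1) / J) / (1 + (j : ℝ) / J)) + e)) :=
    sum_nonneg fun j _ => le_max_left _ _
  have h16 : (8 : ℝ) / J + 4 * δ = 16 / J + 32 / Real.log Q := by
    rw [hδ]
    ring
  apply max_le
  · positivity
  · linarith

theorem wblk (f : ℝ → ℝ) (hf : Wt f) (ε : ℝ) (hε : 0 < ε) : ∃ Q0 : ℕ, ∀ Q : ℕ, Q0 ≤ Q → ∀ b : Bool,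
    ∑ q ∈ PB Q, max 0 (WF f b q (Ioc 0 q) - ∫ t in (1 : ℝ)..2, 4 * f (1 / t) / t) ≤ ε * (Q / Real.log Q) := by
  obtain ⟨C, hC, hs⟩ := small_avg
  -- choose J
  obtain ⟨J, hJ⟩ : ∃ J : ℕ, max 4 (16 * (C + 16) / ε) ≤ J := exists_nat_ge _
  have hJ4r : (4 : ℝ) ≤ J := (le_max_left _ _).trans hJ
  have hJ4 : 4 ≤ J := by exact_mod_cast hJ4r
  have hJε : 16 * (C + 16) / ε ≤ J := (le_max_right _ _).trans hJ
  have hJ0 : (0 : ℝ) < J := by linarith
  have hCJ : (4 * C + 64) / J ≤ ε / 4 := by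
    rw [div_le_iff₀ hε] at hJε
    rw [div_le_iff₀ hJ0]
    linarith
  obtain ⟨e, he, heJ⟩ : ∃ e : ℝ, 0 < e ∧ 15 * J * e = ε / 4 := by
    refine ⟨ε / 4 / (15 * J), by positivity, ?_⟩
    field_simp
  have hκ0 : (0 : ℝ) < 2 / J := by positivity
  have hκ1 : (2 : ℝ) / J ≤ 1 := by
    rw [div_le_one hJ0]
    linarith
  obtain ⟨Q1, h1⟩ := hs (2 / J) hκ0 hκ1
  have hr : ∀ j : ℕ, ∃ Q0 : ℕ, 1 ≤ j → j < J → ∀ Q : ℕ, Q0 ≤ Q → ∀ K1 K2 : ℕ,
      (Q : ℝ) ^ ((j : ℝ) / J) ≤ K1 → (K2 : ℝ) ≤ 2 * (Q : ℝ) ^ (((j : ℝ) + 1) / J) → ∀ b : Bool,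
      ∑ q ∈ PB Q, max 0 (WW b q (Ioc K1 K2)
        - (4 * Real.log ((1 + ((j : ℝ) + 1) / J) / (1 + (j : ℝ) / J)) + e))
          ≤ e * (Q / Real.log Q) := by
    intro j
    by_cases hj : 1 ≤ j ∧ j < J
    · have hj1 : (1 : ℝ) ≤ j := by exact_mod_cast hj.1
      have hjJ : (j : ℝ) + 1 ≤ J := by exact_mod_cast hj.2
      obtain ⟨Q0, h0⟩ := rng ((j : ℝ) / J) (((j : ℝ) + 1) / J) e (by positivity)
        (div_le_div_of_nonneg_right (by linarith) hJ0.le) (by rw [div_le_one hJ0]; exact hjJ) he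
      exact ⟨Q0, fun _ _ => h0⟩
    · exact ⟨0, fun ha hb => absurd ⟨ha, hb⟩ hj⟩
  choose q0 hq0 using hr
  refine ⟨max (max Q1 ((Ico 1 J).sup q0)) (max (2 ^ J) (⌈Real.exp (16 + 512 / ε)⌉₊)), ?_⟩
  intro Q hQ b
  have hQ1 : Q1 ≤ Q := (le_max_left _ _).trans ((le_max_left _ _).trans hQ)
  have hQ2 : (Ico 1 J).sup q0 ≤ Q := (le_max_right _ _).trans ((le_max_left _ _).trans hQ)
  have hQ3 : 2 ^ J ≤ Q := (le_max_left _ _).trans ((le_max_right _ _).trans hQ)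
  have hQ4 : ⌈Real.exp (16 + 512 / ε)⌉₊ ≤ Q := (le_max_right _ _).trans ((le_max_right _ _).trans hQ)
  have hQJ : 2 ^ 4 ≤ Q := (Nat.pow_le_pow_right (by norm_num) hJ4).trans hQ3
  have hQ16 : 16 ≤ Q := by simpa using hQJ
  have hQr : (16 : ℝ) ≤ Q := by exact_mod_cast hQ16
  have hQ1r : (1 : ℝ) ≤ Q := by linarith
  have hLbig : 16 + 512 / ε ≤ Real.log Q := by
    rw [Real.le_log_iff_exp_le (by linarith)]
    exact (Nat.le_ceil _).trans (by exact_mod_cast hQ4)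
  have hεi : 0 < 512 / ε := by positivity
  have hL16 : 16 ≤ Real.log Q := by linarith
  have hL0 : 0 < Real.log Q := by linarith
  have hLε : 128 / Real.log Q ≤ ε / 4 := by
    have h2 : 512 / ε ≤ Real.log Q := by linarith
    rw [div_le_iff₀ hε] at h2
    rw [div_le_iff₀ hL0]
    linarith
  -- the cutting points
  obtain ⟨K, hK⟩ : ∃ K : ℕ → ℕ, K = fun j : ℕ =>
      if j < J then ⌈(Q : ℝ) ^ ((j : ℝ) / J)⌉₊ else 2 * Q := ⟨_, rfl⟩
  have hKlt : ∀ j : ℕ, j < J → K j = ⌈(Q : ℝ) ^ ((j : ℝ) / J)⌉₊ := by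
    intro j hj
    rw [hK]
    exact if_pos hj
  have hKJ : K J = 2 * Q := by
    rw [hK]
    exact if_neg (lt_irrefl J)
  have hone : ∀ j : ℕ, (1 : ℝ) ≤ (Q : ℝ) ^ ((j : ℝ) / J) := fun j =>
    Real.one_le_rpow hQ1r (by positivity)
  have hlow : ∀ j : ℕ, 1 ≤ j → j < J → (Q : ℝ) ^ ((j : ℝ) / J) ≤ K j := by
    intro j _ hj
    rw [hKlt j hj]
    exact Nat.le_ceil _
  have hup0 : ∀ j : ℕ, j < J → (K j : ℝ) ≤ 2 * (Q : ℝ) ^ ((j : ℝ) / J) := by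
    intro j hj
    rw [hKlt j hj]
    have h2 := Nat.ceil_lt_add_one (by linarith [hone j] : (0 : ℝ) ≤ (Q : ℝ) ^ ((j : ℝ) / J))
    linarith [hone j]
  have hup : ∀ j : ℕ, 1 ≤ j → j < J →
      (K (j + 1) : ℝ) ≤ 2 * (Q : ℝ) ^ (((j : ℝ) + 1) / J) := by
    intro j _ hj
    by_cases hj2 : j + 1 < J
    · have h2 := hup0 (j + 1) hj2
      push_cast at h2
      exact h2
    · have h3 : j + 1 = J := by omega
      have h4 : ((j : ℝ) + 1) / J = 1 := by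
        rw [div_eq_one_iff_eq hJ0.ne']
        exact_mod_cast h3
      rw [h4, Real.rpow_one, h3, hKJ]
      push_cast
      exact le_rfl
  have hmon : ∀ j, 1 ≤ j → j < J → K j ≤ K (j + 1) := by
    intro j _ hj
    by_cases hj2 : j + 1 < J
    · rw [hKlt j hj, hKlt (j + 1) hj2]
      apply Nat.ceil_le_ceil
      apply Real.rpow_le_rpow_of_exponent_le hQ1r
      apply div_le_div_of_nonneg_right _ hJ0.le
      push_cast
      linarith
    · have h3 : j + 1 = J := by omega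
      rw [h3, hKJ, hKlt j hj]
      apply Nat.ceil_le.2
      have h5 : (Q : ℝ) ^ ((j : ℝ) / J) ≤ (Q : ℝ) ^ (1 : ℝ) := by
        apply Real.rpow_le_rpow_of_exponent_le hQ1r
        rw [div_le_one hJ0]
        exact_mod_cast hj.le
      rw [Real.rpow_one] at h5
      push_cast
      linarith
  have hK1 : (K 1 : ℝ) ≤ (Q : ℝ) ^ ((2 : ℝ) / J) := by
    have h2 := hup0 1 (by omega)
    have h3 : (2 : ℝ) ≤ (Q : ℝ) ^ ((1 : ℝ) / J) := by
      have h4 : ((2 : ℝ) ^ (J : ℝ)) ^ ((1 : ℝ) / J) = 2 := by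
        rw [← Real.rpow_mul (by norm_num)]
        have h5 : (J : ℝ) * (1 / J) = 1 := by field_simp
        rw [h5, Real.rpow_one]
      have h6 : (2 : ℝ) ^ (J : ℝ) ≤ Q := by
        rw [Real.rpow_natCast]
        exact_mod_cast hQ3
      calc (2 : ℝ) = ((2 : ℝ) ^ (J : ℝ)) ^ ((1 : ℝ) / J) := h4.symm
        _ ≤ (Q : ℝ) ^ ((1 : ℝ) / J) := Real.rpow_le_rpow (by positivity) h6 (by positivity)
    have h7 : (Q : ℝ) ^ ((2 : ℝ) / J) = (Q : ℝ) ^ ((1 : ℝ) / J) * (Q : ℝ) ^ ((1 : ℝ) / J) := by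
      rw [← Real.rpow_add (by linarith)]
      congr 1
      ring
    rw [h7]
    push_cast at h2
    refine h2.trans ?_
    exact mul_le_mul_of_nonneg_right h3 (by positivity)
  have hcard := card_PB Q (by omega)
  have hA := h1 Q hQ1 (K 1) hK1 b
  have hT : 0 ≤ (Q : ℝ) / Real.log Q := by positivity
  have hB : ∀ j ∈ Ico 1 J, ∑ q ∈ PB Q, max 0 (WW b q (Ioc (K j) (K (j + 1)))
      - (4 * Real.log ((1 + ((j : ℝ) + 1) / J) / (1 + (j : ℝ) / J)) + e))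
        ≤ e * (Q / Real.log Q) := by
    intro j hj
    have hj' := mem_Ico.1 hj
    exact hq0 j hj'.1 hj'.2 Q ((le_sup hj).trans hQ2) (K j) (K (j + 1)) (hlow j hj'.1 hj'.2)
      (hup j hj'.1 hj'.2) b
  have hpt : ∀ q ∈ PB Q, max 0 (WF f b q (Ioc 0 q) - ∫ t in (1 : ℝ)..2, 4 * f (1 / t) / t)
      ≤ 2 * WW b q (Ioc 0 (K 1)) + (16 / J + 32 / Real.log Q + 3 * J * e)
        + 3 * ∑ j ∈ Ico 1 J, max 0 (WW b q (Ioc (K j) (K (j + 1)))
          - (4 * Real.log ((1 + ((j : ℝ) + 1) / J) / (1 + (j : ℝ) / J)) + e)) := fun q hq =>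
    V8_point f hf J hJ4 Q q b K e he.le hL16 hq (by omega) hlow hup hmon hKJ
  refine (sum_le_sum hpt).trans ?_
  rw [sum_add_distrib, sum_add_distrib, sum_const, nsmul_eq_mul, ← mul_sum, ← mul_sum, sum_comm]
  have hBs := sum_le_sum hB
  rw [sum_const, nsmul_eq_mul, Nat.card_Ico] at hBs
  generalize (Q : ℝ) / Real.log Q = T at hA hBs hcard hT ⊢
  have hBs2 : ((J - 1 : ℕ) : ℝ) * (e * T) ≤ J * (e * T) := by
    apply mul_le_mul_of_nonneg_right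
    · exact_mod_cast Nat.sub_le J 1
    · positivity
  have hc0 : 0 ≤ 16 / (J : ℝ) + 32 / Real.log Q + 3 * J * e := by positivity
  have hcc := mul_le_mul_of_nonneg_right hcard hc0
  have hfin : 2 * (C * (2 / J) * T) + 4 * T * (16 / J + 32 / Real.log Q + 3 * J * e)
      + 3 * (J * (e * T)) = ((4 * C + 64) / J + 128 / Real.log Q + 15 * J * e) * T := by
    ring
  have hfin2 : ((4 * C + 64) / J + 128 / Real.log Q + 15 * J * e) * T ≤ ε * T := by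
    apply mul_le_mul_of_nonneg_right _ hT
    rw [heJ]
    linarith
  linarith

end Pool.Agent.Lib.MP_5deb1d_nt
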