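import Mathlib
import Pool.Agent.Lib.MP_5deb1d_nt.V0
import Pool.Agent.Lib.MP_5deb1d_nt.D2

/-!
JOB V9. Switching `p` and `q`. PROOF. Exchange the sums: `∑_{p ∈ Pr X} FF f a p/p = ∑_p ∑_{q ∣ sh a p prime, p < q²} f(log q/log p)/p`; `q ≤ X` (`le_of_big` in D2.lean, `3 ≤ X`). With `b = !a` and `k = (sh a p)/q`: `p = nn b k q` (`a = true`: `p - 1 = k q`; `a = false`: `p + 1 = k q`), `1 ≤ k ≤ q`
(`k q ≤ p + 1 ≤ q²`), and `(q, k) ↦ nn b k q` is injective in `k`. `1/p ≤ 1/(k q) + 2/(k q)²` (`k q ≥ 3` if `p = k q - 1` is prime, so `1/(kq - 1) - 1/(kq) ≤ 2/(kq)²`). `0 ≤ u ≤ 2` (`q ≤ p + 1 ≤ p²`), `f u ≤ 2`, so the error is `≤ 4 ∑_q ∑_k 1/(k q)² ≤ C`.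
-/

set_option autoImplicit false

open Finset
open ArithmeticFunction (vonMangoldt)

namespace Pool.Agent.Lib.MP_5deb1d_nt

/-- the error of one term -/
private theorem V9_real {c p k q : ℝ} (hc0 : 0 ≤ c) (hc : c ≤ 2) (hk : 1 ≤ k) (hq : 2 ≤ q)
    (hp : k * q - 1 ≤ p) : c / p ≤ c / k / q + 4 * (1 / k ^ 2) * (1 / q ^ 2) := by
  have hm : 2 ≤ k * q := by nlinarith
  have h1 : c / k / q = c / (k * q) := by rw [div_div]
  have h2 : 4 * (1 / k ^ 2) * (1 / q ^ 2) = 4 / (k * q) ^ 2 := by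
    field_simp
  rw [h1, h2]
  generalize k * q = m at hm hp
  have hm0 : 0 < m := by linarith
  have hm1 : 0 < m - 1 := by linarith
  have h3 : c / p ≤ c / (m - 1) := div_le_div_of_nonneg_left hc0 hm1 hp
  have h4 : c / (m - 1) = c / m + c / (m * (m - 1)) := by
    field_simp
    ring
  have h5 : c / (m * (m - 1)) ≤ 4 / m ^ 2 := by
    rw [div_le_div_iff₀ (mul_pos hm0 hm1) (by positivity)]
    have h6 : c * m ^ 2 ≤ 2 * m ^ 2 := mul_le_mul_of_nonneg_right hc (by positivity)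
    nlinarith
  linarith

/-- the second prime number and the quotient -/
private theorem V9_fact (a : Bool) {p q X : ℕ} (hX : 3 ≤ X) (hp : p ∈ Pr X)
    (hq : q ∈ (sh a p).divisors.filter (fun q => q.Prime ∧ p < q ^ 2)) :
    p.Prime ∧ q ∈ Pr X ∧ 0 < sh a p / q ∧ sh a p / q ≤ q ∧ nn (!a) (sh a p / q) q = p ∧
      (sh a p / q) * q ≤ p + 1 ∧ q ≤ p + 1 := by
  obtain ⟨hp1, hp2⟩ := mem_Pr.1 hp
  rw [mem_filter, Nat.mem_divisors] at hq
  obtain ⟨⟨hd, h0⟩, hq1, hq2⟩ := hq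
  have hle : sh a p ≤ p + 1 := by
    cases a with
    | true =>
      simp only [sh, cond_true]
      omega
    | false =>
      simp only [sh, cond_false]
      omega
  have hpos : 0 < sh a p := Nat.pos_of_ne_zero h0
  have hmul : sh a p / q * q = sh a p := Nat.div_mul_cancel hd
  have hk : 0 < sh a p / q := Nat.div_pos (Nat.le_of_dvd hpos hd) hq1.pos
  have hkq : sh a p / q ≤ q := by
    by_contra h
    rw [not_le] at h
    have h1 : q * q + q ≤ sh a p / q * q := by nlinarith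
    have h2 := hq1.two_le
    nlinarith
  refine ⟨hp1, mem_Pr.2 ⟨hq1, le_of_big a p hp1 q hq1 hd X hX hp2⟩, hk, hkq, ?_, hmul.le.trans hle,
    (Nat.le_of_dvd hpos hd).trans hle⟩
  have h2 := hp1.two_le
  cases a with
  | true =>
    show sh true p / q * q + 1 = p
    rw [hmul]
    simp only [sh, cond_true]
    omega
  | false =>
    show sh false p / q * q - 1 = p
    rw [hmul]
    simp only [sh, cond_false]
    omega

private theorem V9_log {p q : ℕ} (hp : p.Prime) (hq : 0 < q) (h : q ≤ p + 1) :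
    0 ≤ Real.log q / Real.log p ∧ Real.log q / Real.log p ≤ 2 := by
  have h2 := hp.two_le
  have hp1 : (1 : ℝ) < p := by exact_mod_cast hp.one_lt
  have hl : 0 < Real.log p := Real.log_pos hp1
  have hq1 : (1 : ℝ) ≤ q := by exact_mod_cast hq
  refine ⟨div_nonneg (Real.log_nonneg hq1) hl.le, ?_⟩
  rw [div_le_iff₀ hl]
  have h3 : q ≤ p ^ 2 := by nlinarith
  have h4 : (q : ℝ) ≤ (p : ℝ) ^ 2 := by exact_mod_cast h3
  have h5 := Real.log_le_log (by linarith) h4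
  rw [Real.log_pow] at h5
  exact_mod_cast h5

private theorem V9_sum (s : Finset ℕ) : ∑ n ∈ s, 1 / (n : ℝ) ^ 2 ≤ ∑' n : ℕ, 1 / (n : ℝ) ^ 2 := by
  have h : Summable fun n : ℕ => 1 / (n : ℝ) ^ 2 := Real.summable_one_div_nat_pow.2 (by norm_num)
  exact h.sum_le_tsum s fun n _ => by positivity

theorem switch (f : ℝ → ℝ) (hf : Wt f) : ∃ C : ℝ, 0 < C ∧ ∀ a : Bool, ∀ X : ℕ, 3 ≤ X →
    ∑ p ∈ Pr X, FF f a p / (p : ℝ) ≤ ∑ q ∈ Pr X, WF f (!a) q (Ioc 0 q) / (q : ℝ) + C := by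
  classical
  obtain ⟨S, hS⟩ : ∃ S : ℝ, S = ∑' n : ℕ, 1 / (n : ℝ) ^ 2 := ⟨_, rfl⟩
  have hS0 : 0 ≤ S := by
    rw [hS]
    exact tsum_nonneg fun n => by positivity
  have hsum : ∀ s : Finset ℕ, ∑ n ∈ s, 1 / (n : ℝ) ^ 2 ≤ S := fun s => hS ▸ V9_sum s
  refine ⟨4 * S * S + 1, by positivity, fun a X hX => ?_⟩
  -- the terms
  let G : (_ : ℕ) × ℕ → ℝ := fun y =>
    (if (nn (!a) y.2 y.1).Prime then f (Real.log y.1 / Real.log (nn (!a) y.2 y.1 : ℕ)) / (y.2 : ℝ)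
      else 0) / (y.1 : ℝ) + 4 * (1 / (y.2 : ℝ) ^ 2) * (1 / (y.1 : ℝ) ^ 2)
  have hG0 : ∀ y, 0 ≤ G y := by
    intro y
    refine add_nonneg (div_nonneg ?_ (Nat.cast_nonneg _)) (by positivity)
    split_ifs
    · exact div_nonneg (hf.pos _) (Nat.cast_nonneg _)
    · exact le_rfl
  let e : (_ : ℕ) × ℕ → (_ : ℕ) × ℕ := fun x => ⟨x.2, sh a x.1 / x.2⟩
  let T : Finset ((_ : ℕ) × ℕ) :=
    (Pr X).sigma fun p => (sh a p).divisors.filter (fun q => q.Prime ∧ p < q ^ 2)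
  let U : Finset ((_ : ℕ) × ℕ) := (Pr X).sigma fun q => Ioc 0 q
  have h1 : ∑ p ∈ Pr X, FF f a p / (p : ℝ) =
      ∑ x ∈ T, f (Real.log x.2 / Real.log x.1) / (x.1 : ℝ) := by
    rw [Finset.sum_sigma]
    refine Finset.sum_congr rfl fun p _ => ?_
    unfold FF
    rw [Finset.sum_div]
  have h2 : ∀ x ∈ T, f (Real.log x.2 / Real.log x.1) / (x.1 : ℝ) ≤ G (e x) := by
    rintro ⟨p, q⟩ hx
    obtain ⟨hp, hq⟩ := Finset.mem_sigma.1 hx
    obtain ⟨f1, f2, f3, f4, f5, f6, f7⟩ := V9_fact a hX hp hq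
    obtain ⟨q1, -⟩ := mem_Pr.1 f2
    obtain ⟨l1, l2⟩ := V9_log f1 q1.pos f7
    show f (Real.log q / Real.log p) / (p : ℝ) ≤
      (if (nn (!a) (sh a p / q) q).Prime then
        f (Real.log q / Real.log (nn (!a) (sh a p / q) q : ℕ)) / ((sh a p / q : ℕ) : ℝ)
        else 0) / (q : ℝ) + 4 * (1 / ((sh a p / q : ℕ) : ℝ) ^ 2) * (1 / (q : ℝ) ^ 2)
    rw [f5, if_pos f1]
    refine V9_real (hf.pos _) (hf.bd _ l1 l2) (by exact_mod_cast f3) (by exact_mod_cast q1.two_le) ?_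
    have h3 : (((sh a p / q : ℕ) : ℝ)) * q ≤ p + 1 := by exact_mod_cast f6
    linarith
  have h3 : Set.InjOn e T := by
    rintro ⟨p, q⟩ hx ⟨p', q'⟩ hx' h
    obtain ⟨hp, hq⟩ := Finset.mem_sigma.1 (Finset.mem_coe.1 hx)
    obtain ⟨hp', hq'⟩ := Finset.mem_sigma.1 (Finset.mem_coe.1 hx')
    obtain ⟨-, -, -, -, f5, -, -⟩ := V9_fact a hX hp hq
    obtain ⟨-, -, -, -, f5', -, -⟩ := V9_fact a hX hp' hq'
    have e1 : q = q' := congrArg (fun z : (_ : ℕ) × ℕ => z.1) h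
    have e2 : sh a p / q = sh a p' / q' := congrArg (fun z : (_ : ℕ) × ℕ => z.2) h
    simp only [] at f5 f5'
    subst e1
    have e3 : p = p' := by
      rw [← f5, ← f5', e2]
    subst e3
    rfl
  have h4 : T.image e ⊆ U := by
    intro y hy
    obtain ⟨⟨p, q⟩, hx, rfl⟩ := Finset.mem_image.1 hy
    obtain ⟨hp, hq⟩ := Finset.mem_sigma.1 hx
    obtain ⟨-, f2, f3, f4, -, -, -⟩ := V9_fact a hX hp hq
    exact Finset.mem_sigma.2 ⟨f2, Finset.mem_Ioc.2 ⟨f3, f4⟩⟩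
  have h5 : ∑ p ∈ Pr X, FF f a p / (p : ℝ) ≤ ∑ y ∈ U, G y := by
    rw [h1]
    refine (Finset.sum_le_sum h2).trans ?_
    rw [← Finset.sum_image (f := G) h3]
    exact Finset.sum_le_sum_of_subset_of_nonneg h4 fun y _ _ => hG0 y
  refine h5.trans ?_
  have h6 : ∑ y ∈ U, G y = ∑ q ∈ Pr X, WF f (!a) q (Ioc 0 q) / (q : ℝ) +
      ∑ q ∈ Pr X, ∑ k ∈ Ioc 0 q, 4 * (1 / (k : ℝ) ^ 2) * (1 / (q : ℝ) ^ 2) := by
    rw [Finset.sum_sigma, ← Finset.sum_add_distrib]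
    refine Finset.sum_congr rfl fun q _ => ?_
    unfold WF
    rw [Finset.sum_div, ← Finset.sum_add_distrib]
  rw [h6]
  have h7 : ∑ q ∈ Pr X, ∑ k ∈ Ioc 0 q, 4 * (1 / (k : ℝ) ^ 2) * (1 / (q : ℝ) ^ 2) ≤ 4 * S * S := by
    calc ∑ q ∈ Pr X, ∑ k ∈ Ioc 0 q, 4 * (1 / (k : ℝ) ^ 2) * (1 / (q : ℝ) ^ 2)
        ≤ ∑ q ∈ Pr X, 4 * S * (1 / (q : ℝ) ^ 2) := by
          refine Finset.sum_le_sum fun q _ => ?_
          rw [← Finset.sum_mul, ← Finset.mul_sum]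
          exact mul_le_mul_of_nonneg_right (mul_le_mul_of_nonneg_left (hsum _) (by norm_num))
            (by positivity)
      _ = 4 * S * ∑ q ∈ Pr X, 1 / (q : ℝ) ^ 2 := by rw [Finset.mul_sum]
      _ ≤ 4 * S * S := mul_le_mul_of_nonneg_left (hsum _) (by positivity)
  linarith

end Pool.Agent.Lib.MP_5deb1d_nt
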