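import Mathlib
import Pool.Agent.Lib.MP_5deb1d_nt.V8
import Pool.Agent.Lib.MP_5deb1d_nt.V9
import Pool.Agent.Lib.MP_5deb1d_nt.DY
import Pool.Agent.Lib.MP_5deb1d_nt.M1

/-!
JOB V10. The weighted sum. PROOF: `dyadic_o` (DY.lean) with `g q = max 0 (WF f b q (Ioc 0 q) - I)`, `I = ∫ ... ≥ 0`, for `b = true` and `b = false` (`wblk`), `WF ≤ I + g q`, `∑_{q ∈ Pr X} 1/q ≤ log log X + C` (`mertens2`), `switch`; constants are absorbed by `log log X → ∞`.
-/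

set_option autoImplicit false

open Finset
open ArithmeticFunction (vonMangoldt)

namespace Pool.Agent.Lib.MP_5deb1d_nt

private lemma V10_split (f : ℝ → ℝ) (I : ℝ) (b : Bool) (X : ℕ) :
    ∑ q ∈ Pr X, WF f b q (Ioc 0 q) / (q : ℝ) ≤
      I * ∑ q ∈ Pr X, 1 / (q : ℝ) + ∑ q ∈ Pr X, |max 0 (WF f b q (Ioc 0 q) - I)| / (q : ℝ) := by
  rw [mul_sum, ← sum_add_distrib]
  refine sum_le_sum fun q _ => ?_
  have h0 : WF f b q (Ioc 0 q) ≤ I + |max 0 (WF f b q (Ioc 0 q) - I)| := by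
    have h1 := le_max_right 0 (WF f b q (Ioc 0 q) - I)
    have h2 := le_abs_self (max 0 (WF f b q (Ioc 0 q) - I))
    linarith
  rw [mul_one_div, ← add_div]
  exact div_le_div_of_nonneg_right h0 (Nat.cast_nonneg q)

theorem w_sum (f : ℝ → ℝ) (hf : Wt f) (ε : ℝ) (hε : 0 < ε) : ∃ X0 : ℕ, ∀ X : ℕ, X0 ≤ X → ∀ a : Bool,
    ∑ p ∈ Pr X, FF f a p / (p : ℝ) ≤ ((∫ t in (1 : ℝ)..2, 4 * f (1 / t) / t) + ε) * Real.log (Real.log X) := by
  obtain ⟨C1, hC1, h1⟩ := mertens2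
  obtain ⟨C2, hC2, h2⟩ := switch f hf
  have h3 := wblk f hf
  generalize (∫ t in (1 : ℝ)..2, 4 * f (1 / t) / t) = I at h3 ⊢
  have hg : ∀ b : Bool, ∃ X0 : ℕ, ∀ X : ℕ, X0 ≤ X →
      ∑ q ∈ Pr X, |max 0 (WF f b q (Ioc 0 q) - I)| / (q : ℝ) ≤ ε / 2 * Real.log (Real.log X) := by
    intro b
    refine dyadic_o (fun q => max 0 (WF f b q (Ioc 0 q) - I)) ?_ (ε / 2) (by positivity)
    intro e he
    obtain ⟨Q0, hQ⟩ := h3 e he
    refine ⟨Q0, fun Q hQ0 => ?_⟩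
    have h4 := hQ Q hQ0 b
    refine le_trans (le_of_eq (sum_congr rfl fun q _ => ?_)) h4
    exact abs_of_nonneg (le_max_left _ _)
  obtain ⟨X1, hX1⟩ := hg false
  obtain ⟨X2, hX2⟩ := hg true
  have hlim : Filter.Tendsto (fun X : ℕ => Real.log (Real.log X)) Filter.atTop Filter.atTop :=
    Real.tendsto_log_atTop.comp (Real.tendsto_log_atTop.comp tendsto_natCast_atTop_atTop)
  obtain ⟨X3, hX3⟩ := Filter.eventually_atTop.1
    (hlim.eventually_ge_atTop (2 / ε * (|I| * C1 + C2)))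
  refine ⟨max (max X1 X2) (max X3 3), fun X hX a => ?_⟩
  have k1 : X1 ≤ X := (le_max_left _ _).trans ((le_max_left _ _).trans hX)
  have k2 : X2 ≤ X := (le_max_right _ _).trans ((le_max_left _ _).trans hX)
  have k3 : X3 ≤ X := (le_max_left _ _).trans ((le_max_right _ _).trans hX)
  have k4 : 3 ≤ X := (le_max_right _ _).trans ((le_max_right _ _).trans hX)
  have m1 := h1 X k4
  have m2 := h2 a X k4
  have m3 := V10_split f I (!a) X
  have m4 : ∑ q ∈ Pr X, |max 0 (WF f (!a) q (Ioc 0 q) - I)| / (q : ℝ) ≤ ε / 2 * Real.log (Real.log X) := by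
    cases a
    · exact hX2 X k2
    · exact hX1 X k1
  have m5 : 2 / ε * (|I| * C1 + C2) ≤ Real.log (Real.log X) := hX3 X k3
  have m6 : |I| * C1 + C2 ≤ ε / 2 * Real.log (Real.log X) := by
    have e1 : |I| * C1 + C2 = ε / 2 * (2 / ε * (|I| * C1 + C2)) := by
      field_simp
    rw [e1]
    exact mul_le_mul_of_nonneg_left m5 (by positivity)
  have m7 : I * ∑ q ∈ Pr X, 1 / (q : ℝ) ≤ I * Real.log (Real.log X) + |I| * C1 := by
    have e2 : I * (∑ q ∈ Pr X, 1 / (q : ℝ) - Real.log (Real.log X)) ≤ |I| * C1 := by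
      calc I * (∑ q ∈ Pr X, 1 / (q : ℝ) - Real.log (Real.log X))
          ≤ |I * (∑ q ∈ Pr X, 1 / (q : ℝ) - Real.log (Real.log X))| := le_abs_self _
        _ = |I| * |∑ q ∈ Pr X, 1 / (q : ℝ) - Real.log (Real.log X)| := abs_mul _ _
        _ ≤ |I| * C1 := mul_le_mul_of_nonneg_left m1 (abs_nonneg _)
    linarith
  linarith

end Pool.Agent.Lib.MP_5deb1d_nt
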