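import Mathlib
import Pool.Agent.Lib.MP_5deb1d_nt.V0

/-!
JOB V11. The two weights. `fhi u = max 0 (1 - 8/5 u)`: `8/5`-Lipschitz (`abs_max_sub_max_le_abs`); `flo u = max 0 (u - 7/8)`: `1`-Lipschitz, `≤ 9/8` for `u ≤ 2`. Integrals: `fhi (1/t) = 0` for `t ≤ 8/5`, `= 1 - 8/(5t)` for `t ≥ 8/5`, antiderivative of `4/t - 32/(5t²)` is `4 log t + 32/(5t)`:
`4 log(5/4) + 16/5 - 4`; `flo (1/t) = 1/t - 7/8` for `t ≤ 8/7`, `0` beyond, antiderivative of `4/t² - 7/(2t)` is `-4/t - (7/2) log t`: `-7/2 - (7/2) log(8/7) + 4`. (Split the integral, `intervalIntegral.integral_add_adjacent_intervals`, congruence, `integral_eq_sub_of_hasDerivAt`.)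
-/

set_option autoImplicit false

open Finset
open ArithmeticFunction (vonMangoldt)

namespace Pool.Agent.Lib.MP_5deb1d_nt

private theorem V11_max (x y : ℝ) : |max 0 x - max 0 y| ≤ |x - y| := by
  rw [max_comm 0 x, max_comm 0 y]
  exact abs_max_sub_max_le_abs x y 0

private theorem V11_chi : Continuous fhi := by
  unfold fhi
  fun_prop

private theorem V11_clo : Continuous flo := by
  unfold flo
  fun_prop

/-- Integrability of the integrand for a continuous weight. -/
private theorem V11_int {f : ℝ → ℝ} (hf : Continuous f) {a b : ℝ} (ha : 0 < a) (hab : a ≤ b) :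
    IntervalIntegrable (fun t => 4 * f (1 / t) / t) MeasureTheory.volume a b := by
  apply ContinuousOn.intervalIntegrable
  rw [Set.uIcc_of_le hab]
  have h1 : ContinuousOn (fun t : ℝ => 1 / t) (Set.Icc a b) :=
    continuousOn_const.div continuousOn_id fun t ht => (lt_of_lt_of_le ha ht.1).ne'
  exact (continuousOn_const.mul (hf.comp_continuousOn h1)).div continuousOn_id
    fun t ht => (lt_of_lt_of_le ha ht.1).ne'

theorem wt_hi : Wt fhi := by
  refine ⟨fun u => le_max_left _ _, fun u h0 _ => max_le (by norm_num) (by linarith), fun u v => ?_⟩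
  refine le_trans (V11_max _ _) ?_
  have e : (1 - 8 / 5 * u) - (1 - 8 / 5 * v) = -(8 / 5) * (u - v) := by ring
  rw [e, abs_mul, abs_neg, abs_of_pos (by norm_num : (0 : ℝ) < 8 / 5)]
  nlinarith [abs_nonneg (u - v)]

theorem wt_lo : Wt flo := by
  refine ⟨fun u => le_max_left _ _, fun u _ h2 => max_le (by norm_num) (by linarith), fun u v => ?_⟩
  refine le_trans (V11_max _ _) ?_
  have e : (u - 7 / 8) - (v - 7 / 8) = u - v := by ring
  rw [e]
  nlinarith [abs_nonneg (u - v)]

theorem int_hi : ∫ t in (1 : ℝ)..2, 4 * fhi (1 / t) / t = 4 * Real.log (5 / 4) - 4 / 5 := by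
  rw [← intervalIntegral.integral_add_adjacent_intervals
    (V11_int V11_chi (by norm_num) (by norm_num) : IntervalIntegrable _ _ (1 : ℝ) (8 / 5))
    (V11_int V11_chi (by norm_num) (by norm_num) : IntervalIntegrable _ _ (8 / 5 : ℝ) 2)]
  have h1 : ∫ t in (1 : ℝ)..(8 / 5), 4 * fhi (1 / t) / t = 0 := by
    rw [show (0 : ℝ) = ∫ t in (1 : ℝ)..(8 / 5), (0 : ℝ) by simp]
    apply intervalIntegral.integral_congr
    intro t ht
    rw [Set.uIcc_of_le (by norm_num)] at ht
    have ht0 : 0 < t := lt_of_lt_of_le one_pos ht.1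
    have h2 : fhi (1 / t) = 0 := by
      unfold fhi
      apply max_eq_left
      have h3 : (5 / 8 : ℝ) ≤ 1 / t := by
        rw [le_div_iff₀ ht0]
        linarith [ht.2]
      linarith
    show 4 * fhi (1 / t) / t = 0
    rw [h2]
    simp
  have h2 : ∫ t in (8 / 5 : ℝ)..2, 4 * fhi (1 / t) / t = ∫ t in (8 / 5 : ℝ)..2, (4 * t⁻¹ + -(32 / 5) * (t ^ 2)⁻¹) := by
    apply intervalIntegral.integral_congr
    intro t ht
    rw [Set.uIcc_of_le (by norm_num)] at ht
    have ht0 : 0 < t := lt_of_lt_of_le (by norm_num) ht.1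
    have h3 : fhi (1 / t) = 1 - 8 / 5 * (1 / t) := by
      unfold fhi
      apply max_eq_right
      have h4 : 1 / t ≤ (5 / 8 : ℝ) := by
        rw [div_le_iff₀ ht0]
        linarith [ht.1]
      linarith
    show 4 * fhi (1 / t) / t = _
    rw [h3]
    field_simp
    ring
  have h3 : ∫ t in (8 / 5 : ℝ)..2, (4 * t⁻¹ + -(32 / 5) * (t ^ 2)⁻¹) =
      (4 * Real.log 2 + 32 / 5 * 2⁻¹) - (4 * Real.log (8 / 5) + 32 / 5 * (8 / 5)⁻¹) := by
    apply intervalIntegral.integral_eq_sub_of_hasDerivAt (f := fun t => 4 * Real.log t + 32 / 5 * t⁻¹)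
    · intro t ht
      rw [Set.uIcc_of_le (by norm_num)] at ht
      have ht0 : t ≠ 0 := (lt_of_lt_of_le (by norm_num) ht.1).ne'
      have h4 := ((Real.hasDerivAt_log ht0).const_mul 4).add ((hasDerivAt_inv ht0).const_mul (32 / 5))
      refine h4.congr_deriv ?_
      ring
    · apply ContinuousOn.intervalIntegrable
      rw [Set.uIcc_of_le (by norm_num)]
      have hne : ∀ t ∈ Set.Icc (8 / 5 : ℝ) 2, t ≠ 0 := fun t ht => (lt_of_lt_of_le (by norm_num) ht.1).ne'
      exact (continuousOn_const.mul (continuousOn_id.inv₀ hne)).add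
        (continuousOn_const.mul ((continuousOn_id.pow 2).inv₀ fun t ht => pow_ne_zero 2 (hne t ht)))
  rw [h1, h2, h3]
  have h4 : Real.log 2 - Real.log (8 / 5) = Real.log (5 / 4) := by
    rw [← Real.log_div (by norm_num) (by norm_num)]
    norm_num
  linear_combination 4 * h4

theorem int_lo : ∫ t in (1 : ℝ)..2, 4 * flo (1 / t) / t = 1 / 2 - 7 / 2 * Real.log (8 / 7) := by
  rw [← intervalIntegral.integral_add_adjacent_intervals
    (V11_int V11_clo (by norm_num) (by norm_num) : IntervalIntegrable _ _ (1 : ℝ) (8 / 7))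
    (V11_int V11_clo (by norm_num) (by norm_num) : IntervalIntegrable _ _ (8 / 7 : ℝ) 2)]
  have h1 : ∫ t in (8 / 7 : ℝ)..2, 4 * flo (1 / t) / t = 0 := by
    rw [show (0 : ℝ) = ∫ t in (8 / 7 : ℝ)..2, (0 : ℝ) by simp]
    apply intervalIntegral.integral_congr
    intro t ht
    rw [Set.uIcc_of_le (by norm_num)] at ht
    have ht0 : 0 < t := lt_of_lt_of_le (by norm_num) ht.1
    have h2 : flo (1 / t) = 0 := by
      unfold flo
      apply max_eq_left
      have h3 : 1 / t ≤ (7 / 8 : ℝ) := by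
        rw [div_le_iff₀ ht0]
        linarith [ht.1]
      linarith
    show 4 * flo (1 / t) / t = 0
    rw [h2]
    simp
  have h2 : ∫ t in (1 : ℝ)..(8 / 7), 4 * flo (1 / t) / t = ∫ t in (1 : ℝ)..(8 / 7), (4 * (t ^ 2)⁻¹ + -(7 / 2) * t⁻¹) := by
    apply intervalIntegral.integral_congr
    intro t ht
    rw [Set.uIcc_of_le (by norm_num)] at ht
    have ht0 : 0 < t := lt_of_lt_of_le one_pos ht.1
    have h3 : flo (1 / t) = 1 / t - 7 / 8 := by
      unfold flo
      apply max_eq_right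
      have h4 : (7 / 8 : ℝ) ≤ 1 / t := by
        rw [le_div_iff₀ ht0]
        linarith [ht.2]
      linarith
    show 4 * flo (1 / t) / t = _
    rw [h3]
    field_simp
    ring
  have h3 : ∫ t in (1 : ℝ)..(8 / 7), (4 * (t ^ 2)⁻¹ + -(7 / 2) * t⁻¹) =
      (-4 * (8 / 7)⁻¹ - 7 / 2 * Real.log (8 / 7)) - (-4 * 1⁻¹ - 7 / 2 * Real.log 1) := by
    apply intervalIntegral.integral_eq_sub_of_hasDerivAt (f := fun t => -4 * t⁻¹ - 7 / 2 * Real.log t)
    · intro t ht
      rw [Set.uIcc_of_le (by norm_num)] at ht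
      have ht0 : t ≠ 0 := (lt_of_lt_of_le one_pos ht.1).ne'
      have h4 := ((hasDerivAt_inv ht0).const_mul (-4)).sub ((Real.hasDerivAt_log ht0).const_mul (7 / 2))
      refine h4.congr_deriv ?_
      ring
    · apply ContinuousOn.intervalIntegrable
      rw [Set.uIcc_of_le (by norm_num)]
      have hne : ∀ t ∈ Set.Icc (1 : ℝ) (8 / 7), t ≠ 0 := fun t ht => (lt_of_lt_of_le one_pos ht.1).ne'
      exact (continuousOn_const.mul ((continuousOn_id.pow 2).inv₀ fun t ht => pow_ne_zero 2 (hne t ht))).add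
        (continuousOn_const.mul (continuousOn_id.inv₀ hne))
  rw [h1, h2, h3, Real.log_one]
  ring

end Pool.Agent.Lib.MP_5deb1d_nt
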