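import Mathlib
import Pool.Agent.Lib.MP_5deb1d_nt.D0
import Pool.Agent.Lib.MP_2c5684_nt.Mertens

/-!
JOB V2. Lower bound matching `mertens_g` (M3.lean; copy its Abel summation). `M(n) = ∑_{k ≤ n} Λ(k)/k = log n + e(n)`, `|e(n)| ≤ C0` (`sum_vM_le`, `le_sum_vM` in `Pool/Agent/Lib/MP_2c5684_nt/Mertens.lean`), `h(n) = 1/log² n` decreasing:
the `e`-part is `≥ -2 C0 h(y)`, the main part `∑_{y < n ≤ N} (log n - log(n-1)) h(n)`, and `(log n - log(n-1))/log² n ≥ (1/log(n-1) - 1/log n) - (log n - log (n-1))²/(log² n log (n-1))`,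
`(log n - log(n-1))² ≤ 1/(n-1)²`, `∑_{n > y} 1/(n-1)² ≤ 2/y`, so the error is `≤ C/log² y`; or: `(log n - log(n-1))/log² n ≥ 1/log n - 1/log(n+1)`-type comparison with a shift (`log n - log (n-1) ≥ log(n+1) - log n`), telescoping to
`1/log(y+1) - 1/log(N+1)`, which is enough too.
-/

set_option autoImplicit false

open Finset
open ArithmeticFunction (vonMangoldt)

namespace Pool.Agent.Lib.MP_5deb1d_nt

private theorem V2_step {N : ℕ} (hN : 3 ≤ N) :
    1 / Real.log (N + 1 : ℕ) - 1 / Real.log (N + 2 : ℕ) ≤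
      (Real.log (N + 1 : ℕ) - Real.log N) / (Real.log (N + 1 : ℕ)) ^ 2 := by
  have h0 : (0 : ℝ) < N := by exact_mod_cast (by omega : 0 < N)
  have h3 : (1 : ℝ) < N := by exact_mod_cast (by omega : 1 < N)
  have hc1 : ((N + 1 : ℕ) : ℝ) = (N : ℝ) + 1 := by push_cast; ring
  have hc2 : ((N + 2 : ℕ) : ℝ) = (N : ℝ) + 2 := by push_cast; ring
  rw [hc1, hc2]
  have h1 : 0 < Real.log (N + 1 : ℝ) := Real.log_pos (by linarith)
  have h2 : Real.log (N + 1 : ℝ) ≤ Real.log (N + 2 : ℝ) := Real.log_le_log (by linarith) (by linarith)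
  have h5 : 0 < Real.log (N + 2 : ℝ) := h1.trans_le h2
  have h6 : Real.log (N + 2 : ℝ) - Real.log (N + 1 : ℝ) ≤ Real.log (N + 1 : ℝ) - Real.log N := by
    have h7 : Real.log ((N + 2 : ℝ) * N) ≤ Real.log ((N + 1 : ℝ) * (N + 1 : ℝ)) :=
      Real.log_le_log (by positivity) (by nlinarith)
    rw [Real.log_mul (by positivity) (by positivity), Real.log_mul (by positivity) (by positivity)] at h7
    linarith
  have e : 1 / Real.log (N + 1 : ℝ) - 1 / Real.log (N + 2 : ℝ) =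
      (Real.log (N + 2 : ℝ) - Real.log (N + 1 : ℝ)) / (Real.log (N + 1 : ℝ) * Real.log (N + 2 : ℝ)) := by
    field_simp
  rw [e]
  have h8 : 0 ≤ Real.log (N + 2 : ℝ) - Real.log (N + 1 : ℝ) := by linarith
  refine div_le_div₀ (h8.trans h6) h6 (by positivity) ?_
  nlinarith

private theorem V2_D (y N : ℕ) (hy : 1 ≤ y) (hN : y ≤ N) :
    0 ≤ ∑ n ∈ Ioc y N, vonMangoldt n / (n : ℝ) - (Real.log N - Real.log y) + 6.4 := by
  have h1 := Pool.Agent.Lib.MP_2c5684_nt.le_sum_vM N (by omega)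
  have h2 := Pool.Agent.Lib.MP_2c5684_nt.sum_vM_le y hy
  have h3 : ∑ d ∈ Finset.Icc 1 N, Pool.Agent.Lib.MP_2c5684_nt.vM d / d
      = ∑ d ∈ Finset.Icc 1 y, Pool.Agent.Lib.MP_2c5684_nt.vM d / d +
        ∑ d ∈ Finset.Ioc y N, Pool.Agent.Lib.MP_2c5684_nt.vM d / d := by
    rw [← Finset.sum_union]
    · congr 1
      ext x
      simp only [Finset.mem_Icc, Finset.mem_union, Finset.mem_Ioc]
      omega
    · rw [Finset.disjoint_left]
      intro x hx hx'
      simp only [Finset.mem_Icc, Finset.mem_Ioc] at hx hx'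
      omega
  have h4 := Pool.Agent.Lib.MP_2c5684_nt.log_four_le
  have h5 : ∑ d ∈ Finset.Ioc y N, Pool.Agent.Lib.MP_2c5684_nt.vM d / d =
    ∑ n ∈ Ioc y N, vonMangoldt n / (n : ℝ) := rfl
  rw [← h5]
  linarith

private theorem V2_ind {y : ℕ} (hy : 3 ≤ y) {N : ℕ} (hN : y ≤ N) :
    -(6.4 / (Real.log y) ^ 2) + 1 / Real.log (y + 1 : ℕ) - 1 / Real.log (N + 1 : ℕ) ≤
      ∑ n ∈ Ioc y N, vonMangoldt n / ((n : ℝ) * (Real.log n) ^ 2) -
      (∑ n ∈ Ioc y N, vonMangoldt n / (n : ℝ) - (Real.log N - Real.log y) + 6.4) / (Real.log N) ^ 2 := by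
  induction N, hN using Nat.le_induction with
  | base =>
    rw [Ioc_self, sum_empty, sum_empty]
    apply le_of_eq
    ring
  | succ N hN ih =>
    have hD := V2_D y N (by omega) hN
    have h3 : (1 : ℝ) < N := by exact_mod_cast (by omega : 1 < N)
    have h4 : (N : ℝ) ≤ ((N + 1 : ℕ) : ℝ) := by exact_mod_cast Nat.le_succ N
    have h1 : 0 < Real.log N := Real.log_pos h3
    have h2 : Real.log N ≤ Real.log (N + 1 : ℕ) := Real.log_le_log (by linarith) h4
    have h5 : 0 < Real.log (N + 1 : ℕ) := h1.trans_le h2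
    have hs := V2_step (hy.trans hN)
    have hle : (∑ n ∈ Ioc y N, vonMangoldt n / (n : ℝ) - (Real.log N - Real.log y) + 6.4) / (Real.log (N + 1 : ℕ)) ^ 2 ≤
        (∑ n ∈ Ioc y N, vonMangoldt n / (n : ℝ) - (Real.log N - Real.log y) + 6.4) / (Real.log N) ^ 2 := by
      apply div_le_div_of_nonneg_left hD (by positivity)
      exact pow_le_pow_left₀ h1.le h2 2
    rw [sum_Ioc_succ_top (by omega), sum_Ioc_succ_top (by omega)]
    have hn1 : (((N + 1 : ℕ) : ℝ)) ≠ 0 := by positivity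
    have e : ∑ n ∈ Ioc y N, vonMangoldt n / ((n : ℝ) * (Real.log n) ^ 2) +
        vonMangoldt (N + 1) / (((N + 1 : ℕ) : ℝ) * (Real.log (N + 1 : ℕ)) ^ 2) -
        (∑ n ∈ Ioc y N, vonMangoldt n / (n : ℝ) + vonMangoldt (N + 1) / ((N + 1 : ℕ) : ℝ) -
          (Real.log (N + 1 : ℕ) - Real.log y) + 6.4) / (Real.log (N + 1 : ℕ)) ^ 2 =
        ∑ n ∈ Ioc y N, vonMangoldt n / ((n : ℝ) * (Real.log n) ^ 2) -
        (∑ n ∈ Ioc y N, vonMangoldt n / (n : ℝ) - (Real.log N - Real.log y) + 6.4) / (Real.log (N + 1 : ℕ)) ^ 2 +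
        (Real.log (N + 1 : ℕ) - Real.log N) / (Real.log (N + 1 : ℕ)) ^ 2 := by
      field_simp
      ring
    rw [e]
    have e2 : ((N + 1 + 1 : ℕ) : ℝ) = ((N + 2 : ℕ) : ℝ) := rfl
    rw [e2]
    linarith

theorem mertens_g_low : ∃ C : ℝ, 0 < C ∧ ∀ y : ℕ, 3 ≤ y → ∀ N : ℕ, y ≤ N →
    1 / Real.log y - 1 / Real.log N - C / (Real.log y) ^ 2 ≤
      ∑ n ∈ Ioc y N, vonMangoldt n / ((n : ℝ) * (Real.log n) ^ 2) := by
  refine ⟨7.4, by norm_num, fun y hy N hN => ?_⟩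
  have h3 : (1 : ℝ) < y := by exact_mod_cast (by omega : 1 < y)
  have hN3 : (1 : ℝ) < N := by exact_mod_cast (by omega : 1 < N)
  have h1 : 0 < Real.log y := Real.log_pos h3
  have hN1 : 0 < Real.log N := Real.log_pos hN3
  have h := V2_ind hy hN
  have hD := V2_D y N (by omega) hN
  have h2 : 0 ≤ (∑ n ∈ Ioc y N, vonMangoldt n / (n : ℝ) - (Real.log N - Real.log y) + 6.4) / (Real.log N) ^ 2 :=
    div_nonneg hD (by positivity)
  have hc1 : ((y + 1 : ℕ) : ℝ) = (y : ℝ) + 1 := by push_cast; ring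
  have hc2 : ((N + 1 : ℕ) : ℝ) = (N : ℝ) + 1 := by push_cast; ring
  have h4 : 1 / Real.log (N + 1 : ℕ) ≤ 1 / Real.log N := by
    apply one_div_le_one_div_of_le hN1
    exact Real.log_le_log (by linarith) (by rw [hc2]; linarith)
  have h5 : 1 / Real.log y - 1 / Real.log (y + 1 : ℕ) ≤ 1 / (Real.log y) ^ 2 := by
    rw [hc1]
    have h6 : Real.log y ≤ Real.log (y + 1 : ℝ) := Real.log_le_log (by linarith) (by linarith)
    have h7 : 0 < Real.log (y + 1 : ℝ) := h1.trans_le h6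
    have h8 : Real.log (y + 1 : ℝ) - Real.log y ≤ 1 := by
      rw [← Real.log_div (by positivity) (by positivity)]
      have h9 : Real.log ((y + 1 : ℝ) / y) ≤ (y + 1 : ℝ) / y - 1 := Real.log_le_sub_one_of_pos (by positivity)
      have h10 : (y + 1 : ℝ) / y - 1 = 1 / y := by
        field_simp
        ring
      have h11 : (1 : ℝ) / y ≤ 1 := by
        rw [div_le_one (by linarith)]
        linarith
      linarith
    have e : 1 / Real.log y - 1 / Real.log (y + 1 : ℝ) =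
        (Real.log (y + 1 : ℝ) - Real.log y) / (Real.log y * Real.log (y + 1 : ℝ)) := by
      field_simp
    rw [e]
    refine div_le_div₀ zero_le_one h8 (by positivity) ?_
    nlinarith
  have h12 : (7.4 : ℝ) / (Real.log y) ^ 2 = 6.4 / (Real.log y) ^ 2 + 1 / (Real.log y) ^ 2 := by ring
  rw [h12]
  linarith

end Pool.Agent.Lib.MP_5deb1d_nt
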