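import Mathlib
import Pool.Agent.Lib.MP_5deb1d_nt.E3
import Pool.Agent.Lib.MP_5deb1d_nt.V2
import Pool.Agent.Lib.MP_5deb1d_nt.PW

/-!
JOB V3. Lower bound for the contribution of a block of `q` to the main sum (the counterpart of `block_main`, file E4.lean, whose private lemmas may be copied). PROOF. `y = ⌈Q^(2+d)⌉`; for `Q` large `q² ≤ 4 Q² < y ≤ 2 Q³ ≤ X`. For `q ∈ PB Q`
the primes `p ∈ (y, X]` with `q ∣ sh a p` (`cl_eq`) give `∑ 1/(p log p) = ∑_{y < n ≤ X} Λ(n) cl a q n g(n) - (non-primes)`, `g(n) = 1/(n log² n)`, and with `dk`: `∑ Λ cl g = ∑ Λ dk g + (1/(q-1)) ∑_{q ∤ n} Λ g`, where `∑_{y < n ≤ X} Λ g ≥ 1/log y - 1/log X - C/log² y`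
(`mertens_g_low`) and the `n` divisible by `q` (powers of `q`, `n > q²`) give at most `C/q`. `log q * 1/log y ≥ log Q/((2+d) log Q + 1) ≥ 1/2 - d/2 - 1/log Q`. The kernel: `blk_g` (`≤ 10 Q^(-η)`, times `log (2Q)`; shrink `η`). The non-primes: `pp_block` (for `q ≥ 3` `cl a q n ≤ |eps q n|`,
`(q-1)/2 ≥ Q/2`): `∑_{q ∈ PB Q} ∑_{n not prime} cl a q n Λ(n)/(n log² n) ≤ (2/Q) C √Q`, times `log(2Q)`. `1/(q-1) ≥ 1/q`, `1/(q-1) ≤ 2/q`.
-/

set_option autoImplicit false

open Finset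
open ArithmeticFunction (vonMangoldt)

namespace Pool.Agent.Lib.MP_5deb1d_nt

private lemma V3_cl_le (a : Bool) (q n : ℕ) (hq : 3 ≤ q) : cl a q n ≤ |eps q n| := by
  have h1 : cl true q n = 0 ∨ cl false q n = 0 := by
    by_cases h : n ≡ 1 [MOD q]
    · right
      simp only [cl]
      rw [if_neg]
      intro h2
      have h3 : n + 1 ≡ 1 + 1 [MOD q] := h.add_right 1
      have h4 : q ∣ 1 + 1 := (h3.dvd_iff (dvd_refl q)).1 h2
      have := Nat.le_of_dvd (by norm_num) h4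
      omega
    · left
      simp only [cl]
      rw [if_neg h]
  have h2 := cl_nonneg true q n
  have h3 := cl_nonneg false q n
  unfold eps
  rcases h1 with h1 | h1
  · rw [h1, zero_sub, abs_neg, abs_of_nonneg h3]
    cases a
    · exact le_refl _
    · rw [h1]
      exact h3
  · rw [h1, sub_zero, abs_of_nonneg h2]
    cases a
    · rw [h1]
      exact h2
    · exact le_refl _

/-- the primes beyond `y` -/
private lemma V3_split (q : ℕ) (y X : ℕ) (hy : q ^ 2 ≤ y) (a : Bool) :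
    ∑ n ∈ Ioc y X, vonMangoldt n * cl a q n * (1 / ((n : ℝ) * (Real.log n) ^ 2)) -
      ∑ n ∈ (Ioc y X).filter (fun n => ¬ n.Prime), vonMangoldt n * cl a q n * (1 / ((n : ℝ) * (Real.log n) ^ 2)) ≤
    ∑ p ∈ (Pr X).filter (fun p => q ^ 2 ≤ p ∧ q ∣ sh a p), 1 / ((p : ℝ) * Real.log p) := by
  rw [← Finset.sum_filter_add_sum_filter_not (Ioc y X) (fun n => n.Prime), add_sub_cancel_right]
  calc ∑ n ∈ (Ioc y X).filter (fun n => n.Prime), vonMangoldt n * cl a q n * (1 / ((n : ℝ) * (Real.log n) ^ 2))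
      = ∑ n ∈ ((Ioc y X).filter (fun n => n.Prime)).filter (fun n => q ∣ sh a n), 1 / ((n : ℝ) * Real.log n) := by
        rw [Finset.sum_filter (fun n => q ∣ sh a n)]
        apply Finset.sum_congr rfl
        intro p hp
        have h1 := (mem_filter.1 hp).2
        have hp0 : (0 : ℝ) < p := by exact_mod_cast h1.pos
        have hlp : 0 < Real.log p := Real.log_pos (by exact_mod_cast h1.one_lt)
        rw [cl_eq a q p h1.one_le, ArithmeticFunction.vonMangoldt_apply_prime h1]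
        split_ifs
        · field_simp
        · ring
    _ ≤ _ := by
        apply Finset.sum_le_sum_of_subset_of_nonneg
        · intro p hp
          rw [mem_filter, mem_filter, mem_Ioc] at hp
          obtain ⟨⟨⟨h1, h2⟩, h3⟩, h4⟩ := hp
          rw [mem_filter, mem_Pr]
          exact ⟨⟨h3, h2⟩, hy.trans h1.le, h4⟩
        · intro p _ _
          have := Real.log_natCast_nonneg p
          positivity

/-- the lower bound in terms of the kernel -/
private lemma V3_ker (q : ℕ) (y X : ℕ) (a : Bool) :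
    1 / ((q : ℝ) - 1) * (∑ n ∈ Ioc y X, vonMangoldt n / ((n : ℝ) * (Real.log n) ^ 2) -
        ∑ n ∈ (Ioc y X).filter (fun n => q ∣ n), vonMangoldt n / ((n : ℝ) * (Real.log n) ^ 2)) -
      |∑ n ∈ Ioc y X, vonMangoldt n * dk a q n * (1 / ((n : ℝ) * (Real.log n) ^ 2))| ≤
    ∑ n ∈ Ioc y X, vonMangoldt n * cl a q n * (1 / ((n : ℝ) * (Real.log n) ^ 2)) := by
  have h1 : ∑ n ∈ Ioc y X, vonMangoldt n * cl a q n * (1 / ((n : ℝ) * (Real.log n) ^ 2)) =
      ∑ n ∈ Ioc y X, vonMangoldt n * dk a q n * (1 / ((n : ℝ) * (Real.log n) ^ 2)) +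
        1 / ((q : ℝ) - 1) * (∑ n ∈ Ioc y X, vonMangoldt n / ((n : ℝ) * (Real.log n) ^ 2) -
        ∑ n ∈ (Ioc y X).filter (fun n => q ∣ n), vonMangoldt n / ((n : ℝ) * (Real.log n) ^ 2)) := by
    rw [Finset.sum_filter, ← Finset.sum_sub_distrib, Finset.mul_sum, ← Finset.sum_add_distrib]
    apply Finset.sum_congr rfl
    intro n _
    unfold dk
    split_ifs <;> ring
  rw [h1]
  have h2 := neg_abs_le (∑ n ∈ Ioc y X, vonMangoldt n * dk a q n * (1 / ((n : ℝ) * (Real.log n) ^ 2)))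
  linarith

private lemma V3_log3 (n : ℕ) (h : 3 ≤ n) : 1 ≤ Real.log n := by
  have h1 : (3 : ℝ) ≤ n := by exact_mod_cast h
  rw [Real.le_log_iff_exp_le (by linarith)]
  linarith [Real.exp_one_lt_d9]

/-- the multiples of `q` -/
private lemma V3_mult (q : ℕ) (hq : q.Prime) (y X : ℕ) (hy3 : 3 ≤ y) (hy : q ^ 2 ≤ y) :
    ∑ n ∈ (Ioc y X).filter (fun n => q ∣ n), vonMangoldt n / ((n : ℝ) * (Real.log n) ^ 2) ≤
      ∑ n ∈ (Ioc 0 X).filter (fun n => q ≤ n ∧ ¬ n.Prime), vonMangoldt n / n := by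
  calc ∑ n ∈ (Ioc y X).filter (fun n => q ∣ n), vonMangoldt n / ((n : ℝ) * (Real.log n) ^ 2)
      ≤ ∑ n ∈ (Ioc y X).filter (fun n => q ∣ n), vonMangoldt n / n := by
        apply Finset.sum_le_sum
        intro n hn
        rw [mem_filter, mem_Ioc] at hn
        have h1 := V3_log3 n (by omega)
        have hn0 : (0 : ℝ) < n := by exact_mod_cast (show 0 < n by omega)
        refine div_le_div_of_nonneg_left ArithmeticFunction.vonMangoldt_nonneg hn0 ?_
        have h2 : 1 ≤ (Real.log n) ^ 2 := one_le_pow₀ h1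
        have h3 := mul_le_mul_of_nonneg_left h2 hn0.le
        linarith
    _ ≤ _ := by
        apply Finset.sum_le_sum_of_subset_of_nonneg
        · intro n hn
          rw [mem_filter, mem_Ioc] at hn
          obtain ⟨⟨h1, h2⟩, h3⟩ := hn
          rw [mem_filter, mem_Ioc]
          refine ⟨⟨by omega, h2⟩, Nat.le_of_dvd (by omega) h3, ?_⟩
          intro h4
          have h5 := (Nat.prime_dvd_prime_iff_eq hq h4).1 h3
          have h6 : q ≤ q ^ 2 := Nat.le_self_pow (by norm_num) q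
          omega
        · intro n _ _
          have : 0 ≤ vonMangoldt n := ArithmeticFunction.vonMangoldt_nonneg
          positivity

/-- the proper prime powers in the class -/
private lemma V3_pp (q : ℕ) (hq : 3 ≤ q) (y X : ℕ) (hy3 : 3 ≤ y) (a : Bool) :
    ∑ n ∈ (Ioc y X).filter (fun n => ¬ n.Prime), vonMangoldt n * cl a q n * (1 / ((n : ℝ) * (Real.log n) ^ 2)) ≤
      ∑ n ∈ (Ioc 0 X).filter (fun n => ¬ n.Prime), |eps q n| * (vl n / n) := by
  calc ∑ n ∈ (Ioc y X).filter (fun n => ¬ n.Prime), vonMangoldt n * cl a q n * (1 / ((n : ℝ) * (Real.log n) ^ 2))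
      ≤ ∑ n ∈ (Ioc y X).filter (fun n => ¬ n.Prime), |eps q n| * (vl n / n) := by
        apply Finset.sum_le_sum
        intro n hn
        rw [mem_filter, mem_Ioc] at hn
        have h1 := V3_log3 n (by omega)
        have hn0 : (0 : ℝ) < n := by exact_mod_cast (show 0 < n by omega)
        have h2 : 0 ≤ vonMangoldt n := ArithmeticFunction.vonMangoldt_nonneg
        have h3 := V3_cl_le a q n hq
        have h4 := cl_nonneg a q n
        unfold vl
        have h5 : vonMangoldt n * cl a q n * (1 / ((n : ℝ) * (Real.log n) ^ 2)) =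
            cl a q n * (vonMangoldt n / Real.log n / n * (1 / Real.log n)) := by
          field_simp
        rw [h5]
        have h6 : vonMangoldt n / Real.log n / n * (1 / Real.log n) ≤ vonMangoldt n / Real.log n / n := by
          have h7 : 1 / Real.log n ≤ 1 := by
            rw [div_le_one (by linarith)]
            exact h1
          have h8 : 0 ≤ vonMangoldt n / Real.log n / n := by positivity
          calc _ ≤ vonMangoldt n / Real.log n / n * 1 := mul_le_mul_of_nonneg_left h7 h8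
            _ = _ := mul_one _
        exact mul_le_mul h3 h6 (by positivity) (abs_nonneg _)
    _ ≤ _ := by
        apply Finset.sum_le_sum_of_subset_of_nonneg
        · intro n hn
          rw [mem_filter, mem_Ioc] at hn ⊢
          exact ⟨⟨by omega, hn.1.2⟩, hn.2⟩
        · intro n _ _
          have h2 : 0 ≤ vonMangoldt n := ArithmeticFunction.vonMangoldt_nonneg
          have h3 := Real.log_natCast_nonneg n
          have h4 := abs_nonneg (eps q n)
          unfold vl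
          positivity

/-- elementary inequality -/
private lemma V3_el (C2 C3 q d L l ly lX : ℝ) (hC2 : 0 < C2) (hC3 : 0 < C3) (hq : 4 ≤ q) (hd : 0 < d)
    (hL : 1 ≤ L) (hl : L ≤ l) (hl2 : l ≤ 2 * L) (hy1 : (2 + d) * L ≤ ly) (hy2 : ly ≤ (2 + d) * L + 1) (hlX : 0 < lX)
    (hlq : l ^ 3 ≤ 216 * √q) :
    (1 / 2 - d) * (1 / q) - (1 / 2 + 2 * C2 + 432 * C3) * (1 / (q * l)) - 2 / lX * (l / q) ≤
      l * (1 / (q - 1) * (1 / ly - 1 / lX - C2 / ly ^ 2 - C3 * l / √q)) := by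
  have hq0 : 0 < q := by linarith
  have hq1 : 0 < q - 1 := by linarith
  have hl0 : 0 < l := by linarith
  have hL0 : 0 < L := by linarith
  have hly0 : 0 < ly := by nlinarith
  have hsq : 0 < √q := Real.sqrt_pos.2 hq0
  -- main term
  have h1 : 1 / 2 - d / 4 - 1 / (2 * l) ≤ l / ly := by
    rw [le_div_iff₀ hly0]
    have e1 : 1 / (2 * l) ≥ 1 / (4 * L) := by
      apply one_div_le_one_div_of_le (by linarith)
      linarith
    have e2 : (1 / 2 - d / 4 - 1 / (4 * L)) * ((2 + d) * L + 1) ≤ L := by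
      have e3 : (1 / 2 - d / 4 - 1 / (4 * L)) * ((2 + d) * L + 1) =
          L - d ^ 2 * L / 4 - d / 2 - 1 / (4 * L) := by
        field_simp
        ring
      rw [e3]
      have : 0 ≤ d ^ 2 * L / 4 := by positivity
      have : 0 ≤ 1 / (4 * L) := by positivity
      linarith
    by_cases h0 : 1 / 2 - d / 4 - 1 / (4 * L) ≤ 0
    · have : (1 / 2 - d / 4 - 1 / (2 * l)) * ly ≤ 0 := by
        apply mul_nonpos_of_nonpos_of_nonneg _ hly0.le
        linarith
      linarith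
    · push Not at h0
      calc (1 / 2 - d / 4 - 1 / (2 * l)) * ly ≤ (1 / 2 - d / 4 - 1 / (4 * L)) * ly :=
            mul_le_mul_of_nonneg_right (by linarith) hly0.le
        _ ≤ (1 / 2 - d / 4 - 1 / (4 * L)) * ((2 + d) * L + 1) := mul_le_mul_of_nonneg_left hy2 h0.le
        _ ≤ L := e2
        _ ≤ l := hl
  have h2 : (1 / 2 - d / 4 - 1 / (2 * l)) * (1 / q) ≤ l / ly * (1 / (q - 1)) := by
    calc (1 / 2 - d / 4 - 1 / (2 * l)) * (1 / q) ≤ l / ly * (1 / q) :=
          mul_le_mul_of_nonneg_right h1 (by positivity)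
      _ ≤ l / ly * (1 / (q - 1)) := by
          apply mul_le_mul_of_nonneg_left _ (by positivity)
          exact one_div_le_one_div_of_le hq1 (by linarith)
  have h3 : 1 / (q - 1) ≤ 2 / q := by
    rw [div_le_div_iff₀ hq1 hq0]
    linarith
  have h4 : l * (1 / (q - 1)) * (1 / lX) ≤ 2 / lX * (l / q) := by
    calc l * (1 / (q - 1)) * (1 / lX) ≤ l * (2 / q) * (1 / lX) := by
          apply mul_le_mul_of_nonneg_right _ (by positivity)
          exact mul_le_mul_of_nonneg_left h3 hl0.le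
      _ = 2 / lX * (l / q) := by
          field_simp
  have h5 : l * (1 / (q - 1)) * (C2 / ly ^ 2) ≤ 2 * C2 * (1 / (q * l)) := by
    have e1 : l ^ 2 ≤ ly ^ 2 := by
      apply pow_le_pow_left₀ hl0.le
      nlinarith
    calc l * (1 / (q - 1)) * (C2 / ly ^ 2) ≤ l * (2 / q) * (C2 / l ^ 2) := by
          apply mul_le_mul
          · exact mul_le_mul_of_nonneg_left h3 hl0.le
          · exact div_le_div_of_nonneg_left hC2.le (by positivity) e1
          · positivity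
          · positivity
      _ = 2 * C2 * (1 / (q * l)) := by
          field_simp
  have h6 : l * (1 / (q - 1)) * (C3 * l / √q) ≤ 432 * C3 * (1 / (q * l)) := by
    calc l * (1 / (q - 1)) * (C3 * l / √q) ≤ l * (2 / q) * (C3 * l / √q) := by
          apply mul_le_mul_of_nonneg_right _ (by positivity)
          exact mul_le_mul_of_nonneg_left h3 hl0.le
      _ = 2 * C3 * (l ^ 3 / √q) * (1 / (q * l)) := by
          field_simp
      _ ≤ 2 * C3 * 216 * (1 / (q * l)) := by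
          apply mul_le_mul_of_nonneg_right _ (by positivity)
          apply mul_le_mul_of_nonneg_left _ (by positivity)
          rw [div_le_iff₀ hsq]
          exact hlq
      _ = 432 * C3 * (1 / (q * l)) := by ring
  have h7 : l * (1 / (q - 1) * (1 / ly - 1 / lX - C2 / ly ^ 2 - C3 * l / √q)) =
      l / ly * (1 / (q - 1)) - l * (1 / (q - 1)) * (1 / lX) - l * (1 / (q - 1)) * (C2 / ly ^ 2) -
        l * (1 / (q - 1)) * (C3 * l / √q) := by ring
  rw [h7]
  have h8 : (1 / 2 - d / 4 - 1 / (2 * l)) * (1 / q) = (1 / 2 - d / 4) * (1 / q) - 1 / 2 * (1 / (q * l)) := by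
    field_simp
  rw [h8] at h2
  have h9 : 0 ≤ d * (1 / q) := by positivity
  have h10 : (1 / 2 - d) * (1 / q) ≤ (1 / 2 - d / 4) * (1 / q) := by nlinarith
  linarith

private lemma V3_cube (q : ℝ) (hq : 1 ≤ q) : (Real.log q) ^ 3 ≤ 216 * √q := by
  have hq0 : 0 < q := by linarith
  have h1 : Real.log q ≤ 6 * q ^ ((1 : ℝ) / 6) := by
    have h2 := Real.log_le_rpow_div hq0.le (show (0 : ℝ) < 1 / 6 by norm_num)
    linarith [show q ^ ((1 : ℝ) / 6) / (1 / 6) = 6 * q ^ ((1 : ℝ) / 6) by ring]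
  have h3 : 0 ≤ Real.log q := Real.log_nonneg hq
  calc (Real.log q) ^ 3 ≤ (6 * q ^ ((1 : ℝ) / 6)) ^ 3 := pow_le_pow_left₀ h3 h1 3
    _ = 216 * √q := by
        rw [mul_pow, ← Real.rpow_natCast (q ^ ((1 : ℝ) / 6)) 3, ← Real.rpow_mul hq0.le, Real.sqrt_eq_rpow]
        norm_num

theorem block_low : ∃ C : ℝ, 0 < C ∧ ∀ d : ℝ, 0 < d → d ≤ 1 → ∃ η : ℝ, 0 < η ∧ ∃ Q0 : ℕ, ∀ Q : ℕ, Q0 ≤ Q → ∀ X : ℕ,
    16 * Q ^ 3 ≤ X → ∀ a : Bool,
    (1 / 2 - C * d) * ∑ q ∈ PB Q, 1 / (q : ℝ) - C * ∑ q ∈ PB Q, 1 / ((q : ℝ) * Real.log q) - C * (Q : ℝ) ^ (-η) -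
      C / Real.log X * ∑ q ∈ PB Q, Real.log q / (q : ℝ) ≤
    ∑ q ∈ PB Q, Real.log q * ∑ p ∈ (Pr X).filter (fun p => q ^ 2 ≤ p ∧ q ∣ sh a p), 1 / ((p : ℝ) * Real.log p) := by
  obtain ⟨C1, hC1, hpb⟩ := pp_block
  obtain ⟨C2, hC2, hm⟩ := mertens_g_low
  obtain ⟨C3, hC3, hpt⟩ := pp_tail
  obtain ⟨C, hC⟩ : ∃ C : ℝ, C = 1 + 4 * C1 + 2 * C2 + 432 * C3 + 30 := ⟨_, rfl⟩
  refine ⟨C, by rw [hC]; positivity, fun d hd hd1 => ?_⟩
  obtain ⟨η1, hη1, Q1, hg⟩ := blk_g d hd
  obtain ⟨η, hηd⟩ : ∃ η : ℝ, η = min η1 (1 / 2) := ⟨_, rfl⟩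
  have hη : 0 < η := by rw [hηd]; exact lt_min hη1 (by norm_num)
  have hη2 : η ≤ 1 / 2 := by rw [hηd]; exact min_le_right _ _
  have hη3 : η ≤ η1 := by rw [hηd]; exact min_le_left _ _
  obtain ⟨Q2, hQ2⟩ : ∃ Q2 : ℕ, ∀ Q : ℕ, Q2 ≤ Q → Real.log Q ≤ (Q : ℝ) ^ (η / 2) := by
    have h1 : ∀ᶠ x : ℝ in Filter.atTop, Real.log x ≤ x ^ (η / 2) := by
      have h2 := (isLittleO_log_rpow_atTop (half_pos hη)).bound (zero_lt_one (α := ℝ))
      filter_upwards [h2, Filter.eventually_ge_atTop (0 : ℝ)] with x hx hx0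
      rw [one_mul, Real.norm_eq_abs, Real.norm_eq_abs, abs_of_nonneg (Real.rpow_nonneg hx0 _)] at hx
      exact (le_abs_self _).trans hx
    exact Filter.eventually_atTop.1 (tendsto_natCast_atTop_atTop.eventually h1)
  obtain ⟨Q3, hQ3⟩ : ∃ Q3 : ℕ, ∀ Q : ℕ, Q3 ≤ Q → (4 : ℝ) ≤ (Q : ℝ) ^ d := by
    have h1 : ∀ᶠ x : ℝ in Filter.atTop, (4 : ℝ) ≤ x ^ d := (tendsto_rpow_atTop hd).eventually_ge_atTop 4
    exact Filter.eventually_atTop.1 (tendsto_natCast_atTop_atTop.eventually h1)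
  refine ⟨η / 2, half_pos hη, max (max Q1 Q2) (max Q3 3), fun Q hQ X hX a => ?_⟩
  have hQ1 : Q1 ≤ Q := (le_max_left _ _).trans ((le_max_left _ _).trans hQ)
  have hQ2' : Q2 ≤ Q := (le_max_right _ _).trans ((le_max_left _ _).trans hQ)
  have hQ3' : Q3 ≤ Q := (le_max_left _ _).trans ((le_max_right _ _).trans hQ)
  have hQ33 : 3 ≤ Q := (le_max_right _ _).trans ((le_max_right _ _).trans hQ)
  have hQR : (3 : ℝ) ≤ Q := by exact_mod_cast hQ33
  have hQ0 : (0 : ℝ) < Q := by linarith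
  obtain ⟨y, hy⟩ : ∃ y : ℕ, y = ⌈(Q : ℝ) ^ (2 + d)⌉₊ := ⟨_, rfl⟩
  have hy1 : (Q : ℝ) ^ (2 + d) ≤ y := by
    rw [hy]
    exact Nat.le_ceil _
  have hQd : (1 : ℝ) ≤ (Q : ℝ) ^ (2 + d) := Real.one_le_rpow (by linarith) (by linarith)
  have hy2 : (y : ℝ) ≤ 2 * (Q : ℝ) ^ (2 + d) := by
    have h1 : (y : ℝ) < (Q : ℝ) ^ (2 + d) + 1 := by
      rw [hy]
      exact Nat.ceil_lt_add_one (by positivity)
    linarith
  have hsplit : (Q : ℝ) ^ (2 + d) = (Q : ℝ) ^ 2 * (Q : ℝ) ^ d := by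
    rw [Real.rpow_add hQ0, Real.rpow_two]
  have hy4 : (2 * Q) ^ 2 ≤ y := by
    have h1 : ((2 * Q) ^ 2 : ℝ) ≤ y := by
      have := hQ3 Q hQ3'
      rw [hsplit] at hy1
      nlinarith [sq_nonneg (Q : ℝ)]
    exact_mod_cast h1
  have hy3 : 3 ≤ y := by nlinarith
  have hyX : y ≤ X := by
    have h1 : (Q : ℝ) ^ (2 + d) ≤ (Q : ℝ) ^ (3 : ℝ) :=
      Real.rpow_le_rpow_of_exponent_le (by linarith) (by linarith)
    have h2 : (Q : ℝ) ^ (3 : ℝ) = (Q : ℝ) ^ (3 : ℕ) := by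
      rw [← Real.rpow_natCast]
      norm_num
    have h3 : (16 * (Q : ℝ) ^ 3) ≤ X := by exact_mod_cast hX
    have h4 : (y : ℝ) ≤ X := by
      have : 0 ≤ (Q : ℝ) ^ 3 := by positivity
      rw [h2] at h1
      linarith
    exact_mod_cast h4
  have hy0 : (0 : ℝ) < y := by exact_mod_cast (show 0 < y by omega)
  have hlX : 0 < Real.log X := Real.log_pos (by exact_mod_cast (show 1 < X by omega))
  have hl2 : Real.log 2 ≤ 1 := by
    have := Real.log_two_lt_d9
    linarith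
  have hlQ : 1 ≤ Real.log Q := V3_log3 Q hQ33
  have hlyQ : (2 + d) * Real.log Q ≤ Real.log y := by
    rw [← Real.log_rpow hQ0]
    exact Real.log_le_log (by positivity) hy1
  have hlyQ' : Real.log y ≤ (2 + d) * Real.log Q + 1 := by
    have h1 : Real.log y ≤ Real.log (2 * (Q : ℝ) ^ (2 + d)) := Real.log_le_log hy0 hy2
    rw [Real.log_mul (by norm_num) (by positivity), Real.log_rpow hQ0] at h1
    linarith
  have hkey : ∀ q ∈ PB Q, (1 / 2 - d) * (1 / (q : ℝ)) - (1 / 2 + 2 * C2 + 432 * C3) * (1 / ((q : ℝ) * Real.log q)) -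
        2 / Real.log X * (Real.log q / q) -
        2 * Real.log Q * |∑ n ∈ Ioc y X, vonMangoldt n * dk a q n * (1 / ((n : ℝ) * (Real.log n) ^ 2))| -
        4 * Real.log Q / Q * (((q : ℝ) - 1) / 2 * ∑ n ∈ (Ioc 0 X).filter (fun n => ¬ n.Prime), |eps q n| * (vl n / n)) ≤
      Real.log q * ∑ p ∈ (Pr X).filter (fun p => q ^ 2 ≤ p ∧ q ∣ sh a p), 1 / ((p : ℝ) * Real.log p) := by
    intro q hq
    obtain ⟨hqp, hQlt, hq2Q⟩ := mem_PB.1 hq
    have hq4 : (4 : ℝ) ≤ q := by exact_mod_cast (show 4 ≤ q by omega)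
    have hq0 : (0 : ℝ) < q := by linarith
    have hQlR : (Q : ℝ) + 1 ≤ q := by exact_mod_cast hQlt
    have hq2R : (q : ℝ) ≤ 2 * Q := by exact_mod_cast hq2Q
    have hlqQ : Real.log Q ≤ Real.log q := Real.log_le_log hQ0 (by linarith)
    have hlq : Real.log q ≤ 2 * Real.log Q := by
      have h1 : Real.log q ≤ Real.log 2 + Real.log Q := by
        rw [← Real.log_mul (by norm_num) (by linarith)]
        exact Real.log_le_log hq0 hq2R
      linarith
    have hqy : q ^ 2 ≤ y := by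
      have : q ^ 2 ≤ (2 * Q) ^ 2 := Nat.pow_le_pow_left hq2Q 2
      omega
    have h1 := V3_split q y X hqy a
    have h2 := V3_ker q y X a
    have h3 := V3_mult q hqp y X hy3 hqy
    have h4 := V3_pp q (by omega) y X hy3 a
    have h5 := hpt q hqp.two_le X
    have h6 := hm y hy3 X hyX
    have h7 := V3_el C2 C3 q d (Real.log Q) (Real.log q) (Real.log y) (Real.log X) hC2 hC3 hq4 hd hlQ hlqQ hlq hlyQ hlyQ'
      hlX (V3_cube q (by linarith))
    obtain ⟨A, hA⟩ : ∃ A : ℝ, A = |∑ n ∈ Ioc y X, vonMangoldt n * dk a q n * (1 / ((n : ℝ) * (Real.log n) ^ 2))| := ⟨_, rfl⟩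
    obtain ⟨B, hB⟩ : ∃ B : ℝ, B = ∑ n ∈ (Ioc 0 X).filter (fun n => ¬ n.Prime), |eps q n| * (vl n / n) := ⟨_, rfl⟩
    have hA0 : 0 ≤ A := by rw [hA]; exact abs_nonneg _
    have hB0 : 0 ≤ B := by
      rw [hB]
      apply sum_nonneg
      intro n _
      have e2 : 0 ≤ vonMangoldt n := ArithmeticFunction.vonMangoldt_nonneg
      have e3 := Real.log_natCast_nonneg n
      have e4 := abs_nonneg (eps q n)
      unfold vl
      positivity
    rw [← hA] at h2 ⊢
    rw [← hB] at h4 ⊢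
    have hq1 : 0 < (q : ℝ) - 1 := by linarith
    have h8 : 1 / ((q : ℝ) - 1) * (1 / Real.log y - 1 / Real.log X - C2 / (Real.log y) ^ 2 - C3 * Real.log q / √(q : ℝ)) - A - B ≤
        ∑ p ∈ (Pr X).filter (fun p => q ^ 2 ≤ p ∧ q ∣ sh a p), 1 / ((p : ℝ) * Real.log p) := by
      have h9 : 1 / ((q : ℝ) - 1) * (1 / Real.log y - 1 / Real.log X - C2 / (Real.log y) ^ 2 - C3 * Real.log q / √(q : ℝ)) ≤
          1 / ((q : ℝ) - 1) * (∑ n ∈ Ioc y X, vonMangoldt n / ((n : ℝ) * (Real.log n) ^ 2) -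
            ∑ n ∈ (Ioc y X).filter (fun n => q ∣ n), vonMangoldt n / ((n : ℝ) * (Real.log n) ^ 2)) := by
        apply mul_le_mul_of_nonneg_left _ (by positivity)
        linarith
      linarith
    have hlq0 : 0 < Real.log q := by linarith
    have h10 := mul_le_mul_of_nonneg_left h8 hlq0.le
    rw [mul_sub, mul_sub] at h10
    have h11 : Real.log q * A ≤ 2 * Real.log Q * A := mul_le_mul_of_nonneg_right hlq hA0
    have h12 : Real.log q * B ≤ 4 * Real.log Q / Q * (((q : ℝ) - 1) / 2 * B) := by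
      have e1 : 4 * Real.log Q / Q * (((q : ℝ) - 1) / 2 * B) = 2 * Real.log Q * ((((q : ℝ) - 1) / Q) * B) := by
        field_simp
        ring
      rw [e1]
      have e2 : 1 ≤ ((q : ℝ) - 1) / Q := by
        rw [le_div_iff₀ hQ0]
        linarith
      calc Real.log q * B ≤ 2 * Real.log Q * B := mul_le_mul_of_nonneg_right hlq hB0
        _ = 2 * Real.log Q * (1 * B) := by ring
        _ ≤ 2 * Real.log Q * ((((q : ℝ) - 1) / Q) * B) := by
            apply mul_le_mul_of_nonneg_left _ (by linarith)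
            exact mul_le_mul_of_nonneg_right e2 hB0
    linarith
  refine le_trans ?_ (Finset.sum_le_sum hkey)
  rw [Finset.sum_sub_distrib, Finset.sum_sub_distrib, Finset.sum_sub_distrib, Finset.sum_sub_distrib, ← Finset.mul_sum,
    ← Finset.mul_sum, ← Finset.mul_sum, ← Finset.mul_sum, ← Finset.mul_sum]
  have h1 := hg Q hQ1 y X hy1 hyX a
  have hLη := hQ2 Q hQ2'
  have hηη : (Q : ℝ) ^ (η / 2) * (Q : ℝ) ^ (-η) = (Q : ℝ) ^ (-(η / 2)) := by
    rw [← Real.rpow_add hQ0]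
    congr 1
    ring
  have hpos : 0 < (Q : ℝ) ^ (-(η / 2)) := by positivity
  have h2 : 2 * Real.log Q * ∑ q ∈ PB Q, |∑ n ∈ Ioc y X, vonMangoldt n * dk a q n * (1 / ((n : ℝ) * (Real.log n) ^ 2))| ≤
      20 * (Q : ℝ) ^ (-(η / 2)) := by
    calc _ ≤ 2 * (Q : ℝ) ^ (η / 2) * (10 * (Q : ℝ) ^ (-η1)) :=
          mul_le_mul (mul_le_mul_of_nonneg_left hLη (by norm_num)) h1
            (Finset.sum_nonneg fun q _ => abs_nonneg _) (by positivity)
      _ ≤ 2 * (Q : ℝ) ^ (η / 2) * (10 * (Q : ℝ) ^ (-η)) := by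
          apply mul_le_mul_of_nonneg_left _ (by positivity)
          apply mul_le_mul_of_nonneg_left _ (by norm_num)
          exact Real.rpow_le_rpow_of_exponent_le (by linarith) (by linarith)
      _ = 20 * ((Q : ℝ) ^ (η / 2) * (Q : ℝ) ^ (-η)) := by ring
      _ = 20 * (Q : ℝ) ^ (-(η / 2)) := by rw [hηη]
  have h3 := hpb Q (by omega) X
  have h4 : 4 * Real.log Q / Q * ∑ q ∈ PB Q, ((q : ℝ) - 1) / 2 * ∑ n ∈ (Ioc 0 X).filter (fun n => ¬ n.Prime),
      |eps q n| * (vl n / n) ≤ 4 * C1 * (Q : ℝ) ^ (-(η / 2)) := by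
    calc _ ≤ 4 * Real.log Q / Q * (C1 * √(Q : ℝ)) := mul_le_mul_of_nonneg_left h3 (by positivity)
      _ = 4 * C1 * (Real.log Q * (√(Q : ℝ) / Q)) := by ring
      _ ≤ 4 * C1 * ((Q : ℝ) ^ (η / 2) * (Q : ℝ) ^ (-η)) := by
          apply mul_le_mul_of_nonneg_left _ (by positivity)
          apply mul_le_mul hLη _ (by positivity) (by positivity)
          have e1 : √(Q : ℝ) / Q = (Q : ℝ) ^ (-(1 / 2 : ℝ)) := by
            rw [Real.sqrt_eq_rpow, div_eq_mul_inv, ← Real.rpow_neg_one, ← Real.rpow_add hQ0]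
            norm_num
          rw [e1]
          exact Real.rpow_le_rpow_of_exponent_le (by linarith) (by linarith)
      _ = 4 * C1 * (Q : ℝ) ^ (-(η / 2)) := by rw [hηη]
  have hS1 : 0 ≤ ∑ q ∈ PB Q, 1 / (q : ℝ) := sum_nonneg fun q _ => by positivity
  have hS2 : 0 ≤ ∑ q ∈ PB Q, 1 / ((q : ℝ) * Real.log q) := sum_nonneg fun q _ => by
    have := Real.log_natCast_nonneg q
    positivity
  have hS3 : 0 ≤ ∑ q ∈ PB Q, Real.log q / (q : ℝ) := sum_nonneg fun q _ => by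
    have := Real.log_natCast_nonneg q
    positivity
  have h5 : (1 / 2 - C * d) * ∑ q ∈ PB Q, 1 / (q : ℝ) ≤ (1 / 2 - d) * ∑ q ∈ PB Q, 1 / (q : ℝ) := by
    apply mul_le_mul_of_nonneg_right _ hS1
    have : 1 ≤ C := by rw [hC]; linarith [hC1, hC2, hC3]
    nlinarith
  have h6 : (1 / 2 + 2 * C2 + 432 * C3) * ∑ q ∈ PB Q, 1 / ((q : ℝ) * Real.log q) ≤
      C * ∑ q ∈ PB Q, 1 / ((q : ℝ) * Real.log q) := by
    apply mul_le_mul_of_nonneg_right _ hS2
    rw [hC]
    linarith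
  have h7 : 2 / Real.log X * ∑ q ∈ PB Q, Real.log q / (q : ℝ) ≤ C / Real.log X * ∑ q ∈ PB Q, Real.log q / (q : ℝ) := by
    apply mul_le_mul_of_nonneg_right _ hS3
    apply div_le_div_of_nonneg_right _ hlX.le
    rw [hC]
    linarith
  have h8 : 20 * (Q : ℝ) ^ (-(η / 2)) + 4 * C1 * (Q : ℝ) ^ (-(η / 2)) ≤ C * (Q : ℝ) ^ (-(η / 2)) := by
    rw [← add_mul]
    apply mul_le_mul_of_nonneg_right _ hpos.le
    rw [hC]
    linarith
  linarith

end Pool.Agent.Lib.MP_5deb1d_nt
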