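import Mathlib
import Pool.Agent.Lib.MP_5deb1d_nt.V3
import Pool.Agent.Lib.MP_5deb1d_nt.M1
import Pool.Agent.Lib.MP_5deb1d_nt.CH

/-!
JOB V4. Lower bound for the main sum (the counterpart of `main_small`, file E5.lean: its private lemmas `E5_split`, `E5_exch`, `E5_geom` may be copied). PROOF: exchange as in E5; choose `d ≤ 1` with `C d ≤ ε/2`; keep only the `q` in the disjoint blocks `PB (2^j)`,
`j0 ≤ j ≤ j1`, where `2^j0 ≥ Q0` and `j1` is the largest with `16 (2^j1)^3 ≤ X` (all terms are `≥ 0`). They contain all primes `q` with `2^j0 < q ≤ 2^(j1+1)`, and `2^(j1+1) ≥ c X^(1/3)`, so `∑ 1/q ≥ log log X - C` (`mertens2`; for the finitely many small `X` the statement is trivial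
with a large `C`). `∑ 1/(q log q) ≤ C` (`sum_inv_p_log`), `∑_j 2^(-η j) ≤ C`, and `∑_{q ≤ X} log q/q ≤ C log X` for `X ≥ 3` (dyadic with `card_PB`, or Mathlib/`sum_vM_le` in `Pool/Agent/Lib/MP_2c5684_nt/Mertens.lean`).
-/

set_option autoImplicit false

open Finset
open ArithmeticFunction (vonMangoldt)

namespace Pool.Agent.Lib.MP_5deb1d_nt

private theorem V4_split (f : ℕ → ℝ) (j0 n : ℕ) :
    ∑ q ∈ Pr (2 ^ (j0 + n)), f q = ∑ q ∈ Pr (2 ^ j0), f q + ∑ j ∈ range n, ∑ q ∈ PB (2 ^ (j0 + j)), f q := by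
  induction n with
  | zero => rw [range_zero, sum_empty, add_zero, add_zero]
  | succ n ih =>
    have h2 : 2 ^ (j0 + (n + 1)) = 2 * 2 ^ (j0 + n) := by ring
    have h1 : Pr (2 ^ (j0 + (n + 1))) = Pr (2 ^ (j0 + n)) ∪ PB (2 ^ (j0 + n)) := by
      ext q
      rw [mem_union, mem_Pr, mem_Pr, mem_PB, h2]
      constructor
      · rintro ⟨h3, h4⟩
        rcases le_or_gt q (2 ^ (j0 + n)) with h5 | h5
        · exact Or.inl ⟨h3, h5⟩
        · exact Or.inr ⟨h3, h5, h4⟩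
      · rintro (⟨h3, h4⟩ | ⟨h3, h4, h5⟩)
        · exact ⟨h3, h4.trans (Nat.le_mul_of_pos_left _ (by norm_num))⟩
        · exact ⟨h3, h5⟩
    have h6 : Disjoint (Pr (2 ^ (j0 + n))) (PB (2 ^ (j0 + n))) := by
      rw [disjoint_left]
      intro q h3 h4
      rw [mem_Pr] at h3
      rw [mem_PB] at h4
      exact absurd h3.2 (not_le.2 h4.2.1)
    rw [h1, sum_union h6, ih, sum_range_succ, add_assoc]

private theorem V4_exch (a : Bool) (X : ℕ) :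
    ∑ p ∈ Pr X, (∑ q ∈ (sh a p).divisors.filter (fun q => q.Prime ∧ q ^ 2 ≤ p), Real.log q) / ((p : ℝ) * Real.log p) =
    ∑ q ∈ Pr X, Real.log q * ∑ p ∈ (Pr X).filter (fun p => q ^ 2 ≤ p ∧ q ∣ sh a p), 1 / ((p : ℝ) * Real.log p) := by
  have h1 : ∀ p ∈ Pr X, (∑ q ∈ (sh a p).divisors.filter (fun q => q.Prime ∧ q ^ 2 ≤ p), Real.log q) /
      ((p : ℝ) * Real.log p) =
      ∑ q ∈ Pr X, if q ^ 2 ≤ p ∧ q ∣ sh a p then Real.log q * (1 / ((p : ℝ) * Real.log p)) else 0 := by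
    intro p hp
    obtain ⟨hpp, hpX⟩ := mem_Pr.1 hp
    have h0 : sh a p ≠ 0 := by
      have h2 := hpp.two_le
      cases a
      · exact Nat.succ_ne_zero p
      · show p - 1 ≠ 0
        omega
    have hs : (sh a p).divisors.filter (fun q => q.Prime ∧ q ^ 2 ≤ p) =
        (Pr X).filter (fun q => q ^ 2 ≤ p ∧ q ∣ sh a p) := by
      ext q
      rw [mem_filter, mem_filter, Nat.mem_divisors, mem_Pr]
      constructor
      · rintro ⟨⟨h3, -⟩, h4, h5⟩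
        exact ⟨⟨h4, ((Nat.le_self_pow two_ne_zero q).trans h5).trans hpX⟩, h5, h3⟩
      · rintro ⟨⟨h3, -⟩, h4, h5⟩
        exact ⟨⟨h5, h0⟩, h3, h4⟩
    rw [hs, ← sum_filter, sum_div]
    refine sum_congr rfl fun q _ => ?_
    rw [mul_one_div]
  rw [sum_congr rfl h1, sum_comm]
  refine sum_congr rfl fun q _ => ?_
  rw [← sum_filter, mul_sum]

private theorem V4_pl (p : ℕ) : 0 ≤ 1 / ((p : ℝ) * Real.log p) := by
  have h1 := Real.log_natCast_nonneg p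
  positivity

private theorem V4_geom {r : ℝ} (h0 : 0 ≤ r) (h1 : r < 1) (n : ℕ) : ∑ j ∈ range n, r ^ j ≤ 1 / (1 - r) := by
  rw [le_div_iff₀ (by linarith), mul_comm, mul_neg_geom_sum]
  have := pow_nonneg h0 n
  linarith


private theorem V4_logsum : ∃ C : ℝ, 0 < C ∧ ∀ X : ℕ, 3 ≤ X →
    ∑ q ∈ Pr X, Real.log q / (q : ℝ) ≤ C * Real.log X := by
  have hlog4 : 0 < Real.log 4 := Real.log_pos (by norm_num)
  refine ⟨1 + (Real.log 4 + 4), by positivity, fun X hX => ?_⟩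
  have hX3 : (3 : ℝ) ≤ (X : ℝ) := by exact_mod_cast hX
  have hlX : 1 ≤ Real.log X := by
    rw [Real.le_log_iff_exp_le (by linarith)]
    have := Real.exp_one_lt_d9
    linarith
  have h1 := Pool.Agent.Lib.MP_2c5684_nt.sum_vM_le X (by omega)
  have h2 : ∑ q ∈ Pr X, Real.log q / (q : ℝ) ≤
      ∑ d ∈ Icc 1 X, Pool.Agent.Lib.MP_2c5684_nt.vM d / (d : ℝ) := by
    have h3 : ∑ q ∈ Pr X, Real.log q / (q : ℝ) = ∑ q ∈ Pr X, Pool.Agent.Lib.MP_2c5684_nt.vM q / (q : ℝ) := by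
      refine sum_congr rfl fun q hq => ?_
      have h4 : Pool.Agent.Lib.MP_2c5684_nt.vM q = Real.log q :=
        ArithmeticFunction.vonMangoldt_apply_prime (mem_Pr.1 hq).1
      rw [h4]
    rw [h3]
    refine sum_le_sum_of_subset_of_nonneg ?_ fun d _ _ =>
      div_nonneg (Pool.Agent.Lib.MP_2c5684_nt.vM_nonneg d) (Nat.cast_nonneg d)
    intro q hq
    rw [mem_Pr] at hq
    rw [mem_Icc]
    exact ⟨hq.1.one_lt.le, hq.2⟩
  have h5 : Real.log 4 + 4 ≤ (Real.log 4 + 4) * Real.log X := le_mul_of_one_le_right (by positivity) hlX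
  linarith

theorem main_low (ε : ℝ) (hε : 0 < ε) : ∃ C : ℝ, 0 < C ∧ ∀ a : Bool, ∀ X : ℕ, 3 ≤ X →
    (1 / 2 - ε) * Real.log (Real.log X) - C ≤
    ∑ p ∈ Pr X, (∑ q ∈ (sh a p).divisors.filter (fun q => q.Prime ∧ q ^ 2 ≤ p), Real.log q) / ((p : ℝ) * Real.log p) := by
  obtain ⟨C₁, hC₁, hbl⟩ := block_low
  obtain ⟨C₂, hC₂, hm⟩ := mertens2
  obtain ⟨C₃, hC₃, hs⟩ := sum_inv_p_log
  obtain ⟨C₄, hC₄, hl⟩ := V4_logsum
  obtain ⟨d, hd, hd1, hdε, hdh⟩ : ∃ d : ℝ, 0 < d ∧ d ≤ 1 ∧ C₁ * d ≤ ε ∧ C₁ * d ≤ 1 / 2 := by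
    have h0 : 0 < min ε (1 / 2) := lt_min hε (by norm_num)
    have h1 : C₁ * min 1 (min ε (1 / 2) / C₁) ≤ min ε (1 / 2) := by
      calc C₁ * min 1 (min ε (1 / 2) / C₁) ≤ C₁ * (min ε (1 / 2) / C₁) :=
            mul_le_mul_of_nonneg_left (min_le_right _ _) hC₁.le
        _ = min ε (1 / 2) := mul_div_cancel₀ _ hC₁.ne'
    exact ⟨min 1 (min ε (1 / 2) / C₁), lt_min one_pos (div_pos h0 hC₁), min_le_left _ _,
      h1.trans (min_le_left _ _), h1.trans (min_le_right _ _)⟩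
  obtain ⟨η, hη, Q0, hblk⟩ := hbl d hd hd1
  obtain ⟨c, hc⟩ : ∃ c : ℝ, c = 1 / 2 - C₁ * d := ⟨_, rfl⟩
  have hc0 : 0 ≤ c := by linarith
  have hc1 : c ≤ 1 := by
    have : 0 ≤ C₁ * d := by positivity
    linarith
  have hcε : 1 / 2 - ε ≤ c := by linarith
  rw [← hc] at hblk
  obtain ⟨r, hr⟩ : ∃ r : ℝ, r = (2 : ℝ) ^ (-η) := ⟨_, rfl⟩
  have hr0 : 0 ≤ r := by
    rw [hr]
    positivity
  have hr1 : r < 1 := by
    rw [hr]
    exact Real.rpow_lt_one_of_one_lt_of_neg (by norm_num) (by linarith)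
  have h1r : 0 < 1 - r := by linarith
  have hlog2 : 0 < Real.log 2 := Real.log_pos (by norm_num)
  have hlog7 : 0 < Real.log 7 := Real.log_pos (by norm_num)
  obtain ⟨K, hK⟩ : ∃ K : ℝ, K = ∑ q ∈ Pr (2 ^ Q0), 1 / (q : ℝ) := ⟨_, rfl⟩
  have hK0 : 0 ≤ K := by
    rw [hK]
    exact sum_nonneg fun q _ => by positivity
  have hM0 : 0 ≤ Real.log (3 * (Q0 : ℝ) + 10) := Real.log_nonneg (by
    have : (0 : ℝ) ≤ (Q0 : ℝ) := Nat.cast_nonneg _
    linarith)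
  have hP1 : 0 ≤ c * (Real.log 7 + C₂ + K) := by positivity
  have hP2 : 0 < C₁ * C₃ := by positivity
  have hP3 : 0 ≤ C₁ * (1 / (1 - r)) := by positivity
  have hP4 : 0 < C₁ * C₄ := by positivity
  refine ⟨c * (Real.log 7 + C₂ + K) + C₁ * C₃ + C₁ * (1 / (1 - r)) + C₁ * C₄ + Real.log (3 * (Q0 : ℝ) + 10),
    by positivity, fun a X hX => ?_⟩
  rw [V4_exch]
  obtain ⟨f, hf⟩ : ∃ f : ℕ → ℝ, ∀ q, f q = Real.log q *
      ∑ p ∈ (Pr X).filter (fun p => q ^ 2 ≤ p ∧ q ∣ sh a p), 1 / ((p : ℝ) * Real.log p) := ⟨_, fun _ => rfl⟩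
  rw [sum_congr rfl fun q _ => (hf q).symm]
  have hf0 : ∀ q, 0 ≤ f q := fun q => by
    rw [hf]
    exact mul_nonneg (Real.log_natCast_nonneg q) (sum_nonneg fun p _ => V4_pl p)
  have hX3 : (3 : ℝ) ≤ (X : ℝ) := by exact_mod_cast hX
  have hlX : 1 ≤ Real.log X := by
    rw [Real.le_log_iff_exp_le (by linarith)]
    have := Real.exp_one_lt_d9
    linarith
  have hllX : 0 ≤ Real.log (Real.log X) := Real.log_nonneg hlX
  have hXJ : X < 2 ^ (Nat.log 2 X + 1) := Nat.lt_pow_succ_log_self (by norm_num) X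
  have hJX : 2 ^ (Nat.log 2 X) ≤ X := Nat.pow_log_le_self 2 (by omega)
  obtain ⟨J, hJ⟩ : ∃ J : ℕ, J = Nat.log 2 X := ⟨_, rfl⟩
  rw [← hJ] at hXJ hJX
  have hup : ∀ M : ℕ, X < 2 ^ M → Real.log X ≤ (M : ℝ) * Real.log 2 := by
    intro M hM
    have h1 : (X : ℝ) ≤ (2 : ℝ) ^ M := by exact_mod_cast hM.le
    calc Real.log X ≤ Real.log ((2 : ℝ) ^ M) := Real.log_le_log (by linarith) h1
      _ = (M : ℝ) * Real.log 2 := by rw [Real.log_pow]
  have hcl : (1 / 2 - ε) * Real.log (Real.log X) ≤ c * Real.log (Real.log X) :=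
    mul_le_mul_of_nonneg_right hcε hllX
  have hS0 : 0 ≤ ∑ q ∈ Pr X, f q := sum_nonneg fun q _ => hf0 q
  have hlog21 : Real.log 2 ≤ 1 := by
    have := Real.log_two_lt_d9
    linarith
  rcases lt_or_ge J (3 * Q0 + 9) with hsm | hlg
  · have h1 := hup (J + 1) hXJ
    have h2 : ((J + 1 : ℕ) : ℝ) ≤ 3 * (Q0 : ℝ) + 10 := by
      have h3 : J + 1 ≤ 3 * Q0 + 10 := by omega
      exact_mod_cast h3
    have h4 : Real.log X ≤ 3 * (Q0 : ℝ) + 10 := by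
      calc Real.log X ≤ ((J + 1 : ℕ) : ℝ) * Real.log 2 := h1
        _ ≤ ((J + 1 : ℕ) : ℝ) * 1 := mul_le_mul_of_nonneg_left hlog21 (Nat.cast_nonneg _)
        _ ≤ 3 * (Q0 : ℝ) + 10 := by linarith
    have h5 : Real.log (Real.log X) ≤ Real.log (3 * (Q0 : ℝ) + 10) := Real.log_le_log (by linarith) h4
    have h6 : c * Real.log (Real.log X) ≤ 1 * Real.log (Real.log X) := mul_le_mul_of_nonneg_right hc1 hllX
    linarith
  · obtain ⟨n, hn0, hn1, hn2⟩ : ∃ n : ℕ, 1 ≤ n ∧ 3 * (Q0 + n) + 1 ≤ J ∧ J + 1 ≤ 3 * (Q0 + n) + 4 := by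
      refine ⟨(J - 1) / 3 - Q0, ?_, ?_, ?_⟩ <;> omega
    have h2n : 2 ^ (Q0 + n) ≤ X := (Nat.pow_le_pow_right (by norm_num) (by omega)).trans hJX
    have h1 : ∑ q ∈ Pr (2 ^ (Q0 + n)), f q ≤ ∑ q ∈ Pr X, f q := by
      refine sum_le_sum_of_subset_of_nonneg ?_ fun q _ _ => hf0 q
      intro q hq
      rw [mem_Pr] at hq ⊢
      exact ⟨hq.1, hq.2.trans h2n⟩
    rw [V4_split] at h1
    have h1' : 0 ≤ ∑ q ∈ Pr (2 ^ Q0), f q := sum_nonneg fun q _ => hf0 q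
    have h2 : ∀ j ∈ range n, c * ∑ q ∈ PB (2 ^ (Q0 + j)), 1 / (q : ℝ) -
        C₁ * ∑ q ∈ PB (2 ^ (Q0 + j)), 1 / ((q : ℝ) * Real.log q) - C₁ * r ^ j -
        C₁ / Real.log X * ∑ q ∈ PB (2 ^ (Q0 + j)), Real.log q / (q : ℝ) ≤ ∑ q ∈ PB (2 ^ (Q0 + j)), f q := by
      intro j hj
      rw [mem_range] at hj
      have hQ : Q0 ≤ 2 ^ (Q0 + j) := (Nat.lt_two_pow_self).le.trans (Nat.pow_le_pow_right (by norm_num) (Nat.le_add_right _ _))
      have h16 : 16 * (2 ^ (Q0 + j)) ^ 3 ≤ X := by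
        have h3 : 16 * (2 ^ (Q0 + j)) ^ 3 = 2 ^ (3 * (Q0 + j) + 4) := by
          ring
        rw [h3]
        exact (Nat.pow_le_pow_right (by norm_num) (by omega)).trans hJX
      have h3 := hblk (2 ^ (Q0 + j)) hQ X h16 a
      rw [sum_congr rfl fun q _ => (hf q).symm] at h3
      have h5 : (((2 ^ (Q0 + j) : ℕ) : ℝ)) ^ (-η) ≤ r ^ j := by
        have h6 : (((2 ^ (Q0 + j) : ℕ) : ℝ)) ^ (-η) = r ^ (Q0 + j) := by
          rw [hr, Nat.cast_pow, Nat.cast_ofNat, ← Real.rpow_natCast, ← Real.rpow_natCast, ← Real.rpow_mul (by norm_num),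
            ← Real.rpow_mul (by norm_num), mul_comm]
        rw [h6]
        exact pow_le_pow_of_le_one hr0 hr1.le (Nat.le_add_left _ _)
      have h6 := mul_le_mul_of_nonneg_left h5 hC₁.le
      linarith
    have h3 := sum_le_sum h2
    rw [sum_sub_distrib, sum_sub_distrib, sum_sub_distrib, ← mul_sum, ← mul_sum, ← mul_sum, ← mul_sum] at h3
    have h4 := V4_split (fun q => 1 / (q : ℝ)) Q0 n
    rw [← hK] at h4
    have h5 := V4_split (fun q => 1 / ((q : ℝ) * Real.log q)) Q0 n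
    have h5' := V4_split (fun q => Real.log q / (q : ℝ)) Q0 n
    have h7 : 0 ≤ ∑ q ∈ Pr (2 ^ Q0), 1 / ((q : ℝ) * Real.log q) := sum_nonneg fun q _ => V4_pl q
    have h7' : 0 ≤ ∑ q ∈ Pr (2 ^ Q0), Real.log q / (q : ℝ) :=
      sum_nonneg fun q _ => div_nonneg (Real.log_natCast_nonneg q) (Nat.cast_nonneg q)
    have h8 := hs (2 ^ (Q0 + n))
    have h8' : ∑ q ∈ Pr (2 ^ (Q0 + n)), Real.log q / (q : ℝ) ≤ C₄ * Real.log X := by
      refine le_trans (sum_le_sum_of_subset_of_nonneg ?_ fun q _ _ =>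
        div_nonneg (Real.log_natCast_nonneg q) (Nat.cast_nonneg q)) (hl X hX)
      intro q hq
      rw [mem_Pr] at hq ⊢
      exact ⟨hq.1, hq.2.trans h2n⟩
    have h9 : 3 ≤ 2 ^ (Q0 + n) := by
      have h10 : 2 ^ 2 ≤ 2 ^ (Q0 + n) := Nat.pow_le_pow_right (by norm_num) (by omega)
      omega
    have h10 := (abs_le.1 (hm (2 ^ (Q0 + n)) h9)).1
    have h11 : Real.log (Real.log X) ≤ Real.log 7 + Real.log (Real.log ((2 ^ (Q0 + n) : ℕ) : ℝ)) := by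
      have h12 := hup (J + 1) hXJ
      have h13 : ((J + 1 : ℕ) : ℝ) ≤ 7 * ((Q0 + n : ℕ) : ℝ) := by
        have h14 : J + 1 ≤ 7 * (Q0 + n) := by omega
        exact_mod_cast h14
      have h14 : Real.log (((2 ^ (Q0 + n) : ℕ)) : ℝ) = ((Q0 + n : ℕ) : ℝ) * Real.log 2 := by
        rw [Nat.cast_pow, Nat.cast_ofNat, Real.log_pow]
      have h15 : 0 < ((Q0 + n : ℕ) : ℝ) := by
        exact_mod_cast (by omega : 0 < Q0 + n)
      have h16 : Real.log X ≤ 7 * Real.log (((2 ^ (Q0 + n) : ℕ)) : ℝ) := by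
        rw [h14]
        calc Real.log X ≤ ((J + 1 : ℕ) : ℝ) * Real.log 2 := h12
          _ ≤ 7 * ((Q0 + n : ℕ) : ℝ) * Real.log 2 := mul_le_mul_of_nonneg_right h13 hlog2.le
          _ = _ := by ring
      have h17 : 0 < Real.log (((2 ^ (Q0 + n) : ℕ)) : ℝ) := by
        rw [h14]
        positivity
      calc Real.log (Real.log X) ≤ Real.log (7 * Real.log (((2 ^ (Q0 + n) : ℕ)) : ℝ)) :=
            Real.log_le_log (by linarith) h16
        _ = _ := Real.log_mul (by norm_num) h17.ne'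
    have h12 : c * (Real.log (Real.log X) - Real.log 7 - C₂ - K) ≤
        c * ∑ j ∈ range n, ∑ q ∈ PB (2 ^ (Q0 + j)), 1 / (q : ℝ) :=
      mul_le_mul_of_nonneg_left (by linarith) hc0
    have h13 : C₁ * ∑ j ∈ range n, ∑ q ∈ PB (2 ^ (Q0 + j)), 1 / ((q : ℝ) * Real.log q) ≤ C₁ * C₃ :=
      mul_le_mul_of_nonneg_left (by linarith) hC₁.le
    have h14 : C₁ * ∑ j ∈ range n, r ^ j ≤ C₁ * (1 / (1 - r)) :=
      mul_le_mul_of_nonneg_left (V4_geom hr0 hr1 _) hC₁.le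
    have h15 : C₁ / Real.log X * ∑ j ∈ range n, ∑ q ∈ PB (2 ^ (Q0 + j)), Real.log q / (q : ℝ) ≤ C₁ * C₄ := by
      have h16 : C₁ / Real.log X * ∑ j ∈ range n, ∑ q ∈ PB (2 ^ (Q0 + j)), Real.log q / (q : ℝ) ≤
          C₁ / Real.log X * (C₄ * Real.log X) :=
        mul_le_mul_of_nonneg_left (by linarith) (by positivity)
      have h17 : C₁ / Real.log X * (C₄ * Real.log X) = C₁ * C₄ := by
        field_simp
      linarith
    have h16 : c * (Real.log (Real.log X) - Real.log 7 - C₂ - K) =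
        c * Real.log (Real.log X) - c * (Real.log 7 + C₂ + K) := by ring
    linarith

end Pool.Agent.Lib.MP_5deb1d_nt
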