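import Mathlib
import Pool.Agent.Lib.MP_5deb1d_nt.V1
import Pool.Agent.Lib.MP_5deb1d_nt.V4
import Pool.Agent.Lib.MP_5deb1d_nt.E2
import Pool.Agent.Lib.MP_5deb1d_nt.E5

/-!
JOB V5. The mass. PROOF: `mm_up` with `main_low`, `mm_low` with `main_small`, `pp_small` (`ε/2` each).
-/

set_option autoImplicit false

open Finset
open ArithmeticFunction (vonMangoldt)

namespace Pool.Agent.Lib.MP_5deb1d_nt

theorem mass (ε : ℝ) (hε : 0 < ε) : ∃ C : ℝ, 0 < C ∧ ∀ a : Bool, ∀ X : ℕ, 3 ≤ X →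
    |∑ p ∈ Pr X, FF (fun u => u) a p / (p : ℝ) - 1 / 2 * Real.log (Real.log X)| ≤ ε * Real.log (Real.log X) + C := by
  obtain ⟨C1, hC1, h1⟩ := mm_up
  obtain ⟨C2, hC2, h2⟩ := main_low ε hε
  obtain ⟨C3, hC3, h3⟩ := mm_low
  obtain ⟨C4, hC4, h4⟩ := main_small (ε / 2) (half_pos hε)
  obtain ⟨C5, hC5, h5⟩ := pp_small (ε / 2) (half_pos hε)
  refine ⟨C1 + C2 + C3 + C4 + C5, by positivity, fun a X hX => ?_⟩
  have k1 := h1 a X hX
  have k2 := h2 a X hX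
  have k3 := h3 a X hX
  have k4 := h4 a X hX
  have k5 := h5 a X hX
  rw [abs_le]
  constructor <;> linarith

end Pool.Agent.Lib.MP_5deb1d_nt
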