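import Mathlib
import Pool.Agent.Lib.MP_5deb1d_nt.V5
import Pool.Agent.Lib.MP_5deb1d_nt.V10
import Pool.Agent.Lib.MP_5deb1d_nt.V11
import Pool.Agent.Lib.MP_5deb1d_nt.D2

/-!
JOB V12. The bounds for `SS`. PROOF. (Up) for `p ∈ A_a` there is a prime `q ∣ sh a p` with `p < q²`, and `1 ≤ (8/5) u + fhi u` for `u = log q/log p ≥ 0`, so `SS a X ≤ (8/5) ∑ FF id/p + ∑ FF fhi/p ≤ (8/5)(1/2 + ε) L + C + (4 log(5/4) - 4/5 + ε) L`, `L = log log X` (`mass`, `w_sum fhi`, `int_hi`).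
(Low) `(8/7)(u - flo u) ≤ 1` for every `u`, and at most one `q` occurs (`uniq` in D2.lean), so `(8/7)(∑ FF id/p - ∑ FF flo/p) ≤ SS a X`; `mass`, `w_sum flo`, `int_lo`: `(8/7)(1/2 - 1/2 + (7/2) log(8/7)) = 4 log(8/7)`. Constants are absorbed by `log log X → ∞`.
-/

set_option autoImplicit false

open Finset
open ArithmeticFunction (vonMangoldt)

namespace Pool.Agent.Lib.MP_5deb1d_nt

private lemma V12_ne (a : Bool) (p : ℕ) (hp : p.Prime) : sh a p ≠ 0 := by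
  have h1 := hp.two_le
  cases a
  · simp only [sh, cond_false]
    omega
  · simp only [sh, cond_true]
    omega

private lemma V12_u (p q : ℕ) : 0 ≤ Real.log (q : ℝ) / Real.log (p : ℝ) :=
  div_nonneg (Real.log_natCast_nonneg q) (Real.log_natCast_nonneg p)

private lemma V12_up (a : Bool) (p : ℕ) (hp : p.Prime) (h : Ax a p) :
    1 ≤ 8 / 5 * FF (fun u => u) a p + FF fhi a p := by
  obtain ⟨q, hq, hd, hl⟩ := h
  have hmem : q ∈ (sh a p).divisors.filter (fun q => q.Prime ∧ p < q ^ 2) :=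
    mem_filter.2 ⟨Nat.mem_divisors.2 ⟨hd, V12_ne a p hp⟩, hq, hl⟩
  unfold FF
  rw [mul_sum, ← sum_add_distrib]
  have h1 : ∀ r ∈ (sh a p).divisors.filter (fun q => q.Prime ∧ p < q ^ 2),
      0 ≤ 8 / 5 * (Real.log (r : ℝ) / Real.log (p : ℝ)) + fhi (Real.log (r : ℝ) / Real.log (p : ℝ)) := by
    intro r _
    exact add_nonneg (mul_nonneg (by norm_num) (V12_u p r)) (le_max_left _ _)
  refine le_trans ?_ (single_le_sum h1 hmem)
  have h2 : 1 - 8 / 5 * (Real.log (q : ℝ) / Real.log (p : ℝ)) ≤ fhi (Real.log (q : ℝ) / Real.log (p : ℝ)) :=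
    le_max_right _ _
  linarith

private lemma V12_nonneg (f : ℝ → ℝ) (hf : ∀ u, 0 ≤ u → 0 ≤ f u) (a : Bool) (p : ℕ) : 0 ≤ FF f a p :=
  sum_nonneg fun q _ => hf _ (V12_u p q)

private lemma V12_lo (a : Bool) (p : ℕ) (hp : p.Prime) :
    (¬ Ax a p → FF (fun u => u) a p - FF flo a p = 0) ∧
      FF (fun u => u) a p - FF flo a p ≤ 7 / 8 := by
  unfold FF
  rcases ((sh a p).divisors.filter (fun q => q.Prime ∧ p < q ^ 2)).eq_empty_or_nonempty with h | ⟨q, hq⟩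
  · rw [h, sum_empty, sum_empty, sub_zero]
    exact ⟨fun _ => rfl, by norm_num⟩
  · obtain ⟨h1, h2, h3⟩ := mem_filter.1 hq
    refine ⟨fun h => absurd ⟨q, h2, (Nat.mem_divisors.1 h1).1, h3⟩ h, ?_⟩
    have hS : (sh a p).divisors.filter (fun q => q.Prime ∧ p < q ^ 2) = {q} := by
      refine eq_singleton_iff_unique_mem.2 ⟨hq, fun r hr => ?_⟩
      obtain ⟨r1, r2, r3⟩ := mem_filter.1 hr
      exact uniq a p hp r q r2 h2 (Nat.mem_divisors.1 r1).1 (Nat.mem_divisors.1 h1).1 r3 h3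
    rw [hS, sum_singleton, sum_singleton]
    have h4 : Real.log (q : ℝ) / Real.log (p : ℝ) - 7 / 8 ≤ flo (Real.log (q : ℝ) / Real.log (p : ℝ)) :=
      le_max_right _ _
    linarith

private lemma V12_SS_up (a : Bool) (X : ℕ) :
    SS a X ≤ 8 / 5 * ∑ p ∈ Pr X, FF (fun u => u) a p / (p : ℝ) + ∑ p ∈ Pr X, FF fhi a p / (p : ℝ) := by
  classical
  unfold SS
  rw [sum_filter, mul_sum, ← sum_add_distrib]
  refine sum_le_sum fun p hp => ?_
  have hp' := (mem_Pr.1 hp).1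
  have hp0 : (0 : ℝ) < (p : ℝ) := Nat.cast_pos.2 hp'.pos
  have e : 8 / 5 * (FF (fun u => u) a p / (p : ℝ)) + FF fhi a p / (p : ℝ) =
      (8 / 5 * FF (fun u => u) a p + FF fhi a p) / (p : ℝ) := by ring
  rw [e]
  split_ifs with h
  · exact div_le_div_of_nonneg_right (V12_up a p hp' h) hp0.le
  · refine div_nonneg (add_nonneg (mul_nonneg (by norm_num) (V12_nonneg _ (fun u hu => hu) a p))
      (V12_nonneg _ (fun u _ => le_max_left _ _) a p)) hp0.le

private lemma V12_SS_lo (a : Bool) (X : ℕ) :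
    8 / 7 * (∑ p ∈ Pr X, FF (fun u => u) a p / (p : ℝ) - ∑ p ∈ Pr X, FF flo a p / (p : ℝ)) ≤ SS a X := by
  classical
  unfold SS
  rw [sum_filter, ← sum_sub_distrib, mul_sum]
  refine sum_le_sum fun p hp => ?_
  have hp' := (mem_Pr.1 hp).1
  have hp0 : (0 : ℝ) < (p : ℝ) := Nat.cast_pos.2 hp'.pos
  have e : 8 / 7 * (FF (fun u => u) a p / (p : ℝ) - FF flo a p / (p : ℝ)) =
      (8 / 7 * (FF (fun u => u) a p - FF flo a p)) / (p : ℝ) := by ring
  rw [e]
  obtain ⟨h1, h2⟩ := V12_lo a p hp'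
  split_ifs with h
  · refine div_le_div_of_nonneg_right ?_ hp0.le
    linarith
  · rw [h1 h, mul_zero, zero_div]

theorem SS_new (ε : ℝ) (hε : 0 < ε) : ∃ X0 : ℕ, ∀ X : ℕ, X0 ≤ X → ∀ a : Bool,
    (4 * Real.log (8 / 7) - ε) * Real.log (Real.log X) ≤ SS a X ∧
    SS a X ≤ (4 * Real.log (5 / 4) + ε) * Real.log (Real.log X) := by
  obtain ⟨C, hC, hm⟩ := mass (ε / 4) (by positivity)
  obtain ⟨X1, h1⟩ := w_sum fhi wt_hi (ε / 4) (by positivity)
  obtain ⟨X2, h2⟩ := w_sum flo wt_lo (ε / 4) (by positivity)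
  rw [int_hi] at h1
  rw [int_lo] at h2
  have ht : Filter.Tendsto (fun X : ℕ => Real.log (Real.log (X : ℝ))) Filter.atTop Filter.atTop :=
    Real.tendsto_log_atTop.comp (Real.tendsto_log_atTop.comp tendsto_natCast_atTop_atTop)
  obtain ⟨X3, h3⟩ := Filter.eventually_atTop.1 (ht.eventually_ge_atTop (5 * C / ε))
  refine ⟨max 3 (max X1 (max X2 X3)), fun X hX a => ?_⟩
  have g0 : 3 ≤ X := le_trans (le_max_left _ _) hX
  have g1 : X1 ≤ X := le_trans (le_trans (le_max_left _ _) (le_max_right _ _)) hX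
  have g2 : X2 ≤ X := le_trans (le_trans (le_trans (le_max_left _ _) (le_max_right _ _)) (le_max_right _ _)) hX
  have g3 : X3 ≤ X := le_trans (le_trans (le_trans (le_max_right _ _) (le_max_right _ _)) (le_max_right _ _)) hX
  have hm' := abs_le.1 (hm a X g0)
  have h1' := h1 X g1 a
  have h2' := h2 X g2 a
  have h3' := h3 X g3
  have hL : 5 * C ≤ ε * Real.log (Real.log (X : ℝ)) := by
    have h4 := (div_le_iff₀ hε).1 h3'
    linarith
  have u1 := V12_SS_up a X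
  have u2 := V12_SS_lo a X
  obtain ⟨m1, m2⟩ := hm'
  constructor
  · nlinarith
  · nlinarith

end Pool.Agent.Lib.MP_5deb1d_nt
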