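import Mathlib
import Pool.Agent.Lib.MP_5deb1d_nt.V12
import Pool.Agent.Lib.MP_5deb1d_nt.FI
import Pool.Agent.Lib.MP_5deb1d_nt.BK
import Pool.Agent.Lib.MP_5deb1d_nt.DY
import Pool.Agent.Lib.MP_5deb1d_nt.D4

/-!
JOB V13. The new constants. PROOF: as `mean_bound`, `mean_abs` in FI.lean with `SS_new` in place of `SS_bounds` (`mean_exact`; `sum_S1_abs` in D4.lean, `block` in BK.lean, `dyadic_o` in DY.lean); `4 log(5/4) - 4 log(8/7) = 4 log(35/32)`.
-/

set_option autoImplicit false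

open Finset
open ArithmeticFunction (vonMangoldt)

namespace Pool.Agent.Lib.MP_5deb1d_nt

private theorem V13_ll (c ε : ℝ) (hε : 0 < ε) : ∃ X0 : ℕ, ∀ X : ℕ, X0 ≤ X → c ≤ ε * Real.log (Real.log X) := by
  have h1 : Filter.Tendsto (fun X : ℕ => Real.log (Real.log (X : ℝ))) Filter.atTop Filter.atTop :=
    Real.tendsto_log_atTop.comp (Real.tendsto_log_atTop.comp tendsto_natCast_atTop_atTop)
  obtain ⟨X0, hX0⟩ := Filter.eventually_atTop.1 (h1.eventually_ge_atTop (c / ε))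
  refine ⟨X0, fun X hX => ?_⟩
  have h2 := hX0 X hX
  rw [div_le_iff₀ hε] at h2
  linarith [mul_comm ε (Real.log (Real.log (X : ℝ)))]

private theorem V13_log : Real.log (35 / 32) = Real.log (5 / 4) - Real.log (8 / 7) := by
  rw [← Real.log_div (by norm_num) (by norm_num)]
  norm_num

theorem mean_bound2 (ε : ℝ) (hε : 0 < ε) : ∃ X0 : ℕ, ∀ X : ℕ, X0 ≤ X →
    |∑ q ∈ Pr X, rq q / q| ≤ (2 * Real.log (35 / 32) + ε) * Real.log (Real.log X) := by
  obtain ⟨X1, h1⟩ := mean_exact (ε / 2) (by linarith)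
  obtain ⟨X2, h2⟩ := SS_new (ε / 2) (by linarith)
  refine ⟨max X1 X2, fun X hX => ?_⟩
  have a1 := h1 X (le_trans (le_max_left _ _) hX)
  have a2 := h2 X (le_trans (le_max_right _ _) hX) true
  have a3 := h2 X (le_trans (le_max_right _ _) hX) false
  have b1 := abs_le.1 a1
  rw [abs_le, V13_log]
  constructor
  · linarith [b1.1, b1.2, a2.1, a2.2, a3.1, a3.2]
  · linarith [b1.1, b1.2, a2.1, a2.2, a3.1, a3.2]

theorem mean_abs2 (ε : ℝ) (hε : 0 < ε) : ∃ X0 : ℕ, ∀ X : ℕ, X0 ≤ X →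
    ∑ q ∈ Pr X, |rq q| / q ≤ (4 * Real.log (5 / 4) + ε) * Real.log (Real.log X) := by
  obtain ⟨X1, h1⟩ := dyadic_o (fun q => rq q - S1 q) block (ε / 3) (by linarith)
  obtain ⟨C, hC, h2⟩ := sum_S1_abs
  obtain ⟨X3, h3⟩ := V13_ll C (ε / 3) (by linarith)
  obtain ⟨X4, h4⟩ := SS_new (ε / 3) (by linarith)
  refine ⟨max (max 3 X4) (max X1 X3), fun X hX => ?_⟩
  have hX3 : 3 ≤ X := le_trans (le_trans (le_max_left _ _) (le_max_left _ _)) hX
  have hX4 : X4 ≤ X := le_trans (le_trans (le_max_right _ _) (le_max_left _ _)) hX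
  have hX1 : X1 ≤ X := le_trans (le_trans (le_max_left _ _) (le_max_right _ _)) hX
  have hX5 : X3 ≤ X := le_trans (le_trans (le_max_right _ _) (le_max_right _ _)) hX
  have a1 := h1 X hX1
  have a2 := h2 X hX3
  have a3 := h3 X hX5
  have a4 := (h4 X hX4 true).2
  have a5 := (h4 X hX4 false).2
  have e1 : ∑ q ∈ Pr X, |rq q| / q ≤ ∑ q ∈ Pr X, |rq q - S1 q| / q + ∑ q ∈ Pr X, |S1 q| / q := by
    rw [← sum_add_distrib]
    refine sum_le_sum fun q _ => ?_
    rw [← add_div]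
    have : |rq q| ≤ |rq q - S1 q| + |S1 q| := by
      have := abs_add_le (rq q - S1 q) (S1 q)
      rwa [sub_add_cancel] at this
    exact div_le_div_of_nonneg_right this (Nat.cast_nonneg q)
  linarith

end Pool.Agent.Lib.MP_5deb1d_nt
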