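import Mathlib
import Pool.Agent.Lib.MP_5deb1d_nt.V13
import Pool.Agent.Lib.MP_5deb1d_nt.K21
import Pool.Agent.Lib.MP_5deb1d_nt.DY
import Pool.Agent.Lib.MP_5deb1d_nt.M1

/-!
JOB V14. A positive proportion, with the new constant: copy of K22.lean (`pos_prop`) with `2 log(35/32)` in place of `1/4` and `mean_bound2` in place of `mean_bound`.
-/

set_option autoImplicit false

open Finset
open ArithmeticFunction (vonMangoldt)

namespace Pool.Agent.Lib.MP_5deb1d_nt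

private theorem V14_ll (c ε : ℝ) (hε : 0 < ε) : ∃ X0 : ℕ, ∀ X : ℕ, X0 ≤ X → c ≤ ε * Real.log (Real.log X) := by
  have h1 : Filter.Tendsto (fun X : ℕ => Real.log (Real.log (X : ℝ))) Filter.atTop Filter.atTop :=
    Real.tendsto_log_atTop.comp (Real.tendsto_log_atTop.comp tendsto_natCast_atTop_atTop)
  obtain ⟨X0, hX0⟩ := Filter.eventually_atTop.1 (h1.eventually_ge_atTop (c / ε))
  refine ⟨X0, fun X hX => ?_⟩
  have h2 := hX0 X hX
  rw [div_le_iff₀ hε] at h2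
  linarith [mul_comm ε (Real.log (Real.log (X : ℝ)))]

private theorem V14_core (s g : ℕ → ℝ) (P : ℕ → Prop) [DecidablePred P] (S : Finset ℕ) (m c κ L C ε' : ℝ)
    (hc : 0 < c) (hs : ∀ q ∈ S, -κ - g q ≤ s q) (hg : ∀ q, 0 ≤ g q) (hP : ∀ q ∈ S, ¬ P q → c ≤ s q)
    (h1 : ∑ q ∈ S, s q / q ≤ (m + ε') * L) (h2 : L - C ≤ ∑ q ∈ S, 1 / (q : ℝ))
    (h3 : ∑ q ∈ S, g q / q ≤ ε' * L) (h4 : c * C ≤ ε' * L) :
    (c - m - 3 * ε') * L ≤ (c + κ) * ∑ q ∈ S.filter P, 1 / (q : ℝ) := by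
  have e1 := sum_filter_add_sum_filter_not S P (fun q => s q / (q : ℝ))
  have e2 := sum_filter_add_sum_filter_not S P (fun q => 1 / (q : ℝ))
  have e3 : ∑ q ∈ S.filter P, g q / (q : ℝ) ≤ ∑ q ∈ S, g q / (q : ℝ) :=
    sum_le_sum_of_subset_of_nonneg (filter_subset _ _) fun q _ _ => div_nonneg (hg q) (Nat.cast_nonneg q)
  have e4 : -κ * ∑ q ∈ S.filter P, 1 / (q : ℝ) - ∑ q ∈ S.filter P, g q / (q : ℝ) ≤
      ∑ q ∈ S.filter P, s q / (q : ℝ) := by
    rw [mul_sum, ← sum_sub_distrib]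
    refine sum_le_sum fun q hq => ?_
    have h5 := hs q (mem_filter.1 hq).1
    have h6 : -κ * (1 / (q : ℝ)) - g q / q = (-κ - g q) / q := by ring
    rw [h6]
    exact div_le_div_of_nonneg_right h5 (Nat.cast_nonneg q)
  have e5 : c * ∑ q ∈ S.filter (fun q => ¬ P q), 1 / (q : ℝ) ≤ ∑ q ∈ S.filter (fun q => ¬ P q), s q / (q : ℝ) := by
    rw [mul_sum]
    refine sum_le_sum fun q hq => ?_
    rw [mem_filter] at hq
    rw [mul_one_div]
    exact div_le_div_of_nonneg_right (hP q hq.1 hq.2) (Nat.cast_nonneg q)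
  have e6 : c * (L - C) ≤ c * ∑ q ∈ S, 1 / (q : ℝ) := mul_le_mul_of_nonneg_left h2 hc.le
  have e7 : c * ∑ q ∈ S.filter (fun q => ¬ P q), 1 / (q : ℝ) =
      c * ∑ q ∈ S, 1 / (q : ℝ) - c * ∑ q ∈ S.filter P, 1 / (q : ℝ) := by
    rw [← e2]
    ring
  linarith

private theorem V14_div (m c κ ε L A : ℝ) (h : 0 < c + κ)
    (h1 : (c - m - 3 * (ε * (c + κ) / 3)) * L ≤ (c + κ) * A) :
    ((c - m) / (c + κ) - ε) * L ≤ A := by
  have h2 : (c + κ) * (((c - m) / (c + κ) - ε) * L) = (c - m - 3 * (ε * (c + κ) / 3)) * L := by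
    field_simp
  have h3 : (c + κ) * (((c - m) / (c + κ) - ε) * L) ≤ (c + κ) * A := by
    rw [h2]
    exact h1
  exact le_of_mul_le_mul_left h3 h

open Classical in
theorem pos_prop2 (c ε : ℝ) (hc : 2 * Real.log (35 / 32) < c) (hε : 0 < ε) : ∃ X0 : ℕ, ∀ X : ℕ, X0 ≤ X →
    ((c - 2 * Real.log (35 / 32)) / (c + 2 * Real.log 2) - ε) * Real.log (Real.log X) ≤
      ∑ q ∈ (Pr X).filter (fun q => rq q ≤ c), 1 / (q : ℝ) ∧
    ((c - 2 * Real.log (35 / 32)) / (c + 2 * Real.log 2) - ε) * Real.log (Real.log X) ≤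
      ∑ q ∈ (Pr X).filter (fun q => -c ≤ rq q), 1 / (q : ℝ) := by
  have hm0 : 0 < Real.log (35 / 32) := Real.log_pos (by norm_num)
  have hc0 : 0 < c := by linarith
  have hl2 : 0 < Real.log 2 := Real.log_pos (by norm_num)
  have hcκ : 0 < c + 2 * Real.log 2 := by linarith
  obtain ⟨ε', hε'def⟩ : ∃ ε' : ℝ, ε' = ε * (c + 2 * Real.log 2) / 3 := ⟨_, rfl⟩
  have hε' : 0 < ε' := by
    rw [hε'def]
    positivity
  obtain ⟨C, hC, hM⟩ := mertens2
  obtain ⟨X1, h1⟩ := mean_bound2 ε' hε'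
  obtain ⟨X2, h2⟩ := dyadic_o (fun q => max 0 (|rq q| - 2 * Real.log 2)) (by
    intro δ hδ
    obtain ⟨Q0, hQ⟩ := excess δ hδ
    refine ⟨Q0, fun Q hQQ => ?_⟩
    have h3 := hQ Q hQQ
    refine le_trans (le_of_eq (sum_congr rfl fun q _ => ?_)) h3
    exact abs_of_nonneg (le_max_left _ _)) ε' hε'
  obtain ⟨X3, h3⟩ := V14_ll (c * C) ε' hε'
  refine ⟨max (max 3 X1) (max X2 X3), fun X hX => ?_⟩
  have hX3 : 3 ≤ X := le_trans (le_trans (le_max_left _ _) (le_max_left _ _)) hX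
  have hX1 : X1 ≤ X := le_trans (le_trans (le_max_right _ _) (le_max_left _ _)) hX
  have hX2 : X2 ≤ X := le_trans (le_trans (le_max_left _ _) (le_max_right _ _)) hX
  have hX4 : X3 ≤ X := le_trans (le_trans (le_max_right _ _) (le_max_right _ _)) hX
  have a0 := (abs_le.1 (hM X hX3)).1
  have a1 := abs_le.1 (h1 X hX1)
  have a2 : ∑ q ∈ Pr X, max 0 (|rq q| - 2 * Real.log 2) / (q : ℝ) ≤ ε' * Real.log (Real.log X) := by
    refine le_trans (le_of_eq (sum_congr rfl fun q _ => ?_)) (h2 X hX2)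
    rw [abs_of_nonneg (le_max_left 0 (|rq q| - 2 * Real.log 2))]
  have a3 := h3 X hX4
  have hlow : Real.log (Real.log X) - C ≤ ∑ q ∈ Pr X, 1 / (q : ℝ) := by linarith
  have hg : ∀ q : ℕ, 0 ≤ max 0 (|rq q| - 2 * Real.log 2) := fun q => le_max_left _ _
  constructor
  · refine V14_div (2 * Real.log (35 / 32)) c (2 * Real.log 2) ε _ _ hcκ ?_
    rw [← hε'def]
    refine V14_core rq (fun q => max 0 (|rq q| - 2 * Real.log 2)) (fun q => rq q ≤ c) (Pr X) (2 * Real.log (35 / 32)) c (2 * Real.log 2)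
      (Real.log (Real.log X)) C ε' hc0 (fun q _ => ?_) hg (fun q _ hq => (not_le.1 hq).le) a1.2 hlow a2 a3
    have b1 := neg_abs_le (rq q)
    have b2 := le_max_right 0 (|rq q| - 2 * Real.log 2)
    linarith
  · refine V14_div (2 * Real.log (35 / 32)) c (2 * Real.log 2) ε _ _ hcκ ?_
    rw [← hε'def]
    refine V14_core (fun q => -rq q) (fun q => max 0 (|rq q| - 2 * Real.log 2)) (fun q => -c ≤ rq q) (Pr X) (2 * Real.log (35 / 32)) c
      (2 * Real.log 2) (Real.log (Real.log X)) C ε' hc0 (fun q _ => ?_) hg (fun q _ hq => ?_) ?_ hlow a2 a3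
    · have b1 := le_abs_self (rq q)
      have b2 := le_max_right 0 (|rq q| - 2 * Real.log 2)
      linarith
    · have b1 := not_le.1 hq
      linarith
    · have b1 : ∑ q ∈ Pr X, -rq q / (q : ℝ) = -∑ q ∈ Pr X, rq q / (q : ℝ) := by
        rw [← sum_neg_distrib]
        exact sum_congr rfl fun q _ => neg_div _ _
      rw [b1]
      linarith [a1.1]

end Pool.Agent.Lib.MP_5deb1d_nt
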