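import Mathlib
import Pool.Agent.Lib.MP_5deb1d_nt.K0
import Pool.Agent.Lib.MP_5deb1d_nt.K21

/-!
JOB V15. The mean of `|r(q)|` over the primes `q ≤ X` (natural, not logarithmic). PROOF: let `g q = max 0 (|rq q| - 2 log 2)`; `excess ε'` gives `∑_{q ∈ PB Q} g q ≤ ε' Q/log Q` for `Q ≥ Q0`. Use the blocks
`PB Q_i`, `Q_i = ⌈X/2^i⌉` (e.g. `Q_0 = X`, `Q_(i+1) = (Q_i + 1)/2`, so `Q_i ≤ 2 Q_(i+1)`): for `i ≥ 1`, as long as `Q_i ≥ Q0`, they cover all primes `q ≤ X` with `q > Q2`, `Q2` a constant (`Q2 ≤ 2 Q0 + 2`), with no exception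
(`(Q_(i+1), Q_i] ⊆ (Q_(i+1), 2 Q_(i+1)]`; strong induction on `X` is a possible form: `∑_{q ∈ Pr X} g q ≤ ∑_{q ∈ Pr ((X+1)/2)} g q + ε' ((X+1)/2)/log((X+1)/2)`). The blocks with `Q_i ≥ √X` give at most
`∑_i ε' (X/2^i + 1)/(log √X) ≤ 4 ε' X/log X * (1 + o(1))`, the others `≤ 4 ε' √X` (`Q/log Q ≤ Q`), the primes `q ≤ Q2` a constant. `π(X) ≥ c X/log X` (`Chebyshev.pi_ge` in Mathlib, used in K19.lean, whose end may be copied).
Finally `|rq q| ≤ 2 log 2 + g q` and `#(Pr X) = π(X)`.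
-/

set_option autoImplicit false

open Finset

namespace Pool.Agent.Lib.MP_5deb1d_nt

private lemma V15_log (c : ℝ) (hc : 0 < c) :
    ∃ N : ℕ, ∀ n : ℕ, N ≤ n → Real.log n ≤ c * n := by
  have h := Real.isLittleO_log_id_atTop.def hc
  have h2 := (tendsto_natCast_atTop_atTop (R := ℝ)).eventually h
  obtain ⟨N, hN⟩ := Filter.eventually_atTop.1 h2
  refine ⟨N, fun n hn => ?_⟩
  have h3 := hN n hn
  simp only [id, Real.norm_eq_abs] at h3
  rw [abs_of_nonneg (Nat.cast_nonneg n : (0 : ℝ) ≤ n)] at h3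
  exact (le_abs_self _).trans h3

private lemma V15_step (δ : ℝ) (hδ : 0 < δ) (X : ℕ) (hX2 : 3 ^ 10 ≤ X) :
    5 * δ * ((((X + 1) / 2 : ℕ) : ℝ) / Real.log (((X + 1) / 2 : ℕ) : ℝ))
      ≤ 4 * δ * ((X : ℝ) / Real.log X) := by
  have hXr : (3 : ℝ) ^ 10 ≤ X := by exact_mod_cast hX2
  have h3 : 0 < Real.log 3 := Real.log_pos (by norm_num)
  have hl10 : 10 * Real.log 3 ≤ Real.log X := by
    have h := Real.log_le_log (by norm_num : (0 : ℝ) < 3 ^ 10) hXr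
    rw [Real.log_pow] at h
    exact_mod_cast h
  have hLpos : 0 < Real.log X := by linarith
  have hXpos : (0 : ℝ) < X := lt_of_lt_of_le (by norm_num) hXr
  obtain ⟨Y, hY⟩ : ∃ Y : ℕ, Y = (X + 1) / 2 := ⟨_, rfl⟩
  rw [← hY]
  have hY1 : (Y : ℝ) ≤ 3 / 5 * X := by
    have h : 2 * Y ≤ X + 1 := by omega
    have h' : (2 : ℝ) * Y ≤ X + 1 := by exact_mod_cast h
    have h4 : (10 : ℝ) ≤ X := le_trans (by norm_num) hXr
    linarith
  have hY2 : (X : ℝ) / 3 ≤ Y := by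
    have h : X ≤ 3 * Y := by omega
    have h' : (X : ℝ) ≤ 3 * Y := by exact_mod_cast h
    linarith
  have hlY : 9 / 10 * Real.log X ≤ Real.log Y := by
    have h := Real.log_le_log (by positivity) hY2
    rw [Real.log_div hXpos.ne' (by norm_num)] at h
    linarith
  have h1 : (Y : ℝ) / Real.log Y ≤ (3 / 5 * X) / (9 / 10 * Real.log X) :=
    div_le_div₀ (by positivity) hY1 (by positivity) hlY
  have h4 : (3 / 5 * X : ℝ) / (9 / 10 * Real.log X) = 2 / 3 * (X / Real.log X) := by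
    field_simp
    norm_num
  rw [h4] at h1
  have h5 := mul_le_mul_of_nonneg_left h1 (by positivity : (0 : ℝ) ≤ 5 * δ)
  have h6 : 5 * δ * (2 / 3 * ((X : ℝ) / Real.log X)) = 10 / 3 * (δ * (X / Real.log X)) := by
    ring
  have h7 : 4 * δ * ((X : ℝ) / Real.log X) = 4 * (δ * (X / Real.log X)) := by ring
  have h8 : 0 ≤ δ * ((X : ℝ) / Real.log X) := by positivity
  rw [h6] at h5
  rw [h7]
  linarith

private lemma V15_split (g : ℕ → ℝ) (hg : ∀ q, 0 ≤ g q) (X : ℕ) :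
    ∑ q ∈ Pr X, g q ≤ ∑ q ∈ Pr ((X + 1) / 2), g q + ∑ q ∈ PB ((X + 1) / 2), g q := by
  have hsub : Pr X ⊆ Pr ((X + 1) / 2) ∪ PB ((X + 1) / 2) := by
    intro q hq
    rw [mem_Pr] at hq
    obtain ⟨hp, hX⟩ := hq
    rw [mem_union, mem_Pr, mem_PB]
    by_cases h1 : q ≤ (X + 1) / 2
    · exact Or.inl ⟨hp, h1⟩
    · exact Or.inr ⟨hp, by omega, by omega⟩
  refine (sum_le_sum_of_subset_of_nonneg hsub fun q _ _ => hg q).trans ?_
  have h := sum_union_inter (s₁ := Pr ((X + 1) / 2)) (s₂ := PB ((X + 1) / 2)) (f := g)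
  have h2 : 0 ≤ ∑ q ∈ Pr ((X + 1) / 2) ∩ PB ((X + 1) / 2), g q := sum_nonneg fun q _ => hg q
  linarith

private lemma V15_ind (g : ℕ → ℝ) (hg : ∀ q, 0 ≤ g q) (δ : ℝ) (hδ : 0 < δ) (Q0 : ℕ)
    (hQ0 : ∀ Q : ℕ, Q0 ≤ Q → ∑ q ∈ PB Q, g q ≤ δ * (Q / Real.log Q)) :
    ∃ C : ℝ, ∀ X : ℕ, ∑ q ∈ Pr X, g q ≤ 4 * δ * (X / Real.log X) + C := by
  refine ⟨∑ q ∈ Pr (3 ^ 10 + 2 * Q0), g q, fun X => ?_⟩
  induction X using Nat.strong_induction_on with
  | _ X ih =>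
    by_cases hX : X < 3 ^ 10 + 2 * Q0
    · have hsub : Pr X ⊆ Pr (3 ^ 10 + 2 * Q0) := by
        intro q hq
        rw [mem_Pr] at hq ⊢
        exact ⟨hq.1, hq.2.trans hX.le⟩
      have h2 : ∑ q ∈ Pr X, g q ≤ ∑ q ∈ Pr (3 ^ 10 + 2 * Q0), g q :=
        sum_le_sum_of_subset_of_nonneg hsub fun q _ _ => hg q
      have h3 : 0 ≤ 4 * δ * ((X : ℝ) / Real.log X) := by
        have := Real.log_natCast_nonneg X
        positivity
      exact le_add_of_nonneg_of_le h3 h2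
    · have hX' : 3 ^ 10 + 2 * Q0 ≤ X := not_lt.1 hX
      have hs := V15_step δ hδ X (by omega)
      have hq := hQ0 ((X + 1) / 2) (by omega)
      have hi := ih ((X + 1) / 2) (by omega)
      have hsp := V15_split g hg X
      linarith

private lemma V15_card (X : ℕ) : (Pr X).card = Nat.primeCounting X := by
  rw [Nat.primeCounting, Nat.primeCounting', Nat.count_eq_card_filter_range]
  refine congrArg card (Finset.ext fun q => ?_)
  rw [mem_Pr, mem_filter, mem_range]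
  constructor
  · rintro ⟨h1, h2⟩
    exact ⟨by omega, h1⟩
  · rintro ⟨h1, h2⟩
    exact ⟨h2, by omega⟩

theorem nat_excess (ε : ℝ) (hε : 0 < ε) : ∃ X0 : ℕ, ∀ X : ℕ, X0 ≤ X →
    ∑ q ∈ Pr X, max 0 (|rq q| - 2 * Real.log 2) ≤ ε * (Nat.primeCounting X : ℝ) := by
  obtain ⟨Q0, hQ0⟩ := excess (ε / 16) (by positivity)
  obtain ⟨C, hC⟩ := V15_ind (fun q => max 0 (|rq q| - 2 * Real.log 2)) (fun q => le_max_left _ _)
    (ε / 16) (by positivity) Q0 hQ0
  obtain ⟨N1, hN1⟩ := V15_log (1 / 10) (by norm_num)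
  obtain ⟨N2, hN2⟩ := V15_log (ε / 4 / (|C| + 1)) (by positivity)
  refine ⟨N1 + N2 + 2, fun X hX => ?_⟩
  have hX2 : 2 ≤ X := by omega
  have hXr : (2 : ℝ) ≤ X := by exact_mod_cast hX2
  have hLpos : 0 < Real.log X := Real.log_pos (by linarith)
  have ha := hN1 (X + 1) (by omega)
  have hb := hN2 X (by omega)
  push_cast at ha
  have hπ : 1 / 2 * ((X : ℝ) / Real.log X) ≤ (Nat.primeCounting X : ℝ) := by
    refine le_trans ?_ (Chebyshev.pi_ge X)
    rw [mul_div_assoc']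
    refine div_le_div_of_nonneg_right ?_ hLpos.le
    have hl2 : (0.6931471803 : ℝ) < Real.log 2 := Real.log_two_gt_d9
    nlinarith
  have hCX : C ≤ ε / 4 * ((X : ℝ) / Real.log X) := by
    rw [mul_div_assoc', le_div_iff₀ hLpos]
    have h1 : (|C| + 1) * Real.log X ≤ ε / 4 * X := by
      have h := mul_le_mul_of_nonneg_left hb (by positivity : (0 : ℝ) ≤ |C| + 1)
      have h' : (|C| + 1) * (ε / 4 / (|C| + 1) * X) = ε / 4 * X := by
        have : |C| + 1 ≠ 0 := by positivity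
        field_simp
      rw [h'] at h
      exact h
    have h2 : C * Real.log X ≤ (|C| + 1) * Real.log X := by
      refine mul_le_mul_of_nonneg_right ?_ hLpos.le
      linarith [le_abs_self C]
    exact h2.trans h1
  have hfin := hC X
  have h8 := mul_le_mul_of_nonneg_left hπ hε.le
  have h9 : ε * (1 / 2 * ((X : ℝ) / Real.log X)) = ε / 2 * (X / Real.log X) := by ring
  have h10 : 4 * (ε / 16) * ((X : ℝ) / Real.log X) = ε / 4 * (X / Real.log X) := by ring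
  have h11 : ε / 2 * ((X : ℝ) / Real.log X)
      = ε / 4 * (X / Real.log X) + ε / 4 * (X / Real.log X) := by ring
  rw [h9, h11] at h8
  rw [h10] at hfin
  linarith

theorem nat_mean (ε : ℝ) (hε : 0 < ε) : ∃ X0 : ℕ, ∀ X : ℕ, X0 ≤ X →
    ∑ q ∈ Pr X, |rq q| ≤ (2 * Real.log 2 + ε) * (Nat.primeCounting X : ℝ) := by
  obtain ⟨X0, h0⟩ := nat_excess ε hε
  refine ⟨X0, fun X hX => ?_⟩
  have h1 := h0 X hX
  have h12 : ∑ q ∈ Pr X, |rq q|
      ≤ ∑ q ∈ Pr X, (2 * Real.log 2 + max 0 (|rq q| - 2 * Real.log 2)) := by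
    refine sum_le_sum fun q _ => ?_
    have := le_max_right 0 (|rq q| - 2 * Real.log 2)
    linarith
  rw [sum_add_distrib, sum_const, nsmul_eq_mul, V15_card] at h12
  linarith

end Pool.Agent.Lib.MP_5deb1d_nt
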